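import Pool.Agent.Lib_MP_d687bf.HomFin

/-!
MP_d687bf, A7: (1.5) and (3.3).

(1.5): let `ψ : FF p → ℤ/p` be the hom with `x ↦ 1, y ↦ 0` and `V = ker ψ`. The crossed hom
`A : FF p → Map(ℤ/p, k)` (action `(g φ)(c) = φ (c - ψ g)`) with `A x = 0`, `A y = δ_0` exists
(a hom to a finite `p`-group); its `p` coordinate functions restricted to `V` are homs `V → k`,
linearly independent, because `A (x^i y x^-i) = δ_i`. With the hom which is `1` on `x^p` and `0` on
all `x^i y x^-i` (crossed hom with `A x = δ_0, A y = 0`) one has `p + 1 ≥ 4` independent homs for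
odd `p`. (Explicitly for `p = 3` or in general.)

The file uses `ℤ/p^2` instead of `ℤ/p`: then the coordinates `0, 1, 2, 3` of `A` suffice.
-/

set_option autoImplicit false

open Set Filter Topology

namespace D687

variable {p : ℕ} [Fact p.Prime]

/-- A hom from the free group to a finite `p`-group extends to `FF p`. -/
private theorem Base_exists_hom (E : Type) [Group E] [Finite E] (hE : IsPGroup p E)
    (φ : Fr →* E) : ∃ Φ : FF p →* E, (∀ w, Φ (io p w) = φ w) ∧
      ∀ (Y : Type) [TopologicalSpace Y] (F : E → Y), Continuous (fun g => F (Φ g)) := by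
  have hidx : ∃ n : ℕ, φ.ker.index = p ^ n := by
    rw [Subgroup.index_ker]
    exact IsPGroup.iff_card.1 (hE.to_subgroup φ.range)
  let N : NIdx p := ⟨φ.ker, inferInstance, hidx⟩
  obtain ⟨f, hfc, -, hf⟩ := exists_proj N
  let k : Qt p N →* E := QuotientGroup.kerLift φ
  refine ⟨k.comp f, fun w => ?_, fun Y _ F => ?_⟩
  · rw [MonoidHom.comp_apply, hf]
    exact QuotientGroup.kerLift_mk φ w
  · exact (continuous_of_discreteTopology (f := fun q : Qt p N => F (k q))).comp hfc

/-- The wreath product of `ZMod p` and `ZMod N`. -/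
private def BaseWR (p N : ℕ) : Type := (ZMod N → ZMod p) × ZMod N

private instance (N : ℕ) : Group (BaseWR p N) where
  mul x y := (fun c => x.1 c + y.1 (c - x.2), x.2 + y.2)
  one := (0, 0)
  inv x := (fun c => - x.1 (c + x.2), - x.2)
  mul_assoc x y z := by
    refine Prod.ext ?_ ?_
    · funext c
      change (x.1 c + y.1 (c - x.2)) + z.1 (c - (x.2 + y.2)) =
        x.1 c + (y.1 (c - x.2) + z.1 (c - x.2 - y.2))
      rw [sub_sub, add_assoc]
    · exact add_assoc _ _ _
  one_mul x := by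
    refine Prod.ext ?_ ?_
    · funext c
      change (0 : ZMod p) + x.1 (c - 0) = x.1 c
      rw [sub_zero, zero_add]
    · exact zero_add _
  mul_one x := by
    refine Prod.ext ?_ ?_
    · funext c
      change x.1 c + (0 : ZMod p) = x.1 c
      rw [add_zero]
    · exact add_zero _
  inv_mul_cancel x := by
    refine Prod.ext ?_ ?_
    · funext c
      change - x.1 (c + x.2) + x.1 (c - - x.2) = 0
      rw [sub_neg_eq_add, neg_add_cancel]
    · exact neg_add_cancel _

private theorem BaseWR_fst {N : ℕ} (x y : BaseWR p N) (c : ZMod N) :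
    (x * y).1 c = x.1 c + y.1 (c - x.2) := rfl

private theorem BaseWR_snd {N : ℕ} (x y : BaseWR p N) : (x * y).2 = x.2 + y.2 := rfl

private theorem BaseWR_one_fst {N : ℕ} (c : ZMod N) : (1 : BaseWR p N).1 c = 0 := rfl

private theorem BaseWR_one_snd {N : ℕ} : (1 : BaseWR p N).2 = 0 := rfl

private theorem BaseWR_inv_snd {N : ℕ} (x : BaseWR p N) : (x⁻¹).2 = - x.2 := rfl

private theorem BaseWR_pow_snd {N : ℕ} (x : BaseWR p N) (i : ℕ) : (x ^ i).2 = i * x.2 := by
  induction i with
  | zero => rw [pow_zero, BaseWR_one_snd, Nat.cast_zero, zero_mul]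
  | succ i ih => rw [pow_succ, BaseWR_snd, ih]; push_cast; ring

private theorem BaseWR_conj {N : ℕ} (x y : BaseWR p N) (hy : y.2 = 0) (c : ZMod N) :
    (x * y * x⁻¹).1 c = y.1 (c - x.2) := by
  have h1 : (x * x⁻¹).1 c = 0 := by rw [mul_inv_cancel]; rfl
  rw [BaseWR_fst] at h1
  rw [BaseWR_fst, BaseWR_fst, BaseWR_snd, hy, add_zero]
  linear_combination h1

private theorem BaseWR_conj_snd {N : ℕ} (x y : BaseWR p N) (hy : y.2 = 0) :
    (x * y * x⁻¹).2 = 0 := by
  rw [BaseWR_snd, BaseWR_snd, hy, BaseWR_inv_snd]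
  ring

private instance (n : ℕ) : Finite (BaseWR p (p ^ n)) := by
  have h1 : NeZero (p ^ n) := ⟨pow_ne_zero _ (Fact.out : p.Prime).ne_zero⟩
  have h2 : NeZero p := ⟨(Fact.out : p.Prime).ne_zero⟩
  exact inferInstanceAs (Finite ((ZMod (p ^ n) → ZMod p) × ZMod (p ^ n)))

private theorem BaseWR_isPGroup (n : ℕ) : IsPGroup p (BaseWR p (p ^ n)) := by
  have h1 : NeZero (p ^ n) := ⟨pow_ne_zero _ (Fact.out : p.Prime).ne_zero⟩
  have h2 : NeZero p := ⟨(Fact.out : p.Prime).ne_zero⟩
  refine IsPGroup.of_card (n := p ^ n + n) ?_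
  have h3 : Nat.card (BaseWR p (p ^ n)) = Nat.card ((ZMod (p ^ n) → ZMod p) × ZMod (p ^ n)) := rfl
  rw [h3, Nat.card_prod, Nat.card_pi, Finset.prod_const, Nat.card_zmod, Nat.card_zmod,
    Finset.card_univ, ZMod.card, pow_add]

/-- (1.5) -/
theorem exists_rank_four (hp : p ≠ 2) : ∃ V : Subgroup (FF p), IsOpen (V : Set (FF p)) ∧
    4 ≤ Module.finrank (ZMod p) (Hk (p := p) V) := by
  classical
  let X0 : BaseWR p (p ^ 2) := ((0 : ZMod (p ^ 2) → ZMod p), (1 : ZMod (p ^ 2)))
  let Y0 : BaseWR p (p ^ 2) := (Pi.single (0 : ZMod (p ^ 2)) (1 : ZMod p), (0 : ZMod (p ^ 2)))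
  obtain ⟨Φ, hΦ, hΦc⟩ := Base_exists_hom (BaseWR p (p ^ 2)) (BaseWR_isPGroup 2)
    (FreeGroup.lift (fun j : Fin 2 => if j = 0 then X0 else Y0))
  let V : Subgroup (FF p) :=
    { carrier := {g | (Φ g).2 = 0}
      mul_mem' := by
        intro a b ha hb
        change (Φ (a * b)).2 = 0
        rw [map_mul, BaseWR_snd, show (Φ a).2 = 0 from ha, show (Φ b).2 = 0 from hb, add_zero]
      one_mem' := by
        change (Φ 1).2 = 0
        rw [map_one]
        rfl
      inv_mem' := by
        intro a ha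
        change (Φ a⁻¹).2 = 0
        rw [map_inv, BaseWR_inv_snd, show (Φ a).2 = 0 from ha, neg_zero] }
  have hVmem : ∀ g, g ∈ V ↔ (Φ g).2 = 0 := fun g => Iff.rfl
  have hVo : IsOpen (V : Set (FF p)) := by
    have h1 : Continuous (fun g => decide ((Φ g).2 = 0)) :=
      hΦc Bool (fun e => decide (e.2 = 0))
    have h2 : (V : Set (FF p)) = (fun g => decide ((Φ g).2 = 0)) ⁻¹' {true} := by
      ext g
      rw [SetLike.mem_coe, hVmem, mem_preimage, mem_singleton_iff, decide_eq_true_iff]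
    rw [h2]
    exact (isOpen_discrete _).preimage h1
  refine ⟨V, hVo, ?_⟩
  have hfin : Module.Finite (ZMod p) (Hk (p := p) V) := finite_Hk V hVo
  have hmem : ∀ c : ZMod (p ^ 2),
      (fun g => if (Φ g).2 = 0 then (Φ g).1 c else 0) ∈ Hk (p := p) V := by
    intro c
    refine ⟨hΦc (ZMod p) (fun e => if e.2 = 0 then e.1 c else 0), fun x hx => ?_,
      fun g hg h hh => ?_⟩
    · exact if_neg hx
    · have h1 : (Φ (g * h)).2 = 0 := V.mul_mem hg hh
      have h2 : (Φ g).2 = 0 := hg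
      have h3 : (Φ h).2 = 0 := hh
      change (if (Φ (g * h)).2 = 0 then (Φ (g * h)).1 c else 0) =
        (if (Φ g).2 = 0 then (Φ g).1 c else 0) + (if (Φ h).2 = 0 then (Φ h).1 c else 0)
      rw [if_pos h1, if_pos h2, if_pos h3, map_mul, BaseWR_fst, h2, sub_zero]
  let y : ℕ → FF p := fun i => gen p 0 ^ i * gen p 1 * (gen p 0 ^ i)⁻¹
  have hx0 : Φ (gen p 0) = X0 := by
    rw [gen, hΦ, FreeGroup.lift_apply_of, if_pos rfl]
  have hy0 : Φ (gen p 1) = Y0 := by
    rw [gen, hΦ, FreeGroup.lift_apply_of, if_neg (by decide)]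
  have hyΦ : ∀ i, Φ (y i) = X0 ^ i * Y0 * (X0 ^ i)⁻¹ := by
    intro i
    rw [map_mul, map_mul, map_inv, map_pow, hx0, hy0]
  have hy2 : ∀ i, (Φ (y i)).2 = 0 := fun i => by
    rw [hyΦ, BaseWR_conj_snd _ _ rfl]
  have hy1 : ∀ (i : ℕ) (c : ZMod (p ^ 2)), (Φ (y i)).1 c = if c = i then 1 else 0 := by
    intro i c
    rw [hyΦ, BaseWR_conj _ _ rfl, BaseWR_pow_snd]
    change (Pi.single (0 : ZMod (p ^ 2)) (1 : ZMod p) : ZMod (p ^ 2) → ZMod p)
      (c - i * (1 : ZMod (p ^ 2))) = _
    rw [mul_one, Pi.single_apply]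
    by_cases hci : c = i
    · rw [if_pos hci, if_pos (by rw [hci, sub_self])]
    · rw [if_neg hci, if_neg (fun h => hci (sub_eq_zero.1 h))]
  let a : Fin 4 → Hk (p := p) V := fun i => ⟨_, hmem ((i : ℕ) : ZMod (p ^ 2))⟩
  have hp4 : 4 ≤ p ^ 2 := by
    have := (Fact.out : p.Prime).two_le
    nlinarith
  have hev : ∀ i j : Fin 4, (a i : FF p → ZMod p) (y j) = if i = j then 1 else 0 := by
    intro i j
    change (if (Φ (y j)).2 = 0 then (Φ (y j)).1 ((i : ℕ) : ZMod (p ^ 2)) else 0) = _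
    rw [if_pos (hy2 _), hy1]
    by_cases hij : i = j
    · rw [if_pos hij, hij, if_pos rfl]
    · rw [if_neg hij, if_neg]
      intro h
      apply hij
      rw [ZMod.natCast_eq_natCast_iff'] at h
      rw [Nat.mod_eq_of_lt (by omega), Nat.mod_eq_of_lt (by omega)] at h
      exact Fin.ext h
  have hli : LinearIndependent (ZMod p) a := by
    rw [Fintype.linearIndependent_iff]
    intro g hg j
    have h1 := congrArg (fun f : Hk (p := p) V => (f : FF p → ZMod p) (y j)) hg
    simp only [Submodule.coe_sum, Submodule.coe_smul, Finset.sum_apply, Pi.smul_apply,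
      smul_eq_mul, hev, mul_ite, mul_one, mul_zero, Finset.sum_ite_eq', Finset.mem_univ,
      if_true] at h1
    exact h1
  have h4 := hli.fintype_card_le_finrank
  rwa [Fintype.card_fin] at h4

/-- (3.3) The empty datum has (BR): `R = ⊥`, `C_V(k) = 0`, `T_V(k) = 0`. -/
theorem BR_empty (hp : p ≠ 2) (D : Datum p) (h : D.n = 0) : BR D := by
  have hemp : IsEmpty (Fin D.n) := by rw [h]; infer_instance
  obtain ⟨V, hVo, hV4⟩ := exists_rank_four hp
  have hsub : Subsingleton (TV D V) := by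
    refine ⟨fun a b => ?_⟩
    obtain ⟨a, rfl⟩ := Submodule.Quotient.mk_surjective _ a
    obtain ⟨b, rfl⟩ := Submodule.Quotient.mk_surjective _ b
    rw [show a = b from Subtype.ext (funext fun i => (hemp.false i).elim)]
  have hb : bV D V = 0 := Module.finrank_zero_of_subsingleton
  refine ⟨V, ⟨hVo, ?_, fun g i => (hemp.false i).elim⟩, 0, ?_, ?_, ?_⟩
  · refine Subgroup.topologicalClosure_minimal _ ?_ (Subgroup.isClosed_of_isOpen V hVo)
    have h1 : Set.range D.r = ∅ := Set.range_eq_empty _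
    rw [h1]
    exact Subgroup.normalClosure_le_normal (Set.empty_subset _) |>.trans (bot_le (a := V))
  · intro a b F _
    refine ⟨⟨fun i => (hemp.false i).elim, fun i => (hemp.false i).elim⟩, Subsingleton.elim _ _⟩
  · rw [hb, zero_add]
    have h2 : HH D V = Hk (p := p) V := by
      refine inf_eq_left.2 fun α _ => ?_
      rw [LinearMap.mem_ker]
      exact funext fun i => (hemp.false i).elim
    rw [h2]
    exact hV4
  · intro κ hκ
    refine absurd (LinearMap.ext fun x => ?_) hκ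
    rw [Subsingleton.elim x 0, map_zero, map_zero]

end D687
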