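import Pool.Agent.Lib_MP_d687bf.E8Fix

/-!
MP_d687bf, (8.5): the central extension.
-/

set_option autoImplicit false

open Set Filter Topology

namespace D687

variable {p : ℕ} [Fact p.Prime] {D : Datum p}

private theorem E8Cent_mul {V : Subgroup (FF p)} {a : FF p → ZMod p} (ha : a ∈ Hk (p := p) V)
    {g h : FF p} (hg : g ∈ V) (hh : h ∈ V) : a (g * h) = a g + a h := ha.mul g hg h hh

private theorem E8Cent_one {V : Subgroup (FF p)} {a : FF p → ZMod p} (ha : a ∈ Hk (p := p) V) :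
    a 1 = 0 := by
  have h := E8Cent_mul ha V.one_mem V.one_mem
  rw [mul_one] at h
  linear_combination -h

private theorem E8Cent_inv {V : Subgroup (FF p)} {a : FF p → ZMod p} (ha : a ∈ Hk (p := p) V)
    {g : FF p} (hg : g ∈ V) : a g⁻¹ = -a g := by
  have h := E8Cent_mul ha hg (V.inv_mem hg)
  rw [mul_inv_cancel, E8Cent_one ha] at h
  linear_combination -h

private theorem E8Cent_conj {V : Subgroup (FF p)} {a : FF p → ZMod p} (ha : a ∈ Hk (p := p) V)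
    {g h : FF p} (hg : g ∈ V) (hh : h ∈ V) : a (g * h * g⁻¹) = a h := by
  rw [E8Cent_mul ha (V.mul_mem hg hh) (V.inv_mem hg), E8Cent_mul ha hg hh, E8Cent_inv ha hg]
  ring

private theorem E8Cent_zpow {V : Subgroup (FF p)} {a : FF p → ZMod p} (ha : a ∈ Hk (p := p) V)
    {g : FF p} (hg : g ∈ V) (c : ℤ) : a (g ^ c) = c * a g := by
  induction c using Int.induction_on with
  | zero => simp [E8Cent_one ha]
  | succ i ih =>
    rw [zpow_add_one, E8Cent_mul ha (V.zpow_mem hg _) hg, ih]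
    push_cast
    ring
  | pred i ih =>
    rw [zpow_sub_one, E8Cent_mul ha (V.zpow_mem hg _) (V.inv_mem hg), ih, E8Cent_inv ha hg]
    push_cast
    ring

/-- the kernel `K` -/
private def E8Cent_K (V : Subgroup (FF p)) (a : FF p → ZMod p) (ha : a ∈ Hk (p := p) V) :
    Subgroup (FF p) where
  carrier := {v | v ∈ V.normalCore ∧ ∀ g, a (g * v * g⁻¹) = 0}
  mul_mem' := by
    rintro v w ⟨hv, hv'⟩ ⟨hw, hw'⟩
    refine ⟨V.normalCore.mul_mem hv hw, fun g => ?_⟩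
    have h1 : g * (v * w) * g⁻¹ = (g * v * g⁻¹) * (g * w * g⁻¹) := by group
    rw [h1, E8Cent_mul ha (V.normalCore_le (V.normalCore_normal.conj_mem v hv g))
      (V.normalCore_le (V.normalCore_normal.conj_mem w hw g)), hv' g, hw' g, add_zero]
  one_mem' := ⟨V.normalCore.one_mem, fun g => by
    rw [mul_one, mul_inv_cancel]
    exact E8Cent_one ha⟩
  inv_mem' := by
    rintro v ⟨hv, hv'⟩
    refine ⟨V.normalCore.inv_mem hv, fun g => ?_⟩
    have h1 : g * v⁻¹ * g⁻¹ = (g * v * g⁻¹)⁻¹ := by group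
    rw [h1, E8Cent_inv ha (V.normalCore_le (V.normalCore_normal.conj_mem v hv g)), hv' g, neg_zero]

private theorem E8Cent_K_normal (V : Subgroup (FF p)) (a : FF p → ZMod p)
    (ha : a ∈ Hk (p := p) V) : (E8Cent_K V a ha).Normal := by
  refine ⟨fun v hv h => ?_⟩
  obtain ⟨h1, h2⟩ := hv
  refine ⟨V.normalCore_normal.conj_mem v h1 h, fun g => ?_⟩
  have h3 : g * (h * v * h⁻¹) * g⁻¹ = (g * h) * v * (g * h)⁻¹ := by group
  rw [h3]
  exact h2 (g * h)

private theorem E8Cent_K_open (V : Subgroup (FF p)) (hV : IsOpen (V : Set (FF p)))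
    (a : FF p → ZMod p) (ha : a ∈ Hk (p := p) V) :
    IsOpen (E8Cent_K V a ha : Set (FF p)) := by
  obtain ⟨n, hn⟩ := index_open V hV
  have hfi : V.FiniteIndex := ⟨by
    rw [hn]
    exact pow_ne_zero _ (Fact.out : p.Prime).ne_zero⟩
  have h1 : (E8Cent_K V a ha : Set (FF p)) = (V.normalCore : Set (FF p)) ∩
      ⋂ q : FF p ⧸ V, {v | a ((Quotient.out q)⁻¹ * v * ((Quotient.out q)⁻¹)⁻¹) = 0} := by
    ext v
    constructor
    · rintro ⟨h2, h3⟩
      exact ⟨h2, mem_iInter.2 fun q => h3 _⟩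
    · rintro ⟨h2, h3⟩
      refine ⟨h2, fun g => ?_⟩
      obtain ⟨h, hh⟩ := QuotientGroup.mk_out_eq_mul V g⁻¹
      have h4 := mem_iInter.1 h3 (QuotientGroup.mk g⁻¹)
      simp only [mem_setOf_eq] at h4
      rw [hh] at h4
      have h5 : g * v * g⁻¹ = (h : FF p) * ((g⁻¹ * (h : FF p))⁻¹ * v * ((g⁻¹ * (h : FF p))⁻¹)⁻¹) *
          (h : FF p)⁻¹ := by group
      rw [h5, E8Cent_conj ha h.2 (V.normalCore_le (V.normalCore_normal.conj_mem v h2 _))]
      exact h4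
  rw [h1]
  refine (isOpen_core V hV).inter (isOpen_iInter_of_finite fun q => ?_)
  have h2 : Continuous fun v : FF p => a ((Quotient.out q)⁻¹ * v * ((Quotient.out q)⁻¹)⁻¹) :=
    ha.cont.comp ((continuous_const.mul continuous_id).mul continuous_const)
  exact (isOpen_discrete ({0} : Set (ZMod p))).preimage h2

/-- the invariant part of `R` -/
private def E8Cent_J (D : Datum p) (V : Subgroup (FF p)) (hR : D.R ≤ V) (a : FF p → ZMod p)
    (ha : a ∈ Hk (p := p) V) : Subgroup (FF p) where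
  carrier := {v | v ∈ D.R ∧ ∀ g, a (g * v * g⁻¹) = a v}
  mul_mem' := by
    rintro v w ⟨hv, hv'⟩ ⟨hw, hw'⟩
    refine ⟨D.R.mul_mem hv hw, fun g => ?_⟩
    have h1 : g * (v * w) * g⁻¹ = (g * v * g⁻¹) * (g * w * g⁻¹) := by group
    rw [h1, E8Cent_mul ha (hR ((normal_R D).conj_mem v hv g))
      (hR ((normal_R D).conj_mem w hw g)), hv' g, hw' g, E8Cent_mul ha (hR hv) (hR hw)]
  one_mem' := ⟨D.R.one_mem, fun g => by rw [mul_one, mul_inv_cancel]⟩
  inv_mem' := by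
    rintro v ⟨hv, hv'⟩
    refine ⟨D.R.inv_mem hv, fun g => ?_⟩
    have h1 : g * v⁻¹ * g⁻¹ = (g * v * g⁻¹)⁻¹ := by group
    rw [h1, E8Cent_inv ha (hR ((normal_R D).conj_mem v hv g)), hv' g, E8Cent_inv ha (hR hv)]

/-- (8.5), first part. Apply `exact_E` to `V = W ⊓ S.V1` and the constant function `1`: `V'`, `a`.
`a` on `R` is invariant under conjugation (`R_le`, applied to the closed subgroup of the `x ∈ R` with
`a (g x g⁻¹) = a x`). Let `K = {v ∈ core V' | ∀ g, a (g v g⁻¹) = 0}`: a normal subgroup, open because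
`a (g v g⁻¹)` (`v ∈ core V'`) depends only on the coset `V' g` (finitely many). `V0 = K ⊔ R`,
and the new `a` is the old one restricted to `V0` (`res V0 a`): on `κ ρ` (`κ ∈ K`, `ρ ∈ R`) it is
`a ρ`, and `a (g κ ρ g⁻¹) = a (g ρ g⁻¹) = a ρ`. -/
theorem exists_V0 (S : Sys D) (W : Subgroup (FF p)) (hW : IsOpen (W : Set (FF p)))
    (hWR : D.R ≤ W) :
    ∃ V0 : Subgroup (FF p), V0.Normal ∧ IsOpen (V0 : Set (FF p)) ∧ D.R ≤ V0 ∧ V0 ≤ S.V1 ∧
      V0 ≤ W ∧ ∃ a ∈ Hk (p := p) V0, (∀ g, ∀ v ∈ V0,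
        (a : FF p → ZMod p) (g * v * g⁻¹) = (a : FF p → ZMod p) v) ∧
        ∀ i g, (a : FF p → ZMod p) (g * D.r i * g⁻¹) = 1 := by
  obtain ⟨V', hV'o, hV'R, hV'V, a, ha, ha1⟩ := exact_E S (W ⊓ S.V1) (hW.inter S.adm.isOpen)
    (le_inf hWR S.adm.hR) inf_le_right (fun _ _ => 1) ⟨fun _ _ _ _ => rfl, fun _ _ => rfl⟩
  -- invariance on `R`
  have hJ : D.R ≤ E8Cent_J D V' hV'R a ha := by
    refine R_le D _ ?_ fun i g => ⟨r_mem_R D i g, fun h => ?_⟩
    · have h1 : (E8Cent_J D V' hV'R a ha : Set (FF p)) = (D.R : Set (FF p)) ∩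
          ⋂ g : FF p, {v | a (g * v * g⁻¹) = a v} := by
        ext v
        constructor
        · rintro ⟨h2, h3⟩
          exact ⟨h2, mem_iInter.2 h3⟩
        · rintro ⟨h2, h3⟩
          exact ⟨h2, fun g => mem_iInter.1 h3 g⟩
      rw [h1]
      refine (isClosed_R D).inter (isClosed_iInter fun g => ?_)
      exact isClosed_eq (ha.cont.comp ((continuous_const.mul continuous_id).mul continuous_const))
        ha.cont
    · have h2 : h * (g * D.r i * g⁻¹) * h⁻¹ = (h * g) * D.r i * (h * g)⁻¹ := by group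
      rw [h2, ha1, ha1]
  set K := E8Cent_K V' a ha with hK
  have hKn : K.Normal := E8Cent_K_normal V' a ha
  have hKo : IsOpen (K : Set (FF p)) := E8Cent_K_open V' hV'o a ha
  have hKV : K ≤ V' := fun v hv => V'.normalCore_le hv.1
  have hRn : D.R.Normal := normal_R D
  have hV0V : K ⊔ D.R ≤ V' := sup_le hKV hV'R
  have hV0o : IsOpen ((K ⊔ D.R : Subgroup (FF p)) : Set (FF p)) :=
    Subgroup.isOpen_mono (le_sup_left : K ≤ K ⊔ D.R) hKo
  have hn : (K ⊔ D.R).Normal := inferInstance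
  have hcl : IsClopen ((K ⊔ D.R : Subgroup (FF p)) : Set (FF p)) :=
    ⟨(K ⊔ D.R).isClosed_of_isOpen hV0o, hV0o⟩
  have hres : ∀ v ∈ K ⊔ D.R, res (K ⊔ D.R) a v = a v := fun v hv => by
    simp only [res]
    exact Set.indicator_of_mem hv a
  refine ⟨K ⊔ D.R, hn, hV0o, le_sup_right, hV0V.trans (hV'V.trans inf_le_right),
    hV0V.trans (hV'V.trans inf_le_left), res (K ⊔ D.R) a, ⟨?_, ?_, ?_⟩, ?_, ?_⟩
  · exact ha.cont.indicator (fun x hx => by
      rw [hcl.frontier_eq] at hx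
      exact absurd hx (Set.notMem_empty x))
  · intro x hx
    simp only [res]
    exact Set.indicator_of_notMem hx a
  · intro g hg h hh
    rw [hres _ ((K ⊔ D.R).mul_mem hg hh), hres _ hg, hres _ hh]
    exact E8Cent_mul ha (hV0V hg) (hV0V hh)
  · intro g v hv
    rw [hres _ (hn.conj_mem v hv g), hres v hv]
    have h1 : v ∈ ((K ⊔ D.R : Subgroup (FF p)) : Set (FF p)) := hv
    rw [Subgroup.normal_mul] at h1
    obtain ⟨κ, hκ, ρ, hρ, rfl⟩ := h1
    have h2 : g * (κ * ρ) * g⁻¹ = (g * κ * g⁻¹) * (g * ρ * g⁻¹) := by group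
    have h3 : a κ = 0 := by
      have := hκ.2 1
      simpa using this
    simp only
    rw [h2, E8Cent_mul ha (hKV (hKn.conj_mem κ hκ g)) (hV'R (hRn.conj_mem ρ hρ g)), hκ.2 g,
      (hJ hρ).2 g, E8Cent_mul ha (hKV hκ) (hV'R hρ), h3]
  · intro i g
    rw [hres _ ((le_sup_right : D.R ≤ K ⊔ D.R) (r_mem_R D i g))]
    exact ha1 i g

/-- (8.5), second part: `t ^ p ∈ R ∩ ker a` implies `t ∈ R`. If `t ∉ R` then `t = g ω_i ^ j g⁻¹ ρ`
(`fix_exists`), `p ^ a_i ∤ j` (else `t ∈ R`), `j p = p ^ a_i c` (admissibility of `S.V1`, `t ^ p ∈ R`),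
`p ∤ c`; modulo `R ∩ ker a` elements of `R` are central, so
`a (t ^ p) = a (g r_i ^ c g⁻¹) + p a ρ = c ≠ 0`. -/
theorem pow_p_central (S : Sys D) (V0 : Subgroup (FF p)) (hn : V0.Normal)
    (hV0 : IsOpen (V0 : Set (FF p))) (hR : D.R ≤ V0) (a : FF p → ZMod p)
    (ha : a ∈ Hk (p := p) V0) (hinv : ∀ g, ∀ v ∈ V0, a (g * v * g⁻¹) = a v)
    (h1 : ∀ i g, a (g * D.r i * g⁻¹) = 1) (t : FF p) (ht : t ^ p ∈ D.R) (hat : a (t ^ p) = 0) :
    t ∈ D.R := by
  by_contra htR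
  have hp : p.Prime := Fact.out
  have hRn : D.R.Normal := normal_R D
  obtain ⟨i, g, j, hj⟩ := fix_exists S t ht htR
  set x : FF p := g * D.ω i ^ (-j) * g⁻¹ with hx
  set ρ : FF p := t * (g * D.ω i ^ j * g⁻¹) with hρ
  have htx : t = ρ * x := by
    rw [hρ, hx]
    group
  -- the powers
  have key : ∀ n : ℕ, (ρ * x) ^ n * (x ^ n)⁻¹ ∈ D.R ∧ a ((ρ * x) ^ n * (x ^ n)⁻¹) = n * a ρ := by
    intro n
    induction n with
    | zero => simp [D.R.one_mem, E8Cent_one ha]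
    | succ n ih =>
      have h2 : (ρ * x) ^ (n + 1) * (x ^ (n + 1))⁻¹ =
          ρ * (x * ((ρ * x) ^ n * (x ^ n)⁻¹) * x⁻¹) := by
        rw [pow_succ' (ρ * x), pow_succ x]
        group
      rw [h2]
      have h3 : x * ((ρ * x) ^ n * (x ^ n)⁻¹) * x⁻¹ ∈ D.R := hRn.conj_mem _ ih.1 x
      refine ⟨D.R.mul_mem hj h3, ?_⟩
      rw [E8Cent_mul ha (hR hj) (hR h3), hinv x _ (hR ih.1), ih.2]
      push_cast
      ring
  obtain ⟨k1, k2⟩ := key p
  rw [← htx] at k1 k2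
  have hxp : x ^ p ∈ D.R := by
    have h2 : x ^ p = (t ^ p * (x ^ p)⁻¹)⁻¹ * t ^ p := by group
    rw [h2]
    exact D.R.mul_mem (D.R.inv_mem k1) ht
  have hxp2 : x ^ p = g * D.ω i ^ (-j * (p : ℤ)) * g⁻¹ := by
    rw [hx, conj_pow, ← zpow_natCast (D.ω i ^ (-j)) p, ← zpow_mul]
  obtain ⟨c, hc⟩ : ((p ^ D.a i : ℕ) : ℤ) ∣ -j * (p : ℤ) := by
    refine S.adm.free g i _ ?_
    rw [← hxp2]
    exact S.adm.hR hxp
  have hxp3 : x ^ p = (g * D.r i * g⁻¹) ^ c := by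
    rw [hxp2, hc, conj_zpow, Datum.r, zpow_mul, zpow_natCast]
  have hac : a (x ^ p) = (c : ZMod p) := by
    rw [hxp3, E8Cent_zpow ha (hR (r_mem_R D i g)), h1, mul_one]
  have h0 : (c : ZMod p) = 0 := by
    have h2 : t ^ p = (t ^ p * (x ^ p)⁻¹) * x ^ p := by group
    rw [h2, E8Cent_mul ha (hR k1) (hR hxp), k2, hac, CharP.cast_eq_zero, zero_mul, zero_add] at hat
    exact hat
  obtain ⟨d, rfl⟩ := (ZMod.intCast_zmod_eq_zero_iff_dvd c p).1 h0
  apply htR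
  have hp0 : (p : ℤ) ≠ 0 := by exact_mod_cast hp.ne_zero
  have h3 : -j = ((p ^ D.a i : ℕ) : ℤ) * d := by
    have h4 : -j * (p : ℤ) = ((p ^ D.a i : ℕ) : ℤ) * d * (p : ℤ) := by
      rw [hc]
      ring
    exact mul_right_cancel₀ hp0 h4
  have h5 : x = (g * D.r i * g⁻¹) ^ d := by
    rw [hx, h3, conj_zpow, Datum.r, zpow_mul, zpow_natCast]
  rw [htx]
  refine D.R.mul_mem hj ?_
  rw [h5]
  exact D.R.zpow_mem (r_mem_R D i g) d

end D687
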