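import Pool.Agent.Lib_MP_d687bf.Cov

/-!
MP_d687bf, C7: (2.4)(c), `p M = 0`, `N = p`.

Proof. Let `s` be the shift of `M# = Map(ℤ/p, M)` (it commutes with `shA`), `e = s - 1`; as `p M = 0`,
`e ^ p = s ^ p - 1 = 0` and `e ^ (p-1) = ∑_{i<p} s^i = const ∘ ∑`. Claim by induction on `j ≤ p`:
if `t ∈ C_V(M#)`, `e^j t = 0`, then there is `α ∈ Z(V, M#)` with `e^j α = 0`, `ev α = a^j t`.
Step: `e^(j+1) t = 0` means `e^j t` is constant, `e^j t = const t₀`, `t₀ ∈ C_V(M)`, `a t₀ = ev α₀`; let
`α̂` be a lift of `α₀` along `∑` (`exists_lift_sum`), `α₁ := e^(p-1-j) α̂`, so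
`e^j α₁ = const α₀`, `e^(j+1) α₁ = 0`, and `e^j (a t - ev α₁) = 0`; induction gives `α₂` with
`e^j α₂ = 0`, `ev α₂ = a^j (a t - ev α₁)`; take `α = a^j α₁ + α₂`.
`j = p` gives `Kills_shA`, `j = p - 1` gives `Kills_ker_sum` and `Kills_shA` gives `Kills_cov` by
(2.4)(b) (`exists_hat`, `zero_mem_Z1`).
-/

set_option autoImplicit false

open Set Filter Topology

namespace D687

/-! ### Algebra of the shift -/

section alg

variable {p : ℕ} [Fact p.Prime]

private theorem KillsCov_geom {R : Type} [Ring R] (h : (p : R) = 0) (x : R) :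
    (x - 1) ^ (p - 1) = ∑ i ∈ Finset.range p, x ^ i := by
  have hpp : p.Prime := Fact.out
  let _ : Algebra (ZMod p) R := ZMod.algebra' R (ringChar R) (ringChar.dvd h)
  have key : (Polynomial.X - 1 : Polynomial (ZMod p)) ^ (p - 1) =
      ∑ i ∈ Finset.range p, Polynomial.X ^ i := by
    have h1 : (Polynomial.X - 1 : Polynomial (ZMod p)) ≠ 0 := by
      have := Polynomial.X_sub_C_ne_zero (1 : ZMod p)
      rwa [Polynomial.C_1] at this
    apply mul_right_cancel₀ h1
    rw [geom_sum_mul, ← pow_succ, Nat.sub_add_cancel hpp.one_le, sub_pow_char, one_pow]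
  have h2 := congrArg (Polynomial.aeval (R := ZMod p) x) key
  simpa using h2

/-- the shift of `M#` -/
private def KillsCov_S (p : ℕ) (A M : Type) [CommRing A] [AddCommGroup M] [Module A M] :
    Module.End A (ZMod p → M) where
  toFun φ c := φ (c - 1)
  map_add' _ _ := rfl
  map_smul' _ _ := rfl

/-- `e = s - 1` -/
private def KillsCov_E (p : ℕ) (A M : Type) [CommRing A] [AddCommGroup M] [Module A M] :
    Module.End A (ZMod p → M) := KillsCov_S p A M - 1

variable {A M : Type} [CommRing A] [AddCommGroup M] [Module A M]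

private theorem KillsCov_E_apply (φ : ZMod p → M) (c : ZMod p) :
    KillsCov_E p A M φ c = φ (c - 1) - φ c := rfl

private theorem KillsCov_S_pow (n : ℕ) (φ : ZMod p → M) (c : ZMod p) :
    (KillsCov_S p A M ^ n) φ c = φ (c - n) := by
  induction n generalizing c with
  | zero => simp
  | succ n ih =>
    rw [pow_succ', Module.End.mul_apply]
    change (KillsCov_S p A M ^ n) φ (c - 1) = _
    rw [ih]
    congr 1
    push_cast
    ring

private theorem KillsCov_E_last (hp : ∀ m : M, p • m = 0) (φ : ZMod p → M) (c : ZMod p) :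
    (KillsCov_E p A M ^ (p - 1)) φ c = ∑ d : ZMod p, φ d := by
  have h0 : (p : Module.End A (ZMod p → M)) = 0 := by
    refine LinearMap.ext fun φ => funext fun c => ?_
    rw [Module.End.natCast_apply]
    exact hp _
  unfold KillsCov_E
  rw [KillsCov_geom h0, LinearMap.sum_apply, Finset.sum_apply]
  simp only [KillsCov_S_pow]
  have hb : ∑ i ∈ Finset.range p, φ (c - (i : ZMod p)) = ∑ d : ZMod p, φ (c - d) := by
    refine Finset.sum_bij (fun i _ => (i : ZMod p)) (fun _ _ => Finset.mem_univ _) ?_ ?_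
      (fun _ _ => rfl)
    · intro i hi j hj hij
      rw [Finset.mem_range] at hi hj
      have := congrArg ZMod.val hij
      rwa [ZMod.val_natCast_of_lt hi, ZMod.val_natCast_of_lt hj] at this
    · intro d _
      exact ⟨d.val, Finset.mem_range.2 (ZMod.val_lt d), by simp⟩
  rw [hb]
  exact Fintype.sum_equiv (Equiv.subLeft c) _ _ fun _ => rfl

private theorem KillsCov_E_ker {φ : ZMod p → M} (h : KillsCov_E p A M φ = 0) (c : ZMod p) :
    φ c = φ 0 := by
  have h1 : ∀ d : ZMod p, φ (d - 1) = φ d := fun d => by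
    have := congrFun h d
    rw [KillsCov_E_apply] at this
    exact sub_eq_zero.1 this
  have h2 : ∀ n : ℕ, φ (n : ZMod p) = φ 0 := by
    intro n
    induction n with
    | zero => simp
    | succ n ih =>
      rw [← ih, ← h1]
      congr 1
      push_cast
      ring
  have h3 := h2 c.val
  rwa [ZMod.natCast_zmod_val] at h3

private theorem KillsCov_E_const (m : M) : KillsCov_E p A M (fun _ => m) = 0 := by
  funext c
  rw [KillsCov_E_apply]
  exact sub_self m

private theorem KillsCov_E_comm (act : FF p → M →ₗ[A] M) (ψ : FF p → ZMod p) (g : FF p) (j : ℕ)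
    (φ : ZMod p → M) :
    (KillsCov_E p A M ^ j) (shA act ψ g φ) = shA act ψ g ((KillsCov_E p A M ^ j) φ) := by
  have h1 : ∀ φ : ZMod p → M,
      KillsCov_E p A M (shA act ψ g φ) = shA act ψ g (KillsCov_E p A M φ) := by
    intro φ
    funext c
    rw [KillsCov_E_apply]
    change act g (φ (c - 1 - ψ g)) - act g (φ (c - ψ g)) =
      act g (φ (c - ψ g - 1) - φ (c - ψ g))
    rw [map_sub, sub_right_comm]
  induction j generalizing φ with
  | zero => rfl
  | succ j ih => rw [pow_succ, Module.End.mul_apply, Module.End.mul_apply, h1, ih]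

private theorem KillsCov_E_cont [TopologicalSpace M] [IsTopologicalAddGroup M] (j : ℕ) :
    Continuous fun φ : ZMod p → M => (KillsCov_E p A M ^ j) φ := by
  have h1 : Continuous fun φ : ZMod p → M => KillsCov_E p A M φ := by
    refine continuous_pi fun c => ?_
    simp only [KillsCov_E_apply]
    exact (continuous_apply _).sub (continuous_apply _)
  induction j with
  | zero => exact continuous_id
  | succ j ih =>
    have h2 : (fun φ : ZMod p → M => (KillsCov_E p A M ^ (j + 1)) φ) =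
        fun φ => (KillsCov_E p A M ^ j) (KillsCov_E p A M φ) := by
      funext φ
      rw [pow_succ, Module.End.mul_apply]
    rw [h2]
    exact ih.comp h1

end alg

variable {p : ℕ} [Fact p.Prime] {D : Datum p} {V V' : Subgroup (FF p)}
variable {A M : Type} [CommRing A] [AddCommGroup M] [Module A M] [TopologicalSpace M]
  [ProPMod p M] [ContinuousConstSMul A M] {act : FF p → M →ₗ[A] M} {ψ : FF p → ZMod p} {σ : FF p}

/-! ### The operators on `C_V(M#)` and `Z(V, M#)` -/

omit [TopologicalSpace M] [ProPMod p M] [ContinuousConstSMul A M] in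
private theorem KillsCov_CV_E (j : ℕ) {t : Fin D.n → FF p → ZMod p → M}
    (ht : t ∈ CV D V (shA act ψ)) :
    (fun i g => (KillsCov_E p A M ^ j) (t i g)) ∈ CV D V (shA act ψ) := by
  refine ⟨fun i v hv g => ?_, fun i g => ?_⟩
  · change (KillsCov_E p A M ^ j) (t i (v * g)) = _
    rw [ht.1 i v hv g, KillsCov_E_comm]
  · change (KillsCov_E p A M ^ j) (t i (g * D.ω i)) = _
    rw [ht.2 i g]

private theorem KillsCov_Z1_E (j : ℕ) {α : FF p → ZMod p → M}
    (hα : α ∈ Z1 V (shA act ψ)) :
    (fun x => (KillsCov_E p A M ^ j) (α x)) ∈ Z1 V (shA act ψ) := by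
  refine ⟨(KillsCov_E_cont j).comp hα.cont, fun x hx => ?_, fun g hg h hh => ?_⟩
  · change (KillsCov_E p A M ^ j) (α x) = 0
    rw [hα.supp x hx, map_zero]
  · rw [hα.mul g hg h hh, map_add, KillsCov_E_comm]

private theorem KillsCov_claim (hp : ∀ m : M, p • m = 0) (h : IsCyc V V' p ψ σ)
    (hR : D.R ≤ V') (hact : IsActR D V act) {a : A} (ha : Kills D V act a) (j : ℕ) (hj : j ≤ p) :
    ∀ t ∈ CV D V (shA act ψ), (∀ i g, (KillsCov_E p A M ^ j) (t i g) = 0) →
      ∃ α ∈ Z1 V (shA act ψ), (∀ x, (KillsCov_E p A M ^ j) (α x) = 0) ∧ ev D α = a ^ j • t := by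
  have hRV : D.R ≤ V := hR.trans h.le
  have hactS : IsActR D V (shA act ψ) := isActR_shA h hR hact
  induction j with
  | zero =>
    intro t ht h0
    refine ⟨0, (Z1 V (shA act ψ)).zero_mem, fun x => map_zero _, ?_⟩
    have h1 : t = 0 := by
      funext i g
      exact h0 i g
    rw [h1, smul_zero]
    rfl
  | succ j ih =>
    intro t ht h0
    have hconst : ∀ i g c, (KillsCov_E p A M ^ j) (t i g) c = (KillsCov_E p A M ^ j) (t i g) 0 := by
      intro i g c
      apply KillsCov_E_ker (A := A)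
      have := h0 i g
      rwa [pow_succ', Module.End.mul_apply] at this
    have hEt := KillsCov_CV_E (D := D) (V := V) (act := act) (ψ := ψ) j ht
    have ht0 : (fun i g => (KillsCov_E p A M ^ j) (t i g) 0) ∈ CV D V act := by
      refine ⟨fun i v hv g => ?_, fun i g => ?_⟩
      · have h1 := congrFun (hEt.1 i v hv g) 0
        change (KillsCov_E p A M ^ j) (t i (v * g)) 0 = act v ((KillsCov_E p A M ^ j) (t i g) 0)
        rw [← hconst i g (0 - ψ v)]
        exact h1
      · exact congrFun (hEt.2 i g) 0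
    obtain ⟨α0, hα0, hev0⟩ := ha _ ht0
    obtain ⟨β, hβ, hβs⟩ := exists_lift_sum h hact.toIsAct hα0
    set α1 : FF p → ZMod p → M := fun x => (KillsCov_E p A M ^ (p - 1 - j)) (β x) with hα1
    have hα1m : α1 ∈ Z1 V (shA act ψ) := KillsCov_Z1_E _ hβ
    have hEα1 : ∀ x, (KillsCov_E p A M ^ j) (α1 x) = fun _ => α0 x := by
      intro x
      funext c
      have h1 : (KillsCov_E p A M ^ j) (α1 x) = (KillsCov_E p A M ^ (p - 1)) (β x) := by
        rw [hα1]
        change (KillsCov_E p A M ^ j) ((KillsCov_E p A M ^ (p - 1 - j)) (β x)) = _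
        rw [← Module.End.mul_apply, ← pow_add]
        congr 2
        omega
      rw [h1, KillsCov_E_last hp, hβs]
    have ht' : a • t - ev D α1 ∈ CV D V (shA act ψ) :=
      Submodule.sub_mem _ (Submodule.smul_mem _ _ ht) (ev_mem hRV hactS hα1m)
    obtain ⟨α2, hα2, hE2, hev2⟩ := ih (by omega) _ ht' (by
      intro i g
      change (KillsCov_E p A M ^ j) (a • t i g - α1 (g * D.r i * g⁻¹)) = 0
      rw [map_sub, map_smul, hEα1]
      funext c
      have h2 := congrFun (congrFun hev0 i) g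
      change α0 (g * D.r i * g⁻¹) = a • (KillsCov_E p A M ^ j) (t i g) 0 at h2
      change a • (KillsCov_E p A M ^ j) (t i g) c - α0 (g * D.r i * g⁻¹) = 0
      rw [h2, hconst i g c, sub_self])
    refine ⟨a ^ j • α1 + α2, Submodule.add_mem _ (Submodule.smul_mem _ _ hα1m) hα2, ?_, ?_⟩
    · intro x
      change (KillsCov_E p A M ^ (j + 1)) (a ^ j • α1 x + α2 x) = 0
      rw [pow_succ', Module.End.mul_apply, map_add, map_smul, hEα1, hE2, add_zero, map_smul,
        KillsCov_E_const, smul_zero]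
    · have h3 : ev D (a ^ j • α1 + α2) = a ^ j • ev D α1 + ev D α2 := rfl
      rw [h3, hev2, smul_sub, smul_smul, ← pow_succ]
      abel

theorem Kills_shA (hp : ∀ m : M, p • m = 0) (h : IsCyc V V' p ψ σ) (hadm : Adm D V)
    (hR : D.R ≤ V') (hact : IsActR D V act) {a : A} (ha : Kills D V act a) :
    Kills D V (shA act ψ) (a ^ p) := by
  have _ := hadm
  have hpp : p.Prime := Fact.out
  intro t ht
  obtain ⟨α, hα, -, hev⟩ := KillsCov_claim hp h hR hact ha p le_rfl t ht (by
    intro i g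
    obtain ⟨q, hq⟩ : ∃ q, p = q + 1 := ⟨p - 1, (Nat.sub_add_cancel hpp.one_le).symm⟩
    have h1 : KillsCov_E p A M ^ p = KillsCov_E p A M * KillsCov_E p A M ^ (p - 1) := by
      rw [← pow_succ', Nat.sub_add_cancel hpp.one_le]
    rw [h1, Module.End.mul_apply]
    have h2 : (KillsCov_E p A M ^ (p - 1)) (t i g) = fun _ => ∑ d : ZMod p, t i g d := by
      funext c
      exact KillsCov_E_last hp _ _
    rw [h2, KillsCov_E_const])
  exact ⟨α, hα, hev⟩

theorem Kills_ker_sum (hp : ∀ m : M, p • m = 0) (h : IsCyc V V' p ψ σ) (hadm : Adm D V)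
    (hR : D.R ≤ V') (hact : IsActR D V act) {a : A} (ha : Kills D V act a)
    {t : Fin D.n → FF p → ZMod p → M} (ht : t ∈ CV D V (shA act ψ))
    (h0 : ∀ i g, ∑ c : ZMod p, t i g c = 0) :
    ∃ α ∈ Z1 V (shA act ψ), (∀ x, ∑ c : ZMod p, α x c = 0) ∧ ev D α = a ^ (p - 1) • t := by
  have _ := hadm
  obtain ⟨α, hα, hE, hev⟩ := KillsCov_claim hp h hR hact ha (p - 1) (Nat.sub_le _ _) t ht (by
    intro i g
    funext c
    rw [KillsCov_E_last hp, h0]
    rfl)
  refine ⟨α, hα, fun x => ?_, hev⟩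
  rw [← KillsCov_E_last (A := A) hp (α x) 0, hE]
  rfl

theorem Kills_cov (hp : ∀ m : M, p • m = 0) (h : IsCyc V V' p ψ σ) (hadm : Adm D V)
    (hR : D.R ≤ V') (hact : IsActR D V act) {a : A} (ha : Kills D V act a) :
    Kills D V' act (a ^ p) := by
  intro t' ht'
  obtain ⟨t, ht, ht0⟩ := exists_hat h hact hR ht'
  obtain ⟨α, hα, hev⟩ := Kills_shA hp h hadm hR hact ha t ht
  refine ⟨res V' fun x => α x 0, zero_mem_Z1 h hα, ?_⟩
  rw [ev_res hR]
  funext i g
  have h1 := congrFun (congrFun (congrFun hev i) g) 0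
  change α (g * D.r i * g⁻¹) 0 = a ^ p • t i g 0 at h1
  change α (g * D.r i * g⁻¹) 0 = a ^ p • t' i g
  rw [h1, ht0]

/-- (5.1): iteration along a chain of subgroups (`chain_induction`). -/
theorem Kills_inherit (hp : ∀ m : M, p • m = 0) {V1 : Subgroup (FF p)} (hadm : Adm D V1)
    (hact : IsActR D V1 act) {a : A} (ha : Kills D V1 act a) (hV : IsOpen (V : Set (FF p)))
    (hR : D.R ≤ V) (hle : V ≤ V1) : ∃ n : ℕ, Kills D V act (a ^ n) := by
  refine chain_induction D (fun W => ∃ n : ℕ, Kills D W act (a ^ n)) V1 hadm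
    ⟨1, by rwa [pow_one]⟩ ?_ V hV hR hle
  rintro W W2 ψ σ hW hadmW hadmW2 ⟨n, hn⟩ hcyc
  refine ⟨n * p, ?_⟩
  rw [pow_mul]
  exact Kills_cov hp hcyc hadmW hadmW2.hR (hact.mono hW) hn

end D687
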