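import Pool.Agent.Lib_MP_d687bf.Defs

/-!
MP_d687bf, B1: the coefficient rings are compact, Hausdorff, totally disconnected, pro-`p`.

`ZMod p` is finite discrete; `ℤ_[p]` is compact (Mathlib), totally disconnected (ultrametric);
`MvPowerSeries σ R` is by definition the product space `(σ →₀ ℕ) → R` (`Pi.compactSpace`,
`Pi.totallyDisconnectedSpace`; use `inferInstanceAs` / `show`). `pnil`: `p • a = 0` over `ZMod p`,
coefficientwise convergence (`MvPowerSeries.WithPiTopology.tendsto_iff_coeff_tendsto`) over `ℤ_[p]`.
-/

set_option autoImplicit false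

open Set Filter Topology

namespace D687

variable {p : ℕ} [Fact p.Prime]

instance proPRing_zmod : ProPRing p (ZMod p) where
  pnil a := by
    refine tendsto_const_nhds.congr' ?_
    filter_upwards [eventually_ge_atTop 1] with n hn
    obtain ⟨m, rfl⟩ : ∃ m, n = m + 1 := ⟨n - 1, by omega⟩
    rw [nsmul_eq_mul, pow_succ]
    simp

instance proPRing_padic : ProPRing p ℤ_[p] where
  pnil a := by
    have h1 : Tendsto (fun n : ℕ => ((p : ℤ_[p]) ^ n)) atTop (𝓝 0) :=
      tendsto_pow_atTop_nhds_zero_of_norm_lt_one
        (Padic.norm_p_lt_one (p := p) : ‖(p : ℤ_[p])‖ < 1)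
    have h2 := h1.mul_const a
    rw [zero_mul] at h2
    refine h2.congr fun n => ?_
    rw [nsmul_eq_mul]
    push_cast
    rfl

omit [Fact p.Prime] in
/-- a product space of power series with pro-`p` coefficients -/
theorem Rings_mv (σ : Type) (A : Type) [CommRing A] [TopologicalSpace A] [ProPRing p A] :
    ProPRing p (MvPowerSeries σ A) where
  toIsTopologicalRing := inferInstance
  toCompactSpace := inferInstanceAs (CompactSpace ((σ →₀ ℕ) → A))
  toT2Space := inferInstanceAs (T2Space ((σ →₀ ℕ) → A))
  toTotallyDisconnectedSpace := inferInstanceAs (TotallyDisconnectedSpace ((σ →₀ ℕ) → A))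
  pnil a := by
    rw [MvPowerSeries.WithPiTopology.tendsto_iff_coeff_tendsto]
    intro d
    have h := ProPRing.pnil (p := p) (MvPowerSeries.coeff d a)
    rw [map_zero]
    refine h.congr fun n => ?_
    rw [map_nsmul]

/-- covers `K1 p` (`σ = Unit`) and `K2 p` (`σ = Fin 2`). -/
instance proPRing_mv (σ : Type) : ProPRing p (MvPowerSeries σ (ZMod p)) := Rings_mv σ (ZMod p)

instance proPRing_ZT : ProPRing p (ZT p) := Rings_mv Unit ℤ_[p]

instance proPMod_of_ring (A : Type) [CommRing A] [TopologicalSpace A] [h : ProPRing p A] :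
    ProPMod p A where
  toIsTopologicalAddGroup := inferInstance
  toCompactSpace := inferInstance
  toT2Space := inferInstance
  toTotallyDisconnectedSpace := inferInstance
  pnil := h.pnil

instance proPMod_pi (ι : Type) [Finite ι] (M : Type) [AddCommGroup M] [TopologicalSpace M]
    [ProPMod p M] : ProPMod p (ι → M) where
  pnil m := by
    rw [tendsto_pi_nhds]
    intro i
    exact ProPMod.pnil (m i)

instance proPMod_prod (M M' : Type) [AddCommGroup M] [TopologicalSpace M] [AddCommGroup M']
    [TopologicalSpace M'] [ProPMod p M] [ProPMod p M'] : ProPMod p (M × M') where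
  pnil m := by
    have h := (ProPMod.pnil (p := p) m.1).prodMk_nhds (ProPMod.pnil (p := p) m.2)
    exact h

/-- A closed submodule of a pro-`p` module. -/
theorem proPMod_closed {A M : Type} [CommRing A] [AddCommGroup M] [Module A M]
    [TopologicalSpace M] [ProPMod p M] (N : Submodule A M) (hN : IsClosed (N : Set M)) :
    ProPMod p N where
  toIsTopologicalAddGroup := inferInstanceAs (IsTopologicalAddGroup N.toAddSubgroup)
  toCompactSpace := isCompact_iff_compactSpace.mp hN.isCompact
  toT2Space := inferInstance
  toTotallyDisconnectedSpace := inferInstance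
  pnil m := by
    rw [tendsto_subtype_rng]
    exact ProPMod.pnil (m : M)

instance isDomain_K2 : IsDomain (K2 p) := by
  have h1 : NoZeroDivisors (MvPowerSeries (Fin 2) (ZMod p)) := inferInstance
  have h2 : Nontrivial (MvPowerSeries (Fin 2) (ZMod p)) := inferInstance
  exact (NoZeroDivisors.to_isDomain (MvPowerSeries (Fin 2) (ZMod p)))

end D687
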