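import Pool.Agent.Lib_MP_d687bf.Universal
import Pool.Agent.Lib_MP_d687bf.Rings

/-!
MP_d687bf, A6: finiteness of `Hom(V, k)`, the base case (1.5), cochains on `FF p`.
-/

set_option autoImplicit false

open Set Filter Topology

namespace D687

variable {p : ℕ} [Fact p.Prime]

/-- an element of `Hom(V, k)` vanishing on a basis of `V` is zero. -/
private theorem HomFin_zero (V : Subgroup (FF p)) {d : ℕ} (b : Fin d → FF p)
    (hb : IsBasisFin V b) (hVo : IsOpen (V : Set (FF p))) (α : FF p → ZMod p)
    (hα : α ∈ Hk (p := p) V) (h0 : ∀ i, α (b i) = 0) : α = 0 := by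
  have hP : IsPGroup p (Multiplicative (ZMod p)) := by
    refine IsPGroup.of_card (n := 1) ?_
    rw [pow_one, Nat.card_eq_fintype_card, Fintype.card_multiplicative, ZMod.card]
  obtain ⟨φ, _, _, _, hu⟩ := hb.2 (Multiplicative (ZMod p)) hP (fun _ => 1)
  obtain ⟨hc, hs, hm⟩ := hα
  have hopen : ∀ β : FF p → ZMod p, Continuous β → ∀ e : Multiplicative (ZMod p),
      IsOpen ((fun x => Multiplicative.ofAdd (β x)) ⁻¹' {e} ∩ (V : Set (FF p))) := by
    intro β hβ e
    refine IsOpen.inter ?_ hVo
    have h1 : (fun x => Multiplicative.ofAdd (β x)) ⁻¹' {e} = β ⁻¹' {Multiplicative.toAdd e} := by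
      ext x
      simp only [mem_preimage, mem_singleton_iff]
      exact ⟨fun h => by rw [← h]; rfl, fun h => by rw [h]; rfl⟩
    rw [h1]
    exact (isOpen_discrete _).preimage hβ
  have h1 := hu (fun x => Multiplicative.ofAdd (α x))
    (fun g hg h hh => by
      change Multiplicative.ofAdd (α (g * h)) = Multiplicative.ofAdd (α g + α h)
      rw [hm g hg h hh]
      rfl)
    (fun i => by rw [h0 i]; rfl) (hopen α hc)
  have h2 := hu (fun _ => Multiplicative.ofAdd (0 : ZMod p))
    (fun g _ h _ => by
      change (1 : Multiplicative (ZMod p)) = 1 * 1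
      rw [one_mul])
    (fun i => rfl) (hopen (fun _ => 0) continuous_const)
  ext x
  by_cases hx : x ∈ V
  · have h3 := (h1 x hx).trans (h2 x hx).symm
    exact Multiplicative.ofAdd.injective h3
  · exact hs x hx

/-- (1.3): a continuous hom is determined by its values on a basis of `V` (`IsBasisFin` with
`E = Multiplicative (ZMod p)`). -/
theorem finite_Hk (V : Subgroup (FF p)) (hV : IsOpen (V : Set (FF p))) :
    Module.Finite (ZMod p) (Hk (p := p) V) := by
  obtain ⟨d, b, hb⟩ := exists_basisFin V hV
  let f : Hk (p := p) V →ₗ[ZMod p] (Fin d → ZMod p) :=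
    { toFun := fun α i => (α : FF p → ZMod p) (b i)
      map_add' := fun α β => rfl
      map_smul' := fun c α => rfl }
  refine Module.Finite.of_injective f ?_
  rw [← LinearMap.ker_eq_bot, LinearMap.ker_eq_bot']
  intro α hα
  refine Subtype.ext ?_
  exact HomFin_zero V b hb hV α α.2 fun i => congrFun hα i

theorem finite_HH (D : Datum p) (V : Subgroup (FF p)) (hV : IsOpen (V : Set (FF p))) :
    Module.Finite (ZMod p) (HH D V) := by
  have := finite_Hk V hV
  exact Module.Finite.of_injective
    (Submodule.inclusion (inf_le_left : HH D V ≤ Hk V)) (Submodule.inclusion_injective _)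

end D687
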