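import Pool.Agent.Lib_MP_d687bf.Cup
import Pool.Agent.Lib_MP_d687bf.HomFin

/-!
MP_d687bf, E4: (4.4) `(ND)` for the group of (BR).

Proof. Let `z` be a class, non-zero, `κ ∈ T_V(k)^*` its functional (`IsClass.exists_dual`). Let
`K = {a ∈ H(V) : [λ̄ ∪ a] = 0}`, codimension `≤ b`. Every `a ∈ K` is the constant coefficient of some
`α ∈ Z_R(V, k[[T]]_λ)` and of some `α ∈ Z_R(V, k[[T]]_{-λ})`: lift `a` to `α₀ = a + T f + …`; `f` satisfies
`IsF V 1 (± redl λ) a f`, so `ev f = ev h` with `h ∈ Hom(V,k)` (by `IsCup`/`IsF.sub_mem`); subtract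
`T h̃`; then `ev α₀ = T² t`, `T t = ev γ`, `α = α₀ - T γ`. As the rank of the form
`(a, a') ↦ κ (c a a')` is `> 2b` it does not vanish on `K × K`; choose `a, a' ∈ K` with
`κ (c a a') ≠ 0`, `α, β` with constant coefficients `a, a'` and `F` (`exists_F`); the constant coefficient
of `pair z (ev F)` is `κ (c a a')`.
-/

set_option autoImplicit false

open Set Filter Topology

namespace D687

variable {p : ℕ} [Fact p.Prime] {D : Datum p} {V : Subgroup (FF p)} {l : FF p → ℤ_[p]}

/-- a bilinear form of rank `> 2b` does not vanish on `K × K`, `codim K ≤ b` -/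
theorem form_ne_zero {H : Type} [AddCommGroup H] [Module (ZMod p) H] [Module.Finite (ZMod p) H]
    (f : H →ₗ[ZMod p] Module.Dual (ZMod p) H) (K : Submodule (ZMod p) H) {b : ℕ}
    (hK : Module.finrank (ZMod p) H ≤ Module.finrank (ZMod p) K + b)
    (hf : 2 * b + 1 ≤ Module.finrank (ZMod p) (LinearMap.range f)) :
    ∃ x ∈ K, ∃ y ∈ K, f x y ≠ 0 := by
  by_contra hcon
  push Not at hcon
  obtain ⟨K', hK'⟩ := Submodule.exists_isCompl K
  have h1 : Module.finrank (ZMod p) K + Module.finrank (ZMod p) K' =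
      Module.finrank (ZMod p) H := Submodule.finrank_add_eq_of_isCompl hK'
  have h2 : LinearMap.range f = K.map f ⊔ K'.map f := by
    rw [← Submodule.map_sup, hK'.sup_eq_top, Submodule.map_top]
  have h3 : Module.finrank (ZMod p) (LinearMap.range f) ≤
      Module.finrank (ZMod p) (K.map f) + Module.finrank (ZMod p) (K'.map f) := by
    rw [h2]
    exact Submodule.finrank_add_le_finrank_add_finrank _ _
  have h4 : Module.finrank (ZMod p) (K'.map f) ≤ Module.finrank (ZMod p) K' :=
    Submodule.finrank_map_le _ _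
  have h5 : K.map f ≤ K.dualAnnihilator := by
    rintro _ ⟨x, hx, rfl⟩
    rw [Submodule.mem_dualAnnihilator]
    intro y hy
    exact hcon x hx y hy
  have h6 : Module.finrank (ZMod p) (K.map f) ≤ Module.finrank (ZMod p) K.dualAnnihilator :=
    Submodule.finrank_mono h5
  have h7 : Module.finrank (ZMod p) K + Module.finrank (ZMod p) K.dualAnnihilator =
      Module.finrank (ZMod p) H := Subspace.finrank_add_finrank_dualAnnihilator_eq K
  omega

/-- every `a` with `[λ̄ ∪ a] = 0` is the constant coefficient of an element of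
`Z_R(V, k[[T]]_λ)` -/
private theorem NDbase_lift (hadm : Adm D V) {c : HH D V →ₗ[ZMod p] HH D V →ₗ[ZMod p] TV D V}
    (hc : IsCup D V c) (hl : IsX D V l) (hk : Kills D V (scal (chr l)) (PowerSeries.X : K1 p))
    (lb a : HH D V) (hlb : (lb : FF p → ZMod p) = redl V l) (ha : c lb a = 0) :
    ∃ α ∈ ZR D V (scal (chr l)), ∀ x, PowerSeries.constantCoeff (α x) = (a : FF p → ZMod p) x := by
  have hφ : Continuous (PowerSeries.constantCoeff : K1 p →+* ZMod p) :=
    PowerSeries.WithPiTopology.continuous_constantCoeff (ZMod p)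
  have hs : Function.Surjective (PowerSeries.constantCoeff : K1 p →+* ZMod p) :=
    PowerSeries.constantCoeff_surj
  have hχ : IsChar D V (chr l) := hl.isChar_chr
  have hact := hχ.isActR
  have h1 : (scal fun x => PowerSeries.constantCoeff (chr l x)) = triv (ZMod p) (ZMod p) := by
    rw [constantCoeff_chr, scal_one]
  -- the lift of `a`
  obtain ⟨α0, hα0, hα0a⟩ := lift_scal (φ := (PowerSeries.constantCoeff : K1 p →+* ZMod p))
    (α' := (a : FF p → ZMod p)) hφ hs hadm.isOpen hχ (by
      rw [h1]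
      exact a.2.1)
  have hZ0 : IsZ V (fun g => scal (chr l) g) α0 := hα0
  have haV : ∀ x, x ∉ V → (a : FF p → ZMod p) x = 0 := fun x hx => by
    rw [← hα0a, hZ0.supp x hx, map_zero]
  -- the linear coefficient
  have hF : IsF V 1 (lb : FF p → ZMod p) a fun x => PowerSeries.coeff 1 (α0 x) := by
    refine ⟨?_, fun x hx => ?_, fun g hg h hh => ?_⟩
    · exact (PowerSeries.WithPiTopology.continuous_coeff (ZMod p) 1).comp hZ0.cont
    · rw [hZ0.supp x hx, map_zero]
    · have h2 : α0 (g * h) = α0 g + chr l g * α0 h := hZ0.mul g hg h hh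
      have h3 : (lb : FF p → ZMod p) g = PadicInt.toZMod (l g) := by
        rw [hlb]
        exact Set.indicator_of_mem (show g ∈ (V : Set (FF p)) from hg) _
      have h4 : PowerSeries.coeff 1 (chr l g) = PadicInt.toZMod (l g) := coeff_one_tpow (l g)
      have h5 : PowerSeries.constantCoeff (chr l g) = 1 := constantCoeff_tpow (l g)
      have h6 : PowerSeries.coeff 0 (chr l g) = 1 := by
        rw [PowerSeries.coeff_zero_eq_constantCoeff_apply, h5]
      have h7 : PowerSeries.coeff 0 (α0 h) = (a : FF p → ZMod p) h := by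
        rw [PowerSeries.coeff_zero_eq_constantCoeff_apply, hα0a]
      have h8 : PowerSeries.coeff 1 (chr l g * α0 h) =
          PowerSeries.coeff 0 (chr l g) * PowerSeries.coeff 1 (α0 h) +
            PowerSeries.coeff 1 (chr l g) * PowerSeries.coeff 0 (α0 h) := by
        rw [PowerSeries.coeff_one_mul, PowerSeries.coeff_zero_eq_constantCoeff_apply,
          PowerSeries.coeff_zero_eq_constantCoeff_apply]
        ring
      rw [h2, map_add, h8, h6, h4, h7, h3, Pi.one_apply, one_mul, one_mul, ← add_assoc]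
  obtain ⟨F0, hF0, hF0e⟩ := (hc.eq_iff hadm lb a 0).1 (by rw [ha]; rfl)
  have hh : (fun x => PowerSeries.coeff 1 (α0 x)) - F0 ∈ Z1 V (triv (ZMod p) (ZMod p)) :=
    hF.sub_mem hF0
  obtain ⟨h', hh', hh'a⟩ := lift_scal (φ := (PowerSeries.constantCoeff : K1 p →+* ZMod p))
    (α' := (fun x => PowerSeries.coeff 1 (α0 x)) - F0) hφ hs hadm.isOpen hχ (by
      rw [h1]
      exact hh)
  set α1 : FF p → K1 p := α0 - (PowerSeries.X : K1 p) • h' with hα1
  have hα1m : α1 ∈ Z1 V (scal (chr l)) :=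
    Submodule.sub_mem _ hα0 (Submodule.smul_mem _ _ hh')
  have hα1c : ∀ x, PowerSeries.constantCoeff (α1 x) = (a : FF p → ZMod p) x := by
    intro x
    have h2 : α1 x = α0 x - PowerSeries.X * h' x := rfl
    rw [h2, map_sub, map_mul, PowerSeries.constantCoeff_X, zero_mul, sub_zero, hα0a]
  have hα1l : ∀ x, PowerSeries.coeff 1 (α1 x) = F0 x := by
    intro x
    have h2 : α1 x = α0 x - PowerSeries.X * h' x := rfl
    have h3 : PowerSeries.coeff 1 ((PowerSeries.X : K1 p) * h' x) =
        PowerSeries.coeff 0 (h' x) := PowerSeries.coeff_succ_X_mul 0 (h' x)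
    rw [h2, map_sub, h3, PowerSeries.coeff_zero_eq_constantCoeff_apply, hh'a]
    simp
  have hw : (PowerSeries.X : K1 p) ∈ nonZeroDivisors (K1 p) :=
    mem_nonZeroDivisors_of_ne_zero PowerSeries.X_ne_zero
  have hker : ∀ x : K1 p, (PowerSeries.constantCoeff : K1 p →+* ZMod p) x = 0 ↔
      (PowerSeries.X : K1 p) ∣ x := fun x => PowerSeries.X_dvd_iff.symm
  have hea : ev D (a : FF p → ZMod p) = 0 := a.2.2
  obtain ⟨t1, ht1, ht1e⟩ := CV_ker (φ := (PowerSeries.constantCoeff : K1 p →+* ZMod p)) hadm hχ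
    hw hker (ev_mem hadm.hR hact hα1m) (fun i g => by
      change PowerSeries.constantCoeff (α1 (g * D.r i * g⁻¹)) = 0
      rw [hα1c]
      exact congrFun (congrFun hea i) g)
  obtain ⟨t2, ht2, ht2e⟩ := CV_ker (φ := (PowerSeries.constantCoeff : K1 p →+* ZMod p)) hadm hχ
    hw hker ht1 (fun i g => by
      have h2 : α1 (g * D.r i * g⁻¹) = PowerSeries.X * t1 i g := congrFun (congrFun ht1e i) g
      have h3 : PowerSeries.coeff 1 ((PowerSeries.X : K1 p) * t1 i g) =
          PowerSeries.coeff 0 (t1 i g) := PowerSeries.coeff_succ_X_mul 0 (t1 i g)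
      have h4 : F0 (g * D.r i * g⁻¹) = 0 := congrFun (congrFun hF0e i) g
      rw [← h2, hα1l, h4, PowerSeries.coeff_zero_eq_constantCoeff_apply] at h3
      exact h3.symm)
  obtain ⟨γ, hγ, hγe⟩ := hk t2 ht2
  refine ⟨α1 - (PowerSeries.X : K1 p) • γ, ⟨Submodule.sub_mem _ hα1m
    (Submodule.smul_mem _ _ hγ), ?_⟩, fun x => ?_⟩
  · change ev D (α1 - (PowerSeries.X : K1 p) • γ) = 0
    have h2 : ev D (α1 - (PowerSeries.X : K1 p) • γ) =
        ev D α1 - (PowerSeries.X : K1 p) • ev D γ := rfl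
    rw [h2, hγe, ht1e, ht2e, sub_self]
  · have h2 : (α1 - (PowerSeries.X : K1 p) • γ) x = α1 x - PowerSeries.X * γ x := rfl
    rw [h2, map_sub, map_mul, PowerSeries.constantCoeff_X, zero_mul, sub_zero, hα1c]

/-- (4.4) -/
theorem ND_base (hadm : Adm D V) {c : HH D V →ₗ[ZMod p] HH D V →ₗ[ZMod p] TV D V}
    (hc : IsCup D V c)
    (hrk : ∀ κ : Module.Dual (ZMod p) (TV D V), κ ≠ 0 →
      2 * bV D V + 1 ≤ Module.finrank (ZMod p) (LinearMap.range (c.compr₂ κ)))
    (hl : IsX D V l) (hk : Kills D V (scal (chr l)) (PowerSeries.X : K1 p))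
    (hk' : Kills D V (scal (chr (-l))) (PowerSeries.X : K1 p)) : ND D V l := by
  intro z hz hnz
  obtain ⟨κ, hκ, hκ0⟩ := hz.exists_dual hadm
  have hκ1 : κ ≠ 0 := hκ0 hnz
  have hfinH : Module.Finite (ZMod p) (HH D V) := finite_HH D V hadm.isOpen
  have hfinT : Module.Finite (ZMod p) (TV D V) := finite_TV hadm
  set lb : HH D V := ⟨redl V l, redl_mem_HH hadm.isOpen hadm.hR hl⟩ with hlb
  have hK : Module.finrank (ZMod p) (HH D V) ≤
      Module.finrank (ZMod p) (LinearMap.ker (c lb)) + bV D V := by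
    have h1 := LinearMap.finrank_range_add_finrank_ker (c lb)
    have h2 : Module.finrank (ZMod p) (LinearMap.range (c lb)) ≤ bV D V :=
      Submodule.finrank_le _
    omega
  obtain ⟨x, hx, y, hy, hxy⟩ := form_ne_zero (c.compr₂ κ) (LinearMap.ker (c lb)) hK (hrk κ hκ1)
  have hxy' : κ (c x y) ≠ 0 := hxy
  obtain ⟨α, hα, hαx⟩ := NDbase_lift hadm hc hl hk lb x rfl hx
  obtain ⟨β, hβ, hβy⟩ := NDbase_lift hadm hc hl.neg hk' (-lb) y (by
      funext v
      change -(redl V l v) = redl V (-l) v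
      unfold redl
      by_cases hv : v ∈ (V : Set (FF p))
      · rw [Set.indicator_of_mem hv, Set.indicator_of_mem hv, Pi.neg_apply, map_neg]
      · rw [Set.indicator_of_notMem hv, Set.indicator_of_notMem hv, neg_zero]) (by
      have h1 : c lb y = 0 := hy
      rw [map_neg, LinearMap.neg_apply, h1, neg_zero])
  obtain ⟨F, hF⟩ := exists_F hadm.isOpen hl.isChar_chr hl.neg.isChar_chr
    (fun v _ => chr_mul_neg l v) hα.1 hβ.1
  refine ⟨α, hα, β, hβ, F, hF, fun h0 => hxy' ?_⟩
  have hφ : Continuous (PowerSeries.constantCoeff : K1 p →+* ZMod p) :=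
    PowerSeries.WithPiTopology.continuous_constantCoeff (ZMod p)
  have hF' := hF.map (PowerSeries.constantCoeff : K1 p →+* ZMod p) hφ
  have e1 : (fun x => (PowerSeries.constantCoeff : K1 p →+* ZMod p) (chr (-l) x)) =
      (1 : FF p → ZMod p) := constantCoeff_chr (-l)
  have e2 : (fun v => (PowerSeries.constantCoeff : K1 p →+* ZMod p) (α v)) =
      (x : FF p → ZMod p) := funext hαx
  have e3 : (fun v => (PowerSeries.constantCoeff : K1 p →+* ZMod p) (β v)) =
      (y : FF p → ZMod p) := funext hβy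
  rw [e1, e2, e3] at hF'
  obtain ⟨hm, hcm⟩ := hc x y _ hF'
  rw [hcm, hκ]
  have h2 := pair_map (PowerSeries.constantCoeff : K1 p →+* ZMod p).toAddMonoidHom z (ev D F)
  have h3 : (fun i g => (PowerSeries.constantCoeff : K1 p →+* ZMod p).toAddMonoidHom (ev D F i g)) =
      ev D fun x => (PowerSeries.constantCoeff : K1 p →+* ZMod p) (F x) := rfl
  rw [h3, h0, map_zero] at h2
  exact h2

end D687
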