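import Pool.Agent.Lib_MP_d687bf.Defs

/-!
MP_d687bf, A1: elementary facts on `FF p`.
-/

set_option autoImplicit false

open Set Filter Topology

namespace D687

variable {p : ℕ} [Fact p.Prime]

omit [Fact p.Prime] in
private theorem FFBasic_val_inj {x y : FF p} (h : x.1 = y.1) : x = y := Subtype.ext h

omit [Fact p.Prime] in
private theorem FFBasic_inducing : IsInducing (fun x : FF p => x.1) :=
  IsInducing.subtypeVal

omit [Fact p.Prime] in
private theorem FFBasic_dense : DenseRange (io p) := by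
  intro x
  have h1 := (FFBasic_inducing (p := p)).closure_eq_preimage_closure_image (range (io p))
  rw [h1]
  have h2 : (fun x : FF p => x.1) '' range (io p) = ((diag p).range : Set (∀ N : NIdx p, Qt p N)) := by
    ext y
    constructor
    · rintro ⟨_, ⟨w, rfl⟩, rfl⟩
      exact ⟨w, rfl⟩
    · rintro ⟨w, rfl⟩
      exact ⟨io p w, ⟨w, rfl⟩, rfl⟩
  rw [h2]
  exact x.2

/-- The image of the discrete free group is dense. -/
theorem denseRange_io : DenseRange (io p) := FFBasic_dense

/-- the projection to `F/N` -/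
private def FFBasic_proj (N : NIdx p) : FF p →* Qt p N where
  toFun x := x.1 N
  map_one' := rfl
  map_mul' _ _ := rfl

omit [Fact p.Prime] in
private theorem FFBasic_proj_cont (N : NIdx p) : Continuous (FFBasic_proj N) :=
  (continuous_apply N).comp (FFBasic_inducing (p := p)).continuous

omit [Fact p.Prime] in
private theorem FFBasic_proj_surj (N : NIdx p) : Function.Surjective (FFBasic_proj N) := by
  intro y
  obtain ⟨w, hw⟩ := QuotientGroup.mk'_surjective N.N y
  exact ⟨io p w, hw⟩

/-- The kernel of the projection `FF p → F/N` is open, with quotient `F/N`; these kernels are a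
basis of neighbourhoods of `1`. -/
theorem exists_proj (N : NIdx p) : ∃ f : FF p →* Qt p N, Continuous f ∧ Function.Surjective f ∧
    ∀ w, f (io p w) = qt p N w :=
  ⟨FFBasic_proj N, FFBasic_proj_cont N, FFBasic_proj_surj N, fun _ => rfl⟩

/-- the intersection of finitely many kernels -/
private def FFBasic_K (I : Finset (NIdx p)) : Subgroup (FF p) :=
  (MonoidHom.pi fun N : I => FFBasic_proj N.1).ker

omit [Fact p.Prime] in
private theorem FFBasic_mem_K (I : Finset (NIdx p)) (x : FF p) :
    x ∈ FFBasic_K I ↔ ∀ N ∈ I, x.1 N = 1 := by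
  unfold FFBasic_K
  rw [MonoidHom.mem_ker, funext_iff]
  constructor
  · intro h N hN
    exact h ⟨N, hN⟩
  · intro h N
    exact h N.1 N.2

private theorem FFBasic_K_open (I : Finset (NIdx p)) : IsOpen (FFBasic_K I : Set (FF p)) := by
  have h1 : (FFBasic_K I : Set (FF p)) =
      (MonoidHom.pi fun N : I => FFBasic_proj N.1) ⁻¹' {1} := by
    ext x
    exact MonoidHom.mem_ker
  rw [h1]
  refine IsOpen.preimage ?_ (isOpen_discrete _)
  exact continuous_pi fun N => FFBasic_proj_cont N.1

private theorem FFBasic_K_sub (O : Set (FF p)) (hO : IsOpen O) (h1 : (1 : FF p) ∈ O) :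
    ∃ I : Finset (NIdx p), (FFBasic_K I : Set (FF p)) ⊆ O := by
  obtain ⟨U, hU, hUO⟩ := (FFBasic_inducing (p := p)).isOpen_iff.1 hO
  have h1U : (1 : FF p).1 ∈ U := by
    rw [← hUO] at h1
    exact h1
  obtain ⟨I, u, hu, hIU⟩ := isOpen_pi_iff.1 hU _ h1U
  refine ⟨I, fun x hx => ?_⟩
  rw [SetLike.mem_coe, FFBasic_mem_K] at hx
  rw [← hUO]
  refine hIU fun N hN => ?_
  have h2 : x.1 N = 1 := hx N hN
  have h3 : (1 : Qt p N) ∈ u N := (hu N hN).2
  change (fun y : Qt p N => y ∈ u N) (x.1 N)
  exact (congrArg (fun y : Qt p N => y ∈ u N) h2).mpr h3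

private theorem FFBasic_K_index (I : Finset (NIdx p)) : ∃ n : ℕ, (FFBasic_K I).index = p ^ n := by
  unfold FFBasic_K
  rw [Subgroup.index_ker]
  have h1 := Subgroup.card_subgroup_dvd_card (MonoidHom.pi fun N : I => FFBasic_proj N.1).range
  have h2 : ∃ m : ℕ, Nat.card (∀ N : I, Qt p N.1) = p ^ m := by
    rw [Nat.card_pi]
    choose m hm using fun N : NIdx p => N.idx
    refine ⟨∑ N : I, m N.1, ?_⟩
    rw [← Finset.prod_pow_eq_pow_sum]
    refine Finset.prod_congr rfl fun N _ => ?_
    rw [← hm N.1]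
    rfl
  obtain ⟨m, hm⟩ := h2
  rw [hm] at h1
  obtain ⟨n, -, hn⟩ := (Nat.dvd_prime_pow (Fact.out : p.Prime)).1 h1
  exact ⟨n, hn⟩

/-- Every open subgroup has `p`-power index (it contains the kernel of a projection to a finite
product of groups `F/N`). -/
theorem index_open (V : Subgroup (FF p)) (hV : IsOpen (V : Set (FF p))) :
    ∃ n : ℕ, V.index = p ^ n := by
  obtain ⟨I, hI⟩ := FFBasic_K_sub (V : Set (FF p)) hV V.one_mem
  obtain ⟨m, hm⟩ := FFBasic_K_index I
  have h1 : V.index ∣ (FFBasic_K I).index := Subgroup.index_dvd_of_le hI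
  rw [hm] at h1
  obtain ⟨n, -, hn⟩ := (Nat.dvd_prime_pow (Fact.out : p.Prime)).1 h1
  exact ⟨n, hn⟩

private theorem FFBasic_finiteIndex (V : Subgroup (FF p)) (hV : IsOpen (V : Set (FF p))) :
    V.FiniteIndex := by
  obtain ⟨n, hn⟩ := index_open V hV
  refine ⟨?_⟩
  rw [hn]
  exact pow_ne_zero _ (Fact.out : p.Prime).ne_zero

/-- The normal core of an open subgroup is open. -/
theorem isOpen_core (V : Subgroup (FF p)) (hV : IsOpen (V : Set (FF p))) :
    IsOpen (V.normalCore : Set (FF p)) := by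
  obtain ⟨I, hI⟩ := FFBasic_K_sub (V : Set (FF p)) hV V.one_mem
  have h1 : (FFBasic_K I).Normal := by
    unfold FFBasic_K
    infer_instance
  have h2 : FFBasic_K I ≤ V.normalCore := Subgroup.normal_le_normalCore.2 hI
  exact Subgroup.isOpen_mono h2 (FFBasic_K_open I)

/-- Every neighbourhood of `1` contains an open normal subgroup. -/
theorem exists_normal_sub (O : Set (FF p)) (hO : IsOpen O) (h1 : (1 : FF p) ∈ O) :
    ∃ N : Subgroup (FF p), N.Normal ∧ IsOpen (N : Set (FF p)) ∧ (N : Set (FF p)) ⊆ O := by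
  obtain ⟨I, hI⟩ := FFBasic_K_sub O hO h1
  refine ⟨FFBasic_K I, ?_, FFBasic_K_open I, hI⟩
  unfold FFBasic_K
  infer_instance

/-- a proper subgroup of finite `p`-power index is contained in the kernel of a surjection to
`ℤ/p` (for a group all of whose subgroups of finite index which matter have `p`-power index) -/
private theorem FFBasic_hom {G : Type} [Group G] (N H : Subgroup G) [N.Normal]
    (hN : ∃ n : ℕ, N.index = p ^ n) (hNH : N ≤ H) (hH : H ≠ ⊤) :
    ∃ f : G →* Multiplicative (ZMod p), Function.Surjective f ∧ H ≤ f.ker := by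
  obtain ⟨n, hn⟩ := hN
  have hp : p.Prime := Fact.out
  have hcard : Nat.card (G ⧸ N) = p ^ n := hn
  have hfin : Finite (G ⧸ N) := by
    refine Nat.finite_of_card_ne_zero ?_
    rw [hcard]
    exact pow_ne_zero _ hp.ne_zero
  set Hb : Subgroup (G ⧸ N) := H.map (QuotientGroup.mk' N) with hHb
  have hcomap : Hb.comap (QuotientGroup.mk' N) = H := by
    rw [hHb, Subgroup.comap_map_eq, QuotientGroup.ker_mk', sup_eq_left]
    exact hNH
  have hHbt : Hb ≠ ⊤ := by
    intro h
    apply hH
    rw [← hcomap, h, Subgroup.comap_top]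
  obtain ⟨b, hbn, hb⟩ := (Nat.dvd_prime_pow hp).1 (hcard ▸ Subgroup.card_subgroup_dvd_card Hb)
  have hblt : b < n := by
    refine lt_of_le_of_ne hbn ?_
    rintro rfl
    apply hHbt
    apply Subgroup.eq_top_of_card_eq
    rw [hb, hcard]
  obtain ⟨k, rfl⟩ : ∃ k, n = k + 1 := ⟨n - 1, by omega⟩
  obtain ⟨K, hKc, hKle⟩ := Sylow.exists_subgroup_card_pow_prime_le p
    (m := k) (by rw [hcard]; exact pow_dvd_pow p (Nat.le_succ k)) Hb hb (by omega)
  have hKi : K.index = p := by
    have h1 := Subgroup.card_mul_index K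
    rw [hKc, hcard, pow_succ] at h1
    exact Nat.eq_of_mul_eq_mul_left (pow_pos hp.pos k) h1
  have hKn : K.Normal := by
    apply Subgroup.normal_of_index_eq_minFac_card
    rw [hKi, hcard, Nat.Prime.pow_minFac hp (Nat.succ_ne_zero k)]
  have hQ : Nat.card ((G ⧸ N) ⧸ K) = p := hKi
  have hZ : Nat.card (Multiplicative (ZMod p)) = p := by
    rw [Nat.card_congr Multiplicative.toAdd, Nat.card_zmod]
  let e : ((G ⧸ N) ⧸ K) ≃* Multiplicative (ZMod p) := mulEquivOfPrimeCardEq hQ hZ
  refine ⟨(e.toMonoidHom.comp (QuotientGroup.mk' K)).comp (QuotientGroup.mk' N), ?_, ?_⟩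
  · exact (e.surjective.comp (QuotientGroup.mk'_surjective K)).comp
      (QuotientGroup.mk'_surjective N)
  · intro x hx
    rw [MonoidHom.mem_ker]
    have h1 : QuotientGroup.mk' N x ∈ K := hKle ⟨x, hx, rfl⟩
    have h2 : QuotientGroup.mk' K (QuotientGroup.mk' N x) = 1 := by
      rw [← MonoidHom.mem_ker, QuotientGroup.ker_mk']
      exact h1
    change e (QuotientGroup.mk' K (QuotientGroup.mk' N x)) = 1
    rw [h2, map_one]

/-- (1.4) Between two open subgroups `V' < V` there is `V₂` with `V' ≤ V₂ < V`, `V₂` the kernel of a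
homomorphism `V → ℤ/p`. (In the finite `p`-group `V / core` a proper subgroup lies in a maximal
subgroup, which is normal of index `p`.) -/
theorem exists_step (V V' : Subgroup (FF p)) (hV : IsOpen (V : Set (FF p)))
    (hV' : IsOpen (V' : Set (FF p))) (h : V' < V) :
    ∃ (V2 : Subgroup (FF p)) (ψ : FF p → ZMod p) (σ : FF p), V' ≤ V2 ∧ IsCyc V V2 p ψ σ := by
  classical
  have hC : IsOpen (V'.normalCore : Set (FF p)) := isOpen_core V' hV'
  obtain ⟨c, hc⟩ := index_open V'.normalCore hC
  have hidx : ∃ n : ℕ, (V'.normalCore.subgroupOf V).index = p ^ n := by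
    have h1 : (V'.normalCore.subgroupOf V).index ∣ V'.normalCore.index := by
      change V'.normalCore.relIndex V ∣ V'.normalCore.index
      exact Subgroup.relIndex_dvd_index_of_normal _ _
    rw [hc] at h1
    obtain ⟨n, -, hn⟩ := (Nat.dvd_prime_pow (Fact.out : p.Prime)).1 h1
    exact ⟨n, hn⟩
  obtain ⟨f, hfs, hf⟩ := FFBasic_hom (V'.normalCore.subgroupOf V) (V'.subgroupOf V) hidx
    (Subgroup.comap_mono V'.normalCore_le) (by
      intro h1
      rw [Subgroup.subgroupOf_eq_top] at h1
      exact absurd h1 (not_le_of_gt h))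
  obtain ⟨σ, hσ⟩ := hfs (Multiplicative.ofAdd 1)
  have hle : V' ≤ f.ker.map V.subtype := by
    intro x hx
    exact ⟨⟨x, h.le hx⟩, hf hx, rfl⟩
  refine ⟨f.ker.map V.subtype, fun g => if hg : g ∈ V then (f ⟨g, hg⟩).toAdd else 0, σ.1, hle, ?_⟩
  refine ⟨Subgroup.isOpen_mono hle hV', Subgroup.map_subtype_le _, ?_, ?_, σ.2, ?_⟩
  · intro g hg g' hg'
    simp only [hg, hg', V.mul_mem hg hg', dif_pos]
    have h1 : (⟨g * g', V.mul_mem hg hg'⟩ : V) = ⟨g, hg⟩ * ⟨g', hg'⟩ := rfl
    rw [h1, map_mul, toAdd_mul]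
  · intro g hg
    simp only [hg, dif_pos]
    constructor
    · intro h1
      refine ⟨⟨g, hg⟩, ?_, rfl⟩
      exact toAdd_eq_zero.1 h1
    · rintro ⟨y, hy, hyg⟩
      have h2 : y = ⟨g, hg⟩ := Subtype.ext hyg
      rw [← h2]
      exact toAdd_eq_zero.2 hy
  · simp only [σ.2, dif_pos]
    have h1 : (⟨σ.1, σ.2⟩ : V) = σ := rfl
    rw [h1, hσ]
    rfl

theorem Adm.mono {D : Datum p} {V V' : Subgroup (FF p)} (h : Adm D V)
    (hV' : IsOpen (V' : Set (FF p))) (hR : D.R ≤ V') (hle : V' ≤ V) : Adm D V' :=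
  ⟨hV', hR, fun g i j hj => h.free g i j (hle hj)⟩

/-- Induction along chains of covers of degree `p` (by `exists_step`, induction on the index). -/
theorem chain_induction (D : Datum p) (P : Subgroup (FF p) → Prop) (V1 : Subgroup (FF p))
    (hV1 : Adm D V1) (h1 : P V1)
    (hstep : ∀ (V V2 : Subgroup (FF p)) (ψ : FF p → ZMod p) (σ : FF p), V ≤ V1 → Adm D V →
      Adm D V2 → P V → IsCyc V V2 p ψ σ → P V2)
    (V' : Subgroup (FF p)) (hV' : IsOpen (V' : Set (FF p))) (hR : D.R ≤ V') (hle : V' ≤ V1) :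
    P V' := by
  have key : ∀ (n : ℕ) (V : Subgroup (FF p)), V'.index - V.index = n → V' ≤ V → V ≤ V1 →
      Adm D V → P V → P V' := by
    intro n
    induction n using Nat.strong_induction_on with
    | _ n ih =>
      intro V hn hVV hVV1 hA hP
      rcases eq_or_lt_of_le hVV with heq | hlt
      · rw [heq]
        exact hP
      obtain ⟨V2, ψ, σ, hV2, hcyc⟩ := exists_step V V' hA.isOpen hV' hlt
      have hV2V : V2 < V := by
        refine lt_of_le_of_ne hcyc.le ?_
        intro h2
        have h3 : ψ σ = 0 := (hcyc.ker σ hcyc.mem).2 (h2 ▸ hcyc.mem)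
        rw [hcyc.one] at h3
        exact one_ne_zero h3
      have hA2 : Adm D V2 := hA.mono hcyc.isOpen (hR.trans hV2) hcyc.le
      have hfi2 : V2.FiniteIndex := FFBasic_finiteIndex V2 hcyc.isOpen
      have hfi' : V'.FiniteIndex := FFBasic_finiteIndex V' hV'
      have hlt2 : V.index < V2.index := Subgroup.index_strictAnti hV2V
      have hle2 : V2.index ≤ V'.index := Subgroup.index_antitone hV2
      exact ih (V'.index - V2.index) (by omega) V2 rfl hV2 (hV2V.le.trans hVV1) hA2
        (hstep V V2 ψ σ hVV1 hA hA2 hP hcyc)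
  exact key _ V1 rfl hle le_rfl hV1 h1

/-- A decreasing sequence of open subgroups with intersection `N`, `N ⊆ O` open: some member lies
in `O` (compactness). -/
theorem exists_sub_of_iInf (W : ℕ → Subgroup (FF p)) (hW : ∀ j, IsOpen (W j : Set (FF p)))
    (hanti : Antitone W) (O : Set (FF p)) (hO : IsOpen O)
    (hN : ((⨅ j, W j : Subgroup (FF p)) : Set (FF p)) ⊆ O) : ∃ j, (W j : Set (FF p)) ⊆ O := by
  have hc : ∀ j, IsClosed (W j : Set (FF p)) := fun j => (W j).isClosed_of_isOpen (hW j)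
  refine exists_subset_nhds_of_isCompact' (V := fun j => (W j : Set (FF p))) ?_
    (fun j => (hc j).isCompact) hc ?_
  · intro i j
    exact ⟨max i j, hanti (le_max_left i j), hanti (le_max_right i j)⟩
  · intro x hx
    apply hO.mem_nhds
    apply hN
    rw [Subgroup.coe_iInf]
    exact hx

theorem isClosed_R (D : Datum p) : IsClosed (D.R : Set (FF p)) :=
  Subgroup.isClosed_topologicalClosure _

theorem normal_R (D : Datum p) : D.R.Normal :=
  Subgroup.is_normal_topologicalClosure _

theorem r_mem_R (D : Datum p) (i : Fin D.n) (g : FF p) : g * D.r i * g⁻¹ ∈ D.R :=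
  (normal_R D).conj_mem _ (Subgroup.le_topologicalClosure _
    (Subgroup.subset_normalClosure ⟨i, rfl⟩)) g

/-- A closed subgroup containing all conjugates of the relators contains `R`. -/
theorem R_le (D : Datum p) (K : Subgroup (FF p)) (hK : IsClosed (K : Set (FF p)))
    (h : ∀ i g, g * D.r i * g⁻¹ ∈ K) : D.R ≤ K := by
  refine Subgroup.topologicalClosure_minimal _ ?_ hK
  rw [Subgroup.normalClosure, Subgroup.closure_le]
  intro x hx
  obtain ⟨a, ⟨i, rfl⟩, ha⟩ := Group.mem_conjugatesOfSet_iff.1 hx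
  obtain ⟨g, rfl⟩ := isConj_iff.1 ha
  exact h i g

end D687
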