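import Pool.Agent.Lib_MP_d687bf.Defs2
import Pool.Agent.Lib_MP_d687bf.FFBasic

/-!
MP_d687bf, C1: (2.1) representatives of `V \ FF / ⟨ω_i⟩` and the description of `C_V(M)`.

(2.1): `t ↦ (t (ri l) (rg l))_l` is a bijection `C_V(M) → M^q`: the value at `v * rg l * ω^j` must be
`act v (m l)`; this is well defined: if `v g_l ω^j = v' g_l ω^j'` then
`g_l ω^(j-j') g_l⁻¹ = v⁻¹ v' ∈ V`, so `p ^ a_i ∣ j - j'` (`Adm.free`), so `v⁻¹ v'` is a conjugate of a
power of `r_i`, lies in `R` and acts trivially.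
-/

set_option autoImplicit false

open Set Filter Topology

namespace D687

variable {p : ℕ} [Fact p.Prime] {D : Datum p} {V : Subgroup (FF p)}

/-- double cosets -/
private def CReps_setoid (D : Datum p) (V : Subgroup (FF p)) : Setoid (Fin D.n × FF p) where
  r x y := x.1 = y.1 ∧ ∃ v ∈ V, ∃ j : ℤ, y.2 = v * x.2 * D.ω x.1 ^ j
  iseqv := by
    refine ⟨fun x => ⟨rfl, 1, V.one_mem, 0, by simp⟩, ?_, ?_⟩
    · rintro ⟨i, g⟩ ⟨i', g'⟩ ⟨h1, v, hv, j, h2⟩
      simp only at h1 h2
      subst h1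
      refine ⟨rfl, v⁻¹, V.inv_mem hv, -j, ?_⟩
      simp only [h2]
      group
    · rintro ⟨i, g⟩ ⟨i', g'⟩ ⟨i'', g''⟩ ⟨h1, v, hv, j, h2⟩ ⟨h1', v', hv', j', h2'⟩
      simp only at h1 h2 h1' h2'
      subst h1
      subst h1'
      refine ⟨rfl, v' * v, V.mul_mem hv' hv, j + j', ?_⟩
      simp only [h2', h2, zpow_add]
      group

theorem exists_reps (D : Datum p) (V : Subgroup (FF p)) (hV : IsOpen (V : Set (FF p))) :
    ∃ (q : ℕ) (ri : Fin q → Fin D.n) (rg : Fin q → FF p), IsReps D V ri rg := by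
  obtain ⟨n, hn⟩ := index_open V hV
  have hfi : V.FiniteIndex := ⟨by rw [hn]; exact pow_ne_zero _ (Fact.out : p.Prime).ne_zero⟩
  have hfin : Finite (FF p ⧸ V) := inferInstance
  let S := CReps_setoid D V
  have hQ : Finite (Quotient S) := by
    refine Finite.of_surjective
      (fun x : Fin D.n × (FF p ⧸ V) => (Quotient.mk S (x.1, (x.2.out)⁻¹))) ?_
    intro c
    obtain ⟨⟨i, g⟩, rfl⟩ := Quotient.exists_rep c
    refine ⟨(i, ((g⁻¹ : FF p) : FF p ⧸ V)), ?_⟩
    obtain ⟨h, hh⟩ := QuotientGroup.mk_out_eq_mul V (g⁻¹)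
    apply Quotient.sound
    refine ⟨rfl, h, h.2, 0, ?_⟩
    simp only [hh]
    group
  obtain ⟨q, ⟨e⟩⟩ := Finite.exists_equiv_fin (Quotient S)
  refine ⟨q, fun l => (e.symm l).out.1, fun l => (e.symm l).out.2, ?_, ?_⟩
  · intro i g
    refine ⟨e (Quotient.mk S (i, g)), ?_⟩
    have h1 : S.r (Quotient.out (Quotient.mk S (i, g))) (i, g) := Quotient.exact (Quotient.out_eq _)
    rw [Equiv.symm_apply_apply]
    obtain ⟨h2, v, hv, j, h3⟩ := h1
    simp only at h2 h3
    refine ⟨h2, v, hv, j, ?_⟩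
    rw [h2] at h3
    exact h3
  · rintro l l' h1 ⟨v, hv, j, h2⟩
    have h3 : S.r (e.symm l).out (e.symm l').out := ⟨h1, v, hv, j, h2⟩
    have h4 : Quotient.mk S (e.symm l).out = Quotient.mk S (e.symm l').out := Quotient.sound h3
    rw [Quotient.out_eq, Quotient.out_eq] at h4
    exact e.symm.injective h4

section

variable {A M : Type} [CommRing A] [AddCommGroup M] [Module A M] {q : ℕ} {ri : Fin q → Fin D.n}
  {rg : Fin q → FF p}

omit [Fact p.Prime] in
private theorem CReps_per {act : FF p → M →ₗ[A] M} {t : Fin D.n → FF p → M}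
    (ht : t ∈ CV D V act) (i : Fin D.n) (g : FF p) (j : ℤ) : t i (g * D.ω i ^ j) = t i g := by
  have h1 : ∀ g, t i (g * D.ω i) = t i g := fun g => ht.2 i g
  induction j using Int.induction_on with
  | zero => rw [zpow_zero, mul_one]
  | succ k ih =>
    rw [zpow_add_one, ← mul_assoc, h1, ih]
  | pred k ih =>
    rw [← ih, ← h1 (g * D.ω i ^ (-(k : ℤ) - 1)), mul_assoc, ← zpow_add_one, sub_add_cancel]

theorem CV_ext (hr : IsReps D V ri rg) {act : FF p → M →ₗ[A] M} {t t' : Fin D.n → FF p → M}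
    (ht : t ∈ CV D V act) (ht' : t' ∈ CV D V act)
    (h : ∀ l, t (ri l) (rg l) = t' (ri l) (rg l)) : t = t' := by
  funext i g
  obtain ⟨l, hl, v, hv, j, hg⟩ := hr.ex i g
  subst hl
  rw [hg, CReps_per ht, CReps_per ht', ht.1 _ v hv, ht'.1 _ v hv, h]

omit [Fact p.Prime] in
private theorem CReps_wd [TopologicalSpace M] (hadm : Adm D V) (hr : IsReps D V ri rg)
    {act : FF p → M →ₗ[A] M} (hact : IsActR D V act) (m : Fin q → M) (l l' : Fin q)
    (i : Fin D.n) (hl : ri l = i) (hl' : ri l' = i) (v v' : FF p) (hv : v ∈ V) (hv' : v' ∈ V)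
    (j j' : ℤ) (h : v * rg l * D.ω i ^ j = v' * rg l' * D.ω i ^ j') :
    act v (m l) = act v' (m l') := by
  have h1 : l = l' := by
    refine hr.inj l l' (hl.trans hl'.symm) ⟨v'⁻¹ * v, V.mul_mem (V.inv_mem hv') hv, j - j', ?_⟩
    rw [hl, sub_eq_add_neg, zpow_add]
    have h2 : rg l' = v'⁻¹ * (v' * rg l' * D.ω i ^ j') * (D.ω i ^ j')⁻¹ := by group
    rw [h2, ← h, zpow_neg]
    group
  subst h1
  have h2 : v⁻¹ * v' = rg l * D.ω i ^ (j - j') * (rg l)⁻¹ := by
    have h3 : v⁻¹ * v' = v⁻¹ * (v' * rg l * D.ω i ^ j') * (D.ω i ^ j')⁻¹ * (rg l)⁻¹ := by group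
    rw [h3, ← h, sub_eq_add_neg, zpow_add, zpow_neg]
    group
  have hmem : v⁻¹ * v' ∈ V := V.mul_mem (V.inv_mem hv) hv'
  obtain ⟨k, hk⟩ := hadm.free (rg l) i (j - j') (h2 ▸ hmem)
  have h4 : v⁻¹ * v' ∈ D.R := by
    rw [h2, hk, zpow_mul, zpow_natCast]
    have h5 : rg l * (D.ω i ^ p ^ D.a i) ^ k * (rg l)⁻¹ = (rg l * D.r i * (rg l)⁻¹) ^ k := by
      rw [conj_zpow]
      rfl
    rw [h5]
    refine D.R.zpow_mem ?_ k
    have hn : D.R.Normal := Subgroup.is_normal_topologicalClosure _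
    exact hn.conj_mem _ (Subgroup.le_topologicalClosure _
      (Subgroup.subset_normalClosure ⟨i, rfl⟩)) _
  have h6 : act v' = act v := by
    have h7 : v' = v * (v⁻¹ * v') := by group
    rw [h7, hact.mul v hv _ hmem, hact.triv _ h4, LinearMap.comp_id]
  rw [h6]

theorem CV_exists [TopologicalSpace M] (hadm : Adm D V) (hr : IsReps D V ri rg)
    {act : FF p → M →ₗ[A] M} (hact : IsActR D V act) (m : Fin q → M) :
    ∃ t ∈ CV D V act, ∀ l, t (ri l) (rg l) = m l := by
  choose L hL v hv j hj using hr.ex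
  have key : ∀ (i : Fin D.n) (g : FF p) (l : Fin q) (w : FF p) (k : ℤ), ri l = i → w ∈ V →
      g = w * rg l * D.ω i ^ k → act (v i g) (m (L i g)) = act w (m l) := by
    intro i g l w k hl hw hg
    exact CReps_wd hadm hr hact m (L i g) l i (hL i g) hl (v i g) w (hv i g) hw (j i g) k
      ((hj i g).symm.trans hg)
  refine ⟨fun i g => act (v i g) (m (L i g)), ⟨?_, ?_⟩, ?_⟩
  · intro i w hw g
    change act (v i (w * g)) (m (L i (w * g))) = act w (act (v i g) (m (L i g)))
    rw [key i (w * g) (L i g) (w * v i g) (j i g) (hL i g) (V.mul_mem hw (hv i g)) (by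
      conv_lhs => rw [hj i g]
      group), hact.mul w hw _ (hv i g)]
    rfl
  · intro i g
    change act (v i (g * D.ω i)) (m (L i (g * D.ω i))) = act (v i g) (m (L i g))
    refine key i (g * D.ω i) (L i g) (v i g) (j i g + 1) (hL i g) (hv i g) ?_
    conv_lhs => rw [hj i g]
    rw [zpow_add_one, mul_assoc]
  · intro l
    change act (v (ri l) (rg l)) (m (L (ri l) (rg l))) = m l
    rw [key (ri l) (rg l) l 1 0 rfl V.one_mem (by simp), hact.one]
    rfl

theorem exists_CV_equiv [TopologicalSpace M] (hadm : Adm D V) (hr : IsReps D V ri rg)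
    {act : FF p → M →ₗ[A] M} (hact : IsActR D V act) :
    ∃ e : CV D V act ≃ₗ[A] (Fin q → M), ∀ (t : CV D V act) (l : Fin q),
      e t l = (t : Fin D.n → FF p → M) (ri l) (rg l) := by
  let f : CV D V act →ₗ[A] (Fin q → M) :=
    { toFun := fun t l => (t : Fin D.n → FF p → M) (ri l) (rg l)
      map_add' := fun _ _ => rfl
      map_smul' := fun _ _ => rfl }
  refine ⟨LinearEquiv.ofBijective f ⟨?_, ?_⟩, fun t l => rfl⟩
  · intro t t' h
    exact Subtype.ext (CV_ext hr t.2 t'.2 fun l => congrFun h l)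
  · intro m
    obtain ⟨t, ht, h⟩ := CV_exists hadm hr hact m
    exact ⟨⟨t, ht⟩, funext h⟩

/-- The elements of `C_V(M)` are continuous functions. -/
theorem CV_continuous [TopologicalSpace M] (hadm : Adm D V) {act : FF p → M →ₗ[A] M}
    (hact : IsActR D V act) {t : Fin D.n → FF p → M} (ht : t ∈ CV D V act) (i : Fin D.n) :
    Continuous (t i) := by
  rw [continuous_iff_continuousAt]
  intro g
  have hO : IsOpen {x : FF p | x * g⁻¹ ∈ V} :=
    hadm.isOpen.preimage (continuous_id.mul continuous_const)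
  have hg : g ∈ {x : FF p | x * g⁻¹ ∈ V} := by
    change g * g⁻¹ ∈ V
    rw [mul_inv_cancel]
    exact V.one_mem
  have h1 : ContinuousOn (fun x : FF p => act (x * g⁻¹) (t i g)) {x : FF p | x * g⁻¹ ∈ V} := by
    refine hact.cont.comp (f := fun x : FF p => (x * g⁻¹, t i g)) ?_ ?_
    · exact ((continuous_id.mul continuous_const).prodMk continuous_const).continuousOn
    · intro x hx
      exact ⟨hx, mem_univ _⟩
  refine (h1.continuousAt (hO.mem_nhds hg)).congr ?_
  filter_upwards [hO.mem_nhds hg] with x hx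
  rw [← ht.1 i _ hx g]
  congr 1
  group

theorem finite_CV [TopologicalSpace M] [Module.Finite A M] (hadm : Adm D V)
    {act : FF p → M →ₗ[A] M} (hact : IsActR D V act) : Module.Finite A (CV D V act) := by
  obtain ⟨q, ri, rg, hr⟩ := exists_reps D V hadm.isOpen
  obtain ⟨e, -⟩ := exists_CV_equiv hadm hr hact
  exact Module.Finite.equiv e.symm

end

private theorem CReps_triv : IsActR D V (triv (ZMod p) (ZMod p)) where
  one := rfl
  mul _ _ _ _ := rfl
  cont := continuous_snd.continuousOn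
  triv _ _ := rfl

theorem finite_Ck (hadm : Adm D V) : Module.Finite (ZMod p) (Ck D V) := by
  exact finite_CV hadm CReps_triv

theorem finite_TV (hadm : Adm D V) : Module.Finite (ZMod p) (TV D V) := by
  have := finite_Ck hadm
  infer_instance

/-- Every functional on `C_V(k)` is given by a chain. -/
theorem exists_chain (hadm : Adm D V) (κ : Module.Dual (ZMod p) (Ck D V)) :
    ∃ z : Ch D, ∀ t : Ck D V, pair z (t : Fin D.n → FF p → ZMod p) = κ t := by
  classical
  obtain ⟨q, ri, rg, hr⟩ := exists_reps D V hadm.isOpen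
  obtain ⟨e, he⟩ := exists_CV_equiv hadm hr (CReps_triv (D := D) (V := V))
  let f : (Fin q → ZMod p) →ₗ[ZMod p] ZMod p := κ ∘ₗ e.symm.toLinearMap
  refine ⟨∑ l, Finsupp.single (ri l, rg l) (f fun j => if l = j then 1 else 0), fun t => ?_⟩
  have h1 : κ t = f (e t) := by
    change κ t = κ (e.symm (e t))
    rw [LinearEquiv.symm_apply_apply]
  rw [h1, LinearMap.pi_apply_eq_sum_univ f (e t)]
  unfold pair
  rw [← Finsupp.sum_finsetSum_index]
  · refine Finset.sum_congr rfl fun l _ => ?_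
    rw [Finsupp.sum_single_index (by rw [zero_smul]), he, smul_eq_mul, smul_eq_mul, mul_comm]
  · intro a
    rw [zero_smul]
  · intro a b c
    rw [add_smul]

end D687
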