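import Pool.Agent.Lib_MP_d687bf.Cov
import Pool.Agent.Lib_MP_d687bf.CReps

/-!
MP_d687bf, C6: (2.4)(d) for chains. `κ'` on `C_{V'}(k)` is given by a chain `z'`.

Proof. `κ' (t) := pair z' t` on `C_{V'}(k)` is `σ`-invariant, so it vanishes on
`(σ - 1) C_{V'}(k) = ker cor` (`cor_ker`) and factors as `κ ∘ cor` (`cor_surj`); `κ` is given by a
chain `z` (`exists_chain`). For `a ∈ Hom(V,k)` take a lift `α̂ ∈ Z(V, k#)` (`exists_lift_sum`):
`κ (ev a) = κ (ev (∑ α̂)) = κ (cor (ev α̂_0)) = κ' (ev α̂_0) = 0`.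
-/

set_option autoImplicit false

open Set Filter Topology

namespace D687

variable {p : ℕ} [Fact p.Prime] {D : Datum p} {V V' : Subgroup (FF p)} {N : ℕ} [NeZero N]
  {ψ : FF p → ZMod N} {σ : FF p}

private theorem CovK_pair_add {M : Type} [AddCommGroup M] [Module (ZMod p) M] (z : Ch D)
    (t s : Fin D.n → FF p → M) : pair z (t + s) = pair z t + pair z s := by
  unfold pair
  rw [← Finsupp.sum_add]
  refine Finsupp.sum_congr fun x _ => ?_
  rw [Pi.add_apply, Pi.add_apply, smul_add]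

private theorem CovK_pair_smul {M : Type} [AddCommGroup M] [Module (ZMod p) M] (z : Ch D)
    (c : ZMod p) (t : Fin D.n → FF p → M) : pair z (c • t) = c • pair z t := by
  unfold pair
  rw [Finsupp.smul_sum]
  refine Finsupp.sum_congr fun x _ => ?_
  rw [Pi.smul_apply, Pi.smul_apply, smul_comm]

private def CovK_pairL (z : Ch D) : (Fin D.n → FF p → ZMod p) →ₗ[ZMod p] ZMod p where
  toFun t := pair z t
  map_add' := CovK_pair_add z
  map_smul' := CovK_pair_smul z

omit [Fact p.Prime] [NeZero N] in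
private theorem CovK_cor_apply {M : Type} [AddCommGroup M] {A : Type} [CommRing A] [Module A M]
    (t : Fin D.n → FF p → M) (i : Fin D.n) (g : FF p) :
    cor (triv A M) σ N t i g = ∑ j ∈ Finset.range N, t i ((σ ^ j)⁻¹ * g) := by
  unfold cor
  rw [Finset.sum_apply, Finset.sum_apply]
  rfl

/-- (2.4)(d), without the condition on `ev`. -/
theorem exists_descend (h : IsCyc V V' N ψ σ) (hadm : Adm D V) (hR : D.R ≤ V') (z' : Ch D)
    (hσ : ∀ t ∈ Ck D V', pair z' (dot (triv (ZMod p) (ZMod p)) σ t) = pair z' t) :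
    ∃ z : Ch D, ∀ t ∈ Ck D V', pair z' t = pair z (cor (triv (ZMod p) (ZMod p)) σ N t) := by
  have hact : IsActR D V (triv (ZMod p) (ZMod p)) := isActR_triv
  let L : Ck D V' →ₗ[ZMod p] Ck D V :=
    { toFun := fun t => ⟨cor (triv (ZMod p) (ZMod p)) σ N (t : Fin D.n → FF p → ZMod p),
        cor_mem h hact hR t.2⟩
      map_add' := fun t s => by
        apply Subtype.ext
        funext i g
        change cor (triv (ZMod p) (ZMod p)) σ N
          ((t : Fin D.n → FF p → ZMod p) + (s : Fin D.n → FF p → ZMod p)) i g =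
          cor (triv (ZMod p) (ZMod p)) σ N (t : Fin D.n → FF p → ZMod p) i g +
          cor (triv (ZMod p) (ZMod p)) σ N (s : Fin D.n → FF p → ZMod p) i g
        rw [CovK_cor_apply, CovK_cor_apply, CovK_cor_apply, ← Finset.sum_add_distrib]
        rfl
      map_smul' := fun c t => by
        apply Subtype.ext
        funext i g
        change cor (triv (ZMod p) (ZMod p)) σ N
          (c • (t : Fin D.n → FF p → ZMod p)) i g =
          c • cor (triv (ZMod p) (ZMod p)) σ N (t : Fin D.n → FF p → ZMod p) i g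
        rw [CovK_cor_apply, CovK_cor_apply, Finset.smul_sum]
        rfl }
  have hsurj : Function.Surjective L := by
    intro t
    obtain ⟨t', ht', e⟩ := cor_surj h hadm hact hR t.2
    exact ⟨⟨t', ht'⟩, Subtype.ext e⟩
  obtain ⟨g, hg⟩ := LinearMap.exists_rightInverse_of_surjective L (LinearMap.range_eq_top.2 hsurj)
  let κ' : Ck D V' →ₗ[ZMod p] ZMod p := (CovK_pairL z').comp (Ck D V').subtype
  have hker : ∀ t : Ck D V', L t = 0 → κ' t = 0 := by
    intro t ht
    have h0 : cor (triv (ZMod p) (ZMod p)) σ N (t : Fin D.n → FF p → ZMod p) = 0 :=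
      congrArg Subtype.val ht
    obtain ⟨s, hs, hts⟩ := cor_ker h hadm hact hR t.2 h0
    change pair z' (t : Fin D.n → FF p → ZMod p) = 0
    have h1 : pair z' (dot (triv (ZMod p) (ZMod p)) σ s) =
        pair z' (t : Fin D.n → FF p → ZMod p) + pair z' s := by
      rw [← CovK_pair_add, hts, sub_add_cancel]
    rw [hσ s hs] at h1
    exact left_eq_add.1 ((add_comm _ _).trans h1.symm).symm
  obtain ⟨z, hz⟩ := exists_chain hadm (κ'.comp g)
  refine ⟨z, fun t ht => ?_⟩
  have h2 : pair z (cor (triv (ZMod p) (ZMod p)) σ N t) = κ' (g (L ⟨t, ht⟩)) := hz (L ⟨t, ht⟩)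
  have h3 : L (g (L ⟨t, ht⟩)) = L ⟨t, ht⟩ := LinearMap.congr_fun hg (L ⟨t, ht⟩)
  have h4 : κ' (g (L ⟨t, ht⟩) - ⟨t, ht⟩) = 0 := hker _ (by rw [map_sub, h3, sub_self])
  rw [map_sub, sub_eq_zero] at h4
  rw [h2, h4]
  rfl

/-- If `z' = z ∘ cor` on `C_{V'}(k)` and `z'` is a class for `V'` then `z` is a class for `V`. -/
theorem isClass_descend (h : IsCyc V V' N ψ σ) (hadm : Adm D V) (hR : D.R ≤ V')
    (z' z : Ch D) (hz' : IsClass V' z')
    (hz : ∀ t ∈ Ck D V', pair z' t = pair z (cor (triv (ZMod p) (ZMod p)) σ N t)) :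
    IsClass V z := by
  intro a ha
  have hact : IsActR D V (triv (ZMod p) (ZMod p)) := isActR_triv
  have hact' : IsActR D V' (triv (ZMod p) (ZMod p)) := isActR_triv
  obtain ⟨α', hα', hsum⟩ := exists_lift_sum h hact.toIsAct ha
  have h0 := zero_mem_Z1 h hα'
  have h1 := cor_ev h hact hR hα'
  have h2 : (fun x => ∑ c : ZMod N, α' x c) = a := funext hsum
  rw [h2] at h1
  rw [← h1, ← hz _ (ev_mem hR hact' h0)]
  exact hz' _ h0

theorem nonZ_descend (h : IsCyc V V' N ψ σ) (hadm : Adm D V) (hR : D.R ≤ V')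
    (z' z : Ch D) (hz' : NonZ V' z')
    (hz : ∀ t ∈ Ck D V', pair z' t = pair z (cor (triv (ZMod p) (ZMod p)) σ N t)) :
    NonZ V z := by
  obtain ⟨t, ht, hne⟩ := hz'
  exact ⟨_, cor_mem h isActR_triv hR ht, by rw [← hz t ht]; exact hne⟩

/-- Extension of scalars: if `z' = z ∘ cor` on `C_{V'}(k)` then also on `C_{V'}(k[[T]])` (trivial
action): compare coefficients. -/
theorem descend_K1 (h : IsCyc V V' N ψ σ) (z' z : Ch D)
    (hz : ∀ t ∈ Ck D V', pair z' t = pair z (cor (triv (ZMod p) (ZMod p)) σ N t))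
    (t : Fin D.n → FF p → K1 p) (ht : t ∈ CV D V' (triv (K1 p) (K1 p))) :
    pair z' t = pair z (cor (triv (K1 p) (K1 p)) σ N t) := by
  have hpair : ∀ (w : Ch D) (s : Fin D.n → FF p → K1 p) (m : ℕ),
      PowerSeries.coeff m (pair w s) =
        pair w (fun i g => PowerSeries.coeff m (s i g)) := by
    intro w s m
    unfold pair Finsupp.sum
    rw [map_sum]
    exact Finset.sum_congr rfl fun x _ => map_smul _ _ _
  ext m
  rw [hpair, hpair]
  have hm : (fun i g => PowerSeries.coeff m (t i g)) ∈ Ck D V' := by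
    refine ⟨fun i v hv g => ?_, fun i g => ?_⟩
    · exact congrArg (PowerSeries.coeff m) (ht.1 i v hv g)
    · exact congrArg (PowerSeries.coeff m) (ht.2 i g)
  rw [hz _ hm]
  congr 1
  funext i g
  rw [CovK_cor_apply, CovK_cor_apply, map_sum]

end D687
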