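import Pool.Agent.Lib_MP_d687bf.CupF
import Pool.Agent.Lib_MP_d687bf.KillsCov

/-!
MP_d687bf, F1: the transfer of a cup product, used in (5.2).

Let `M = A_χ`, `α̂₁ ∈ Z(V, M#)` a lift of `α` (`exists_lift_sum`); `ev α̂₁` has sum `0`; `Kills_ker_sum`
gives `γ`, `∑ γ = 0`, `ev γ = a^(p-1) ev α̂₁`; `α̂ := a^(p-1) α̂₁ - γ` vanishes on `R`, `∑ α̂ = a^(p-1) α`.
`α' := res V' (α̂ (·) 0) ∈ Z_R(V', M)`. Let `F̂ : V → A# = Map(ℤ/p, A)` with
`F̂ (g h) c = F̂ g c + F̂ h (c - ψ g) + χ'(g) β(h) α̂ g c` (a lift of `β` to the module `A# × A`,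
`g (m₁, m₂) = (shift_g m₁ + χ'(g) m₂ α̂(g), χ'(g) m₂)`; `exists_lift`). `F' := res V' (F̂ (·) 0)`
satisfies `IsF V' χ' α' β|V' F'` and `G := ∑ F̂` satisfies `IsF V χ' (a^(p-1) α) β G`;
`F̂ (v x v⁻¹) = shift_v F̂ (x)` for `x ∈ R`, so `(F̂ (g r_i g⁻¹))` is in `C_V` of the shift module
`shA (triv A A) ψ` and `cor (ev F') = ev G` by `cor_zero`.
-/

set_option autoImplicit false

open Set Filter Topology

namespace D687

variable {p : ℕ} [Fact p.Prime] {D : Datum p} {V V' : Subgroup (FF p)}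

private theorem Transfer_Fhat {A : Type} [CommRing A] [TopologicalSpace A] [ProPRing p A]
    {ψ : FF p → ZMod p} {σ : FF p} (h : IsCyc V V' p ψ σ) (hV : IsOpen (V : Set (FF p)))
    (hR : D.R ≤ V') {χ χ' : FF p → A} (hχ' : IsChar D V χ')
    (hinv : ∀ v ∈ V, χ v * χ' v = 1) {γ : FF p → ZMod p → A}
    (hγ : γ ∈ Z1 V (shA (scal χ) ψ)) (hγ1 : γ 1 = 0) {β : FF p → A}
    (hβ : β ∈ Z1 V (scal χ')) :
    ∃ F : FF p → ZMod p → A, Continuous F ∧ (∀ x, x ∉ V → F x = 0) ∧
      ∀ g ∈ V, ∀ k ∈ V, ∀ c, F (g * k) c = F g c + F k (c - ψ g) + χ' g * γ g c * β k := by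
  have hγZ : IsZ V (fun g => shA (scal χ) ψ g) γ := hγ
  have hβZ : IsZ V (fun g => scal χ' g) β := hβ
  have hψ1 : ψ 1 = 0 := h.psi_zero V'.one_mem
  let act : FF p → ((ZMod p → A) × A) → ((ZMod p → A) × A) := fun g m =>
    (fun c => m.1 (c - ψ g) + χ' g * γ g c * m.2, χ' g * m.2)
  let act'' : FF p → A → A := fun g m => scal χ' g m
  have h1 : ∀ m, act 1 m = m := by
    rintro ⟨m1, m2⟩
    refine Prod.ext ?_ ?_
    · funext c
      change m1 (c - ψ 1) + χ' 1 * γ 1 c * m2 = m1 c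
      rw [hψ1, hγ1, sub_zero, Pi.zero_apply, mul_zero, zero_mul, add_zero]
    · change χ' 1 * m2 = m2
      rw [hχ'.one, one_mul]
  have hadd : ∀ g ∈ V, ∀ m m', act g (m + m') = act g m + act g m' := by
    intro g _ m m'
    refine Prod.ext ?_ ?_
    · funext c
      change (m.1 (c - ψ g) + m'.1 (c - ψ g)) + χ' g * γ g c * (m.2 + m'.2) =
        (m.1 (c - ψ g) + χ' g * γ g c * m.2) + (m'.1 (c - ψ g) + χ' g * γ g c * m'.2)
      ring
    · change χ' g * (m.2 + m'.2) = χ' g * m.2 + χ' g * m'.2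
      ring
  have hmul : ∀ g ∈ V, ∀ k ∈ V, ∀ m, act (g * k) m = act g (act k m) := by
    intro g hg k hk m
    refine Prod.ext ?_ ?_
    · funext c
      change m.1 (c - ψ (g * k)) + χ' (g * k) * γ (g * k) c * m.2 =
        (m.1 (c - ψ g - ψ k) + χ' k * γ k (c - ψ g) * m.2) + χ' g * γ g c * (χ' k * m.2)
      have h2 : γ (g * k) c = γ g c + χ g * γ k (c - ψ g) := congrFun (hγZ.mul g hg k hk) c
      rw [h2, h.add g hg k hk, hχ'.mul g hg k hk, sub_sub]
      linear_combination (χ' k * γ k (c - ψ g) * m.2) * hinv g hg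
    · change χ' (g * k) * m.2 = χ' g * (χ' k * m.2)
      rw [hχ'.mul g hg k hk, mul_assoc]
  have hcont : ContinuousOn (fun x : FF p × ((ZMod p → A) × A) => act x.1 x.2)
      ((V : Set (FF p)) ×ˢ (univ : Set ((ZMod p → A) × A))) := by
    have hc1 := (isActR_shA (D := D) h hR (isActR_triv (A := A) (M := A))).cont
    have hA1 : ContinuousOn (fun x : FF p × ((ZMod p → A) × A) =>
        shA (triv A A) ψ x.1 x.2.1) ((V : Set (FF p)) ×ˢ (univ : Set ((ZMod p → A) × A))) := by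
      refine hc1.comp (f := fun x : FF p × ((ZMod p → A) × A) => (x.1, x.2.1)) ?_ ?_
      · exact (continuous_fst.prodMk (continuous_fst.comp continuous_snd)).continuousOn
      · intro x hx
        exact ⟨hx.1, mem_univ _⟩
    have hc2 : ContinuousOn (fun x : FF p × ((ZMod p → A) × A) => χ' x.1)
        ((V : Set (FF p)) ×ˢ (univ : Set ((ZMod p → A) × A))) := by
      refine hχ'.cont.comp continuous_fst.continuousOn ?_
      intro x hx
      exact hx.1
    have hc3 : Continuous (fun x : FF p × ((ZMod p → A) × A) => x.2.2) :=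
      continuous_snd.comp continuous_snd
    refine ContinuousOn.prodMk ?_ (hc2.mul hc3.continuousOn)
    refine continuousOn_pi.2 fun c => ?_
    have hc4 : Continuous (fun x : FF p × ((ZMod p → A) × A) => γ x.1 c) :=
      (continuous_apply c).comp (hγZ.cont.comp continuous_fst)
    exact (continuousOn_pi.1 hA1 c).add ((hc2.mul hc4.continuousOn).mul hc3.continuousOn)
  obtain ⟨B, hB, hBβ⟩ := exists_lift (p := p) V hV (M := (ZMod p → A) × A) (M'' := A) act act''
    h1 hadd hmul hcont (AddMonoidHom.snd (ZMod p → A) A) continuous_snd Prod.snd_surjective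
    (fun _ _ _ => rfl) β hβZ
  refine ⟨fun x => (B x).1, continuous_fst.comp hB.cont, fun x hx => ?_, fun g hg k hk c => ?_⟩
  · change (B x).1 = 0
    rw [hB.supp x hx]
    rfl
  · have h2 : B (g * k) = B g + act g (B k) := hB.mul g hg k hk
    have h3 : (B k).2 = β k := hBβ k
    change (B (g * k)).1 c = (B g).1 c + (B k).1 (c - ψ g) + χ' g * γ g c * β k
    rw [h2, ← h3, add_assoc]
    rfl

/-- The transfer of a cup product: existence of `α', F'` on `V'` with `cor ev F' = ev G`. Here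
`χ` is any character with inverse `χ'`, `A` a coefficient ring with `p A = 0`, `a` kills
`T_V(A_χ)`. -/
theorem exists_transfer {A : Type} [CommRing A] [TopologicalSpace A] [ProPRing p A]
    (hp : (p : A) = 0) {ψ : FF p → ZMod p} {σ : FF p} (h : IsCyc V V' p ψ σ) (hadm : Adm D V)
    (hR : D.R ≤ V') {χ χ' : FF p → A} (hχ : IsChar D V χ) (hχ' : IsChar D V χ')
    (hinv : ∀ v ∈ V, χ v * χ' v = 1) {a : A} (ha : Kills D V (scal χ) a) {α β : FF p → A}
    (hα : α ∈ ZR D V (scal χ)) (hβ : β ∈ ZR D V (scal χ')) :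
    ∃ α' ∈ ZR D V' (scal χ), ∃ F' G : FF p → A, IsF V' χ' α' (res V' β) F' ∧
      IsF V χ' (a ^ (p - 1) • α) β G ∧ cor (triv A A) σ p (ev D F') = ev D G := by
  have hact : IsActR D V (scal χ) := hχ.isActR
  have hact' : IsActR D V (scal χ') := hχ'.isActR
  have hRV : D.R ≤ V := hR.trans h.le
  have hsh : IsActR D V (shA (scal χ) ψ) := isActR_shA h hR hact
  have hpA : ∀ m : A, p • m = 0 := fun m => by rw [nsmul_eq_mul, hp, zero_mul]
  -- the lift
  obtain ⟨α1, hα1, hα1s⟩ := exists_lift_sum h hact.toIsAct hα.1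
  have ht := ev_mem hRV hsh hα1
  have hevα : ∀ i g, α (g * D.r i * g⁻¹) = 0 := fun i g =>
    congrFun (congrFun (show ev D α = 0 from hα.2) i) g
  have h0 : ∀ i g, ∑ c : ZMod p, ev D α1 i g c = 0 := fun i g =>
    (hα1s (g * D.r i * g⁻¹)).trans (hevα i g)
  obtain ⟨γ, hγ, hγs, hγev⟩ := Kills_ker_sum hpA h hadm hR hact ha ht h0
  set αh : FF p → ZMod p → A := a ^ (p - 1) • α1 - γ with hαh
  have hαhZ : αh ∈ Z1 V (shA (scal χ) ψ) :=
    Submodule.sub_mem _ (Submodule.smul_mem _ _ hα1) hγ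
  have hαhev : ev D αh = 0 := by
    have h2 : ev D αh = a ^ (p - 1) • ev D α1 - ev D γ := rfl
    rw [h2, hγev, sub_self]
  have hαhR : αh ∈ ZR D V (shA (scal χ) ψ) := ⟨hαhZ, hαhev⟩
  have hαhs : ∀ x, ∑ c : ZMod p, αh x c = a ^ (p - 1) * α x := by
    intro x
    have h2 : ∀ c, αh x c = a ^ (p - 1) * α1 x c - γ x c := fun c => rfl
    simp only [h2]
    rw [Finset.sum_sub_distrib, ← Finset.mul_sum, hα1s, hγs, sub_zero]
  have hαh1 : αh 1 = 0 := Z1_one hsh.toIsAct hαhZ
  have hαhRz : ∀ x ∈ D.R, αh x = 0 := ((ZR_iff hRV hsh).1 hαhR).2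
  have hβRz : ∀ x ∈ D.R, β x = 0 := ((ZR_iff hRV hact').1 hβ).2
  obtain ⟨F, hFc, hFs, hFm⟩ := Transfer_Fhat (D := D) h hadm.isOpen hR hχ' hinv hαhZ hαh1 hβ.1
  have hψR : ∀ x ∈ D.R, ψ x = 0 := fun x hx => h.psi_zero (hR hx)
  have hconj : ∀ v ∈ V, ∀ x ∈ D.R, ∀ c, F (v * x * v⁻¹) c = F x (c - ψ v) := by
    intro v hv x hx c
    have hy : v * x * v⁻¹ ∈ D.R := (normal_R D).conj_mem x hx v
    have h2 := hFm v hv x (hRV hx) c
    have h3 := hFm (v * x * v⁻¹) (hRV hy) v hv c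
    rw [hβRz x hx, mul_zero, add_zero] at h2
    rw [hψR _ hy, hαhRz _ hy, sub_zero, Pi.zero_apply, mul_zero, zero_mul, add_zero,
      inv_mul_cancel_right] at h3
    rw [h2, add_comm (F (v * x * v⁻¹) c)] at h3
    exact (add_left_cancel h3).symm
  have hcl : IsClosed (V' : Set (FF p)) := V'.isClosed_of_isOpen h.isOpen
  refine ⟨res V' (fun x => αh x 0), ⟨zero_mem_Z1 h hαhZ, ?_⟩, res V' (fun x => F x 0),
    fun x => ∑ c : ZMod p, F x c, ?_, ?_, ?_⟩
  · change ev D (res V' fun x => αh x 0) = 0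
    rw [ev_res hR]
    funext i g
    exact congrFun (congrFun (congrFun hαhev i) g) 0
  · refine ⟨?_, fun x hx => Set.indicator_of_notMem hx _, fun g hg k hk => ?_⟩
    · have hcp : IsClopen (V' : Set (FF p)) := ⟨hcl, h.isOpen⟩
      refine ((continuous_apply 0).comp hFc).indicator fun y hy => ?_
      rw [hcp.frontier_eq] at hy
      exact hy.elim
    · have h1 : g * k ∈ (V' : Set (FF p)) := V'.mul_mem hg hk
      unfold res
      rw [Set.indicator_of_mem h1, Set.indicator_of_mem (show g ∈ (V' : Set (FF p)) from hg),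
        Set.indicator_of_mem (show k ∈ (V' : Set (FF p)) from hk),
        Set.indicator_of_mem (show g ∈ (V' : Set (FF p)) from hg),
        Set.indicator_of_mem (show k ∈ (V' : Set (FF p)) from hk),
        hFm g (h.le hg) k (h.le hk), h.psi_zero hg, sub_zero]
  · refine ⟨continuous_finsetSum _ fun c _ => (continuous_apply c).comp hFc, fun x hx => ?_,
      fun g hg k hk => ?_⟩
    · rw [hFs x hx]
      exact Finset.sum_const_zero
    · change ∑ c : ZMod p, F (g * k) c = ∑ c : ZMod p, F g c + ∑ c : ZMod p, F k c +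
        χ' g * (a ^ (p - 1) * α g) * β k
      simp only [hFm g hg k hk]
      rw [Finset.sum_add_distrib, Finset.sum_add_distrib, ← hαhs g, Finset.mul_sum,
        Finset.sum_mul]
      congr 2
      exact Fintype.sum_equiv (Equiv.subRight (ψ g)) _ _ fun c => rfl
  · have hmem : (fun i g => F (g * D.r i * g⁻¹)) ∈ CV D V (shA (triv A A) ψ) := by
      refine ⟨fun i v hv g => ?_, fun i g => ?_⟩
      · funext c
        change F (v * g * D.r i * (v * g)⁻¹) c = F (g * D.r i * g⁻¹) (c - ψ v)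
        have h1 : v * g * D.r i * (v * g)⁻¹ = v * (g * D.r i * g⁻¹) * v⁻¹ := by group
        rw [h1]
        exact hconj v hv _ (r_mem_R D i g) c
      · have h1 : D.ω i * D.r i * (D.ω i)⁻¹ = D.r i := by
          rw [mul_inv_eq_iff_eq_mul]
          exact ((Commute.refl (D.ω i)).pow_right _).eq
        have h2 : g * D.ω i * D.r i * (g * D.ω i)⁻¹ =
            g * (D.ω i * D.r i * (D.ω i)⁻¹) * g⁻¹ := by group
        change F (g * D.ω i * D.r i * (g * D.ω i)⁻¹) = F (g * D.r i * g⁻¹)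
        rw [h2, h1]
    rw [ev_res hR]
    exact cor_zero h isActR_triv hmem

end D687
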