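import Pool.Agent.Lib_MP_d687bf.Cup
import Pool.Agent.Lib_MP_d687bf.CovK
import Pool.Agent.Lib_MP_d687bf.Transfer

/-!
MP_d687bf, F: (5.2) `(ND)` is inherited.

Step (`V' ≤ V` cyclic cover of degree `p`, `λ ∈ X(V)`, `T^m` kills `T_V(k[[T]]_{±λ})`, `(ND)` for `V`).
Suppose `(ND)` fails for `V'`. Let `E' ≤ C_{V'}(k)` be the span of `ev Hom(V',k)` and of all coefficient
functions `coeff_j (ev F')`, `F'` with `IsF V' χ⁻¹ α' β' F'`, `α' ∈ Z_R(V',λ)`, `β' ∈ Z_R(V',-λ)`;
by failure `E' ≠ C_{V'}(k)`, and `E'` is stable under `dot σ` (`IsF.conj'`, `ZR_conj'`). `dot σ` has order a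
power of `p` on the finite-dimensional `C_{V'}(k)/E'`, so there is a functional `κ' ≠ 0` on `C_{V'}(k)`,
zero on `E'`, `dot σ`-invariant; `z'` a chain for it; `z` from `exists_descend`, a non-zero class for `V`.
`(ND)` gives `α, β, F` for `V` with `pair z (ev F) ≠ 0`.
Now `exists_transfer` (file Transfer, `a = T^m`, `A = k[[T]]`) gives `α', F', G` with
`cor (ev F') = ev G`, and `G - T^(m(p-1)) F ∈ Hom(V, k[[T]])` (`IsF.sub_mem`), so
`pair z' (ev F') = pair z (cor (ev F')) = pair z (ev G) = T^(m(p-1)) pair z (ev F) ≠ 0` (`descend_K1`,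
`IsClass.ev_eq_zero_K1`), a contradiction.
-/

set_option autoImplicit false

open Set Filter Topology

namespace D687

variable {p : ℕ} [Fact p.Prime] {D : Datum p} {V V' V1 : Subgroup (FF p)} {l : FF p → ℤ_[p]}

private theorem NDstep_sub_pow {C : Type} [AddCommGroup C] [Module (ZMod p) C]
    (s : C →ₗ[ZMod p] C) (n : ℕ) (hs : s ^ (p ^ n) = 1) : (s - 1) ^ (p ^ n) = 0 := by
  have h1 : ((Polynomial.X : Polynomial (ZMod p)) - 1) ^ (p ^ n) = Polynomial.X ^ (p ^ n) - 1 := by
    rw [sub_pow_char_pow, one_pow]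
  have h2 := congrArg (Polynomial.aeval s) h1
  rw [map_pow, map_sub, map_sub, map_pow, Polynomial.aeval_X, map_one, hs, sub_self] at h2
  exact h2

/-- A `p`-power order automorphism of a non-zero finite-dimensional `k`-space, `E` a proper
stable subspace: there is a non-zero invariant functional vanishing on `E`. -/
theorem exists_invariant_functional {C : Type} [AddCommGroup C] [Module (ZMod p) C]
    [Module.Finite (ZMod p) C] (s : C →ₗ[ZMod p] C) (n : ℕ) (hs : s ^ (p ^ n) = 1)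
    (E : Submodule (ZMod p) C) (hE : ∀ x ∈ E, s x ∈ E) (hne : E ≠ ⊤) :
    ∃ κ : Module.Dual (ZMod p) C, κ ≠ 0 ∧ (∀ x ∈ E, κ x = 0) ∧ ∀ x, κ (s x) = κ x := by
  have hnil := NDstep_sub_pow s n hs
  have hlt : E ⊔ LinearMap.range (s - 1) < ⊤ := by
    rw [lt_top_iff_ne_top]
    intro htop
    apply hne
    have hstep : ∀ (k : ℕ) (x : C), ∃ e ∈ E, ∃ y : C, x = e + ((s - 1) ^ k) y := by
      intro k
      induction k with
      | zero => exact fun x => ⟨0, E.zero_mem, x, by simp⟩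
      | succ k ih =>
        intro x
        obtain ⟨e, he, y, hy⟩ := ih x
        have hy' : y ∈ E ⊔ LinearMap.range (s - 1) := by rw [htop]; trivial
        obtain ⟨e1, he1, w, ⟨y1, rfl⟩, hw⟩ := Submodule.mem_sup.1 hy'
        refine ⟨e + ((s - 1) ^ k) e1, E.add_mem he ?_, y1, ?_⟩
        · have hst : ∀ (j : ℕ) (u : C), u ∈ E → ((s - 1) ^ j) u ∈ E := by
            intro j
            induction j with
            | zero => exact fun u hu => hu
            | succ j ihj =>
              intro u hu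
              rw [pow_succ, Module.End.mul_apply]
              refine ihj _ ?_
              rw [LinearMap.sub_apply, Module.End.one_apply]
              exact E.sub_mem (hE u hu) hu
          exact hst k e1 he1
        · rw [hy, ← hw, map_add, pow_succ, Module.End.mul_apply]
          abel
    rw [eq_top_iff]
    intro x _
    obtain ⟨e, he, y, hy⟩ := hstep (p ^ n) x
    rw [hnil, LinearMap.zero_apply, add_zero] at hy
    rw [hy]
    exact he
  obtain ⟨κ, hκ, hle⟩ := Submodule.exists_le_ker_of_lt_top _ hlt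
  refine ⟨κ, hκ, fun x hx => ?_, fun x => ?_⟩
  · exact LinearMap.mem_ker.1 (hle (Submodule.mem_sup_left hx))
  · have h1 : (s - 1) x ∈ LinearMap.ker κ :=
      hle (Submodule.mem_sup_right (LinearMap.mem_range_self _ x))
    rw [LinearMap.mem_ker, LinearMap.sub_apply, Module.End.one_apply, map_sub, sub_eq_zero] at h1
    exact h1

private theorem NDstep_pair_coeff (w : Ch D) (s : Fin D.n → FF p → K1 p) (m : ℕ) :
    PowerSeries.coeff m (pair w s) = pair w (fun i g => PowerSeries.coeff m (s i g)) := by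
  unfold pair Finsupp.sum
  rw [map_sum]
  exact Finset.sum_congr rfl fun x _ => map_smul _ _ _

private theorem NDstep_coeff_mem {W : Subgroup (FF p)} {t : Fin D.n → FF p → K1 p}
    (ht : t ∈ CV D W (triv (K1 p) (K1 p))) (m : ℕ) :
    (fun i g => PowerSeries.coeff m (t i g)) ∈ Ck D W :=
  ⟨fun i v hv g => congrArg (PowerSeries.coeff m) (ht.1 i v hv g),
    fun i g => congrArg (PowerSeries.coeff m) (ht.2 i g)⟩

private theorem NDstep_p_zero : ((p : ℕ) : K1 p) = 0 := by
  have h1 : ((p : ℕ) : K1 p) = algebraMap (ZMod p) (K1 p) ((p : ℕ) : ZMod p) :=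
    (map_natCast (algebraMap (ZMod p) (K1 p)) p).symm
  rw [h1, ZMod.natCast_self, map_zero]

theorem ND_step {ψ : FF p → ZMod p} {σ : FF p} (h : IsCyc V V' p ψ σ) (hadm : Adm D V)
    (hR : D.R ≤ V') (hl : IsX D V l) {m : ℕ}
    (hk : Kills D V (scal (chr l)) ((PowerSeries.X : K1 p) ^ m)) (hND : ND D V l) :
    ND D V' l := by
  classical
  intro z₀ hz₀ hnz₀
  by_contra hcon
  have hfail : ∀ α' ∈ ZR D V' (scal (chr l)), ∀ β' ∈ ZR D V' (scal (chr (-l))),
      ∀ F' : FF p → K1 p, IsF V' (chr (-l)) α' β' F' → pair z₀ (ev D F') = 0 := by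
    intro α' hα' β' hβ' F' hF'
    by_contra hne
    exact hcon ⟨α', hα', β', hβ', F', hF', hne⟩
  have hadm' : Adm D V' := hadm.mono h.isOpen hR h.le
  have hχ : IsChar D V (chr l) := hl.isChar_chr
  have hχn : IsChar D V (chr (-l)) := hl.neg.isChar_chr
  have hχ' : IsChar D V' (chr l) := hχ.mono h.le
  have hχn' : IsChar D V' (chr (-l)) := hχn.mono h.le
  have hinv : ∀ v ∈ V, chr l v * chr (-l) v = 1 := fun v _ => chr_mul_neg l v
  have hn : ∀ x, σ⁻¹ * x * σ ∈ V' ↔ x ∈ V' := by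
    intro x
    constructor
    · intro hx
      have h1 := h.normal h.mem hx
      have h2 : σ * (σ⁻¹ * x * σ) * σ⁻¹ = x := by group
      rwa [h2] at h1
    · intro hx
      have h1 := h.normal (V.inv_mem h.mem) hx
      rwa [inv_inv] at h1
  have hact' : IsActR D V' (triv (ZMod p) (ZMod p)) := isActR_triv
  -- the operator
  have hdot : ∀ t ∈ Ck D V', dot (triv (ZMod p) (ZMod p)) σ t ∈ Ck D V' := by
    intro t ht
    refine ⟨fun i v hv g => ?_, fun i g => ?_⟩
    · change t i (σ⁻¹ * (v * g)) = t i (σ⁻¹ * g)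
      have h1 : σ⁻¹ * (v * g) = (σ⁻¹ * v * σ) * (σ⁻¹ * g) := by group
      rw [h1]
      exact ht.1 i _ ((hn v).2 hv) _
    · change t i (σ⁻¹ * (g * D.ω i)) = t i (σ⁻¹ * g)
      rw [← mul_assoc]
      exact ht.2 i _
  let s : Ck D V' →ₗ[ZMod p] Ck D V' :=
    { toFun := fun t => ⟨dot (triv (ZMod p) (ZMod p)) σ (t : Fin D.n → FF p → ZMod p),
        hdot _ t.2⟩
      map_add' := fun t t' => Subtype.ext rfl
      map_smul' := fun c t => Subtype.ext rfl }
  have hspow : ∀ (j : ℕ) (t : Ck D V') (i : Fin D.n) (g : FF p),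
      (((s ^ j) t : Ck D V') : Fin D.n → FF p → ZMod p) i g =
        (t : Fin D.n → FF p → ZMod p) i ((σ ^ j)⁻¹ * g) := by
    intro j
    induction j with
    | zero => intro t i g; simp
    | succ j ih =>
      intro t i g
      rw [pow_succ, Module.End.mul_apply, ih]
      change (t : Fin D.n → FF p → ZMod p) i (σ⁻¹ * ((σ ^ j)⁻¹ * g)) = _
      rw [pow_succ, mul_inv_rev, mul_assoc]
  have hs1 : s ^ (p ^ 1) = 1 := by
    rw [pow_one]
    refine LinearMap.ext fun t => Subtype.ext ?_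
    funext i g
    rw [hspow, Module.End.one_apply]
    exact t.2.1 i _ (V'.inv_mem h.pow_mem) g
  -- the subspace
  let S : Set (Ck D V') := {t | (∃ a ∈ Hk V', (t : Fin D.n → FF p → ZMod p) = ev D a) ∨
    ∃ α' ∈ ZR D V' (scal (chr l)), ∃ β' ∈ ZR D V' (scal (chr (-l))), ∃ F' : FF p → K1 p,
      IsF V' (chr (-l)) α' β' F' ∧ ∃ j : ℕ, (t : Fin D.n → FF p → ZMod p) =
        fun i g => PowerSeries.coeff j (ev D F' i g)}
  let E : Submodule (ZMod p) (Ck D V') := Submodule.span (ZMod p) S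
  let κ₀ : Ck D V' →ₗ[ZMod p] ZMod p :=
    { toFun := fun t => pair z₀ (t : Fin D.n → FF p → ZMod p)
      map_add' := fun t t' => pair_add z₀ _ _
      map_smul' := fun c t => pair_smul c z₀ _ }
  have hE0 : E ≤ LinearMap.ker κ₀ := by
    refine Submodule.span_le.2 ?_
    rintro t (⟨a, ha, hta⟩ | ⟨α', hα', β', hβ', F', hF', j, htj⟩)
    · change pair z₀ (t : Fin D.n → FF p → ZMod p) = 0
      rw [hta]
      exact hz₀ a ha
    · change pair z₀ (t : Fin D.n → FF p → ZMod p) = 0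
      rw [htj, ← NDstep_pair_coeff, hfail α' hα' β' hβ' F' hF', map_zero]
  have hEne : E ≠ ⊤ := by
    intro htop
    obtain ⟨t, ht, hne⟩ := hnz₀
    apply hne
    have h1 : (⟨t, ht⟩ : Ck D V') ∈ LinearMap.ker κ₀ := hE0 (by rw [htop]; trivial)
    exact h1
  have hEs : ∀ x ∈ E, s x ∈ E := by
    intro x hx
    have h1 : E ≤ E.comap s := by
      refine Submodule.span_le.2 ?_
      rintro t (⟨a, ha, hta⟩ | ⟨α', hα', β', hβ', F', hF', j, htj⟩)
      · refine Submodule.subset_span (Or.inl ⟨fun x => a (σ⁻¹ * x * σ), ?_, ?_⟩)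
        · have h2 := Z1_conj' (χ := (1 : FF p → ZMod p)) h.le (isChar_one (D := D)) h.mem hn
            (α := a) (by rw [scal_one]; exact ha)
          rw [scal_one] at h2
          simpa using h2
        · change dot (triv (ZMod p) (ZMod p)) σ (t : Fin D.n → FF p → ZMod p) = _
          rw [hta]
          funext i g
          change a (σ⁻¹ * g * D.r i * (σ⁻¹ * g)⁻¹) = a (σ⁻¹ * (g * D.r i * g⁻¹) * σ)
          congr 1
          group
      · refine Submodule.subset_span (Or.inr ⟨_, ZR_conj' h.le hR hχ h.mem hn hα', _,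
          ZR_conj' h.le hR hχn h.mem hn hβ', _, hF'.conj' h.le hχ hχn hinv h.mem hn, j, ?_⟩)
        change dot (triv (ZMod p) (ZMod p)) σ (t : Fin D.n → FF p → ZMod p) = _
        rw [htj]
        funext i g
        change PowerSeries.coeff j (F' (σ⁻¹ * g * D.r i * (σ⁻¹ * g)⁻¹)) =
          PowerSeries.coeff j (F' (σ⁻¹ * (g * D.r i * g⁻¹) * σ))
        congr 2
        group
    exact h1 hx
  have hfin : Module.Finite (ZMod p) (Ck D V') := finite_Ck hadm'
  obtain ⟨κ, hκ, hκE, hκs⟩ := exists_invariant_functional s 1 hs1 E hEs hEne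
  obtain ⟨z', hz'⟩ := exists_chain hadm' κ
  have hcl' : IsClass V' z' := by
    intro a ha
    have h1 := hz' ⟨ev D a, ev_mem hR hact' ha⟩
    have h2 : κ ⟨ev D a, ev_mem hR hact' ha⟩ = 0 :=
      hκE _ (Submodule.subset_span (Or.inl ⟨a, ha, rfl⟩))
    rw [h2] at h1
    exact h1
  have hnz' : NonZ V' z' := by
    by_contra hno
    apply hκ
    refine LinearMap.ext fun t => ?_
    rw [← hz' t, LinearMap.zero_apply]
    by_contra hne
    exact hno ⟨_, t.2, hne⟩
  have hσ : ∀ t ∈ Ck D V', pair z' (dot (triv (ZMod p) (ZMod p)) σ t) = pair z' t := by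
    intro t ht
    have h1 := hκs ⟨t, ht⟩
    rw [← hz', ← hz'] at h1
    exact h1
  obtain ⟨z, hz⟩ := exists_descend h hadm hR z' hσ
  have hcl : IsClass V z := isClass_descend h hadm hR z' z hcl' hz
  have hnz : NonZ V z := nonZ_descend h hadm hR z' z hnz' hz
  obtain ⟨α, hα, β, hβ, F, hF, hne⟩ := hND z hcl hnz
  obtain ⟨α', hα', F', G, hF', hG, hcor⟩ :=
    exists_transfer NDstep_p_zero h hadm hR hχ hχn hinv hk hα hβ
  have hβ' : res V' β ∈ ZR D V' (scal (chr (-l))) := ZR_res h.isOpen hR h.le hβ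
  have h1 : pair z' (ev D F') = pair z (ev D G) := by
    rw [← hcor]
    exact descend_K1 h z' z hz _ (hF'.ev_mem hR hχ' hχn' hα' hβ')
  have h2 : pair z' (ev D F') = 0 := by
    ext j
    rw [NDstep_pair_coeff, map_zero]
    have h3 := NDstep_coeff_mem (hF'.ev_mem hR hχ' hχn' hα' hβ') j
    have h4 := hz' ⟨_, h3⟩
    rw [hκE _ (Submodule.subset_span (Or.inr ⟨α', hα', _, hβ', F', hF', j, rfl⟩))] at h4
    exact h4
  have h5 : pair z (ev D G) = (((PowerSeries.X : K1 p) ^ m) ^ (p - 1)) • pair z (ev D F) := by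
    rw [← pair_smul]
    have h6 := hG.sub_mem (hF.smul_left (((PowerSeries.X : K1 p) ^ m) ^ (p - 1)))
    have h7 := hcl.ev_eq_zero_K1 h6
    have h8 : ev D (G - (((PowerSeries.X : K1 p) ^ m) ^ (p - 1)) • F) =
        ev D G - (((PowerSeries.X : K1 p) ^ m) ^ (p - 1)) • ev D F := rfl
    rw [h8, pair_sub, sub_eq_zero] at h7
    exact h7
  rw [h1, h5, smul_eq_mul] at h2
  rcases mul_eq_zero.1 h2 with h9 | h9
  · exact pow_ne_zero _ (pow_ne_zero _ PowerSeries.X_ne_zero) h9
  · exact hne h9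

/-- (5.2) -/
theorem ND_inherit (hadm : Adm D V1) (hl : IsX D V1 l)
    (hk : Kills D V1 (scal (chr l)) (PowerSeries.X : K1 p)) (hND : ND D V1 l)
    (hV : IsOpen (V : Set (FF p))) (hR : D.R ≤ V) (hle : V ≤ V1) : ND D V l := by
  refine chain_induction D (fun W => ND D W l) V1 hadm hND ?_ V hV hR hle
  intro W W2 ψ σ hW hadmW hadmW2 hNDW hcyc
  obtain ⟨n, hn⟩ := Kills_inherit (fun m : K1 p => by
    rw [nsmul_eq_mul, NDstep_p_zero, zero_mul]) hadm hl.isChar_chr.isActR hk hadmW.isOpen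
    hadmW.hR hW
  exact ND_step hcyc hadmW hadmW2.hR (hl.mono hW) hn hNDW

end D687
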