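import Pool.Agent.Lib_MP_d687bf.K2Facts

/-!
MP_d687bf, B5: the ring `k[[S,T]]`, finer facts: nonvanishing of the specialisations `phiE E`
(`S ↦ X, T ↦ X^(p^E)`), `psiE E` (`S ↦ X^(p^E), T ↦ X`) for large `E`, the maximal ideal, divisibility,
linear terms of `(1+S)^x (1+T)^y`. `MvPowerSeries.coeff` of a product with a monomial:
`MvPowerSeries.coeff_add_monomial_mul`, `X_pow_dvd_iff`, `X_dvd_iff`.
-/

set_option autoImplicit false

open Set Filter Topology

namespace D687

variable {p : ℕ} [Fact p.Prime]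

/-- The coefficient of `X ^ (a i0 + b j0)` of `f (X ^ a, X ^ b)`. -/
private lemma K2Spec_coeff (a b : ℕ) (ha : a ≠ 0) (hb : b ≠ 0) (f : K2 p) (d0 : Fin 2 →₀ ℕ)
    (hu : ∀ d : Fin 2 →₀ ℕ, a * d 0 + b * d 1 = a * d0 0 + b * d0 1 → d ≠ d0 →
      MvPowerSeries.coeff d f = 0) :
    MvPowerSeries.coeff (Finsupp.single () (a * d0 0 + b * d0 1))
      (MvPowerSeries.subst (fun i : Fin 2 => (if i = 0 then MvPowerSeries.X () ^ a else
        MvPowerSeries.X () ^ b : MvPowerSeries Unit (ZMod p))) f) = MvPowerSeries.coeff d0 f := by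
  have hprod : ∀ d : Fin 2 →₀ ℕ, (d.prod fun s n => ((if s = 0 then MvPowerSeries.X () ^ a else
      MvPowerSeries.X () ^ b : MvPowerSeries Unit (ZMod p))) ^ n) =
      MvPowerSeries.X () ^ (a * d 0 + b * d 1) := by
    intro d
    rw [Finsupp.prod_fintype _ _ (fun i => pow_zero _), Fin.prod_univ_two, if_pos rfl,
      if_neg one_ne_zero, ← pow_mul, ← pow_mul, ← pow_add]
  rw [MvPowerSeries.coeff_subst (hasSubst_spec (p := p) a b ha hb), finsum_eq_single _ d0]
  · rw [hprod, MvPowerSeries.coeff_X_pow, if_pos rfl, smul_eq_mul, mul_one]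
  · intro d hd
    rw [hprod]
    by_cases h : a * d 0 + b * d 1 = a * d0 0 + b * d0 1
    · rw [hu d h hd, zero_smul]
    · rw [MvPowerSeries.coeff_X_pow, if_neg, smul_zero]
      intro h1
      apply h
      have h2 := DFunLike.congr_fun h1 ()
      simp only [Finsupp.single_eq_same] at h2
      exact h2.symm

private lemma K2Spec_phiE (E : ℕ) (f : K2 p) :
    phiE E f = MvPowerSeries.subst (fun i : Fin 2 => (if i = 0 then MvPowerSeries.X () ^ 1 else
      MvPowerSeries.X () ^ (p ^ E) : MvPowerSeries Unit (ZMod p))) f :=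
  MvPowerSeries.substAlgHom_apply _ _

private lemma K2Spec_psiE (E : ℕ) (f : K2 p) :
    psiE E f = MvPowerSeries.subst (fun i : Fin 2 => (if i = 0 then MvPowerSeries.X () ^ (p ^ E) else
      MvPowerSeries.X () ^ 1 : MvPowerSeries Unit (ZMod p))) f :=
  MvPowerSeries.substAlgHom_apply _ _

/-- An element of the support with `d a` minimal, then `d b` minimal. -/
private lemma K2Spec_min (a b : Fin 2) (f : K2 p) (hf : f ≠ 0) : ∃ d0 : Fin 2 →₀ ℕ,
    MvPowerSeries.coeff d0 f ≠ 0 ∧ (∀ d : Fin 2 →₀ ℕ, MvPowerSeries.coeff d f ≠ 0 → d0 a ≤ d a) ∧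
      (∀ d : Fin 2 →₀ ℕ, MvPowerSeries.coeff d f ≠ 0 → d a = d0 a → d0 b ≤ d b) := by
  classical
  have h1 : ∃ d : Fin 2 →₀ ℕ, MvPowerSeries.coeff d f ≠ 0 := by
    by_contra hc
    push Not at hc
    exact hf (MvPowerSeries.ext (fun d => by rw [hc d, map_zero]))
  have h2 : ∃ n : ℕ, ∃ d : Fin 2 →₀ ℕ, MvPowerSeries.coeff d f ≠ 0 ∧ d a = n :=
    ⟨_, h1.choose, h1.choose_spec, rfl⟩
  have h3 : ∃ n : ℕ, ∃ d : Fin 2 →₀ ℕ, MvPowerSeries.coeff d f ≠ 0 ∧ d a = Nat.find h2 ∧ d b = n := by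
    obtain ⟨d, hd, hd2⟩ := Nat.find_spec h2
    exact ⟨_, d, hd, hd2, rfl⟩
  obtain ⟨d0, hd0, hd1, hd2⟩ := Nat.find_spec h3
  refine ⟨d0, hd0, fun d hd => ?_, fun d hd he => ?_⟩
  · rw [hd1]
    exact Nat.find_min' h2 ⟨d, hd, rfl⟩
  · rw [hd2]
    exact Nat.find_min' h3 ⟨d, hd, he.trans hd1, rfl⟩

/-- (6.3): choose `(i0, j0)` in the support with `j0` minimal, then `i0` minimal; for `p ^ E > i0`
the coefficient of `X ^ (i0 + j0 p ^ E)` of `phiE E f` is the coefficient of `S^i0 T^j0` of `f`. -/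
theorem phiE_ne_zero (f : K2 p) (hf : f ≠ 0) : ∃ E0 : ℕ, ∀ E ≥ E0, phiE E f ≠ 0 := by
  obtain ⟨d0, h0, h1, h2⟩ := K2Spec_min 1 0 f hf
  refine ⟨d0 0, fun E hE h => ?_⟩
  have hp : d0 0 < p ^ E :=
    lt_of_le_of_lt hE (Nat.lt_pow_self (Fact.out : p.Prime).one_lt)
  have hc := K2Spec_coeff 1 (p ^ E) one_ne_zero (pow_ne_zero _ (Fact.out : p.Prime).ne_zero) f d0 (by
    intro d hd hne
    by_contra hd1
    have h3 := h1 d hd1
    rcases Nat.lt_or_ge (d0 1) (d 1) with h4 | h4
    · have h5 : p ^ E * (d0 1 + 1) ≤ p ^ E * d 1 := Nat.mul_le_mul_left _ h4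
      rw [mul_add, mul_one] at h5
      omega
    · have h5 : d 1 = d0 1 := le_antisymm h4 h3
      rw [h5] at hd
      have h6 : d 0 = d0 0 := by omega
      exact hne (by ext i; fin_cases i <;> simpa))
  rw [← K2Spec_phiE, h, map_zero] at hc
  exact h0 hc.symm

theorem psiE_ne_zero (f : K2 p) (hf : f ≠ 0) : ∃ E0 : ℕ, ∀ E ≥ E0, psiE E f ≠ 0 := by
  obtain ⟨d0, h0, h1, h2⟩ := K2Spec_min 0 1 f hf
  refine ⟨d0 1, fun E hE h => ?_⟩
  have hp : d0 1 < p ^ E :=
    lt_of_le_of_lt hE (Nat.lt_pow_self (Fact.out : p.Prime).one_lt)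
  have hc := K2Spec_coeff (p ^ E) 1 (pow_ne_zero _ (Fact.out : p.Prime).ne_zero) one_ne_zero f d0 (by
    intro d hd hne
    by_contra hd1
    have h3 := h1 d hd1
    rcases Nat.lt_or_ge (d0 0) (d 0) with h4 | h4
    · have h5 : p ^ E * (d0 0 + 1) ≤ p ^ E * d 0 := Nat.mul_le_mul_left _ h4
      rw [mul_add, mul_one] at h5
      omega
    · have h5 : d 0 = d0 0 := le_antisymm h4 h3
      rw [h5] at hd
      have h6 : d 1 = d0 1 := by omega
      exact hne (by ext i; fin_cases i <;> simpa))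
  rw [← K2Spec_psiE, h, map_zero] at hc
  exact h0 hc.symm

/-- `1` minus an element of the ideal `(S, T)` is a unit (constant coefficient `1`); the constant
coefficient map has kernel `(S, T)`. -/
theorem constantCoeff_eq_zero_iff (f : K2 p) : MvPowerSeries.constantCoeff f = 0 ↔
    f ∈ Ideal.span {(MvPowerSeries.X 0 : K2 p), MvPowerSeries.X 1} := by
  constructor
  · intro h
    have h1 : redS (f - inc 1 (redS f)) = 0 := by rw [map_sub, redS_inc_one, sub_self]
    rw [redS_eq_zero_iff] at h1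
    have hX1 : inc 1 (PowerSeries.X : K1 p) = (MvPowerSeries.X 1 : K2 p) := by
      have h2 : inc 1 (PowerSeries.X : K1 p) =
        MvPowerSeries.subst (fun _ : Unit => (MvPowerSeries.X 1 : K2 p)) (PowerSeries.X : K1 p) :=
        MvPowerSeries.substAlgHom_apply _ _
      rw [h2]
      exact MvPowerSeries.subst_X (R := ZMod p) (hasSubst_inc (p := p) 1) ()
    have h2 : (MvPowerSeries.X 1 : K2 p) ∣ inc 1 (redS f) := by
      have h3 : (PowerSeries.X : K1 p) ∣ redS f := by
        rw [PowerSeries.X_dvd_iff]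
        obtain ⟨c, hc⟩ := h1
        have h4 := congrArg MvPowerSeries.constantCoeff hc
        rw [map_sub, map_mul, MvPowerSeries.constantCoeff_X, zero_mul, h, zero_sub, neg_eq_zero,
          constantCoeff_inc] at h4
        exact h4
      obtain ⟨c, hc⟩ := h3
      rw [hc, map_mul, hX1]
      exact Dvd.intro _ rfl
    have h3 : f = (f - inc 1 (redS f)) + inc 1 (redS f) := by ring
    rw [h3]
    refine Ideal.add_mem _ ?_ ?_
    · exact Ideal.mem_of_dvd _ h1 (Ideal.subset_span (by simp))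
    · exact Ideal.mem_of_dvd _ h2 (Ideal.subset_span (by simp))
  · intro h
    have h1 : Ideal.span {(MvPowerSeries.X 0 : K2 p), MvPowerSeries.X 1} ≤
        RingHom.ker (MvPowerSeries.constantCoeff (σ := Fin 2) (R := ZMod p)) := by
      rw [Ideal.span_le]
      rintro x (rfl | rfl)
      · exact MvPowerSeries.constantCoeff_X 0
      · exact MvPowerSeries.constantCoeff_X 1
    exact h1 h

/-- `S ^ n ∣ T ^ n c` implies `S ^ n ∣ c`. -/
theorem X0_pow_dvd (n : ℕ) (c : K2 p)
    (h : (MvPowerSeries.X 0 : K2 p) ^ n ∣ (MvPowerSeries.X 1 : K2 p) ^ n * c) :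
    (MvPowerSeries.X 0 : K2 p) ^ n ∣ c := by
  rw [MvPowerSeries.X_pow_dvd_iff] at h ⊢
  intro m hm
  have h1 := h (Finsupp.single 1 n + m) (by simpa using hm)
  rw [MvPowerSeries.X_pow_eq, MvPowerSeries.coeff_add_monomial_mul, one_mul] at h1
  exact h1

/-- `(1+S)^x (1+T)^y = 1` implies `x = 0` and `y = 0`. -/
theorem inc_mul_inc_eq_one (x y : ℤ_[p]) (h : inc 0 (tpow x) * inc 1 (tpow y) = (1 : K2 p)) :
    x = 0 ∧ y = 0 := by
  have h1 := congrArg redS h
  rw [map_mul, redS_inc_zero, redS_inc_one, constantCoeff_tpow, map_one, map_one, one_mul] at h1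
  have hy : y = 0 := by
    by_contra hy
    exact tpow_ne_one y hy h1
  rw [h1, map_one, mul_one] at h
  have h2 := congrArg (phiE 0) h
  rw [phiE_inc_zero, map_one] at h2
  refine ⟨?_, hy⟩
  by_contra hx
  exact tpow_ne_one x hx h2

/-- Linear terms: the coefficients of `S` and of `T` of `(1+S)^x (1+T)^y` are `x` and `y` mod `p`. -/
theorem coeff_chr2 (x y : ℤ_[p]) :
    MvPowerSeries.coeff (Finsupp.single 0 1) (inc 0 (tpow x) * inc 1 (tpow y) : K2 p) =
        PadicInt.toZMod x ∧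
      MvPowerSeries.coeff (Finsupp.single 1 1) (inc 0 (tpow x) * inc 1 (tpow y) : K2 p) =
        PadicInt.toZMod y := by
  have hp2 : 2 ≤ p := (Fact.out : p.Prime).two_le
  have hzp : (PadicInt.toZMod (p : ℤ_[p]) : ZMod p) = 0 := by
    rw [map_natCast]
    exact ZMod.natCast_self p
  constructor
  · have hc := K2Spec_coeff 1 (p ^ 1) one_ne_zero (pow_ne_zero _ (Fact.out : p.Prime).ne_zero)
      (inc 0 (tpow x) * inc 1 (tpow y) : K2 p) (Finsupp.single 0 1) (by
      intro d hd hne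
      simp only [Finsupp.single_eq_same] at hd
      have h1 : (Finsupp.single (0 : Fin 2) 1 : Fin 2 →₀ ℕ) 1 = 0 := by simp
      rw [h1] at hd
      exfalso
      rcases Nat.eq_zero_or_pos (d 1) with h2 | h2
      · rw [h2] at hd
        refine hne ?_
        ext i
        fin_cases i
        · simpa using hd
        · simpa using h2
      · have h3 : p * 1 ≤ p * d 1 := Nat.mul_le_mul_left _ h2
        rw [pow_one] at hd
        omega)
    rw [← K2Spec_phiE, map_mul, phiE_inc_zero, phiE_inc_one_tpow, ← tpow_add] at hc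
    have h1 : (Finsupp.single (0 : Fin 2) 1 : Fin 2 →₀ ℕ) 1 = 0 := by simp
    rw [h1, Finsupp.single_eq_same] at hc
    rw [← hc]
    have h2 : MvPowerSeries.coeff (Finsupp.single () (1 * 1 + p ^ 1 * 0))
      (tpow (x + (p : ℤ_[p]) ^ 1 * y)) = PowerSeries.coeff 1 (tpow (x + (p : ℤ_[p]) ^ 1 * y)) := by
      rw [mul_zero, add_zero, one_mul]
      rfl
    rw [h2, coeff_one_tpow, map_add, map_mul, pow_one, hzp, zero_mul, add_zero]
  · have hc := K2Spec_coeff (p ^ 1) 1 (pow_ne_zero _ (Fact.out : p.Prime).ne_zero) one_ne_zero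
      (inc 0 (tpow x) * inc 1 (tpow y) : K2 p) (Finsupp.single 1 1) (by
      intro d hd hne
      simp only [Finsupp.single_eq_same] at hd
      have h1 : (Finsupp.single (1 : Fin 2) 1 : Fin 2 →₀ ℕ) 0 = 0 := by simp
      rw [h1] at hd
      exfalso
      rcases Nat.eq_zero_or_pos (d 0) with h2 | h2
      · rw [h2] at hd
        refine hne ?_
        ext i
        fin_cases i
        · simpa using h2
        · simpa using hd
      · have h3 : p * 1 ≤ p * d 0 := Nat.mul_le_mul_left _ h2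
        rw [pow_one] at hd
        omega)
    rw [← K2Spec_psiE, map_mul, psiE_inc_one, psiE_inc_zero_tpow, ← tpow_add] at hc
    have h1 : (Finsupp.single (1 : Fin 2) 1 : Fin 2 →₀ ℕ) 0 = 0 := by simp
    rw [h1, Finsupp.single_eq_same] at hc
    rw [← hc]
    have h2 : MvPowerSeries.coeff (Finsupp.single () (p ^ 1 * 0 + 1 * 1))
      (tpow ((p : ℤ_[p]) ^ 1 * x + y)) = PowerSeries.coeff 1 (tpow ((p : ℤ_[p]) ^ 1 * x + y)) := by
      rw [mul_zero, zero_add, one_mul]
      rfl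
    rw [h2, coeff_one_tpow, map_add, map_mul, pow_one, hzp, zero_mul, zero_add]

end D687
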