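import Pool.Agent.Lib_MP_d687bf.CupF
import Pool.Agent.Lib_MP_d687bf.K2Spec

/-!
MP_d687bf, E3: (4.2), (4.3).

(4.2) Let `A = k[[S,T]]`, `χ = (1+S)^γ₁ (1+T)^γ₂ = chr2 g1 g2`, `𝔪 = (S,T)`, `C = C_V(A_χ)`.
For `t ∈ C` with reduction `t̄ ∈ C_V(k)` take `a, F₁, F₂` from `IsPair` for `(t̄, 0)`. Let `α ∈ Z(V, A_χ)` be
a lift of `a` (`lift_scal` for the constant coefficient). Its coefficients `f₁` (of `S`), `f₂` (of `T`)
satisfy `IsF V 1 (redl γ_j) a f_j` (by `coeff_chr2`), so `f_j - F_j = h_j ∈ Hom(V,k)`. Let `h̃_j` be lifts of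
`h_j` to `Z(V, A_χ)`. Then `ev (α - S h̃₁ - T h̃₂) ≡ S t` modulo `𝔪² C`. So `S C ⊆ ev Z + 𝔪² C`, in
the same way `T C ⊆ ev Z + 𝔪² C`, so `𝔪 · (C/ev Z) ⊆ 𝔪² · (C/ev Z)` and Nakayama
(`Submodule.le_of_le_smul_of_le_jacobson_bot`) gives `𝔪 · (C/ev Z) = 0`.
-/

set_option autoImplicit false

open Set Filter Topology

namespace D687

variable {p : ℕ} [Fact p.Prime] {D : Datum p} {V : Subgroup (FF p)} {g1 g2 : FF p → ℤ_[p]}

private lemma Pairs_coeff_mul (i : Fin 2) (f g : K2 p) :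
    MvPowerSeries.coeff (Finsupp.single i 1) (f * g) =
      MvPowerSeries.constantCoeff f * MvPowerSeries.coeff (Finsupp.single i 1) g +
        MvPowerSeries.coeff (Finsupp.single i 1) f * MvPowerSeries.constantCoeff g := by
  rw [MvPowerSeries.coeff_mul, Finsupp.antidiagonal_single, Finset.sum_map,
    Finset.Nat.antidiagonal_succ]
  simp

private lemma Pairs_coeff_X (i j : Fin 2) (f : K2 p) :
    MvPowerSeries.coeff (Finsupp.single i 1) ((MvPowerSeries.X j : K2 p) * f) =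
      (if i = j then MvPowerSeries.constantCoeff f else 0) := by
  rw [Pairs_coeff_mul, MvPowerSeries.constantCoeff_X, zero_mul, zero_add,
    MvPowerSeries.coeff_X]
  by_cases h : i = j
  · subst h
    simp
  · rw [if_neg, if_neg h, zero_mul]
    intro h'
    exact h (Finsupp.single_left_injective one_ne_zero h')

/-- a series without terms of degree `≤ 1`. -/
private lemma Pairs_sq {f : K2 p} (h0 : MvPowerSeries.constantCoeff f = 0)
    (h1 : ∀ i : Fin 2, MvPowerSeries.coeff (Finsupp.single i 1) f = 0) :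
    ∃ a b c : K2 p, f = MvPowerSeries.X 0 * (MvPowerSeries.X 0 * a) +
      MvPowerSeries.X 0 * (MvPowerSeries.X 1 * b) + MvPowerSeries.X 1 * (MvPowerSeries.X 1 * c) := by
  rw [constantCoeff_eq_zero_iff, Ideal.mem_span_pair] at h0
  obtain ⟨u, v, rfl⟩ := h0
  have h2 := h1 0
  have h3 := h1 1
  rw [mul_comm u, mul_comm v, map_add, Pairs_coeff_X, Pairs_coeff_X] at h2 h3
  simp only [if_true, one_ne_zero, zero_ne_one, if_false, add_zero, zero_add] at h2 h3
  rw [constantCoeff_eq_zero_iff, Ideal.mem_span_pair] at h2 h3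
  obtain ⟨u1, u2, rfl⟩ := h2
  obtain ⟨v1, v2, rfl⟩ := h3
  exact ⟨u1, u2 + v1, v2, by ring⟩

/-- The linear coefficients of a crossed hom with values in `A_χ`. -/
theorem coeff_isF (h1 : IsX D V g1) (h2 : IsX D V g2) {α : FF p → K2 p}
    (hα : α ∈ Z1 V (scal (chr2 g1 g2))) :
    IsF V 1 (redl V g1) (fun x => MvPowerSeries.constantCoeff (α x))
        (fun x => MvPowerSeries.coeff (Finsupp.single 0 1) (α x)) ∧
      IsF V 1 (redl V g2) (fun x => MvPowerSeries.constantCoeff (α x))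
        (fun x => MvPowerSeries.coeff (Finsupp.single 1 1) (α x)) := by
  obtain ⟨hc, hs, hm⟩ := hα
  have hcc : ∀ g : FF p, MvPowerSeries.constantCoeff (chr2 g1 g2 g) = 1 := fun g =>
    congrFun (constantCoeff_chr2 g1 g2) g
  have hm' : ∀ g ∈ V, ∀ h ∈ V, α (g * h) = α g + chr2 g1 g2 g * α h := hm
  refine ⟨⟨?_, ?_, ?_⟩, ⟨?_, ?_, ?_⟩⟩
  · have h5 : Continuous (MvPowerSeries.coeff (R := ZMod p) (Finsupp.single (0 : Fin 2) 1)) :=
      MvPowerSeries.WithPiTopology.continuous_coeff (ZMod p) (Finsupp.single 0 1)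
    exact h5.comp hc
  · intro x hx
    show MvPowerSeries.coeff (Finsupp.single 0 1) (α x) = 0
    rw [hs x hx, map_zero]
  · intro g hg h hh
    show MvPowerSeries.coeff (Finsupp.single 0 1) (α (g * h)) = _
    rw [hm' g hg h hh, map_add, Pairs_coeff_mul, hcc]
    have h3 : MvPowerSeries.coeff (Finsupp.single 0 1) (chr2 g1 g2 g) = PadicInt.toZMod (g1 g) :=
      (coeff_chr2 (g1 g) (g2 g)).1
    have h4 : redl V g1 g = PadicInt.toZMod (g1 g) := Set.indicator_of_mem hg _
    rw [h3, ← h4]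
    simp only [Pi.one_apply, one_mul]
    ring
  · have h5 : Continuous (MvPowerSeries.coeff (R := ZMod p) (Finsupp.single (1 : Fin 2) 1)) :=
      MvPowerSeries.WithPiTopology.continuous_coeff (ZMod p) (Finsupp.single 1 1)
    exact h5.comp hc
  · intro x hx
    show MvPowerSeries.coeff (Finsupp.single 1 1) (α x) = 0
    rw [hs x hx, map_zero]
  · intro g hg h hh
    show MvPowerSeries.coeff (Finsupp.single 1 1) (α (g * h)) = _
    rw [hm' g hg h hh, map_add, Pairs_coeff_mul, hcc]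
    have h3 : MvPowerSeries.coeff (Finsupp.single 1 1) (chr2 g1 g2 g) = PadicInt.toZMod (g2 g) :=
      (coeff_chr2 (g1 g) (g2 g)).2
    have h4 : redl V g2 g = PadicInt.toZMod (g2 g) := Set.indicator_of_mem hg _
    rw [h3, ← h4]
    simp only [Pi.one_apply, one_mul]
    ring

private lemma Pairs_cc_surj :
    Function.Surjective (MvPowerSeries.constantCoeff : K2 p →+* ZMod p) := fun a =>
  ⟨MvPowerSeries.C a, MvPowerSeries.constantCoeff_C a⟩

private lemma Pairs_cc_cont :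
    Continuous (MvPowerSeries.constantCoeff : K2 p →+* ZMod p) :=
  MvPowerSeries.WithPiTopology.continuous_constantCoeff (ZMod p)

/-- an element of `C` all whose values are in `𝔪²` is in `𝔪 (𝔪 C)`. -/
private lemma Pairs_mem (hadm : Adm D V) (hχ : IsChar D V (chr2 g1 g2))
    {w : Fin D.n → FF p → K2 p} (hw : w ∈ CV D V (scal (chr2 g1 g2)))
    (h0 : ∀ i g, MvPowerSeries.constantCoeff (w i g) = 0)
    (h1 : ∀ i g, ∀ j : Fin 2, MvPowerSeries.coeff (Finsupp.single j 1) (w i g) = 0) :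
    w ∈ (Ideal.span {(MvPowerSeries.X 0 : K2 p), MvPowerSeries.X 1}) •
      ((Ideal.span {(MvPowerSeries.X 0 : K2 p), MvPowerSeries.X 1}) •
        CV D V (scal (chr2 g1 g2))) := by
  obtain ⟨q, ri, rg, hr⟩ := exists_reps D V hadm.isOpen
  have hact := hχ.isActR
  choose a b c habc using fun i g => Pairs_sq (h0 i g) (h1 i g)
  obtain ⟨A, hA, hA'⟩ := CV_exists (A := K2 p) (M := K2 p) hadm hr hact
    (fun l => a (ri l) (rg l))
  obtain ⟨B, hB, hB'⟩ := CV_exists (A := K2 p) (M := K2 p) hadm hr hact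
    (fun l => b (ri l) (rg l))
  obtain ⟨C, hC, hC'⟩ := CV_exists (A := K2 p) (M := K2 p) hadm hr hact
    (fun l => c (ri l) (rg l))
  have hX0 : (MvPowerSeries.X 0 : K2 p) ∈
      Ideal.span {(MvPowerSeries.X 0 : K2 p), MvPowerSeries.X 1} := Ideal.subset_span (by simp)
  have hX1 : (MvPowerSeries.X 1 : K2 p) ∈
      Ideal.span {(MvPowerSeries.X 0 : K2 p), MvPowerSeries.X 1} := Ideal.subset_span (by simp)
  have heq : w = (MvPowerSeries.X 0 : K2 p) • ((MvPowerSeries.X 0 : K2 p) • A) +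
      (MvPowerSeries.X 0 : K2 p) • ((MvPowerSeries.X 1 : K2 p) • B) +
      (MvPowerSeries.X 1 : K2 p) • ((MvPowerSeries.X 1 : K2 p) • C) := by
    refine CV_ext (A := K2 p) (M := K2 p) hr hw (Submodule.add_mem _ (Submodule.add_mem _
      (Submodule.smul_mem _ _ (Submodule.smul_mem _ _ hA))
      (Submodule.smul_mem _ _ (Submodule.smul_mem _ _ hB)))
      (Submodule.smul_mem _ _ (Submodule.smul_mem _ _ hC))) fun l => ?_
    show w (ri l) (rg l) = MvPowerSeries.X 0 * (MvPowerSeries.X 0 * A (ri l) (rg l)) +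
      MvPowerSeries.X 0 * (MvPowerSeries.X 1 * B (ri l) (rg l)) +
      MvPowerSeries.X 1 * (MvPowerSeries.X 1 * C (ri l) (rg l))
    rw [hA', hB', hC', ← habc]
  rw [heq]
  exact Submodule.add_mem _ (Submodule.add_mem _
    (Submodule.smul_mem_smul hX0 (Submodule.smul_mem_smul hX0 hA))
    (Submodule.smul_mem_smul hX0 (Submodule.smul_mem_smul hX1 hB)))
    (Submodule.smul_mem_smul hX1 (Submodule.smul_mem_smul hX1 hC))

/-- the main step: a crossed hom with prescribed linear terms at the relators. -/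
private lemma Pairs_step (hadm : Adm D V) (h : IsPair D V g1 g2) {t1 t2 : Fin D.n → FF p → ZMod p}
    (ht1 : t1 ∈ Ck D V) (ht2 : t2 ∈ Ck D V) :
    ∃ β ∈ Z1 V (scal (chr2 g1 g2)), (∀ i g, MvPowerSeries.constantCoeff (ev D β i g) = 0) ∧
      (∀ i g, MvPowerSeries.coeff (Finsupp.single 0 1) (ev D β i g) = t1 i g) ∧
      (∀ i g, MvPowerSeries.coeff (Finsupp.single 1 1) (ev D β i g) = t2 i g) := by
  obtain ⟨hx1, hx2, hp⟩ := h
  have hχ : IsChar D V (chr2 g1 g2) := isChar_chr2 hx1 hx2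
  obtain ⟨a, ha, F1, F2, hF1, hF1', hF2, hF2'⟩ := hp t1 ht1 t2 ht2
  have htr : (scal fun x => MvPowerSeries.constantCoeff (chr2 g1 g2 x)) =
      triv (ZMod p) (ZMod p) := by
    rw [constantCoeff_chr2, scal_one]
  have ha1 : a ∈ Z1 V (triv (ZMod p) (ZMod p)) := ha.1
  obtain ⟨α, hα, hα'⟩ := lift_scal (χ := chr2 g1 g2) Pairs_cc_cont Pairs_cc_surj hadm.isOpen hχ
    (α' := a) (by rw [htr]; exact ha1)
  obtain ⟨hf1, hf2⟩ := coeff_isF hx1 hx2 hα
  have haa : (fun x => MvPowerSeries.constantCoeff (α x)) = a := funext hα'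
  rw [haa] at hf1 hf2
  have hh1 := hf1.sub_mem hF1
  have hh2 := hf2.sub_mem hF2
  obtain ⟨η1, hη1, hη1'⟩ := lift_scal (χ := chr2 g1 g2) Pairs_cc_cont Pairs_cc_surj hadm.isOpen hχ
    (α' := _) (by rw [htr]; exact hh1)
  obtain ⟨η2, hη2, hη2'⟩ := lift_scal (χ := chr2 g1 g2) Pairs_cc_cont Pairs_cc_surj hadm.isOpen hχ
    (α' := _) (by rw [htr]; exact hh2)
  refine ⟨α - (MvPowerSeries.X 0 : K2 p) • η1 - (MvPowerSeries.X 1 : K2 p) • η2,
    Submodule.sub_mem _ (Submodule.sub_mem _ hα (Submodule.smul_mem _ _ hη1))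
      (Submodule.smul_mem _ _ hη2), ?_, ?_, ?_⟩
  · intro i g
    show MvPowerSeries.constantCoeff (α (g * D.r i * g⁻¹) -
      MvPowerSeries.X 0 * η1 (g * D.r i * g⁻¹) - MvPowerSeries.X 1 * η2 (g * D.r i * g⁻¹)) = 0
    rw [map_sub, map_sub, map_mul, map_mul, MvPowerSeries.constantCoeff_X,
      MvPowerSeries.constantCoeff_X, hα']
    have h3 : ev D a = 0 := ha.2
    have h4 : a (g * D.r i * g⁻¹) = 0 := congrFun (congrFun h3 i) g
    rw [h4]
    ring
  · intro i g
    show MvPowerSeries.coeff (Finsupp.single 0 1) (α (g * D.r i * g⁻¹) -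
      MvPowerSeries.X 0 * η1 (g * D.r i * g⁻¹) - MvPowerSeries.X 1 * η2 (g * D.r i * g⁻¹)) = _
    rw [map_sub, map_sub, Pairs_coeff_X, Pairs_coeff_X, if_pos rfl, if_neg zero_ne_one, hη1']
    show MvPowerSeries.coeff (Finsupp.single 0 1) (α (g * D.r i * g⁻¹)) -
      (MvPowerSeries.coeff (Finsupp.single 0 1) (α (g * D.r i * g⁻¹)) - F1 (g * D.r i * g⁻¹)) - 0 = _
    have h3 : F1 (g * D.r i * g⁻¹) = t1 i g := congrFun (congrFun hF1' i) g
    rw [h3]
    ring
  · intro i g
    show MvPowerSeries.coeff (Finsupp.single 1 1) (α (g * D.r i * g⁻¹) -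
      MvPowerSeries.X 0 * η1 (g * D.r i * g⁻¹) - MvPowerSeries.X 1 * η2 (g * D.r i * g⁻¹)) = _
    rw [map_sub, map_sub, Pairs_coeff_X, Pairs_coeff_X, if_pos rfl, if_neg one_ne_zero, hη2']
    show MvPowerSeries.coeff (Finsupp.single 1 1) (α (g * D.r i * g⁻¹)) - 0 -
      (MvPowerSeries.coeff (Finsupp.single 1 1) (α (g * D.r i * g⁻¹)) - F2 (g * D.r i * g⁻¹)) = _
    have h3 : F2 (g * D.r i * g⁻¹) = t2 i g := congrFun (congrFun hF2' i) g
    rw [h3]
    ring

private lemma Pairs_jac :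
    (Ideal.span {(MvPowerSeries.X 0 : K2 p), MvPowerSeries.X 1}) ≤ Ideal.jacobson ⊥ := by
  intro x hx
  rw [Ideal.mem_jacobson_bot]
  intro y
  rw [← constantCoeff_eq_zero_iff] at hx
  rw [MvPowerSeries.isUnit_iff_constantCoeff, map_add, map_mul, hx, zero_mul, zero_add, map_one]
  exact isUnit_one

private lemma Pairs_red {t : Fin D.n → FF p → K2 p}
    (ht : t ∈ CV D V (scal (chr2 g1 g2))) :
    (fun i g => MvPowerSeries.constantCoeff (t i g)) ∈ Ck D V := by
  have h1 := CV_map (φ := (MvPowerSeries.constantCoeff : K2 p →+* ZMod p)) ht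
  rw [constantCoeff_chr2, scal_one] at h1
  exact h1

private lemma Pairs_main (hadm : Adm D V) (h : IsPair D V g1 g2) :
    (Ideal.span {(MvPowerSeries.X 0 : K2 p), MvPowerSeries.X 1}) •
        CV D V (scal (chr2 g1 g2)) ≤
      (Z1 V (scal (chr2 g1 g2))).map (evL (K2 p) (K2 p) D) := by
  have hχ : IsChar D V (chr2 g1 g2) := isChar_chr2 h.1 h.2.1
  have hact := hχ.isActR
  have hfin := finite_CV (A := K2 p) (M := K2 p) hadm hact
  have hfg : (CV D V (scal (chr2 g1 g2))).FG := Module.Finite.iff_fg.1 hfin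
  refine Submodule.le_of_le_smul_of_le_jacobson_bot
    (Submodule.FG.smul (Submodule.fg_span (by simp)) hfg) Pairs_jac ?_
  rw [Submodule.smul_le]
  have h0 : (0 : Fin D.n → FF p → ZMod p) ∈ Ck D V := Submodule.zero_mem _
  have key : ∀ j : Fin 2, ∀ t ∈ CV D V (scal (chr2 g1 g2)), (MvPowerSeries.X j : K2 p) • t ∈
      (Z1 V (scal (chr2 g1 g2))).map (evL (K2 p) (K2 p) D) ⊔
      (Ideal.span {(MvPowerSeries.X 0 : K2 p), MvPowerSeries.X 1}) •
      ((Ideal.span {(MvPowerSeries.X 0 : K2 p), MvPowerSeries.X 1}) •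
        CV D V (scal (chr2 g1 g2))) := by
    intro j t ht
    have hred := Pairs_red ht
    obtain ⟨β, hβ, hβ0, hβ1⟩ : ∃ β ∈ Z1 V (scal (chr2 g1 g2)),
        (∀ i g, MvPowerSeries.constantCoeff (ev D β i g) = 0) ∧
        ∀ i g, ∀ l : Fin 2, MvPowerSeries.coeff (Finsupp.single l 1) (ev D β i g) =
          if l = j then MvPowerSeries.constantCoeff (t i g) else 0 := by
      rcases Fin.exists_fin_two.1 ⟨j, rfl⟩ with hj | hj
      · obtain ⟨β, hβ, h1, h2, h3⟩ := Pairs_step hadm h hred h0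
        refine ⟨β, hβ, h1, fun i g l => ?_⟩
        subst hj
        fin_cases l
        · simpa using h2 i g
        · simpa using h3 i g
      · obtain ⟨β, hβ, h1, h2, h3⟩ := Pairs_step hadm h h0 hred
        refine ⟨β, hβ, h1, fun i g l => ?_⟩
        subst hj
        fin_cases l
        · simpa using h2 i g
        · simpa using h3 i g
    have hmem : (MvPowerSeries.X j : K2 p) • t - ev D β ∈
        (Ideal.span {(MvPowerSeries.X 0 : K2 p), MvPowerSeries.X 1}) •
        ((Ideal.span {(MvPowerSeries.X 0 : K2 p), MvPowerSeries.X 1}) •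
        CV D V (scal (chr2 g1 g2))) := by
      refine Pairs_mem hadm hχ (Submodule.sub_mem _ (Submodule.smul_mem _ _ ht)
        (ev_mem hadm.hR hact hβ)) ?_ ?_
      · intro i g
        show MvPowerSeries.constantCoeff ((MvPowerSeries.X j : K2 p) * t i g - ev D β i g) = 0
        rw [map_sub, map_mul, MvPowerSeries.constantCoeff_X, hβ0]
        ring
      · intro i g l
        show MvPowerSeries.coeff (Finsupp.single l 1)
          ((MvPowerSeries.X j : K2 p) * t i g - ev D β i g) = 0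
        rw [map_sub, Pairs_coeff_X, hβ1, sub_self]
    have heq : (MvPowerSeries.X j : K2 p) • t =
        ev D β + ((MvPowerSeries.X j : K2 p) • t - ev D β) := by abel
    rw [heq]
    exact Submodule.add_mem_sup (Submodule.mem_map_of_mem (f := evL (K2 p) (K2 p) D) hβ) hmem
  intro r hr t ht
  rw [Ideal.mem_span_pair] at hr
  obtain ⟨u, v, rfl⟩ := hr
  rw [add_smul, mul_smul, mul_smul]
  exact Submodule.add_mem _ (Submodule.smul_mem _ _ (key 0 t ht))
    (Submodule.smul_mem _ _ (key 1 t ht))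

/-- (4.2) -/
theorem IsPair.kills (hadm : Adm D V) (h : IsPair D V g1 g2) :
    Kills D V (scal (chr2 g1 g2)) (MvPowerSeries.X 0 : K2 p) ∧
      Kills D V (scal (chr2 g1 g2)) (MvPowerSeries.X 1 : K2 p) := by
  have hm := Pairs_main hadm h
  constructor
  · intro t ht
    obtain ⟨α, hα, h1⟩ := hm (Submodule.smul_mem_smul (r := (MvPowerSeries.X 0 : K2 p))
      (Ideal.subset_span (by simp)) ht)
    exact ⟨α, hα, h1⟩
  · intro t ht
    obtain ⟨α, hα, h1⟩ := hm (Submodule.smul_mem_smul (r := (MvPowerSeries.X 1 : K2 p))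
      (Ideal.subset_span (by simp)) ht)
    exact ⟨α, hα, h1⟩

/-- (4.3) by `redS` and `Kills_map`. -/
theorem IsPair.kills_one (hadm : Adm D V) (h : IsPair D V g1 g2) :
    Kills D V (scal (chr g2)) (PowerSeries.X : K1 p) := by
  have h1 := Kills_map continuous_redS redS_surjective hadm (isChar_chr2 h.1 h.2.1)
    (h.kills hadm).2
  rw [redS_chr2] at h1
  have h2 : redS (MvPowerSeries.X 1 : K2 p) = (PowerSeries.X : K1 p) := by
    have h3 : (inc 1 (PowerSeries.X : K1 p) : K2 p) = MvPowerSeries.X 1 := by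
      have h4 : (inc 1 (PowerSeries.X : K1 p) : K2 p) = MvPowerSeries.subst
        (fun _ : Unit => (MvPowerSeries.X 1 : K2 p)) (PowerSeries.X : K1 p) :=
          MvPowerSeries.substAlgHom_apply _ _
      rw [h4]
      exact MvPowerSeries.subst_X (hasSubst_inc (p := p) 1) ()
    rw [← h3, redS_inc_one]
  rw [h2] at h1
  exact h1

end D687
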