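import Pool.Agent.Lib_MP_d687bf.CMap
import Pool.Agent.Lib_MP_d687bf.K2Spec

/-!
MP_d687bf, S6b: (6.2).

`RR = k[[S,T]]`, `χ = chr2 m l`, `C := CV D V (scal χ)`, `Im := ev Z1 ⊆ C`; `S^n C ⊆ Im`,
`T^n C ⊆ Im`. Suppose `α v = 0` for all `α ∈ Z_R`. Then `α v` depends only on `ev α`: there is
`ψ : Im → RR`, linear, `ψ (ev α) = α v`. With the coordinates `t_l = t (ri l) (rg l)` and the basis
`e_l` of `C` (`exists_reps`, `exists_CV_equiv`): choose `A_l, B_l ∈ Z1` with `ev A_l = S^n e_l`,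
`ev B_l = T^n e_l`. `T^n A_l - S^n B_l ∈ Z_R`, so `T^n A_l(v) = S^n B_l(v)`, so `S^n ∣ A_l(v)`
(`X0_pow_dvd`), `A_l(v) = S^n c_l`. For every `α ∈ Z1`: `S^n ev α = ∑ t_l S^n e_l = ev (∑ t_l A_l)`,
`t_l = (ev α) (ri l) (rg l)`, so `S^n α(v) = ∑ t_l A_l(v) = S^n ∑ t_l c_l`, `α(v) = ∑ t_l c_l`.
Take `α` a lift of `a ∈ H(V)` along `constantCoeff` (`lift_scal`, `constantCoeff_chr2`; a
continuous surjective ring hom `k[[S,T]] → k`): `t_l` has constant coefficient
`a (g_l r_l g_l⁻¹) = 0`, so `a v = 0`: contradiction.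
-/

set_option autoImplicit false

open Set Filter Topology

namespace D687

variable {p : ℕ} [Fact p.Prime] {D : Datum p} {V : Subgroup (FF p)}

/-- Lifting an element of `H(V)` (or `Hom(V, k)`) to a crossed hom with values in `k[[S,T]]_χ`. -/
theorem exists_lift_const2 (hadm : Adm D V) {m l : FF p → ℤ_[p]} (hm : IsX D V m)
    (hl : IsX D V l) {a : FF p → ZMod p} (ha : a ∈ Hk (p := p) V) :
    ∃ α ∈ Z1 V (scal (chr2 m l)), ∀ x, MvPowerSeries.constantCoeff (α x) = a x := by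
  have hχ : IsChar D V (chr2 m l) := isChar_chr2 hm hl
  have hc : Continuous (MvPowerSeries.constantCoeff : K2 p →+* ZMod p) :=
    MvPowerSeries.WithPiTopology.continuous_constantCoeff (ZMod p)
  have hs : Function.Surjective (MvPowerSeries.constantCoeff : K2 p →+* ZMod p) :=
    fun c => ⟨MvPowerSeries.C c, MvPowerSeries.constantCoeff_C c⟩
  have h1 : (fun x => (MvPowerSeries.constantCoeff : K2 p →+* ZMod p) (chr2 m l x)) =
      (1 : FF p → ZMod p) := constantCoeff_chr2 m l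
  have h2 : a ∈ Z1 V
      (scal fun x => (MvPowerSeries.constantCoeff : K2 p →+* ZMod p) (chr2 m l x)) := by
    rw [h1, scal_one]
    exact ha
  exact lift_scal hc hs hadm.isOpen hχ h2

/-- (6.2) -/
theorem exists_val (hadm : Adm D V) {m l : FF p → ℤ_[p]} (hm : IsX D V m) (hl : IsX D V l)
    {n : ℕ} (hS : Kills D V (scal (chr2 m l)) ((MvPowerSeries.X 0 : K2 p) ^ n))
    (hT : Kills D V (scal (chr2 m l)) ((MvPowerSeries.X 1 : K2 p) ^ n))
    {v : FF p} (hv : v ∈ V) {a : FF p → ZMod p} (ha : a ∈ HH D V) (hav : a v ≠ 0) :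
    ∃ α ∈ ZR D V (scal (chr2 m l)), α v ≠ 0 := by
  classical
  by_contra hcon
  push Not at hcon
  have hχ : IsChar D V (chr2 m l) := isChar_chr2 hm hl
  have hact := hχ.isActR
  obtain ⟨q, ri, rg, hr⟩ := exists_reps D V hadm.isOpen
  -- the basis
  have hb : ∀ j : Fin q, ∃ t ∈ CV D V (scal (chr2 m l)), ∀ i : Fin q,
      t (ri i) (rg i) = if i = j then (1 : K2 p) else 0 := fun j =>
    CV_exists hadm hr hact (fun i => if i = j then (1 : K2 p) else 0)
  choose E hE hE' using hb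
  have hA : ∀ j : Fin q, ∃ α ∈ Z1 V (scal (chr2 m l)),
      ev D α = ((MvPowerSeries.X 0 : K2 p) ^ n) • E j := fun j => hS (E j) (hE j)
  have hB : ∀ j : Fin q, ∃ α ∈ Z1 V (scal (chr2 m l)),
      ev D α = ((MvPowerSeries.X 1 : K2 p) ^ n) • E j := fun j => hT (E j) (hE j)
  choose A hA1 hA2 using hA
  choose B hB1 hB2 using hB
  have hdiv : ∀ j, ∃ c : K2 p, A j v = (MvPowerSeries.X 0 : K2 p) ^ n * c := by
    intro j
    have hmem : ((MvPowerSeries.X 1 : K2 p) ^ n) • A j - ((MvPowerSeries.X 0 : K2 p) ^ n) • B j ∈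
        ZR D V (scal (chr2 m l)) := by
      refine mem_ZR_iff_ev.2 ⟨Submodule.sub_mem _ (Submodule.smul_mem _ _ (hA1 j))
        (Submodule.smul_mem _ _ (hB1 j)), ?_⟩
      have h1 : ev D (((MvPowerSeries.X 1 : K2 p) ^ n) • A j -
          ((MvPowerSeries.X 0 : K2 p) ^ n) • B j) =
          ((MvPowerSeries.X 1 : K2 p) ^ n) • ev D (A j) -
          ((MvPowerSeries.X 0 : K2 p) ^ n) • ev D (B j) := rfl
      rw [h1, hA2, hB2, smul_smul, smul_smul, mul_comm, sub_self]
    have h0 := hcon _ hmem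
    have h1 : (MvPowerSeries.X 1 : K2 p) ^ n * A j v - (MvPowerSeries.X 0 : K2 p) ^ n * B j v = 0 :=
      h0
    have h2 : (MvPowerSeries.X 0 : K2 p) ^ n ∣ (MvPowerSeries.X 1 : K2 p) ^ n * A j v :=
      ⟨B j v, sub_eq_zero.1 h1⟩
    exact X0_pow_dvd n _ h2
  choose c hc using hdiv
  -- the value of a crossed homomorphism
  have hval : ∀ α ∈ Z1 V (scal (chr2 m l)), α v = ∑ j, ev D α (ri j) (rg j) * c j := by
    intro α hα
    have hmem : ((MvPowerSeries.X 0 : K2 p) ^ n) • α -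
        ∑ j, (ev D α (ri j) (rg j)) • A j ∈ ZR D V (scal (chr2 m l)) := by
      refine mem_ZR_iff_ev.2 ⟨Submodule.sub_mem _ (Submodule.smul_mem _ _ hα)
        (Submodule.sum_mem _ fun j _ => Submodule.smul_mem _ _ (hA1 j)), ?_⟩
      have hlin : ev D (((MvPowerSeries.X 0 : K2 p) ^ n) • α -
          ∑ j, (ev D α (ri j) (rg j)) • A j) =
          ((MvPowerSeries.X 0 : K2 p) ^ n) • ev D α -
          ∑ j, (ev D α (ri j) (rg j)) • (((MvPowerSeries.X 0 : K2 p) ^ n) • E j) := by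
        have h1 := map_sub (evL (K2 p) (K2 p) D) (((MvPowerSeries.X 0 : K2 p) ^ n) • α)
          (∑ j, (ev D α (ri j) (rg j)) • A j)
        rw [map_sum] at h1
        have h2 : ∀ j, evL (K2 p) (K2 p) D ((ev D α (ri j) (rg j)) • A j) =
            (ev D α (ri j) (rg j)) • (((MvPowerSeries.X 0 : K2 p) ^ n) • E j) := by
          intro j
          rw [map_smul]
          congr 1
          exact hA2 j
        simp only [h2] at h1
        exact h1
      rw [hlin]
      have hevm : ev D α ∈ CV D V (scal (chr2 m l)) := ev_mem hadm.hR hact hα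
      refine CV_ext hr (Submodule.sub_mem _ (Submodule.smul_mem _ _ hevm)
        (Submodule.sum_mem _ fun j _ => Submodule.smul_mem _ _
          (Submodule.smul_mem _ _ (hE j)))) (Submodule.zero_mem _) fun i => ?_
      have h3 : (((MvPowerSeries.X 0 : K2 p) ^ n) • ev D α -
          ∑ j, (ev D α (ri j) (rg j)) • (((MvPowerSeries.X 0 : K2 p) ^ n) • E j)) (ri i) (rg i) =
          (MvPowerSeries.X 0 : K2 p) ^ n * ev D α (ri i) (rg i) -
          ∑ j, (ev D α (ri j) (rg j)) * ((MvPowerSeries.X 0 : K2 p) ^ n * E j (ri i) (rg i)) := by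
        simp only [Pi.sub_apply, Pi.smul_apply, Finset.sum_apply, smul_eq_mul]
      rw [h3]
      simp only [hE']
      rw [Finset.sum_eq_single i]
      · rw [if_pos rfl, Pi.zero_apply, Pi.zero_apply]
        ring
      · intro j _ hj
        rw [if_neg (Ne.symm hj)]
        ring
      · intro h
        exact absurd (Finset.mem_univ i) h
    have h0 := hcon _ hmem
    have h1 : (MvPowerSeries.X 0 : K2 p) ^ n * α v - ∑ j, ev D α (ri j) (rg j) * A j v = 0 := by
      have h2 : (((MvPowerSeries.X 0 : K2 p) ^ n) • α -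
          ∑ j, (ev D α (ri j) (rg j)) • A j) v =
          (MvPowerSeries.X 0 : K2 p) ^ n * α v - ∑ j, ev D α (ri j) (rg j) * A j v := by
        simp only [Pi.sub_apply, Pi.smul_apply, Finset.sum_apply, smul_eq_mul]
      rw [← h2]
      exact h0
    have hX : (MvPowerSeries.X 0 : K2 p) ^ n ≠ 0 := by
      refine pow_ne_zero _ ?_
      intro h
      have h3 : MvPowerSeries.coeff (Finsupp.single (0 : Fin 2) 1) (MvPowerSeries.X 0 : K2 p) =
          1 := by
        rw [MvPowerSeries.coeff_X, if_pos rfl]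
      rw [h, map_zero] at h3
      exact zero_ne_one h3
    apply mul_left_cancel₀ hX
    rw [sub_eq_zero.1 h1, Finset.mul_sum]
    refine Finset.sum_congr rfl fun j _ => ?_
    rw [hc j]
    ring
  obtain ⟨ha1, ha2⟩ := mem_ZR_iff_ev.1 ha
  obtain ⟨α, hα, hαa⟩ := exists_lift_const2 hadm hm hl ha1
  apply hav
  rw [← hαa v, hval α hα, map_sum]
  refine Finset.sum_eq_zero fun j _ => ?_
  rw [map_mul]
  have h1 : MvPowerSeries.constantCoeff (ev D α (ri j) (rg j)) = ev D a (ri j) (rg j) :=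
    hαa _
  rw [h1, ha2]
  simp

end D687
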