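import Pool.Agent.Lib_MP_d687bf.Betas
import Pool.Agent.Lib_MP_d687bf.Pairs
import Pool.Agent.Lib_MP_d687bf.NDbase
import Pool.Agent.Lib_MP_d687bf.NDstep
import Pool.Agent.Lib_MP_d687bf.S6Val
import Pool.Agent.Lib_MP_d687bf.KillsCov

/-!
MP_d687bf, G4: (6.5) and the assembly of the consequences of (BR).

`b0 = β_0`. `nz`: for `v ∈ V`, `a v ≠ 0`: `c, d` from `exists_orth` for `x_j = β_j v`, `γ₁ = ∑ c_j β_j`,
`γ₂ = ∑ d_j β_j`, a pair (`isPair_comb`) with `γ₁ v = γ₂ v = 0`; `IsPair.kills` and `Kills_inherit` (for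
`A = k[[S,T]]`) give the hypotheses of `exists_val` for `(γ₁, γ₂)` and for `(-γ₁, -γ₂)`
(`IsPair.neg`) on `V`; `g = γ₁ + p^E γ₂` for large `E ≥ 1` (`phiE_chr2`, `ZR_map`, `phiE_ne_zero`);
`g` is good because `(γ₂, g)` is again a pair (`isPair_comb`), `IsPair.kills_one`, `Kills_inherit`.
-/

set_option autoImplicit false

open Set Filter Topology

namespace D687

variable {p : ℕ} [Fact p.Prime] {D : Datum p}

private theorem MkSys_p1 (m : K1 p) : p • m = 0 := by
  have h : (p : K1 p) = 0 := by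
    have h2 : (p : K1 p) = PowerSeries.C ((p : ℕ) : ZMod p) := by rw [map_natCast]
    rw [h2, CharP.cast_eq_zero, map_zero]
  rw [nsmul_eq_mul, h, zero_mul]

private theorem MkSys_p2 (m : K2 p) : p • m = 0 := by
  have h : (p : K2 p) = 0 := by
    have h2 : (p : K2 p) = MvPowerSeries.C ((p : ℕ) : ZMod p) := by rw [map_natCast]
    rw [h2, CharP.cast_eq_zero, map_zero]
  rw [nsmul_eq_mul, h, zero_mul]

/-- the second component of a pair is good for all deeper subgroups -/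
private theorem MkSys_good {V1 V : Subgroup (FF p)} (hadm : Adm D V1) {g1 g2 : FF p → ℤ_[p]}
    (h : IsPair D V1 g1 g2) (hV : IsOpen (V : Set (FF p))) (hR : D.R ≤ V) (hle : V ≤ V1) :
    Good D V g2 := by
  have hX : IsX D V1 g2 := h.2.1
  obtain ⟨n, hn⟩ := Kills_inherit MkSys_p1 hadm hX.isChar_chr.isActR (h.kills_one hadm) hV hR hle
  obtain ⟨m, hm⟩ := Kills_inherit MkSys_p1 hadm hX.neg.isChar_chr.isActR (h.neg.kills_one hadm)
    hV hR hle
  refine ⟨n + m, hn.of_dvd ?_, hm.of_dvd ?_⟩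
  · exact pow_dvd_pow _ (Nat.le_add_right n m)
  · exact pow_dvd_pow _ (Nat.le_add_left m n)

/-- the two-variable test -/
private theorem MkSys_test {V1 V : Subgroup (FF p)} (hadm : Adm D V1) {g1 g2 : FF p → ℤ_[p]}
    (h : IsPair D V1 g1 g2) (hV : IsOpen (V : Set (FF p))) (hR : D.R ≤ V) (hle : V ≤ V1)
    {v : FF p} (hv : v ∈ V) {a : FF p → ZMod p} (ha : a ∈ HH D V) (hav : a v ≠ 0) :
    ∃ E0 : ℕ, ∀ E ≥ E0, ∃ α ∈ ZR D V (scal (chr (g1 + (p : ℤ_[p]) ^ E • g2))),
      (α : FF p → K1 p) v ≠ 0 := by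
  have h1 : IsX D V1 g1 := h.1
  have h2 : IsX D V1 g2 := h.2.1
  have hact : IsActR D V1 (scal (chr2 g1 g2)) := (isChar_chr2 h1 h2).isActR
  obtain ⟨k0, k1⟩ := h.kills hadm
  obtain ⟨n, hn⟩ := Kills_inherit MkSys_p2 hadm hact k0 hV hR hle
  obtain ⟨m, hm⟩ := Kills_inherit MkSys_p2 hadm hact k1 hV hR hle
  obtain ⟨α, hα, hne⟩ := exists_val (hadm.mono hV hR hle) (h1.mono hle) (h2.mono hle)
    (hn.of_dvd (pow_dvd_pow _ (Nat.le_add_right n m)))
    (hm.of_dvd (pow_dvd_pow _ (Nat.le_add_left m n))) hv ha hav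
  obtain ⟨E0, hE0⟩ := phiE_ne_zero (α v) hne
  refine ⟨E0, fun E hE => ⟨fun x => phiE E (α x), ?_, hE0 E hE⟩⟩
  have h3 := ZR_map (D := D) (V := V) (φ := phiE E) (continuous_phiE E) hα
  rw [phiE_chr2] at h3
  exact h3

private theorem MkSys_redl_sum (V : Subgroup (FF p)) (c : Fin 3 → ℤ_[p])
    (β : Fin 3 → FF p → ℤ_[p]) :
    redl V (∑ j, c j • β j) = ∑ j, (PadicInt.toZMod (c j)) • redl V (β j) := by
  funext x
  by_cases hx : x ∈ V
  · simp only [redl, Finset.sum_apply, Pi.smul_apply, smul_eq_mul]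
    rw [Set.indicator_of_mem (show x ∈ (V : Set (FF p)) from hx), map_sum]
    refine Finset.sum_congr rfl fun j _ => ?_
    rw [Set.indicator_of_mem (show x ∈ (V : Set (FF p)) from hx), map_mul]
  · simp only [redl, Finset.sum_apply, Pi.smul_apply, smul_eq_mul]
    rw [Set.indicator_of_notMem (show x ∉ (V : Set (FF p)) from hx)]
    symm
    refine Finset.sum_eq_zero fun j _ => ?_
    rw [Set.indicator_of_notMem (show x ∉ (V : Set (FF p)) from hx), mul_zero]

private theorem MkSys_ne {V : Subgroup (FF p)} {β : Fin 3 → FF p → ℤ_[p]}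
    (hlin : LinearIndependent (ZMod p) (fun j => redl V (β j))) (c : Fin 3 → ℤ_[p])
    (hc : (fun j => PadicInt.toZMod (c j) : Fin 3 → ZMod p) ≠ 0) :
    ∃ x ∈ V, (∑ j, c j • β j) x ≠ 0 := by
  by_contra hcon
  push Not at hcon
  apply hc
  have h0 : redl V (∑ j, c j • β j) = 0 := by
    funext x
    by_cases hx : x ∈ V
    · show Set.indicator (V : Set (FF p)) _ x = 0
      rw [Set.indicator_of_mem (show x ∈ (V : Set (FF p)) from hx), hcon x hx, map_zero]
    · show Set.indicator (V : Set (FF p)) _ x = 0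
      rw [Set.indicator_of_notMem (show x ∉ (V : Set (FF p)) from hx)]
  rw [MkSys_redl_sum] at h0
  funext j
  exact Fintype.linearIndependent_iff.1 hlin _ h0 j

private theorem MkSys_toZMod_p (E : ℕ) (hE : 1 ≤ E) (x : ℤ_[p]) :
    PadicInt.toZMod ((p : ℤ_[p]) ^ E * x) = 0 := by
  rw [map_mul, map_pow, map_natCast, CharP.cast_eq_zero, zero_pow (by omega), zero_mul]

theorem exists_sys (h : BR D) : Nonempty (Sys D) := by
  obtain ⟨V1, hadm, c, hc, h4, hrk⟩ := h
  obtain ⟨β, hβ, hlin, hs⟩ := exists_betas hadm hc h4 hrk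
  -- the pair `(β 1, β 0)`
  have hpair : IsPair D V1 (∑ j, (Pi.single 1 1 : Fin 3 → ℤ_[p]) j • β j) (β 0) := by
    have h1 := isPair_comb hadm hβ hs (Pi.single 1 1) (Pi.single 0 1) (by
      rw [LinearIndependent.pair_iff]
      intro s t hst
      have e0 := congrFun hst 0
      have e1 := congrFun hst 1
      simp at e0 e1
      exact ⟨e1, e0⟩)
    have h2 : (∑ j, (Pi.single 0 1 : Fin 3 → ℤ_[p]) j • β j) = β 0 := by
      rw [Fin.sum_univ_three]
      simp
    rw [h2] at h1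
    exact h1
  have hne0 : ∃ x ∈ V1, β 0 x ≠ 0 := by
    have h1 := MkSys_ne hlin (Pi.single 0 1) (by
      intro h0
      have := congrFun h0 0
      simp at this)
    have h2 : (∑ j, (Pi.single 0 1 : Fin 3 → ℤ_[p]) j • β j) = β 0 := by
      rw [Fin.sum_univ_three]
      simp
    rw [h2] at h1
    exact h1
  refine ⟨⟨V1, hadm, β 0, hβ 0, hne0, fun V hV hR hle => MkSys_good hadm hpair hV hR hle,
    fun V hV hR hle => ?_, fun V hV hR hle v hv hav => ?_⟩⟩
  · exact ND_inherit hadm (hβ 0) (hpair.kills_one hadm)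
      (ND_base hadm hc (fun κ hκ => le_trans (by omega) (hrk κ hκ)) (hβ 0)
        (hpair.kills_one hadm) (hpair.neg.kills_one hadm)) hV hR hle
  · obtain ⟨a, ha, hav⟩ := hav
    obtain ⟨c', d', hc', hd', hind⟩ := exists_orth (fun j => β j v)
    have hp12 := isPair_comb hadm hβ hs c' d' hind
    obtain ⟨E1, hE1⟩ := MkSys_test hadm hp12 hV hR hle hv ha hav
    obtain ⟨E2, hE2⟩ := MkSys_test hadm hp12.neg hV hR hle hv ha hav
    set E := E1 + E2 + 1 with hE
    have hgeq : (∑ j, (c' j + (p : ℤ_[p]) ^ E * d' j) • β j) =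
        (∑ j, c' j • β j) + (p : ℤ_[p]) ^ E • (∑ j, d' j • β j) := by
      rw [Finset.smul_sum, ← Finset.sum_add_distrib]
      refine Finset.sum_congr rfl fun j _ => ?_
      rw [add_smul, mul_smul]
    have hred : (fun j => PadicInt.toZMod (c' j + (p : ℤ_[p]) ^ E * d' j) : Fin 3 → ZMod p) =
        fun j => PadicInt.toZMod (c' j) := by
      funext j
      rw [map_add, MkSys_toZMod_p E (by omega), add_zero]
    have hpg : IsPair D V1 (∑ j, (c' j + (p : ℤ_[p]) ^ E * d' j) • β j) (∑ j, d' j • β j) :=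
      isPair_comb hadm hβ hs (fun j => c' j + (p : ℤ_[p]) ^ E * d' j) d' (by
        rw [hred]
        exact hind)
    refine ⟨∑ j, (c' j + (p : ℤ_[p]) ^ E * d' j) • β j, hpg.1, ?_, ?_,
      MkSys_good hadm hpg.swap hV hR hle, ?_, ?_⟩
    · refine MkSys_ne hlin _ ?_
      rw [hred]
      have := hind.ne_zero 0
      simpa using this
    · rw [hgeq]
      simp only [Pi.add_apply, Finset.sum_apply, Pi.smul_apply, smul_eq_mul]
      rw [hc', hd', mul_zero, add_zero]
    · rw [hgeq]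
      exact hE1 E (by omega)
    · have hneg : -(∑ j, (c' j + (p : ℤ_[p]) ^ E * d' j) • β j) =
          -(∑ j, c' j • β j) + (p : ℤ_[p]) ^ E • -(∑ j, d' j • β j) := by
        rw [hgeq, neg_add, smul_neg]
      rw [hneg]
      exact hE2 E (by omega)

end D687
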