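import Pool.Agent.Lib_MP_d687bf.FFBasic
import Pool.Agent.Lib_MP_d687bf.Rings

/-!
MP_d687bf, S7b: a non-trivial hom `N/R → k`, `N = ⋂ W_j`, extends to some `W_j`.

Let `x ∈ N`, `x ∉ R`. `R` is closed, so there is an open normal `O` with `x ∉ R O`
(`exists_normal_sub` for the open set `{o | x o ∉ R}`-like). The finite `p`-group `NO/(RO)` is not
trivial, so it has a hom onto `ZMod p` (a non-trivial finite `p`-group has a normal subgroup of
index `p`, quotient cyclic of order `p`); this gives `f : NO → k`, `f = 0` on `RO`, continuous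
(`RO` open), `f v ≠ 0` for some `v ∈ N` (`NO = N·O`). `NO` is open and contains `W_j` for large `j`
(`exists_sub_of_iInf`); `a := f` on `W_j`, `0` outside `W_j`.
-/

set_option autoImplicit false

open Set Filter Topology

namespace D687

variable {p : ℕ} [Fact p.Prime]

/-- a proper subgroup of a finite `p`-group is contained in the kernel of a surjection to `ℤ/p` -/
private theorem S7Hom_hom {G : Type} [Group G] [Finite G] (hG : IsPGroup p G) (H : Subgroup G)
    (hH : H ≠ ⊤) :
    ∃ f : G →* Multiplicative (ZMod p), Function.Surjective f ∧ H ≤ f.ker := by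
  have hp : p.Prime := Fact.out
  obtain ⟨n, hcard⟩ := IsPGroup.iff_card.1 hG
  obtain ⟨b, hbn, hb⟩ := (Nat.dvd_prime_pow hp).1 (hcard ▸ Subgroup.card_subgroup_dvd_card H)
  have hblt : b < n := by
    refine lt_of_le_of_ne hbn ?_
    rintro rfl
    apply hH
    apply Subgroup.eq_top_of_card_eq
    rw [hb, hcard]
  obtain ⟨k, rfl⟩ : ∃ k, n = k + 1 := ⟨n - 1, by omega⟩
  obtain ⟨K, hKc, hKle⟩ := Sylow.exists_subgroup_card_pow_prime_le p
    (m := k) (by rw [hcard]; exact pow_dvd_pow p (Nat.le_succ k)) H hb (by omega)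
  have hKi : K.index = p := by
    have h1 := Subgroup.card_mul_index K
    rw [hKc, hcard, pow_succ] at h1
    exact Nat.eq_of_mul_eq_mul_left (pow_pos hp.pos k) h1
  have hKn : K.Normal := by
    apply Subgroup.normal_of_index_eq_minFac_card
    rw [hKi, hcard, Nat.Prime.pow_minFac hp (Nat.succ_ne_zero k)]
  have hQ : Nat.card (G ⧸ K) = p := hKi
  have hZ : Nat.card (Multiplicative (ZMod p)) = p := by
    rw [Nat.card_congr Multiplicative.toAdd, Nat.card_zmod]
  let e : (G ⧸ K) ≃* Multiplicative (ZMod p) := mulEquivOfPrimeCardEq hQ hZ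
  refine ⟨e.toMonoidHom.comp (QuotientGroup.mk' K), ?_, ?_⟩
  · exact e.surjective.comp (QuotientGroup.mk'_surjective K)
  · intro x hx
    rw [MonoidHom.mem_ker]
    have h2 : QuotientGroup.mk' K x = 1 := by
      rw [← MonoidHom.mem_ker, QuotientGroup.ker_mk']
      exact hKle hx
    change e (QuotientGroup.mk' K x) = 1
    rw [h2, map_one]

/-- A subgroup of a finite `p`-group `Q` and a proper normal subgroup: a hom which kills the latter
and does not kill the former. -/
theorem exists_hom_of_pgroup (Q : Type) [Group Q] [Finite Q] (hQ : IsPGroup p Q)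
    (N R : Subgroup Q) (hR : R.Normal) (hRN : R ≤ N) (hne : R ≠ N) :
    ∃ f : Q → ZMod p, (∀ g ∈ N, ∀ h ∈ N, f (g * h) = f g + f h) ∧ (∀ x ∈ R, f x = 0) ∧
      ∃ v ∈ N, f v ≠ 0 := by
  classical
  obtain ⟨f, hfs, hf⟩ := S7Hom_hom (p := p) (hQ.to_subgroup N) (R.subgroupOf N) (by
    intro h
    rw [Subgroup.subgroupOf_eq_top] at h
    exact hne (le_antisymm hRN h))
  refine ⟨fun x => if hx : x ∈ N then (f ⟨x, hx⟩).toAdd else 0, fun g hg h hh => ?_,
    fun x hx => ?_, ?_⟩
  · simp only [hg, hh, N.mul_mem hg hh, dif_pos]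
    have h1 : (⟨g * h, N.mul_mem hg hh⟩ : N) = ⟨g, hg⟩ * ⟨h, hh⟩ := rfl
    rw [h1, map_mul, toAdd_mul]
  · have hxN := hRN hx
    simp only [hxN, dif_pos]
    have h1 : (⟨x, hxN⟩ : N) ∈ f.ker := hf hx
    rw [MonoidHom.mem_ker] at h1
    rw [h1, toAdd_one]
  · obtain ⟨σ, hσ⟩ := hfs (Multiplicative.ofAdd 1)
    refine ⟨σ.1, σ.2, ?_⟩
    simp only [σ.2, dif_pos]
    have h1 : (⟨σ.1, σ.2⟩ : N) = σ := rfl
    rw [h1, hσ, toAdd_ofAdd]
    exact one_ne_zero

theorem exists_hom_of_notMem_R (D : Datum p) (W : ℕ → Subgroup (FF p))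
    (hW : ∀ j, IsOpen (W j : Set (FF p))) (hanti : Antitone W) (hR : ∀ j, D.R ≤ W j)
    {x : FF p} (hx : ∀ j, x ∈ W j) (hxR : x ∉ D.R) :
    ∃ (j : ℕ) (v : FF p), (∀ i, v ∈ W i) ∧ ∃ a ∈ HH D (W j), (a : FF p → ZMod p) v ≠ 0 := by
  classical
  have hRn : D.R.Normal := normal_R D
  -- the open normal subgroup
  have hO0 : IsOpen {o : FF p | x * o ∉ D.R} := by
    have h1 : IsClosed {o : FF p | x * o ∈ D.R} :=
      (isClosed_R D).preimage (continuous_const.mul continuous_id)
    exact h1.isOpen_compl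
  obtain ⟨O, hOn, hOo, hOs⟩ := exists_normal_sub _ hO0 (by
    change x * 1 ∉ D.R
    rwa [mul_one])
  obtain ⟨n, hn⟩ := index_open O hOo
  have hcard : Nat.card (FF p ⧸ O) = p ^ n := hn
  have hfin : Finite (FF p ⧸ O) := by
    refine Nat.finite_of_card_ne_zero ?_
    rw [hcard]
    exact pow_ne_zero _ (Fact.out : p.Prime).ne_zero
  have hpg : IsPGroup p (FF p ⧸ O) := IsPGroup.of_card hcard
  let π : FF p →* FF p ⧸ O := QuotientGroup.mk' O
  have hker : ∀ y, π y = 1 ↔ y ∈ O := fun y => by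
    rw [← MonoidHom.mem_ker, QuotientGroup.ker_mk']
  have hmapn : (D.R.map π).Normal := hRn.map π (QuotientGroup.mk'_surjective O)
  have hle : D.R ≤ ⨅ j, W j := le_iInf hR
  have hxN : x ∈ ⨅ j, W j := (Subgroup.mem_iInf).2 hx
  obtain ⟨f, hfadd, hfR, v', hv', hfv'⟩ := exists_hom_of_pgroup (p := p) (FF p ⧸ O) hpg
    ((⨅ j, W j).map π) (D.R.map π) hmapn (Subgroup.map_mono hle) (by
      intro h
      have h1 : π x ∈ D.R.map π := by
        rw [h]
        exact ⟨x, hxN, rfl⟩
      obtain ⟨r, hr, hrx⟩ := h1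
      have h2 : x⁻¹ * r ∈ O := by
        rw [← hker, map_mul, map_inv, hrx, inv_mul_cancel]
      have h3 := hOs h2
      apply h3
      rw [mul_inv_cancel_left]
      exact hr)
  obtain ⟨v, hv, rfl⟩ := hv'
  -- the open subgroup containing some `W j`
  have hOle : O ≤ ((⨅ j, W j).map π).comap π := by
    intro y hy
    rw [Subgroup.mem_comap, (hker y).2 hy]
    exact Subgroup.one_mem _
  have hopen : IsOpen ((((⨅ j, W j).map π).comap π : Subgroup (FF p)) : Set (FF p)) :=
    Subgroup.isOpen_mono hOle hOo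
  obtain ⟨j, hj⟩ := exists_sub_of_iInf W hW hanti _ hopen (fun y hy => ⟨y, hy, rfl⟩)
  have hcont : Continuous (fun y : FF p => f (π y)) := by
    have hd : DiscreteTopology (FF p ⧸ O) := QuotientGroup.discreteTopology hOo
    have h1 : Continuous f := continuous_of_discreteTopology
    have h2 : Continuous (QuotientGroup.mk : FF p → FF p ⧸ O) := QuotientGroup.continuous_mk
    exact h1.comp h2
  have hvj : ∀ i, v ∈ W i := (Subgroup.mem_iInf).1 hv
  refine ⟨j, v, hvj, Set.indicator (W j : Set (FF p)) (fun y => f (π y)), ?_, ?_⟩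
  · refine Submodule.mem_inf.2 ⟨⟨?_, fun y hy => Set.indicator_of_notMem hy _, ?_⟩, ?_⟩
    · refine Continuous.indicator ?_ hcont
      have hclo : IsClopen (W j : Set (FF p)) := ⟨(W j).isClosed_of_isOpen (hW j), hW j⟩
      rw [hclo.frontier_eq]
      intro a ha
      exact absurd ha (Set.notMem_empty a)
    · intro g hg h hh
      have hg' : g ∈ (W j : Set (FF p)) := hg
      have hh' : h ∈ (W j : Set (FF p)) := hh
      have hgh' : g * h ∈ (W j : Set (FF p)) := (W j).mul_mem hg hh
      rw [Set.indicator_of_mem hg', Set.indicator_of_mem hh', Set.indicator_of_mem hgh']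
      change f (π (g * h)) = f (π g) + f (π h)
      rw [map_mul]
      exact hfadd _ (hj hg') _ (hj hh')
    · rw [LinearMap.mem_ker]
      funext i g
      change Set.indicator (W j : Set (FF p)) (fun y => f (π y)) (g * D.r i * g⁻¹) = 0
      have h1 := r_mem_R D i g
      have h2 : g * D.r i * g⁻¹ ∈ (W j : Set (FF p)) := hR j h1
      rw [Set.indicator_of_mem h2]
      exact hfR _ ⟨_, h1, rfl⟩
  · have h2 : v ∈ (W j : Set (FF p)) := hvj j
    rw [Set.indicator_of_mem h2]
    exact hfv'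

end D687
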