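import Pool.Agent.Lib_MP_d687bf.S7Dim
import Pool.Agent.Lib_MP_d687bf.S7Hom

/-!
MP_d687bf, S7d: THEOREM (7.1): `⋂ V^{#j} = R`.

Proof. `R ≤` is `R_le_tower`. Suppose `x ∈ V^{#j}` for all `j`, `x ∉ R`. `exists_hom_of_notMem_R`
for `W j = tower D V j`: `j`, `v` in all `V^{#i}`, `a ∈ H(Y)`, `Y = V^{#j}`, `a v ≠ 0`. `S.nz` for
`Y`: `g ∈ X(V1)`, `g v = 0`, good for `Y`, `α ∈ Z_R(Y, k[[T]]_g)`, `α v ≠ 0`; `g` is not zero on `Y`
(`Y` has finite index in `V1`, `index_open`: `g (x ^ n) = n g x`). `no_val` for `Y`: the hypothesis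
`hmem`: if `W = {y ∈ Y | p^m ∣ g y}` then `V^{#(j+m)} ≤ W` (`dvd_of_mem_tower`), so
`v ∈ V^{#(j+m+1)} = (V^{#(j+m)})^# ≤ W^#` (`sharp_mono`).
-/

set_option autoImplicit false

open Set Filter Topology

namespace D687

variable {p : ℕ} [Fact p.Prime] {D : Datum p}

/-- (7.1) -/
theorem tower_inter (S : Sys D) {V : Subgroup (FF p)} (hV : IsOpen (V : Set (FF p)))
    (hR : D.R ≤ V) (hle : V ≤ S.V1) : ⨅ j, tower D V j = D.R := by
  refine le_antisymm ?_ (le_iInf fun j => R_le_tower hR)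
  intro x hx
  by_contra hxR
  rw [Subgroup.mem_iInf] at hx
  obtain ⟨j, v, hv, a, ha, hav⟩ := exists_hom_of_notMem_R D (tower D V)
    (fun j => isOpen_tower hV hR) tower_antitone (fun j => R_le_tower hR) hx hxR
  have hYo : IsOpen (tower D V j : Set (FF p)) := isOpen_tower hV hR
  have hYR : D.R ≤ tower D V j := R_le_tower hR
  have hYle : tower D V j ≤ S.V1 := tower_le.trans hle
  obtain ⟨g, hg, ⟨x0, hx0, hgx0⟩, hgv, hgood, ⟨α, hα, hαv⟩, -⟩ :=
    S.nz (tower D V j) hYo hYR hYle v (hv j) ⟨a, ha, hav⟩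
  have hgY : IsX D (tower D V j) g := hg.mono hYle
  apply hαv
  refine no_val (S.adm.mono hYo hYR hYle) hgY ?_ hgood hα (hv j) hgv ?_
  · obtain ⟨n, hn⟩ := index_open (tower D V j) hYo
    have hne : (tower D V j).index ≠ 0 := by
      rw [hn]
      exact pow_ne_zero _ (Fact.out : p.Prime).ne_zero
    obtain ⟨k, hk, -, hkm⟩ := Subgroup.exists_pow_mem_of_index_ne_zero hne x0
    refine ⟨x0 ^ k, hkm, ?_⟩
    rw [hg.pow_eq hx0 k]
    exact mul_ne_zero (Nat.cast_ne_zero.2 hk.ne') hgx0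
  · intro m W hW
    have h1 : tower D V (j + m) ≤ W := by
      intro y hy
      rw [hW]
      exact ⟨tower_antitone (Nat.le_add_right j m) hy, dvd_of_mem_tower hV hR hgY hy⟩
    exact sharp_mono h1 (hv (j + m + 1))

/-- (7.1), elementwise. -/
theorem mem_R_of_tower (S : Sys D) {V : Subgroup (FF p)} (hV : IsOpen (V : Set (FF p)))
    (hR : D.R ≤ V) (hle : V ≤ S.V1) {x : FF p} (hx : ∀ j, x ∈ tower D V j) : x ∈ D.R := by
  rw [← tower_inter S hV hR hle]
  exact (Subgroup.mem_iInf).2 hx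

end D687
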