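import Pool.Agent.Lib_MP_d687bf.Fin15
import Pool.Agent.Lib_MP_d687bf.MkSys
import Pool.Agent.Lib_MP_d687bf.E8Cent
import Pool.Agent.Lib_MP_d687bf.S7Inter
import Pool.Agent.Lib_MP_d687bf.Base
import Pool.Agent.Lib_MP_d687bf_dom.Main

/-!
MP_d687bf: the final assembly (everything except (11.1) = `BR_snoc`).
-/

set_option autoImplicit false

open Set Filter Topology

namespace D687

/-- The facts used in sections 12, 13, 15, from the other sections. -/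
theorem facts_of_snoc {p : ℕ} [Fact p.Prime] (hp : p ≠ 2)
    (hsnoc : ∀ D : Datum p, BR D → ∀ ω : FF p, (∀ e : ℕ, 0 < e → ω ^ e ∉ D.R) →
      (∀ g : FF p, g ^ p * ω⁻¹ ∉ D.R) → ∃ b0 : ℕ, ∀ b, b0 ≤ b → BR (D.snoc ω b)) :
    Facts p where
  empty := fun D h => BR_empty hp D h
  sys := fun _ h => exists_sys h
  tower_isOpen := fun _ _ hV hR _ => isOpen_tower hV hR
  inter := fun _ S _ hV hR hle _ hx => mem_R_of_tower S hV hR hle hx
  tilde := by
    intro D S hn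
    obtain ⟨V0, hN, hO, hR, hle, -, a, ha, hinv, h1⟩ := exists_V0 S S.V1 S.adm.isOpen S.adm.hR
    exact ⟨V0, a, hO, hN, hR, hle, ha, fun v hv g => hinv g v hv, h1,
      fun t ht hat => pow_p_central S V0 hN hO hR a ha hinv h1 t ht hat⟩
  snoc := hsnoc
  dom := by
    intro Gam _ z B _ h1 h2 h3 h4 h5 h6 h7 h8
    refine D687Dom.exists_division_ring p hp Gam z (Subgroup.mem_center_iff.mpr h1) ?_ h4 B h5
      (fun b hb n hn hbn => h6 b hb n (Nat.pos_of_ne_zero hn) hbn) h7 h8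
    exact orderOf_eq_prime h2 h3

/-- The statement S03200, from (11.1) for `p = 3`. -/
theorem S03200_of_snoc
    (hsnoc : ∀ D : Datum 3, BR D → ∀ ω : FF 3, (∀ e : ℕ, 0 < e → ω ^ e ∉ D.R) →
      (∀ g : FF 3, g ^ 3 * ω⁻¹ ∉ D.R) → ∃ b0 : ℕ, ∀ b, b0 ≤ b → BR (D.snoc ω b)) :
    ¬ (∀ (D : Type) [DivisionRing D] (n : ℕ) (G : Subgroup (Matrix (Fin n) (Fin n) D)ˣ),
      (∀ g ∈ G, IsOfFinOrder g) →
      ∀ S : Finset (Matrix (Fin n) (Fin n) D)ˣ,
        (S : Set (Matrix (Fin n) (Fin n) D)ˣ) ⊆ (G : Set (Matrix (Fin n) (Fin n) D)ˣ) →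
        ((Subgroup.closure (S : Set (Matrix (Fin n) (Fin n) D)ˣ) :
            Subgroup (Matrix (Fin n) (Fin n) D)ˣ) : Set (Matrix (Fin n) (Fin n) D)ˣ).Finite) :=
  main_of_facts (p := 3) (facts_of_snoc (p := 3) (by norm_num) hsnoc)

end D687
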