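import Pool.Agent.Lib_MP_d687bf.Tpow

/-!
MP_d687bf, B3: the functional `cs s` = coefficient of `1` on `k[T]/T^(p^s) = k[ℤ/p^s]`,
facts (P1)-(P5) of the proof. `1 + T = t`, `T ^ j = ∑ (-1)^(j-i) (j choose i) t ^ i`, so `cs s` is the
linear functional with `t ^ i ↦ δ_{i,0}` for `0 ≤ i < p ^ s` (binomial sums), and
`t ^ (p ^ s) = 1` modulo `T ^ (p ^ s)`.
-/

set_option autoImplicit false

open Set Filter Topology

namespace D687

variable {p : ℕ} [Fact p.Prime]

theorem cs_add (s : ℕ) (f g : K1 p) : cs s (f + g) = cs s f + cs s g := by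
  simp only [cs, map_add, mul_add, Finset.sum_add_distrib]

theorem cs_smul (s : ℕ) (c : ZMod p) (f : K1 p) : cs s (c • f) = c * cs s f := by
  simp only [cs, Finset.mul_sum]
  refine Finset.sum_congr rfl fun j _ => ?_
  rw [PowerSeries.coeff_smul]
  ring

theorem cs_zero (s : ℕ) : cs s (0 : K1 p) = 0 := by
  simp only [cs, map_zero, mul_zero, Finset.sum_const_zero]

private theorem Cs_neg (s : ℕ) (f : K1 p) : cs s (-f) = -cs s f := by
  have h := cs_add s f (-f)
  rw [add_neg_cancel, cs_zero] at h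
  exact (neg_eq_of_add_eq_zero_right h.symm).symm

private theorem Cs_sub (s : ℕ) (f g : K1 p) : cs s (f - g) = cs s f - cs s g := by
  rw [sub_eq_add_neg, cs_add, Cs_neg, sub_eq_add_neg]

private theorem Cs_sum {ι : Type*} (s : ℕ) (I : Finset ι) (f : ι → K1 p) :
    cs s (∑ i ∈ I, f i) = ∑ i ∈ I, cs s (f i) := by
  classical
  induction I using Finset.induction_on with
  | empty => simp only [Finset.sum_empty, cs_zero]
  | insert i I hi ih => rw [Finset.sum_insert hi, Finset.sum_insert hi, cs_add, ih]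

private theorem Cs_pos (s : ℕ) : 0 < p ^ s := pow_pos (Fact.out : p.Prime).pos s

private theorem Cs_sign (s : ℕ) : (-1 : ZMod p) ^ (p ^ s - 1) = 1 := by
  have h1 : (-1 : ZMod p) ^ (p ^ s) = -1 := ZMod.pow_card_pow _
  have h2 : p ^ s = (p ^ s - 1) + 1 := (Nat.sub_add_cancel (Cs_pos s)).symm
  rw [h2, pow_succ] at h1
  have h3 : (-1 : ZMod p) ^ (p ^ s - 1) * (-1) = 1 * (-1) := by rw [h1, one_mul]
  exact mul_right_cancel₀ (by simp) h3

theorem continuous_cs (s : ℕ) : Continuous (cs s : K1 p → ZMod p) := by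
  unfold cs
  refine continuous_finsetSum _ fun j _ => continuous_const.mul ?_
  exact PowerSeries.WithPiTopology.continuous_coeff (ZMod p) j

/-- (P2) -/
theorem cs_of_dvd (s : ℕ) (f : K1 p) (h : (PowerSeries.X : K1 p) ^ (p ^ s) ∣ f) : cs s f = 0 := by
  rw [PowerSeries.X_pow_dvd_iff] at h
  refine Finset.sum_eq_zero fun j hj => ?_
  rw [h j (Finset.mem_range.1 hj), mul_zero]

private theorem Cs_congr (s : ℕ) (f g : K1 p) (h : (PowerSeries.X : K1 p) ^ (p ^ s) ∣ f - g) :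
    cs s f = cs s g := by
  have h1 := cs_of_dvd s _ h
  rw [Cs_sub] at h1
  exact sub_eq_zero.1 h1

private theorem Cs_tpow_mul (s : ℕ) (z : ℤ_[p]) (hz : (p : ℤ_[p]) ^ s ∣ z) (f : K1 p) :
    cs s (tpow z * f) = cs s f := by
  apply Cs_congr
  have h1 := (dvd_tpow_sub_one s z).2 hz
  have h2 : tpow z * f - f = (tpow z - 1) * f := by ring
  rw [h2]
  exact Dvd.dvd.mul_right h1 f

private theorem Cs_nat (s n : ℕ) (hn : n < p ^ s) :
    cs s ((1 + PowerSeries.X : K1 p) ^ n) = if n = 0 then 1 else 0 := by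
  have h1 : ∀ j, PowerSeries.coeff j ((1 + PowerSeries.X : K1 p) ^ n) = (n.choose j : ZMod p) := by
    intro j
    have h0 : (1 + PowerSeries.X : K1 p) =
        ((1 + Polynomial.X : Polynomial (ZMod p)) : PowerSeries (ZMod p)) := by
      rw [Polynomial.coe_add, Polynomial.coe_one, Polynomial.coe_X]
    rw [h0, ← Polynomial.coe_pow, Polynomial.coeff_coe, Polynomial.coeff_one_add_X_pow]
  unfold cs
  simp only [h1]
  have h2 : ∑ j ∈ Finset.range (p ^ s), (-1 : ZMod p) ^ j * (n.choose j : ZMod p) =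
      ∑ j ∈ Finset.range (n + 1), (-1 : ZMod p) ^ j * (n.choose j : ZMod p) := by
    symm
    apply Finset.sum_subset
    · intro j hj
      rw [Finset.mem_range] at hj ⊢
      omega
    · intro j _ hj
      rw [Finset.mem_range, not_lt] at hj
      rw [Nat.choose_eq_zero_of_lt (by omega), Nat.cast_zero, mul_zero]
  rw [h2]
  have h3 := congrArg (fun x : ℤ => (x : ZMod p)) (Int.alternating_sum_range_choose (n := n))
  push_cast at h3
  rw [h3]

/-- (P1) -/
theorem cs_tpow (s : ℕ) (z : ℤ_[p]) [Decidable ((p : ℤ_[p]) ^ s ∣ z)] :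
    cs s (tpow z) = if (p : ℤ_[p]) ^ s ∣ z then 1 else 0 := by
  have h1 : (p : ℤ_[p]) ^ s ∣ z - (z.appr s : ℤ_[p]) := by
    have := PadicInt.appr_spec s z
    rwa [Ideal.mem_span_singleton] at this
  have h2 : tpow z = tpow (z - (z.appr s : ℤ_[p])) * tpow (z.appr s : ℤ_[p]) := by
    rw [← tpow_add, sub_add_cancel]
  rw [h2, Cs_tpow_mul s _ h1, tpow_nat, Cs_nat s _ (PadicInt.appr_lt z s)]
  have h3 : (p : ℤ_[p]) ^ s ∣ z ↔ z.appr s = 0 := by
    constructor
    · intro h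
      have h4 : (p : ℤ_[p]) ^ s ∣ ((z.appr s : ℤ) : ℤ_[p]) := by
        have h5 := dvd_sub h h1
        rw [sub_sub_cancel] at h5
        exact_mod_cast h5
      rw [PadicInt.pow_p_dvd_int_iff] at h4
      have h6 : p ^ s ∣ z.appr s := by exact_mod_cast h4
      exact Nat.eq_zero_of_dvd_of_lt h6 (PadicInt.appr_lt z s)
    · intro h
      rw [h, Nat.cast_zero, sub_zero] at h1
      exact h1
  simp only [h3]

/-- (P2') multiplication by `t ^ z`, `p ^ s ∣ z`, does not change `cs s`. -/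
theorem cs_tpow_mul (s : ℕ) (z : ℤ_[p]) (hz : (p : ℤ_[p]) ^ s ∣ z) (f : K1 p) :
    cs s (tpow z * f) = cs s f := Cs_tpow_mul s z hz f

private theorem Cs_X_pow_mul (s m : ℕ) (f : K1 p) (h : ∀ k < p ^ s - 1 - m, PowerSeries.coeff k f = 0)
    (hm : m ≤ p ^ s - 1) :
    cs s (PowerSeries.X ^ m * f) = PowerSeries.coeff (p ^ s - 1 - m) f := by
  have hpos := Cs_pos (p := p) s
  unfold cs
  rw [Finset.sum_eq_single (p ^ s - 1)]
  · rw [Cs_sign, one_mul, PowerSeries.coeff_X_pow_mul', if_pos hm]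
  · intro j hj hj2
    rw [Finset.mem_range] at hj
    rw [PowerSeries.coeff_X_pow_mul']
    split_ifs with h1
    · rw [h _ (by omega), mul_zero]
    · rw [mul_zero]
  · intro h1
    exact absurd (Finset.mem_range.2 (by omega)) h1

private theorem Cs_key (s : ℕ) (f : K1 p) (h : ∀ m : ℕ, cs s (PowerSeries.X ^ m * f) = 0) :
    (PowerSeries.X : K1 p) ^ (p ^ s) ∣ f := by
  rw [PowerSeries.X_pow_dvd_iff]
  intro k
  induction k using Nat.strong_induction_on with
  | _ k ih =>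
    intro hk
    have h1 := Cs_X_pow_mul s (p ^ s - 1 - k) f (by
      intro k' hk'
      exact ih k' (by omega) (by omega)) (by omega)
    rw [h] at h1
    have h2 : p ^ s - 1 - (p ^ s - 1 - k) = k := by omega
    rw [h2] at h1
    exact h1.symm

/-- (P3) -/
theorem dvd_of_cs (s : ℕ) (f : K1 p) (h : ∀ n : ℕ, cs s ((1 + PowerSeries.X) ^ n * f) = 0) :
    (PowerSeries.X : K1 p) ^ (p ^ s) ∣ f := by
  apply Cs_key
  have h1 : ∀ m n : ℕ, cs s (PowerSeries.X ^ m * ((1 + PowerSeries.X) ^ n * f)) = 0 := by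
    intro m
    induction m with
    | zero =>
      intro n
      rw [pow_zero, one_mul]
      exact h n
    | succ m ih =>
      intro n
      have h2 : (PowerSeries.X : K1 p) ^ (m + 1) * ((1 + PowerSeries.X) ^ n * f) =
          PowerSeries.X ^ m * ((1 + PowerSeries.X) ^ (n + 1) * f) -
            PowerSeries.X ^ m * ((1 + PowerSeries.X) ^ n * f) := by ring
      rw [h2, Cs_sub, ih, ih, sub_zero]
  intro m
  have h3 := h1 m 0
  rwa [pow_zero, one_mul] at h3

/-- (P3') if `cs s (h f) = 0` for all `h` then `T ^ (p ^ s) ∣ f`. -/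
theorem dvd_of_cs' (s : ℕ) (f : K1 p) (h : ∀ g : K1 p, cs s (g * f) = 0) :
    (PowerSeries.X : K1 p) ^ (p ^ s) ∣ f := Cs_key s f fun _ => h _

/-- (P4) (for odd `p` the sign is `(-1)^(p^s-1) = 1`, for `p = 2` there is no sign) -/
theorem cs_top (s : ℕ) (f : K1 p) :
    cs s (PowerSeries.X ^ (p ^ s - 1) * f) = PowerSeries.constantCoeff f := by
  rw [Cs_X_pow_mul s (p ^ s - 1) f (by intro k hk; omega) le_rfl, Nat.sub_self,
    PowerSeries.coeff_zero_eq_constantCoeff_apply]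

private theorem Cs_dvd_iff (s : ℕ) {a b : ℕ} (ha : a < p ^ s) (hb : b < p ^ s) :
    (p : ℤ_[p]) ^ s ∣ (a : ℤ_[p]) - (b : ℤ_[p]) ↔ a = b := by
  constructor
  · intro h
    have h1 : (p : ℤ_[p]) ^ s ∣ (((a : ℤ) - (b : ℤ) : ℤ) : ℤ_[p]) := by
      push_cast
      exact h
    rw [PadicInt.pow_p_dvd_int_iff] at h1
    have h2 : ((p ^ s : ℕ) : ℤ) ∣ (a : ℤ) - b := by exact_mod_cast h1
    have h3 := (Nat.modEq_iff_dvd (n := p ^ s) (a := b) (b := a)).2 h2
    have h4 : b % p ^ s = a % p ^ s := h3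
    rw [Nat.mod_eq_of_lt ha, Nat.mod_eq_of_lt hb] at h4
    exact h4.symm
  · rintro rfl
    rw [sub_self]
    exact dvd_zero _

private theorem Cs_tpow_mul_nat (s n : ℕ) (x : K1 p) :
    cs s ((1 + PowerSeries.X) ^ n * x) =
      ∑ a ∈ Finset.range (p ^ s), cs s (tpow (-(a : ℤ_[p])) * x) *
        cs s (tpow (n : ℤ_[p]) * tpow (a : ℤ_[p])) := by
  classical
  have hpos := Cs_pos (p := p) s
  obtain ⟨a0, ha0, ha1⟩ : ∃ a0 < p ^ s, (p : ℤ_[p]) ^ s ∣ (n : ℤ_[p]) + (a0 : ℤ_[p]) := by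
    refine ⟨(p ^ s - n % p ^ s) % p ^ s, Nat.mod_lt _ hpos, ?_⟩
    have h1 : p ^ s ∣ n + (p ^ s - n % p ^ s) % p ^ s := by
      have h2 := Nat.mod_lt n hpos
      rw [Nat.dvd_iff_mod_eq_zero]
      calc (n + (p ^ s - n % p ^ s) % p ^ s) % p ^ s
          = (n + (p ^ s - n % p ^ s)) % p ^ s := Nat.add_mod_mod _ _ _
        _ = (n % p ^ s + (p ^ s - n % p ^ s)) % p ^ s := (Nat.mod_add_mod _ _ _).symm
        _ = p ^ s % p ^ s := by rw [Nat.add_sub_cancel' h2.le]
        _ = 0 := Nat.mod_self _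
    obtain ⟨k, hk⟩ := h1
    refine ⟨(k : ℤ_[p]), ?_⟩
    exact_mod_cast hk
  rw [Finset.sum_eq_single a0]
  · rw [← tpow_add, cs_tpow, if_pos ha1, mul_one]
    have h3 : (1 + PowerSeries.X : K1 p) ^ n * x =
        tpow ((n : ℤ_[p]) + (a0 : ℤ_[p])) * (tpow (-(a0 : ℤ_[p])) * x) := by
      rw [← mul_assoc, ← tpow_add, add_neg_cancel_right, tpow_nat]
    rw [h3, Cs_tpow_mul s _ ha1]
  · intro a ha hne
    rw [← tpow_add, cs_tpow, if_neg, mul_zero]
    intro h4
    apply hne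
    have h5 := dvd_sub h4 ha1
    rw [add_sub_add_left_eq_sub] at h5
    exact (Cs_dvd_iff s (Finset.mem_range.1 ha) ha0).1 h5
  · intro h6
    exact absurd (Finset.mem_range.2 ha0) h6

private theorem Cs_expand (s : ℕ) (x : K1 p) : (PowerSeries.X : K1 p) ^ (p ^ s) ∣
    x - ∑ a ∈ Finset.range (p ^ s), cs s (tpow (-(a : ℤ_[p])) * x) • tpow (a : ℤ_[p]) := by
  apply dvd_of_cs
  intro n
  rw [mul_sub, Cs_sub, Cs_tpow_mul_nat, Finset.mul_sum, Cs_sum, sub_eq_zero]
  refine Finset.sum_congr rfl fun a _ => ?_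
  rw [mul_smul_comm, cs_smul, tpow_nat]

/-- (P5) -/
theorem cs_mul (s : ℕ) (x y : K1 p) : cs s (x * y) = ∑ c ∈ Finset.range (p ^ s),
    cs s (tpow (-(c : ℤ_[p])) * x) * cs s (tpow (c : ℤ_[p]) * y) := by
  have h1 := Cs_congr s (x * y)
    ((∑ a ∈ Finset.range (p ^ s), cs s (tpow (-(a : ℤ_[p])) * x) • tpow (a : ℤ_[p])) * y) (by
      rw [← sub_mul]
      exact Dvd.dvd.mul_right (Cs_expand s x) y)
  rw [h1, Finset.sum_mul, Cs_sum]
  refine Finset.sum_congr rfl fun a _ => ?_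
  rw [smul_mul_assoc, cs_smul]

/-- `∑_{c < p^s} t ^ c = T ^ (p^s - 1)`. -/
theorem sum_tpow (s : ℕ) : ∑ c ∈ Finset.range (p ^ s), (tpow (c : ℤ_[p]) : K1 p) =
    PowerSeries.X ^ (p ^ s - 1) := by
  have h1 : (PowerSeries.X : K1 p) * ∑ c ∈ Finset.range (p ^ s), (tpow (c : ℤ_[p]) : K1 p) =
      PowerSeries.X * PowerSeries.X ^ (p ^ s - 1) := by
    rw [← pow_succ', Nat.sub_add_cancel (Cs_pos s)]
    have h2 := mul_geom_sum (1 + PowerSeries.X : K1 p) (p ^ s)
    have h3 : redP (wm s : ZT p) = (1 + PowerSeries.X) ^ (p ^ s) - 1 := by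
      unfold wm redP
      rw [map_sub, map_pow, map_add, map_one, PowerSeries.map_X]
    rw [← h3, redP_wm, add_sub_cancel_left] at h2
    rw [← h2]
    congr 1
    exact Finset.sum_congr rfl fun c _ => tpow_nat c
  exact mul_left_cancel₀ PowerSeries.X_ne_zero h1

/-- Values on exponents prescribed modulo `p ^ s`. -/
theorem cs_interp (s : ℕ) (v : ℕ → ZMod p) :
    ∀ z < p ^ s, cs s (tpow (z : ℤ_[p]) *
      ∑ c ∈ Finset.range (p ^ s), v c • tpow (-(c : ℤ_[p]))) = v z := by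
  classical
  intro z hz
  rw [Finset.mul_sum, Cs_sum, Finset.sum_eq_single z]
  · rw [mul_smul_comm, cs_smul, ← tpow_add, add_neg_cancel, cs_tpow, if_pos (dvd_zero _), mul_one]
  · intro c hc hne
    rw [mul_smul_comm, cs_smul, ← tpow_add, cs_tpow, if_neg, mul_zero]
    intro h1
    rw [← sub_eq_add_neg] at h1
    exact hne ((Cs_dvd_iff s hz (Finset.mem_range.1 hc)).1 h1).symm
  · intro h
    exact absurd (Finset.mem_range.2 hz) h

end D687
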