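import Pool.Agent.Lib_MP_d687bf.CAct
import Pool.Agent.Lib_MP_d687bf.CReps
import Pool.Agent.Lib_MP_d687bf.Cs

/-!
MP_d687bf, C9: (2.5). `λ ∈ X(V)`, `W = {v ∈ V | p^m ∣ λ v}`, `t ↦ c_m ∘ t : C_V(k[[T]]_λ) → C_W(k)`.

Surjectivity: if `p^m ∣ λ v` for all `v ∈ V` (in particular `λ = 0` on `V`) then `W = V`, take
`t i g = t' i g • 1` at representatives. Otherwise `λ(V) = p^j ℤ_p` with `j < m`, `λ y = p^j`,
`x_l = ∑_{z < p^(m-j)} t'(y^z g_l) t^(-p^j z)` (`CV_exists`).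
-/

set_option autoImplicit false

open Set Filter Topology

namespace D687

variable {p : ℕ} [Fact p.Prime] {D : Datum p} {V W : Subgroup (FF p)} {l : FF p → ℤ_[p]} {m : ℕ}

/-- The set of multiples of `p ^ m` is open. -/
private theorem BddB_isOpen (m : ℕ) : IsOpen {z : ℤ_[p] | (p : ℤ_[p]) ^ m ∣ z} := by
  have h1 : {z : ℤ_[p] | (p : ℤ_[p]) ^ m ∣ z} =
      Metric.closedBall (0 : ℤ_[p]) ((p : ℝ) ^ (-(m : ℤ))) := by
    ext z
    rw [mem_setOf_eq, mem_closedBall_zero_iff, PadicInt.norm_le_pow_iff_mem_span_pow,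
      Ideal.mem_span_singleton]
  rw [h1]
  have hp : (0 : ℝ) < p := by exact_mod_cast (Fact.out : p.Prime).pos
  exact IsUltrametricDist.isOpen_closedBall _ (zpow_pos hp _).ne'

private theorem BddB_W_open (hV : IsOpen (V : Set (FF p))) (hl : IsX D V l)
    (hW : ∀ v, v ∈ W ↔ v ∈ V ∧ (p : ℤ_[p]) ^ m ∣ l v) : IsOpen (W : Set (FF p)) := by
  have h1 : (W : Set (FF p)) = (V : Set (FF p)) ∩ l ⁻¹' {z : ℤ_[p] | (p : ℤ_[p]) ^ m ∣ z} := by
    ext v
    exact hW v
  rw [h1]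
  exact hl.cont.isOpen_inter_preimage hV (BddB_isOpen m)

private theorem BddB_R_le (hR : D.R ≤ V) (hl : IsX D V l)
    (hW : ∀ v, v ∈ W ↔ v ∈ V ∧ (p : ℤ_[p]) ^ m ∣ l v) : D.R ≤ W := by
  intro x hx
  rw [hW, hl.triv x hx]
  exact ⟨hR hx, dvd_zero _⟩

/-- the level subgroup exists and is open -/
theorem exists_level (hV : IsOpen (V : Set (FF p))) (hR : D.R ≤ V) (hl : IsX D V l) (m : ℕ) :
    ∃ W : Subgroup (FF p), (∀ v, v ∈ W ↔ v ∈ V ∧ (p : ℤ_[p]) ^ m ∣ l v) ∧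
      IsOpen (W : Set (FF p)) ∧ D.R ≤ W ∧ W ≤ V := by
  let W : Subgroup (FF p) :=
    { carrier := {v | v ∈ V ∧ (p : ℤ_[p]) ^ m ∣ l v}
      mul_mem' := by
        rintro a b ⟨ha, ha'⟩ ⟨hb, hb'⟩
        refine ⟨V.mul_mem ha hb, ?_⟩
        rw [hl.add a ha b hb]
        exact dvd_add ha' hb'
      one_mem' := by
        refine ⟨V.one_mem, ?_⟩
        rw [hl.one_eq]
        exact dvd_zero _
      inv_mem' := by
        rintro a ⟨ha, ha'⟩
        refine ⟨V.inv_mem ha, ?_⟩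
        rw [hl.inv_eq ha]
        exact (dvd_neg).mpr ha' }
  have hW : ∀ v, v ∈ W ↔ v ∈ V ∧ (p : ℤ_[p]) ^ m ∣ l v := fun v => Iff.rfl
  exact ⟨W, hW, BddB_W_open hV hl hW, BddB_R_le hR hl hW, fun v hv => ((hW v).1 hv).1⟩

theorem cs_mem_Ck (hl : IsX D V l) (hW : ∀ v, v ∈ W ↔ v ∈ V ∧ (p : ℤ_[p]) ^ m ∣ l v)
    {t : Fin D.n → FF p → K1 p} (ht : t ∈ CV D V (scal (chr l))) :
    (fun i g => cs m (t i g)) ∈ Ck D W := by
  refine ⟨fun i v hv g => ?_, fun i g => ?_⟩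
  · obtain ⟨hvV, hvm⟩ := (hW v).1 hv
    change cs m (t i (v * g)) = cs m (t i g)
    rw [ht.1 i v hvV g]
    change cs m (chr l v • t i g) = cs m (t i g)
    rw [smul_eq_mul]
    exact cs_tpow_mul m (l v) hvm (t i g)
  · change cs m (t i (g * D.ω i)) = cs m (t i g)
    rw [ht.2 i g]

theorem cs_mem_Hk (hV : IsOpen (V : Set (FF p))) (hl : IsX D V l)
    (hW : ∀ v, v ∈ W ↔ v ∈ V ∧ (p : ℤ_[p]) ^ m ∣ l v)
    {α : FF p → K1 p} (hα : α ∈ Z1 V (scal (chr l))) :
    res W (fun x => cs m (α x)) ∈ Hk (p := p) W := by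
  have hWo := BddB_W_open hV hl hW
  have hWc : IsClosed (W : Set (FF p)) := Subgroup.isClosed_of_isOpen W hWo
  refine ⟨?_, fun x hx => ?_, fun g hg h hh => ?_⟩
  · unfold res
    refine Continuous.indicator (fun x hx => ?_) ((continuous_cs m).comp hα.cont)
    have h1 : IsClopen (W : Set (FF p)) := ⟨hWc, hWo⟩
    rw [h1.frontier_eq] at hx
    exact absurd hx (notMem_empty x)
  · exact Set.indicator_of_notMem hx _
  · have h1 : res W (fun x => cs m (α x)) (g * h) = cs m (α (g * h)) :=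
      Set.indicator_of_mem (W.mul_mem hg hh) _
    have h2 : res W (fun x => cs m (α x)) g = cs m (α g) := Set.indicator_of_mem hg _
    have h3 : res W (fun x => cs m (α x)) h = cs m (α h) := Set.indicator_of_mem hh _
    obtain ⟨hgV, hgm⟩ := (hW g).1 hg
    obtain ⟨hhV, hhm⟩ := (hW h).1 hh
    change res W (fun x => cs m (α x)) (g * h) = res W (fun x => cs m (α x)) g +
      res W (fun x => cs m (α x)) h
    rw [h1, h2, h3, hα.mul g hgV h hhV, cs_add]
    congr 1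
    change cs m (chr l g • α h) = cs m (α h)
    rw [smul_eq_mul]
    exact cs_tpow_mul m (l g) hgm (α h)

theorem cs_mem_HH (hV : IsOpen (V : Set (FF p))) (hR : D.R ≤ V) (hl : IsX D V l)
    (hW : ∀ v, v ∈ W ↔ v ∈ V ∧ (p : ℤ_[p]) ^ m ∣ l v)
    {α : FF p → K1 p} (hα : α ∈ ZR D V (scal (chr l))) :
    res W (fun x => cs m (α x)) ∈ HH D W := by
  obtain ⟨h1, h2⟩ := mem_ZR_iff_ev.1 hα
  rw [mem_ZR_iff_ev]
  refine ⟨cs_mem_Hk hV hl hW h1, ?_⟩
  rw [ev_res (BddB_R_le hR hl hW)]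
  funext i g
  have h3 : ev D α i g = 0 := by rw [h2]; rfl
  change cs m (ev D α i g) = 0
  rw [h3, cs_zero]

private theorem BddB_dvd_iff (m : ℕ) (z : ℤ_[p]) :
    PadicInt.toZModPow m z = 0 ↔ (p : ℤ_[p]) ^ m ∣ z := by
  rw [← RingHom.mem_ker, PadicInt.ker_toZModPow, Ideal.mem_span_singleton]

/-- A generator of `λ(V)` modulo `p ^ m`. -/
private theorem BddB_gen (hl : IsX D V l) (m : ℕ) : ∃ y ∈ V, ∃ N : ℕ,
    (∀ a < N, ∀ b < N, (p : ℤ_[p]) ^ m ∣ (a : ℤ_[p]) * l y - (b : ℤ_[p]) * l y → a = b) ∧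
    ∀ v ∈ V, ∃ z < N, (p : ℤ_[p]) ^ m ∣ l v - (z : ℤ_[p]) * l y := by
  classical
  have hne : NeZero (p ^ m) := ⟨pow_ne_zero _ (Fact.out : p.Prime).ne_zero⟩
  let f : Additive V →+ ZMod (p ^ m) := AddMonoidHom.mk'
    (fun v => PadicInt.toZModPow m (l ((Additive.toMul v : V) : FF p))) (by
      intro a b
      rw [← map_add]
      congr 1
      exact hl.add _ (Additive.toMul a).2 _ (Additive.toMul b).2)
  obtain ⟨g, hg⟩ := IsAddCyclic.exists_generator (α := f.range)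
  obtain ⟨g, y, rfl⟩ := g
  refine ⟨((Additive.toMul y : V) : FF p), (Additive.toMul y).2,
    addOrderOf (⟨f y, ⟨y, rfl⟩⟩ : f.range), fun a ha b hb hab => ?_, fun v hv => ?_⟩
  · rw [← BddB_dvd_iff, map_sub, map_mul, map_mul, map_natCast, map_natCast, sub_eq_zero] at hab
    refine nsmul_injOn_Iio_addOrderOf ha hb (Subtype.ext ?_)
    change a • f y = b • f y
    rw [nsmul_eq_mul, nsmul_eq_mul]
    exact hab
  · have h1 := hg ⟨f (Additive.ofMul ⟨v, hv⟩), ⟨_, rfl⟩⟩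
    rw [mem_zmultiples_iff_mem_range_addOrderOf, Finset.mem_image] at h1
    obtain ⟨z, hz, hz2⟩ := h1
    refine ⟨z, Finset.mem_range.1 hz, ?_⟩
    rw [← BddB_dvd_iff, map_sub, map_mul, map_natCast, sub_eq_zero]
    have h2 := congrArg Subtype.val hz2
    change z • f y = f (Additive.ofMul ⟨v, hv⟩) at h2
    rw [nsmul_eq_mul] at h2
    exact h2.symm

private theorem BddB_sum {ι : Type} (s : ℕ) (I : Finset ι) (f : ι → K1 p) :
    cs s (∑ i ∈ I, f i) = ∑ i ∈ I, cs s (f i) := by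
  classical
  induction I using Finset.induction_on with
  | empty => simp only [Finset.sum_empty, cs_zero]
  | insert i I hi ih => rw [Finset.sum_insert hi, Finset.sum_insert hi, cs_add, ih]

private theorem BddB_zpow {M : Type} {t : Fin D.n → FF p → M}
    (h : ∀ i g, t i (g * D.ω i) = t i g) (i : Fin D.n) (g : FF p) (e : ℤ) :
    t i (g * D.ω i ^ e) = t i g := by
  induction e using Int.induction_on with
  | zero => rw [zpow_zero, mul_one]
  | succ e ih => rw [zpow_add_one, ← mul_assoc, h, ih]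
  | pred e ih =>
    rw [← h i (g * D.ω i ^ (-(e : ℤ) - 1)), mul_assoc, ← zpow_add_one, sub_add_cancel, ih]

theorem cs_Ck_surj (hadm : Adm D V) (hl : IsX D V l)
    (hW : ∀ v, v ∈ W ↔ v ∈ V ∧ (p : ℤ_[p]) ^ m ∣ l v)
    {t' : Fin D.n → FF p → ZMod p} (ht : t' ∈ Ck D W) :
    ∃ t ∈ CV D V (scal (chr l)), ∀ i g, cs m (t i g) = t' i g := by
  classical
  obtain ⟨y, hy, N, hinj, hgen⟩ := BddB_gen hl m
  obtain ⟨q, ri, rg, hr⟩ := exists_reps D V hadm.isOpen
  have hact : IsActR D V (scal (chr l) : FF p → K1 p →ₗ[K1 p] K1 p) := hl.isChar_chr.isActR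
  obtain ⟨t, ht1, ht2⟩ := CV_exists hadm hr hact (fun j => ∑ z ∈ Finset.range N,
    t' (ri j) (y ^ z * rg j) • (tpow (-((z : ℤ_[p]) * l y)) : K1 p))
  refine ⟨t, ht1, fun i g => ?_⟩
  obtain ⟨j, rfl, v, hv, e, rfl⟩ := hr.ex i g
  rw [BddB_zpow ht1.2, BddB_zpow ht.2, ht1.1 _ v hv, ht2 j]
  change cs m (chr l v • _) = _
  rw [LinearMap.id_apply, smul_eq_mul]
  obtain ⟨z0, hz0, hz1⟩ := hgen v hv
  -- the left side
  have h1 : chr l v = tpow (l v - (z0 : ℤ_[p]) * l y) * tpow ((z0 : ℤ_[p]) * l y) := by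
    rw [← tpow_add, sub_add_cancel]
    rfl
  rw [h1, mul_assoc, cs_tpow_mul m _ hz1, Finset.mul_sum, BddB_sum,
    Finset.sum_eq_single z0]
  · rw [mul_smul_comm, cs_smul, ← tpow_add, add_neg_cancel, cs_tpow, if_pos (dvd_zero _), mul_one]
    -- the right side
    have hyz : y ^ z0 ∈ V := V.pow_mem hy z0
    have hw : v * (y ^ z0)⁻¹ ∈ W := by
      rw [hW]
      refine ⟨V.mul_mem hv (V.inv_mem hyz), ?_⟩
      rw [hl.add v hv _ (V.inv_mem hyz), hl.inv_eq hyz, hl.pow_eq hy, ← sub_eq_add_neg]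
      exact hz1
    have h2 := ht.1 (ri j) _ hw (y ^ z0 * rg j)
    rw [← mul_assoc, inv_mul_cancel_right] at h2
    exact h2.symm
  · intro z hz hne
    rw [mul_smul_comm, cs_smul, ← tpow_add, cs_tpow, if_neg, mul_zero]
    rw [← sub_eq_add_neg]
    intro h3
    exact hne (hinj z0 hz0 z (Finset.mem_range.1 hz) h3).symm
  · intro h3
    exact absurd (Finset.mem_range.2 hz0) h3

/-- (2.5): the numbers `b(V_m)` are bounded, if a power of `T` kills `T_V(k[[T]]_λ)`: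
`T_{V_m}(k)` is the image of `C_V(k[[T]]_λ) / T^n`, of dimension `n q`. -/
theorem exists_bound_bV (hadm : Adm D V) (hl : IsX D V l) {n : ℕ}
    (hk : Kills D V (scal (chr l)) ((PowerSeries.X : K1 p) ^ n)) :
    ∃ B : ℕ, ∀ (m : ℕ) (W : Subgroup (FF p)),
      (∀ v, v ∈ W ↔ v ∈ V ∧ (p : ℤ_[p]) ^ m ∣ l v) → bV D W ≤ B := by
  classical
  obtain ⟨q, ri, rg, hr⟩ := exists_reps D V hadm.isOpen
  have hact : IsActR D V (scal (chr l) : FF p → K1 p →ₗ[K1 p] K1 p) := hl.isChar_chr.isActR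
  obtain ⟨e, -⟩ := exists_CV_equiv hadm hr hact
  refine ⟨q * n, fun m W hW => ?_⟩
  let P : (Fin q → Fin n → ZMod p) → (Fin q → K1 p) :=
    fun c j => ∑ k : Fin n, c j k • (PowerSeries.X : K1 p) ^ (k : ℕ)
  have hP : ∀ c c', P (c + c') = P c + P c' := by
    intro c c'
    funext j
    change ∑ k : Fin n, (c j k + c' j k) • (PowerSeries.X : K1 p) ^ (k : ℕ) = _
    simp only [add_smul, Finset.sum_add_distrib]
    rfl
  let T : (Fin q → K1 p) → Ck D W := fun x =>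
    ⟨fun i g => cs m ((e.symm x : Fin D.n → FF p → K1 p) i g), cs_mem_Ck hl hW (e.symm x).2⟩
  have hT : ∀ x x', T (x + x') = T x + T x' := by
    intro x x'
    apply Subtype.ext
    funext i g
    change cs m ((e.symm (x + x') : Fin D.n → FF p → K1 p) i g) =
      cs m ((e.symm x : Fin D.n → FF p → K1 p) i g) +
        cs m ((e.symm x' : Fin D.n → FF p → K1 p) i g)
    rw [map_add, ← cs_add]
    rfl
  let f : (Fin q → Fin n → ZMod p) →+ TV D W := AddMonoidHom.mk'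
    (fun c => Submodule.Quotient.mk (T (P c))) (by
      intro c c'
      rw [hP, hT, Submodule.Quotient.mk_add])
  have hsurj : Function.Surjective (f.toZModLinearMap p) := by
    intro τ
    obtain ⟨τ, rfl⟩ := Submodule.Quotient.mk_surjective _ τ
    obtain ⟨t, ht, hts⟩ := cs_Ck_surj hadm hl hW τ.2
    let c : Fin q → Fin n → ZMod p := fun j k => PowerSeries.coeff (k : ℕ) (e ⟨t, ht⟩ j)
    have hdvd : ∀ j, (PowerSeries.X : K1 p) ^ n ∣ e ⟨t, ht⟩ j - P c j := by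
      intro j
      rw [PowerSeries.X_pow_dvd_iff]
      intro k hk
      rw [map_sub, sub_eq_zero]
      change _ = PowerSeries.coeff k (∑ k : Fin n, c j k • (PowerSeries.X : K1 p) ^ (k : ℕ))
      rw [map_sum, Finset.sum_eq_single ⟨k, hk⟩]
      · rw [PowerSeries.coeff_smul, PowerSeries.coeff_X_pow_self, smul_eq_mul, mul_one]
      · intro k' _ hne
        rw [PowerSeries.coeff_smul, PowerSeries.coeff_X_pow, if_neg, smul_zero]
        intro h
        exact hne (Fin.ext h.symm)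
      · intro h
        exact absurd (Finset.mem_univ _) h
    choose F hF using hdvd
    have hE : e ⟨t, ht⟩ = P c + (PowerSeries.X : K1 p) ^ n • F := by
      funext j
      have := hF j
      rw [sub_eq_iff_eq_add] at this
      rw [this]
      change _ = P c j + PowerSeries.X ^ n * F j
      ring
    have hE2 : (⟨t, ht⟩ : CV D V (scal (chr l))) =
        e.symm (P c) + (PowerSeries.X : K1 p) ^ n • e.symm F := by
      rw [← map_smul, ← map_add, ← hE, LinearEquiv.symm_apply_apply]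
    obtain ⟨α, hα, hα2⟩ := hk _ (e.symm F).2
    refine ⟨c, ?_⟩
    change (Submodule.Quotient.mk (T (P c)) : TV D W) = Submodule.Quotient.mk τ
    symm
    rw [Submodule.Quotient.eq]
    change ((τ - T (P c) : Ck D W) : Fin D.n → FF p → ZMod p) ∈ (Hk W).map
      (evL (ZMod p) (ZMod p) D)
    refine ⟨res W (fun x => cs m (α x)), cs_mem_Hk hadm.isOpen hl hW hα, ?_⟩
    change ev D (res W (fun x => cs m (α x))) = _
    rw [ev_res (BddB_R_le hadm.hR hl hW)]
    funext i g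
    change cs m (ev D α i g) = (τ : Fin D.n → FF p → ZMod p) i g -
      cs m ((e.symm (P c) : Fin D.n → FF p → K1 p) i g)
    rw [hα2, ← hts i g, eq_sub_iff_add_eq, ← cs_add]
    congr 1
    have h5 := congrArg (fun u : CV D V (scal (chr l)) => (u : Fin D.n → FF p → K1 p) i g) hE2
    change t i g = (e.symm (P c) : Fin D.n → FF p → K1 p) i g +
      ((PowerSeries.X : K1 p) ^ n • (e.symm F : Fin D.n → FF p → K1 p)) i g at h5
    rw [h5, add_comm]
  unfold bV
  have h6 := LinearMap.finrank_range_le (f.toZModLinearMap p)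
  rw [LinearMap.range_eq_top.2 hsurj, finrank_top] at h6
  refine h6.trans (le_of_eq ?_)
  rw [Module.finrank_pi_fintype]
  simp

end D687
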