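import Pool.Agent.Lib_MP_d687bf.UniversalProf
import Pool.Agent.Lib_MP_d687bf.Rings

/-!
MP_d687bf, A5: (1.2) LIFT.

Proof. Let `b` be a basis of `V` (`exists_basisFin`). `E := M × V` with
`(m, g)(m', g') = (m + g m', g g')` (define a structure for it) is a profinite group; it is pro-`p`
(an open normal subgroup of index `n`: the image of `M` is a finite quotient of `M`, hence of
`p`-power order by `pnil`, and the quotient by it is a finite quotient of `V`). Choose `m_i` with
`π m_i = β (b i)` and let `φ : V → E` be the hom with `b i ↦ (m_i, b i)`. Its second component is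
the identity (`hom_prof_unique` for the pro-`p` group `V`), its first component `α` is a continuous
crossed hom, and `π ∘ α = β` (uniqueness for `M'' ⋊ V`, or: the set `{x ∈ V | π (α x) = β x}` is a
closed subgroup-like set containing the `b i`; use the uniqueness statement for the homs
`x ↦ (π (α x), x)`, `x ↦ (β x, x)`; `M''` is compact, totally disconnected and pro-`p` as the
continuous image of `M`: replace the target by `M / ker π` if necessary, or choose `M''` directly).
-/

set_option autoImplicit false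

open Set Filter Topology

namespace D687

variable {p : ℕ} [Fact p.Prime]

section semidirect

/-- the hypotheses on an action of `V` -/
structure Lift_A (V : Subgroup (FF p)) {M : Type} [AddCommGroup M] [TopologicalSpace M]
    (act : FF p → M → M) : Prop where
  isOpen : IsOpen (V : Set (FF p))
  one : ∀ m, act 1 m = m
  add : ∀ g ∈ V, ∀ m m', act g (m + m') = act g m + act g m'
  mul : ∀ g ∈ V, ∀ h ∈ V, ∀ m, act (g * h) m = act g (act h m)
  cont : ContinuousOn (fun x : FF p × M => act x.1 x.2) ((V : Set (FF p)) ×ˢ (univ : Set M))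

variable {V : Subgroup (FF p)} {M : Type} [AddCommGroup M] [TopologicalSpace M]
  {act : FF p → M → M}

omit [Fact p.Prime] in
theorem Lift_A.zero (h : Lift_A V act) {g : FF p} (hg : g ∈ V) : act g 0 = 0 := by
  have h1 := h.add g hg 0 0
  rw [add_zero] at h1
  exact left_eq_add.1 h1

/-- the semidirect product `M ⋊ V` -/
def Lift_E (_ : Lift_A V act) : Type := M × V

omit [Fact p.Prime] in
private theorem Lift_ext {h : Lift_A V act} {x y : Lift_E h} (h1 : x.1 = y.1)
    (h2 : x.2 = y.2) : x = y := Prod.ext h1 h2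

instance Lift_mul (h : Lift_A V act) : Mul (Lift_E h) :=
  ⟨fun x y => (x.1 + act x.2.1 y.1, x.2 * y.2)⟩

instance Lift_one (h : Lift_A V act) : One (Lift_E h) := ⟨(0, 1)⟩

instance Lift_inv (h : Lift_A V act) : Inv (Lift_E h) :=
  ⟨fun x => (-act (x.2⁻¹).1 x.1, x.2⁻¹)⟩

omit [Fact p.Prime] in
private theorem Lift_mul1 {h : Lift_A V act} (x y : Lift_E h) :
    (x * y).1 = x.1 + act x.2.1 y.1 := rfl

omit [Fact p.Prime] in
private theorem Lift_mul2 {h : Lift_A V act} (x y : Lift_E h) : (x * y).2 = x.2 * y.2 := rfl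

omit [Fact p.Prime] in
private theorem Lift_one1 {h : Lift_A V act} : (1 : Lift_E h).1 = 0 := rfl

omit [Fact p.Prime] in
private theorem Lift_one2 {h : Lift_A V act} : (1 : Lift_E h).2 = 1 := rfl

instance Lift_group (h : Lift_A V act) : Group (Lift_E h) :=
  Group.ofLeftAxioms
    (fun x y z => Lift_ext (by
      rw [Lift_mul1, Lift_mul1, Lift_mul1, Lift_mul1, Lift_mul2, h.add _ x.2.2, add_assoc,
        Subgroup.coe_mul, h.mul _ x.2.2 _ y.2.2]) (mul_assoc x.2 y.2 z.2))
    (fun x => Lift_ext (by
      rw [Lift_mul1, Lift_one1, Lift_one2, zero_add, Subgroup.coe_one, h.one]) (one_mul x.2))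
    (fun x => Lift_ext (neg_add_cancel (act (x.2⁻¹).1 x.1)) (inv_mul_cancel x.2))

instance Lift_top (h : Lift_A V act) : TopologicalSpace (Lift_E h) :=
  inferInstanceAs (TopologicalSpace (M × V))

/-- the element `(m, g)` of the semidirect product -/
private def Lift_mk (h : Lift_A V act) (m : M) (g : V) : Lift_E h := (m, g)

omit [Fact p.Prime] in
private theorem Lift_cont1 {h : Lift_A V act} : Continuous fun x : Lift_E h => x.1 :=
  (continuous_fst : Continuous fun x : M × V => x.1)

omit [Fact p.Prime] in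
private theorem Lift_cont2 {h : Lift_A V act} : Continuous fun x : Lift_E h => x.2 :=
  (continuous_snd : Continuous fun x : M × V => x.2)

omit [Fact p.Prime] in
private theorem Lift_contmk (h : Lift_A V act) {X : Type} [TopologicalSpace X] {f : X → M}
    {g : X → V} (hf : Continuous f) (hg : Continuous g) :
    Continuous fun x => Lift_mk h (f x) (g x) :=
  (hf.prodMk hg : Continuous fun x => ((f x, g x) : M × V))

omit [Fact p.Prime] in
private theorem Lift_contact (h : Lift_A V act) {X : Type} [TopologicalSpace X] {f : X → M}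
    {g : X → V} (hf : Continuous f) (hg : Continuous g) :
    Continuous fun x => act (g x).1 (f x) :=
  h.cont.comp_continuous ((continuous_subtype_val.comp hg).prodMk hf)
    fun x => ⟨(g x).2, mem_univ _⟩

instance Lift_topgroup [IsTopologicalAddGroup M] (h : Lift_A V act) :
    IsTopologicalGroup (Lift_E h) where
  continuous_mul := by
    have h1 : Continuous fun x : Lift_E h × Lift_E h => x.1.1 := Lift_cont1.comp continuous_fst
    have h2 : Continuous fun x : Lift_E h × Lift_E h => x.1.2 := Lift_cont2.comp continuous_fst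
    have h3 : Continuous fun x : Lift_E h × Lift_E h => x.2.1 := Lift_cont1.comp continuous_snd
    have h4 : Continuous fun x : Lift_E h × Lift_E h => x.2.2 := Lift_cont2.comp continuous_snd
    exact Lift_contmk h (h1.add (Lift_contact h h3 h2)) (h2.mul h4)
  continuous_inv := by
    have h1 : Continuous fun x : Lift_E h => x.1 := Lift_cont1
    have h2 : Continuous fun x : Lift_E h => x.2⁻¹ := Lift_cont2.inv
    exact Lift_contmk h (Lift_contact h h1 h2).neg h2

instance Lift_compact [CompactSpace M] (h : Lift_A V act) : CompactSpace (Lift_E h) := by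
  have h1 : IsClosed (V : Set (FF p)) := V.isClosed_of_isOpen h.isOpen
  have h2 : CompactSpace V := isCompact_iff_compactSpace.1 h1.isCompact
  exact inferInstanceAs (CompactSpace (M × V))

instance Lift_t2 [T2Space M] (h : Lift_A V act) : T2Space (Lift_E h) :=
  inferInstanceAs (T2Space (M × V))

instance Lift_td [TotallyDisconnectedSpace M] (h : Lift_A V act) :
    TotallyDisconnectedSpace (Lift_E h) :=
  inferInstanceAs (TotallyDisconnectedSpace (M × V))

/-- the inclusion of `M` -/
private def Lift_inM (h : Lift_A V act) : Multiplicative M →* Lift_E h where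
  toFun m := (m.toAdd, 1)
  map_one' := rfl
  map_mul' m m' := Lift_ext (by
    rw [Lift_mul1]
    change m.toAdd + m'.toAdd = m.toAdd + act 1 m'.toAdd
    rw [h.one]) (mul_one 1).symm

/-- the inclusion of `V` -/
private def Lift_inV (h : Lift_A V act) : V →* Lift_E h where
  toFun g := (0, g)
  map_one' := rfl
  map_mul' g g' := Lift_ext (by
    rw [Lift_mul1]
    change (0 : M) = 0 + act g.1 0
    rw [h.zero g.2, add_zero]) rfl

/-- the projection to `V` -/
private def Lift_pr (h : Lift_A V act) : Lift_E h →* V where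
  toFun x := x.2
  map_one' := rfl
  map_mul' _ _ := rfl

/-- the semidirect product is pro-`p` -/
private theorem Lift_prop [ProPMod p M] (h : Lift_A V act) (N : Subgroup (Lift_E h))
    (hN : N.Normal) (hNo : IsOpen (N : Set (Lift_E h))) : ∃ n : ℕ, N.index = p ^ n := by
  have hfin : Finite (Lift_E h ⧸ N) := N.quotient_finite_of_isOpen hNo
  have hp : IsPGroup p (Lift_E h ⧸ N) := by
    intro q
    obtain ⟨x, rfl⟩ := QuotientGroup.mk_surjective q
    -- the `V`-part
    have hcV : Continuous (Lift_inV h) := Lift_contmk h continuous_const continuous_id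
    let O : Subgroup (FF p) := (N.comap (Lift_inV h)).map V.subtype
    have hO : IsOpen (O : Set (FF p)) := by
      have h1 : IsOpen ((N.comap (Lift_inV h) : Subgroup V) : Set V) := hNo.preimage hcV
      have h2 : (O : Set (FF p)) = Subtype.val '' ((N.comap (Lift_inV h) : Subgroup V) : Set V) :=
        Subgroup.coe_map _ _
      rw [h2]
      exact h.isOpen.isOpenMap_subtype_val _ h1
    obtain ⟨K, hK, hKo, hKO⟩ := exists_normal_sub (O : Set (FF p)) hO O.one_mem
    obtain ⟨n, hn⟩ := index_open K hKo
    have hxn : x.2.1 ^ (p ^ n) ∈ O := by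
      have h1 := K.pow_index_mem x.2.1
      rw [hn] at h1
      exact hKO h1
    obtain ⟨g, hg, hg2⟩ := hxn
    have hg3 : g = x.2 ^ (p ^ n) := Subtype.ext hg2
    rw [hg3] at hg
    -- the `M`-part
    have hx1 : ∃ m : M, (x ^ (p ^ n) : Lift_E h) =
        Lift_inM h (Multiplicative.ofAdd m) * Lift_inV h (x.2 ^ (p ^ n)) := by
      refine ⟨(x ^ (p ^ n)).1, Lift_ext ?_ ?_⟩
      · rw [Lift_mul1]
        change (x ^ (p ^ n)).1 = (x ^ (p ^ n)).1 + act 1 0
        rw [h.one, add_zero]
      · rw [Lift_mul2]
        change Lift_pr h (x ^ (p ^ n)) = 1 * x.2 ^ (p ^ n)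
        rw [map_pow, one_mul]
        rfl
    obtain ⟨m, hm⟩ := hx1
    have hcM : Continuous fun m : M => Lift_inM h (Multiplicative.ofAdd m) :=
      Lift_contmk h continuous_id continuous_const
    have hM : IsOpen ((fun m : M => Lift_inM h (Multiplicative.ofAdd m)) ⁻¹' (N : Set _)) :=
      hNo.preimage hcM
    have h0 : (0 : M) ∈ (fun m : M => Lift_inM h (Multiplicative.ofAdd m)) ⁻¹' (N : Set _) := by
      change Lift_inM h (Multiplicative.ofAdd 0) ∈ N
      rw [ofAdd_zero, map_one]
      exact N.one_mem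
    obtain ⟨k, hk⟩ := ((ProPMod.pnil (p := p) m).eventually (hM.mem_nhds h0)).exists
    have hk2 : Lift_inM h (Multiplicative.ofAdd m) ^ (p ^ k) ∈ N := by
      rw [← map_pow, ← ofAdd_nsmul]
      exact hk
    refine ⟨n + k, ?_⟩
    have h3 : ((x : Lift_E h) : Lift_E h ⧸ N) ^ (p ^ n) =
        ((Lift_inM h (Multiplicative.ofAdd m) : Lift_E h) : Lift_E h ⧸ N) := by
      rw [← QuotientGroup.mk_pow, hm, QuotientGroup.mk_mul,
        (QuotientGroup.eq_one_iff (Lift_inV h (x.2 ^ (p ^ n)))).2 hg, mul_one]
    rw [pow_add, pow_mul, h3, ← QuotientGroup.mk_pow]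
    exact (QuotientGroup.eq_one_iff _).2 hk2
  obtain ⟨n, hn⟩ := IsPGroup.iff_card.1 hp
  exact ⟨n, hn⟩

end semidirect

/-- (1.2) -/
theorem exists_lift (V : Subgroup (FF p)) (hV : IsOpen (V : Set (FF p)))
    {M M'' : Type} [AddCommGroup M] [TopologicalSpace M] [ProPMod p M]
    [AddCommGroup M''] [TopologicalSpace M''] [ProPMod p M'']
    (act : FF p → M → M) (act'' : FF p → M'' → M'')
    (h1 : ∀ m, act 1 m = m) (hadd : ∀ g ∈ V, ∀ m m', act g (m + m') = act g m + act g m')
    (hmul : ∀ g ∈ V, ∀ h ∈ V, ∀ m, act (g * h) m = act g (act h m))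
    (hcont : ContinuousOn (fun x : FF p × M => act x.1 x.2) ((V : Set (FF p)) ×ˢ (univ : Set M)))
    (π : M →+ M'') (hπc : Continuous π) (hπs : Function.Surjective π)
    (heq : ∀ g ∈ V, ∀ m, π (act g m) = act'' g (π m))
    (β : FF p → M'') (hβ : IsZ V act'' β) :
    ∃ α : FF p → M, IsZ V act α ∧ ∀ x, π (α x) = β x := by
  classical
  have hA : Lift_A V act := ⟨hV, h1, hadd, hmul, hcont⟩
  -- the action on the quotient
  have hA'' : Lift_A V act'' := by
    refine ⟨hV, fun m => ?_, fun g hg m m' => ?_, fun g hg h hh m => ?_, ?_⟩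
    · obtain ⟨m, rfl⟩ := hπs m
      rw [← heq 1 V.one_mem, h1]
    · obtain ⟨m, rfl⟩ := hπs m
      obtain ⟨m', rfl⟩ := hπs m'
      rw [← map_add, ← heq g hg, ← heq g hg, ← heq g hg, hadd g hg, map_add]
    · obtain ⟨m, rfl⟩ := hπs m
      rw [← heq _ (V.mul_mem hg hh), ← heq h hh, ← heq g hg, hmul g hg h hh]
    · rw [continuousOn_iff_continuous_domRestrict]
      let e : V × M → ((V : Set (FF p)) ×ˢ (univ : Set M'') : Set (FF p × M'')) := fun x =>
        ⟨(x.1.1, π x.2), ⟨x.1.2, mem_univ _⟩⟩
      have hec : Continuous e := by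
        refine Continuous.subtype_mk ?_ _
        exact (continuous_subtype_val.comp continuous_fst).prodMk (hπc.comp continuous_snd)
      have hes : Function.Surjective e := by
        rintro ⟨⟨g, m⟩, hg, -⟩
        obtain ⟨m, rfl⟩ := hπs m
        exact ⟨(⟨g, hg⟩, m), rfl⟩
      have hclosed : IsClosed (V : Set (FF p)) := V.isClosed_of_isOpen hV
      have hcV : CompactSpace V := isCompact_iff_compactSpace.1 hclosed.isCompact
      have hq : Topology.IsQuotientMap e := hec.isClosedMap.isQuotientMap hec hes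
      rw [hq.continuous_iff]
      have h2 : (Set.domRestrict ((V : Set (FF p)) ×ˢ (univ : Set M''))
          (fun x : FF p × M'' => act'' x.1 x.2)) ∘ e = fun x : V × M => π (act x.1.1 x.2) := by
        funext x
        change act'' x.1.1 (π x.2) = π (act x.1.1 x.2)
        rw [heq _ x.1.2]
      rw [h2]
      exact hπc.comp (Lift_contact hA continuous_snd continuous_fst)
  obtain ⟨d, b, hb⟩ := exists_basisFin V hV
  choose mm hmm using fun i => hπs (β (b i))
  obtain ⟨φ, hφ1, hφ2, hφ3⟩ := exists_hom_prof V hV b hb (Lift_E hA) (Lift_prop hA)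
    (fun i => Lift_mk hA (mm i) ⟨b i, hb.1 i⟩)
  -- the second component is the identity
  have hsnd : ∀ x ∈ V, ((φ x).2 : FF p) = x := by
    refine hom_prof_unique V hV b hb (FF p) (fun N _ hN => index_open N hN)
      (fun x => ((φ x).2 : FF p)) (fun x => x) ?_ (fun _ _ _ _ => rfl) ?_ ?_ continuousOn_id
    · intro g hg h hh
      change ((φ (g * h)).2 : FF p) = _
      rw [hφ1 g hg h hh, Lift_mul2, Subgroup.coe_mul]
    · intro i
      change ((φ (b i)).2 : FF p) = _
      rw [hφ2]
      rfl
    · exact (continuous_subtype_val.comp Lift_cont2).comp_continuousOn hφ3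
  let α : FF p → M := fun x => if x ∈ V then (φ x).1 else 0
  have hαV : ∀ x ∈ V, α x = (φ x).1 := fun x hx => if_pos hx
  have hα : IsZ V act α := by
    refine ⟨?_, fun x hx => if_neg hx, fun g hg h hh => ?_⟩
    · rw [continuous_iff_continuousAt]
      intro x
      by_cases hx : x ∈ V
      · have h2 : ContinuousAt (fun x => (φ x).1) x :=
          (Lift_cont1.comp_continuousOn hφ3).continuousAt (hV.mem_nhds hx)
        refine h2.congr ?_
        filter_upwards [hV.mem_nhds hx] with y hy
        exact (hαV y hy).symm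
      · have h2 : ContinuousAt (fun _ : FF p => (0 : M)) x := continuousAt_const
        refine h2.congr ?_
        filter_upwards [(V.isClosed_of_isOpen hV).isOpen_compl.mem_nhds hx] with y hy
        exact (if_neg hy).symm
    · rw [hαV _ (V.mul_mem hg hh), hαV g hg, hαV h hh, hφ1 g hg h hh, Lift_mul1, hsnd g hg]
  refine ⟨α, hα, fun x => ?_⟩
  by_cases hx : x ∈ V
  swap
  · rw [hα.supp x hx, hβ.supp x hx, map_zero]
  -- uniqueness in `M'' ⋊ V`
  let gg : FF p → V := fun x => if hx : x ∈ V then ⟨x, hx⟩ else 1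
  have hgg : ∀ x, ∀ hx : x ∈ V, gg x = ⟨x, hx⟩ := fun x hx => dif_pos hx
  have hggc : ContinuousOn gg V := by
    rw [continuousOn_iff_continuous_domRestrict]
    have h2 : Set.domRestrict (V : Set (FF p)) gg = fun x : (V : Set (FF p)) => ⟨x.1, x.2⟩ := by
      funext x
      exact hgg x.1 x.2
    rw [h2]
    exact continuous_id
  have key : ∀ γ : FF p → M'', IsZ V act'' γ →
      (∀ g ∈ V, ∀ h ∈ V, Lift_mk hA'' (γ (g * h)) (gg (g * h)) =
        Lift_mk hA'' (γ g) (gg g) * Lift_mk hA'' (γ h) (gg h)) ∧
      ContinuousOn (fun x => Lift_mk hA'' (γ x) (gg x)) V := by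
    intro γ hγ
    constructor
    · intro g hg h hh
      refine Lift_ext ?_ ?_
      · rw [Lift_mul1]
        change γ (g * h) = γ g + act'' (gg g).1 (γ h)
        rw [hγ.mul g hg h hh, hgg g hg]
      · rw [Lift_mul2]
        change gg (g * h) = gg g * gg h
        rw [hgg g hg, hgg h hh, hgg _ (V.mul_mem hg hh)]
        rfl
    · exact hγ.cont.continuousOn.prodMk hggc
  have hπα : IsZ V act'' (fun x => π (α x)) := by
    refine ⟨hπc.comp hα.cont, fun x hx => ?_, fun g hg h hh => ?_⟩
    · change π (α x) = 0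
      rw [hα.supp x hx, map_zero]
    · change π (α (g * h)) = π (α g) + act'' g (π (α h))
      rw [hα.mul g hg h hh, map_add, heq g hg]
  obtain ⟨k1, k2⟩ := key _ hπα
  obtain ⟨k3, k4⟩ := key _ hβ
  have h5 := hom_prof_unique V hV b hb (Lift_E hA'') (Lift_prop hA'')
    (fun x => Lift_mk hA'' (π (α x)) (gg x)) (fun x => Lift_mk hA'' (β x) (gg x))
    k1 k3 (fun i => Lift_ext (by
      change π (α (b i)) = β (b i)
      rw [hαV _ (hb.1 i), hφ2]
      exact hmm i) rfl) k2 k4 x hx
  exact congrArg (fun y : Lift_E hA'' => y.1) h5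

end D687
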