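import Pool.Agent.Lib_MP_d687bf.CAct
import Pool.Agent.Lib_MP_d687bf.CReps
import Pool.Agent.Lib_MP_d687bf.Lift

/-!
MP_d687bf, C4: change of the coefficient ring along a continuous surjective ring hom `φ`.
-/

set_option autoImplicit false

open Set Filter Topology

namespace D687

variable {p : ℕ} [Fact p.Prime] {D : Datum p} {V : Subgroup (FF p)}
variable {A A' : Type} [CommRing A] [TopologicalSpace A] [ProPRing p A] [CommRing A']
  [TopologicalSpace A'] [ProPRing p A'] {φ : A →+* A'} {χ : FF p → A}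

theorem Z1_map (hφ : Continuous φ) {α : FF p → A} (hα : α ∈ Z1 V (scal χ)) :
    (fun x => φ (α x)) ∈ Z1 V (scal fun x => φ (χ x)) := by
  obtain ⟨h1, h2, h3⟩ := hα
  refine ⟨hφ.comp h1, fun x hx => ?_, fun g hg h hh => ?_⟩
  · show φ (α x) = 0
    rw [h2 x hx, map_zero]
  · show φ (α (g * h)) = φ (α g) + φ (χ g) • φ (α h)
    have h4 : α (g * h) = α g + χ g * α h := h3 g hg h hh
    rw [h4, map_add, map_mul]
    rfl

theorem ZR_map (hφ : Continuous φ) {α : FF p → A} (hα : α ∈ ZR D V (scal χ)) :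
    (fun x => φ (α x)) ∈ ZR D V (scal fun x => φ (χ x)) := by
  refine ⟨Z1_map hφ hα.1, ?_⟩
  have h1 : ev D α = 0 := hα.2
  show ev D (fun x => φ (α x)) = 0
  funext i g
  have h2 : α (g * D.r i * g⁻¹) = 0 := congrFun (congrFun h1 i) g
  show φ (α (g * D.r i * g⁻¹)) = 0
  rw [h2, map_zero]

theorem CV_map {t : Fin D.n → FF p → A} (ht : t ∈ CV D V (scal χ)) :
    (fun i g => φ (t i g)) ∈ CV D V (scal fun x => φ (χ x)) := by
  refine ⟨fun i v hv g => ?_, fun i g => ?_⟩
  · show φ (t i (v * g)) = φ (χ v) • φ (t i g)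
    have h1 : t i (v * g) = χ v * t i g := ht.1 i v hv g
    rw [h1, map_mul]
    rfl
  · show φ (t i (g * D.ω i)) = φ (t i g)
    rw [ht.2 i g]

/-- (1.2) for rings. -/
theorem lift_scal (hφ : Continuous φ) (hs : Function.Surjective φ) (hV : IsOpen (V : Set (FF p)))
    (hχ : IsChar D V χ) {α' : FF p → A'} (hα : α' ∈ Z1 V (scal fun x => φ (χ x))) :
    ∃ α ∈ Z1 V (scal χ), ∀ x, φ (α x) = α' x := by
  have hact := hχ.isActR
  obtain ⟨α, h1, h2⟩ := exists_lift (p := p) V hV (M := A) (M'' := A')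
    (fun g => scal χ g) (fun g => scal (fun x => φ (χ x)) g)
    (fun m => by
      show (scal χ 1) m = m
      rw [hact.one]
      rfl)
    (fun g _ m m' => map_add _ m m')
    (fun g hg h hh m => by
      show (scal χ (g * h)) m = (scal χ g) ((scal χ h) m)
      rw [hact.mul g hg h hh]
      rfl)
    hact.cont φ.toAddMonoidHom hφ hs
    (fun g _ m => by
      show φ (χ g • m) = φ (χ g) • φ m
      rw [smul_eq_mul, map_mul]
      rfl) α' hα
  exact ⟨α, h1, h2⟩

theorem CV_lift (hs : Function.Surjective φ) (hadm : Adm D V) (hχ : IsChar D V χ)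
    {t' : Fin D.n → FF p → A'} (ht : t' ∈ CV D V (scal fun x => φ (χ x))) :
    ∃ t ∈ CV D V (scal χ), ∀ i g, φ (t i g) = t' i g := by
  obtain ⟨q, ri, rg, hr⟩ := exists_reps D V hadm.isOpen
  choose c hc using hs
  have hact := hχ.isActR
  obtain ⟨t, ht1, ht2⟩ := CV_exists (A := A) (M := A) hadm hr hact
    (fun l => c (t' (ri l) (rg l)))
  refine ⟨t, ht1, ?_⟩
  have h1 : (fun i g => φ (t i g)) = t' := by
    refine CV_ext (A := A') (M := A') hr (CV_map ht1) ht fun l => ?_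
    show φ (t (ri l) (rg l)) = t' (ri l) (rg l)
    rw [ht2, hc]
  intro i g
  exact congrFun (congrFun h1 i) g

/-- Exactness of `C_V`. -/
theorem CV_ker (hadm : Adm D V) (hχ : IsChar D V χ) {w : A} (hw : w ∈ nonZeroDivisors A)
    (hker : ∀ a, φ a = 0 ↔ w ∣ a) {t : Fin D.n → FF p → A} (ht : t ∈ CV D V (scal χ))
    (h0 : ∀ i g, φ (t i g) = 0) : ∃ t' ∈ CV D V (scal χ), t = w • t' := by
  obtain ⟨q, ri, rg, hr⟩ := exists_reps D V hadm.isOpen
  have hact := hχ.isActR
  have h1 : ∀ l, ∃ a, t (ri l) (rg l) = w * a := fun l => (hker _).1 (h0 (ri l) (rg l))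
  choose c hc using h1
  obtain ⟨t', ht1, ht2⟩ := CV_exists (A := A) (M := A) hadm hr hact c
  refine ⟨t', ht1, ?_⟩
  refine CV_ext (A := A) (M := A) hr ht ((CV D V (scal χ)).smul_mem w ht1) fun l => ?_
  show t (ri l) (rg l) = w • t' (ri l) (rg l)
  rw [ht2, hc]
  rfl

theorem Kills_map (hφ : Continuous φ) (hs : Function.Surjective φ) (hadm : Adm D V)
    (hχ : IsChar D V χ) {a : A} (h : Kills D V (scal χ) a) :
    Kills D V (scal fun x => φ (χ x)) (φ a) := by
  intro t' ht'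
  obtain ⟨t, ht, h1⟩ := CV_lift hs hadm hχ ht'
  obtain ⟨α, hα, h2⟩ := h t ht
  refine ⟨fun x => φ (α x), Z1_map hφ hα, ?_⟩
  funext i g
  show φ (α (g * D.r i * g⁻¹)) = φ a • t' i g
  have h3 : α (g * D.r i * g⁻¹) = a * t i g := congrFun (congrFun h2 i) g
  rw [h3, map_mul, h1]
  rfl

end D687
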