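import Pool.Agent.Lib_MP_d687bf.CAct
import Pool.Agent.Lib_MP_d687bf.CReps
import Pool.Agent.Lib_MP_d687bf.CMap
import Pool.Agent.Lib_MP_d687bf.HomFin

/-!
MP_d687bf, C8: (2.3) `dim H(V) ≤ dim I(V) + b(V)`.

Proof. `a ∈ H(V)` lifts to `ã ∈ Hom(V, ℤ_p)` (`exists_lift`, or `lift_scal` with `χ = 1`,
`φ = PadicInt.toZMod`), `ev ã = p t`, `t ∈ C_V(ℤ_p)` (trivial action); `a ↦ [t] ∈ T_V(ℤ_p)[p]`,
`T_V(ℤ_p) = C_V(ℤ_p) / ev Hom(V, ℤ_p)`, is well defined and linear, with kernel `I(V)` (if `t = ev γ`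
then `ã - p γ ∈ X(V)` reduces to `a`). `T := T_V(ℤ_p)` is a finitely generated `ℤ_p`-module with
`T / p T ≅ T_V(k)`, and `dim T[p] ≤ dim T/pT` for every finitely generated `ℤ_p`-module (DVR).
-/

set_option autoImplicit false

open Set Filter Topology

namespace D687

variable {p : ℕ} [Fact p.Prime] {D : Datum p} {V : Subgroup (FF p)}

private theorem Corank_toZMod_eq_zero (x : ℤ_[p]) : PadicInt.toZMod x = 0 ↔ (p : ℤ_[p]) ∣ x := by
  rw [← RingHom.mem_ker, PadicInt.ker_toZMod, PadicInt.maximalIdeal_eq_span_p,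
    Ideal.mem_span_singleton]

private theorem Corank_toZMod_surj : Function.Surjective (PadicInt.toZMod : ℤ_[p] → ZMod p) :=
  ZMod.ringHom_surjective _

/-- For a finitely generated module over `ℤ_p`: if `f₁, …, f_m ∈ T[p]` are linearly independent
mod the relation of `k`-linear combinations, then `m ≤` number of generators; here in the form
used: a family in `T[p]`, independent over `k` (no combination with coefficients not all divisible
by `p` vanishes), has at most `b` members if `T` is generated by `b` elements. -/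
theorem card_le_of_torsion {T : Type} [AddCommGroup T] [Module ℤ_[p] T] {b m : ℕ}
    (g : Fin b → T) (hg : Submodule.span ℤ_[p] (Set.range g) = ⊤) (f : Fin m → T)
    (hf : ∀ i, (p : ℤ_[p]) • f i = 0)
    (hind : ∀ c : Fin m → ℤ_[p], ∑ i, c i • f i = 0 → ∀ i, (p : ℤ_[p]) ∣ c i) : m ≤ b := by
  classical
  -- the surjection `ℤ_p ^ b → T`
  let π : (Fin b → ℤ_[p]) →ₗ[ℤ_[p]] T := Fintype.linearCombination ℤ_[p] g
  have hπ : Function.Surjective π := by
    rw [← LinearMap.range_eq_top, Fintype.range_linearCombination]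
    exact hg
  let L : Submodule ℤ_[p] (Fin b → ℤ_[p]) :=
    LinearMap.ker ((p : ℤ_[p]) • π)
  obtain ⟨k, bL⟩ := Submodule.basisOfPid (Pi.basisFun ℤ_[p] (Fin b)) L
  have hk : k ≤ b := by
    have h1 : Module.finrank ℤ_[p] L = k := by
      rw [Module.finrank_eq_card_basis bL, Fintype.card_fin]
    have h2 := Submodule.finrank_le L
    rw [h1, Module.finrank_fin_fun] at h2
    exact h2
  refine le_trans ?_ hk
  by_contra hcon
  push Not at hcon
  have hFex : ∀ i, ∃ x : L, π x = f i := by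
    intro i
    obtain ⟨y, hy⟩ := hπ (f i)
    refine ⟨⟨y, ?_⟩, hy⟩
    change (p : ℤ_[p]) • π y = 0
    rw [hy, hf]
  choose x hx using hFex
  let Mx : (Fin m → ZMod p) →ₗ[ZMod p] (Fin k → ZMod p) :=
    Fintype.linearCombination (ZMod p) (fun i j => PadicInt.toZMod (bL.repr (x i) j))
  have hker : LinearMap.ker Mx ≠ ⊥ := by
    refine LinearMap.ker_ne_bot_of_finrank_lt ?_
    simpa using hcon
  obtain ⟨c, hc, hc0⟩ := (Submodule.ne_bot_iff _).1 hker
  obtain ⟨c', hc'⟩ : ∃ c' : Fin m → ℤ_[p], ∀ i, PadicInt.toZMod (c' i) = c i :=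
    ⟨fun i => (Corank_toZMod_surj (c i)).choose, fun i => (Corank_toZMod_surj (c i)).choose_spec⟩
  have hsum : ∑ i, c' i • f i = 0 := by
    have h1 : ∀ j, (p : ℤ_[p]) ∣ ∑ i, c' i * bL.repr (x i) j := by
      intro j
      rw [← Corank_toZMod_eq_zero, map_sum]
      have h2 := congrFun (LinearMap.mem_ker.1 hc) j
      simp only [Mx, Fintype.linearCombination_apply, Finset.sum_apply, Pi.smul_apply,
        smul_eq_mul, Pi.zero_apply] at h2
      rw [← h2]
      refine Finset.sum_congr rfl fun i _ => ?_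
      rw [map_mul, hc']
    choose e he using h1
    have h3 : ∀ i, f i = ∑ j, bL.repr (x i) j • π (bL j) := by
      intro i
      have h5 := congrArg (fun y : L => π (y : Fin b → ℤ_[p])) (bL.sum_repr (x i))
      simp only [Submodule.coe_sum, Submodule.coe_smul, map_sum, map_smul] at h5
      rw [h5, hx i]
    calc ∑ i, c' i • f i = ∑ i, ∑ j, (c' i * bL.repr (x i) j) • π (bL j) := by
          refine Finset.sum_congr rfl fun i _ => ?_
          rw [h3 i, Finset.smul_sum]
          exact Finset.sum_congr rfl fun j _ => by rw [smul_smul]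
      _ = ∑ j, (∑ i, c' i * bL.repr (x i) j) • π (bL j) := by
          rw [Finset.sum_comm]
          exact Finset.sum_congr rfl fun j _ => by rw [Finset.sum_smul]
      _ = 0 := by
          refine Finset.sum_eq_zero fun j _ => ?_
          rw [he j, mul_comm, mul_smul]
          have h4 : (p : ℤ_[p]) • π (bL j) = 0 := (bL j).2
          rw [h4, smul_zero]
  apply hc0
  funext i
  have := hind c' hsum i
  rw [← Corank_toZMod_eq_zero, hc'] at this
  exact this

private theorem Corank_continuous_toZMod : Continuous (PadicInt.toZMod : ℤ_[p] → ZMod p) := by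
  have h1 : Continuous fun x : ℤ_[p] => PowerSeries.constantCoeff (redP (PowerSeries.C x)) := by
    refine Continuous.comp (g := fun f : K1 p => PowerSeries.constantCoeff f) ?_
      (continuous_redP.comp ?_)
    · exact PowerSeries.WithPiTopology.continuous_constantCoeff (ZMod p)
    · exact PowerSeries.WithPiTopology.continuous_C
  have h2 : (fun x : ℤ_[p] => PowerSeries.constantCoeff (redP (PowerSeries.C x))) =
      (PadicInt.toZMod : ℤ_[p] → ZMod p) := by
    funext x
    simp [redP]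
  rwa [h2] at h1

private theorem Corank_mk_sum {A E ι : Type} [Ring A] [AddCommGroup E] [Module A E]
    (N : Submodule A E) (s : Finset ι) (f : ι → E) :
    (Submodule.Quotient.mk (∑ i ∈ s, f i) : E ⧸ N) = ∑ i ∈ s, Submodule.Quotient.mk (f i) :=
  map_sum N.mkQ _ _

private theorem Corank_one : (fun x => PadicInt.toZMod ((1 : FF p → ℤ_[p]) x)) =
    (1 : FF p → ZMod p) := by
  funext x
  simp

private theorem Corank_lift (hadm : Adm D V) {a : FF p → ZMod p} (ha : a ∈ Hk (p := p) V) :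
    ∃ β ∈ Z1 V (triv ℤ_[p] ℤ_[p] : FF p → ℤ_[p] →ₗ[ℤ_[p]] ℤ_[p]),
      ∀ x, PadicInt.toZMod (β x) = a x := by
  have h := lift_scal (D := D) (V := V) (χ := (1 : FF p → ℤ_[p])) (α' := a)
    Corank_continuous_toZMod Corank_toZMod_surj hadm.isOpen isChar_one
    (by rw [Corank_one, scal_one]; exact ha)
  rw [scal_one] at h
  exact h

private theorem Corank_CV_lift (hadm : Adm D V) {t' : Fin D.n → FF p → ZMod p}
    (ht : t' ∈ Ck D V) :
    ∃ t ∈ CV D V (triv ℤ_[p] ℤ_[p] : FF p → ℤ_[p] →ₗ[ℤ_[p]] ℤ_[p]),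
      ∀ i g, PadicInt.toZMod (t i g) = t' i g := by
  have h := CV_lift (D := D) (V := V) (χ := (1 : FF p → ℤ_[p])) (t' := t')
    Corank_toZMod_surj hadm isChar_one (by rw [Corank_one, scal_one]; exact ht)
  rw [scal_one] at h
  exact h

private theorem Corank_CV_map {t : Fin D.n → FF p → ℤ_[p]}
    (ht : t ∈ CV D V (triv ℤ_[p] ℤ_[p] : FF p → ℤ_[p] →ₗ[ℤ_[p]] ℤ_[p])) :
    (fun i g => PadicInt.toZMod (t i g)) ∈ Ck D V := by
  refine ⟨fun i v hv g => ?_, fun i g => ?_⟩
  · change PadicInt.toZMod (t i (v * g)) = PadicInt.toZMod (t i g)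
    rw [ht.1 i v hv g]
    rfl
  · change PadicInt.toZMod (t i (g * D.ω i)) = PadicInt.toZMod (t i g)
    rw [ht.2 i g]

private theorem Corank_CV_ker (hadm : Adm D V) {t : Fin D.n → FF p → ℤ_[p]}
    (ht : t ∈ CV D V (triv ℤ_[p] ℤ_[p] : FF p → ℤ_[p] →ₗ[ℤ_[p]] ℤ_[p]))
    (h0 : ∀ i g, PadicInt.toZMod (t i g) = 0) :
    ∃ t' ∈ CV D V (triv ℤ_[p] ℤ_[p] : FF p → ℤ_[p] →ₗ[ℤ_[p]] ℤ_[p]), t = (p : ℤ_[p]) • t' := by
  have hp : (p : ℤ_[p]) ≠ 0 := PadicInt.prime_p.ne_zero
  have h := CV_ker (D := D) (V := V) (χ := (1 : FF p → ℤ_[p])) (φ := PadicInt.toZMod)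
    hadm isChar_one (mem_nonZeroDivisors_of_ne_zero hp) (fun a => Corank_toZMod_eq_zero a)
    (t := t) (by rw [scal_one]; exact ht) h0
  rw [scal_one] at h
  exact h

/-- (2.3) -/
theorem finrank_HH_le (hadm : Adm D V) :
    Module.finrank (ZMod p) (HH D V) ≤ Module.finrank (ZMod p) (II D V) + bV D V := by
  classical
  have hp : (p : ℤ_[p]) ≠ 0 := PadicInt.prime_p.ne_zero
  have hR := hadm.hR
  let C := CV D V (triv ℤ_[p] ℤ_[p] : FF p → ℤ_[p] →ₗ[ℤ_[p]] ℤ_[p])
  let Z := Z1 V (triv ℤ_[p] ℤ_[p] : FF p → ℤ_[p] →ₗ[ℤ_[p]] ℤ_[p])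
  let B : Submodule ℤ_[p] C := (Z.map (evL ℤ_[p] ℤ_[p] D)).comap C.subtype
  have hact : IsActR D V (triv ℤ_[p] ℤ_[p] : FF p → ℤ_[p] →ₗ[ℤ_[p]] ℤ_[p]) := isActR_triv
  have hCfin : Module.Finite ℤ_[p] C := finite_CV hadm hact
  have hHfin : Module.Finite (ZMod p) (HH D V) := finite_HH D V hadm.isOpen
  have hTfin : Module.Finite (ZMod p) (TV D V) := finite_TV hadm
  have hB : ∀ (t : C), t ∈ B ↔ ∃ β ∈ Z, ev D β = (t : Fin D.n → FF p → ℤ_[p]) := by
    intro t
    constructor
    · rintro ⟨β, hβ, h⟩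
      exact ⟨β, hβ, h⟩
    · rintro ⟨β, hβ, h⟩
      exact ⟨β, hβ, h⟩
  -- generators of `T_V(ℤ_p)`
  let bT := Module.finBasis (ZMod p) (TV D V)
  have h1 : ∀ i, ∃ t : C, ∃ h : (fun i g => PadicInt.toZMod ((t : Fin D.n → FF p → ℤ_[p]) i g)) ∈
      Ck D V, Submodule.Quotient.mk ⟨_, h⟩ = bT i := by
    intro i
    obtain ⟨t', ht'⟩ := Submodule.Quotient.mk_surjective _ (bT i)
    obtain ⟨t, ht, htt⟩ := Corank_CV_lift hadm t'.2
    refine ⟨⟨t, ht⟩, Corank_CV_map ht, ?_⟩
    rw [← ht']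
    congr 1
    apply Subtype.ext
    funext i g
    exact htt i g
  choose tt htt htt' using h1
  have hgen : Submodule.span ℤ_[p] (Set.range fun i => (Submodule.Quotient.mk (tt i) : C ⧸ B)) =
      ⊤ := by
    rw [eq_top_iff]
    refine Submodule.le_of_le_smul_of_le_jacobson_bot (I := IsLocalRing.maximalIdeal ℤ_[p])
      (Module.finite_def.1 inferInstance) (IsLocalRing.maximalIdeal_le_jacobson _) ?_
    rintro x -
    obtain ⟨t, rfl⟩ := Submodule.Quotient.mk_surjective _ x
    have htm := Corank_CV_map t.2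
    obtain ⟨c, hc⟩ : ∃ c : Fin (Module.finrank (ZMod p) (TV D V)) → ℤ_[p], ∀ i,
        PadicInt.toZMod (c i) = bT.repr (Submodule.Quotient.mk ⟨_, htm⟩) i :=
      ⟨fun i => (Corank_toZMod_surj _).choose, fun i => (Corank_toZMod_surj _).choose_spec⟩
    have h2 := bT.sum_repr (Submodule.Quotient.mk ⟨_, htm⟩ : TV D V)
    have h3 : (Submodule.Quotient.mk (⟨_, htm⟩ - ∑ i, PadicInt.toZMod (c i) • ⟨_, htt i⟩ :
        Ck D V) : TV D V) = 0 := by
      rw [Submodule.Quotient.mk_sub, sub_eq_zero, ← h2]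
      rw [Corank_mk_sum]
      refine Finset.sum_congr rfl fun i _ => ?_
      rw [Submodule.Quotient.mk_smul, hc, htt']
    rw [Submodule.Quotient.mk_eq_zero] at h3
    obtain ⟨β', hβ', hβe⟩ := h3
    obtain ⟨β, hβ, hββ⟩ := Corank_lift hadm hβ'
    have hevβ : ev D β ∈ C := ev_mem hR hact hβ
    obtain ⟨t'', ht'', htt''⟩ := Corank_CV_ker hadm
      (t := ((t - ∑ i, c i • tt i - ⟨_, hevβ⟩ : C) : Fin D.n → FF p → ℤ_[p])) (Subtype.property _)
      (by
        intro i g
        have h4 := congrFun (congrFun hβe i) g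
        have h5 : ev D β' i g = PadicInt.toZMod (ev D β i g) := (hββ _).symm
        have h6 : ev D β' i g = PadicInt.toZMod ((t : Fin D.n → FF p → ℤ_[p]) i g) -
            ∑ j, PadicInt.toZMod (c j) * PadicInt.toZMod ((tt j : Fin D.n → FF p → ℤ_[p]) i g) := by
          refine h4.trans ?_
          simp [Finset.sum_apply]
        simp only [Submodule.coe_sub, Submodule.coe_sum, Submodule.coe_smul, Pi.sub_apply,
          Finset.sum_apply, Pi.smul_apply, smul_eq_mul, map_sub, map_sum, map_mul]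
        rw [← h5, h6, sub_self])
    refine Submodule.mem_sup.2 ⟨∑ i, c i • Submodule.Quotient.mk (tt i),
      Submodule.sum_mem _ fun i _ => Submodule.smul_mem _ _ (Submodule.subset_span ⟨i, rfl⟩),
      (p : ℤ_[p]) • Submodule.Quotient.mk (⟨t'', ht''⟩ : C),
      Submodule.smul_mem_smul (by
        rw [PadicInt.maximalIdeal_eq_span_p]; exact Ideal.mem_span_singleton_self _) trivial, ?_⟩
    have h7 : (t : C) = ∑ i, c i • tt i + ⟨_, hevβ⟩ + (p : ℤ_[p]) • (⟨t'', ht''⟩ : C) := by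
      have h8 : t - ∑ i, c i • tt i - ⟨_, hevβ⟩ = (p : ℤ_[p]) • (⟨t'', ht''⟩ : C) :=
        Subtype.ext htt''
      rw [← h8]; abel
    have h9 : (Submodule.Quotient.mk (⟨_, hevβ⟩ : C) : C ⧸ B) = 0 := by
      rw [Submodule.Quotient.mk_eq_zero, hB]
      exact ⟨β, hβ, rfl⟩
    rw [h7, Submodule.Quotient.mk_add, Submodule.Quotient.mk_add, h9, add_zero,
      Submodule.Quotient.mk_smul, Corank_mk_sum]
    rfl
  -- a basis of `H(V) / I(V)`
  let I' : Submodule (ZMod p) (HH D V) := (II D V).comap (HH D V).subtype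
  have hI' : Module.finrank (ZMod p) I' = Module.finrank (ZMod p) (II D V) :=
    LinearEquiv.finrank_eq (Submodule.comapSubtypeEquivOfLe (II_le_HH hadm.isOpen hR))
  have hQ := Submodule.finrank_quotient_add_finrank I'
  let bQ := Module.finBasis (ZMod p) (HH D V ⧸ I')
  have h2 : ∀ i, ∃ a : HH D V, (Submodule.Quotient.mk a : HH D V ⧸ I') = bQ i := fun i =>
    Submodule.Quotient.mk_surjective _ (bQ i)
  choose a ha using h2
  have h3 : ∀ i, ∃ β ∈ Z, ∀ x, PadicInt.toZMod (β x) = (a i : FF p → ZMod p) x := fun i =>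
    Corank_lift hadm (a i).2.1
  choose β hβ hβa using h3
  have h4 : ∀ i, ∃ t : C, ev D (β i) = (p : ℤ_[p]) • (t : Fin D.n → FF p → ℤ_[p]) := by
    intro i
    obtain ⟨t, ht, htt⟩ := Corank_CV_ker hadm (ev_mem hR hact (hβ i)) (by
      intro j g
      change PadicInt.toZMod (β i (g * D.r j * g⁻¹)) = 0
      rw [hβa]
      have := congrFun (congrFun (LinearMap.mem_ker.1 (a i).2.2) j) g
      exact this)
    exact ⟨⟨t, ht⟩, htt⟩
  choose t ht using h4
  have hle := card_le_of_torsion (fun i => (Submodule.Quotient.mk (tt i) : C ⧸ B)) hgen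
    (fun i => (Submodule.Quotient.mk (t i) : C ⧸ B)) (by
      intro i
      change (p : ℤ_[p]) • (Submodule.Quotient.mk (t i) : C ⧸ B) = 0
      rw [← Submodule.Quotient.mk_smul, Submodule.Quotient.mk_eq_zero, hB]
      exact ⟨β i, hβ i, ht i⟩) (by
      intro c hc
      have h5 : (Submodule.Quotient.mk (∑ i, c i • t i) : C ⧸ B) = 0 := by
        rw [← hc, Corank_mk_sum]
        rfl
      rw [Submodule.Quotient.mk_eq_zero, hB] at h5
      obtain ⟨γ, hγ, hγe⟩ := h5
      have h6 : ∑ i, c i • β i - (p : ℤ_[p]) • γ ∈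
          ZR D V (triv ℤ_[p] ℤ_[p] : FF p → ℤ_[p] →ₗ[ℤ_[p]] ℤ_[p]) := by
        refine ⟨Submodule.sub_mem _ (Submodule.sum_mem _ fun i _ => Submodule.smul_mem _ _ (hβ i))
          (Submodule.smul_mem _ _ hγ), ?_⟩
        change evL ℤ_[p] ℤ_[p] D (∑ i, c i • β i - (p : ℤ_[p]) • γ) = 0
        rw [map_sub, map_sum, map_smul]
        have h7 : evL ℤ_[p] ℤ_[p] D γ = ∑ i, c i • (t i : Fin D.n → FF p → ℤ_[p]) := by
          refine hγe.trans ?_
          simp
        rw [h7, Finset.smul_sum, sub_eq_zero]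
        refine Finset.sum_congr rfl fun i _ => ?_
        rw [map_smul]
        change c i • ev D (β i) = _
        rw [ht i, smul_comm]
      have h7 := (ZR_iff hR hact).1 h6
      have hX : IsX D V (∑ i, c i • β i - (p : ℤ_[p]) • γ) :=
        ⟨h7.1.cont.continuousOn, fun g hg h hh => h7.1.mul g hg h hh, h7.2⟩
      have h8 : (∑ i, PadicInt.toZMod (c i) • (a i : FF p → ZMod p)) ∈ II D V := by
        rw [mem_II_iff]
        refine ⟨_, hX, ?_⟩
        funext x
        by_cases hx : x ∈ V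
        · rw [redl, Set.indicator_of_mem hx]
          simp only [Finset.sum_apply, Pi.smul_apply, smul_eq_mul, Pi.sub_apply, map_sub, map_sum,
            map_mul, hβa, map_natCast, CharP.cast_eq_zero, zero_mul, sub_zero]
        · rw [redl, Set.indicator_of_notMem hx]
          simp only [Finset.sum_apply, Pi.smul_apply, smul_eq_mul]
          refine Finset.sum_eq_zero fun i _ => ?_
          rw [(a i).2.1.supp x hx, mul_zero]
      have h9 : ∑ i, PadicInt.toZMod (c i) • bQ i = 0 := by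
        have h10 : (Submodule.Quotient.mk (∑ i, PadicInt.toZMod (c i) • a i) : HH D V ⧸ I') = 0 := by
          rw [Submodule.Quotient.mk_eq_zero, Submodule.mem_comap]
          have : (HH D V).subtype (∑ i, PadicInt.toZMod (c i) • a i) =
              ∑ i, PadicInt.toZMod (c i) • (a i : FF p → ZMod p) := by simp
          rw [this]; exact h8
        rw [← h10, Corank_mk_sum]
        refine Finset.sum_congr rfl fun i _ => ?_
        rw [Submodule.Quotient.mk_smul, ha]
      intro i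
      rw [← Corank_toZMod_eq_zero]
      exact Fintype.linearIndependent_iff.1 bQ.linearIndependent _ h9 i)
  have h10 : Module.finrank (ZMod p) (HH D V ⧸ I') ≤ bV D V := hle
  omega

end D687
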