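import Mathlib

/-!
MP_d687bf, E1: the counting argument (4.1), pure linear algebra over `ZMod p`.

Proof. Count the triples `β ∈ I³` which are bad: (a) linearly dependent: at most
`(p²+p+1) |I|²` (a non-zero relation up to scalars; for fixed relation one of the three is
determined by the others); (b) not surjective: then there is `(κ_j) ≠ 0` in `(T^*)³` with
`∑ κ_j (c (β_j) a) = 0` for all `a`. For fixed `(κ_j)` with `κ_{j0} ≠ 0` and fixed `β_j`, `j ≠ j0`, the
`β_{j0}` lie in one coset of the kernel of `c.compr₂ κ_{j0}`, of dimension `dim H - rk`; so at most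
`|I|² p^(dim H - (4b+1)) ≤ |I|³ p^(b - 4b - 1)` triples (`p^(dim H) ≤ |I| p^b`). There are fewer than
`p^(3b)` such `(κ_j)`. As `|I| ≥ p^4` (`dim I ≥ dim H - b ≥ 4`), the total is at most
`|I|³ (1/p + (p²+p+1)/p⁴) < |I|³`.
-/

set_option autoImplicit false

namespace D687

private theorem Count_step {p : ℕ} [Fact p.Prime] {H T W : Type} [AddCommGroup H]
    [Module (ZMod p) H] [Module.Finite (ZMod p) H] [AddCommGroup T] [Module (ZMod p) T]
    [Module.Finite (ZMod p) T] [AddCommGroup W] [Module (ZMod p) W] [Module.Finite (ZMod p) W]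
    (c : H →ₗ[ZMod p] H →ₗ[ZMod p] T) (I : Submodule (ZMod p) H)
    (hI : Module.finrank (ZMod p) H ≤ Module.finrank (ZMod p) I + Module.finrank (ZMod p) T)
    (h4 : Module.finrank (ZMod p) T + 4 ≤ Module.finrank (ZMod p) H)
    (hrk : ∀ κ : Module.Dual (ZMod p) T, κ ≠ 0 →
      4 * Module.finrank (ZMod p) T + 1 ≤
        Module.finrank (ZMod p) (LinearMap.range (c.compr₂ κ)))
    (hW : Module.finrank (ZMod p) W ≤ 2 * Module.finrank (ZMod p) T)
    (φ : H →ₗ[ZMod p] W) (hφ : Function.Surjective φ) (S : Submodule (ZMod p) H)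
    (hS : Module.finrank (ZMod p) S ≤ 2) :
    ∃ β ∈ I, β ∉ S ∧ Function.Surjective (fun a => (φ a, c β a)) := by
  classical
  have hp : p.Prime := Fact.out
  have hp1 : 1 < p := hp.one_lt
  by_contra hcon
  push Not at hcon
  have : Finite H := Module.finite_of_finite (ZMod p)
  have : Finite W := Module.finite_of_finite (ZMod p)
  have : Finite T := Module.finite_of_finite (ZMod p)
  have : Finite (Module.Dual (ZMod p) W) := Module.finite_of_finite (ZMod p)
  have : Finite (Module.Dual (ZMod p) T) := Module.finite_of_finite (ZMod p)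
  letI : Fintype H := Fintype.ofFinite H
  letI : Fintype (Module.Dual (ZMod p) W) := Fintype.ofFinite _
  letI : Fintype (Module.Dual (ZMod p) T) := Fintype.ofFinite _
  set b := Module.finrank (ZMod p) T with hb
  set e := Module.finrank (ZMod p) H with he
  set i := Module.finrank (ZMod p) I with hi
  -- the rank bound
  have hbig : 4 * b + 1 ≤ e := by
    rcases Nat.eq_zero_or_pos b with h0 | h0
    · omega
    · have hd : 0 < Module.finrank (ZMod p) (Module.Dual (ZMod p) T) := by
        rw [Subspace.dual_finrank_eq]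
        exact h0
      have : Nontrivial (Module.Dual (ZMod p) T) := Module.finrank_pos_iff.1 hd
      obtain ⟨κ, hκ⟩ := exists_ne (0 : Module.Dual (ZMod p) T)
      exact (hrk κ hκ).trans (LinearMap.finrank_range_le _)
  set B : Module.Dual (ZMod p) W × Module.Dual (ZMod p) T → Finset H := fun x =>
    Finset.univ.filter fun β => x.2 ≠ 0 ∧ ∀ a, x.1 (φ a) + x.2 (c β a) = 0 with hB
  have hBcard : ∀ x, (B x).card ≤ p ^ (e - (4 * b + 1)) := by
    intro x
    rcases (B x).eq_empty_or_nonempty with h0 | ⟨β₀, hβ₀⟩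
    · rw [h0, Finset.card_empty]
      exact Nat.zero_le _
    · have hm := hβ₀
      simp only [hB, Finset.mem_filter, Finset.mem_univ, true_and] at hm
      have hker : Module.finrank (ZMod p) (LinearMap.ker (c.compr₂ x.2)) ≤ e - (4 * b + 1) := by
        have h1 := LinearMap.finrank_range_add_finrank_ker (c.compr₂ x.2)
        have h2 := hrk x.2 hm.1
        omega
      have hinj : (B x).card ≤ Nat.card (LinearMap.ker (c.compr₂ x.2)) := by
        rw [← Set.ncard_coe_finset, ← Nat.card_coe_set_eq]
        refine Nat.card_le_card_of_injective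
          (fun β : ((B x : Finset H) : Set H) => (⟨(β : H) - β₀, ?_⟩ :
            LinearMap.ker (c.compr₂ x.2))) ?_
        · have hβ := β.2
          simp only [hB, Finset.coe_filter, Finset.mem_univ, true_and, Set.mem_ofPred_eq] at hβ
          rw [LinearMap.mem_ker]
          refine LinearMap.ext fun a => ?_
          rw [LinearMap.compr₂_apply, map_sub, LinearMap.sub_apply, map_sub, LinearMap.zero_apply]
          have h3 := hβ.2 a
          have h4' := hm.2 a
          linear_combination h3 - h4'
        · intro β β' h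
          have h5 := congrArg Subtype.val h
          exact Subtype.ext (sub_left_injective h5)
      refine hinj.trans ?_
      rw [Module.natCard_eq_pow_finrank (K := ZMod p), Nat.card_zmod]
      exact Nat.pow_le_pow_right hp.pos hker
  have hsub : (Finset.univ.filter fun β : H => β ∈ I) ⊆
      (Finset.univ.filter fun β : H => β ∈ S) ∪ (Finset.univ.biUnion B) := by
    intro β hβ
    simp only [Finset.mem_filter, Finset.mem_univ, true_and] at hβ
    rw [Finset.mem_union, Finset.mem_filter]
    by_cases hβS : β ∈ S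
    · exact Or.inl ⟨Finset.mem_univ _, hβS⟩
    right
    have h1 := hcon β hβ hβS
    set f : H →ₗ[ZMod p] W × T := φ.prod (c β) with hf
    have h2 : ¬ Function.Surjective f := h1
    have h3 : LinearMap.range f < ⊤ := by
      rw [lt_top_iff_ne_top]
      intro h
      exact h2 (LinearMap.range_eq_top.1 h)
    obtain ⟨g, hg0, hg⟩ := Submodule.exists_le_ker_of_lt_top _ h3
    refine Finset.mem_biUnion.2 ⟨(g.comp (LinearMap.inl _ _ _), g.comp (LinearMap.inr _ _ _)),
      Finset.mem_univ _, ?_⟩
    have h4' : ∀ a, g (φ a, 0) + g (0, c β a) = 0 := by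
      intro a
      rw [← map_add, Prod.mk_add_mk, add_zero, zero_add]
      exact hg ⟨a, rfl⟩
    simp only [hB, Finset.mem_filter, Finset.mem_univ, true_and, LinearMap.comp_apply,
      LinearMap.inl_apply, LinearMap.inr_apply]
    refine ⟨fun h5 => hg0 ?_, h4'⟩
    have h6 : ∀ t, g (0, t) = 0 := fun t => LinearMap.congr_fun h5 t
    refine LinearMap.ext fun wt => ?_
    obtain ⟨w, t⟩ := wt
    obtain ⟨a, rfl⟩ := hφ w
    have h7 : ((φ a, t) : W × T) = (φ a, 0) + (0, t) := by
      rw [Prod.mk_add_mk, add_zero, zero_add]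
    have h8 := h4' a
    rw [h6, add_zero] at h8
    rw [h7, map_add, h6, h8, add_zero, LinearMap.zero_apply]
  have hcardI : (Finset.univ.filter fun β : H => β ∈ I).card = p ^ i := by
    have h1 : (Finset.univ.filter fun β : H => β ∈ I).card = Nat.card I := by
      rw [Nat.card_eq_fintype_card, Fintype.card_subtype]
    rw [h1, Module.natCard_eq_pow_finrank (K := ZMod p), Nat.card_zmod]
  have hcardS : (Finset.univ.filter fun β : H => β ∈ S).card ≤ p ^ 2 := by
    have h1 : (Finset.univ.filter fun β : H => β ∈ S).card = Nat.card S := by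
      rw [Nat.card_eq_fintype_card, Fintype.card_subtype]
    rw [h1, Module.natCard_eq_pow_finrank (K := ZMod p), Nat.card_zmod]
    exact Nat.pow_le_pow_right hp.pos hS
  have hcardU : (Finset.univ.biUnion B).card ≤ p ^ (i - 1) := by
    have h1 := Finset.card_biUnion_le_card_mul Finset.univ B _ fun x _ => hBcard x
    refine h1.trans ?_
    rw [Finset.card_univ, Fintype.card_prod, ← Nat.card_eq_fintype_card,
      ← Nat.card_eq_fintype_card, Module.natCard_eq_pow_finrank (K := ZMod p),
      Module.natCard_eq_pow_finrank (K := ZMod p) (V := Module.Dual (ZMod p) T), Nat.card_zmod,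
      Subspace.dual_finrank_eq, Subspace.dual_finrank_eq, ← pow_add, ← pow_add]
    exact Nat.pow_le_pow_right hp.pos (by omega)
  have htot := Finset.card_le_card hsub
  rw [hcardI] at htot
  have h1 := htot.trans (Finset.card_union_le _ _)
  have h2 : p ^ i ≤ p ^ 2 + p ^ (i - 1) := h1.trans (add_le_add hcardS hcardU)
  obtain ⟨m, hm⟩ : ∃ m, i = m + 4 := ⟨i - 4, by omega⟩
  rw [hm, show m + 4 - 1 = m + 3 by omega] at h2
  have h3 : p ^ (m + 4) = p * p ^ (m + 3) := by ring
  have h4' : p ^ (m + 3) = p ^ m * p * p ^ 2 := by ring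
  have h5 : 1 ≤ p ^ m := Nat.one_le_pow _ _ hp.pos
  have h6 : 2 ≤ p := hp.two_le
  have h7 : 0 < p ^ 2 := pow_pos hp.pos 2
  have h8 : 2 * p ^ (m + 3) ≤ p * p ^ (m + 3) := Nat.mul_le_mul_right _ h6
  have h9 : 2 * p ^ 2 ≤ p ^ (m + 3) := by
    rw [h4']
    refine Nat.mul_le_mul_right _ ?_
    nlinarith
  omega

theorem count {p : ℕ} [Fact p.Prime] {H T : Type} [AddCommGroup H] [Module (ZMod p) H]
    [Module.Finite (ZMod p) H] [AddCommGroup T] [Module (ZMod p) T] [Module.Finite (ZMod p) T]
    (c : H →ₗ[ZMod p] H →ₗ[ZMod p] T) (I : Submodule (ZMod p) H)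
    (hI : Module.finrank (ZMod p) H ≤ Module.finrank (ZMod p) I + Module.finrank (ZMod p) T)
    (h4 : Module.finrank (ZMod p) T + 4 ≤ Module.finrank (ZMod p) H)
    (hrk : ∀ κ : Module.Dual (ZMod p) T, κ ≠ 0 →
      4 * Module.finrank (ZMod p) T + 1 ≤
        Module.finrank (ZMod p) (LinearMap.range (c.compr₂ κ))) :
    ∃ β : Fin 3 → H, (∀ j, β j ∈ I) ∧ LinearIndependent (ZMod p) β ∧
      Function.Surjective fun a : H => fun j : Fin 3 => c (β j) a := by
  obtain ⟨β₀, hβ₀, h0, hs0⟩ := Count_step c I hI h4 hrk (W := Fin 0 → ZMod p) (by simp)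
    (0 : H →ₗ[ZMod p] (Fin 0 → ZMod p)) (fun w => ⟨0, Subsingleton.elim _ _⟩) ⊥ (by simp)
  have hs0' : Function.Surjective (c β₀) := by
    intro t
    obtain ⟨a, ha⟩ := hs0 (0, t)
    exact ⟨a, congrArg Prod.snd ha⟩
  obtain ⟨β₁, hβ₁, h1, hs1⟩ := Count_step c I hI h4 hrk (W := T) (by omega) (c β₀) hs0'
    (Submodule.span (ZMod p) (Set.range ![β₀])) (by
      refine (finrank_range_le_card ![β₀]).trans ?_
      simp)
  obtain ⟨β₂, hβ₂, h2, hs2⟩ := Count_step c I hI h4 hrk (W := T × T)
    (by rw [Module.finrank_prod]; omega) ((c β₀).prod (c β₁)) hs1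
    (Submodule.span (ZMod p) (Set.range ![β₁, β₀])) (by
      refine (finrank_range_le_card ![β₁, β₀]).trans ?_
      simp)
  refine ⟨![β₂, β₁, β₀], ?_, ?_, ?_⟩
  · intro j
    fin_cases j
    · exact hβ₂
    · exact hβ₁
    · exact hβ₀
  · refine linearIndependent_finCons.2 ⟨linearIndependent_finCons.2
      ⟨linearIndependent_finCons.2 ⟨linearIndependent_empty_type, ?_⟩, h1⟩, h2⟩
    rw [Matrix.range_empty, Submodule.span_empty]
    exact h0
  · intro t
    obtain ⟨a, ha⟩ := hs2 ((t 2, t 1), t 0)
    refine ⟨a, ?_⟩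
    funext j
    fin_cases j
    · exact congrArg Prod.snd ha
    · exact congrArg (fun x => x.1.2) ha
    · exact congrArg (fun x => x.1.1) ha

end D687
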