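import Pool.Agent.Lib_MP_d687bf.Cup
import Pool.Agent.Lib_MP_d687bf.Count
import Pool.Agent.Lib_MP_d687bf.Corank

/-!
MP_d687bf, E2: (4.1) from `count`, with `H = H(V)`, `I = I(V)`, `T = T_V(k)`.
-/

set_option autoImplicit false

open Set Filter Topology

namespace D687

variable {p : ℕ} [Fact p.Prime] {D : Datum p} {V : Subgroup (FF p)}

private theorem Betas_isF_comb {α0 α1 α2 a F0 F1 F2 : FF p → ZMod p}
    (h0 : IsF V 1 α0 a F0) (h1 : IsF V 1 α1 a F1) (h2 : IsF V 1 α2 a F2) (c0 c1 c2 : ZMod p) :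
    IsF V 1 (c0 • α0 + c1 • α1 + c2 • α2) a (c0 • F0 + c1 • F1 + c2 • F2) :=
  ((h0.smul_left c0).add_left (h1.smul_left c1)).add_left (h2.smul_left c2)

private theorem Betas_redl_sum (V : Subgroup (FF p)) (β : Fin 3 → FF p → ℤ_[p])
    (c : Fin 3 → ℤ_[p]) : redl V (∑ j, c j • β j) =
      PadicInt.toZMod (c 0) • redl V (β 0) + PadicInt.toZMod (c 1) • redl V (β 1) +
        PadicInt.toZMod (c 2) • redl V (β 2) := by
  classical
  funext x
  simp only [redl, Fin.sum_univ_three, Pi.add_apply, Pi.smul_apply, Set.indicator_apply,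
    smul_eq_mul, map_add, map_mul]
  split_ifs <;> simp

/-- two independent vectors in `k^3` have a dual pair -/
private theorem Betas_dual (u v : Fin 3 → ZMod p)
    (h : LinearIndependent (ZMod p) (![u, v] : Fin 2 → Fin 3 → ZMod p)) :
    ∃ e f : Fin 3 → ZMod p, u ⬝ᵥ e = 1 ∧ u ⬝ᵥ f = 0 ∧ v ⬝ᵥ e = 0 ∧ v ⬝ᵥ f = 1 := by
  have hk : LinearMap.ker (Fintype.linearCombination (ZMod p) (![u, v] : Fin 2 → Fin 3 → ZMod p)) =
      ⊥ := LinearMap.ker_eq_bot.mpr (linearIndependent_iff_injective_fintypeLinearCombination.mp h)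
  obtain ⟨g, hg⟩ := LinearMap.exists_leftInverse_of_injective _ hk
  have hsum : ∀ w : Fin 3 → ZMod p, ∀ i : Fin 2, w ⬝ᵥ (fun j => g (Pi.single j 1) i) = g w i := by
    intro w i
    have h1 : w = ∑ j, w j • (Pi.single j 1 : Fin 3 → ZMod p) := by
      funext l
      simp [Finset.sum_apply, Pi.single_apply]
    conv_rhs => rw [h1, map_sum]
    simp only [dotProduct, Finset.sum_apply, map_smul, Pi.smul_apply, smul_eq_mul]
  have hu : g u = Pi.single 0 1 := by
    have h1 := LinearMap.congr_fun hg (Pi.single 0 1)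
    rw [LinearMap.comp_apply, Fintype.linearCombination_apply_single, one_smul,
      LinearMap.id_apply] at h1
    exact h1
  have hv : g v = Pi.single 1 1 := by
    have h1 := LinearMap.congr_fun hg (Pi.single 1 1)
    rw [LinearMap.comp_apply, Fintype.linearCombination_apply_single, one_smul,
      LinearMap.id_apply] at h1
    exact h1
  refine ⟨fun j => g (Pi.single j 1) 0, fun j => g (Pi.single j 1) 1, ?_, ?_, ?_, ?_⟩ <;>
    rw [hsum] <;> simp [hu, hv]

/-- (4.1) -/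
theorem exists_betas (hadm : Adm D V) {c : HH D V →ₗ[ZMod p] HH D V →ₗ[ZMod p] TV D V}
    (hc : IsCup D V c) (h4 : bV D V + 4 ≤ Module.finrank (ZMod p) (HH D V))
    (hrk : ∀ κ : Module.Dual (ZMod p) (TV D V), κ ≠ 0 →
      4 * bV D V + 1 ≤ Module.finrank (ZMod p) (LinearMap.range (c.compr₂ κ))) :
    ∃ β : Fin 3 → FF p → ℤ_[p], (∀ j, IsX D V (β j)) ∧
      LinearIndependent (ZMod p) (fun j => redl V (β j)) ∧
      ∀ t : Fin 3 → Fin D.n → FF p → ZMod p, (∀ j, t j ∈ Ck D V) →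
        ∃ a ∈ HH D V, ∀ j, ∃ F : FF p → ZMod p, IsF V 1 (redl V (β j)) a F ∧ ev D F = t j := by
  have hf1 : Module.Finite (ZMod p) (HH D V) := finite_HH D V hadm.isOpen
  have hf2 : Module.Finite (ZMod p) (TV D V) := finite_TV hadm
  have hle : II D V ≤ HH D V := II_le_HH hadm.isOpen hadm.hR
  obtain ⟨β, hβI, hβi, hβs⟩ := count c ((II D V).comap (HH D V).subtype) (by
    rw [LinearEquiv.finrank_eq (Submodule.comapSubtypeEquivOfLe hle)]
    exact finrank_HH_le hadm) h4 hrk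
  have hl : ∀ j, ∃ l, IsX D V l ∧ (β j : FF p → ZMod p) = redl V l := fun j =>
    mem_II_iff.mp (hβI j)
  choose l hlX hlr using hl
  refine ⟨l, hlX, ?_, ?_⟩
  · have h1 := hβi.map' (HH D V).subtype (Submodule.ker_subtype _)
    have h2 : (fun j => redl V (l j)) = (HH D V).subtype ∘ β := by
      funext j
      exact (hlr j).symm
    rw [h2]
    exact h1
  · intro t ht
    obtain ⟨a, ha⟩ := hβs fun j => Submodule.Quotient.mk ⟨t j, ht j⟩
    refine ⟨a, a.2, fun j => ?_⟩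
    obtain ⟨F, hF, hev⟩ := (hc.eq_iff hadm (β j) a ⟨t j, ht j⟩).mp (congrFun ha j)
    rw [hlr j] at hF
    exact ⟨F, hF, hev⟩

/-- Two combinations with independent reductions form a pair. -/
theorem isPair_comb (hadm : Adm D V) {β : Fin 3 → FF p → ℤ_[p]} (hβ : ∀ j, IsX D V (β j))
    (hs : ∀ t : Fin 3 → Fin D.n → FF p → ZMod p, (∀ j, t j ∈ Ck D V) →
        ∃ a ∈ HH D V, ∀ j, ∃ F : FF p → ZMod p, IsF V 1 (redl V (β j)) a F ∧ ev D F = t j)
    (c d : Fin 3 → ℤ_[p])
    (hcd : LinearIndependent (ZMod p)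
      (![fun j => PadicInt.toZMod (c j), fun j => PadicInt.toZMod (d j)] :
        Fin 2 → Fin 3 → ZMod p)) :
    IsPair D V (∑ j, c j • β j) (∑ j, d j • β j) := by
  have hX : ∀ e : Fin 3 → ℤ_[p], IsX D V (∑ j, e j • β j) := fun e =>
    IsX.sum _ _ fun j _ => (hβ j).smul (e j)
  refine ⟨hX c, hX d, fun t1 ht1 t2 ht2 => ?_⟩
  obtain ⟨e, f, h1, h2, h3, h4⟩ := Betas_dual _ _ hcd
  obtain ⟨a, ha, hF⟩ := hs (fun j => e j • t1 + f j • t2) fun j =>
    (Ck D V).add_mem ((Ck D V).smul_mem _ ht1) ((Ck D V).smul_mem _ ht2)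
  choose F hF hev using hF
  have key : ∀ u : Fin 3 → ℤ_[p],
      ev D (PadicInt.toZMod (u 0) • F 0 + PadicInt.toZMod (u 1) • F 1 +
        PadicInt.toZMod (u 2) • F 2) =
      ((fun j => PadicInt.toZMod (u j)) ⬝ᵥ e) • t1 +
        ((fun j => PadicInt.toZMod (u j)) ⬝ᵥ f) • t2 := by
    intro u
    funext i g
    have h5 : ∀ j, F j (g * D.r i * g⁻¹) = e j * t1 i g + f j * t2 i g := fun j =>
      congrFun (congrFun (hev j) i) g
    simp only [ev, Pi.add_apply, Pi.smul_apply, smul_eq_mul, h5, dotProduct, Fin.sum_univ_three]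
    ring
  refine ⟨a, ha, _, _, by
    rw [Betas_redl_sum]
    exact Betas_isF_comb (hF 0) (hF 1) (hF 2) _ _ _, ?_, by
    rw [Betas_redl_sum]
    exact Betas_isF_comb (hF 0) (hF 1) (hF 2) _ _ _, ?_⟩
  · rw [key c, h1, h2, one_smul, zero_smul, add_zero]
  · rw [key d, h3, h4, one_smul, zero_smul, zero_add]

theorem IsPair.neg {g1 g2 : FF p → ℤ_[p]} (h : IsPair D V g1 g2) : IsPair D V (-g1) (-g2) := by
  obtain ⟨h1, h2, h3⟩ := h
  have hn : ∀ l : FF p → ℤ_[p], redl V (-l) = (-1 : ZMod p) • redl V l := by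
    classical
    intro l
    funext x
    simp only [redl, Pi.smul_apply, Set.indicator_apply, Pi.neg_apply, map_neg, smul_eq_mul]
    split_ifs <;> simp
  have he : ∀ F : FF p → ZMod p, ev D ((-1 : ZMod p) • F) = -ev D F := by
    intro F
    funext i g
    simp [ev]
  refine ⟨h1.neg, h2.neg, fun t1 ht1 t2 ht2 => ?_⟩
  obtain ⟨a, ha, F1, F2, hF1, hF1', hF2, hF2'⟩ := h3 (-t1) ((Ck D V).neg_mem ht1) (-t2)
    ((Ck D V).neg_mem ht2)
  refine ⟨a, ha, (-1 : ZMod p) • F1, (-1 : ZMod p) • F2, ?_, ?_, ?_, ?_⟩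
  · rw [hn]
    exact hF1.smul_left _
  · rw [he, hF1', neg_neg]
  · rw [hn]
    exact hF2.smul_left _
  · rw [he, hF2', neg_neg]

theorem IsPair.swap {g1 g2 : FF p → ℤ_[p]} (h : IsPair D V g1 g2) : IsPair D V g2 g1 := by
  obtain ⟨h1, h2, h3⟩ := h
  refine ⟨h2, h1, fun t1 ht1 t2 ht2 => ?_⟩
  obtain ⟨a, ha, F1, F2, hF1, hF1', hF2, hF2'⟩ := h3 t2 ht2 t1 ht1
  exact ⟨a, ha, F2, F1, hF2, hF2', hF1, hF1'⟩

/-- For `x ∈ ℤ_p^3` there are two vectors orthogonal to `x` with independent reductions. -/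
theorem exists_orth (x : Fin 3 → ℤ_[p]) : ∃ c d : Fin 3 → ℤ_[p], ∑ j, c j * x j = 0 ∧
    ∑ j, d j * x j = 0 ∧ LinearIndependent (ZMod p)
      (![fun j => PadicInt.toZMod (c j), fun j => PadicInt.toZMod (d j)] :
        Fin 2 → Fin 3 → ZMod p) := by
  have key : ∀ i j k : Fin 3, i ≠ j → i ≠ k → j ≠ k → x i ∣ x j → x i ∣ x k →
      ∃ c d : Fin 3 → ℤ_[p], ∑ j, c j * x j = 0 ∧
      ∑ j, d j * x j = 0 ∧ LinearIndependent (ZMod p)
        (![fun j => PadicInt.toZMod (c j), fun j => PadicInt.toZMod (d j)] :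
          Fin 2 → Fin 3 → ZMod p) := by
    rintro i j k hij hik hjk ⟨y, hy⟩ ⟨z, hz⟩
    refine ⟨Pi.single j 1 - Pi.single i y, Pi.single k 1 - Pi.single i z, ?_, ?_, ?_⟩
    · simp only [Pi.sub_apply, sub_mul, Finset.sum_sub_distrib, Pi.single_apply, ite_mul,
        one_mul, zero_mul, Finset.sum_ite_eq', Finset.mem_univ, if_true]
      rw [hy]
      ring
    · simp only [Pi.sub_apply, sub_mul, Finset.sum_sub_distrib, Pi.single_apply, ite_mul,
        one_mul, zero_mul, Finset.sum_ite_eq', Finset.mem_univ, if_true]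
      rw [hz]
      ring
    · rw [LinearIndependent.pair_iff]
      intro s t hst
      have h1 := congrFun hst j
      have h2 := congrFun hst k
      simp [Pi.single_apply, hij.symm, hik.symm, hjk, hjk.symm] at h1 h2
      exact ⟨h1, h2⟩
  rcases ValuationRing.dvd_total (x 0) (x 1) with h01 | h10
  · rcases ValuationRing.dvd_total (x 0) (x 2) with h02 | h20
    · exact key 0 1 2 (by decide) (by decide) (by decide) h01 h02
    · exact key 2 0 1 (by decide) (by decide) (by decide) h20 (h20.trans h01)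
  · rcases ValuationRing.dvd_total (x 1) (x 2) with h12 | h21
    · exact key 1 0 2 (by decide) (by decide) (by decide) h10 h12
    · exact key 2 0 1 (by decide) (by decide) (by decide) (h21.trans h10) h21

end D687
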