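import Pool.Agent.Lib_MP_d687bf.Tpow

/-!
MP_d687bf, B4/B5: the ring `k[[S,T]]`, the embeddings `inc 0`, `inc 1` of `k[[T]]`, the reduction
`redS` (`S ↦ 0`) and the specialisations `phiE E` (`S ↦ X, T ↦ X^(p^E)`), `psiE E`
(`S ↦ X^(p^E), T ↦ X`). Mathlib: `RingTheory/MvPowerSeries/Substitution`
(`coeff_subst`, `subst_comp_subst_apply`, `continuous_subst`, `subst_X`).
-/

set_option autoImplicit false

open Set Filter Topology

namespace D687

variable {p : ℕ} [Fact p.Prime]

private lemma K2Facts_cont {σ τ : Type} {a : σ → MvPowerSeries τ (ZMod p)}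
    (ha : MvPowerSeries.HasSubst a) :
    Continuous (MvPowerSeries.substAlgHom (R := ZMod p) ha :
      MvPowerSeries σ (ZMod p) → MvPowerSeries τ (ZMod p)) := by
  let : UniformSpace (ZMod p) := ⊥
  have h := MvPowerSeries.continuous_subst (R := ZMod p) (S := ZMod p) ha
  rw [MvPowerSeries.coe_substAlgHom]
  exact h

private lemma K2Facts_inc (i : Fin 2) (f : K1 p) :
    inc i f = MvPowerSeries.subst (fun _ : Unit => (MvPowerSeries.X i : K2 p)) f :=
  MvPowerSeries.substAlgHom_apply _ _

private lemma K2Facts_redS (f : K2 p) :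
    redS f = MvPowerSeries.subst (fun i : Fin 2 => (if i = 0 then 0 else MvPowerSeries.X () :
      MvPowerSeries Unit (ZMod p))) f :=
  MvPowerSeries.substAlgHom_apply _ _

private lemma K2Facts_phiE (E : ℕ) (f : K2 p) :
    phiE E f = MvPowerSeries.subst (fun i : Fin 2 => (if i = 0 then MvPowerSeries.X () ^ 1 else
      MvPowerSeries.X () ^ (p ^ E) : MvPowerSeries Unit (ZMod p))) f :=
  MvPowerSeries.substAlgHom_apply _ _

private lemma K2Facts_psiE (E : ℕ) (f : K2 p) :
    psiE E f = MvPowerSeries.subst (fun i : Fin 2 => (if i = 0 then MvPowerSeries.X () ^ (p ^ E) else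
      MvPowerSeries.X () ^ 1 : MvPowerSeries Unit (ZMod p))) f :=
  MvPowerSeries.substAlgHom_apply _ _

private lemma K2Facts_dense (φ : K2 p →+* K1 p) (ι : K1 p →+* K2 p) (hφ : Continuous φ)
    (hι : Continuous ι) (E : ℕ) (h0 : φ (ι PowerSeries.X) = PowerSeries.X ^ (p ^ E)) (z : ℤ_[p]) :
    φ (ι (tpow z)) = tpow ((p : ℤ_[p]) ^ E * z) := by
  have hc1 : Continuous fun z : ℤ_[p] => φ (ι (tpow z)) := hφ.comp (hι.comp continuous_tpow)
  have hc2 : Continuous fun z : ℤ_[p] => tpow ((p : ℤ_[p]) ^ E * z) :=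
    continuous_tpow.comp (continuous_const.mul continuous_id)
  refine congrFun (DenseRange.equalizer (PadicInt.denseRange_natCast (p := p)) hc1 hc2 ?_) z
  funext n
  simp only [Function.comp_apply]
  have h1 : (p : ℤ_[p]) ^ E * (n : ℤ_[p]) = ((p ^ E * n : ℕ) : ℤ_[p]) := by
    push_cast
    ring
  have h2 : ((1 : K1 p) + PowerSeries.X) ^ (p ^ E) = 1 + PowerSeries.X ^ (p ^ E) := by
    have : CharP (K1 p) p :=
      charP_of_injective_ringHom (PowerSeries.C_injective (R := ZMod p)) p
    rw [add_pow_char_pow, one_pow]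
  rw [h1, tpow_nat, tpow_nat, map_pow, map_pow, map_add, map_one, map_add, map_one, pow_mul, h0, h2]

theorem continuous_inc (i : Fin 2) : Continuous (inc i : K1 p → K2 p) := by
  exact K2Facts_cont (hasSubst_inc (p := p) i)

theorem continuous_redS : Continuous (redS : K2 p → K1 p) := by
  exact K2Facts_cont (hasSubst_redS (p := p))

theorem continuous_phiE (E : ℕ) : Continuous (phiE E : K2 p → K1 p) := by
  exact K2Facts_cont (hasSubst_spec (p := p) 1 (p ^ E) one_ne_zero
    (pow_ne_zero _ (Fact.out : p.Prime).ne_zero))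

theorem continuous_psiE (E : ℕ) : Continuous (psiE E : K2 p → K1 p) := by
  exact K2Facts_cont (hasSubst_spec (p := p) (p ^ E) 1
    (pow_ne_zero _ (Fact.out : p.Prime).ne_zero) one_ne_zero)

theorem redS_inc_one (f : K1 p) : redS (inc 1 f) = f := by
  rw [K2Facts_redS, K2Facts_inc, MvPowerSeries.subst_comp_subst_apply (hasSubst_inc (p := p) 1)
    (hasSubst_redS (p := p))]
  simp only [MvPowerSeries.subst_X (hasSubst_redS (p := p)), one_ne_zero, if_false]
  exact congrFun MvPowerSeries.subst_self f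

theorem redS_inc_zero (f : K1 p) :
    redS (inc 0 f) = PowerSeries.C (PowerSeries.constantCoeff f) := by
  rw [K2Facts_redS, K2Facts_inc, MvPowerSeries.subst_comp_subst_apply (hasSubst_inc (p := p) 0)
    (hasSubst_redS (p := p))]
  simp only [MvPowerSeries.subst_X (hasSubst_redS (p := p)), if_true]
  have h := MvPowerSeries.subst_zero_eq_C_constantCoeff (S := ZMod p) (τ := Unit) (f := f)
  exact h.trans (by simp; rfl)

theorem redS_surjective : Function.Surjective (redS : K2 p → K1 p) := by
  exact fun f => ⟨inc 1 f, redS_inc_one f⟩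

/-- The kernel of `redS` is generated by `S`. -/
theorem redS_eq_zero_iff (f : K2 p) : redS f = 0 ↔ (MvPowerSeries.X 0 : K2 p) ∣ f := by
  have hcoef : ∀ e : Unit →₀ ℕ, MvPowerSeries.coeff e (redS f) =
      MvPowerSeries.coeff (Finsupp.single (1 : Fin 2) (e ())) f := by
    intro e
    have hprod : ∀ d : Fin 2 →₀ ℕ, (d.prod fun s n => ((if s = 0 then 0 else MvPowerSeries.X () :
        MvPowerSeries Unit (ZMod p))) ^ n) = 0 ^ (d 0) * MvPowerSeries.X () ^ (d 1) := by
      intro d
      rw [Finsupp.prod_fintype _ _ (fun i => pow_zero _), Fin.prod_univ_two, if_pos rfl,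
        if_neg one_ne_zero]
    rw [K2Facts_redS, MvPowerSeries.coeff_subst (hasSubst_redS (p := p)),
      finsum_eq_single _ (Finsupp.single (1 : Fin 2) (e ()))]
    · rw [hprod]
      have h1 : (Finsupp.single (1 : Fin 2) (e ())) 0 = 0 := by simp
      have h2 : (Finsupp.single (1 : Fin 2) (e ())) 1 = e () := by simp
      rw [h1, h2, pow_zero, one_mul, MvPowerSeries.coeff_X_pow, if_pos, smul_eq_mul, mul_one]
      ext
      simp
    · intro d hd
      rw [hprod]
      by_cases h0 : d 0 = 0
      · rw [h0, pow_zero, one_mul, MvPowerSeries.coeff_X_pow, if_neg, smul_zero]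
        intro h
        refine hd ?_
        ext i
        fin_cases i
        · simpa using h0
        · have : e () = d 1 := by rw [h]; simp
          simp [this]
      · rw [zero_pow h0, zero_mul, map_zero, smul_zero]
  constructor
  · intro h
    rw [MvPowerSeries.X_dvd_iff]
    intro m hm
    have h1 := hcoef (Finsupp.single () (m 1))
    rw [h, map_zero] at h1
    have h2 : m = Finsupp.single (1 : Fin 2) ((Finsupp.single () (m 1) : Unit →₀ ℕ) ()) := by
      ext i
      fin_cases i
      · simpa using hm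
      · simp
    rw [h2]
    exact h1.symm
  · rintro ⟨g, rfl⟩
    rw [map_mul]
    have : redS (MvPowerSeries.X 0 : K2 p) = 0 := by
      rw [K2Facts_redS, MvPowerSeries.subst_X (hasSubst_redS (p := p)), if_pos rfl]
    rw [this, zero_mul]

theorem phiE_inc_zero (E : ℕ) (f : K1 p) : phiE E (inc 0 f) = f := by
  have hb := hasSubst_spec (p := p) 1 (p ^ E) one_ne_zero (pow_ne_zero _ (Fact.out : p.Prime).ne_zero)
  rw [K2Facts_phiE, K2Facts_inc, MvPowerSeries.subst_comp_subst_apply (hasSubst_inc (p := p) 0) hb]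
  have h : (fun _ : Unit => MvPowerSeries.subst (fun i : Fin 2 => (if i = 0 then
      MvPowerSeries.X () ^ 1 else MvPowerSeries.X () ^ (p ^ E) : MvPowerSeries Unit (ZMod p)))
      (MvPowerSeries.X 0 : K2 p)) = MvPowerSeries.X := by
    funext _
    rw [MvPowerSeries.subst_X hb, if_pos rfl, pow_one]
  rw [h]
  exact congrFun MvPowerSeries.subst_self f

theorem psiE_inc_one (E : ℕ) (f : K1 p) : psiE E (inc 1 f) = f := by
  have hb := hasSubst_spec (p := p) (p ^ E) 1 (pow_ne_zero _ (Fact.out : p.Prime).ne_zero) one_ne_zero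
  rw [K2Facts_psiE, K2Facts_inc, MvPowerSeries.subst_comp_subst_apply (hasSubst_inc (p := p) 1) hb]
  have h : (fun _ : Unit => MvPowerSeries.subst (fun i : Fin 2 => (if i = 0 then
      MvPowerSeries.X () ^ (p ^ E) else MvPowerSeries.X () ^ 1 : MvPowerSeries Unit (ZMod p)))
      (MvPowerSeries.X 1 : K2 p)) = MvPowerSeries.X := by
    funext _
    rw [MvPowerSeries.subst_X hb, if_neg one_ne_zero, pow_one]
  rw [h]
  exact congrFun MvPowerSeries.subst_self f

/-- `phiE E (inc 1 (t ^ z)) = t ^ (p ^ E z)` (both sides are continuous in `z`; for natural `z` use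
`(1 + X ^ (p ^ E)) = (1 + X) ^ (p ^ E)`). -/
theorem phiE_inc_one_tpow (E : ℕ) (z : ℤ_[p]) :
    phiE E (inc 1 (tpow z)) = tpow ((p : ℤ_[p]) ^ E * z) := by
  have h0 : phiE E (inc 1 (PowerSeries.X : K1 p)) = PowerSeries.X ^ (p ^ E) := by
    rw [K2Facts_inc]
    have h1 : MvPowerSeries.subst (fun _ : Unit => (MvPowerSeries.X 1 : K2 p))
        (PowerSeries.X : K1 p) = MvPowerSeries.X 1 :=
      MvPowerSeries.subst_X (hasSubst_inc (p := p) 1) ()
    rw [h1, K2Facts_phiE, MvPowerSeries.subst_X (hasSubst_spec (p := p) 1 (p ^ E) one_ne_zero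
      (pow_ne_zero _ (Fact.out : p.Prime).ne_zero)), if_neg one_ne_zero]
    rfl
  exact K2Facts_dense (phiE E) (inc 1) (continuous_phiE E) (continuous_inc 1) E h0 z

theorem psiE_inc_zero_tpow (E : ℕ) (z : ℤ_[p]) :
    psiE E (inc 0 (tpow z)) = tpow ((p : ℤ_[p]) ^ E * z) := by
  have h0 : psiE E (inc 0 (PowerSeries.X : K1 p)) = PowerSeries.X ^ (p ^ E) := by
    rw [K2Facts_inc]
    have h1 : MvPowerSeries.subst (fun _ : Unit => (MvPowerSeries.X 0 : K2 p))
        (PowerSeries.X : K1 p) = MvPowerSeries.X 0 :=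
      MvPowerSeries.subst_X (hasSubst_inc (p := p) 0) ()
    rw [h1, K2Facts_psiE, MvPowerSeries.subst_X (hasSubst_spec (p := p) (p ^ E) 1
      (pow_ne_zero _ (Fact.out : p.Prime).ne_zero) one_ne_zero), if_pos rfl]
    rfl
  exact K2Facts_dense (psiE E) (inc 0) (continuous_psiE E) (continuous_inc 0) E h0 z

theorem phiE_surjective (E : ℕ) : Function.Surjective (phiE E : K2 p → K1 p) := by
  exact fun f => ⟨inc 0 f, phiE_inc_zero E f⟩

theorem psiE_surjective (E : ℕ) : Function.Surjective (psiE E : K2 p → K1 p) := by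
  exact fun f => ⟨inc 1 f, psiE_inc_one E f⟩

theorem isUnit_inc (i : Fin 2) (z : ℤ_[p]) : IsUnit (inc i (tpow z) : K2 p) := by
  exact (isUnit_tpow z).map (inc i)

theorem constantCoeff_inc (i : Fin 2) (f : K1 p) :
    MvPowerSeries.constantCoeff (inc i f : K2 p) = PowerSeries.constantCoeff f := by
  have h1 : inc i f = inc i (f - PowerSeries.C (PowerSeries.constantCoeff f)) +
      MvPowerSeries.C (PowerSeries.constantCoeff f) := by
    rw [map_sub, K2Facts_inc i (PowerSeries.C (PowerSeries.constantCoeff f))]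
    have := MvPowerSeries.subst_C (a := fun _ : Unit => (MvPowerSeries.X i : K2 p))
      (PowerSeries.constantCoeff f)
    rw [show (PowerSeries.C (PowerSeries.constantCoeff f) : K1 p) =
      MvPowerSeries.C (PowerSeries.constantCoeff f) from rfl, this]
    ring
  rw [h1, map_add, MvPowerSeries.constantCoeff_C, K2Facts_inc,
    MvPowerSeries.constantCoeff_subst_eq_zero (hasSubst_inc (p := p) i) (fun _ => by simp)
      (by
        change PowerSeries.constantCoeff (f - PowerSeries.C (PowerSeries.constantCoeff f)) = 0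
        simp), zero_add]

end D687
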