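import Pool.Agent.Lib_MP_d687bf.CEv
import Pool.Agent.Lib_MP_d687bf.K2Facts

/-!
MP_d687bf, C3: the actions used in the proof, characters, the `ℤ_p`-module `X(V)`.
-/

set_option autoImplicit false

open Set Filter Topology

namespace D687

variable {p : ℕ} [Fact p.Prime] {D : Datum p} {V : Subgroup (FF p)}

theorem isActR_triv {A M : Type} [CommRing A] [AddCommGroup M] [Module A M]
    [TopologicalSpace M] : IsActR D V (triv A M) := by
  exact { one := rfl
          mul := fun _ _ _ _ => rfl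
          cont := continuous_snd.continuousOn
          triv := fun _ _ => rfl }

section

variable {A : Type} [CommRing A] [TopologicalSpace A] [ProPRing p A]

theorem IsChar.isActR {χ : FF p → A} (h : IsChar D V χ) : IsActR D V (scal χ) := by
  refine { one := ?_, mul := ?_, cont := ?_, triv := ?_ }
  · refine LinearMap.ext fun m => ?_
    change χ 1 • m = m
    rw [h.one, one_smul]
  · intro g hg k hk
    refine LinearMap.ext fun m => ?_
    change χ (g * k) • m = χ g • χ k • m
    rw [h.mul g hg k hk, mul_smul]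
  · have h1 : ContinuousOn (fun x : FF p × A => χ x.1 * x.2)
        ((V : Set (FF p)) ×ˢ (univ : Set A)) :=
      (h.cont.comp continuous_fst.continuousOn (fun x hx => hx.1)).mul
        continuous_snd.continuousOn
    exact h1
  · intro x hx
    refine LinearMap.ext fun m => ?_
    change χ x • m = m
    rw [h.triv x hx, one_smul]

theorem isChar_one : IsChar D V (1 : FF p → A) := by
  exact ⟨rfl, fun _ _ _ _ => (mul_one 1).symm, continuousOn_const, fun _ _ => rfl⟩

omit [ProPRing p A] in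
theorem IsChar.mono {V' : Subgroup (FF p)} (hle : V' ≤ V) {χ : FF p → A} (h : IsChar D V χ) :
    IsChar D V' χ := by
  exact ⟨h.one, fun g hg k hk => h.mul g (hle hg) k (hle hk), h.cont.mono hle, h.triv⟩

theorem IsChar.map {A' : Type} [CommRing A'] [TopologicalSpace A'] [ProPRing p A'] {χ : FF p → A}
    (h : IsChar D V χ) (φ : A →+* A') (hφ : Continuous φ) : IsChar D V fun x => φ (χ x) := by
  refine ⟨?_, fun g hg k hk => ?_, hφ.comp_continuousOn h.cont, fun x hx => ?_⟩
  · rw [h.one, map_one]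
  · rw [h.mul g hg k hk, map_mul]
  · rw [h.triv x hx, map_one]

/-- `χ` and `χ'` are inverse on `V`. -/
theorem IsChar.isUnit {χ : FF p → A} (h : IsChar D V χ) {v : FF p} (hv : v ∈ V) :
    χ v * χ v⁻¹ = 1 := by
  rw [← h.mul v hv v⁻¹ (V.inv_mem hv), mul_inv_cancel, h.one]

omit [Fact p.Prime] [ProPRing p A] in
theorem scal_one : (scal (1 : FF p → A)) = triv A A := by
  funext g
  exact one_smul A LinearMap.id

end

/-! ### `X(V)` -/

theorem IsX.zero : IsX D V 0 := by
  exact ⟨continuousOn_const, fun _ _ _ _ => (add_zero 0).symm, fun _ _ => rfl⟩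

theorem IsX.map_add' {l m : FF p → ℤ_[p]} (hl : IsX D V l) (hm : IsX D V m) :
    IsX D V (l + m) := by
  refine ⟨hl.cont.add hm.cont, fun g hg h hh => ?_, fun x hx => ?_⟩
  · simp only [Pi.add_apply, hl.add g hg h hh, hm.add g hg h hh]
    ring
  · simp only [Pi.add_apply, hl.triv x hx, hm.triv x hx, add_zero]

theorem IsX.neg {l : FF p → ℤ_[p]} (hl : IsX D V l) : IsX D V (-l) := by
  refine ⟨hl.cont.neg, fun g hg h hh => ?_, fun x hx => ?_⟩
  · simp only [Pi.neg_apply, hl.add g hg h hh]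
    ring
  · simp only [Pi.neg_apply, hl.triv x hx, neg_zero]

theorem IsX.smul {l : FF p → ℤ_[p]} (hl : IsX D V l) (c : ℤ_[p]) : IsX D V (c • l) := by
  refine ⟨hl.cont.const_smul c, fun g hg h hh => ?_, fun x hx => ?_⟩
  · simp only [Pi.smul_apply, hl.add g hg h hh, smul_add]
  · simp only [Pi.smul_apply, hl.triv x hx, smul_zero]

theorem IsX.sum {ι : Type} (s : Finset ι) (f : ι → FF p → ℤ_[p]) (h : ∀ i ∈ s, IsX D V (f i)) :
    IsX D V (∑ i ∈ s, f i) := by
  classical
  induction s using Finset.induction_on with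
  | empty =>
    rw [Finset.sum_empty]
    exact IsX.zero
  | insert a s ha ih =>
    rw [Finset.sum_insert ha]
    exact (h a (Finset.mem_insert_self a s)).map_add'
      (ih fun i hi => h i (Finset.mem_insert_of_mem hi))

theorem IsX.mono {V' : Subgroup (FF p)} (hle : V' ≤ V) {l : FF p → ℤ_[p]} (hl : IsX D V l) :
    IsX D V' l := by
  exact ⟨hl.cont.mono hle, fun g hg h hh => hl.add g (hle hg) h (hle hh), hl.triv⟩

theorem IsX.one_eq {l : FF p → ℤ_[p]} (hl : IsX D V l) : l 1 = 0 := by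
  exact hl.triv 1 D.R.one_mem

theorem IsX.inv_eq {l : FF p → ℤ_[p]} (hl : IsX D V l) {v : FF p} (hv : v ∈ V) :
    l v⁻¹ = -l v := by
  have h := hl.add v hv v⁻¹ (V.inv_mem hv)
  rw [mul_inv_cancel, hl.one_eq] at h
  exact (neg_eq_of_add_eq_zero_right h.symm).symm

theorem IsX.pow_eq {l : FF p → ℤ_[p]} (hl : IsX D V l) {v : FF p} (hv : v ∈ V) (n : ℕ) :
    l (v ^ n) = n * l v := by
  induction n with
  | zero => rw [pow_zero, hl.one_eq, Nat.cast_zero, zero_mul]
  | succ n ih =>
    rw [pow_succ, hl.add _ (V.pow_mem hv n) v hv, ih]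
    push_cast
    ring

theorem IsX.zpow_eq {l : FF p → ℤ_[p]} (hl : IsX D V l) {v : FF p} (hv : v ∈ V) (n : ℤ) :
    l (v ^ n) = n * l v := by
  cases n with
  | ofNat n =>
    rw [Int.ofNat_eq_natCast, zpow_natCast, hl.pow_eq hv n, Int.cast_natCast]
  | negSucc n =>
    rw [zpow_negSucc, hl.inv_eq (V.pow_mem hv _), hl.pow_eq hv, Int.cast_negSucc]
    ring

/-- Conjugation: `x ↦ l (g x g⁻¹)` is in `X` of the conjugate subgroup. -/
theorem IsX.conj (hn : V.Normal) {l : FF p → ℤ_[p]} (hl : IsX D V l) (g : FF p) :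
    IsX D V fun x => l (g * x * g⁻¹) := by
  have hc : ∀ x ∈ V, g * x * g⁻¹ ∈ V := fun x hx => hn.conj_mem x hx g
  refine ⟨?_, fun x hx y hy => ?_, fun x hx => hl.triv _ ((normal_R D).conj_mem x hx g)⟩
  · have h1 : Continuous fun x : FF p => g * x * g⁻¹ := by fun_prop
    exact hl.cont.comp h1.continuousOn hc
  · have h1 : g * (x * y) * g⁻¹ = g * x * g⁻¹ * (g * y * g⁻¹) := by group
    change l (g * (x * y) * g⁻¹) = l (g * x * g⁻¹) + l (g * y * g⁻¹)
    rw [h1, hl.add _ (hc x hx) _ (hc y hy)]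

/-! ### Characters from `X(V)` -/

theorem IsX.isChar_chr {l : FF p → ℤ_[p]} (hl : IsX D V l) : IsChar D V (chr l) := by
  refine ⟨?_, fun g hg h hh => ?_, continuous_tpow.comp_continuousOn hl.cont, fun x hx => ?_⟩
  · unfold chr
    rw [hl.one_eq, tpow_zero]
  · unfold chr
    rw [hl.add g hg h hh, tpow_add]
  · unfold chr
    rw [hl.triv x hx, tpow_zero]

theorem isChar_chr2 {m l : FF p → ℤ_[p]} (hm : IsX D V m) (hl : IsX D V l) :
    IsChar D V (chr2 m l) := by
  have h1 := hm.isChar_chr.map (inc 0) (continuous_inc (p := p) 0)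
  have h2 := hl.isChar_chr.map (inc 1) (continuous_inc (p := p) 1)
  refine ⟨?_, fun g hg h hh => ?_, h1.cont.mul h2.cont, fun x hx => ?_⟩
  · have e1 := h1.one
    have e2 := h2.one
    unfold chr at e1 e2
    unfold chr2
    rw [e1, e2, mul_one]
  · have e1 := h1.mul g hg h hh
    have e2 := h2.mul g hg h hh
    unfold chr at e1 e2
    unfold chr2
    rw [e1, e2]
    ring
  · have e1 := h1.triv x hx
    have e2 := h2.triv x hx
    unfold chr at e1 e2
    unfold chr2
    rw [e1, e2, mul_one]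

theorem IsX.isChar_chrZ {l : FF p → ℤ_[p]} (hl : IsX D V l) : IsChar D V (chrZ l) := by
  refine ⟨?_, fun g hg h hh => ?_, continuous_tpowZ.comp_continuousOn hl.cont, fun x hx => ?_⟩
  · unfold chrZ
    rw [hl.one_eq, tpowZ_zero]
  · unfold chrZ
    rw [hl.add g hg h hh, tpowZ_add]
  · unfold chrZ
    rw [hl.triv x hx, tpowZ_zero]

theorem chr_mul_neg (l : FF p → ℤ_[p]) (g : FF p) : chr l g * chr (-l) g = 1 := by
  exact tpow_mul_neg (l g)

theorem chr2_mul_neg (m l : FF p → ℤ_[p]) (g : FF p) : chr2 m l g * chr2 (-m) (-l) g = 1 := by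
  have h1 : inc 0 (tpow (m g)) * inc 0 (tpow (-m g)) = (1 : K2 p) := by
    rw [← map_mul, tpow_mul_neg, map_one]
  have h2 : inc 1 (tpow (l g)) * inc 1 (tpow (-l g)) = (1 : K2 p) := by
    rw [← map_mul, tpow_mul_neg, map_one]
  change inc 0 (tpow (m g)) * inc 1 (tpow (l g)) *
    (inc 0 (tpow (-m g)) * inc 1 (tpow (-l g))) = 1
  rw [mul_mul_mul_comm, h1, h2, mul_one]

theorem redS_chr2 (m l : FF p → ℤ_[p]) : (fun g => redS (chr2 m l g)) = chr l := by
  funext g
  unfold chr2 chr
  rw [map_mul, redS_inc_zero, redS_inc_one, constantCoeff_tpow, map_one, one_mul]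

theorem phiE_chr2 (E : ℕ) (m l : FF p → ℤ_[p]) :
    (fun g => phiE E (chr2 m l g)) = chr (m + ((p : ℤ_[p]) ^ E) • l) := by
  funext g
  change phiE E (inc 0 (tpow (m g)) * inc 1 (tpow (l g))) =
    tpow (m g + (p : ℤ_[p]) ^ E * l g)
  rw [map_mul, phiE_inc_zero, phiE_inc_one_tpow, tpow_add]

theorem psiE_chr2 (E : ℕ) (m l : FF p → ℤ_[p]) :
    (fun g => psiE E (chr2 m l g)) = chr (l + ((p : ℤ_[p]) ^ E) • m) := by
  funext g
  change psiE E (inc 0 (tpow (m g)) * inc 1 (tpow (l g))) =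
    tpow (l g + (p : ℤ_[p]) ^ E * m g)
  rw [map_mul, psiE_inc_zero_tpow, psiE_inc_one, tpow_add, mul_comm]

theorem redP_chrZ (l : FF p → ℤ_[p]) : (fun g => redP (chrZ l g)) = chr l := by
  rfl

theorem constantCoeff_chr (l : FF p → ℤ_[p]) :
    (fun g => PowerSeries.constantCoeff (chr l g)) = (1 : FF p → ZMod p) := by
  funext g
  exact constantCoeff_tpow (l g)

theorem constantCoeff_chr2 (m l : FF p → ℤ_[p]) :
    (fun g => MvPowerSeries.constantCoeff (chr2 m l g)) = (1 : FF p → ZMod p) := by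
  funext g
  unfold chr2
  rw [map_mul, constantCoeff_inc, constantCoeff_inc, constantCoeff_tpow, constantCoeff_tpow,
    mul_one]
  rfl

/-! ### Reductions -/

private theorem CAct_toZMod_surj :
    Function.Surjective (PadicInt.toZMod : ℤ_[p] →+* ZMod p) := by
  intro z
  have : NeZero p := ⟨(Fact.out : p.Prime).ne_zero⟩
  refine ⟨(z.val : ℤ_[p]), ?_⟩
  rw [map_natCast, ZMod.natCast_zmod_val]

private theorem CAct_toZMod_eq (a : ℤ_[p]) : PadicInt.toZMod a = 0 ↔ (p : ℤ_[p]) ∣ a := by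
  rw [← RingHom.mem_ker, PadicInt.ker_toZMod, PadicInt.maximalIdeal_eq_span_p,
    Ideal.mem_span_singleton]

private theorem CAct_continuous_toZMod : Continuous (PadicInt.toZMod : ℤ_[p] → ZMod p) := by
  have h0 : IsOpen {x : ℤ_[p] | PadicInt.toZMod x = 0} := by
    have h1 : {x : ℤ_[p] | PadicInt.toZMod x = 0} = Metric.ball (0 : ℤ_[p]) 1 := by
      ext x
      rw [Set.mem_ofPred_eq, ← RingHom.mem_ker, PadicInt.ker_toZMod,
        IsLocalRing.mem_maximalIdeal, mem_nonunits_iff, PadicInt.not_isUnit_iff,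
        mem_ball_zero_iff]
    rw [h1]
    exact Metric.isOpen_ball
  refine continuous_discrete_rng.2 fun c => ?_
  rw [isOpen_iff_mem_nhds]
  intro x hx
  have h2 : (fun y : ℤ_[p] => y - x) ⁻¹' {x : ℤ_[p] | PadicInt.toZMod x = 0} ∈ 𝓝 x := by
    refine (h0.preimage (by fun_prop)).mem_nhds ?_
    simp
  filter_upwards [h2] with y hy
  have h3 : PadicInt.toZMod (y - x) = 0 := hy
  rw [map_sub, sub_eq_zero] at h3
  rw [Set.mem_preimage, Set.mem_singleton_iff] at hx ⊢
  rw [h3, hx]

/-- A function continuous on an open subgroup, extended by zero, is continuous. -/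
private theorem CAct_indicator {M : Type} [AddCommGroup M] [TopologicalSpace M]
    (hV : IsOpen (V : Set (FF p))) {f : FF p → M} (hf : ContinuousOn f (V : Set (FF p))) :
    Continuous (Set.indicator (V : Set (FF p)) f) := by
  have hcl : IsClosed (V : Set (FF p)) := V.isClosed_of_isOpen hV
  have hcp : IsClopen (V : Set (FF p)) := ⟨hcl, hV⟩
  refine continuous_iff_continuousAt.2 fun x => ?_
  by_cases hx : x ∈ (V : Set (FF p))
  · refine (hf.continuousAt (hV.mem_nhds hx)).congr ?_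
    filter_upwards [hV.mem_nhds hx] with y hy
    exact (Set.indicator_of_mem hy f).symm
  · refine (continuousAt_const (y := (0 : M))).congr ?_
    filter_upwards [hcl.isOpen_compl.mem_nhds hx] with y hy
    exact (Set.indicator_of_notMem hy f).symm

private theorem CAct_redl_of_mem {x : FF p} (hx : x ∈ V) (l : FF p → ℤ_[p]) :
    redl V l x = PadicInt.toZMod (l x) :=
  Set.indicator_of_mem (show x ∈ (V : Set (FF p)) from hx) _

private theorem CAct_redl_of_notMem {x : FF p} (hx : x ∉ V) (l : FF p → ℤ_[p]) :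
    redl V l x = 0 :=
  Set.indicator_of_notMem (show x ∉ (V : Set (FF p)) from hx) _

private theorem CAct_redl_mem (hV : IsOpen (V : Set (FF p))) (hR : D.R ≤ V)
    {l : FF p → ℤ_[p]} (hl : IsX D V l) : redl V l ∈ HH D V := by
  refine ⟨⟨?_, fun x hx => CAct_redl_of_notMem hx l, fun g hg h hh => ?_⟩, ?_⟩
  · exact CAct_indicator hV (CAct_continuous_toZMod.comp_continuousOn hl.cont)
  · change redl V l (g * h) = redl V l g + redl V l h
    rw [CAct_redl_of_mem hg, CAct_redl_of_mem hh, CAct_redl_of_mem (V.mul_mem hg hh),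
      hl.add g hg h hh, map_add]
  · change ev D (redl V l) = 0
    funext i g
    have h1 := r_mem_R D i g
    change redl V l (g * D.r i * g⁻¹) = 0
    rw [CAct_redl_of_mem (hR h1), hl.triv _ h1, map_zero]

private theorem CAct_redl_add (l m : FF p → ℤ_[p]) :
    redl V (l + m) = redl V l + redl V m := by
  funext x
  by_cases hx : x ∈ V
  · rw [Pi.add_apply, CAct_redl_of_mem hx, CAct_redl_of_mem hx, CAct_redl_of_mem hx,
      Pi.add_apply, map_add]
  · rw [Pi.add_apply, CAct_redl_of_notMem hx, CAct_redl_of_notMem hx, CAct_redl_of_notMem hx,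
      add_zero]

private theorem CAct_redl_smul (c : ℤ_[p]) (l : FF p → ℤ_[p]) :
    redl V (c • l) = (PadicInt.toZMod c : ZMod p) • redl V l := by
  funext x
  by_cases hx : x ∈ V
  · rw [Pi.smul_apply, CAct_redl_of_mem hx, CAct_redl_of_mem hx, Pi.smul_apply, smul_eq_mul,
      smul_eq_mul, map_mul]
  · rw [Pi.smul_apply, CAct_redl_of_notMem hx, CAct_redl_of_notMem hx, smul_zero]

private theorem CAct_redl_zero : redl V (0 : FF p → ℤ_[p]) = 0 := by
  funext x
  by_cases hx : x ∈ V
  · rw [CAct_redl_of_mem hx, Pi.zero_apply, map_zero, Pi.zero_apply]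
  · rw [CAct_redl_of_notMem hx, Pi.zero_apply]

private theorem CAct_Z1 {A : Type} [CommRing A] [TopologicalSpace A] [ProPRing p A]
    {χ χ' : FF p → A} (h : ∀ v ∈ V, χ v = χ' v) : Z1 V (scal χ) = Z1 V (scal χ') := by
  ext α
  constructor
  · rintro ⟨c, s, m⟩
    refine ⟨c, s, fun g hg k hk => ?_⟩
    rw [m g hg k hk]
    change α g + χ g • α k = α g + χ' g • α k
    rw [h g hg]
  · rintro ⟨c, s, m⟩
    refine ⟨c, s, fun g hg k hk => ?_⟩
    rw [m g hg k hk]
    change α g + χ' g • α k = α g + χ g • α k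
    rw [h g hg]

private theorem CAct_CV {A : Type} [CommRing A] [TopologicalSpace A] [ProPRing p A]
    {χ χ' : FF p → A} (h : ∀ v ∈ V, χ v = χ' v) : CV D V (scal χ) = CV D V (scal χ') := by
  ext t
  constructor
  · rintro ⟨h1, h2⟩
    refine ⟨fun i v hv g => ?_, h2⟩
    rw [h1 i v hv g]
    change χ v • t i g = χ' v • t i g
    rw [h v hv]
  · rintro ⟨h1, h2⟩
    refine ⟨fun i v hv g => ?_, h2⟩
    rw [h1 i v hv g]
    change χ' v • t i g = χ v • t i g
    rw [h v hv]

theorem redl_mem_HH (hV : IsOpen (V : Set (FF p))) (hR : D.R ≤ V) {l : FF p → ℤ_[p]}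
    (hl : IsX D V l) : redl V l ∈ HH D V := by
  exact CAct_redl_mem hV hR hl

/-- `I(V)` consists of the reductions of the elements of `X(V)`. -/
theorem mem_II_iff {a : FF p → ZMod p} : a ∈ II D V ↔ ∃ l, IsX D V l ∧ a = redl V l := by
  constructor
  · intro ha
    refine Submodule.span_induction (p := fun a _ => ∃ l, IsX D V l ∧ a = redl V l)
      ?_ ?_ ?_ ?_ ha
    · rintro b ⟨l, hl, h1, h2⟩
      refine ⟨l, hl, funext fun x => ?_⟩
      by_cases hx : x ∈ V
      · rw [h1 x hx, CAct_redl_of_mem hx]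
      · rw [h2 x hx, CAct_redl_of_notMem hx]
    · exact ⟨0, IsX.zero, CAct_redl_zero.symm⟩
    · rintro b c _ _ ⟨l, hl, rfl⟩ ⟨m, hm, rfl⟩
      exact ⟨l + m, hl.map_add' hm, (CAct_redl_add l m).symm⟩
    · rintro c b _ ⟨l, hl, rfl⟩
      obtain ⟨z, rfl⟩ := CAct_toZMod_surj c
      exact ⟨z • l, hl.smul z, (CAct_redl_smul z l).symm⟩
  · rintro ⟨l, hl, rfl⟩
    exact Submodule.subset_span
      ⟨l, hl, fun x hx => CAct_redl_of_mem hx l, fun x hx => CAct_redl_of_notMem hx l⟩

theorem II_le_HH (hV : IsOpen (V : Set (FF p))) (hR : D.R ≤ V) : II D V ≤ HH D V := by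
  intro a ha
  obtain ⟨l, hl, rfl⟩ := mem_II_iff.1 ha
  exact redl_mem_HH hV hR hl

/-- If the reduction of `l` is zero then `l = p l'` on `V`. -/
theorem exists_div {l : FF p → ℤ_[p]} (hl : IsX D V l) (h : redl V l = 0) :
    ∃ l', IsX D V l' ∧ ∀ x ∈ V, l x = p * l' x := by
  classical
  have hp0 : (p : ℤ_[p]) ≠ 0 := Nat.cast_ne_zero.2 (Fact.out : p.Prime).ne_zero
  have h1 : ∀ x : FF p, ∃ y : ℤ_[p], (x ∈ V → l x = p * y) ∧ (x ∉ V → y = 0) := by
    intro x
    by_cases hx : x ∈ V
    · have h2 : PadicInt.toZMod (l x) = 0 := by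
        rw [← CAct_redl_of_mem hx l, h, Pi.zero_apply]
      obtain ⟨y, hy⟩ := (CAct_toZMod_eq (l x)).1 h2
      exact ⟨y, fun _ => hy, fun h3 => absurd hx h3⟩
    · exact ⟨0, fun h3 => absurd h3 hx, fun _ => rfl⟩
  choose l' hl1 hl2 using h1
  have hinj : Function.Injective fun y : ℤ_[p] => (p : ℤ_[p]) * y := fun a b hab =>
    mul_left_cancel₀ hp0 hab
  have hemb : Topology.IsClosedEmbedding fun y : ℤ_[p] => (p : ℤ_[p]) * y :=
    Continuous.isClosedEmbedding (by fun_prop) hinj
  refine ⟨l', ⟨?_, fun g hg k hk => ?_, fun x hx => ?_⟩, fun x hx => hl1 x hx⟩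
  · rw [hemb.isInducing.continuousOn_iff]
    exact hl.cont.congr fun x hx => (hl1 x hx).symm
  · refine mul_left_cancel₀ hp0 ?_
    rw [mul_add, ← hl1 _ (V.mul_mem hg hk), ← hl1 _ hg, ← hl1 _ hk, hl.add g hg k hk]
  · by_cases hV : x ∈ V
    · have h3 := hl1 x hV
      rw [hl.triv x hx] at h3
      exact (mul_eq_zero.1 h3.symm).resolve_left hp0
    · exact hl2 x hV

/-- `l ∈ X(V)` modified outside `V`, `V` open: a continuous function. -/
theorem IsX.indicator (hV : IsOpen (V : Set (FF p))) {l : FF p → ℤ_[p]} (hl : IsX D V l) :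
    IsX D V (Set.indicator (V : Set (FF p)) l) ∧
      Continuous (Set.indicator (V : Set (FF p)) l) := by
  refine ⟨⟨?_, fun g hg h hh => ?_, fun x hx => ?_⟩, CAct_indicator hV hl.cont⟩
  · exact hl.cont.congr fun x hx => Set.indicator_of_mem hx l
  · rw [Set.indicator_of_mem (show g * h ∈ (V : Set (FF p)) from V.mul_mem hg hh),
      Set.indicator_of_mem (show g ∈ (V : Set (FF p)) from hg),
      Set.indicator_of_mem (show h ∈ (V : Set (FF p)) from hh), hl.add g hg h hh]
  · by_cases hx' : x ∈ (V : Set (FF p))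
    · rw [Set.indicator_of_mem hx', hl.triv x hx]
    · rw [Set.indicator_of_notMem hx']

/-- `Kills` for `χ` depends only on the values of `χ` on `V`. -/
theorem Kills_congr {A : Type} [CommRing A] [TopologicalSpace A] [ProPRing p A]
    {χ χ' : FF p → A} (h : ∀ v ∈ V, χ v = χ' v) (a : A) :
    Kills D V (scal χ) a ↔ Kills D V (scal χ') a := by
  unfold Kills
  rw [CAct_Z1 h, CAct_CV h]

theorem Z1_congr {A : Type} [CommRing A] [TopologicalSpace A] [ProPRing p A]
    {χ χ' : FF p → A} (h : ∀ v ∈ V, χ v = χ' v) : Z1 V (scal χ) = Z1 V (scal χ') := by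
  exact CAct_Z1 h

theorem ZR_congr {A : Type} [CommRing A] [TopologicalSpace A] [ProPRing p A]
    {χ χ' : FF p → A} (h : ∀ v ∈ V, χ v = χ' v) : ZR D V (scal χ) = ZR D V (scal χ') := by
  unfold ZR
  rw [CAct_Z1 h]

end D687
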