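import Pool.Agent.Lib_MP_d687bf.Defs2
import Pool.Agent.Lib_MP_d687bf.FFBasic

/-!
MP_d687bf, C2: elementary facts on crossed homomorphisms, `ev`, `C_V`, `Z_R`.
-/

set_option autoImplicit false

open Set Filter Topology

namespace D687

variable {p : ℕ} [Fact p.Prime] {D : Datum p} {V : Subgroup (FF p)}
variable {A M : Type} [CommRing A] [AddCommGroup M] [Module A M] [TopologicalSpace M]
  [IsTopologicalAddGroup M] [ContinuousConstSMul A M] {act : FF p → M →ₗ[A] M} {α : FF p → M}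

private theorem CEv_mul {v w : FF p} (hα : α ∈ Z1 V act) (hv : v ∈ V) (hw : w ∈ V) :
    α (v * w) = α v + act v (α w) := IsZ.mul (hα : IsZ V (fun g => act g) α) v hv w hw

theorem Z1_one (hact : IsAct V act) (hα : α ∈ Z1 V act) : α 1 = 0 := by
  have h := CEv_mul hα V.one_mem V.one_mem
  rw [mul_one, hact.one, LinearMap.id_apply] at h
  simpa using h

theorem Z1_inv (hact : IsAct V act) (hα : α ∈ Z1 V act) {v : FF p} (hv : v ∈ V) :
    α v⁻¹ = -act v⁻¹ (α v) := by
  have h := CEv_mul hα (V.inv_mem hv) hv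
  rw [inv_mul_cancel, Z1_one hact hα] at h
  exact eq_neg_of_add_eq_zero_left h.symm

/-- `α (v s v⁻¹) = α v + v (α s) - (v s v⁻¹) (α v)`. -/
theorem Z1_conj (hact : IsAct V act) (hα : α ∈ Z1 V act) {v s : FF p} (hv : v ∈ V)
    (hs : s ∈ V) : α (v * s * v⁻¹) = α v + act v (α s) - act (v * s * v⁻¹) (α v) := by
  rw [CEv_mul hα (V.mul_mem hv hs) (V.inv_mem hv), CEv_mul hα hv hs, Z1_inv hact hα hv,
    hact.mul (v * s) (V.mul_mem hv hs) v⁻¹ (V.inv_mem hv), LinearMap.comp_apply, map_neg,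
    sub_eq_add_neg]

/-- Powers. -/
theorem Z1_pow (hact : IsAct V act) (hα : α ∈ Z1 V act) {v : FF p} (hv : v ∈ V) (n : ℕ) :
    α (v ^ n) = ∑ i ∈ Finset.range n, act (v ^ i) (α v) := by
  induction n with
  | zero => simp [Z1_one hact hα]
  | succ n ih =>
    rw [pow_succ, CEv_mul hα (V.pow_mem hv n) hv, ih, Finset.sum_range_succ]

/-- (C1) for elements of `R`. -/
theorem Z1_conj_R (hR : D.R ≤ V) (hact : IsActR D V act) (hα : α ∈ Z1 V act) {v x : FF p}
    (hv : v ∈ V) (hx : x ∈ D.R) : α (v * x * v⁻¹) = act v (α x) := by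
  have h1 : v * x * v⁻¹ ∈ D.R := (normal_R D).conj_mem x hx v
  rw [Z1_conj hact.toIsAct hα hv (hR hx), hact.triv _ h1, LinearMap.id_apply]
  abel

theorem Z1_add_R (hR : D.R ≤ V) (hact : IsActR D V act) (hα : α ∈ Z1 V act) {x v : FF p}
    (hx : x ∈ D.R) (hv : v ∈ V) : α (x * v) = α x + α v := by
  rw [CEv_mul hα (hR hx) hv, hact.triv x hx, LinearMap.id_apply]

theorem ev_mem (hR : D.R ≤ V) (hact : IsActR D V act) (hα : α ∈ Z1 V act) :
    ev D α ∈ CV D V act := by
  refine ⟨fun i v hv g => ?_, fun i g => ?_⟩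
  · have h1 : v * g * D.r i * (v * g)⁻¹ = v * (g * D.r i * g⁻¹) * v⁻¹ := by group
    change α (v * g * D.r i * (v * g)⁻¹) = act v (α (g * D.r i * g⁻¹))
    rw [h1]
    exact Z1_conj_R hR hact hα hv (r_mem_R D i g)
  · have h1 : D.ω i * D.r i * (D.ω i)⁻¹ = D.r i := by
      rw [mul_inv_eq_iff_eq_mul]
      exact ((Commute.refl (D.ω i)).pow_right _).eq
    have h2 : g * D.ω i * D.r i * (g * D.ω i)⁻¹ = g * (D.ω i * D.r i * (D.ω i)⁻¹) * g⁻¹ := by
      group
    change α (g * D.ω i * D.r i * (g * D.ω i)⁻¹) = α (g * D.r i * g⁻¹)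
    rw [h2, h1]

/-- A crossed hom is in `Z_R` iff it vanishes on `R`. -/
theorem ZR_iff [T2Space M] (hR : D.R ≤ V) (hact : IsActR D V act) :
    α ∈ ZR D V act ↔ α ∈ Z1 V act ∧ ∀ x ∈ D.R, α x = 0 := by
  constructor
  · rintro ⟨h1, h2⟩
    refine ⟨h1, ?_⟩
    have hZ : IsZ V (fun g => act g) α := h1
    let K : Subgroup (FF p) :=
      { carrier := {x | x ∈ D.R ∧ α x = 0}
        mul_mem' := by
          rintro a b ⟨ha, ha'⟩ ⟨hb, hb'⟩
          refine ⟨D.R.mul_mem ha hb, ?_⟩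
          rw [Z1_add_R hR hact h1 ha (hR hb), ha', hb', add_zero]
        one_mem' := ⟨D.R.one_mem, Z1_one hact.toIsAct h1⟩
        inv_mem' := by
          rintro a ⟨ha, ha'⟩
          refine ⟨D.R.inv_mem ha, ?_⟩
          rw [Z1_inv hact.toIsAct h1 (hR ha), ha', map_zero, neg_zero] }
    have hK : IsClosed (K : Set (FF p)) := by
      have h3 : (K : Set (FF p)) = (D.R : Set (FF p)) ∩ α ⁻¹' {0} := rfl
      rw [h3]
      exact (isClosed_R D).inter (isClosed_singleton.preimage hZ.cont)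
    have h4 : D.R ≤ K := by
      refine R_le D K hK fun i g => ⟨r_mem_R D i g, ?_⟩
      have h5 : ev D α = 0 := h2
      exact congrFun (congrFun h5 i) g
    exact fun x hx => (h4 hx).2
  · rintro ⟨h1, h2⟩
    refine ⟨h1, ?_⟩
    change ev D α = 0
    funext i g
    exact h2 _ (r_mem_R D i g)

theorem mem_ZR_iff_ev : α ∈ ZR D V act ↔ α ∈ Z1 V act ∧ ev D α = 0 := by
  exact Iff.rfl

theorem ZR_mul_R [T2Space M] (hR : D.R ≤ V) (hact : IsActR D V act) (hα : α ∈ ZR D V act) {v x : FF p}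
    (hv : v ∈ V) (hx : x ∈ D.R) : α (v * x) = α v ∧ α (x * v) = α v := by
  obtain ⟨h1, h2⟩ := (ZR_iff hR hact).1 hα
  refine ⟨?_, ?_⟩
  · rw [CEv_mul h1 hv (hR hx), h2 x hx, map_zero, add_zero]
  · rw [Z1_add_R hR hact h1 hx hv, h2 x hx, zero_add]

theorem Z1_sum {ι : Type} (s : Finset ι) (f : ι → FF p → M) (h : ∀ i ∈ s, f i ∈ Z1 V act) :
    (∑ i ∈ s, f i) ∈ Z1 V act := by
  exact Submodule.sum_mem _ h

/-- Restriction to an open subgroup. -/
theorem Z1_res {V' : Subgroup (FF p)} (hV' : IsOpen (V' : Set (FF p))) (hle : V' ≤ V)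
    (hα : α ∈ Z1 V act) : res V' α ∈ Z1 V' act := by
  have hZ : IsZ V (fun g => act g) α := hα
  have hcl : IsClosed (V' : Set (FF p)) := V'.isClosed_of_isOpen hV'
  refine ⟨?_, fun x hx => Set.indicator_of_notMem hx _, fun g hg h hh => ?_⟩
  · have hcp : IsClopen (V' : Set (FF p)) := ⟨hcl, hV'⟩
    refine hZ.cont.indicator fun a ha => ?_
    rw [hcp.frontier_eq] at ha
    exact ha.elim
  · have h1 : g * h ∈ (V' : Set (FF p)) := V'.mul_mem hg hh
    unfold res
    rw [Set.indicator_of_mem h1, Set.indicator_of_mem (show g ∈ (V' : Set (FF p)) from hg),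
      Set.indicator_of_mem (show h ∈ (V' : Set (FF p)) from hh)]
    exact hZ.mul g (hle hg) h (hle hh)

omit [TopologicalSpace M] [IsTopologicalAddGroup M] [ContinuousConstSMul A M] in
theorem ev_res {V' : Subgroup (FF p)} (hR : D.R ≤ V') : ev D (res V' α) = ev D α := by
  funext i g
  exact Set.indicator_of_mem (show g * D.r i * g⁻¹ ∈ (V' : Set (FF p)) from
    hR (r_mem_R D i g)) _

theorem ZR_res {V' : Subgroup (FF p)} (hV' : IsOpen (V' : Set (FF p))) (hR : D.R ≤ V')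
    (hle : V' ≤ V) (hα : α ∈ ZR D V act) : res V' α ∈ ZR D V' act := by
  refine ⟨Z1_res hV' hle hα.1, ?_⟩
  have h1 : ev D α = 0 := hα.2
  change ev D (res V' α) = 0
  rw [ev_res hR, h1]

omit [Fact p.Prime] [TopologicalSpace M] [IsTopologicalAddGroup M] [ContinuousConstSMul A M] in
theorem CV_mono {V' : Subgroup (FF p)} (hle : V' ≤ V) : CV D V act ≤ CV D V' act := by
  exact fun t ht => ⟨fun i v hv g => ht.1 i v (hle hv) g, ht.2⟩

omit [IsTopologicalAddGroup M] [ContinuousConstSMul A M] [Fact p.Prime] in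
theorem IsActR.mono {V' : Subgroup (FF p)} (hle : V' ≤ V) (hact : IsActR D V act) :
    IsActR D V' act := by
  exact { one := hact.one
          mul := fun g hg h hh => hact.mul g (hle hg) h (hle hh)
          cont := hact.cont.mono (Set.prod_mono hle le_rfl)
          triv := hact.triv }

theorem Kills.mul {a : A} (h : Kills D V act a) (b : A) : Kills D V act (b * a) := by
  intro t ht
  obtain ⟨α, hα, h1⟩ := h t ht
  refine ⟨b • α, Submodule.smul_mem _ b hα, ?_⟩
  have h2 : ev D (b • α) = b • ev D α := rfl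
  rw [h2, h1, mul_smul]

theorem Kills.add {a b : A} (h : Kills D V act a) (h' : Kills D V act b) :
    Kills D V act (a + b) := by
  intro t ht
  obtain ⟨α, hα, h1⟩ := h t ht
  obtain ⟨β, hβ, h2⟩ := h' t ht
  refine ⟨α + β, Submodule.add_mem _ hα hβ, ?_⟩
  have h3 : ev D (α + β) = ev D α + ev D β := rfl
  rw [h3, h1, h2, add_smul]

theorem Kills.of_dvd {a b : A} (h : Kills D V act a) (hab : a ∣ b) : Kills D V act b := by
  obtain ⟨c, rfl⟩ := hab
  rw [mul_comm]
  exact h.mul c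

end D687
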