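import Pool.Agent.Lib_MP_d687bf.CAct
import Pool.Agent.Lib_MP_d687bf.CReps
import Pool.Agent.Lib_MP_d687bf.Lift

/-!
MP_d687bf, C5: (2.4)(a), (b): cyclic covers, the induced module `M# = Map(ℤ/N, M)` (`shA`), `cor`.

Notation: `IsCyc V V' N ψ σ`, `V' = ker (ψ : V → ℤ/N)`, `ψ σ = 1`; `V'` is normal in `V`.
`t̂_i(g)(c) = σ^c t'_i(σ^(-c) g)` (`c` represented by `0 ≤ c < N`; independent of the representative
because `σ^N ∈ V'`), and `σ^j • (t̂ (σ^(-j) g) 0) = t̂ g j`.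
For `cor_surj` and `cor_ker` use `CV_exists`/`CV_ext` for the module `M#` and the shift of `M#`,
which commutes with `shA`.
-/

set_option autoImplicit false

open Set Filter Topology

namespace D687

variable {p : ℕ} [Fact p.Prime] {D : Datum p} {V V' : Subgroup (FF p)}

section cyc

variable {N : ℕ} {ψ : FF p → ZMod N} {σ : FF p}

theorem IsCyc.normal (h : IsCyc V V' N ψ σ) {v x : FF p} (hv : v ∈ V) (hx : x ∈ V') :
    v * x * v⁻¹ ∈ V' := by
  have h1 : v⁻¹ ∈ V := V.inv_mem hv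
  have h2 : x ∈ V := h.le hx
  have h3 : v * x * v⁻¹ ∈ V := V.mul_mem (V.mul_mem hv h2) h1
  have h4 : ψ 1 = 0 := (h.ker 1 V.one_mem).2 V'.one_mem
  have h5 : ψ v + ψ v⁻¹ = 0 := by rw [← h.add v hv _ h1, mul_inv_cancel, h4]
  rw [← h.ker _ h3, h.add _ (V.mul_mem hv h2) _ h1, h.add _ hv _ h2, (h.ker x h2).2 hx, add_zero,
    h5]

private theorem Cov_psi_one (h : IsCyc V V' N ψ σ) : ψ 1 = 0 :=
  (h.ker 1 V.one_mem).2 V'.one_mem

private theorem Cov_psi_inv (h : IsCyc V V' N ψ σ) {v : FF p} (hv : v ∈ V) :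
    ψ v⁻¹ = -ψ v := by
  have h5 : ψ v + ψ v⁻¹ = 0 := by
    rw [← h.add v hv _ (V.inv_mem hv), mul_inv_cancel, Cov_psi_one h]
  exact (neg_eq_of_add_eq_zero_right h5).symm

private theorem Cov_psi_npow (h : IsCyc V V' N ψ σ) (j : ℕ) : ψ (σ ^ j) = j := by
  induction j with
  | zero => rw [pow_zero, Cov_psi_one h, Nat.cast_zero]
  | succ j ih => rw [pow_succ, h.add _ (V.pow_mem h.mem j) _ h.mem, ih, h.one, Nat.cast_succ]

theorem IsCyc.pow_mem (h : IsCyc V V' N ψ σ) : σ ^ N ∈ V' := by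
  rw [← h.ker _ (V.pow_mem h.mem N), Cov_psi_npow h, ZMod.natCast_self]

theorem IsCyc.psi_pow (h : IsCyc V V' N ψ σ) (j : ℤ) : ψ (σ ^ j) = j := by
  cases j with
  | ofNat n =>
    rw [Int.ofNat_eq_natCast, zpow_natCast, Cov_psi_npow h, Int.cast_natCast]
  | negSucc n =>
    rw [zpow_negSucc, Cov_psi_inv h (V.pow_mem h.mem _), Cov_psi_npow h, Int.cast_negSucc]

theorem IsCyc.psi_zero (h : IsCyc V V' N ψ σ) {x : FF p} (hx : x ∈ V') : ψ x = 0 := by
  exact (h.ker x (h.le hx)).2 hx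

theorem IsCyc.isOpen_V (h : IsCyc V V' N ψ σ) : IsOpen (V : Set (FF p)) := by
  exact Subgroup.isOpen_mono h.le h.isOpen

/-- Every `v ∈ V` is `σ^j x` with `x ∈ V'`, `j < N`. -/
theorem IsCyc.exists_rep [NeZero N] (h : IsCyc V V' N ψ σ) {v : FF p} (hv : v ∈ V) :
    ∃ j < N, ∃ x ∈ V', v = σ ^ j * x := by
  refine ⟨(ψ v).val, ZMod.val_lt _, (σ ^ (ψ v).val)⁻¹ * v, ?_, by group⟩
  have h1 : σ ^ (ψ v).val ∈ V := V.pow_mem h.mem _
  rw [← h.ker _ (V.mul_mem (V.inv_mem h1) hv), h.add _ (V.inv_mem h1) _ hv, Cov_psi_inv h h1,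
    Cov_psi_npow h, ZMod.natCast_zmod_val, neg_add_cancel]

end cyc

variable {A M : Type} [CommRing A] [AddCommGroup M] [Module A M] [TopologicalSpace M]
  {act : FF p → M →ₗ[A] M} {N : ℕ} [NeZero N] {ψ : FF p → ZMod N} {σ : FF p}

omit [Fact p.Prime] [TopologicalSpace M] [NeZero N] in
private theorem Cov_shA (g : FF p) (φ : ZMod N → M) (c : ZMod N) :
    shA act ψ g φ c = act g (φ (c - ψ g)) := rfl

omit [NeZero N] in
private theorem Cov_isAct (h : IsCyc V V' N ψ σ) (hact : IsAct V act) :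
    IsAct V (shA act ψ) := by
  refine ⟨?_, ?_, ?_⟩
  · refine LinearMap.ext fun φ => funext fun c => ?_
    rw [Cov_shA, Cov_psi_one h, sub_zero, hact.one]
    rfl
  · intro g hg k hk
    refine LinearMap.ext fun φ => funext fun c => ?_
    rw [Cov_shA, LinearMap.comp_apply, Cov_shA, Cov_shA, h.add g hg k hk, hact.mul g hg k hk,
      LinearMap.comp_apply, sub_sub]
  · rw [continuousOn_pi]
    intro c
    rintro ⟨g0, φ0⟩ ⟨hg0, -⟩
    have h1 : ContinuousOn (fun x : FF p × (ZMod N → M) => act x.1 (x.2 (c - ψ g0)))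
        ((V : Set (FF p)) ×ˢ (univ : Set (ZMod N → M))) := by
      have h2 : ContinuousOn (fun x : FF p × (ZMod N → M) => (x.1, x.2 (c - ψ g0)))
          ((V : Set (FF p)) ×ˢ (univ : Set (ZMod N → M))) := by fun_prop
      exact hact.cont.comp h2 fun x hx => ⟨hx.1, mem_univ _⟩
    refine (h1 (g0, φ0) ⟨hg0, mem_univ _⟩).congr_of_eventuallyEq ?_ rfl
    have h3 : IsOpen ((fun x : FF p × (ZMod N → M) => g0⁻¹ * x.1) ⁻¹' (V' : Set (FF p))) :=
      h.isOpen.preimage (by fun_prop)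
    have h4 : (g0, φ0) ∈ (fun x : FF p × (ZMod N → M) => g0⁻¹ * x.1) ⁻¹' (V' : Set (FF p)) := by
      change g0⁻¹ * g0 ∈ V'
      rw [inv_mul_cancel]
      exact V'.one_mem
    filter_upwards [mem_nhdsWithin_of_mem_nhds (h3.mem_nhds h4)] with x hx
    change act x.1 (x.2 (c - ψ x.1)) = act x.1 (x.2 (c - ψ g0))
    have h5 : x.1 = g0 * (g0⁻¹ * x.1) := by group
    have h6 : ψ x.1 = ψ g0 := by
      rw [h5, h.add _ hg0 _ (h.le hx), h.psi_zero hx, add_zero]
    rw [h6]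

theorem isActR_shA (h : IsCyc V V' N ψ σ) (hR : D.R ≤ V') (hact : IsActR D V act) :
    IsActR D V (shA act ψ) := by
  refine ⟨Cov_isAct h hact.toIsAct, fun x hx => LinearMap.ext fun φ => funext fun c => ?_⟩
  rw [Cov_shA, hact.triv x hx, h.psi_zero (hR hx), sub_zero]
  rfl

omit [TopologicalSpace M] in
theorem dot_mem (h : IsCyc V V' N ψ σ) (hmul : ∀ g ∈ V, ∀ h ∈ V, act (g * h) = act g ∘ₗ act h)
    {v : FF p} (hv : v ∈ V) {t : Fin D.n → FF p → M} (ht : t ∈ CV D V' act) :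
    dot act v t ∈ CV D V' act := by
  refine ⟨fun i w hw g => ?_, fun i g => ?_⟩
  · have h1 : v⁻¹ * w * v ∈ V' := by
      have := h.normal (V.inv_mem hv) hw
      rwa [inv_inv] at this
    have h2 : v⁻¹ * (w * g) = (v⁻¹ * w * v) * (v⁻¹ * g) := by group
    have h3 : v * (v⁻¹ * w * v) = w * v := by group
    change act v (t i (v⁻¹ * (w * g))) = act w (act v (t i (v⁻¹ * g)))
    rw [h2, ht.1 i _ h1, ← LinearMap.comp_apply, ← hmul v hv _ (h.le h1), h3,
      hmul w (h.le hw) v hv, LinearMap.comp_apply]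
  · change act v (t i (v⁻¹ * (g * D.ω i))) = act v (t i (v⁻¹ * g))
    rw [← mul_assoc, ht.2]

theorem zero_mem_CV (h : IsCyc V V' N ψ σ) {t : Fin D.n → FF p → ZMod N → M}
    (ht : t ∈ CV D V (shA act ψ)) : (fun i g => t i g 0) ∈ CV D V' act := by
  refine ⟨fun i v hv g => ?_, fun i g => ?_⟩
  · change t i (v * g) 0 = act v (t i g 0)
    rw [ht.1 i v (h.le hv), Cov_shA, h.psi_zero hv, sub_zero]
  · change t i (g * D.ω i) 0 = t i g 0
    rw [ht.2]

/-- `t̂` -/
theorem exists_hat (h : IsCyc V V' N ψ σ) (hact : IsActR D V act) (hR : D.R ≤ V')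
    {t' : Fin D.n → FF p → M} (ht : t' ∈ CV D V' act) :
    ∃ t ∈ CV D V (shA act ψ), ∀ i g, t i g 0 = t' i g := by
  refine ⟨fun i g c => act (σ ^ c.val) (t' i ((σ ^ c.val)⁻¹ * g)), ⟨fun i v hv g => ?_,
    fun i g => ?_⟩, fun i g => ?_⟩
  · funext c
    rw [Cov_shA]
    change act (σ ^ c.val) (t' i ((σ ^ c.val)⁻¹ * (v * g))) =
      act v (act (σ ^ (c - ψ v).val) (t' i ((σ ^ (c - ψ v).val)⁻¹ * g)))
    have hc : σ ^ c.val ∈ V := V.pow_mem h.mem _
    have hd : σ ^ (c - ψ v).val ∈ V := V.pow_mem h.mem _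
    have h1 : (σ ^ c.val)⁻¹ * v * σ ^ (c - ψ v).val ∈ V :=
      V.mul_mem (V.mul_mem (V.inv_mem hc) hv) hd
    have h2 : (σ ^ c.val)⁻¹ * v * σ ^ (c - ψ v).val ∈ V' := by
      rw [← h.ker _ h1, h.add _ (V.mul_mem (V.inv_mem hc) hv) _ hd, h.add _ (V.inv_mem hc) _ hv,
        Cov_psi_inv h hc, Cov_psi_npow h, Cov_psi_npow h, ZMod.natCast_zmod_val,
        ZMod.natCast_zmod_val]
      ring
    have h3 : (σ ^ c.val)⁻¹ * (v * g) =
        ((σ ^ c.val)⁻¹ * v * σ ^ (c - ψ v).val) * ((σ ^ (c - ψ v).val)⁻¹ * g) := by group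
    have h4 : σ ^ c.val * ((σ ^ c.val)⁻¹ * v * σ ^ (c - ψ v).val) =
        v * σ ^ (c - ψ v).val := by group
    rw [h3, ht.1 i _ h2, ← LinearMap.comp_apply, ← hact.mul _ hc _ h1, h4,
      hact.mul v hv _ hd, LinearMap.comp_apply]
  · funext c
    change act (σ ^ c.val) (t' i ((σ ^ c.val)⁻¹ * (g * D.ω i))) =
      act (σ ^ c.val) (t' i ((σ ^ c.val)⁻¹ * g))
    rw [← mul_assoc, ht.2]
  · change act (σ ^ (0 : ZMod N).val) (t' i ((σ ^ (0 : ZMod N).val)⁻¹ * g)) = t' i g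
    rw [ZMod.val_zero, pow_zero, inv_one, one_mul, hact.one]
    rfl

omit [Fact p.Prime] [CommRing A] [Module A M] [TopologicalSpace M] in
private theorem Cov_sum_range (f : ZMod N → M) :
    ∑ j ∈ Finset.range N, f (j : ZMod N) = ∑ c : ZMod N, f c := by
  refine Finset.sum_bij' (fun j _ => (j : ZMod N)) (fun c _ => c.val) (fun j _ => Finset.mem_univ _)
    (fun c _ => Finset.mem_range.2 (ZMod.val_lt c)) (fun j hj => ?_) (fun c _ => ?_)
    (fun j _ => rfl)
  · exact ZMod.val_natCast_of_lt (Finset.mem_range.1 hj)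
  · exact ZMod.natCast_zmod_val c

private theorem Cov_dot_zero (h : IsCyc V V' N ψ σ) (hact : IsAct V act)
    {t : Fin D.n → FF p → ZMod N → M} (ht : t ∈ CV D V (shA act ψ)) (j : ℕ) (i : Fin D.n)
    (g : FF p) : dot act (σ ^ j) (fun i g => t i g 0) i g = t i g (j : ZMod N) := by
  have hj : σ ^ j ∈ V := V.pow_mem h.mem _
  change act (σ ^ j) (t i ((σ ^ j)⁻¹ * g) 0) = _
  rw [ht.1 i _ (V.inv_mem hj), Cov_shA, Cov_psi_inv h hj, Cov_psi_npow h, zero_sub, neg_neg,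
    ← LinearMap.comp_apply, ← hact.mul _ hj _ (V.inv_mem hj), mul_inv_cancel, hact.one]
  rfl

/-- `cor (t̂ (·) 0) = ∑ t̂`. -/
theorem cor_zero (h : IsCyc V V' N ψ σ) (hact : IsActR D V act)
    {t : Fin D.n → FF p → ZMod N → M} (ht : t ∈ CV D V (shA act ψ)) :
    cor act σ N (fun i g => t i g 0) = fun i g => ∑ c : ZMod N, t i g c := by
  funext i g
  unfold cor
  rw [Finset.sum_apply, Finset.sum_apply, ← Cov_sum_range]
  exact Finset.sum_congr rfl fun j _ => Cov_dot_zero h hact.toIsAct ht j i g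

/-- `∑` maps `C_V(M#)` to `C_V(M)`. -/
theorem sum_mem_CV {t : Fin D.n → FF p → ZMod N → M}
    (ht : t ∈ CV D V (shA act ψ)) : (fun i g => ∑ c : ZMod N, t i g c) ∈ CV D V act := by
  refine ⟨fun i v hv g => ?_, fun i g => ?_⟩
  · change ∑ c : ZMod N, t i (v * g) c = act v (∑ c : ZMod N, t i g c)
    rw [ht.1 i v hv, map_sum]
    exact (Equiv.subRight (ψ v)).sum_comp fun c => act v (t i g c)
  · change ∑ c : ZMod N, t i (g * D.ω i) c = ∑ c : ZMod N, t i g c
    rw [ht.2]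

theorem cor_mem (h : IsCyc V V' N ψ σ) (hact : IsActR D V act) (hR : D.R ≤ V')
    {t : Fin D.n → FF p → M} (ht : t ∈ CV D V' act) : cor act σ N t ∈ CV D V act := by
  obtain ⟨s, hs, hs0⟩ := exists_hat h hact hR ht
  have h1 : t = fun i g => s i g 0 := by
    funext i g
    exact (hs0 i g).symm
  rw [h1, cor_zero h hact hs]
  exact sum_mem_CV hs

/-- (2.4)(a) -/
theorem cor_surj (h : IsCyc V V' N ψ σ) (hadm : Adm D V) (hact : IsActR D V act)
    (hR : D.R ≤ V') {t : Fin D.n → FF p → M} (ht : t ∈ CV D V act) :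
    ∃ t' ∈ CV D V' act, cor act σ N t' = t := by
  obtain ⟨q, ri, rg, hr⟩ := exists_reps D V hadm.isOpen
  obtain ⟨s, hs, hsl⟩ := CV_exists hadm hr (isActR_shA h hR hact)
    fun l => Pi.single 0 (t (ri l) (rg l))
  refine ⟨fun i g => s i g 0, zero_mem_CV h hs, ?_⟩
  rw [cor_zero h hact hs]
  refine CV_ext hr (sum_mem_CV hs) ht fun l => ?_
  rw [hsl]
  simp

omit [Fact p.Prime] [CommRing A] [Module A M] [TopologicalSpace M] in
private theorem Cov_tele (φ : ZMod N → M) (h0 : ∑ c : ZMod N, φ c = 0) :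
    ∃ m : ZMod N → M, ∀ c, m (c + 1) - m c = φ c := by
  refine ⟨fun c => ∑ j ∈ Finset.range c.val, φ (j : ZMod N), fun c => ?_⟩
  have hN : c.val + 1 ≤ N := ZMod.val_lt c
  have hs : ∑ j ∈ Finset.range (c.val + 1), φ (j : ZMod N) =
      ∑ j ∈ Finset.range c.val, φ (j : ZMod N) + φ c := by
    rw [Finset.sum_range_succ, ZMod.natCast_zmod_val]
  rcases hN.lt_or_eq with hlt | heq
  · have h1 : (c + 1).val = c.val + 1 := by
      have h2 : c + 1 = ((c.val + 1 : ℕ) : ZMod N) := by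
        rw [Nat.cast_succ, ZMod.natCast_zmod_val]
      rw [h2, ZMod.val_natCast_of_lt hlt]
    simp only [h1, hs]
    abel
  · have h1 : c + 1 = 0 := by
      have h2 : c + 1 = ((c.val + 1 : ℕ) : ZMod N) := by
        rw [Nat.cast_succ, ZMod.natCast_zmod_val]
      rw [h2, heq, ZMod.natCast_self]
    rw [heq, Cov_sum_range, h0] at hs
    simp only [h1, ZMod.val_zero, Finset.range_zero, Finset.sum_empty, zero_sub]
    exact neg_eq_of_add_eq_zero_right hs.symm

/-- (2.4)(a) -/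
theorem cor_ker (h : IsCyc V V' N ψ σ) (hadm : Adm D V) (hact : IsActR D V act)
    (hR : D.R ≤ V') {t : Fin D.n → FF p → M} (ht : t ∈ CV D V' act) (h0 : cor act σ N t = 0) :
    ∃ s ∈ CV D V' act, t = dot act σ s - s := by
  obtain ⟨q, ri, rg, hr⟩ := exists_reps D V hadm.isOpen
  obtain ⟨t1, ht1, ht10⟩ := exists_hat h hact hR ht
  have h1 : t = fun i g => t1 i g 0 := by
    funext i g
    exact (ht10 i g).symm
  rw [h1, cor_zero h hact ht1] at h0
  choose m hm using fun l => Cov_tele (t1 (ri l) (rg l)) (congrFun (congrFun h0 (ri l)) (rg l))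
  obtain ⟨s, hs, hsl⟩ := CV_exists hadm hr (isActR_shA h hR hact) m
  have hu : (fun i g c => s i g (c + 1) - s i g c) ∈ CV D V (shA act ψ) := by
    refine ⟨fun i v hv g => ?_, fun i g => ?_⟩
    · funext c
      change s i (v * g) (c + 1) - s i (v * g) c =
        act v (s i g (c - ψ v + 1) - s i g (c - ψ v))
      rw [hs.1 i v hv, Cov_shA, Cov_shA, map_sub, sub_add_eq_add_sub]
    · funext c
      change s i (g * D.ω i) (c + 1) - s i (g * D.ω i) c = s i g (c + 1) - s i g c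
      rw [hs.2]
  have h2 : t1 = fun i g c => s i g (c + 1) - s i g c := by
    refine CV_ext hr ht1 hu fun l => ?_
    funext c
    rw [hsl]
    exact (hm l c).symm
  refine ⟨fun i g => s i g 0, zero_mem_CV h hs, ?_⟩
  funext i g
  have h3 := Cov_dot_zero h hact.toIsAct hs 1 i g
  rw [pow_one] at h3
  rw [← ht10 i g, h2]
  change s i g (0 + 1) - s i g 0 = dot act σ (fun i g => s i g 0) i g - s i g 0
  rw [h3, Nat.cast_one, zero_add]

/-- Lifting along `∑ : M# → M`. -/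
theorem exists_lift_sum [ProPMod p M] [ContinuousConstSMul A M] (h : IsCyc V V' N ψ σ)
    (hact : IsAct V act) {α : FF p → M} (hα : α ∈ Z1 V act) :
    ∃ α' ∈ Z1 V (shA act ψ), ∀ x, ∑ c : ZMod N, α' x c = α x := by
  have hA := Cov_isAct h hact
  obtain ⟨α', h1, h2⟩ := exists_lift V h.isOpen_V (M := ZMod N → M) (M'' := M)
    (fun g => shA act ψ g) (fun g => act g)
    (fun m => by rw [hA.one]; rfl)
    (fun g _ m m' => map_add _ m m')
    (fun g hg k hk m => by rw [hA.mul g hg k hk]; rfl)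
    hA.cont
    { toFun := fun φ => ∑ c : ZMod N, φ c
      map_zero' := by simp
      map_add' := fun φ φ' => by simp [Finset.sum_add_distrib] }
    (by
      change Continuous fun φ : ZMod N → M => ∑ c : ZMod N, φ c
      fun_prop)
    (fun m => ⟨Pi.single 0 m, by
      change ∑ c : ZMod N, (Pi.single 0 m : ZMod N → M) c = m
      simp⟩)
    (fun g hg m => by
      change ∑ c : ZMod N, act g (m (c - ψ g)) = act g (∑ c : ZMod N, m c)
      rw [map_sum]
      exact (Equiv.subRight (ψ g)).sum_comp fun c => act g (m c))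
    α hα
  exact ⟨α', h1, h2⟩

variable [IsTopologicalAddGroup M] [ContinuousConstSMul A M]

/-- (2.4)(b) `α̂ ↦ α̂_0 = α̂ (·) 0` on `V'`. -/
theorem zero_mem_Z1 (h : IsCyc V V' N ψ σ) {α : FF p → ZMod N → M}
    (hα : α ∈ Z1 V (shA act ψ)) : res V' (fun x => α x 0) ∈ Z1 V' act := by
  have hres : ∀ x ∈ V', res V' (fun x => α x 0) x = α x 0 := fun x hx =>
    Set.indicator_of_mem (s := (V' : Set (FF p))) hx _
  refine ⟨?_, fun x hx => Set.indicator_of_notMem (s := (V' : Set (FF p))) hx _,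
    fun g hg k hk => ?_⟩
  · have hclopen : IsClopen (V' : Set (FF p)) :=
      ⟨Subgroup.isClosed_of_isOpen V' h.isOpen, h.isOpen⟩
    have h1 : Continuous fun x => α x 0 := (continuous_apply 0).comp hα.cont
    exact hclopen.continuous_indicator h1
  · rw [hres _ (V'.mul_mem hg hk), hres g hg, hres k hk, hα.mul g (h.le hg) k (h.le hk),
      Pi.add_apply, Cov_shA, h.psi_zero hg, sub_zero]

theorem sum_mem_Z1 {α : FF p → ZMod N → M} (hα : α ∈ Z1 V (shA act ψ)) :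
    (fun x => ∑ c : ZMod N, α x c) ∈ Z1 V act := by
  refine ⟨?_, fun x hx => ?_, fun g hg k hk => ?_⟩
  · exact continuous_finsetSum _ fun c _ => (continuous_apply c).comp hα.cont
  · change ∑ c : ZMod N, α x c = 0
    rw [hα.supp x hx]
    simp
  · change ∑ c : ZMod N, α (g * k) c = ∑ c : ZMod N, α g c + act g (∑ c : ZMod N, α k c)
    rw [hα.mul g hg k hk, map_sum, ← (Equiv.subRight (ψ g)).sum_comp fun c => act g (α k c),
      ← Finset.sum_add_distrib]
    rfl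

/-- (2.4)(b) `cor (ev α̂_0) = ev (∑ α̂)`. -/
theorem cor_ev (h : IsCyc V V' N ψ σ) (hact : IsActR D V act) (hR : D.R ≤ V')
    {α : FF p → ZMod N → M} (hα : α ∈ Z1 V (shA act ψ)) :
    cor act σ N (ev D (res V' fun x => α x 0)) = ev D fun x => ∑ c : ZMod N, α x c := by
  have h1 : ev D α ∈ CV D V (shA act ψ) := ev_mem (hR.trans h.le) (isActR_shA h hR hact) hα
  have h2 : ev D (res V' fun x => α x 0) = fun i g => ev D α i g 0 := by
    rw [ev_res hR]
    rfl
  rw [h2, cor_zero h hact h1]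
  rfl

end D687
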