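import Pool.Agent.Lib_MP_d687bf.CEv
import Pool.Agent.Lib_MP_d687bf.Rings

/-!
MP_d687bf, D1: the pairing of chains with functions.
-/

set_option autoImplicit false

open Set Filter Topology

namespace D687

variable {p : ℕ} [Fact p.Prime] {D : Datum p} {V : Subgroup (FF p)}

section

variable {M M' : Type} [AddCommGroup M] [Module (ZMod p) M] [AddCommGroup M']
  [Module (ZMod p) M']

theorem pair_zero (z : Ch D) : pair z (0 : Fin D.n → FF p → M) = 0 := by
  simp [pair, Finsupp.sum]

theorem pair_add (z : Ch D) (t t' : Fin D.n → FF p → M) :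
    pair z (t + t') = pair z t + pair z t' := by
  simp [pair, Finsupp.sum, smul_add, Finset.sum_add_distrib]

theorem pair_neg (z : Ch D) (t : Fin D.n → FF p → M) : pair z (-t) = -pair z t := by
  simp [pair, Finsupp.sum]

theorem pair_sub (z : Ch D) (t t' : Fin D.n → FF p → M) :
    pair z (t - t') = pair z t - pair z t' := by
  rw [sub_eq_add_neg, pair_add, pair_neg, sub_eq_add_neg]

theorem pair_sum (z : Ch D) {ι : Type} (s : Finset ι) (t : ι → Fin D.n → FF p → M) :
    pair z (∑ i ∈ s, t i) = ∑ i ∈ s, pair z (t i) := by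
  classical
  induction s using Finset.induction_on with
  | empty => simp only [Finset.sum_empty, pair_zero]
  | insert a s ha ih => rw [Finset.sum_insert ha, Finset.sum_insert ha, pair_add, ih]

theorem pair_add_left (z z' : Ch D) (t : Fin D.n → FF p → M) :
    pair (z + z') t = pair z t + pair z' t := by
  classical
  unfold pair
  exact Finsupp.sum_add_index' (fun _ => zero_smul _ _) (fun _ _ _ => add_smul _ _ _)

theorem pair_smul_left (c : ZMod p) (z : Ch D) (t : Fin D.n → FF p → M) :
    pair (c • z) t = c • pair z t := by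
  unfold pair
  refine (Finsupp.sum_smul_index (h := fun (x : Fin D.n × FF p) (c : ZMod p) => c • t x.1 x.2)
    (fun (i : Fin D.n × FF p) => zero_smul (ZMod p) (t i.1 i.2))).trans ?_
  rw [Finsupp.smul_sum]
  exact Finsupp.sum_congr fun x _ => mul_smul _ _ _

theorem pair_single (i : Fin D.n) (g : FF p) (c : ZMod p) (t : Fin D.n → FF p → M) :
    pair (Finsupp.single (i, g) c : Ch D) t = c • t i g := by
  unfold pair
  exact Finsupp.sum_single_index (zero_smul _ _)

/-- additive maps commute with the pairing -/
theorem pair_map (f : M →+ M') (z : Ch D) (t : Fin D.n → FF p → M) :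
    pair z (fun i g => f (t i g)) = f (pair z t) := by
  simp only [pair, Finsupp.sum, map_sum, ZMod.map_smul]

/-- `A`-linearity -/
theorem pair_smul {A : Type} [CommRing A] [Algebra (ZMod p) A] [Module A M]
    [IsScalarTower (ZMod p) A M] (a : A) (z : Ch D) (t : Fin D.n → FF p → M) :
    pair z (a • t) = a • pair z t := by
  unfold pair
  rw [Finsupp.smul_sum]
  refine Finsupp.sum_congr fun x _ => ?_
  have : SMulCommClass (ZMod p) A M := IsScalarTower.to_smulCommClass
  exact smul_comm _ _ _

end

/-- A class kills `ev h` for homs `h` with values in power series over `k` (compare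
coefficients; `σ = Unit` gives `K1 p`, `σ = Fin 2` gives `K2 p`). -/
theorem IsClass.ev_eq_zero {σ : Type} {z : Ch D} (hz : IsClass V z)
    {h : FF p → MvPowerSeries σ (ZMod p)}
    (hh : h ∈ Z1 V (triv (MvPowerSeries σ (ZMod p)) (MvPowerSeries σ (ZMod p)))) :
    pair z (ev D h) = 0 := by
  ext m
  have h1 : (fun x => MvPowerSeries.coeff m (h x)) ∈ Hk V := by
    refine ⟨(MvPowerSeries.WithPiTopology.continuous_coeff (ZMod p) m).comp hh.cont,
      fun x hx => ?_, fun g hg g' hg' => ?_⟩
    · show MvPowerSeries.coeff m (h x) = 0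
      rw [hh.supp x hx, map_zero]
    · have h2 : h (g * g') = h g + h g' := hh.mul g hg g' hg'
      show MvPowerSeries.coeff m (h (g * g')) = MvPowerSeries.coeff m (h g) +
        MvPowerSeries.coeff m (h g')
      rw [h2, map_add]
  have h3 := hz _ h1
  have h4 := pair_map (MvPowerSeries.coeff (R := ZMod p) m).toAddMonoidHom z (ev D h)
  rw [map_zero]
  exact h4.symm.trans h3

/-- The same for `K1`. -/
theorem IsClass.ev_eq_zero_K1 {z : Ch D} (hz : IsClass V z) {h : FF p → K1 p}
    (hh : h ∈ Z1 V (triv (K1 p) (K1 p))) : pair z (ev D h) = 0 :=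
  hz.ev_eq_zero hh

/-- The sum and multiples of classes are classes. -/
theorem IsClass.add {z z' : Ch D} (hz : IsClass V z) (hz' : IsClass V z') :
    IsClass V (z + z') := by
  intro h hh
  rw [pair_add_left, hz h hh, hz' h hh, add_zero]

theorem IsClass.smul {z : Ch D} (c : ZMod p) (hz : IsClass V z) : IsClass V (c • z) := by
  intro h hh
  rw [pair_smul_left, hz h hh, smul_zero]

end D687
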