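import Pool.Agent.Lib_MP_d687bf.CupF
import Pool.Agent.Lib_MP_d687bf.PairF

/-!
MP_d687bf, D3: the cup product `H(V) × H(V) → T_V(k)`.
-/

set_option autoImplicit false

open Set Filter Topology

namespace D687

variable {p : ℕ} [Fact p.Prime] {D : Datum p} {V : Subgroup (FF p)}

private theorem Cup_mem (a : HH D V) : (a : FF p → ZMod p) ∈ ZR D V (scal (1 : FF p → ZMod p)) := by
  rw [scal_one]
  exact a.2

private theorem Cup_ev_mem (hadm : Adm D V) {a b : HH D V} {F : FF p → ZMod p}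
    (hF : IsF V 1 (a : FF p → ZMod p) b F) : ev D F ∈ Ck D V :=
  hF.ev_mem hadm.hR isChar_one isChar_one (Cup_mem a) (Cup_mem b)

private theorem Cup_mk_eq {α β F F' : FF p → ZMod p} (hF : IsF V 1 α β F) (hF' : IsF V 1 α β F')
    (h : ev D F ∈ Ck D V) (h' : ev D F' ∈ Ck D V) :
    (Submodule.Quotient.mk ⟨ev D F, h⟩ : TV D V) = Submodule.Quotient.mk ⟨ev D F', h'⟩ := by
  rw [Submodule.Quotient.eq]
  exact ⟨F - F', hF.sub_mem hF', rfl⟩

/-- existence of `F` for two homs -/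
theorem exists_F_HH (hadm : Adm D V) (a b : HH D V) :
    ∃ F : FF p → ZMod p, IsF V 1 (a : FF p → ZMod p) b F ∧ ev D F ∈ Ck D V := by
  obtain ⟨F, hF⟩ := exists_F (D := D) hadm.isOpen (isChar_one (D := D) (V := V) (A := ZMod p))
    (isChar_one (D := D) (V := V) (A := ZMod p)) (fun v _ => by simp)
    (mem_ZR_iff_ev.1 (Cup_mem a)).1 (mem_ZR_iff_ev.1 (Cup_mem b)).1
  exact ⟨F, hF, Cup_ev_mem hadm hF⟩

theorem exists_cup (hadm : Adm D V) :
    ∃ c : HH D V →ₗ[ZMod p] HH D V →ₗ[ZMod p] TV D V, IsCup D V c := by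
  choose F hF hFm using exists_F_HH (D := D) (V := V) hadm
  let g : HH D V → HH D V → TV D V := fun a b => Submodule.Quotient.mk ⟨ev D (F a b), hFm a b⟩
  have key : ∀ (a b : HH D V) (F' : FF p → ZMod p) (_ : IsF V 1 (a : FF p → ZMod p) b F')
      (h : ev D F' ∈ Ck D V), g a b = Submodule.Quotient.mk ⟨ev D F', h⟩ :=
    fun a b F' hF' h => Cup_mk_eq (hF a b) hF' (hFm a b) h
  refine ⟨LinearMap.mk₂ (ZMod p) g ?_ ?_ ?_ ?_, ?_⟩
  · intro a a' b
    have h1 : IsF V 1 ((a + a' : HH D V) : FF p → ZMod p) b (F a b + F a' b) :=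
      (hF a b).add_left (hF a' b)
    rw [key _ _ _ h1 ((Ck D V).add_mem (hFm a b) (hFm a' b)), ← Submodule.Quotient.mk_add]
    rfl
  · intro c a b
    have h1 : IsF V 1 ((c • a : HH D V) : FF p → ZMod p) b (c • F a b) := (hF a b).smul_left c
    rw [key _ _ _ h1 ((Ck D V).smul_mem c (hFm a b)), ← Submodule.Quotient.mk_smul]
    rfl
  · intro a b b'
    have h1 : IsF V 1 (a : FF p → ZMod p) ((b + b' : HH D V) : FF p → ZMod p)
        (F a b + F a b') := (hF a b).add_right (hF a b')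
    rw [key _ _ _ h1 ((Ck D V).add_mem (hFm a b) (hFm a b')), ← Submodule.Quotient.mk_add]
    rfl
  · intro c a b
    have h1 : IsF V 1 (a : FF p → ZMod p) ((c • b : HH D V) : FF p → ZMod p) (c • F a b) :=
      (hF a b).smul_right c
    rw [key _ _ _ h1 ((Ck D V).smul_mem c (hFm a b)), ← Submodule.Quotient.mk_smul]
    rfl
  · intro a b F' hF'
    have h1 := Cup_ev_mem hadm hF'
    exact ⟨h1, key a b F' hF' h1⟩

/-- A class defines a functional on `T_V(k)`. -/
theorem IsClass.exists_dual (hadm : Adm D V) {z : Ch D} (hz : IsClass V z) :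
    ∃ κ : Module.Dual (ZMod p) (TV D V),
      (∀ t : Ck D V, κ (Submodule.Quotient.mk t) = pair z (t : Fin D.n → FF p → ZMod p)) ∧
      (NonZ V z → κ ≠ 0) := by
  let f : Ck D V →ₗ[ZMod p] ZMod p :=
    { toFun := fun t => pair z (t : Fin D.n → FF p → ZMod p)
      map_add' := fun t t' => pair_add z _ _
      map_smul' := fun c t => pair_smul c z _ }
  have hle : ((Hk V).map (evL (ZMod p) (ZMod p) D)).comap (Ck D V).subtype ≤
      LinearMap.ker f := by
    intro t ht
    obtain ⟨h, hh, hht⟩ := ht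
    rw [LinearMap.mem_ker]
    change pair z (t : Fin D.n → FF p → ZMod p) = 0
    have h1 : ev D h = (t : Fin D.n → FF p → ZMod p) := hht
    rw [← h1]
    exact hz h hh
  refine ⟨Submodule.liftQ _ f hle, fun t => rfl, ?_⟩
  rintro ⟨t, ht, hne⟩ h0
  apply hne
  have h1 : Submodule.liftQ _ f hle (Submodule.Quotient.mk ⟨t, ht⟩) = pair z t := rfl
  rw [← h1, h0]
  rfl

/-- Every functional on `T_V(k)` is given by a class. -/
theorem exists_class (hadm : Adm D V) (κ : Module.Dual (ZMod p) (TV D V)) :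
    ∃ z : Ch D, IsClass V z ∧
      (∀ t : Ck D V, κ (Submodule.Quotient.mk t) = pair z (t : Fin D.n → FF p → ZMod p)) ∧
      (κ ≠ 0 → NonZ V z) := by
  obtain ⟨z, hz⟩ := exists_chain hadm
    (κ.comp (((Hk V).map (evL (ZMod p) (ZMod p) D)).comap (Ck D V).subtype).mkQ)
  refine ⟨z, fun h hh => ?_, fun t => (hz t).symm, fun hne => ?_⟩
  · have hm : ev D h ∈ Ck D V := _root_.D687.ev_mem hadm.hR isActR_triv hh
    have h1 := hz ⟨ev D h, hm⟩
    change pair z (ev D h) = κ (Submodule.Quotient.mk ⟨ev D h, hm⟩) at h1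
    have h2 : (Submodule.Quotient.mk ⟨ev D h, hm⟩ : TV D V) = 0 := by
      rw [Submodule.Quotient.mk_eq_zero]
      exact ⟨h, hh, rfl⟩
    rw [h1, h2, map_zero]
  · by_contra hcon
    apply hne
    refine LinearMap.ext fun q => ?_
    obtain ⟨t, rfl⟩ := Submodule.Quotient.mk_surjective _ q
    have h1 := hz t
    change pair z (t : Fin D.n → FF p → ZMod p) = κ (Submodule.Quotient.mk t) at h1
    by_contra h2
    exact hcon ⟨t, t.2, by rw [h1]; exact h2⟩

/-- `c (a, b) = [t]` iff there is an `F` with `ev F = t`. -/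
theorem IsCup.eq_iff (hadm : Adm D V) {c : HH D V →ₗ[ZMod p] HH D V →ₗ[ZMod p] TV D V}
    (hc : IsCup D V c) (a b : HH D V) (t : Ck D V) :
    c a b = Submodule.Quotient.mk t ↔ ∃ F : FF p → ZMod p, IsF V 1 (a : FF p → ZMod p) b F ∧
      ev D F = (t : Fin D.n → FF p → ZMod p) := by
  constructor
  · intro h
    obtain ⟨F, hF, hFm⟩ := exists_F_HH hadm a b
    obtain ⟨h1, h2⟩ := hc a b F hF
    rw [h2, Submodule.Quotient.eq] at h
    obtain ⟨f, hf, hft⟩ := h
    have h3 : ev D f = ev D F - (t : Fin D.n → FF p → ZMod p) := hft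
    refine ⟨F + -f, hF.add_hom ((Hk V).neg_mem hf), ?_⟩
    have h4 : ev D (F + -f) = ev D F - ev D f := by
      funext i g
      change F _ + -f _ = F _ - f _
      ring
    rw [h4, h3, sub_sub_cancel]
  · rintro ⟨F, hF, hFt⟩
    obtain ⟨h1, h2⟩ := hc a b F hF
    rw [h2]
    congr 1
    exact Subtype.ext hFt

end D687
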