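import Pool.Agent.Lib_MP_d687bf.CMap

/-!
MP_d687bf, D2: (3.1) the functions `F` with `F (g h) = F g + F h + χ'(g) α(g) β(h)`.

Existence: the module `N = A × A`, `g (m₁, m₂) = (m₁ + χ'(g) α(g) m₂, χ'(g) m₂)`, `(F, β)` is a lift of
`β` along the second projection (`exists_lift`). For `x ∈ R`, `v ∈ V` (`α, β ∈ Z_R`):
`F (v x) = F v + F x`, `F (x v) = F x + F v`, so `F (v x v⁻¹) = F x`.
-/

set_option autoImplicit false

open Set Filter Topology

namespace D687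

variable {p : ℕ} [Fact p.Prime] {D : Datum p} {V : Subgroup (FF p)}
variable {A : Type} [CommRing A] [TopologicalSpace A] [ProPRing p A] {χ χ' α β F : FF p → A}

private theorem CupF_mul {W : Subgroup (FF p)} {ψ γ : FF p → A} {g h : FF p}
    (hγ : γ ∈ Z1 W (scal ψ)) (hg : g ∈ W) (hh : h ∈ W) : γ (g * h) = γ g + ψ g * γ h :=
  IsZ.mul (hγ : IsZ W (fun g => scal ψ g) γ) g hg h hh

private theorem CupF_chi {W : Subgroup (FF p)} {ψ : FF p → A} (hψ : IsChar D W ψ) {s x : FF p}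
    (hs : s ∈ W) (hx : x ∈ W) : ψ (s⁻¹ * x * s) = ψ x := by
  have h1 : ψ (s * s⁻¹) = ψ s * ψ s⁻¹ := hψ.mul s hs s⁻¹ (W.inv_mem hs)
  rw [mul_inv_cancel, hψ.one] at h1
  rw [hψ.mul (s⁻¹ * x) (W.mul_mem (W.inv_mem hs) hx) s hs, hψ.mul s⁻¹ (W.inv_mem hs) x hx]
  linear_combination -(ψ x) * h1

theorem exists_F (hV : IsOpen (V : Set (FF p))) (hχ : IsChar D V χ) (hχ' : IsChar D V χ')
    (hinv : ∀ v ∈ V, χ v * χ' v = 1) (hα : α ∈ Z1 V (scal χ)) (hβ : β ∈ Z1 V (scal χ')) :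
    ∃ F : FF p → A, IsF V χ' α β F := by
  have hact := hχ.isActR
  have hZα : IsZ V (fun g => scal χ g) α := hα
  have hα1 : α 1 = 0 := Z1_one hact.toIsAct hα
  obtain ⟨γ, h1, h2⟩ := exists_lift (p := p) V hV (M := A × A) (M'' := A)
    (fun g m => (m.1 + χ' g * α g * m.2, χ' g * m.2)) (fun g => scal χ' g)
    (fun m => by
      show (m.1 + χ' 1 * α 1 * m.2, χ' 1 * m.2) = m
      rw [hχ'.one, hα1]
      ext <;> simp)
    (fun g _ m m' => by
      show (m.1 + m'.1 + χ' g * α g * (m.2 + m'.2), χ' g * (m.2 + m'.2)) =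
        (m.1 + χ' g * α g * m.2 + (m'.1 + χ' g * α g * m'.2), χ' g * m.2 + χ' g * m'.2)
      ext
      · show m.1 + m'.1 + χ' g * α g * (m.2 + m'.2) =
          m.1 + χ' g * α g * m.2 + (m'.1 + χ' g * α g * m'.2)
        ring
      · show χ' g * (m.2 + m'.2) = χ' g * m.2 + χ' g * m'.2
        ring)
    (fun g hg h hh m => by
      show (m.1 + χ' (g * h) * α (g * h) * m.2, χ' (g * h) * m.2) =
        (m.1 + χ' h * α h * m.2 + χ' g * α g * (χ' h * m.2), χ' g * (χ' h * m.2))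
      have h3 := hχ'.mul g hg h hh
      have h4 : α (g * h) = α g + χ g * α h := CupF_mul hα hg hh
      have h5 := hinv g hg
      rw [h3, h4]
      ext
      · show m.1 + χ' g * χ' h * (α g + χ g * α h) * m.2 =
          m.1 + χ' h * α h * m.2 + χ' g * α g * (χ' h * m.2)
        linear_combination (χ' h * α h * m.2) * h5
      · show χ' g * χ' h * m.2 = χ' g * (χ' h * m.2)
        ring)
    (by
      have hc1 : ContinuousOn (fun x : FF p × (A × A) => χ' x.1)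
          ((V : Set (FF p)) ×ˢ (univ : Set (A × A))) :=
        hχ'.cont.comp continuous_fst.continuousOn (fun x hx => hx.1)
      have hc2 : ContinuousOn (fun x : FF p × (A × A) => α x.1)
          ((V : Set (FF p)) ×ˢ (univ : Set (A × A))) :=
        (hZα.cont.comp continuous_fst).continuousOn
      have hc3 : ContinuousOn (fun x : FF p × (A × A) => x.2.1)
          ((V : Set (FF p)) ×ˢ (univ : Set (A × A))) :=
        (continuous_fst.comp continuous_snd).continuousOn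
      have hc4 : ContinuousOn (fun x : FF p × (A × A) => x.2.2)
          ((V : Set (FF p)) ×ˢ (univ : Set (A × A))) :=
        (continuous_snd.comp continuous_snd).continuousOn
      exact (hc3.add ((hc1.mul hc2).mul hc4)).prodMk (hc1.mul hc4))
    (AddMonoidHom.snd A A) continuous_snd (fun a => ⟨(0, a), rfl⟩)
    (fun g _ m => rfl) β hβ
  refine ⟨fun x => (γ x).1, ?_, ?_, ?_⟩
  · exact continuous_fst.comp h1.cont
  · intro x hx
    show (γ x).1 = 0
    rw [h1.supp x hx]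
    rfl
  · intro g hg h hh
    have h3 := h1.mul g hg h hh
    have h4 : (γ h).2 = β h := h2 h
    show (γ (g * h)).1 = (γ g).1 + (γ h).1 + χ' g * α g * β h
    rw [h3, ← h4]
    show (γ g).1 + ((γ h).1 + χ' g * α g * (γ h).2) = (γ g).1 + (γ h).1 + χ' g * α g * (γ h).2
    ring

theorem IsF.one (hχ : IsChar D V χ) (hα : α ∈ Z1 V (scal χ)) (h : IsF V χ' α β F) : F 1 = 0 := by
  have hα1 : α 1 = 0 := Z1_one hχ.isActR.toIsAct hα
  have h1 := h.mul 1 V.one_mem 1 V.one_mem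
  rw [mul_one, hα1] at h1
  linear_combination -h1

theorem IsF.mul_R (hR : D.R ≤ V) (hχ : IsChar D V χ) (hχ' : IsChar D V χ')
    (hα : α ∈ ZR D V (scal χ)) (hβ : β ∈ ZR D V (scal χ')) (h : IsF V χ' α β F) {v x : FF p}
    (hv : v ∈ V) (hx : x ∈ D.R) : F (v * x) = F v + F x ∧ F (x * v) = F x + F v := by
  have hα0 : α x = 0 := ((ZR_iff hR hχ.isActR).1 hα).2 x hx
  have hβ0 : β x = 0 := ((ZR_iff hR hχ'.isActR).1 hβ).2 x hx
  refine ⟨?_, ?_⟩
  · rw [h.mul v hv x (hR hx), hβ0, mul_zero, add_zero]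
  · rw [h.mul x (hR hx) v hv, hα0, mul_zero, zero_mul, add_zero]

theorem IsF.conj (hR : D.R ≤ V) (hχ : IsChar D V χ) (hχ' : IsChar D V χ')
    (hα : α ∈ ZR D V (scal χ)) (hβ : β ∈ ZR D V (scal χ')) (h : IsF V χ' α β F) {v x : FF p}
    (hv : v ∈ V) (hx : x ∈ D.R) : F (v * x * v⁻¹) = F x := by
  have hy : v * x * v⁻¹ ∈ D.R := (normal_R D).conj_mem x hx v
  have h1 := (h.mul_R hR hχ hχ' hα hβ hv hx).1
  have h2 := (h.mul_R hR hχ hχ' hα hβ hv hy).2
  have h3 : v * x * v⁻¹ * v = v * x := by group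
  rw [h3, h1] at h2
  linear_combination -h2

theorem IsF.ev_mem (hR : D.R ≤ V) (hχ : IsChar D V χ) (hχ' : IsChar D V χ')
    (hα : α ∈ ZR D V (scal χ)) (hβ : β ∈ ZR D V (scal χ')) (h : IsF V χ' α β F) :
    ev D F ∈ CV D V (triv A A) := by
  refine ⟨fun i v hv g => ?_, fun i g => ?_⟩
  · have h1 : v * g * D.r i * (v * g)⁻¹ = v * (g * D.r i * g⁻¹) * v⁻¹ := by group
    show F (v * g * D.r i * (v * g)⁻¹) = F (g * D.r i * g⁻¹)
    rw [h1]
    exact h.conj hR hχ hχ' hα hβ hv (r_mem_R D i g)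
  · have h1 : D.ω i * D.r i * (D.ω i)⁻¹ = D.r i := by
      rw [mul_inv_eq_iff_eq_mul]
      exact ((Commute.refl (D.ω i)).pow_right _).eq
    have h2 : g * D.ω i * D.r i * (g * D.ω i)⁻¹ = g * (D.ω i * D.r i * (D.ω i)⁻¹) * g⁻¹ := by
      group
    show F (g * D.ω i * D.r i * (g * D.ω i)⁻¹) = F (g * D.r i * g⁻¹)
    rw [h2, h1]

theorem IsF.sub_mem {F' : FF p → A} (h : IsF V χ' α β F) (h' : IsF V χ' α β F') :
    F - F' ∈ Z1 V (triv A A) := by
  refine ⟨h.cont.sub h'.cont, fun x hx => ?_, fun g hg k hk => ?_⟩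
  · show F x - F' x = 0
    rw [h.supp x hx, h'.supp x hx, sub_zero]
  · show F (g * k) - F' (g * k) = F g - F' g + (F k - F' k)
    rw [h.mul g hg k hk, h'.mul g hg k hk]
    ring

theorem IsF.add_hom {f : FF p → A} (h : IsF V χ' α β F) (hf : f ∈ Z1 V (triv A A)) :
    IsF V χ' α β (F + f) := by
  have hZ : IsZ V (fun g => triv A A g) f := hf
  refine ⟨h.cont.add hZ.cont, fun x hx => ?_, fun g hg k hk => ?_⟩
  · show F x + f x = 0
    rw [h.supp x hx, hZ.supp x hx, add_zero]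
  · have h1 : f (g * k) = f g + f k := hZ.mul g hg k hk
    show F (g * k) + f (g * k) = F g + f g + (F k + f k) + χ' g * α g * β k
    rw [h.mul g hg k hk, h1]
    ring

theorem IsF.add_left {α2 F2 : FF p → A} (h : IsF V χ' α β F) (h2 : IsF V χ' α2 β F2) :
    IsF V χ' (α + α2) β (F + F2) := by
  refine ⟨h.cont.add h2.cont, fun x hx => ?_, fun g hg k hk => ?_⟩
  · show F x + F2 x = 0
    rw [h.supp x hx, h2.supp x hx, add_zero]
  · show F (g * k) + F2 (g * k) = F g + F2 g + (F k + F2 k) + χ' g * (α g + α2 g) * β k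
    rw [h.mul g hg k hk, h2.mul g hg k hk]
    ring

theorem IsF.add_right {β2 F2 : FF p → A} (h : IsF V χ' α β F) (h2 : IsF V χ' α β2 F2) :
    IsF V χ' α (β + β2) (F + F2) := by
  refine ⟨h.cont.add h2.cont, fun x hx => ?_, fun g hg k hk => ?_⟩
  · show F x + F2 x = 0
    rw [h.supp x hx, h2.supp x hx, add_zero]
  · show F (g * k) + F2 (g * k) = F g + F2 g + (F k + F2 k) + χ' g * α g * (β k + β2 k)
    rw [h.mul g hg k hk, h2.mul g hg k hk]
    ring

theorem IsF.smul_left (a : A) (h : IsF V χ' α β F) : IsF V χ' (a • α) β (a • F) := by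
  refine ⟨continuous_const.mul h.cont, fun x hx => ?_, fun g hg k hk => ?_⟩
  · show a * F x = 0
    rw [h.supp x hx, mul_zero]
  · show a * F (g * k) = a * F g + a * F k + χ' g * (a * α g) * β k
    rw [h.mul g hg k hk]
    ring

theorem IsF.smul_right (a : A) (h : IsF V χ' α β F) : IsF V χ' α (a • β) (a • F) := by
  refine ⟨continuous_const.mul h.cont, fun x hx => ?_, fun g hg k hk => ?_⟩
  · show a * F x = 0
    rw [h.supp x hx, mul_zero]
  · show a * F (g * k) = a * F g + a * F k + χ' g * α g * (a * β k)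
    rw [h.mul g hg k hk]
    ring

theorem isF_zero_left : IsF V χ' 0 β 0 := by
  refine ⟨continuous_const, fun x hx => rfl, fun g hg k hk => ?_⟩
  show (0 : A) = 0 + 0 + χ' g * 0 * β k
  ring

theorem isF_zero_right : IsF V χ' α 0 0 := by
  refine ⟨continuous_const, fun x hx => rfl, fun g hg k hk => ?_⟩
  show (0 : A) = 0 + 0 + χ' g * α g * 0
  ring

theorem IsF.map {A' : Type} [CommRing A'] [TopologicalSpace A'] [ProPRing p A'] (φ : A →+* A')
    (hφ : Continuous φ) (h : IsF V χ' α β F) :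
    IsF V (fun x => φ (χ' x)) (fun x => φ (α x)) (fun x => φ (β x)) fun x => φ (F x) := by
  refine ⟨hφ.comp h.cont, fun x hx => ?_, fun g hg k hk => ?_⟩
  · show φ (F x) = 0
    rw [h.supp x hx, map_zero]
  · show φ (F (g * k)) = φ (F g) + φ (F k) + φ (χ' g) * φ (α g) * φ (β k)
    rw [h.mul g hg k hk, map_add, map_add, map_mul, map_mul]

theorem IsF.res {V' : Subgroup (FF p)} (hV' : IsOpen (V' : Set (FF p))) (hle : V' ≤ V)
    (h : IsF V χ' α β F) : IsF V' χ' (res V' α) (res V' β) (res V' F) := by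
  have hcl : IsClosed (V' : Set (FF p)) := V'.isClosed_of_isOpen hV'
  refine ⟨?_, fun x hx => Set.indicator_of_notMem hx _, fun g hg k hk => ?_⟩
  · have hcp : IsClopen (V' : Set (FF p)) := ⟨hcl, hV'⟩
    refine h.cont.indicator fun a ha => ?_
    rw [hcp.frontier_eq] at ha
    exact ha.elim
  · have hg' : g ∈ (V' : Set (FF p)) := hg
    have hk' : k ∈ (V' : Set (FF p)) := hk
    have h1 : g * k ∈ (V' : Set (FF p)) := V'.mul_mem hg hk
    unfold D687.res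
    rw [Set.indicator_of_mem h1, Set.indicator_of_mem hg', Set.indicator_of_mem hk',
      Set.indicator_of_mem hg', Set.indicator_of_mem hk']
    exact h.mul g (hle hg) k (hle hk)

/-- Conjugation: `σ` normalises `V'`, `σ ∈ V`, `χ, χ'` inverse characters of `V ≥ V'`. -/
theorem IsF.conj' {V' : Subgroup (FF p)} (hle : V' ≤ V) (hχ : IsChar D V χ)
    (hχ' : IsChar D V χ') (hinv : ∀ v ∈ V, χ v * χ' v = 1) {σ : FF p} (hσ : σ ∈ V)
    (hn : ∀ x, σ⁻¹ * x * σ ∈ V' ↔ x ∈ V') (h : IsF V' χ' α β F) :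
    IsF V' χ' (fun x => χ σ * α (σ⁻¹ * x * σ)) (fun x => χ' σ * β (σ⁻¹ * x * σ))
      fun x => F (σ⁻¹ * x * σ) := by
  have hc : Continuous fun x : FF p => σ⁻¹ * x * σ :=
    (continuous_const.mul continuous_id).mul continuous_const
  refine ⟨h.cont.comp hc, fun x hx => ?_, fun g hg k hk => ?_⟩
  · exact h.supp _ fun h1 => hx ((hn x).1 h1)
  · have h1 : σ⁻¹ * (g * k) * σ = (σ⁻¹ * g * σ) * (σ⁻¹ * k * σ) := by group
    have h2 := h.mul (σ⁻¹ * g * σ) ((hn g).2 hg) (σ⁻¹ * k * σ) ((hn k).2 hk)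
    have h3 : χ' (σ⁻¹ * g * σ) = χ' g := CupF_chi hχ' hσ (hle hg)
    have h4 := hinv σ hσ
    show F (σ⁻¹ * (g * k) * σ) = F (σ⁻¹ * g * σ) + F (σ⁻¹ * k * σ) +
      χ' g * (χ σ * α (σ⁻¹ * g * σ)) * (χ' σ * β (σ⁻¹ * k * σ))
    rw [h1, h2, h3]
    linear_combination -(χ' g * α (σ⁻¹ * g * σ) * β (σ⁻¹ * k * σ)) * h4

theorem Z1_conj' {V' : Subgroup (FF p)} (hle : V' ≤ V) (hχ : IsChar D V χ) {σ : FF p}
    (hσ : σ ∈ V) (hn : ∀ x, σ⁻¹ * x * σ ∈ V' ↔ x ∈ V') (hα : α ∈ Z1 V' (scal χ)) :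
    (fun x => χ σ * α (σ⁻¹ * x * σ)) ∈ Z1 V' (scal χ) := by
  have hZ : IsZ V' (fun g => scal χ g) α := hα
  have hc : Continuous fun x : FF p => σ⁻¹ * x * σ :=
    (continuous_const.mul continuous_id).mul continuous_const
  refine ⟨continuous_const.mul (hZ.cont.comp hc), fun x hx => ?_, fun g hg k hk => ?_⟩
  · show χ σ * α (σ⁻¹ * x * σ) = 0
    rw [hZ.supp _ fun h1 => hx ((hn x).1 h1), mul_zero]
  · have h1 : σ⁻¹ * (g * k) * σ = (σ⁻¹ * g * σ) * (σ⁻¹ * k * σ) := by group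
    have h2 := CupF_mul hα ((hn g).2 hg) ((hn k).2 hk)
    have h3 : χ (σ⁻¹ * g * σ) = χ g := CupF_chi hχ hσ (hle hg)
    show χ σ * α (σ⁻¹ * (g * k) * σ) = χ σ * α (σ⁻¹ * g * σ) +
      χ g * (χ σ * α (σ⁻¹ * k * σ))
    rw [h1, h2, h3]
    ring

theorem ZR_conj' {V' : Subgroup (FF p)} (hle : V' ≤ V) (hR : D.R ≤ V') (hχ : IsChar D V χ)
    {σ : FF p} (hσ : σ ∈ V) (hn : ∀ x, σ⁻¹ * x * σ ∈ V' ↔ x ∈ V') (hα : α ∈ ZR D V' (scal χ)) :
    (fun x => χ σ * α (σ⁻¹ * x * σ)) ∈ ZR D V' (scal χ) := by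
  refine ⟨Z1_conj' hle hχ hσ hn hα.1, ?_⟩
  have h1 : ev D α = 0 := hα.2
  show ev D (fun x => χ σ * α (σ⁻¹ * x * σ)) = 0
  funext i g
  have h2 : α (σ⁻¹ * g * D.r i * (σ⁻¹ * g)⁻¹) = 0 := congrFun (congrFun h1 i) (σ⁻¹ * g)
  have h3 : σ⁻¹ * (g * D.r i * g⁻¹) * σ = σ⁻¹ * g * D.r i * (σ⁻¹ * g)⁻¹ := by group
  show χ σ * α (σ⁻¹ * (g * D.r i * g⁻¹) * σ) = 0
  rw [h3, h2, mul_zero]

end D687
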