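import Mathlib

/-!
MP_d687bf_al (S03200): an infinite finitely generated `p`-subgroup of `Dˣ`, `D` a division ring.
Paper proof: `/team-store/MP_d687bf_proof_helper28.md`. All definitions of the library.

Conventions: `FF p` is the free pro-`p` group on two generators. All functions are defined on the
whole of `FF p`; a crossed homomorphism on an open subgroup `V` is a function `FF p → M` which is
zero outside `V`. Actions are functions `act : FF p → M →ₗ[A] M`, only their values on `V` matter.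
-/

set_option autoImplicit false

open Set Filter Topology

namespace D687

noncomputable section

/-! ### Topology on power series -/

attribute [instance] MvPowerSeries.WithPiTopology.instTopologicalSpace
  MvPowerSeries.WithPiTopology.instT2Space MvPowerSeries.WithPiTopology.instIsTopologicalRing

/-! ### Pro-`p` modules and rings -/

/-- A profinite abelian pro-`p` group. -/
class ProPMod (p : ℕ) (M : Type) [AddCommGroup M] [TopologicalSpace M] : Prop extends
    IsTopologicalAddGroup M, CompactSpace M, T2Space M, TotallyDisconnectedSpace M where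
  pnil : ∀ m : M, Tendsto (fun n : ℕ => (p ^ n) • m) atTop (𝓝 0)

/-- A commutative compact totally disconnected topological ring, additively pro-`p`. -/
class ProPRing (p : ℕ) (A : Type) [CommRing A] [TopologicalSpace A] : Prop extends
    IsTopologicalRing A, CompactSpace A, T2Space A, TotallyDisconnectedSpace A where
  pnil : ∀ a : A, Tendsto (fun n : ℕ => (p ^ n) • a) atTop (𝓝 0)

/-- The ring `k[[T]]`, `k = ZMod p`. -/
abbrev K1 (p : ℕ) := PowerSeries (ZMod p)

/-- The ring `k[[S,T]]`, `S = X 0`, `T = X 1`. -/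
abbrev K2 (p : ℕ) := MvPowerSeries (Fin 2) (ZMod p)

/-- The ring `ℤ_p[[T]]`. -/
abbrev ZT (p : ℕ) [Fact p.Prime] := PowerSeries ℤ_[p]

/-! ### The free pro-`p` group -/

/-- The discrete free group on two generators. -/
abbrev Fr := FreeGroup (Fin 2)

/-- Normal subgroups of `p`-power index of the free group. -/
structure NIdx (p : ℕ) where
  N : Subgroup Fr
  normal : N.Normal
  idx : ∃ n : ℕ, N.index = p ^ n

instance (p : ℕ) (N : NIdx p) : N.N.Normal := N.normal

/-- The finite `p`-group `F/N`. -/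
def Qt (p : ℕ) (N : NIdx p) : Type := Fr ⧸ N.N

instance (p : ℕ) (N : NIdx p) : Group (Qt p N) := inferInstanceAs (Group (Fr ⧸ N.N))
instance (p : ℕ) (N : NIdx p) : TopologicalSpace (Qt p N) := ⊥
instance (p : ℕ) (N : NIdx p) : DiscreteTopology (Qt p N) := ⟨rfl⟩

/-- The projection `F → F/N`. -/
def qt (p : ℕ) (N : NIdx p) : Fr →* Qt p N := QuotientGroup.mk' N.N

/-- The diagonal map `F → ∏ F/N`. -/
def diag (p : ℕ) : Fr →* (∀ N : NIdx p, Qt p N) := MonoidHom.pi fun N => qt p N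

/-- The free pro-`p` group on two generators: the closure of the image of `F` in `∏ F/N`. -/
def FF (p : ℕ) : Type := ↥((diag p).range.topologicalClosure)

instance (p : ℕ) : Group (FF p) := inferInstanceAs (Group ↥((diag p).range.topologicalClosure))
instance (p : ℕ) : TopologicalSpace (FF p) :=
  inferInstanceAs (TopologicalSpace ↥((diag p).range.topologicalClosure))
instance (p : ℕ) : IsTopologicalGroup (FF p) :=
  inferInstanceAs (IsTopologicalGroup ↥((diag p).range.topologicalClosure))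
instance (p : ℕ) : T2Space (FF p) :=
  inferInstanceAs (T2Space ↥((diag p).range.topologicalClosure))
instance (p : ℕ) : TotallyDisconnectedSpace (FF p) :=
  inferInstanceAs (TotallyDisconnectedSpace ↥((diag p).range.topologicalClosure))

/-- The map `F → FF p`. -/
def io (p : ℕ) : Fr →* FF p :=
  (diag p).codRestrict ((diag p).range.topologicalClosure)
    fun w => Subgroup.le_topologicalClosure _ ⟨w, rfl⟩

/-- The two topological generators of `FF p`. -/
def gen (p : ℕ) (j : Fin 2) : FF p := io p (FreeGroup.of j)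

instance (p : ℕ) [Fact p.Prime] (N : NIdx p) : Finite (Qt p N) := by
  obtain ⟨n, hn⟩ := N.idx
  have : N.N.index ≠ 0 := by
    rw [hn]; exact pow_ne_zero _ (Fact.out : p.Prime).ne_zero
  have : N.N.FiniteIndex := ⟨this⟩
  exact inferInstanceAs (Finite (Fr ⧸ N.N))

instance (p : ℕ) [Fact p.Prime] : CompactSpace (FF p) := by
  have : IsClosed (((diag p).range.topologicalClosure : Subgroup _) : Set (∀ N : NIdx p, Qt p N)) :=
    Subgroup.isClosed_topologicalClosure _
  exact isCompact_iff_compactSpace.mp this.isCompact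

/-! ### Data -/

/-- A datum: finitely many elements `ω i` of `FF p` with exponents `p ^ a i`. -/
structure Datum (p : ℕ) where
  n : ℕ
  ω : Fin n → FF p
  a : Fin n → ℕ

namespace Datum

variable {p : ℕ} (D : Datum p)

/-- The relators. -/
def r (i : Fin D.n) : FF p := D.ω i ^ (p ^ D.a i)

/-- The closed normal subgroup generated by the relators. -/
def R : Subgroup (FF p) := (Subgroup.normalClosure (Set.range D.r)).topologicalClosure

end Datum

/-- Admissible open subgroups. -/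
structure Adm {p : ℕ} (D : Datum p) (V : Subgroup (FF p)) : Prop where
  isOpen : IsOpen (V : Set (FF p))
  hR : D.R ≤ V
  free : ∀ (g : FF p) (i : Fin D.n) (j : ℤ), g * D.ω i ^ j * g⁻¹ ∈ V → ((p ^ D.a i : ℕ) : ℤ) ∣ j

/-! ### Actions, crossed homomorphisms, `C_V` -/

/-- Evaluation at the relators: `(ev α) i g = α (g r_i g⁻¹)`. -/
def ev {p : ℕ} {M : Type} (D : Datum p) (α : FF p → M) : Fin D.n → FF p → M :=
  fun i g => α (g * D.r i * g⁻¹)

/-- `ev` as a linear map. -/
def evL {p : ℕ} (A M : Type) [CommRing A] [AddCommGroup M] [Module A M] (D : Datum p) :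
    (FF p → M) →ₗ[A] (Fin D.n → FF p → M) where
  toFun α := ev D α
  map_add' _ _ := rfl
  map_smul' _ _ := rfl

/-- `α` is a continuous crossed homomorphism on `V` for the action `act`, extended by zero. -/
structure IsZ {p : ℕ} {M : Type} [AddCommGroup M] [TopologicalSpace M] (V : Subgroup (FF p))
    (act : FF p → M → M) (α : FF p → M) : Prop where
  cont : Continuous α
  supp : ∀ x, x ∉ V → α x = 0
  mul : ∀ g ∈ V, ∀ h ∈ V, α (g * h) = α g + act g (α h)

section act

variable {p : ℕ} {A M : Type} [CommRing A] [AddCommGroup M] [Module A M] [TopologicalSpace M]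

/-- `act` is a continuous linear action of `V` on `M`. -/
structure IsAct (V : Subgroup (FF p)) (act : FF p → M →ₗ[A] M) : Prop where
  one : act 1 = LinearMap.id
  mul : ∀ g ∈ V, ∀ h ∈ V, act (g * h) = act g ∘ₗ act h
  cont : ContinuousOn (fun x : FF p × M => act x.1 x.2) ((V : Set (FF p)) ×ˢ (univ : Set M))

/-- `act` is a continuous linear action of `V / R` on `M`. -/
structure IsActR (D : Datum p) (V : Subgroup (FF p)) (act : FF p → M →ₗ[A] M) : Prop extends
    IsAct V act where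
  triv : ∀ x ∈ D.R, act x = LinearMap.id

variable [IsTopologicalAddGroup M] [ContinuousConstSMul A M]

/-- Continuous crossed homomorphisms on `V`, extended by zero. -/
def Z1 (V : Subgroup (FF p)) (act : FF p → M →ₗ[A] M) : Submodule A (FF p → M) where
  carrier := {α | IsZ V (fun g => act g) α}
  add_mem' := by
    rintro a b ⟨ha, ha', ha''⟩ ⟨hb, hb', hb''⟩
    refine ⟨ha.add hb, fun x hx => by simp [ha' x hx, hb' x hx], fun g hg h hh => ?_⟩
    simp only [Pi.add_apply, ha'' g hg h hh, hb'' g hg h hh, map_add]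
    abel
  zero_mem' := ⟨continuous_const, fun _ _ => rfl, fun _ _ _ _ => by simp⟩
  smul_mem' := by
    rintro c a ⟨ha, ha', ha''⟩
    refine ⟨ha.const_smul c, fun x hx => by simp [ha' x hx], fun g hg h hh => ?_⟩
    simp only [Pi.smul_apply, ha'' g hg h hh, smul_add, map_smul]

omit [TopologicalSpace M] [IsTopologicalAddGroup M] [ContinuousConstSMul A M] in
/-- `C_V(M)`. -/
def CV (D : Datum p) (V : Subgroup (FF p)) (act : FF p → M →ₗ[A] M) :
    Submodule A (Fin D.n → FF p → M) where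
  carrier := {t | (∀ i, ∀ v ∈ V, ∀ g, t i (v * g) = act v (t i g)) ∧
    ∀ i g, t i (g * D.ω i) = t i g}
  add_mem' := by
    rintro a b ⟨ha, ha'⟩ ⟨hb, hb'⟩
    refine ⟨fun i v hv g => by simp [ha i v hv g, hb i v hv g], fun i g => by
      simp [ha' i g, hb' i g]⟩
  zero_mem' := ⟨fun _ _ _ _ => by simp, fun _ _ => rfl⟩
  smul_mem' := by
    rintro c a ⟨ha, ha'⟩
    refine ⟨fun i v hv g => by simp [ha i v hv g], fun i g => by simp [ha' i g]⟩

/-- `Z_R(V, M)`: crossed homomorphisms vanishing at all conjugates of the relators. -/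
def ZR (D : Datum p) (V : Subgroup (FF p)) (act : FF p → M →ₗ[A] M) : Submodule A (FF p → M) :=
  Z1 V act ⊓ LinearMap.ker (evL A M D)

/-- `a T_V(M) = 0`. -/
def Kills (D : Datum p) (V : Subgroup (FF p)) (act : FF p → M →ₗ[A] M) (a : A) : Prop :=
  ∀ t ∈ CV D V act, ∃ α ∈ Z1 V act, ev D α = a • t

end act

/-- The trivial action. -/
def triv {p : ℕ} (A M : Type) [CommRing A] [AddCommGroup M] [Module A M] : FF p → M →ₗ[A] M :=
  fun _ => LinearMap.id

/-- The action of `V` on `A` through a function `χ : FF p → A`. -/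
def scal {p : ℕ} {A : Type} [CommRing A] (χ : FF p → A) : FF p → A →ₗ[A] A :=
  fun g => χ g • LinearMap.id

/-- `χ` is a continuous character `V / R → Aˣ`. -/
structure IsChar {p : ℕ} {A : Type} [CommRing A] [TopologicalSpace A] (D : Datum p)
    (V : Subgroup (FF p)) (χ : FF p → A) : Prop where
  one : χ 1 = 1
  mul : ∀ g ∈ V, ∀ h ∈ V, χ (g * h) = χ g * χ h
  cont : ContinuousOn χ V
  triv : ∀ x ∈ D.R, χ x = 1

/-! ### `X(V)`, `H(V)`, `I(V)`, `T_V(k)` -/

section fin

variable {p : ℕ} [Fact p.Prime] (D : Datum p) (V : Subgroup (FF p))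

/-- `Hom(V, k)`. -/
abbrev Hk : Submodule (ZMod p) (FF p → ZMod p) := Z1 V (triv (ZMod p) (ZMod p))

/-- `H(V) = Hom(V/R, k)`. -/
abbrev HH : Submodule (ZMod p) (FF p → ZMod p) := ZR D V (triv (ZMod p) (ZMod p))

/-- `λ` is (on `V`) an element of `X(V) = Hom(V/R, ℤ_p)`. -/
structure IsX (l : FF p → ℤ_[p]) : Prop where
  cont : ContinuousOn l V
  add : ∀ g ∈ V, ∀ h ∈ V, l (g * h) = l g + l h
  triv : ∀ x ∈ D.R, l x = 0

/-- `I(V)`: the reductions mod `p` of the elements of `X(V)`. -/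
def II : Submodule (ZMod p) (FF p → ZMod p) :=
  Submodule.span (ZMod p)
    {a | ∃ l : FF p → ℤ_[p], IsX D V l ∧ (∀ x ∈ V, a x = PadicInt.toZMod (l x)) ∧
      ∀ x, x ∉ V → a x = 0}

/-- `C_V(k)`. -/
abbrev Ck : Submodule (ZMod p) (Fin D.n → FF p → ZMod p) := CV D V (triv (ZMod p) (ZMod p))

/-- `T_V(k)`. -/
abbrev TV := (Ck D V) ⧸ ((Hk V).map (evL (ZMod p) (ZMod p) D)).comap (Ck D V).subtype

/-- `b(V) = dim T_V(k)`. -/
def bV : ℕ := Module.finrank (ZMod p) (TV D V)

/-- Chains: finite formal combinations of pairs (relator, base point), with coefficients in `k`. -/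
abbrev Ch := (Fin D.n × FF p) →₀ ZMod p

/-- Pairing of a chain with a `C_V`-function with values in any `k`-module. -/
def pair {D : Datum p} {M : Type} [AddCommGroup M] [Module (ZMod p) M] (z : Ch D)
    (t : Fin D.n → FF p → M) : M := z.sum fun x c => c • t x.1 x.2

/-- `z` is (represents) an element of `T_V(k)^*`. -/
def IsClass {D : Datum p} (V : Subgroup (FF p)) (z : Ch D) : Prop :=
  ∀ h ∈ Hk V, pair z (ev D h) = 0

/-- `z` is a non-zero functional on `C_V(k)`. -/
def NonZ {D : Datum p} (V : Subgroup (FF p)) (z : Ch D) : Prop := ∃ t ∈ Ck D V, pair z t ≠ 0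

end fin

/-! ### Cup products -/

/-- `F` is a primitive of the cup product of `α` and `β`: (3.1)(*), `χ' = χ⁻¹`. -/
structure IsF {p : ℕ} {A : Type} [CommRing A] [TopologicalSpace A] (V : Subgroup (FF p))
    (χ' : FF p → A) (α β F : FF p → A) : Prop where
  cont : Continuous F
  supp : ∀ x, x ∉ V → F x = 0
  mul : ∀ g ∈ V, ∀ h ∈ V, F (g * h) = F g + F h + χ' g * α g * β h

section br

variable {p : ℕ} [Fact p.Prime] (D : Datum p) (V : Subgroup (FF p))

/-- `c` is the cup product `H(V) × H(V) → T_V(k)`. -/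
def IsCup (c : HH D V →ₗ[ZMod p] HH D V →ₗ[ZMod p] TV D V) : Prop :=
  ∀ (a b : HH D V) (F : FF p → ZMod p), IsF V 1 (a : FF p → ZMod p) b F →
    ∃ h : ev D F ∈ Ck D V, c a b = Submodule.Quotient.mk ⟨ev D F, h⟩

/-- The inductive property (BR). -/
def BR : Prop :=
  ∃ V : Subgroup (FF p), Adm D V ∧ ∃ c : HH D V →ₗ[ZMod p] HH D V →ₗ[ZMod p] TV D V,
    IsCup D V c ∧ bV D V + 4 ≤ Module.finrank (ZMod p) (HH D V) ∧
    ∀ κ : Module.Dual (ZMod p) (TV D V), κ ≠ 0 →
      4 * bV D V + 1 ≤ Module.finrank (ZMod p) (LinearMap.range (c.compr₂ κ))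

end br

/-! ### `t ^ z` and the functionals `c_s` -/

section tp

variable {p : ℕ} [Fact p.Prime]

/-- `(1 + T) ^ z` in `ℤ_p[[T]]`. -/
def tpowZ (z : ℤ_[p]) : ZT p := PowerSeries.binomialSeries ℤ_[p] z

/-- `t ^ z = (1 + T) ^ z` in `k[[T]]`. -/
def tpow (z : ℤ_[p]) : K1 p := (tpowZ z).map PadicInt.toZMod

/-- The functional coefficient of `1` in `k[T]/T^(p^s) = k[ℤ/p^s]`. -/
def cs (s : ℕ) (f : K1 p) : ZMod p :=
  ∑ j ∈ Finset.range (p ^ s), (-1) ^ j * PowerSeries.coeff j f

/-- The character `t ^ λ`. -/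
def chr (l : FF p → ℤ_[p]) : FF p → K1 p := fun g => tpow (l g)

theorem hasSubst_inc (i : Fin 2) :
    MvPowerSeries.HasSubst (fun _ : Unit => (MvPowerSeries.X i : K2 p)) :=
  MvPowerSeries.hasSubst_of_constantCoeff_zero (fun _ => by simp)

/-- The embedding `k[[T]] → k[[S,T]]`, `T ↦ S` (`i = 0`) or `T ↦ T` (`i = 1`). -/
def inc (i : Fin 2) : K1 p →+* K2 p :=
  (MvPowerSeries.substAlgHom (R := ZMod p) (hasSubst_inc (p := p) i)).toRingHom

theorem hasSubst_spec (a b : ℕ) (ha : a ≠ 0) (hb : b ≠ 0) : MvPowerSeries.HasSubst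
    (fun i : Fin 2 => (if i = 0 then MvPowerSeries.X () ^ a else MvPowerSeries.X () ^ b :
      MvPowerSeries Unit (ZMod p))) :=
  MvPowerSeries.hasSubst_of_constantCoeff_zero (fun i => by split_ifs <;> simp [ha, hb])

theorem hasSubst_redS : MvPowerSeries.HasSubst
    (fun i : Fin 2 => (if i = 0 then 0 else MvPowerSeries.X () : MvPowerSeries Unit (ZMod p))) :=
  MvPowerSeries.hasSubst_of_constantCoeff_zero (fun i => by split_ifs <;> simp)

/-- `k[[S,T]] → k[[T]]`, `S ↦ 0`, `T ↦ T`. -/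
def redS : K2 p →+* K1 p :=
  (MvPowerSeries.substAlgHom (R := ZMod p) (hasSubst_redS (p := p))).toRingHom

/-- `k[[S,T]] → k[[X]]`, `S ↦ X`, `T ↦ X ^ (p ^ E)`. -/
def phiE (E : ℕ) : K2 p →+* K1 p :=
  (MvPowerSeries.substAlgHom (R := ZMod p) (hasSubst_spec (p := p) 1 (p ^ E) one_ne_zero
    (pow_ne_zero _ (Fact.out : p.Prime).ne_zero))).toRingHom

/-- `k[[S,T]] → k[[X]]`, `S ↦ X ^ (p ^ E)`, `T ↦ X`. -/
def psiE (E : ℕ) : K2 p →+* K1 p :=
  (MvPowerSeries.substAlgHom (R := ZMod p) (hasSubst_spec (p := p) (p ^ E) 1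
    (pow_ne_zero _ (Fact.out : p.Prime).ne_zero) one_ne_zero)).toRingHom

/-- The reduction `ℤ_p[[T]] → k[[T]]`. -/
def redP : ZT p →+* K1 p := PowerSeries.map PadicInt.toZMod

/-- The character `(1+S)^μ (1+T)^λ` with values in `k[[S,T]]`. -/
def chr2 (m l : FF p → ℤ_[p]) : FF p → K2 p :=
  fun g => inc 0 (tpow (m g)) * inc 1 (tpow (l g))

/-- The character `(1+T)^λ` with values in `ℤ_p[[T]]`. -/
def chrZ (l : FF p → ℤ_[p]) : FF p → ZT p := fun g => tpowZ (l g)

/-- `(1+T)^(p^m) - 1` in `ℤ_p[[T]]`. -/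
def wm (m : ℕ) : ZT p := (1 + PowerSeries.X) ^ (p ^ m) - 1

end tp

/-! ### Cyclic covers -/

/-- `V' ≤ V` is the kernel of `ψ : V → ℤ/N`, `ψ σ = 1`. -/
structure IsCyc {p : ℕ} (V V' : Subgroup (FF p)) (N : ℕ) (ψ : FF p → ZMod N) (σ : FF p) :
    Prop where
  isOpen : IsOpen (V' : Set (FF p))
  le : V' ≤ V
  add : ∀ g ∈ V, ∀ h ∈ V, ψ (g * h) = ψ g + ψ h
  ker : ∀ g ∈ V, ψ g = 0 ↔ g ∈ V'
  mem : σ ∈ V
  one : ψ σ = 1

section cov

variable {p : ℕ} {A M : Type} [CommRing A] [AddCommGroup M] [Module A M]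

/-- The induced module `M# = Map(ℤ/N, M)`: `(g φ)(c) = g (φ (c - ψ g))`. -/
def shA {N : ℕ} (act : FF p → M →ₗ[A] M) (ψ : FF p → ZMod N) :
    FF p → (ZMod N → M) →ₗ[A] (ZMod N → M) := fun g =>
  { toFun := fun φ c => act g (φ (c - ψ g))
    map_add' := fun φ φ' => by ext c; simp
    map_smul' := fun a φ => by ext c; simp }

/-- `(v · t)_i(g) = v t_i(v⁻¹ g)`. -/
def dot {n : ℕ} (act : FF p → M →ₗ[A] M) (v : FF p) (t : Fin n → FF p → M) : Fin n → FF p → M :=
  fun i g => act v (t i (v⁻¹ * g))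

/-- `cor t = ∑_{j < N} σ^j · t`. -/
def cor {n : ℕ} (act : FF p → M →ₗ[A] M) (σ : FF p) (N : ℕ) (t : Fin n → FF p → M) :
    Fin n → FF p → M := ∑ j ∈ Finset.range N, dot act (σ ^ j) t

/-- Restriction (extension by zero) of a function to `V'`. -/
def res {M : Type} [Zero M] (V' : Subgroup (FF p)) (α : FF p → M) : FF p → M :=
  Set.indicator (V' : Set (FF p)) α

end cov

/-! ### Good characters, `(ND)`, the tower -/

section good

variable {p : ℕ} [Fact p.Prime] (D : Datum p) (V : Subgroup (FF p))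

/-- `λ` is good for `V`. -/
def Good (l : FF p → ℤ_[p]) : Prop :=
  ∃ n : ℕ, Kills D V (scal (chr l)) ((PowerSeries.X : K1 p) ^ n) ∧
    Kills D V (scal (chr (-l))) ((PowerSeries.X : K1 p) ^ n)

/-- (ND) for `(V, λ)`. -/
def ND (l : FF p → ℤ_[p]) : Prop :=
  ∀ z : Ch D, IsClass V z → NonZ V z →
    ∃ α ∈ ZR D V (scal (chr l)), ∃ β ∈ ZR D V (scal (chr (-l))), ∃ F : FF p → K1 p,
      IsF V (chr (-l)) α β F ∧ pair z (ev D F) ≠ 0

/-- `{v ∈ V : p ^ m ∣ λ v for all λ ∈ X(V)}`. -/
def lev (m : ℕ) : Subgroup (FF p) where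
  carrier := {v | v ∈ V ∧ ∀ l : FF p → ℤ_[p], IsX D V l → (p : ℤ_[p]) ^ m ∣ l v}
  mul_mem' := by
    rintro a b ⟨ha, ha'⟩ ⟨hb, hb'⟩
    refine ⟨V.mul_mem ha hb, fun l hl => ?_⟩
    rw [hl.add a ha b hb]
    exact dvd_add (ha' l hl) (hb' l hl)
  one_mem' := by
    refine ⟨V.one_mem, fun l hl => ?_⟩
    rw [hl.triv 1 D.R.one_mem]
    exact dvd_zero _
  inv_mem' := by
    rintro a ⟨ha, ha'⟩
    refine ⟨V.inv_mem ha, fun l hl => ?_⟩
    have h1 : l 1 = 0 := hl.triv 1 D.R.one_mem
    have h2 : l (a * a⁻¹) = l a + l a⁻¹ := hl.add a ha a⁻¹ (V.inv_mem ha)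
    rw [mul_inv_cancel, h1] at h2
    have h3 : l a⁻¹ = -l a := by linear_combination -h2
    rw [h3]
    exact (dvd_neg).mpr (ha' l hl)

/-- `V^#`. -/
abbrev sharp : Subgroup (FF p) := lev D V 1

/-- The tower `V^{#j}`. -/
def tower : ℕ → Subgroup (FF p)
  | 0 => V
  | (j + 1) => sharp D (tower j)

end good

/-! ### The consequences of (BR) which are used later -/

/-- Consequences of (BR) (sections 4-6 of the proof). -/
structure Sys {p : ℕ} [Fact p.Prime] (D : Datum p) where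
  V1 : Subgroup (FF p)
  adm : Adm D V1
  b0 : FF p → ℤ_[p]
  isX : IsX D V1 b0
  ne0 : ∃ x ∈ V1, b0 x ≠ 0
  good : ∀ V : Subgroup (FF p), IsOpen (V : Set (FF p)) → D.R ≤ V → V ≤ V1 → Good D V b0
  nd : ∀ V : Subgroup (FF p), IsOpen (V : Set (FF p)) → D.R ≤ V → V ≤ V1 → ND D V b0
  nz : ∀ V : Subgroup (FF p), IsOpen (V : Set (FF p)) → D.R ≤ V → V ≤ V1 →
    ∀ v ∈ V, (∃ a ∈ HH D V, (a : FF p → ZMod p) v ≠ 0) →
      ∃ g : FF p → ℤ_[p], IsX D V1 g ∧ (∃ x ∈ V1, g x ≠ 0) ∧ g v = 0 ∧ Good D V g ∧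
        (∃ α ∈ ZR D V (scal (chr g)), (α : FF p → K1 p) v ≠ 0) ∧
        (∃ α ∈ ZR D V (scal (chr (-g))), (α : FF p → K1 p) v ≠ 0)

/-- The datum with one more relator. -/
def Datum.snoc {p : ℕ} (D : Datum p) (w : FF p) (b : ℕ) : Datum p where
  n := D.n + 1
  ω := Fin.snoc D.ω w
  a := Fin.snoc D.a b

end

end D687
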