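import Pool.Agent.Lib_MP_d687bf.Defs

/-!
MP_d687bf: further definitions (representatives, reductions, pairs of characters).
-/

set_option autoImplicit false

open Set Filter Topology

namespace D687

noncomputable section

variable {p : ℕ}

/-- `(ri l, rg l)`, `l : Fin q`, are representatives of the disjoint union of the `V \ FF / ⟨ω_i⟩`. -/
structure IsReps (D : Datum p) (V : Subgroup (FF p)) {q : ℕ} (ri : Fin q → Fin D.n)
    (rg : Fin q → FF p) : Prop where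
  ex : ∀ (i : Fin D.n) (g : FF p), ∃ l, ri l = i ∧ ∃ v ∈ V, ∃ j : ℤ, g = v * rg l * D.ω i ^ j
  inj : ∀ l l' : Fin q, ri l = ri l' →
    (∃ v ∈ V, ∃ j : ℤ, rg l' = v * rg l * D.ω (ri l) ^ j) → l = l'

variable [Fact p.Prime]

/-- The reduction mod `p` of `λ` on `V`, extended by zero. -/
def redl (V : Subgroup (FF p)) (l : FF p → ℤ_[p]) : FF p → ZMod p :=
  Set.indicator (V : Set (FF p)) fun x => PadicInt.toZMod (l x)

/-- `(γ₁, γ₂)` is a pair of characters of `V` for which `a ↦ ([γ₁ ∪ a], [γ₂ ∪ a])` is onto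
`T_V(k)²`. -/
def IsPair (D : Datum p) (V : Subgroup (FF p)) (g1 g2 : FF p → ℤ_[p]) : Prop :=
  IsX D V g1 ∧ IsX D V g2 ∧ ∀ t1 ∈ Ck D V, ∀ t2 ∈ Ck D V, ∃ a ∈ HH D V,
    ∃ F1 F2 : FF p → ZMod p, IsF V 1 (redl V g1) a F1 ∧ ev D F1 = t1 ∧
      IsF V 1 (redl V g2) a F2 ∧ ev D F2 = t2

end

end D687
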