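import Pool.Agent.Lib_MP_d687bf.Defs

/-!
MP_d687bf, section 8, definitions: the cochain complex (8.2) written on `FF p`.

`P = FF / R`, `E = ⨆ P / ⟨ω_i⟩`. A locally constant function on `P` is a function on `FF p` which is
invariant under left translation by some open normal subgroup `V ≥ R`; a locally constant function
on `E` is a family `(φ_i)` of such functions with `φ_i (g ω_i) = φ_i g`.
-/

set_option autoImplicit false

open Set Filter Topology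

namespace D687

section E8

variable {p : ℕ} (D : Datum p)

/-- Locally constant functions on `P / ⟨w⟩`, as functions on `FF p`. -/
def LCs (w : FF p) : Submodule (ZMod p) (FF p → ZMod p) where
  carrier := {f | (∃ V : Subgroup (FF p), V.Normal ∧ IsOpen (V : Set (FF p)) ∧ D.R ≤ V ∧
    ∀ v ∈ V, ∀ g, f (v * g) = f g) ∧ ∀ g, f (g * w) = f g}
  add_mem' := by
    rintro a b ⟨⟨V, hVn, hVo, hVR, hV⟩, ha⟩ ⟨⟨W, hWn, hWo, hWR, hW⟩, hb⟩
    refine ⟨⟨V ⊓ W, Subgroup.normal_inf_normal V W, hVo.inter hWo, le_inf hVR hWR,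
      fun v hv g => ?_⟩, fun g => by simp only [Pi.add_apply, ha g, hb g]⟩
    simp only [Pi.add_apply, hV v hv.1 g, hW v hv.2 g]
  zero_mem' := ⟨⟨⊤, inferInstance, isOpen_univ, le_top, fun _ _ _ => rfl⟩, fun _ => rfl⟩
  smul_mem' := by
    rintro c a ⟨⟨V, hVn, hVo, hVR, hV⟩, ha⟩
    exact ⟨⟨V, hVn, hVo, hVR, fun v hv g => by simp only [Pi.smul_apply, hV v hv g]⟩,
      fun g => by simp only [Pi.smul_apply, ha g]⟩

/-- `φ = ∂ c` (8.2). -/
def IsPd (c : Fin 2 → FF p → ZMod p) (φ : Fin D.n → FF p → ZMod p) : Prop :=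
  ∃ Φ : FF p → ZMod p, Continuous Φ ∧ (∀ j g, Φ (g * gen p j) - Φ g = c j g) ∧
    ∀ i g, φ i g = Φ (g * D.r i) - Φ g

/-- `(h - 1) f`. -/
def dif (h : FF p) (f : FF p → ZMod p) : FF p → ZMod p := fun g => f (h * g) - f g

/-- `N_h f = ∑_{j < p} h^j f`. -/
def nrm (h : FF p) (f : FF p → ZMod p) : FF p → ZMod p :=
  fun g => ∑ j ∈ Finset.range p, f (h ^ j * g)

/-- `h` fixes the point `g ⟨ω_i⟩ R` of `E`. -/
def Fixes (h : FF p) (i : Fin D.n) (g : FF p) : Prop :=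
  ∃ j : ℤ, h * (g * D.ω i ^ j * g⁻¹) ∈ D.R

/-- The class `ψ` in the proof of (8.3). -/
def IsPsi (h : FF p) (ψ : Fin D.n → FF p → ZMod p) : Prop :=
  (∀ i, ψ i ∈ LCs D (D.ω i)) ∧ ∃ (f0 : FF p → ZMod p) (f1 : Fin 2 → FF p → ZMod p),
    f0 ∈ LCs D 1 ∧ (∀ g, nrm h f0 g = 1) ∧ (∀ j, f1 j ∈ LCs D 1) ∧
    (∀ j g, dif h (f1 j) g = f0 (g * gen p j) - f0 g) ∧ IsPd D f1 ψ

end E8

end D687
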