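import Pool.Agent.Lib_MP_d687bf.E8Defs
import Pool.Agent.Lib_MP_d687bf.FFBasic

/-!
MP_d687bf, section 8: compactness and free actions.
-/

set_option autoImplicit false

open Set Filter Topology

namespace D687

variable {p : ℕ} [Fact p.Prime] {D : Datum p}

/-- `R` is the intersection of the open normal subgroups which contain it; more precisely a compact
set disjoint from `R` is disjoint from such a subgroup. (For `k ∈ K` the complement of the closed set
`R` is a neighbourhood of `k`: an open normal `N_k` with `k N_k` disjoint from `R`; finitely many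
`k N_k` cover `K`; `N = ⋂ N_k`, `V = R N`: if `k' ∈ K ∩ R N`, `k' ∈ k N_k`, then
`k' = ρ n`, `ρ = k' n⁻¹ ∈ k N_k`.) -/
theorem exists_normal_disj (K : Set (FF p)) (hK : IsCompact K) (h : Disjoint K (D.R : Set (FF p))) :
    ∃ V : Subgroup (FF p), V.Normal ∧ IsOpen (V : Set (FF p)) ∧ D.R ≤ V ∧
      Disjoint K (V : Set (FF p)) := by
  classical
  have hRn : D.R.Normal := normal_R D
  have h1 : ∀ k : FF p, k ∉ D.R → ∃ N : Subgroup (FF p), N.Normal ∧ IsOpen (N : Set (FF p)) ∧
      ∀ x ∈ N, k * x ∉ D.R := by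
    intro k hk
    obtain ⟨N, hN, hNo, hNs⟩ := exists_normal_sub ((fun x : FF p => k * x) ⁻¹' (D.R : Set (FF p))ᶜ)
      ((isClosed_R D).isOpen_compl.preimage (continuous_const.mul continuous_id))
      (by simpa using hk)
    exact ⟨N, hN, hNo, fun x hx => hNs hx⟩
  choose! N hN using h1
  have hKR : ∀ k ∈ K, k ∉ D.R := fun k hk hkR => Set.disjoint_left.1 h hk hkR
  obtain ⟨t, htK, ht⟩ := hK.elim_nhds_subcover
    (fun k => (fun x : FF p => k⁻¹ * x) ⁻¹' (N k : Set (FF p))) (by
      intro k hk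
      refine ((hN k (hKR k hk)).2.1.preimage (continuous_const.mul continuous_id)).mem_nhds ?_
      simp [(N k).one_mem])
  have hNor : (⨅ k ∈ t, N k : Subgroup (FF p)).Normal :=
    Subgroup.normal_iInf_normal fun k => Subgroup.normal_iInf_normal fun hk =>
      (hN k (hKR k (htK k hk))).1
  have hNop : IsOpen ((⨅ k ∈ t, N k : Subgroup (FF p)) : Set (FF p)) := by
    have : ((⨅ k ∈ t, N k : Subgroup (FF p)) : Set (FF p)) = ⋂ k ∈ t, (N k : Set (FF p)) := by
      simp [Subgroup.coe_iInf]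
    rw [this]
    exact isOpen_biInter_finset fun k hk => (hN k (hKR k (htK k hk))).2.1
  refine ⟨D.R ⊔ ⨅ k ∈ t, N k, Subgroup.sup_normal _ _, Subgroup.isOpen_mono le_sup_right hNop,
    le_sup_left, ?_⟩
  rw [Set.disjoint_left]
  intro x hxK hx
  rw [SetLike.mem_coe, Subgroup.mem_sup_of_normal_left] at hx
  obtain ⟨ρ, hρ, n, hn, rfl⟩ := hx
  obtain ⟨k, hkt, hk⟩ := Set.mem_iUnion₂.1 (ht hxK)
  have hnk : n ∈ N k := by
    rw [Subgroup.mem_iInf] at hn
    have := hn k
    rw [Subgroup.mem_iInf] at this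
    exact this hkt
  have hk' : k⁻¹ * (ρ * n) ∈ N k := hk
  refine (hN k (hKR k (htK k hkt))).2.2 (k⁻¹ * (ρ * n) * n⁻¹)
    ((N k).mul_mem hk' ((N k).inv_mem hnk)) ?_
  have : k * (k⁻¹ * (ρ * n) * n⁻¹) = ρ := by group
  rw [this]
  exact hρ

/-- Fixed point free at infinity implies fixed point free at a finite level. Here some positive
power of `w` lies in `R`. (For each of the finitely many residues `j` the set
`{h (g w ^ j g⁻¹)}` is compact and disjoint from `R`.) -/
theorem exists_free_level (h w : FF p) (q : ℕ) (hq : 0 < q) (hw : w ^ q ∈ D.R)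
    (hf : ∀ (g : FF p) (j : ℤ), h * (g * w ^ j * g⁻¹) ∉ D.R)
    (W : Subgroup (FF p)) (hW : IsOpen (W : Set (FF p))) (hWn : W.Normal) (hWR : D.R ≤ W) :
    ∃ V : Subgroup (FF p), V.Normal ∧ IsOpen (V : Set (FF p)) ∧ D.R ≤ V ∧ V ≤ W ∧
      ∀ (g : FF p) (j : ℤ), h * (g * w ^ j * g⁻¹) ∉ V := by
  classical
  set K : Set (FF p) := ⋃ j ∈ Finset.range q, Set.range fun g : FF p => h * (g * w ^ j * g⁻¹)
    with hKdef
  have hK : IsCompact K := by
    refine Finset.isCompact_biUnion _ fun j _ => ?_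
    refine isCompact_range ?_
    exact continuous_const.mul ((continuous_id.mul continuous_const).mul continuous_inv)
  have hd : Disjoint K (D.R : Set (FF p)) := by
    rw [Set.disjoint_left]
    intro x hx hxR
    obtain ⟨j, _, g, rfl⟩ := Set.mem_iUnion₂.1 hx
    refine hf g (j : ℤ) ?_
    rw [zpow_natCast]
    exact hxR
  obtain ⟨V, hVn, hVo, hVR, hV⟩ := exists_normal_disj K hK hd
  refine ⟨V ⊓ W, Subgroup.normal_inf_normal V W, hVo.inter hW, le_inf hVR hWR, inf_le_right, ?_⟩
  intro g j hj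
  have hjV : h * (g * w ^ j * g⁻¹) ∈ V := hj.1
  set j0 : ℕ := (j % (q : ℤ)).toNat with hj0
  have hq' : (0 : ℤ) < q := by exact_mod_cast hq
  have h0 : ((j0 : ℕ) : ℤ) = j % (q : ℤ) := by
    rw [hj0, Int.toNat_of_nonneg (Int.emod_nonneg _ hq'.ne')]
  have hlt : j0 < q := by
    have := Int.emod_lt_of_pos j hq'
    omega
  have hdec : w ^ j = w ^ ((q : ℤ) * (j / (q : ℤ))) * w ^ j0 := by
    rw [← zpow_natCast w j0, h0, ← zpow_add, Int.mul_ediv_add_emod]
  have hwV : g * w ^ ((q : ℤ) * (j / (q : ℤ))) * g⁻¹ ∈ V := by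
    refine hVn.conj_mem _ ?_ g
    rw [zpow_mul, zpow_natCast]
    exact V.zpow_mem (hVR hw) _
  have hx : h * (g * w ^ j0 * g⁻¹) ∈ V := by
    have e1 : h * (g * w ^ j * g⁻¹) =
        (h * (g * w ^ ((q : ℤ) * (j / (q : ℤ))) * g⁻¹) * h⁻¹) * (h * (g * w ^ j0 * g⁻¹)) := by
      rw [hdec]
      group
    rw [e1] at hjV
    exact (V.mul_mem_cancel_left (hVn.conj_mem _ hwV h)).1 hjV
  refine Set.disjoint_left.1 hV ?_ hx
  rw [hKdef]
  exact Set.mem_iUnion₂.2 ⟨j0, Finset.mem_range.2 hlt, g, rfl⟩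

/-- A free permutation of order `p` of any set has an equivariant map to `ℤ/p` (choose a point in
every orbit). -/
theorem exists_eps_perm (X : Type) (σ : Equiv.Perm X) (hσ : σ ^ p = 1) (hf : ∀ x, σ x ≠ x) :
    ∃ ε : X → ZMod p, ∀ x, ε (σ x) = ε x + 1 := by
  classical
  have hdvd : ∀ (n : ℤ) (y : X), (σ ^ n) y = y → (p : ℤ) ∣ n := by
    intro n y hy
    by_contra hn
    have hc : IsCoprime (p : ℤ) n :=
      (Prime.coprime_iff_not_dvd (Nat.prime_iff_prime_int.1 (Fact.out : p.Prime))).2 hn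
    obtain ⟨a, b, hab⟩ := hc
    refine hf y ?_
    have h1 : (σ ^ (b * n)) y = y := by
      rw [mul_comm, zpow_mul]
      exact Equiv.Perm.zpow_apply_eq_self_of_apply_eq_self hy b
    have h2 : σ ^ (a * (p : ℤ)) = 1 := by
      rw [mul_comm, zpow_mul, zpow_natCast, hσ, one_zpow]
    have h3 : σ ^ (1 : ℤ) = σ ^ (b * n) := by
      rw [← hab, zpow_add, h2, one_mul]
    rw [← zpow_one σ, h3]
    exact h1
  let S : Setoid X := Equiv.Perm.SameCycle.setoid σ
  let r : X → X := fun x => (Quotient.mk S x).out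
  have hr : ∀ x, ∃ n : ℤ, (σ ^ n) (r x) = x := fun x => Quotient.mk_out (s := S) x
  choose m hm using hr
  refine ⟨fun x => (m x : ZMod p), fun x => ?_⟩
  have h1 : r (σ x) = r x := by
    have : Quotient.mk S (σ x) = Quotient.mk S x := by
      refine Quotient.sound (s := S) ?_
      change σ.SameCycle (σ x) x
      exact ⟨-1, by simp⟩
    change (Quotient.mk S (σ x)).out = (Quotient.mk S x).out
    rw [this]
  have h2 : (σ ^ (m (σ x) - (m x + 1))) (r x) = r x := by
    have e1 : (σ ^ m (σ x)) (r x) = (σ ^ (m x + 1)) (r x) := by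
      have a1 := hm (σ x)
      rw [h1] at a1
      rw [a1, add_comm, zpow_add, zpow_one, Equiv.Perm.mul_apply, hm x]
    have e2 : m (σ x) - (m x + 1) = -(m x + 1) + m (σ x) := by ring
    rw [e2, zpow_add, Equiv.Perm.mul_apply, e1, ← Equiv.Perm.mul_apply, ← zpow_add]
    simp
  have h3 := hdvd _ _ h2
  have h4 : ((m (σ x) - (m x + 1) : ℤ) : ZMod p) = 0 := (ZMod.intCast_zmod_eq_zero_iff_dvd _ p).2 h3
  push_cast at h4
  exact sub_eq_zero.1 h4

/-- The equivariant map for the action of `h` on `V \ FF / ⟨w⟩`, as a function on `FF p`.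
(Apply `exists_eps_perm` to the quotient of `FF p` by `g ~ v g w ^ j`; left multiplication by `h` is
a free permutation of it, of order `p` because `V` is normal and `h ^ p ∈ V`.) -/
theorem exists_eps (V : Subgroup (FF p)) (hVn : V.Normal) (h w : FF p) (hp : h ^ p ∈ V)
    (hf : ∀ (g : FF p) (j : ℤ), h * (g * w ^ j * g⁻¹) ∉ V) :
    ∃ ε : FF p → ZMod p, (∀ g, ε (h * g) = ε g + 1) ∧ (∀ v ∈ V, ∀ g, ε (v * g) = ε g) ∧
      ∀ g, ε (g * w) = ε g := by
  classical
  let S : Setoid (FF p) :=
    { r := fun g g' => ∃ v ∈ V, ∃ j : ℤ, g' = v * g * w ^ j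
      iseqv :=
        { refl := fun g => ⟨1, V.one_mem, 0, by simp⟩
          symm := by
            rintro g g' ⟨v, hv, j, rfl⟩
            exact ⟨v⁻¹, V.inv_mem hv, -j, by group⟩
          trans := by
            rintro g g' g'' ⟨v, hv, j, rfl⟩ ⟨v', hv', j', rfl⟩
            exact ⟨v' * v, V.mul_mem hv' hv, j + j', by rw [zpow_add]; group⟩ } }
  have hmap : ∀ k : FF p, ∀ g g' : FF p, S.r g g' → S.r (k * g) (k * g') := by
    rintro k g g' ⟨v, hv, j, rfl⟩
    exact ⟨k * v * k⁻¹, hVn.conj_mem v hv k, j, by group⟩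
  let σ : Equiv.Perm (Quotient S) :=
    { toFun := Quotient.map (fun g => h * g) (fun g g' => hmap h g g')
      invFun := Quotient.map (fun g => h⁻¹ * g) (fun g g' => hmap h⁻¹ g g')
      left_inv := by
        intro x
        induction x using Quotient.inductionOn with
        | h g => simp [Quotient.map_mk]
      right_inv := by
        intro x
        induction x using Quotient.inductionOn with
        | h g => simp [Quotient.map_mk] }
  have hσmk : ∀ g, σ (Quotient.mk S g) = Quotient.mk S (h * g) := fun g => rfl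
  have hσn : ∀ (n : ℕ) (g : FF p), (σ ^ n) (Quotient.mk S g) = Quotient.mk S (h ^ n * g) := by
    intro n
    induction n with
    | zero => intro g; simp
    | succ n ih =>
      intro g
      rw [pow_succ', Equiv.Perm.mul_apply, ih, hσmk, pow_succ', mul_assoc]
  have hσp : σ ^ p = 1 := by
    ext x
    induction x using Quotient.inductionOn with
    | h g =>
      rw [hσn]
      refine Quotient.sound (s := S) ?_
      exact S.iseqv.symm ⟨h ^ p, hp, 0, by simp⟩
  have hσf : ∀ x, σ x ≠ x := by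
    intro x
    induction x using Quotient.inductionOn with
    | h g =>
      intro hx
      rw [hσmk] at hx
      obtain ⟨v, hv, j, hj⟩ := S.iseqv.symm (Quotient.exact hx)
      refine hf g (-j) ?_
      have : h * (g * w ^ (-j) * g⁻¹) = v := by
        rw [← mul_assoc, ← mul_assoc, hj]
        group
      rw [this]
      exact hv
  obtain ⟨ε, hε⟩ := exists_eps_perm (Quotient S) σ hσp hσf
  refine ⟨fun g => ε (Quotient.mk S g), fun g => ?_, fun v hv g => ?_, fun g => ?_⟩
  · have := hε (Quotient.mk S g)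
    rw [hσmk] at this
    exact this
  · have : Quotient.mk S (v * g) = Quotient.mk S g :=
      Quotient.sound (s := S) (S.iseqv.symm ⟨v, hv, 0, by simp⟩)
    simp only [this]
  · have : Quotient.mk S (g * w) = Quotient.mk S g :=
      Quotient.sound (s := S) (S.iseqv.symm ⟨1, V.one_mem, 1, by simp⟩)
    simp only [this]

end D687
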