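import Pool.Agent.Lib_MP_d687bf.E8Defs
import Pool.Agent.Lib_MP_d687bf.FFBasic
import Pool.Agent.Lib_MP_d687bf.Cs
import Pool.Agent.Lib_MP_d687bf.CMap

/-!
MP_d687bf, (8.1): exactness.

Proof. `V` is admissible (`Adm.mono`). `S.good V` gives `n` with
`T ^ n T_V(k[[T]]_λ) = 0`, `λ = S.b0`. Lift `t` to `t' ∈ CV D V (scal (chr S.b0))` (`cv_lift`), so that
`X ^ n • t' = ev D α`, `α ∈ Z1 V (scal (chr S.b0))`. Take `s` with `n < p ^ s`,
`V' = {v ∈ V | p ^ s ∣ λ v}` (open, contains `R`) and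
`a = res V' (fun x => cs s (X ^ (p ^ s - 1 - n) * α x))`: additive on `V'` by `cs_tpow_mul`, and
`a (g r_i g⁻¹) = cs s (X ^ (p ^ s - 1) * t' i g) = constantCoeff (t' i g) = t i g` by `cs_top`.
-/

set_option autoImplicit false

open Set Filter Topology

namespace D687

variable {p : ℕ} [Fact p.Prime] {D : Datum p}

/-- (2.1): `C_V(k[[T]]_λ) → C_V(k)` is surjective. (A special case of the surjectivity of `C_V` on
surjective equivariant maps, section 2; use it if it is on main. Direct proof: choose representatives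
`g_l` of `V \ FF / ⟨ω_i⟩` and put `t'_i (v g_l ω_i ^ j) = tpow (λ v) * C (t_i g_l)`; well defined because
`v g_l ω_i ^ j = v' g_l ω_i ^ j'` implies `v⁻¹ v' = g_l ω_i ^ (j - j') g_l⁻¹ ∈ V`, so
`p ^ a_i ∣ j - j'` (admissible) and `v⁻¹ v' ∈ R`, `λ v = λ v'`.) -/
theorem cv_lift (V : Subgroup (FF p)) (hV : Adm D V) (l : FF p → ℤ_[p]) (hl : IsX D V l)
    (t : Fin D.n → FF p → ZMod p) (ht : t ∈ Ck D V) :
    ∃ t' ∈ CV D V (scal (chr l)), ∀ i g, PowerSeries.constantCoeff (t' i g) = t i g := by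
  refine CV_lift (φ := (PowerSeries.constantCoeff : K1 p →+* ZMod p)) ?_ hV hl.isChar_chr ?_
  · intro c
    exact ⟨PowerSeries.C c, PowerSeries.constantCoeff_C c⟩
  · rw [constantCoeff_chr, scal_one]
    exact ht

private theorem E8Ex_open (s : ℕ) :
    IsOpen {y : ℤ_[p] | (p : ℤ_[p]) ^ s ∣ y} := by
  have h1 : {y : ℤ_[p] | (p : ℤ_[p]) ^ s ∣ y} = Metric.closedBall (0 : ℤ_[p]) ((p : ℝ) ^ (-(s : ℤ))) := by
    ext y
    rw [mem_closedBall_zero_iff, PadicInt.norm_le_pow_iff_mem_span_pow, Ideal.mem_span_singleton]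
    rfl
  rw [h1]
  refine IsUltrametricDist.isOpen_closedBall _ ?_
  exact (zpow_pos (by exact_mod_cast (Fact.out : p.Prime).pos) _).ne'

/-- The subgroup `{v ∈ V | p ^ s ∣ λ v}`. -/
private def E8Ex_V {V : Subgroup (FF p)} {l : FF p → ℤ_[p]} (hl : IsX D V l) (s : ℕ) :
    Subgroup (FF p) where
  carrier := {v | v ∈ V ∧ (p : ℤ_[p]) ^ s ∣ l v}
  mul_mem' := by
    rintro a b ⟨ha, ha'⟩ ⟨hb, hb'⟩
    refine ⟨V.mul_mem ha hb, ?_⟩
    rw [hl.add a ha b hb]
    exact dvd_add ha' hb'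
  one_mem' := by
    refine ⟨V.one_mem, ?_⟩
    rw [hl.one_eq]
    exact dvd_zero _
  inv_mem' := by
    rintro a ⟨ha, ha'⟩
    refine ⟨V.inv_mem ha, ?_⟩
    rw [hl.inv_eq ha]
    exact (dvd_neg).mpr ha'

private theorem E8Ex_V_open {V : Subgroup (FF p)} (hV : IsOpen (V : Set (FF p)))
    {l : FF p → ℤ_[p]} (hl : IsX D V l) (s : ℕ) : IsOpen (E8Ex_V hl s : Set (FF p)) :=
  hl.cont.isOpen_inter_preimage hV (E8Ex_open s)

private theorem E8Ex_indicator {M : Type} [AddCommGroup M] [TopologicalSpace M]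
    {V : Subgroup (FF p)}
    (hV : IsOpen (V : Set (FF p))) {f : FF p → M} (hf : Continuous f) :
    Continuous (res V f) := by
  have hcl : IsClosed (V : Set (FF p)) := V.isClosed_of_isOpen hV
  refine continuous_iff_continuousAt.2 fun x => ?_
  by_cases hx : x ∈ (V : Set (FF p))
  · refine hf.continuousAt.congr ?_
    filter_upwards [hV.mem_nhds hx] with y hy
    exact (Set.indicator_of_mem hy f).symm
  · refine (continuousAt_const (y := (0 : M))).congr ?_
    filter_upwards [hcl.isOpen_compl.mem_nhds hx] with y hy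
    exact (Set.indicator_of_notMem hy f).symm

/-- (8.1) -/
theorem exact_E (S : Sys D) (V : Subgroup (FF p)) (hV : IsOpen (V : Set (FF p)))
    (hR : D.R ≤ V) (hle : V ≤ S.V1) (t : Fin D.n → FF p → ZMod p) (ht : t ∈ Ck D V) :
    ∃ V' : Subgroup (FF p), IsOpen (V' : Set (FF p)) ∧ D.R ≤ V' ∧ V' ≤ V ∧
      ∃ a ∈ Hk (p := p) V', ∀ i g, (a : FF p → ZMod p) (g * D.r i * g⁻¹) = t i g := by
  have hadm : Adm D V := S.adm.mono hV hR hle
  have hl : IsX D V S.b0 := S.isX.mono hle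
  obtain ⟨n, hn, -⟩ := S.good V hV hR hle
  obtain ⟨t', ht', htt⟩ := cv_lift V hadm S.b0 hl t ht
  obtain ⟨α, hα, hev⟩ := hn t' ht'
  obtain ⟨s, hs⟩ : ∃ s : ℕ, n < p ^ s := ⟨n, Nat.lt_pow_self (Fact.out : p.Prime).one_lt⟩
  have hR' : D.R ≤ E8Ex_V hl s := by
    intro x hx
    refine ⟨hR hx, ?_⟩
    rw [hl.triv x hx]
    exact dvd_zero _
  refine ⟨E8Ex_V hl s, E8Ex_V_open hV hl s, hR', fun x hx => hx.1,
    res (E8Ex_V hl s) (fun x => cs s (PowerSeries.X ^ (p ^ s - 1 - n) * α x)), ?_, ?_⟩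
  · refine ⟨?_, fun x hx => Set.indicator_of_notMem hx _, fun g hg h hh => ?_⟩
    · exact E8Ex_indicator (E8Ex_V_open hV hl s)
        ((continuous_cs s).comp (continuous_const.mul hα.cont))
    · have h1 : ∀ x ∈ E8Ex_V hl s, res (E8Ex_V hl s)
          (fun x => cs s (PowerSeries.X ^ (p ^ s - 1 - n) * α x)) x =
          cs s (PowerSeries.X ^ (p ^ s - 1 - n) * α x) := fun x hx => Set.indicator_of_mem hx _
      rw [h1 _ ((E8Ex_V hl s).mul_mem hg hh), h1 g hg]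
      change _ = _ + res (E8Ex_V hl s) (fun x => cs s (PowerSeries.X ^ (p ^ s - 1 - n) * α x)) h
      rw [h1 h hh]
      have h2 : α (g * h) = α g + tpow (S.b0 g) * α h := hα.mul g hg.1 h hh.1
      rw [h2, mul_add, cs_add]
      congr 1
      rw [mul_left_comm]
      exact cs_tpow_mul s _ hg.2 _
  · intro i g
    have h1 : res (E8Ex_V hl s) (fun x => cs s (PowerSeries.X ^ (p ^ s - 1 - n) * α x))
        (g * D.r i * g⁻¹) = cs s (PowerSeries.X ^ (p ^ s - 1 - n) * α (g * D.r i * g⁻¹)) :=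
      Set.indicator_of_mem (hR' (r_mem_R D i g)) _
    have h2 : α (g * D.r i * g⁻¹) = PowerSeries.X ^ n * t' i g := congrFun (congrFun hev i) g
    rw [h1, h2, ← mul_assoc, ← pow_add, Nat.sub_add_cancel (by omega), cs_top, htt]

end D687
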