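import Pool.Agent.Lib_MP_d687bf.E8Psi

/-!
MP_d687bf, (8.3) and (8.4): an element of order `p` of `P` fixes exactly one point of `E`.
-/

set_option autoImplicit false

open Set Filter Topology

namespace D687

variable {p : ℕ} [Fact p.Prime] {D : Datum p}

private theorem E8Fix_zpow (w : FF p) (f : FF p → ZMod p) (hw : ∀ g, f (g * w) = f g) (j : ℤ)
    (g : FF p) : f (g * w ^ j) = f g := by
  induction j using Int.induction_on generalizing g with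
  | zero => simp
  | succ i ih => rw [zpow_add_one, ← mul_assoc, hw, ih]
  | pred i ih =>
    rw [zpow_sub_one, ← mul_assoc, ← hw (g * w ^ (-(i : ℤ)) * w⁻¹), inv_mul_cancel_right, ih]

private theorem E8Fix_r (i : Fin D.n) : D.ω i ^ (p ^ D.a i) ∈ D.R := by
  have h := r_mem_R D i 1
  simpa [Datum.r] using h

/-- `h g = ρ g ω_i ^ l` with `ρ ∈ R`. -/
private theorem E8Fix_eq (h : FF p) (i : Fin D.n) (g : FF p) (hg : Fixes D h i g) :
    ∃ ρ ∈ D.R, ∃ l : ℤ, h * g = ρ * g * D.ω i ^ l := by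
  obtain ⟨j, hj⟩ := hg
  exact ⟨_, hj, -j, by group⟩

private theorem E8Fix_eq' (h : FF p) (i : Fin D.n) (g : FF p) (hg : Fixes D h i g) :
    ∃ ρ ∈ D.R, ∃ l : ℤ, h⁻¹ * g = ρ * g * D.ω i ^ l := by
  obtain ⟨ρ, hρ, l, hl⟩ := E8Fix_eq h i g hg
  refine ⟨h⁻¹ * ρ⁻¹ * h, ?_, -l, ?_⟩
  · have := (normal_R D).conj_mem ρ⁻¹ (D.R.inv_mem hρ) h⁻¹
    simpa using this
  · have h1 : g = h⁻¹ * (ρ * g * D.ω i ^ l) := by rw [← hl]; group
    have h2 : h⁻¹ * ρ⁻¹ * h * g * D.ω i ^ (-l) = h⁻¹ * ρ⁻¹ * (h * g) * D.ω i ^ (-l) := by group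
    rw [h2, hl]
    group

/-- (8.3), existence: otherwise `free_nrm` (with `w = ω_i`, `q = p ^ a_i`) makes `ψ` a norm,
against `psi_not_norm`. -/
theorem fix_exists (S : Sys D) (h : FF p) (hp : h ^ p ∈ D.R) (h1 : h ∉ D.R) :
    ∃ i g, Fixes D h i g := by
  by_contra hcon
  push Not at hcon
  obtain ⟨ψ, hψ, hinv⟩ := exists_psi h hp h1
  have hk : ∀ i, ∃ f' ∈ LCs D (D.ω i), ∀ g, ψ i g = nrm h f' g := fun i =>
    free_nrm h (D.ω i) hp (p ^ D.a i) (pow_pos (Fact.out : p.Prime).pos _) (E8Fix_r i)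
      (fun g j hj => hcon i g ⟨j, hj⟩) (ψ i) (hψ.1 i) (hinv i)
  choose φ' h2 h3 using hk
  exact psi_not_norm S h hp ψ hψ φ' h2 h3

/-- At a fixed point a norm vanishes (`N_h φ' = p φ' = 0`). -/
theorem nrm_fixed (h : FF p) (i : Fin D.n) (g : FF p) (hg : Fixes D h i g)
    (f : FF p → ZMod p) (hf : f ∈ LCs D (D.ω i)) : nrm h f g = 0 := by
  obtain ⟨ρ, hρ, l, hl⟩ := E8Fix_eq h i g hg
  obtain ⟨⟨V, hVn, hVo, hVR, hV⟩, hw⟩ := hf
  have h1 : ∀ k : ℕ, f (h ^ k * g) = f g := by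
    intro k
    induction k with
    | zero => simp
    | succ k ih =>
      have h2 : h ^ (k + 1) * g = (h ^ k * ρ * (h ^ k)⁻¹) * (h ^ k * g * D.ω i ^ l) := by
        have h3 : h ^ (k + 1) * g = h ^ k * (h * g) := by rw [pow_succ, mul_assoc]
        rw [h3, hl]
        group
      rw [h2, hV _ (hVR ((normal_R D).conj_mem ρ hρ (h ^ k))), E8Fix_zpow _ _ hw, ih]
  unfold nrm
  rw [Finset.sum_congr rfl fun k _ => h1 k, Finset.sum_const, Finset.card_range, nsmul_eq_mul,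
    CharP.cast_eq_zero, zero_mul]

/-- Separation: if `(i', g')` is another point than `(i, g)`, `h` fixes `(i, g)`, then there is an
invariant `φ ∈ C^2` with `φ_i g = 1`, `φ_i' g' = 0`: the characteristic function of
`V g ⟨ω_i⟩`, `V` an open normal subgroup `≥ R` with `g' ∉ V g ⟨ω_i⟩` (`exists_normal_disj` for the
finite set of the `g' ω_i ^ j g⁻¹`, `0 ≤ j < p ^ a_i`). -/
theorem exists_sep (h : FF p) (i i' : Fin D.n) (g g' : FF p) (hg : Fixes D h i g)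
    (hne : ¬ (i = i' ∧ ∃ l : ℤ, (g * D.ω i ^ l)⁻¹ * g' ∈ D.R)) :
    ∃ φ : Fin D.n → FF p → ZMod p, (∀ m, φ m ∈ LCs D (D.ω m)) ∧
      (∀ m x, φ m (h * x) = φ m x) ∧ φ i g = 1 ∧ φ i' g' = 0 := by
  classical
  have hq : 0 < p ^ D.a i := pow_pos (Fact.out : p.Prime).pos _
  -- the subgroup
  obtain ⟨V, hVn, hVo, hVR, hVd⟩ : ∃ V : Subgroup (FF p), V.Normal ∧ IsOpen (V : Set (FF p)) ∧
      D.R ≤ V ∧ (i = i' → ∀ l : ℤ, g' * (g * D.ω i ^ l)⁻¹ ∉ V) := by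
    by_cases hii : i = i'
    · set K : Set (FF p) := (fun l : ℕ => g' * (g * D.ω i ^ l)⁻¹) '' (Set.Iio (p ^ D.a i))
        with hK
      have hKf : K.Finite := (Set.finite_Iio _).image _
      have hdis : Disjoint K (D.R : Set (FF p)) := by
        rw [Set.disjoint_left]
        rintro _ ⟨l, -, rfl⟩ hR
        apply hne
        refine ⟨hii, (l : ℤ), ?_⟩
        have h2 := (normal_R D).conj_mem _ hR (g * D.ω i ^ l)⁻¹
        have h3 : (g * D.ω i ^ l)⁻¹ * (g' * (g * D.ω i ^ l)⁻¹) * ((g * D.ω i ^ l)⁻¹)⁻¹ =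
            (g * D.ω i ^ l)⁻¹ * g' := by group
        simp only at h2
        rw [h3] at h2
        rw [zpow_natCast]
        exact h2
      obtain ⟨V, h1, h2, h3, h4⟩ := exists_normal_disj K hKf.isCompact hdis
      refine ⟨V, h1, h2, h3, fun _ l hl => ?_⟩
      have h5 : (p ^ D.a i : ℕ) ≠ 0 := hq.ne'
      have h6 : ((p ^ D.a i : ℕ) : ℤ) ≠ 0 := by exact_mod_cast h5
      set m : ℕ := (l % ((p ^ D.a i : ℕ) : ℤ)).toNat with hm
      have hm0 : ((m : ℕ) : ℤ) = l % ((p ^ D.a i : ℕ) : ℤ) :=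
        Int.toNat_of_nonneg (Int.emod_nonneg _ h6)
      have hm1 : m < p ^ D.a i := by
        have h7 := Int.emod_lt_of_pos l (by exact_mod_cast hq : (0 : ℤ) < ((p ^ D.a i : ℕ) : ℤ))
        rw [← hm0] at h7
        exact_mod_cast h7
      have hm2 : l = ((p ^ D.a i : ℕ) : ℤ) * (l / ((p ^ D.a i : ℕ) : ℤ)) + (m : ℤ) := by
        rw [hm0]
        exact (Int.mul_ediv_add_emod _ _).symm
      have h8 : g' * (g * D.ω i ^ m)⁻¹ ∈ V := by
        have h9 : D.ω i ^ l = (D.ω i ^ (p ^ D.a i)) ^ (l / ((p ^ D.a i : ℕ) : ℤ)) *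
            D.ω i ^ m := by
          conv_lhs => rw [hm2]
          rw [zpow_add, zpow_mul, zpow_natCast, zpow_natCast]
        have h10 : (D.ω i ^ (p ^ D.a i)) ^ (l / ((p ^ D.a i : ℕ) : ℤ)) ∈ D.R :=
          D.R.zpow_mem (E8Fix_r i) _
        set ρ : FF p := (D.ω i ^ (p ^ D.a i)) ^ (l / ((p ^ D.a i : ℕ) : ℤ)) with hρ
        have h11 : g' * (g * D.ω i ^ m)⁻¹ = g' * (g * D.ω i ^ l)⁻¹ * (g * ρ * g⁻¹) := by
          rw [h9]
          group
        rw [h11]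
        exact V.mul_mem hl (h3 ((normal_R D).conj_mem ρ h10 g))
      exact (Set.disjoint_left.1 h4) ⟨m, hm1, rfl⟩ h8
    · exact ⟨⊤, inferInstance, isOpen_univ, le_top, fun h2 => absurd h2 hii⟩
  -- the function
  set S : Set (FF p) := {x | ∃ v ∈ V, ∃ l : ℤ, x = v * g * D.ω i ^ l} with hS
  have hSl : ∀ v ∈ V, ∀ x, x ∈ S → v * x ∈ S := by
    rintro v hv _ ⟨u, hu, l, rfl⟩
    exact ⟨v * u, V.mul_mem hv hu, l, by group⟩
  have hSl' : ∀ v ∈ V, ∀ x, v * x ∈ S ↔ x ∈ S := by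
    intro v hv x
    refine ⟨fun h2 => ?_, hSl v hv x⟩
    have h3 := hSl v⁻¹ (V.inv_mem hv) _ h2
    rwa [inv_mul_cancel_left] at h3
  have hSr : ∀ x, x * D.ω i ∈ S ↔ x ∈ S := by
    intro x
    constructor
    · rintro ⟨u, hu, l, hl⟩
      refine ⟨u, hu, l - 1, ?_⟩
      rw [zpow_sub_one, ← mul_assoc, ← hl, mul_inv_cancel_right]
    · rintro ⟨u, hu, l, rfl⟩
      refine ⟨u, hu, l + 1, ?_⟩
      rw [zpow_add_one, ← mul_assoc]
  have hSh : ∀ x, h * x ∈ S ↔ x ∈ S := by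
    intro x
    constructor
    · rintro ⟨u, hu, l, hl⟩
      obtain ⟨ρ, hρ, l', hl'⟩ := E8Fix_eq' h i g hg
      refine ⟨h⁻¹ * u * h * ρ, ?_, l' + l, ?_⟩
      · have h2 := hVn.conj_mem u hu h⁻¹
        rw [inv_inv] at h2
        exact V.mul_mem h2 (hVR hρ)
      · have h3 : x = h⁻¹ * (u * g * D.ω i ^ l) := by rw [← hl]; group
        have h4 : h⁻¹ * (u * g * D.ω i ^ l) = h⁻¹ * u * h * (h⁻¹ * g) * D.ω i ^ l := by group
        rw [h3, h4, hl', zpow_add]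
        group
    · rintro ⟨u, hu, l, rfl⟩
      obtain ⟨ρ, hρ, l', hl'⟩ := E8Fix_eq h i g hg
      refine ⟨h * u * h⁻¹ * ρ, V.mul_mem (hVn.conj_mem u hu h) (hVR hρ), l' + l, ?_⟩
      have h4 : h * (u * g * D.ω i ^ l) = h * u * h⁻¹ * (h * g) * D.ω i ^ l := by group
      rw [h4, hl', zpow_add]
      group
  refine ⟨fun m x => if m = i ∧ x ∈ S then 1 else 0, fun m => ?_, fun m x => ?_, ?_, ?_⟩
  · by_cases hm : m = i
    · subst hm
      refine ⟨⟨V, hVn, hVo, hVR, fun v hv x => ?_⟩, fun x => ?_⟩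
      · simp only [hSl' v hv x]
      · simp only [hSr x]
    · have h2 : (fun x : FF p => if m = i ∧ x ∈ S then (1 : ZMod p) else 0) = 0 := by
        funext x
        simp [hm]
      have h3 : (fun x : FF p => if m = i ∧ x ∈ S then (1 : ZMod p) else 0) ∈ LCs D (D.ω m) := by
        rw [h2]
        exact (LCs D (D.ω m)).zero_mem
      exact h3
  · simp only [hSh x]
  · have h2 : g ∈ S := ⟨1, V.one_mem, 0, by simp⟩
    simp [h2]
  · have h2 : ¬ (i' = i ∧ g' ∈ S) := by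
      rintro ⟨h3, u, hu, l, hl⟩
      apply hVd h3.symm l
      have h4 : g' * (g * D.ω i ^ l)⁻¹ = u := by
        rw [hl]
        group
      rw [h4]
      exact hu
    exact if_neg h2

/-- (8.3), uniqueness: for every invariant `φ` the values at fixed points are `c ψ` (`psi_repr`,
`nrm_fixed`); `φ = 1` shows `ψ_i g = ψ_i' g' ≠ 0`; compare with `exists_sep`. -/
theorem fix_unique (S : Sys D) (h : FF p) (hp : h ^ p ∈ D.R) (h1 : h ∉ D.R) (i i' : Fin D.n)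
    (g g' : FF p) (hg : Fixes D h i g) (hg' : Fixes D h i' g') :
    i = i' ∧ ∃ l : ℤ, (g * D.ω i ^ l)⁻¹ * g' ∈ D.R := by
  by_contra hne
  obtain ⟨φ, hφ, hφi, hφ1, hφ0⟩ := exists_sep h i i' g g' hg hne
  obtain ⟨ψ, hψ, hinv⟩ := exists_psi h hp h1
  obtain ⟨c, φ', hφ', hc⟩ := psi_repr S h hp h1 ψ hψ φ hφ hφi
  obtain ⟨c1, φ1, hφ1', hc1⟩ := psi_repr S h hp h1 ψ hψ (fun _ _ => 1)
    (fun m => ⟨⟨⊤, inferInstance, isOpen_univ, le_top, fun _ _ _ => rfl⟩, fun _ => rfl⟩)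
    (fun _ _ => rfl)
  have e1 := hc i g
  have e2 := hc i' g'
  have e3 := hc1 i g
  have e4 := hc1 i' g'
  rw [nrm_fixed h i g hg _ (hφ' i), add_zero] at e1
  rw [nrm_fixed h i' g' hg' _ (hφ' i'), add_zero] at e2
  rw [nrm_fixed h i g hg _ (hφ1' i), add_zero] at e3
  rw [nrm_fixed h i' g' hg' _ (hφ1' i'), add_zero] at e4
  have hc10 : c1 ≠ 0 := by
    rintro rfl
    rw [zero_mul] at e3
    exact one_ne_zero e3
  have e5 : ψ i g = ψ i' g' := mul_left_cancel₀ hc10 (e3.symm.trans e4)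
  rw [hφ1] at e1
  rw [hφ0, ← e5, ← e1] at e2
  exact zero_ne_one e2

/-- (8.4): `v` maps the fixed point `(i, g)` of `h` to the fixed point `(i, v g)`, so
`v ∈ g ⟨ω_i⟩ g⁻¹ R`, `v ^ (p ^ a_i) ∈ R`. -/
theorem centralizer_finite (S : Sys D) (h : FF p) (hp : h ^ p ∈ D.R) (h1 : h ∉ D.R) (v : FF p)
    (hv : v * h * v⁻¹ * h⁻¹ ∈ D.R) : ∃ n : ℕ, v ^ (p ^ n) ∈ D.R := by
  obtain ⟨i, g, j, hj⟩ := fix_exists S h hp h1
  have hn : D.R.Normal := normal_R D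
  have h2 : Fixes D h i (v * g) := by
    refine ⟨j, ?_⟩
    have h3 := hn.conj_mem _ hj v
    have h4 : h * (v * g * D.ω i ^ j * (v * g)⁻¹) =
        (v * h * v⁻¹ * h⁻¹)⁻¹ * (v * (h * (g * D.ω i ^ j * g⁻¹)) * v⁻¹) := by group
    rw [h4]
    exact D.R.mul_mem (D.R.inv_mem hv) h3
  obtain ⟨-, l, hl⟩ := fix_unique S h hp h1 i i g (v * g) ⟨j, hj⟩ h2
  refine ⟨D.a i, ?_⟩
  have h5 : (QuotientGroup.mk v : FF p ⧸ D.R) = QuotientGroup.mk (g * D.ω i ^ l * g⁻¹) := by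
    rw [QuotientGroup.eq]
    have h6 := hn.conj_mem _ (D.R.inv_mem hl) g
    have h7 : v⁻¹ * (g * D.ω i ^ l * g⁻¹) = g * ((g * D.ω i ^ l)⁻¹ * (v * g))⁻¹ * g⁻¹ := by
      group
    rw [h7]
    exact h6
  rw [← QuotientGroup.eq_one_iff, QuotientGroup.mk_pow, h5, ← QuotientGroup.mk_pow,
    QuotientGroup.eq_one_iff]
  have h8 : (g * D.ω i ^ l * g⁻¹) ^ (p ^ D.a i) = g * (D.ω i ^ (p ^ D.a i)) ^ l * g⁻¹ := by
    rw [conj_pow]
    congr 2
    rw [← zpow_natCast, ← zpow_mul, mul_comm, zpow_mul, zpow_natCast]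
  rw [h8]
  exact hn.conj_mem _ (D.R.zpow_mem (E8Fix_r i) l) g

end D687
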