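import Pool.Agent.Lib_MP_d687bf.E8Eps

/-!
MP_d687bf, section 8: for a free action of `⟨h⟩`, `ker (h - 1) = im N_h` and
`ker N_h = im (h - 1)` on locally constant functions.

Proof. Choose `V` normal open `≥ R` under which `f` is invariant and which acts freely
(`exists_free_level`) and `ε` from `exists_eps`.
`free_nrm`: `f' = f` where `ε = 0`, `f' = 0` elsewhere.
`free_dif`: with `e = (ε g).val`, `f' g = ∑_{j < e} f (h ^ j * (h ^ e)⁻¹ * g)`.
-/

set_option autoImplicit false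

open Set Filter Topology

namespace D687

variable {p : ℕ} [Fact p.Prime] {D : Datum p}

private theorem E8Free_inv_pow (h : FF p) (f : FF p → ZMod p) (hinv : ∀ g, f (h * g) = f g)
    (j : ℕ) (g : FF p) : f (h ^ j * g) = f g := by
  induction j with
  | zero => rw [pow_zero, one_mul]
  | succ j ih => rw [pow_succ', mul_assoc, hinv, ih]

private theorem E8Free_eps_pow (h : FF p) (ε : FF p → ZMod p) (he : ∀ g, ε (h * g) = ε g + 1)
    (j : ℕ) (g : FF p) : ε (h ^ j * g) = ε g + (j : ZMod p) := by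
  induction j with
  | zero => rw [pow_zero, one_mul, Nat.cast_zero, add_zero]
  | succ j ih => rw [pow_succ', mul_assoc, he, ih, Nat.cast_succ, add_assoc]

/-- Left translation invariance passes through a fixed left factor. -/
private theorem E8Free_conj (V : Subgroup (FF p)) (hVn : V.Normal) (f : FF p → ZMod p)
    (hV : ∀ v ∈ V, ∀ g, f (v * g) = f g) (x v g : FF p) (hv : v ∈ V) :
    f (x * (v * g)) = f (x * g) := by
  have h1 : x * (v * g) = (x * v * x⁻¹) * (x * g) := by group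
  rw [h1, hV _ (hVn.conj_mem v hv x)]

/-- `h - 1` and `N_h`: the telescoping sum. -/
private theorem E8Free_tele (h : FF p) (f : FF p → ZMod p) (hf : ∀ g, f (h ^ p * g) = f g)
    (g : FF p) : ∑ j ∈ Finset.range p, (f (h ^ (j + 1) * g) - f (h ^ j * g)) = 0 := by
  rw [Finset.sum_range_sub (fun j => f (h ^ j * g)), hf, pow_zero, one_mul, sub_self]

theorem free_nrm (h w : FF p) (hp : h ^ p ∈ D.R) (q : ℕ) (hq : 0 < q) (hw : w ^ q ∈ D.R)
    (hf : ∀ (g : FF p) (j : ℤ), h * (g * w ^ j * g⁻¹) ∉ D.R)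
    (f : FF p → ZMod p) (hfl : f ∈ LCs D w) (hinv : ∀ g, f (h * g) = f g) :
    ∃ f' ∈ LCs D w, ∀ g, f g = nrm h f' g := by
  classical
  obtain ⟨⟨W, hWn, hWo, hWR, hW⟩, hfw⟩ := hfl
  obtain ⟨V, hVn, hVo, hVR, hVW, hVf⟩ := exists_free_level h w q hq hw hf W hWo hWn hWR
  obtain ⟨ε, hε1, hε2, hε3⟩ := exists_eps V hVn h w (hVR hp) hVf
  refine ⟨fun g => if ε g = 0 then f g else 0, ⟨⟨V, hVn, hVo, hVR, ?_⟩, ?_⟩, ?_⟩
  · intro v hv g
    show (if ε (v * g) = 0 then f (v * g) else 0) = if ε g = 0 then f g else 0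
    rw [hε2 v hv g, hW v (hVW hv) g]
  · intro g
    show (if ε (g * w) = 0 then f (g * w) else 0) = if ε g = 0 then f g else 0
    rw [hε3 g, hfw g]
  · intro g
    show f g = ∑ j ∈ Finset.range p, (if ε (h ^ j * g) = 0 then f (h ^ j * g) else 0)
    have hterm : ∀ j ∈ Finset.range p, (if ε (h ^ j * g) = 0 then f (h ^ j * g) else 0) =
        if ε g + (j : ZMod p) = 0 then f g else 0 := by
      intro j _
      rw [E8Free_eps_pow h ε hε1 j g, E8Free_inv_pow h f hinv j g]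
    rw [Finset.sum_congr rfl hterm]
    have hne : NeZero p := ⟨(Fact.out : p.Prime).ne_zero⟩
    rw [Finset.sum_eq_single (-ε g).val]
    · rw [if_pos]
      rw [ZMod.natCast_val, ZMod.cast_id', id_eq, add_neg_cancel]
    · intro j hj hne'
      rw [if_neg]
      intro h0
      apply hne'
      have h1 : (j : ZMod p) = -ε g := by
        rw [eq_neg_iff_add_eq_zero, add_comm]; exact h0
      rw [← h1, ZMod.val_natCast, Nat.mod_eq_of_lt (Finset.mem_range.1 hj)]
    · intro hnot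
      exact absurd (Finset.mem_range.2 (ZMod.val_lt _)) hnot

theorem free_dif (h w : FF p) (hp : h ^ p ∈ D.R) (q : ℕ) (hq : 0 < q) (hw : w ^ q ∈ D.R)
    (hf : ∀ (g : FF p) (j : ℤ), h * (g * w ^ j * g⁻¹) ∉ D.R)
    (f : FF p → ZMod p) (hfl : f ∈ LCs D w) (hn : ∀ g, nrm h f g = 0) :
    ∃ f' ∈ LCs D w, ∀ g, f g = dif h f' g := by
  classical
  obtain ⟨⟨W, hWn, hWo, hWR, hW⟩, hfw⟩ := hfl
  obtain ⟨V, hVn, hVo, hVR, hVW, hVf⟩ := exists_free_level h w q hq hw hf W hWo hWn hWR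
  obtain ⟨ε, hε1, hε2, hε3⟩ := exists_eps V hVn h w (hVR hp) hVf
  have hne : NeZero p := ⟨(Fact.out : p.Prime).ne_zero⟩
  have hV : ∀ v ∈ V, ∀ g, f (v * g) = f g := fun v hv g => hW v (hVW hv) g
  refine ⟨fun g => ∑ j ∈ Finset.range (ε g).val, f (h ^ j * (h ^ (ε g).val)⁻¹ * g),
    ⟨⟨V, hVn, hVo, hVR, ?_⟩, ?_⟩, ?_⟩
  · intro v hv g
    show ∑ j ∈ Finset.range (ε (v * g)).val, f (h ^ j * (h ^ (ε (v * g)).val)⁻¹ * (v * g)) =
      ∑ j ∈ Finset.range (ε g).val, f (h ^ j * (h ^ (ε g).val)⁻¹ * g)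
    rw [hε2 v hv g]
    exact Finset.sum_congr rfl fun j _ => E8Free_conj V hVn f hV _ v g hv
  · intro g
    show ∑ j ∈ Finset.range (ε (g * w)).val, f (h ^ j * (h ^ (ε (g * w)).val)⁻¹ * (g * w)) =
      ∑ j ∈ Finset.range (ε g).val, f (h ^ j * (h ^ (ε g).val)⁻¹ * g)
    rw [hε3 g]
    refine Finset.sum_congr rfl fun j _ => ?_
    rw [← mul_assoc, hfw]
  · intro g
    show f g = ∑ j ∈ Finset.range (ε (h * g)).val, f (h ^ j * (h ^ (ε (h * g)).val)⁻¹ * (h * g)) -
      ∑ j ∈ Finset.range (ε g).val, f (h ^ j * (h ^ (ε g).val)⁻¹ * g)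
    rw [hε1 g]
    have hlt := ZMod.val_lt (ε g)
    by_cases hc : (ε g).val + 1 < p
    · have hval : (ε g + 1).val = (ε g).val + 1 := by
        have h1 : ε g + 1 = (((ε g).val + 1 : ℕ) : ZMod p) := by
          rw [Nat.cast_add, ZMod.natCast_val, ZMod.cast_id', id_eq, Nat.cast_one]
        rw [h1, ZMod.val_natCast, Nat.mod_eq_of_lt hc]
      rw [hval, Finset.sum_range_succ]
      have hterm : ∀ j, h ^ j * (h ^ ((ε g).val + 1))⁻¹ * (h * g) =
          h ^ j * (h ^ (ε g).val)⁻¹ * g := by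
        intro j
        rw [pow_succ', mul_inv_rev]
        group
      have h2 : ∑ j ∈ Finset.range (ε g).val, f (h ^ j * (h ^ ((ε g).val + 1))⁻¹ * (h * g)) =
          ∑ j ∈ Finset.range (ε g).val, f (h ^ j * (h ^ (ε g).val)⁻¹ * g) :=
        Finset.sum_congr rfl fun j _ => by rw [hterm j]
      rw [h2, hterm, mul_inv_cancel, one_mul]
      ring
    · have hp1 : (ε g).val + 1 = p := by omega
      have hval : (ε g + 1).val = 0 := by
        have h1 : ε g + 1 = (((ε g).val + 1 : ℕ) : ZMod p) := by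
          rw [Nat.cast_add, ZMod.natCast_val, ZMod.cast_id', id_eq, Nat.cast_one]
        rw [h1, hp1, ZMod.natCast_self, ZMod.val_zero]
      rw [hval, Finset.range_zero, Finset.sum_empty, zero_sub]
      have h3 := hn ((h ^ (ε g).val)⁻¹ * g)
      have h4 : nrm h f ((h ^ (ε g).val)⁻¹ * g) =
          ∑ j ∈ Finset.range ((ε g).val + 1), f (h ^ j * ((h ^ (ε g).val)⁻¹ * g)) := by
        rw [hp1]
        rfl
      rw [h4, Finset.sum_range_succ] at h3
      have h5 : h ^ (ε g).val * ((h ^ (ε g).val)⁻¹ * g) = g := by group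
      rw [h5] at h3
      have h6 : ∑ j ∈ Finset.range (ε g).val, f (h ^ j * (h ^ (ε g).val)⁻¹ * g) =
          ∑ j ∈ Finset.range (ε g).val, f (h ^ j * ((h ^ (ε g).val)⁻¹ * g)) :=
        Finset.sum_congr rfl fun j _ => by rw [mul_assoc]
      rw [h6]
      exact eq_neg_of_add_eq_zero_right h3

/-- The case `w = 1`: `h` acts freely on `P` if `h ∉ R`. -/
theorem free_nrm_one (h : FF p) (hp : h ^ p ∈ D.R) (h1 : h ∉ D.R)
    (f : FF p → ZMod p) (hfl : f ∈ LCs D 1) (hinv : ∀ g, f (h * g) = f g) :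
    ∃ f' ∈ LCs D 1, ∀ g, f g = nrm h f' g := by
  refine free_nrm h 1 hp 1 one_pos (by simp) (fun g j hj => h1 ?_) f hfl hinv
  simpa using hj

theorem free_dif_one (h : FF p) (hp : h ^ p ∈ D.R) (h1 : h ∉ D.R)
    (f : FF p → ZMod p) (hfl : f ∈ LCs D 1) (hn : ∀ g, nrm h f g = 0) :
    ∃ f' ∈ LCs D 1, ∀ g, f g = dif h f' g := by
  refine free_dif h 1 hp 1 one_pos (by simp) (fun g j hj => h1 ?_) f hfl hn
  simpa using hj

/-- `h - 1` and `N_h` compose to zero (`h ^ p ∈ R`). -/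
theorem nrm_dif (h : FF p) (hp : h ^ p ∈ D.R) (w : FF p) (f : FF p → ZMod p) (hfl : f ∈ LCs D w)
    (g : FF p) : nrm h (dif h f) g = 0 := by
  obtain ⟨⟨V, hVn, hVo, hVR, hV⟩, -⟩ := hfl
  have h1 := E8Free_tele h f (fun x => hV _ (hVR hp) x) g
  rw [← h1]
  refine Finset.sum_congr rfl fun j _ => ?_
  show f (h * (h ^ j * g)) - f (h ^ j * g) = _
  rw [← mul_assoc, ← pow_succ']

theorem dif_nrm (h : FF p) (hp : h ^ p ∈ D.R) (w : FF p) (f : FF p → ZMod p) (hfl : f ∈ LCs D w)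
    (g : FF p) : dif h (nrm h f) g = 0 := by
  obtain ⟨⟨V, hVn, hVo, hVR, hV⟩, -⟩ := hfl
  have h1 := E8Free_tele h f (fun x => hV _ (hVR hp) x) g
  rw [← h1, Finset.sum_sub_distrib]
  show ∑ j ∈ Finset.range p, f (h ^ j * (h * g)) - ∑ j ∈ Finset.range p, f (h ^ j * g) = _
  congr 1
  refine Finset.sum_congr rfl fun j _ => ?_
  rw [← mul_assoc, ← pow_succ]

/-- Left translates of locally constant functions. -/
theorem LCs_left (h w : FF p) (f : FF p → ZMod p) (hfl : f ∈ LCs D w) :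
    (fun g => f (h * g)) ∈ LCs D w := by
  obtain ⟨⟨V, hVn, hVo, hVR, hV⟩, hw⟩ := hfl
  refine ⟨⟨V, hVn, hVo, hVR, fun v hv g => E8Free_conj V hVn f hV h v g hv⟩, fun g => ?_⟩
  show f (h * (g * w)) = f (h * g)
  rw [← mul_assoc, hw]

theorem LCs_dif (h w : FF p) (f : FF p → ZMod p) (hfl : f ∈ LCs D w) : dif h f ∈ LCs D w := by
  have h1 : dif h f = (fun g => f (h * g)) - f := rfl
  rw [h1]
  exact (LCs D w).sub_mem (LCs_left h w f hfl) hfl

theorem LCs_nrm (h w : FF p) (f : FF p → ZMod p) (hfl : f ∈ LCs D w) : nrm h f ∈ LCs D w := by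
  have h1 : nrm h f = ∑ j ∈ Finset.range p, (fun g => f (h ^ j * g)) := by
    funext g
    rw [Finset.sum_apply]
    rfl
  rw [h1]
  exact (LCs D w).sum_mem fun j _ => LCs_left (h ^ j) w f hfl

end D687
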