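import Pool.Agent.Lib_MP_d687bf.Universal
import Pool.Agent.Lib_MP_d687bf.Rings

/-!
MP_d687bf, A8: cochains on `FF p` (used in (8.2)).

For the existence: `M := Map(V\FF p, k)` is a finite module (a `k`-vector space with
`(g φ)(x) = φ (x g)`), the crossed hom `A` with `A (gen j) = c_j` exists (universal property of the
free group `F` for the finite `p`-group `M ⋊ (FF p / core V)`, extended to `FF p`), `Φ g := (A g)(1)`.
-/

set_option autoImplicit false

open Set Filter Topology

namespace D687

variable {p : ℕ} [Fact p.Prime]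

/-- The action of `FF p` on all functions, `(g φ)(x) = φ (x g)`. -/
private noncomputable def Prim_act (p : ℕ) [Fact p.Prime] :
    FF p →* MulAut (Multiplicative (FF p → ZMod p)) where
  toFun g := AddEquiv.toMultiplicative
    { toFun := fun f x => f (x * g)
      invFun := fun f x => f (x * g⁻¹)
      left_inv := fun f => by funext x; simp
      right_inv := fun f => by funext x; simp
      map_add' := fun f f' => rfl }
  map_one' := by
    ext f : 1
    apply Multiplicative.toAdd.injective
    funext x
    change (Multiplicative.toAdd f) (x * 1) = _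
    rw [mul_one]
    rfl
  map_mul' g h := by
    ext f : 1
    apply Multiplicative.toAdd.injective
    funext x
    change (Multiplicative.toAdd f) (x * (g * h)) = (Multiplicative.toAdd f) (x * g * h)
    rw [mul_assoc]

private noncomputable def Prim_hom (c : Fin 2 → FF p → ZMod p) :
    Fr →* SemidirectProduct (Multiplicative (FF p → ZMod p)) (FF p) (Prim_act p) :=
  FreeGroup.lift fun j => ⟨Multiplicative.ofAdd (c j), gen p j⟩

private noncomputable def Prim_A (c : Fin 2 → FF p → ZMod p) (w : Fr) : FF p → ZMod p :=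
  Multiplicative.toAdd (Prim_hom c w).left

private theorem Prim_right (c : Fin 2 → FF p → ZMod p) (w : Fr) :
    (Prim_hom c w).right = io p w := by
  have h : (SemidirectProduct.rightHom).comp (Prim_hom c) = io p := by
    apply FreeGroup.ext_hom
    intro j
    simp [Prim_hom, gen]
  exact DFunLike.congr_fun h w

private theorem Prim_A_one (c : Fin 2 → FF p → ZMod p) (x : FF p) : Prim_A c 1 x = 0 := by
  simp [Prim_A]

private theorem Prim_A_of (c : Fin 2 → FF p → ZMod p) (j : Fin 2) :
    Prim_A c (FreeGroup.of j) = c j := by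
  simp [Prim_A, Prim_hom]

private theorem Prim_A_mul (c : Fin 2 → FF p → ZMod p) (w w' : Fr) (x : FF p) :
    Prim_A c (w * w') x = Prim_A c w x + Prim_A c w' (x * io p w) := by
  unfold Prim_A
  rw [map_mul, SemidirectProduct.mul_left, Prim_right]
  rfl

private theorem Prim_A_inv (c : Fin 2 → FF p → ZMod p) (w : Fr) (x : FF p) :
    Prim_A c w⁻¹ x = - Prim_A c w (x * (io p w)⁻¹) := by
  have h := Prim_A_mul c w⁻¹ w x
  rw [inv_mul_cancel, Prim_A_one, map_inv] at h
  exact eq_neg_of_add_eq_zero_left h.symm

private theorem Prim_A_left (V : Subgroup (FF p)) (c : Fin 2 → FF p → ZMod p)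
    (hc : ∀ j, ∀ v ∈ V, ∀ g, c j (v * g) = c j g) (w : Fr) :
    ∀ v ∈ V, ∀ x, Prim_A c w (v * x) = Prim_A c w x := by
  induction w using FreeGroup.induction_on with
  | C1 => intro v _ x; rw [Prim_A_one, Prim_A_one]
  | of j => intro v hv x; rw [Prim_A_of]; exact hc j v hv x
  | inv_of j ih =>
    intro v hv x
    rw [Prim_A_inv, Prim_A_inv, mul_assoc, ih v hv]
  | mul a b iha ihb =>
    intro v hv x
    rw [Prim_A_mul, Prim_A_mul, iha v hv, mul_assoc, ihb v hv]

/-- A continuous function with zero differences is constant (density of `F`). -/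
theorem primitive_unique (Φ : FF p → ZMod p) (hΦ : Continuous Φ)
    (h : ∀ j g, Φ (g * gen p j) = Φ g) : ∀ g, Φ g = Φ 1 := by
  have key : ∀ w : Fr, ∀ g, Φ (g * io p w) = Φ g := by
    intro w
    induction w using FreeGroup.induction_on with
    | C1 => intro g; rw [map_one, mul_one]
    | of j => intro g; exact h j g
    | inv_of j ih =>
      intro g
      have := ih (g * io p (FreeGroup.of j)⁻¹)
      rw [mul_assoc, ← map_mul, inv_mul_cancel, map_one, mul_one] at this
      exact this.symm
    | mul a b iha ihb =>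
      intro g
      rw [map_mul, ← mul_assoc, ihb, iha]
  have := (denseRange_io (p := p)).equalizer hΦ (continuous_const (y := Φ 1)) (by
    funext w
    have := key w 1
    rw [one_mul] at this
    exact this)
  intro g
  exact congrFun this g

theorem exists_primitive (V : Subgroup (FF p)) (hV : IsOpen (V : Set (FF p)))
    (c : Fin 2 → FF p → ZMod p) (hc : ∀ j, ∀ v ∈ V, ∀ g, c j (v * g) = c j g) :
    ∃ Φ : FF p → ZMod p, Continuous Φ ∧ (∀ j g, Φ (g * gen p j) - Φ g = c j g) ∧
      ∃ a ∈ Hk (p := p) V, ∀ v ∈ V, ∀ g, Φ (v * g) = (a : FF p → ZMod p) v + Φ g := by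
  classical
  set C := V.normalCore with hCdef
  have hCo : IsOpen (C : Set (FF p)) := isOpen_core V hV
  have hCV : C ≤ V := V.normalCore_le
  have hinv := Prim_A_left V c hc
  -- right multiplication by the core
  have hright : ∀ w : Fr, ∀ x, ∀ y ∈ C, Prim_A c w (x * y) = Prim_A c w x := by
    intro w x y hy
    have h1 : x * y * x⁻¹ ∈ C := V.normalCore_normal.conj_mem y hy x
    have h2 : x * y = (x * y * x⁻¹) * x := by group
    rw [h2, hinv w _ (hCV h1)]
  obtain ⟨n, hn⟩ := index_open C hCo
  -- the kernel
  let K : Subgroup Fr :=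
    { carrier := {w | io p w ∈ C ∧ Prim_A c w = 0}
      one_mem' := ⟨by rw [map_one]; exact C.one_mem, by funext x; exact Prim_A_one c x⟩
      mul_mem' := by
        rintro a b ⟨ha, ha'⟩ ⟨hb, hb'⟩
        refine ⟨by rw [map_mul]; exact C.mul_mem ha hb, ?_⟩
        funext x
        rw [Prim_A_mul, ha', hb']; simp
      inv_mem' := by
        rintro a ⟨ha, ha'⟩
        refine ⟨by rw [map_inv]; exact C.inv_mem ha, ?_⟩
        funext x
        rw [Prim_A_inv, ha']; simp }
  have hKmem : ∀ w, w ∈ K ↔ (io p w ∈ C ∧ Prim_A c w = 0) := fun w => Iff.rfl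
  have hKn : K.Normal := by
    constructor
    rintro w ⟨hw, hw'⟩ g
    refine ⟨?_, ?_⟩
    · rw [map_mul, map_mul, map_inv]
      exact V.normalCore_normal.conj_mem _ hw _
    · funext x
      rw [Prim_A_mul, Prim_A_mul, Prim_A_inv, hw', map_mul]
      have h1 : x * (io p g * io p w) * (io p g)⁻¹ = x * (io p g * io p w * (io p g)⁻¹) := by group
      rw [h1, hright g x _ (V.normalCore_normal.conj_mem _ hw _)]
      simp
  have hpow : ∀ w : Fr, w ^ p ^ (n + 1) ∈ K := by
    intro w
    have h0 : io p (w ^ p ^ n) ∈ C := by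
      rw [map_pow, ← hn]
      have := V.normalCore_normal
      exact Subgroup.pow_index_mem C _
    have h1 : ∀ u : Fr, io p u ∈ C → ∀ m : ℕ, ∀ x, Prim_A c (u ^ m) x = m • Prim_A c u x := by
      intro u hu m
      induction m with
      | zero => intro x; rw [pow_zero, Prim_A_one, zero_smul]
      | succ m ih =>
        intro x
        rw [pow_succ, Prim_A_mul, ih, hright u x _ (by rw [map_pow]; exact C.pow_mem hu _),
          succ_nsmul]
    refine ⟨?_, ?_⟩
    · rw [pow_succ, pow_mul, map_pow]
      exact C.pow_mem h0 _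
    · funext x
      rw [pow_succ, pow_mul, h1 _ h0]
      simp
  have : Finite (FF p ⧸ C) := by
    have : C.index ≠ 0 := by rw [hn]; exact pow_ne_zero _ (Fact.out : p.Prime).ne_zero
    have : C.FiniteIndex := ⟨this⟩
    infer_instance
  have : NeZero p := ⟨(Fact.out : p.Prime).ne_zero⟩
  have hfin : Finite (Fr ⧸ K) := by
    let F : Fr ⧸ K → (FF p ⧸ C) × ((FF p ⧸ C) → ZMod p) := fun q =>
      (QuotientGroup.mk (io p q.out), fun r => Prim_A c q.out r.out)
    apply Finite.of_injective F
    intro q q' h
    have h1 : (QuotientGroup.mk (io p q.out) : FF p ⧸ C) = QuotientGroup.mk (io p q'.out) :=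
      congrArg Prod.fst h
    have h2 : ∀ r : FF p ⧸ C, Prim_A c q.out r.out = Prim_A c q'.out r.out :=
      fun r => congrFun (congrArg Prod.snd h) r
    have h3 : Prim_A c q.out = Prim_A c q'.out := by
      funext x
      have hx := QuotientGroup.mk_out_eq_mul C x
      obtain ⟨y, hy⟩ := hx
      have := h2 (QuotientGroup.mk x)
      rw [hy, hright _ _ _ y.2, hright _ _ _ y.2] at this
      exact this
    rw [← QuotientGroup.out_eq' q, ← QuotientGroup.out_eq' q', QuotientGroup.eq]
    rw [QuotientGroup.eq] at h1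
    refine ⟨by rw [map_mul, map_inv]; exact h1, ?_⟩
    funext x
    rw [Prim_A_mul, Prim_A_inv, h3, map_inv]
    simp
  have hpg : IsPGroup p (Fr ⧸ K) := by
    intro q
    refine ⟨n + 1, ?_⟩
    obtain ⟨w, rfl⟩ := QuotientGroup.mk_surjective q
    rw [← QuotientGroup.mk_pow, QuotientGroup.eq_one_iff]
    exact hpow w
  obtain ⟨m, hm⟩ := IsPGroup.iff_card.mp hpg
  let N : NIdx p := ⟨K, hKn, m, hm⟩
  obtain ⟨f, hf, -, hfio⟩ := exists_proj N
  let Φb : Qt p N → ZMod p := fun q => Prim_A c (Quotient.out (s := QuotientGroup.leftRel K) q) 1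
  have hΦb : ∀ w, Φb (qt p N w) = Prim_A c w 1 := by
    intro w
    obtain ⟨y, hy⟩ := QuotientGroup.mk_out_eq_mul K w
    change Prim_A c (Quotient.out (QuotientGroup.mk w : Fr ⧸ K)) 1 = _
    rw [hy, Prim_A_mul, ((hKmem _).mp y.2).2]
    simp
  let Φ : FF p → ZMod p := fun g => Φb (f g)
  have hΦc : Continuous Φ := (continuous_of_discreteTopology (f := Φb)).comp hf
  have hΦio : ∀ w, Φ (io p w) = Prim_A c w 1 := by
    intro w
    change Φb (f (io p w)) = _
    rw [hfio, hΦb]
  have hcc : ∀ j, Continuous (c j) := by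
    intro j
    rw [← IsLocallyConstant.iff_continuous, IsLocallyConstant.iff_exists_open]
    intro x
    refine ⟨(fun y => y * x⁻¹) ⁻¹' (V : Set (FF p)), hV.preimage (by fun_prop), ?_, ?_⟩
    · change x * x⁻¹ ∈ V
      rw [mul_inv_cancel]; exact V.one_mem
    · intro y hy
      have h1 : y = (y * x⁻¹) * x := by group
      rw [h1, hc j _ hy]
  have hdiff : ∀ j g, Φ (g * gen p j) - Φ g = c j g := by
    intro j
    have := (denseRange_io (p := p)).equalizer (g := fun g => Φ (g * gen p j) - Φ g) (h := c j)
      (by fun_prop) (hcc j) (by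
      funext w
      change Φ (io p w * gen p j) - Φ (io p w) = c j (io p w)
      rw [gen, ← map_mul, hΦio, hΦio, Prim_A_mul, Prim_A_of, one_mul]
      ring)
    intro g
    exact congrFun this g
  have hΦV : ∀ v ∈ V, ∀ g, Φ (v * g) = (Φ v - Φ 1) + Φ g := by
    intro v hv g
    have := primitive_unique (p := p) (fun g => Φ (v * g) - Φ g) (by fun_prop) (by
      intro j g
      have h1 := hdiff j (v * g)
      have h2 := hdiff j g
      rw [hc j v hv, ← h2, mul_assoc] at h1
      linear_combination h1) g
    simp only [mul_one] at this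
    linear_combination this
  refine ⟨Φ, hΦc, hdiff, fun x => if x ∈ V then Φ x - Φ 1 else 0, ?_, ?_⟩
  · refine ⟨?_, ?_, ?_⟩
    · have hclopen : IsClopen (V : Set (FF p)) := ⟨Subgroup.isClosed_of_isOpen V hV, hV⟩
      apply Continuous.if
      · intro x hx
        have : frontier {x | x ∈ V} = ∅ := hclopen.frontier_eq
        rw [this] at hx
        exact hx.elim
      · fun_prop
      · exact continuous_const
    · intro x hx
      simp only [if_neg hx]
    · intro g hg h hh
      simp only [if_pos hg, if_pos hh, if_pos (V.mul_mem hg hh), hΦV g hg h]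
      change _ = Φ g - Φ 1 + (Φ h - Φ 1)
      ring
  · intro v hv g
    simp only [if_pos hv]
    exact hΦV v hv g

end D687
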