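import Pool.Agent.Lib_MP_d687bf.E8Ex
import Pool.Agent.Lib_MP_d687bf.Prim

/-!
MP_d687bf, (8.2): exactness of `0 → k → C^0 → C^1 → C^2 → 0`.
-/

set_option autoImplicit false

open Set Filter Topology

namespace D687

variable {p : ℕ} [Fact p.Prime] {D : Datum p}

/-- A function which is invariant up to a continuous cocycle is continuous. -/
private theorem E8Pd_cont (V : Subgroup (FF p)) (hV : IsOpen (V : Set (FF p)))
    (a : FF p → ZMod p) (ha : Continuous a) (f : FF p → ZMod p)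
    (h : ∀ v ∈ V, ∀ g, f (v * g) = a v + f g) : Continuous f := by
  rw [continuous_iff_continuousAt]
  intro x
  have h1 : ContinuousAt (fun y => a (y * x⁻¹) + f x) x := by
    have h2 : Continuous (fun y => a (y * x⁻¹) + f x) := by fun_prop
    exact h2.continuousAt
  refine h1.congr ?_
  have h3 : (fun y => y * x⁻¹) ⁻¹' (V : Set (FF p)) ∈ 𝓝 x := by
    refine (hV.preimage (by fun_prop)).mem_nhds ?_
    change x * x⁻¹ ∈ V
    rw [mul_inv_cancel]; exact V.one_mem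
  filter_upwards [h3] with y hy
  rw [← h _ hy x]
  congr 1
  group

private theorem E8Pd_core (V : Subgroup (FF p)) (hR : D.R ≤ V) : D.R ≤ V.normalCore := by
  have := normal_R D
  exact Subgroup.normal_le_normalCore.2 hR

/-- Elements of `LCs D w` are continuous. -/
theorem LCs_continuous (w : FF p) (f : FF p → ZMod p) (hf : f ∈ LCs D w) : Continuous f := by
  obtain ⟨⟨V, _, hVo, _, hV⟩, _⟩ := hf
  exact E8Pd_cont V hVo (fun _ => 0) continuous_const f (fun v hv g => by rw [hV v hv, zero_add])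

/-- Elements of `LCs D w` are invariant under right (and left) translation by `R`. -/
theorem LCs_right (w : FF p) (f : FF p → ZMod p) (hf : f ∈ LCs D w) (g x : FF p)
    (hx : x ∈ D.R) : f (g * x) = f g := by
  obtain ⟨⟨V, _, _, hVR, hV⟩, _⟩ := hf
  have h1 : g * x = (g * x * g⁻¹) * g := by group
  rw [h1, hV _ (hVR ((normal_R D).conj_mem x hx g))]

/-- A common open normal subgroup for the two components. -/
private theorem E8Pd_common (c : Fin 2 → FF p → ZMod p) (hc : ∀ j, c j ∈ LCs D 1) :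
    ∃ V : Subgroup (FF p), V.Normal ∧ IsOpen (V : Set (FF p)) ∧ D.R ≤ V ∧
      ∀ j, ∀ v ∈ V, ∀ g, c j (v * g) = c j g := by
  obtain ⟨⟨V, hVn, hVo, hVR, hV⟩, _⟩ := hc 0
  obtain ⟨⟨W, hWn, hWo, hWR, hW⟩, _⟩ := hc 1
  refine ⟨V ⊓ W, Subgroup.normal_inf_normal V W, hVo.inter hWo, le_inf hVR hWR, ?_⟩
  intro j v hv g
  fin_cases j
  · exact hV v hv.1 g
  · exact hW v hv.2 g

/-- `∂ c` exists (`exists_primitive` for a common open normal `V`: `Φ (v g) = a v + Φ g`, so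
`φ_i g = Φ (g r_i g⁻¹ g) - Φ g = a (g r_i g⁻¹)`, which is invariant under `g ↦ v g` (`a` is a hom on
`V ∋ v`, `g r_i g⁻¹`) and under `g ↦ g ω_i`). -/
theorem exists_pd (c : Fin 2 → FF p → ZMod p) (hc : ∀ j, c j ∈ LCs D 1) :
    ∃ φ : Fin D.n → FF p → ZMod p, IsPd D c φ ∧ ∀ i, φ i ∈ LCs D (D.ω i) := by
  obtain ⟨V, hVn, hVo, hVR, hV⟩ := E8Pd_common c hc
  obtain ⟨Φ, hΦc, hΦd, a, ha, hΦV⟩ := exists_primitive V hVo c hV
  refine ⟨fun i g => Φ (g * D.r i) - Φ g, ⟨Φ, hΦc, hΦd, fun _ _ => rfl⟩, fun i => ?_⟩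
  have key : ∀ g, Φ (g * D.r i) - Φ g = a (g * D.r i * g⁻¹) := by
    intro g
    have h1 : g * D.r i = (g * D.r i * g⁻¹) * g := by group
    rw [h1, hΦV _ (hVR (r_mem_R D i g))]
    have h2 : (g * D.r i * g⁻¹) * g * g⁻¹ = g * D.r i * g⁻¹ := by group
    rw [h2]
    ring
  refine ⟨⟨V, hVn, hVo, hVR, fun v hv g => ?_⟩, fun g => ?_⟩
  · change Φ (v * g * D.r i) - Φ (v * g) = Φ (g * D.r i) - Φ g
    rw [mul_assoc, hΦV v hv, hΦV v hv]
    ring
  · change Φ (g * D.ω i * D.r i) - Φ (g * D.ω i) = Φ (g * D.r i) - Φ g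
    rw [key, key]
    congr 1
    have h3 : D.ω i * D.r i = D.r i * D.ω i := by
      unfold Datum.r
      rw [← pow_succ', ← pow_succ]
    rw [mul_assoc g, h3]
    group

/-- `primitive_unique`. -/
theorem pd_unique (c : Fin 2 → FF p → ZMod p) (φ φ' : Fin D.n → FF p → ZMod p)
    (h : IsPd D c φ) (h' : IsPd D c φ') : φ = φ' := by
  obtain ⟨Φ, hΦc, hΦd, hΦ⟩ := h
  obtain ⟨Ψ, hΨc, hΨd, hΨ⟩ := h'
  have key := primitive_unique (fun g => Φ g - Ψ g) (by fun_prop) (by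
    intro j g
    have h1 := hΦd j g
    have h2 := hΨd j g
    linear_combination h1 - h2)
  funext i g
  rw [hΦ, hΨ]
  have h1 := key (g * D.r i)
  have h2 := key g
  linear_combination h1 - h2

theorem pd_lin (a b : ZMod p) (c c' : Fin 2 → FF p → ZMod p) (φ φ' : Fin D.n → FF p → ZMod p)
    (h : IsPd D c φ) (h' : IsPd D c' φ') :
    IsPd D (fun j g => a * c j g + b * c' j g) (fun i g => a * φ i g + b * φ' i g) := by
  obtain ⟨Φ, hΦc, hΦd, hΦ⟩ := h
  obtain ⟨Ψ, hΨc, hΨd, hΨ⟩ := h'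
  refine ⟨fun g => a * Φ g + b * Ψ g, by fun_prop, fun j g => ?_, fun i g => ?_⟩
  · change a * Φ (g * gen p j) + b * Ψ (g * gen p j) - (a * Φ g + b * Ψ g) =
      a * c j g + b * c' j g
    rw [← hΦd j g, ← hΨd j g]
    ring
  · change a * φ i g + b * φ' i g =
      a * Φ (g * D.r i) + b * Ψ (g * D.r i) - (a * Φ g + b * Ψ g)
    rw [hΦ i g, hΨ i g]
    ring

theorem pd_left (h : FF p) (c : Fin 2 → FF p → ZMod p) (φ : Fin D.n → FF p → ZMod p)
    (hc : IsPd D c φ) : IsPd D (fun j g => c j (h * g)) (fun i g => φ i (h * g)) := by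
  obtain ⟨Φ, hΦc, hΦd, hΦ⟩ := hc
  refine ⟨fun g => Φ (h * g), by fun_prop, fun j g => ?_, fun i g => ?_⟩
  · change Φ (h * (g * gen p j)) - Φ (h * g) = c j (h * g)
    rw [← mul_assoc]
    exact hΦd j (h * g)
  · change φ i (h * g) = Φ (h * (g * D.r i)) - Φ (h * g)
    rw [← mul_assoc]
    exact hΦ i (h * g)

theorem pd_dif (h : FF p) (c : Fin 2 → FF p → ZMod p) (φ : Fin D.n → FF p → ZMod p)
    (hc : IsPd D c φ) : IsPd D (fun j => dif h (c j)) (fun i => dif h (φ i)) := by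
  obtain ⟨Φ, hΦc, hΦd, hΦ⟩ := hc
  refine ⟨fun g => Φ (h * g) - Φ g, by fun_prop, fun j g => ?_, fun i g => ?_⟩
  · change Φ (h * (g * gen p j)) - Φ (g * gen p j) - (Φ (h * g) - Φ g) = c j (h * g) - c j g
    rw [← hΦd j (h * g), ← hΦd j g, mul_assoc]
    ring
  · change φ i (h * g) - φ i g = Φ (h * (g * D.r i)) - Φ (g * D.r i) - (Φ (h * g) - Φ g)
    rw [hΦ i (h * g), hΦ i g, mul_assoc]
    ring

theorem pd_nrm (h : FF p) (c : Fin 2 → FF p → ZMod p) (φ : Fin D.n → FF p → ZMod p)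
    (hc : IsPd D c φ) : IsPd D (fun j => nrm h (c j)) (fun i => nrm h (φ i)) := by
  obtain ⟨Φ, hΦc, hΦd, hΦ⟩ := hc
  refine ⟨fun g => ∑ j ∈ Finset.range p, Φ (h ^ j * g), by fun_prop, fun j g => ?_,
    fun i g => ?_⟩
  · change (∑ m ∈ Finset.range p, Φ (h ^ m * (g * gen p j))) -
      (∑ m ∈ Finset.range p, Φ (h ^ m * g)) = ∑ m ∈ Finset.range p, c j (h ^ m * g)
    rw [← Finset.sum_sub_distrib]
    refine Finset.sum_congr rfl fun m _ => ?_
    rw [← hΦd j (h ^ m * g), mul_assoc]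
  · change (∑ m ∈ Finset.range p, φ i (h ^ m * g)) =
      (∑ m ∈ Finset.range p, Φ (h ^ m * (g * D.r i))) - (∑ m ∈ Finset.range p, Φ (h ^ m * g))
    rw [← Finset.sum_sub_distrib]
    refine Finset.sum_congr rfl fun m _ => ?_
    rw [hΦ i (h ^ m * g), mul_assoc]

/-- `∂ d = 0`. -/
theorem pd_d (f : FF p → ZMod p) (hf : f ∈ LCs D 1) :
    IsPd D (fun j g => f (g * gen p j) - f g) (fun _ _ => 0) := by
  refine ⟨f, LCs_continuous 1 f hf, fun _ _ => rfl, fun i g => ?_⟩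
  have h1 : D.r i ∈ D.R := by
    have := r_mem_R D i 1
    rwa [one_mul, inv_one, mul_one] at this
  rw [LCs_right 1 f hf g _ h1, sub_self]

/-- Exactness at `C^1`: if `∂ c = 0` then `c = d f`. (`Φ (v g) = a v + Φ g`, `a` vanishes on the
`g r_i g⁻¹`, so on `R` (`R_le` for the closed subgroup `ker a` of `V`); `f = Φ` is invariant under the
open subgroup `ker a ≥ R`, hence under its normal core, which contains the normal subgroup `R`.) -/
theorem pd_ker (c : Fin 2 → FF p → ZMod p) (hc : ∀ j, c j ∈ LCs D 1)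
    (h : IsPd D c (fun _ _ => 0)) :
    ∃ f ∈ LCs D 1, ∀ j g, c j g = f (g * gen p j) - f g := by
  obtain ⟨V, hVn, hVo, hVR, hV⟩ := E8Pd_common c hc
  obtain ⟨Φ, hΦc, hΦd, a, ha, hΦV⟩ := exists_primitive V hVo c hV
  have hpd : IsPd D c (fun i g => Φ (g * D.r i) - Φ g) := ⟨Φ, hΦc, hΦd, fun _ _ => rfl⟩
  have h0 := pd_unique c _ _ hpd h
  have hacont : Continuous a := ha.cont
  have hamul : ∀ g ∈ V, ∀ h ∈ V, a (g * h) = a g + a h := fun g hg h hh => ha.mul g hg h hh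
  have ha1 : a 1 = 0 := by
    have := hamul 1 V.one_mem 1 V.one_mem
    rw [one_mul] at this
    exact left_eq_add.1 this
  let K : Subgroup (FF p) :=
    { carrier := {v | v ∈ V ∧ a v = 0}
      one_mem' := ⟨V.one_mem, ha1⟩
      mul_mem' := by
        rintro x y ⟨hx, hx'⟩ ⟨hy, hy'⟩
        exact ⟨V.mul_mem hx hy, by rw [hamul x hx y hy, hx', hy', add_zero]⟩
      inv_mem' := by
        rintro x ⟨hx, hx'⟩
        refine ⟨V.inv_mem hx, ?_⟩
        have := hamul x hx x⁻¹ (V.inv_mem hx)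
        rw [mul_inv_cancel, ha1, hx', zero_add] at this
        exact this.symm }
  have hKo : IsOpen (K : Set (FF p)) := by
    have h1 : (K : Set (FF p)) = (V : Set (FF p)) ∩ a ⁻¹' {0} := rfl
    rw [h1]
    exact hVo.inter ((isOpen_discrete _).preimage hacont)
  have hKR : D.R ≤ K := by
    refine R_le D K (Subgroup.isClosed_of_isOpen K hKo) fun i g => ?_
    have hm : g * D.r i * g⁻¹ ∈ V := hVR (r_mem_R D i g)
    refine ⟨hm, ?_⟩
    have h1 : Φ (g * D.r i) - Φ g = 0 := congrFun (congrFun h0 i) g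
    have h2 : g * D.r i = (g * D.r i * g⁻¹) * g := by group
    rw [h2, hΦV _ hm] at h1
    linear_combination h1
  refine ⟨Φ, ⟨⟨K.normalCore, K.normalCore_normal, isOpen_core K hKo, E8Pd_core K hKR, ?_⟩,
    fun g => by rw [mul_one]⟩, fun j g => (hΦd j g).symm⟩
  intro v hv g
  have h1 : v ∈ K := K.normalCore_le hv
  rw [hΦV v h1.1 g, h1.2, zero_add]

/-- Exactness at `C^0`: `d f = 0` implies that `f` is constant. -/
theorem d_ker (f : FF p → ZMod p) (hf : f ∈ LCs D 1) (h : ∀ j g, f (g * gen p j) = f g) :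
    ∀ g, f g = f 1 := primitive_unique f (LCs_continuous 1 f hf) h

/-- Exactness at `C^2`. (`φ ∈ Ck D V` for an open `V`, `R ≤ V ≤ V₁`; `exact_E` gives `V'` and `a`;
choose representatives `y` of `V' \ FF p` with `1 ↦ 1` and put `Φ (v y) = a v`; `Φ (v g) = a v + Φ g`
for `v ∈ V'`, `c_j g = Φ (g x_j) - Φ g` is `V'`-invariant, so invariant under the normal core
of `V'`.) -/
theorem pd_onto (S : Sys D) (φ : Fin D.n → FF p → ZMod p) (hφ : ∀ i, φ i ∈ LCs D (D.ω i)) :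
    ∃ c : Fin 2 → FF p → ZMod p, (∀ j, c j ∈ LCs D 1) ∧ IsPd D c φ := by
  classical
  choose W hWn hWo hWR hW using fun i => (hφ i).1
  let V : Subgroup (FF p) := S.V1 ⊓ ⨅ i, W i
  have hVo : IsOpen (V : Set (FF p)) := by
    have h1 : (V : Set (FF p)) = (S.V1 : Set (FF p)) ∩ ⋂ i, (W i : Set (FF p)) := by
      change ((S.V1 ⊓ ⨅ i, W i : Subgroup (FF p)) : Set (FF p)) = _
      rw [Subgroup.coe_inf, Subgroup.coe_iInf]
    rw [h1]
    exact S.adm.isOpen.inter (isOpen_iInter_of_finite hWo)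
  have hVR : D.R ≤ V := le_inf S.adm.hR (le_iInf hWR)
  have hVW : ∀ v ∈ V, ∀ i, v ∈ W i := fun v hv i => (Subgroup.mem_iInf.1 hv.2) i
  have hCk : φ ∈ Ck D V := by
    refine ⟨fun i v hv g => ?_, fun i g => (hφ i).2 g⟩
    rw [hW i v (hVW v hv i) g]
    rfl
  obtain ⟨V', hVo', hVR', hVV', a, ha, hae⟩ := exact_E S V hVo hVR inf_le_left φ hCk
  have hacont : Continuous a := ha.cont
  have hamul : ∀ g ∈ V', ∀ h ∈ V', a (g * h) = a g + a h := fun g hg h hh => ha.mul g hg h hh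
  let Φ : FF p → ZMod p := fun g =>
    a (g * Quotient.out (QuotientGroup.mk g⁻¹ : FF p ⧸ V'))
  have hs : ∀ g : FF p, g * Quotient.out (QuotientGroup.mk g⁻¹ : FF p ⧸ V') ∈ V' := by
    intro g
    obtain ⟨y, hy⟩ := QuotientGroup.mk_out_eq_mul V' g⁻¹
    rw [hy, mul_inv_cancel_left]
    exact y.2
  have hΦV : ∀ v ∈ V', ∀ g, Φ (v * g) = a v + Φ g := by
    intro v hv g
    have h1 : (QuotientGroup.mk (v * g)⁻¹ : FF p ⧸ V') = QuotientGroup.mk g⁻¹ := by
      rw [QuotientGroup.eq]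
      have h2 : (v * g)⁻¹⁻¹ * g⁻¹ = v := by group
      rw [h2]
      exact hv
    change a (v * g * Quotient.out (QuotientGroup.mk (v * g)⁻¹ : FF p ⧸ V')) = _
    rw [h1, mul_assoc, hamul v hv _ (hs g)]
  have hΦc : Continuous Φ := E8Pd_cont V' hVo' a hacont Φ hΦV
  refine ⟨fun j g => Φ (g * gen p j) - Φ g, fun j => ⟨⟨V'.normalCore, V'.normalCore_normal,
    isOpen_core V' hVo', E8Pd_core V' hVR', ?_⟩, fun g => by rw [mul_one]⟩,
    ⟨Φ, hΦc, fun _ _ => rfl, ?_⟩⟩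
  · intro v hv g
    have h1 : v ∈ V' := V'.normalCore_le hv
    change Φ (v * g * gen p j) - Φ (v * g) = Φ (g * gen p j) - Φ g
    rw [mul_assoc, hΦV v h1, hΦV v h1]
    ring
  · intro i g
    have h2 : g * D.r i = (g * D.r i * g⁻¹) * g := by group
    have h3 : Φ (g * D.r i) = a (g * D.r i * g⁻¹) + Φ g := by
      conv_lhs => rw [h2]
      exact hΦV _ (hVR' (r_mem_R D i g)) g
    rw [h3, hae i g]
    ring

end D687
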