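import Pool.Agent.Lib_MP_d687bf.E8Free
import Pool.Agent.Lib_MP_d687bf.E8Pd

/-!
MP_d687bf, (8.3), first half: the invariant class `ψ`. `d f` denotes the pair
`(fun g => f (g * gen p j) - f g)_j`.
-/

set_option autoImplicit false

open Set Filter Topology

namespace D687

variable {p : ℕ} [Fact p.Prime] {D : Datum p}

private theorem E8Psi_const (c : ZMod p) : (fun _ => c) ∈ LCs D 1 :=
  ⟨⟨⊤, inferInstance, isOpen_univ, le_top, fun _ _ _ => rfl⟩, fun _ => rfl⟩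

private theorem E8Psi_d_mem (f : FF p → ZMod p) (hf : f ∈ LCs D 1) (x : FF p) :
    (fun g => f (g * x) - f g) ∈ LCs D 1 := by
  obtain ⟨⟨V, hn, ho, hR, hV⟩, -⟩ := hf
  refine ⟨⟨V, hn, ho, hR, fun v hv g => ?_⟩, fun g => ?_⟩
  · show f (v * g * x) - f (v * g) = f (g * x) - f g
    rw [mul_assoc, hV v hv (g * x), hV v hv g]
  · show f (g * 1 * x) - f (g * 1) = f (g * x) - f g
    rw [mul_one]

private theorem E8Psi_nrm_d (h x : FF p) (f : FF p → ZMod p) (g : FF p) :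
    nrm h (fun g => f (g * x) - f g) g = nrm h f (g * x) - nrm h f g := by
  unfold nrm
  rw [← Finset.sum_sub_distrib]
  refine Finset.sum_congr rfl fun j _ => ?_
  show f (h ^ j * g * x) - f (h ^ j * g) = f (h ^ j * (g * x)) - f (h ^ j * g)
  rw [mul_assoc]

private theorem E8Psi_nrm_lin (h : FF p) (a b : ZMod p) (f f' : FF p → ZMod p) (g : FF p) :
    nrm h (fun g => a * f g + b * f' g) g = a * nrm h f g + b * nrm h f' g := by
  unfold nrm
  rw [Finset.mul_sum, Finset.mul_sum, ← Finset.sum_add_distrib]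

private theorem E8Psi_nrm_const (h : FF p) (c : ZMod p) (g : FF p) :
    nrm h (fun _ => c) g = 0 := by
  unfold nrm
  rw [Finset.sum_const, Finset.card_range, nsmul_eq_mul, CharP.cast_eq_zero, zero_mul]

private theorem E8Psi_lin_mem {w : FF p} (a b : ZMod p) {f f' : FF p → ZMod p}
    (hf : f ∈ LCs D w) (hf' : f' ∈ LCs D w) : (fun g => a * f g + b * f' g) ∈ LCs D w := by
  have h1 := (LCs D w).add_mem ((LCs D w).smul_mem a hf) ((LCs D w).smul_mem b hf')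
  exact h1

/-- `N_h f0 = 1` (`free_nrm_one` for the constant `1`), `N_h d f0 = d 1 = 0`, `d f0 = (h - 1) f1`
(`free_dif_one`), `ψ = ∂ f1`, `(h - 1) ψ = ∂ (d f0) = 0` (`pd_dif`, `pd_d`, `pd_unique`). -/
theorem exists_psi (h : FF p) (hp : h ^ p ∈ D.R) (h1 : h ∉ D.R) :
    ∃ ψ, IsPsi D h ψ ∧ ∀ i g, ψ i (h * g) = ψ i g := by
  obtain ⟨f0, hf0, hN⟩ := free_nrm_one h hp h1 (fun _ => (1 : ZMod p)) (E8Psi_const 1)
    (fun _ => rfl)
  have hN' : ∀ g, nrm h f0 g = 1 := fun g => (hN g).symm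
  have hf1 : ∀ j : Fin 2, ∃ f' ∈ LCs D 1, ∀ g,
      f0 (g * gen p j) - f0 g = dif h f' g := by
    intro j
    refine free_dif_one h hp h1 (fun g => f0 (g * gen p j) - f0 g) (E8Psi_d_mem f0 hf0 _) ?_
    intro g
    rw [E8Psi_nrm_d, hN', hN', sub_self]
  choose f1 hf1 hd using hf1
  obtain ⟨ψ, hψ, hψL⟩ := exists_pd f1 hf1
  refine ⟨ψ, ⟨hψL, f0, f1, hf0, hN', hf1, fun j g => (hd j g).symm, hψ⟩, ?_⟩
  have e1 := pd_dif h f1 ψ hψ
  have e2 := pd_d f0 hf0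
  have e3 : (fun (j : Fin 2) g => f0 (g * gen p j) - f0 g) = fun j => dif h (f1 j) := by
    funext j g
    exact hd j g
  rw [e3] at e2
  have e4 := pd_unique _ _ _ e1 e2
  intro i g
  have e5 := congrFun (congrFun e4 i) g
  exact sub_eq_zero.1 e5

/-- (8.3)(i): `ψ` is not a norm. If `ψ = N_h φ'`, `φ' = ∂ f2` (`pd_onto`), then
`∂ (f1 - N_h f2) = 0`, `f1 - N_h f2 = d f3`, `d (f0 - (h - 1) f3) = (h - 1) N_h f2 = 0`,
`f0 = (h - 1) f3 + const`, `1 = N_h f0 = p const = 0`. -/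
theorem psi_not_norm (S : Sys D) (h : FF p) (hp : h ^ p ∈ D.R)
    (ψ : Fin D.n → FF p → ZMod p) (hψ : IsPsi D h ψ) (φ' : Fin D.n → FF p → ZMod p)
    (hφ' : ∀ i, φ' i ∈ LCs D (D.ω i)) : ¬ ∀ i g, ψ i g = nrm h (φ' i) g := by
  intro hn
  obtain ⟨-, f0, f1, hf0, hN, hf1, hd, hpd⟩ := hψ
  obtain ⟨f2, hf2, hpd2⟩ := pd_onto S φ' hφ'
  have e1 := pd_lin 1 (-1) _ _ _ _ hpd (pd_nrm h f2 φ' hpd2)
  have e2 : (fun (i : Fin D.n) g => 1 * ψ i g + -1 * nrm h (φ' i) g) = fun _ _ => 0 := by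
    funext i g
    rw [hn i g]; ring
  rw [e2] at e1
  obtain ⟨f3, hf3, hf3d⟩ := pd_ker _ (fun j =>
    E8Psi_lin_mem 1 (-1) (hf1 j) (LCs_nrm h 1 (f2 j) (hf2 j))) e1
  have hF : (fun g => 1 * f0 g + -1 * dif h f3 g) ∈ LCs D 1 :=
    E8Psi_lin_mem 1 (-1) hf0 (LCs_dif h 1 f3 hf3)
  have hFd : ∀ j g, (fun g => 1 * f0 g + -1 * dif h f3 g) (g * gen p j) =
      (fun g => 1 * f0 g + -1 * dif h f3 g) g := by
    intro j g
    have a1 := hd j g
    have a2 := hf3d j g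
    have a3 := hf3d j (h * g)
    have a4 := dif_nrm h hp 1 (f2 j) (hf2 j) g
    simp only [dif] at a1 a4 ⊢
    rw [mul_assoc] at a3
    linear_combination a3 - a2 - a1 + a4
  have hc := d_ker _ hF hFd
  set c : ZMod p := 1 * f0 1 + -1 * dif h f3 1 with hcdef
  have hf0' : f0 = fun g => 1 * dif h f3 g + 1 * (fun _ => c) g := by
    funext g
    have := hc g
    linear_combination this
  have h1 := hN 1
  rw [hf0', E8Psi_nrm_lin, nrm_dif h hp 1 f3 hf3, E8Psi_nrm_const] at h1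
  simp at h1

/-- (8.3)(ii): every invariant `φ ∈ C^2` is `c ψ + N_h φ'`. -/
theorem psi_repr (S : Sys D) (h : FF p) (hp : h ^ p ∈ D.R) (h1 : h ∉ D.R)
    (ψ : Fin D.n → FF p → ZMod p) (hψ : IsPsi D h ψ) (φ : Fin D.n → FF p → ZMod p)
    (hφ : ∀ i, φ i ∈ LCs D (D.ω i)) (hinv : ∀ i g, φ i (h * g) = φ i g) :
    ∃ (c : ZMod p) (φ' : Fin D.n → FF p → ZMod p), (∀ i, φ' i ∈ LCs D (D.ω i)) ∧
      ∀ i g, φ i g = c * ψ i g + nrm h (φ' i) g := by
  obtain ⟨-, f0, f1, hf0, hN, hf1, hd, hpd⟩ := hψ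
  obtain ⟨f, hf, hfpd⟩ := pd_onto S φ hφ
  have e1 := pd_dif h f φ hfpd
  have e2 : (fun i => dif h (φ i)) = fun (_ : Fin D.n) (_ : FF p) => (0 : ZMod p) := by
    funext i g
    exact sub_eq_zero.2 (hinv i g)
  rw [e2] at e1
  obtain ⟨f', hf', hf'd⟩ := pd_ker _ (fun j => LCs_dif h 1 (f j) (hf j)) e1
  -- `N_h f'` is constant
  have hc := d_ker (nrm h f') (LCs_nrm h 1 f' hf') (by
    intro j g
    have a1 := nrm_dif h hp 1 (f j) (hf j) g
    have a2 : dif h (f j) = fun g => f' (g * gen p j) - f' g := funext (hf'd j)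
    rw [a2, E8Psi_nrm_d] at a1
    exact sub_eq_zero.1 a1)
  set c : ZMod p := nrm h f' 1 with hcdef
  obtain ⟨f'', hf'', hf''d⟩ := free_dif_one h hp h1 (fun g => 1 * f' g + -c * f0 g)
    (E8Psi_lin_mem 1 (-c) hf' hf0) (by
      intro g
      rw [E8Psi_nrm_lin, hc g, hN g]; ring)
  have hthird : ∀ j : Fin 2, ∃ f''' ∈ LCs D 1, ∀ g,
      1 * (1 * f j g + -c * f1 j g) + -1 * (f'' (g * gen p j) - f'' g) = nrm h f''' g := by
    intro j
    refine free_nrm_one h hp h1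
      (fun g => 1 * (1 * f j g + -c * f1 j g) + -1 * (f'' (g * gen p j) - f'' g)) ?_ ?_
    · exact E8Psi_lin_mem 1 (-1) (E8Psi_lin_mem 1 (-c) (hf j) (hf1 j)) (E8Psi_d_mem f'' hf'' _)
    · intro g
      have a1 := hf'd j g
      have a2 := hd j g
      have a3 := hf''d g
      have a4 := hf''d (g * gen p j)
      simp only [dif] at a1 a2 a3 a4
      show 1 * (1 * f j (h * g) + -c * f1 j (h * g)) +
          -1 * (f'' (h * g * gen p j) - f'' (h * g)) =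
        1 * (1 * f j g + -c * f1 j g) + -1 * (f'' (g * gen p j) - f'' g)
      rw [mul_assoc h g (gen p j)]
      linear_combination a1 - c * a2 - a3 + a4
  choose f''' hf''' hthird using hthird
  obtain ⟨φ', hφ', hφ'L⟩ := exists_pd f''' hf'''
  refine ⟨c, φ', hφ'L, ?_⟩
  have b1 := pd_nrm h f''' φ' hφ'
  have b2 := pd_lin 1 (-1) _ _ _ _ (pd_lin 1 (-c) _ _ _ _ hfpd hpd) (pd_d f'' hf'')
  have b3 : (fun (j : Fin 2) g => 1 * (1 * f j g + -c * f1 j g) +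
      -1 * (f'' (g * gen p j) - f'' g)) = fun j => nrm h (f''' j) := by
    funext j g
    exact hthird j g
  rw [b3] at b2
  have b4 := pd_unique _ _ _ b1 b2
  intro i g
  have b5 := congrFun (congrFun b4 i) g
  linear_combination -b5

end D687
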