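import Pool.Agent.Lib_MP_d687bf.Qu13

/-!
MP_d687bf, section 15: ultraproduct, end of the proof (from `Facts p`).
-/

set_option autoImplicit false
set_option linter.unusedSectionVars false
set_option linter.style.haveILetI false

open Set Filter Topology

namespace D687

/-- Ultraproduct of division rings, with an equivariant family of homomorphisms. -/
theorem exists_ultra (E : ℕ → Type) [∀ N, DivisionRing (E N)] {G : Type} [Group G]
    (ρ : ∀ N, G →* (E N)ˣ) :
    ∃ (E' : Type) (_ : DivisionRing E') (ρ' : G →* E'ˣ),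
      (∀ w, (∀ᶠ N in atTop, ρ N w = 1) → ρ' w = 1) ∧
      (∀ w, (∀ᶠ N in atTop, ρ N w ≠ 1) → ρ' w ≠ 1) := by
  classical
  let U : Ultrafilter ℕ := Filter.hyperfilter ℕ
  have hU : (U : Filter ℕ) ≤ atTop := Nat.hyperfilter_le_atTop
  let I : TwoSidedIdeal (∀ N, E N) := TwoSidedIdeal.mk' {f | ∀ᶠ N in U, f N = 0}
    (Filter.Eventually.of_forall fun _ => rfl)
    (fun {x y} hx hy => by
      filter_upwards [hx, hy] with N h1 h2
      simp [h1, h2])
    (fun {x} hx => by
      filter_upwards [hx] with N h1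
      simp [h1])
    (fun {x y} hy => by
      filter_upwards [hy] with N h1
      simp [h1])
    (fun {x y} hx => by
      filter_upwards [hx] with N h1
      simp [h1])
  let π : (∀ N, E N) →+* I.ringCon.Quotient := I.ringCon.mk'
  have hπ : Function.Surjective π := RingCon.mk'_surjective _
  have hπ0 : ∀ x : (∀ N, E N), π x = 0 ↔ ∀ᶠ N in U, x N = 0 := by
    intro x
    have h1 : π x = 0 ↔ x ∈ I := by
      rw [TwoSidedIdeal.mem_iff, ← RingCon.eq]
      rfl
    rw [h1]
    exact TwoSidedIdeal.mem_mk' _ _ _ _ _ _ _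
  have hπe : ∀ x y : (∀ N, E N), π x = π y ↔ ∀ᶠ N in U, x N = y N := by
    intro x y
    rw [← sub_eq_zero, ← map_sub, hπ0]
    simp only [Pi.sub_apply, sub_eq_zero]
  haveI : Nontrivial I.ringCon.Quotient := by
    refine ⟨⟨π 1, π 0, fun h => ?_⟩⟩
    rw [hπe] at h
    simp only [Pi.one_apply, Pi.zero_apply, one_ne_zero, Filter.eventually_false_iff_eq_bot] at h
    exact U.neBot.ne h
  have hun : ∀ a : I.ringCon.Quotient, IsUnit a ∨ a = 0 := by
    intro a
    obtain ⟨x, rfl⟩ := hπ a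
    by_cases h : ∀ᶠ N in U, x N = 0
    · exact Or.inr ((hπ0 x).mpr h)
    · left
      rw [← Ultrafilter.eventually_not] at h
      refine ⟨⟨π x, π (fun N => (x N)⁻¹), ?_, ?_⟩, rfl⟩
      · rw [← map_mul, ← map_one π, hπe]
        filter_upwards [h] with N hN
        simp [hN]
      · rw [← map_mul, ← map_one π, hπe]
        filter_upwards [h] with N hN
        simp [hN]
  letI inst : DivisionRing I.ringCon.Quotient := DivisionRing.ofIsUnitOrEqZero hun
  let ρ' : G →* (I.ringCon.Quotient)ˣ :=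
    (Units.map π.toMonoidHom).comp (MulEquiv.piUnits.symm.toMonoidHom.comp (MonoidHom.pi ρ))
  have hval : ∀ w, ((ρ' w : (I.ringCon.Quotient)ˣ) : I.ringCon.Quotient) =
      π (fun N => ((ρ N w : (E N)ˣ) : E N)) := fun w => rfl
  have hone : ∀ w, ρ' w = 1 ↔ ∀ᶠ N in U, ρ N w = 1 := by
    intro w
    rw [← Units.val_inj, hval, Units.val_one, ← map_one π, hπe]
    simp only [Pi.one_apply, Units.val_eq_one]
  refine ⟨I.ringCon.Quotient, inst, ρ', fun w hw => (hone w).mpr (hw.filter_mono hU),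
    fun w hw h1 => ?_⟩
  have h2 := (hone w).mp h1
  have h3 := (hw.filter_mono hU).and h2
  obtain ⟨N, hN⟩ := h3.exists
  exact hN.1 hN.2

/-- The end of the proof. -/
theorem main_of_facts {p : ℕ} [Fact p.Prime] (H : Facts p) :
    ¬ (∀ (D : Type) [DivisionRing D] (n : ℕ) (G : Subgroup (Matrix (Fin n) (Fin n) D)ˣ),
      (∀ g ∈ G, IsOfFinOrder g) →
      ∀ S : Finset (Matrix (Fin n) (Fin n) D)ˣ,
        (S : Set (Matrix (Fin n) (Fin n) D)ˣ) ⊆ (G : Set (Matrix (Fin n) (Fin n) D)ˣ) →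
        ((Subgroup.closure (S : Set (Matrix (Fin n) (Fin n) D)ˣ) :
            Subgroup (Matrix (Fin n) (Fin n) D)ˣ) : Set (Matrix (Fin n) (Fin n) D)ˣ).Finite) := by
  intro hall
  obtain ⟨D, hBR, hE, hfin, hbig, k0, hk0⟩ := iteration H
  have hst := fun N : ℕ => stage H (D (N + k0)) (hBR _) ((hE k0 (N + k0) (by omega)).pos hk0)
  choose E hEd ρ hρ V hV hρV using hst
  obtain ⟨E', hE', ρ', h1, h2⟩ := exists_ultra E ρ
  -- every element has finite order
  have hord : ∀ w : Fr, IsOfFinOrder (ρ' w) := by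
    intro w
    obtain ⟨e, he, k, hk⟩ := hfin w
    rw [isOfFinOrder_iff_pow_eq_one]
    refine ⟨e * p, Nat.mul_pos he (Fact.out : p.Prime).pos, ?_⟩
    rw [← map_pow]
    apply h1
    filter_upwards [eventually_ge_atTop k] with N hN
    rw [pow_mul, map_pow]
    apply hρ
    rw [map_pow]
    exact (hE k (N + k0) (by omega)).R_le hk
  -- the elements have unbounded order
  have hunb : ∀ B : ℕ, ∃ w : Fr, ∀ m : ℕ, 0 < m → ρ' w ^ m = 1 → B ≤ m := by
    intro B
    obtain ⟨w, k, hw⟩ := hbig B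
    refine ⟨w, fun m hm hwm => ?_⟩
    rw [← map_pow] at hwm
    obtain ⟨N, hN, hN'⟩ : ∃ N, k ≤ N ∧ ρ N (w ^ m) = 1 := by
      by_contra hcon
      push Not at hcon
      refine h2 (w ^ m) ?_ hwm
      filter_upwards [eventually_ge_atTop k] with N hN
      exact hcon N hN
    have h3 := hρV N _ hN'
    rw [map_pow] at h3
    exact (hE k (N + k0) (by omega)).big hw (V N) (hV N) m hm h3
  -- transfer to matrices
  classical
  let e : E'ˣ ≃* (Matrix (Fin 1) (Fin 1) E')ˣ :=
    Units.mapEquiv (Matrix.uniqueRingEquiv (m := Fin 1) (A := E')).symm.toMulEquiv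
  let ψ : Fr →* (Matrix (Fin 1) (Fin 1) E')ˣ := e.toMonoidHom.comp ρ'
  have hfr : ∀ g ∈ ψ.range, IsOfFinOrder g := by
    rintro _ ⟨w, rfl⟩
    exact e.toMonoidHom.isOfFinOrder (hord w)
  have hsub : ((Finset.univ.image (fun i : Fin 2 => ψ (FreeGroup.of i)) :
      Finset (Matrix (Fin 1) (Fin 1) E')ˣ) : Set (Matrix (Fin 1) (Fin 1) E')ˣ) ⊆
      (ψ.range : Set (Matrix (Fin 1) (Fin 1) E')ˣ) := by
    intro y hy
    simp only [Finset.coe_image, Finset.coe_univ, image_univ, mem_range] at hy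
    obtain ⟨i, rfl⟩ := hy
    exact ⟨FreeGroup.of i, rfl⟩
  have hcl := hall E' 1 ψ.range hfr _ hsub
  have hrange : ψ.range ≤ Subgroup.closure
      ((Finset.univ.image (fun i : Fin 2 => ψ (FreeGroup.of i)) :
      Finset (Matrix (Fin 1) (Fin 1) E')ˣ) : Set (Matrix (Fin 1) (Fin 1) E')ˣ) := by
    rintro _ ⟨w, rfl⟩
    induction w using FreeGroup.induction_on with
    | C1 => rw [map_one]; exact Subgroup.one_mem _
    | of i => exact Subgroup.subset_closure (by simp)
    | inv_of i ih => rw [map_inv]; exact Subgroup.inv_mem _ ih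
    | mul x y hx hy => rw [map_mul]; exact Subgroup.mul_mem _ hx hy
  have hfinR : (ψ.range : Set (Matrix (Fin 1) (Fin 1) E')ˣ).Finite := hcl.subset hrange
  haveI : Finite ψ.range := hfinR
  obtain ⟨w, hw⟩ := hunb (Nat.card ψ.range + 1)
  have hcard : (⟨ψ w, w, rfl⟩ : ψ.range) ^ Nat.card ψ.range = 1 := pow_card_eq_one'
  have h3 : ψ w ^ Nat.card ψ.range = 1 := congrArg Subtype.val hcard
  have h4 : ρ' w ^ Nat.card ψ.range = 1 := by
    apply e.injective
    rw [map_pow, map_one]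
    exact h3
  have := hw _ Nat.card_pos h4
  omega

end D687
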