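import Pool.Agent.Lib_MP_d687bf.Cup
import Pool.Agent.Lib_MP_d687bf.CovK
import Pool.Agent.Lib_MP_d687bf.BddB

/-!
MP_d687bf, section 11 (Dehn filling): definitions and basic facts.

The datum `D.snoc w b` has the new relator `w ^ (p ^ b)`. `sn t f` joins a family on the relators of
`D` with a function for the new relator. `Fill D w` is the output of sections 9 and 10: a normal open
`V`, `p ^ o` = order of `w` mod `V`, `u = w ^ (p ^ o)`, a good `l ∈ X(V)` with
`l (g u g⁻¹) = 1` mod `p`, and the tests (10.1). Relative classes `(z, x) ∈ KK` are the classes of the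
datum `D.snoc w o` on `V` (`V` is admissible for it).
-/

set_option autoImplicit false

open Set Filter Topology

namespace D687

noncomputable section

variable {p : ℕ}

/-- Join. -/
def sn {n : ℕ} {M : Type} (t : Fin n → FF p → M) (f : FF p → M) : Fin (n + 1) → FF p → M :=
  Fin.snoc (α := fun _ => FF p → M) t f

@[simp] theorem sn_castSucc {n : ℕ} {M : Type} (t : Fin n → FF p → M) (f : FF p → M) (i : Fin n) :
    sn t f i.castSucc = t i := by
  unfold sn
  exact Fin.snoc_castSucc (α := fun _ => FF p → M) f t i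

@[simp] theorem sn_last {n : ℕ} {M : Type} (t : Fin n → FF p → M) (f : FF p → M) :
    sn t f (Fin.last n) = f := by
  unfold sn
  exact Fin.snoc_last (α := fun _ => FF p → M) f t

theorem sn_eta {n : ℕ} {M : Type} (t : Fin (n + 1) → FF p → M) :
    sn (fun i => t i.castSucc) (t (Fin.last n)) = t := by
  funext i
  refine Fin.lastCases ?_ (fun j => ?_) i
  · rw [sn_last]
  · rw [sn_castSucc]

theorem snoc_ω_castSucc (D : Datum p) (w : FF p) (b : ℕ) (i : Fin D.n) :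
    (D.snoc w b).ω i.castSucc = D.ω i := by
  exact Fin.snoc_castSucc (α := fun _ => FF p) w D.ω i

theorem snoc_ω_last (D : Datum p) (w : FF p) (b : ℕ) :
    (D.snoc w b).ω (Fin.last D.n) = w := by
  exact Fin.snoc_last (α := fun _ => FF p) w D.ω

theorem snoc_a_castSucc (D : Datum p) (w : FF p) (b : ℕ) (i : Fin D.n) :
    (D.snoc w b).a i.castSucc = D.a i := by
  exact Fin.snoc_castSucc (α := fun _ => ℕ) b D.a i

theorem snoc_a_last (D : Datum p) (w : FF p) (b : ℕ) :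
    (D.snoc w b).a (Fin.last D.n) = b := by
  exact Fin.snoc_last (α := fun _ => ℕ) b D.a

theorem snoc_r_castSucc (D : Datum p) (w : FF p) (b : ℕ) (i : Fin D.n) :
    (D.snoc w b).r i.castSucc = D.r i := by
  unfold Datum.r
  rw [snoc_ω_castSucc, snoc_a_castSucc]

theorem snoc_r_last (D : Datum p) (w : FF p) (b : ℕ) :
    (D.snoc w b).r (Fin.last D.n) = w ^ (p ^ b) := by
  unfold Datum.r
  rw [snoc_ω_last, snoc_a_last]

/-- The evaluation map of `D.snoc w b`. -/
theorem ev_snoc {M : Type} (D : Datum p) (w : FF p) (b : ℕ) (α : FF p → M) :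
    ev (D.snoc w b) α = sn (ev D α) fun g => α (g * w ^ (p ^ b) * g⁻¹) := by
  funext i
  refine Fin.lastCases ?_ (fun j => ?_) i
  · funext g
    show α (g * (D.snoc w b).r (Fin.last D.n) * g⁻¹) =
      sn (ev D α) (fun g => α (g * w ^ (p ^ b) * g⁻¹)) (Fin.last D.n) g
    rw [sn_last, snoc_r_last]
  · funext g
    show α (g * (D.snoc w b).r j.castSucc * g⁻¹) =
      sn (ev D α) (fun g => α (g * w ^ (p ^ b) * g⁻¹)) j.castSucc g
    rw [sn_castSucc, snoc_r_castSucc]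
    rfl

theorem mem_CV_snoc {A M : Type} [CommRing A] [AddCommGroup M] [Module A M]
    {D : Datum p} {V : Subgroup (FF p)} {w : FF p} {b : ℕ} {act : FF p → M →ₗ[A] M}
    {t : Fin (D.n + 1) → FF p → M} :
    t ∈ CV (D.snoc w b) V act ↔ (fun i => t i.castSucc) ∈ CV D V act ∧
      (∀ v ∈ V, ∀ g, t (Fin.last D.n) (v * g) = act v (t (Fin.last D.n) g)) ∧
      ∀ g, t (Fin.last D.n) (g * w) = t (Fin.last D.n) g := by
  constructor
  · rintro ⟨h1, h2⟩
    refine ⟨⟨fun i => h1 i.castSucc, fun i g => ?_⟩, h1 (Fin.last D.n), fun g => ?_⟩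
    · have h3 := h2 i.castSucc g
      rw [snoc_ω_castSucc] at h3
      exact h3
    · have h3 := h2 (Fin.last D.n) g
      rw [snoc_ω_last] at h3
      exact h3
  · rintro ⟨⟨h1, h2⟩, h3, h4⟩
    refine ⟨fun i => ?_, fun i => ?_⟩
    · refine Fin.lastCases ?_ (fun j => ?_) i
      · exact h3
      · exact h1 j
    · refine Fin.lastCases ?_ (fun j => ?_) i
      · intro g
        rw [snoc_ω_last]
        exact h4 g
      · intro g
        rw [snoc_ω_castSucc]
        exact h2 j g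

theorem snoc_R_ge [Fact p.Prime] (D : Datum p) (w : FF p) (b : ℕ) : D.R ≤ (D.snoc w b).R := by
  refine R_le D _ (isClosed_R _) fun i g => ?_
  have h := r_mem_R (D.snoc w b) i.castSucc g
  rwa [snoc_r_castSucc] at h

theorem snoc_w_mem [Fact p.Prime] (D : Datum p) (w : FF p) (b : ℕ) (g : FF p) :
    g * w ^ (p ^ b) * g⁻¹ ∈ (D.snoc w b).R := by
  have h := r_mem_R (D.snoc w b) (Fin.last D.n) g
  rwa [snoc_r_last] at h

/-- `corr`: `cor` for the old relators, the identity for the new one. -/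
def corr {n : ℕ} (σ : FF p) (N : ℕ) (t : Fin (n + 1) → FF p → ZMod p) :
    Fin (n + 1) → FF p → ZMod p :=
  sn (cor (triv (ZMod p) (ZMod p)) σ N fun i => t i.castSucc) (t (Fin.last n))

variable [Fact p.Prime]

/-- The family of (10.1): `ev F` for the old relators, `F(u_g) + m(g) β(u_g)`, `u_g = g u g⁻¹`,
`u = w ^ (p ^ o)`, for the new one. -/
def tF (D : Datum p) (w : FF p) (o : ℕ) (β F m : FF p → K1 p) : Fin (D.n + 1) → FF p → K1 p :=
  sn (ev D F) fun g => F (g * w ^ (p ^ o) * g⁻¹) + m g * β (g * w ^ (p ^ o) * g⁻¹)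

/-- The relative class `z` (a class of `D.snoc w o` on `V`) passes the test (10.1) for `α, β, F`;
`m g = α(u_g) / (χ(u_g) - 1)`. -/
structure IsTest (D : Datum p) (V : Subgroup (FF p)) (w : FF p) (o : ℕ) (l : FF p → ℤ_[p])
    (z : Ch (D.snoc w o)) (α β F m : FF p → K1 p) : Prop where
  hα : α ∈ ZR D V (scal (chr l))
  hβ : β ∈ ZR D V (scal (chr (-l)))
  hF : IsF V (chr (-l)) α β F
  hm : ∀ g, (chr l (g * w ^ (p ^ o) * g⁻¹) - 1) * m g = α (g * w ^ (p ^ o) * g⁻¹)
  hβX : ∀ g, (PowerSeries.X : K1 p) ∣ β (g * w ^ (p ^ o) * g⁻¹)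
  ne : pair z (tF D w o β F m) ≠ 0

/-- The output of sections 9 and 10. -/
structure Fill (D : Datum p) (w : FF p) where
  V : Subgroup (FF p)
  normal : V.Normal
  adm : Adm D V
  o : ℕ
  mem : ∀ j : ℤ, w ^ j ∈ V ↔ ((p ^ o : ℕ) : ℤ) ∣ j
  l : FF p → ℤ_[p]
  isX : IsX D V l
  good : Good D V l
  one : ∀ g, PadicInt.toZMod (l (g * w ^ (p ^ o) * g⁻¹)) = 1
  v0 : FF p
  v0_mem : v0 ∈ V
  v0_l : l v0 = 0
  α0 : FF p → K1 p
  α0_mem : α0 ∈ ZR D V (scal (chr l))
  α0_ne : α0 v0 ≠ 0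
  test : ∀ z : Ch (D.snoc w o), IsClass V z → NonZ V z →
    ∃ α β F m : FF p → K1 p, IsTest D V w o l z α β F m

namespace Fill

variable {D : Datum p} {w : FF p} (Φ : Fill D w)

/-- `V_s = {v ∈ V : p ^ s ∣ l v}`. -/
def Vs (s : ℕ) : Subgroup (FF p) :=
  (exists_level (m := s) Φ.adm.isOpen Φ.adm.hR Φ.isX).choose

theorem mem_Vs (s : ℕ) (v : FF p) : v ∈ Φ.Vs s ↔ v ∈ Φ.V ∧ (p : ℤ_[p]) ^ s ∣ Φ.l v :=
  (exists_level (m := s) Φ.adm.isOpen Φ.adm.hR Φ.isX).choose_spec.1 v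

theorem isOpen_Vs (s : ℕ) : IsOpen (Φ.Vs s : Set (FF p)) :=
  (exists_level (m := s) Φ.adm.isOpen Φ.adm.hR Φ.isX).choose_spec.2.1

theorem R_le_Vs (s : ℕ) : D.R ≤ Φ.Vs s :=
  (exists_level (m := s) Φ.adm.isOpen Φ.adm.hR Φ.isX).choose_spec.2.2.1

theorem Vs_le (s : ℕ) : Φ.Vs s ≤ Φ.V :=
  (exists_level (m := s) Φ.adm.isOpen Φ.adm.hR Φ.isX).choose_spec.2.2.2

theorem adm_Vs (s : ℕ) : Adm D (Φ.Vs s) := Φ.adm.mono (Φ.isOpen_Vs s) (Φ.R_le_Vs s) (Φ.Vs_le s)

/-- `u_g = g u g⁻¹`. -/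
def u (g : FF p) : FF p := g * w ^ (p ^ Φ.o) * g⁻¹

/-- `ψ v = l v` mod `p ^ s`. -/
def psi (s : ℕ) : FF p → ZMod (p ^ s) := fun v => PadicInt.toZModPow s (Φ.l v)

/-- The new datum. -/
abbrev Dn (s : ℕ) : Datum p := D.snoc w (Φ.o + s)

/-- The datum with the relator `u`. -/
abbrev D0 : Datum p := D.snoc w Φ.o

end Fill

end

end D687
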