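import Pool.Agent.Lib_MP_d687bf.S9D

/-!
MP_d687bf, S9E: the sequence `W_i` of (9.3).

`W_0 = tower D V j` for `V` = the normal core of `S.V1` (`isOpen_core`; `D.R ≤ core` because `R` is
normal, `Subgroup.normal_le_normalCore`), `j` from `exists_unit_tower`; `W_0` is normal, open,
`R ≤ W_0 ≤ V1`. Recursion (dependent recursion on the type of pairs `(W, a)` with: `W` normal, open,
`R ≤ W ≤ V1`, `IsOrd W w a`, some `l ∈ X(W)` with `l (w^(p^a))` a unit): `W_{i+1} = lev D W_i m_i`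
with `m_i ≥ 1` and `m_i ≥ m0` of `exists_level_comm` for `u = w^(p^(a_i))`; `a_{i+1} = a_i + m_i`
(`IsOrd.lev`, `exists_unit_lev`, `lev_normal`, `isOpen_lev`). Since `m_i ≥ 1`,
`W_{i+1} ≤ sharp D W_i`, so `W_i ≤ tower D W_0 i` (`sharp_mono`), so `⋂ W_i = R`
(`mem_R_of_tower`). `comm`: `(w^(p^(a_i)))^j = w^(p^(a_i) j)`.
-/

set_option autoImplicit false

open Set Filter Topology

namespace D687

variable {p : ℕ} [Fact p.Prime] {D : Datum p} {w : FF p}

/-- The state of the recursion. -/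
private structure S9ESt (S : Sys D) (w : FF p) (W : Subgroup (FF p)) (a : ℕ) : Prop where
  normal : W.Normal
  isOpen : IsOpen (W : Set (FF p))
  hR : D.R ≤ W
  le : W ≤ S.V1
  ord : IsOrd W w a
  unit : ∃ l, IsX D W l ∧ IsUnit (l (w ^ p ^ a))

private theorem S9E_step (S : Sys D) {W : Subgroup (FF p)} {a : ℕ} (h : S9ESt S w W a) :
    ∃ (W' : Subgroup (FF p)) (a' : ℕ), S9ESt S w W' a' ∧ W' ≤ sharp D W ∧ a ≤ a' ∧
      ∀ s ∈ W, Cen D W' (w ^ p ^ a') s → ∃ j : ℤ, s * w ^ j ∈ W' := by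
  obtain ⟨m0, hm0⟩ := exists_level_comm S h.isOpen h.hR h.le h.ord.pow_mem h.unit
  obtain ⟨l, hl, hu⟩ := h.unit
  refine ⟨lev D W (max m0 1), a + max m0 1, ⟨lev_normal h.normal, isOpen_lev h.isOpen h.hR,
    R_le_lev h.hR, lev_le.trans h.le, h.ord.lev hl hu _, exists_unit_lev h.ord hl hu _⟩, ?_,
    Nat.le_add_right _ _, fun s hs hc => ?_⟩
  · intro x hx
    exact ⟨hx.1, fun l' hl' => (pow_dvd_pow _ (le_max_right m0 1)).trans (hx.2 l' hl')⟩
  · rw [pow_add, pow_mul] at hc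
    obtain ⟨j, hj⟩ := hm0 _ (le_max_left m0 1) s hs hc
    refine ⟨((p ^ a : ℕ) : ℤ) * j, ?_⟩
    rw [zpow_mul, zpow_natCast]
    exact hj

theorem exists_wseq (S : Sys D) (hinf : ∀ n : ℕ, 0 < n → w ^ n ∉ D.R) :
    ∃ (W : ℕ → Subgroup (FF p)) (a : ℕ → ℕ), IsWSeq D w W a ∧ ∀ i, W i ≤ S.V1 := by
  -- the start
  have hn : D.R.Normal := normal_R D
  have hV0 := isOpen_core S.V1 S.adm.isOpen
  have hR0 : D.R ≤ S.V1.normalCore := Subgroup.normal_le_normalCore.2 S.adm.hR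
  have hle0 : S.V1.normalCore ≤ S.V1 := Subgroup.normalCore_le _
  obtain ⟨j0, a0, l0, hord0, hl0, hu0⟩ := exists_unit_tower S hV0 hR0 hle0 hinf
  have hnc : S.V1.normalCore.Normal := Subgroup.normalCore_normal _
  have h0 : S9ESt S w (tower D S.V1.normalCore j0) a0 :=
    ⟨tower_normal hnc, isOpen_tower hV0 hR0, R_le_tower hR0, tower_le.trans hle0, hord0,
      l0, hl0, hu0⟩
  -- the recursion
  have hstep : ∀ x : {x : Subgroup (FF p) × ℕ // S9ESt S w x.1 x.2},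
      ∃ y : {x : Subgroup (FF p) × ℕ // S9ESt S w x.1 x.2}, y.1.1 ≤ sharp D x.1.1 ∧
        x.1.2 ≤ y.1.2 ∧ ∀ s ∈ x.1.1, Cen D y.1.1 (w ^ p ^ y.1.2) s →
          ∃ j : ℤ, s * w ^ j ∈ y.1.1 := by
    rintro ⟨⟨W, a⟩, h⟩
    obtain ⟨W', a', h', h1, h2, h3⟩ := S9E_step S h
    exact ⟨⟨(W', a'), h'⟩, h1, h2, h3⟩
  choose f hf using hstep
  let q : ℕ → {x : Subgroup (FF p) × ℕ // S9ESt S w x.1 x.2} := fun i =>
    Nat.rec ⟨(tower D S.V1.normalCore j0, a0), h0⟩ (fun _ x => f x) i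
  have hq : ∀ i, q (i + 1) = f (q i) := fun i => rfl
  have hle : ∀ i, (q (i + 1)).1.1 ≤ sharp D (q i).1.1 := fun i => by
    rw [hq]
    exact (hf (q i)).1
  have htow : ∀ i, (q i).1.1 ≤ tower D (q 0).1.1 i := by
    intro i
    induction i with
    | zero => exact le_rfl
    | succ i ih => exact (hle i).trans (sharp_mono ih)
  refine ⟨fun i => (q i).1.1, fun i => (q i).1.2, ⟨fun i => (q i).2.isOpen,
    fun i => (q i).2.normal, fun i => (q i).2.hR,
    antitone_nat_of_succ_le fun i => (hle i).trans lev_le, fun x hx => ?_,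
    fun i => (q i).2.ord, monotone_nat_of_le_succ fun i => ?_, fun i => (q i).2.unit,
    fun i s hs hc => ?_⟩, fun i => (q i).2.le⟩
  · exact mem_R_of_tower S (q 0).2.isOpen (q 0).2.hR (q 0).2.le fun j => htow j (hx j)
  · rw [hq]
    exact (hf (q i)).2.1
  · have h1 := (hf (q i)).2.2 s hs
    rw [← hq] at h1
    exact h1 hc

end D687
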