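import Pool.Agent.Lib_MP_d687bf.S9F

/-!
MP_d687bf, S9H: (9.3), the group `C = ⋂ ⟨w⟩ W_i` (`InC W w`), the closure of `⟨w⟩ R`.

`mem_of_inC`: `Z` closed, `R ≤ Z`, `w ∈ Z`, `x ∈ C`. The sets `W_i ∩ {g | g x ∈ Z}` are compact,
decreasing and non-empty: if `x w^j ∈ W_i` take `g = (x w^j)⁻¹ = w^(-j) x⁻¹ ∈ W_i`, then
`g x = w^(-j) ∈ Z`. So there is `r ∈ ⋂ W_i = R` with `r x ∈ Z`, and `x ∈ Z` since `r ∈ R ≤ Z`.

`inC_comm`: modulo each `W_i` both elements are powers of `w`, so the commutator is in `⋂ W_i = R`.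

`commutes_w`: let `i` be given, `x = s w s⁻¹`; `x w^j ∈ W_i`, put `k = -j`, `v = w^(-k) x`, `v ∈ W_i`
(normal), `x = w^k v`, and `v ∈ C`. As `w` and `v` commute mod `R` (`inC_comm`),
`s u_i s⁻¹ = x^(p^(a_i))` is congruent to `u_i^k v^(p^(a_i))` mod `R`. For `l ∈ X(W_i)` with `l u_i`
a unit: `l u_i = l (s u_i s⁻¹) = k l u_i + p^(a_i) l v`, so `p^(a_i) ∣ k - 1`, so
`w^(k-1) ∈ W_i` (`ord`), so `x w⁻¹ ∈ W_i`. This holds for all `i`.

`commutes_C`: `{y | s y s⁻¹ y⁻¹ ∈ R}` is a closed subgroup (`R` is closed and normal: it is the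
preimage of the centraliser of `s̄` in `FF/R`) which contains `R` and `w`; apply `mem_of_inC`.

`inC_pow_or`: for every `i` there are `j_i < p` and `k_i : ℤ` with `x w^(j_i + p k_i) ∈ W_i`; some
`j` is equal to `j_i` for infinitely many `i`, and then (`W` is antitone) for every `i` there is a
`k_i` with `x w^(j + p k_i) ∈ W_i`. So the sets `{y | InC W w y ∧ x w^j (y^p)⁻¹ ∈ W_i}` are closed,
decreasing, non-empty (`y = w^(-k_i)`), and a common element `y` satisfies `x w^j (y^p)⁻¹ ∈ R`.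
-/

set_option autoImplicit false

open Set Filter Topology

namespace D687

variable {p : ℕ} [Fact p.Prime] {D : Datum p} {w : FF p} {W : ℕ → Subgroup (FF p)} {a : ℕ → ℕ}
  {s x y : FF p}

private theorem S9H_common {t : ℕ → Set (FF p)} (hd : ∀ i, t (i + 1) ⊆ t i)
    (hn : ∀ i, (t i).Nonempty) (hc : ∀ i, IsClosed (t i)) : ∃ x, ∀ i, x ∈ t i := by
  obtain ⟨x, hx⟩ := IsCompact.nonempty_iInter_of_sequence_nonempty_isCompact_isClosed t hd hn
    (hc 0).isCompact hc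
  exact ⟨x, fun i => Set.mem_iInter.1 hx i⟩

theorem mem_of_inC (h : IsWSeq D w W a) (Z : Subgroup (FF p)) (hZ : IsClosed (Z : Set (FF p)))
    (hRZ : D.R ≤ Z) (hw : w ∈ Z) (hx : InC W w x) : x ∈ Z := by
  have hcl : ∀ i, IsClosed (W i : Set (FF p)) := fun i =>
    (W i).isClosed_of_isOpen (h.isOpen i)
  obtain ⟨g, hg⟩ := S9H_common (t := fun i => (W i : Set (FF p)) ∩ {g | g * x ∈ Z})
    (fun i => Set.inter_subset_inter_left _ (h.anti (Nat.le_succ i)))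
    (fun i => by
      obtain ⟨j, hj⟩ := hx i
      refine ⟨(x * w ^ j)⁻¹, (W i).inv_mem hj, ?_⟩
      show (x * w ^ j)⁻¹ * x ∈ Z
      have h1 : (x * w ^ j)⁻¹ * x = (w ^ j)⁻¹ := by group
      rw [h1]
      exact Z.inv_mem (Z.zpow_mem hw j))
    (fun i => (hcl i).inter (hZ.preimage (continuous_id.mul continuous_const)))
  have h1 : g ∈ D.R := h.inter g fun i => (hg i).1
  have h2 : g * x ∈ Z := (hg 0).2
  have h3 := Z.mul_mem (Z.inv_mem (hRZ h1)) h2
  rwa [inv_mul_cancel_left] at h3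

theorem InC.mul (h : IsWSeq D w W a) (hx : InC W w x) (hy : InC W w y) : InC W w (x * y) := by
  exact fun i => P_mul (h.normal i) (hx i) (hy i)

theorem InC.inv (h : IsWSeq D w W a) (hx : InC W w x) : InC W w x⁻¹ := by
  exact fun i => P_inv (h.normal i) (hx i)

theorem inC_zpow (h : IsWSeq D w W a) (j : ℤ) : InC W w (w ^ j) := by
  have _ := h
  intro i
  refine ⟨-j, ?_⟩
  rw [zpow_neg, mul_inv_cancel]
  exact (W i).one_mem

theorem inC_R (h : IsWSeq D w W a) (hx : x ∈ D.R) : InC W w x := by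
  intro i
  refine ⟨0, ?_⟩
  rw [zpow_zero, mul_one]
  exact h.hR i hx

theorem isClosed_inC (h : IsWSeq D w W a) : IsClosed {x | InC W w x} := by
  have h1 : {x | InC W w x} = ⋂ i, {s | ∃ j : ℤ, s * w ^ j ∈ W i} := by
    ext x
    simp [InC]
  rw [h1]
  exact isClosed_iInter fun i => (isClopen_P (h.normal i) (h.isOpen i) w).1

omit [Fact p.Prime] in
private theorem S9H_coset {V : Subgroup (FF p)} [V.Normal] {x w : FF p} {j : ℤ}
    (hx : x * w ^ j ∈ V) : (x : FF p ⧸ V) = (w : FF p ⧸ V) ^ (-j) := by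
  have h1 : ((x * w ^ j : FF p) : FF p ⧸ V) = 1 := (QuotientGroup.eq_one_iff _).2 hx
  rw [QuotientGroup.mk_mul, QuotientGroup.mk_zpow] at h1
  rw [zpow_neg]
  exact eq_inv_of_mul_eq_one_left h1

theorem inC_comm (h : IsWSeq D w W a) (hx : InC W w x) (hy : InC W w y) :
    x * y * x⁻¹ * y⁻¹ ∈ D.R := by
  refine h.inter _ fun i => ?_
  have hn := h.normal i
  obtain ⟨j, hj⟩ := hx i
  obtain ⟨k, hk⟩ := hy i
  rw [← QuotientGroup.eq_one_iff, QuotientGroup.mk_mul, QuotientGroup.mk_mul,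
    QuotientGroup.mk_mul, QuotientGroup.mk_inv, QuotientGroup.mk_inv, S9H_coset hj,
    S9H_coset hk]
  group

omit [Fact p.Prime] in
private theorem S9H_comm_iff {V : Subgroup (FF p)} [V.Normal] {x y : FF p} :
    x * y * x⁻¹ * y⁻¹ ∈ V ↔ Commute (x : FF p ⧸ V) (y : FF p ⧸ V) := by
  rw [← QuotientGroup.eq_one_iff, QuotientGroup.mk_mul, QuotientGroup.mk_mul,
    QuotientGroup.mk_mul, QuotientGroup.mk_inv, QuotientGroup.mk_inv, mul_inv_eq_one,
    mul_inv_eq_iff_eq_mul]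
  exact Iff.rfl

theorem commutes_w (h : IsWSeq D w W a) (hs : ∀ i, Cen D (W i) (w ^ p ^ a i) s)
    (hsw : InC W w (s * w * s⁻¹)) : s * w * s⁻¹ * w⁻¹ ∈ D.R := by
  refine h.inter _ fun i => ?_
  have hnR : D.R.Normal := normal_R D
  have hn := h.normal i
  obtain ⟨j, hj⟩ := hsw i
  obtain ⟨x, hxdef⟩ : ∃ x, s * w * s⁻¹ = x := ⟨_, rfl⟩
  rw [hxdef] at hj hsw ⊢
  obtain ⟨v, hvdef⟩ : ∃ v, w ^ j * x = v := ⟨_, rfl⟩
  have hv : v ∈ W i := by
    have h1 := hn.conj_mem _ hj (w ^ j)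
    have h2 : w ^ j * (x * w ^ j) * (w ^ j)⁻¹ = w ^ j * x := by group
    rwa [h2, hvdef] at h1
  have hxv : x = w ^ (-j) * v := by rw [← hvdef, zpow_neg, inv_mul_cancel_left]
  have hvC : InC W w v := by
    rw [← hvdef]
    exact InC.mul h (inC_zpow h j) hsw
  have hwC : InC W w w := by
    have h1 := inC_zpow h 1
    rwa [zpow_one] at h1
  have hcomm : Commute (w : FF p ⧸ D.R) (v : FF p ⧸ D.R) :=
    S9H_comm_iff.1 (inC_comm h hwC hvC)
  obtain ⟨l, hl, hu⟩ := h.unit i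
  have huW : w ^ p ^ a i ∈ W i := by
    have h1 := (h.ord i ((p ^ a i : ℕ) : ℤ)).2 dvd_rfl
    rwa [zpow_natCast] at h1
  have h1 : x ^ p ^ a i * ((w ^ p ^ a i) ^ (-j) * v ^ p ^ a i)⁻¹ ∈ D.R := by
    rw [← QuotientGroup.eq_one_iff, QuotientGroup.mk_mul, QuotientGroup.mk_inv,
      mul_inv_eq_one, hxv, QuotientGroup.mk_pow, QuotientGroup.mk_mul, QuotientGroup.mk_mul,
      QuotientGroup.mk_pow, QuotientGroup.mk_zpow, QuotientGroup.mk_zpow,
      QuotientGroup.mk_pow, (hcomm.zpow_left (-j)).mul_pow]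
    congr 1
    rw [← zpow_natCast, ← zpow_natCast, ← zpow_mul, ← zpow_mul, mul_comm (-j)]
  have h2 : l (x ^ p ^ a i) = ((-j : ℤ) : ℤ_[p]) * l (w ^ p ^ a i) +
      ((p ^ a i : ℕ) : ℤ_[p]) * l v := by
    have h3 : x ^ p ^ a i = x ^ p ^ a i * ((w ^ p ^ a i) ^ (-j) * v ^ p ^ a i)⁻¹ *
        ((w ^ p ^ a i) ^ (-j) * v ^ p ^ a i) := by group
    rw [h3, hl.add _ (h.hR i h1) _ ((W i).mul_mem ((W i).zpow_mem huW _) ((W i).pow_mem hv _)),
      hl.triv _ h1, zero_add, hl.add _ ((W i).zpow_mem huW _) _ ((W i).pow_mem hv _),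
      hl.zpow_eq huW, hl.pow_eq hv]
  have h3 : l (x ^ p ^ a i) = l (w ^ p ^ a i) := by
    rw [← hs i l hl, ← hxdef]
    congr 1
    rw [conj_pow]
  rw [h3] at h2
  have h4 : ((p : ℤ_[p])) ^ a i ∣ ((1 + j : ℤ) : ℤ_[p]) := by
    have h5 : ((1 + j : ℤ) : ℤ_[p]) * l (w ^ p ^ a i) = (p : ℤ_[p]) ^ a i * l v := by
      have h6 := h2
      push_cast at h6 ⊢
      linear_combination h6
    have h6 : (p : ℤ_[p]) ^ a i ∣ ((1 + j : ℤ) : ℤ_[p]) * l (w ^ p ^ a i) :=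
      ⟨l v, h5⟩
    exact hu.dvd_mul_right.1 h6
  have h5 : ((p ^ a i : ℕ) : ℤ) ∣ 1 + j := by
    have h6 := (PadicInt.pow_p_dvd_int_iff (a i) (1 + j)).1 h4
    push_cast
    exact h6
  have h6 : w ^ (1 + j) ∈ W i := (h.ord i _).2 h5
  have h7 : x * w⁻¹ = (w ^ (1 + j))⁻¹ * (w * v * w⁻¹) := by
    rw [hxv]
    group
  rw [h7]
  exact (W i).mul_mem ((W i).inv_mem h6) (hn.conj_mem v hv w)

theorem commutes_C (h : IsWSeq D w W a) (hs : s * w * s⁻¹ * w⁻¹ ∈ D.R) (hy : InC W w y) :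
    s * y * s⁻¹ * y⁻¹ ∈ D.R := by
  have hnR : D.R.Normal := normal_R D
  let Z : Subgroup (FF p) :=
    (Subgroup.centralizer {(s : FF p ⧸ D.R)}).comap (QuotientGroup.mk' D.R)
  have hmem : ∀ y, y ∈ Z ↔ s * y * s⁻¹ * y⁻¹ ∈ D.R := by
    intro y
    rw [S9H_comm_iff, Subgroup.mem_comap, Subgroup.mem_centralizer_singleton_iff]
    exact eq_comm
  have hZ : IsClosed (Z : Set (FF p)) := by
    have h1 : (Z : Set (FF p)) = (fun y => s * y * s⁻¹ * y⁻¹) ⁻¹' (D.R : Set (FF p)) := by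
      ext y
      exact hmem y
    rw [h1]
    exact (isClosed_R D).preimage (((continuous_const.mul continuous_id).mul
      continuous_const).mul continuous_inv)
  rw [← hmem]
  refine mem_of_inC h Z hZ (fun r hr => ?_) ((hmem w).2 hs) hy
  rw [hmem]
  exact D.R.mul_mem (hnR.conj_mem r hr s) (D.R.inv_mem hr)

theorem inC_pow_or (h : IsWSeq D w W a) (hx : InC W w x) :
    ∃ (j : ℤ) (y : FF p), InC W w y ∧ x * w ^ j * (y ^ p)⁻¹ ∈ D.R := by
  have hp : p.Prime := Fact.out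
  have hcl : ∀ i, IsClosed (W i : Set (FF p)) := fun i =>
    (W i).isClosed_of_isOpen (h.isOpen i)
  obtain ⟨j, hj⟩ : ∃ j : ℤ, ∀ i, ∃ k : ℤ, x * w ^ (j + p * k) ∈ W i := by
    by_contra hcon
    push Not at hcon
    choose f hf using hcon
    obtain ⟨m, hm⟩ := hx ((Finset.range p).sup fun c => f c)
    have h1 : (0 : ℤ) ≤ m % p := Int.emod_nonneg _ (by exact_mod_cast hp.ne_zero)
    have h2 : m % p < p := Int.emod_lt_of_pos _ (by exact_mod_cast hp.pos)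
    obtain ⟨c, hc⟩ := Int.eq_ofNat_of_zero_le h1
    have h3 : c < p := by
      rw [hc] at h2
      exact_mod_cast h2
    have h4 : f c ≤ (Finset.range p).sup fun c : ℕ => f c :=
      Finset.le_sup (f := fun c : ℕ => f (c : ℤ)) (Finset.mem_range.2 h3)
    refine hf c (m / p) ?_
    have h5 : (c : ℤ) + p * (m / p) = m := by
      rw [← hc]
      exact Int.emod_add_mul_ediv m p
    rw [h5]
    exact h.anti h4 hm
  obtain ⟨y, hy⟩ := S9H_common (t := fun i => {y | InC W w y} ∩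
      {y | x * w ^ j * (y ^ p)⁻¹ ∈ W i})
    (fun i => Set.inter_subset_inter_right _ fun y hy => h.anti (Nat.le_succ i) hy)
    (fun i => by
      obtain ⟨k, hk⟩ := hj i
      refine ⟨w ^ (-k), inC_zpow h _, ?_⟩
      show x * w ^ j * ((w ^ (-k)) ^ p)⁻¹ ∈ W i
      have h1 : x * w ^ j * ((w ^ (-k)) ^ p)⁻¹ = x * w ^ (j + p * k) := by
        rw [mul_assoc, zpow_add]
        congr 2
        rw [← zpow_natCast, ← zpow_mul, ← zpow_neg]
        congr 1
        ring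
      rw [h1]
      exact hk)
    (fun i => (isClosed_inC h).inter ((hcl i).preimage
      (continuous_const.mul (continuous_inv.comp (continuous_pow p)))))
  exact ⟨j, y, (hy 0).1, h.inter _ fun i => (hy i).2⟩

end D687
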