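import Pool.Agent.Lib_MP_d687bf.S9G
import Pool.Agent.Lib_MP_d687bf.S9H
import Pool.Agent.Lib_MP_d687bf.S9E
import Pool.Agent.Lib_MP_d687bf.E8Fix

/-!
MP_d687bf, S9I: (9.3), end of the proof.

`not_all_bad`: suppose `S_i ≠ P_i` for all `i`; `s` from `exists_normalising`. `s` commutes with `w`
mod `R` (`commutes_w`), so with all of `C` (`commutes_C`). Write `s^p w^j ≡ y^p` mod `R`, `y ∈ C`
(`inC_pow_or`).
* If `p ∣ j`, `j = p j'`: `h := s w^(j') y⁻¹` satisfies `h^p ≡ s^p w^j y^(-p) ≡ 1` mod `R` (all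
  factors commute mod `R`), `h ∉ R` (otherwise `s ∈ C`), `h` commutes with `w` mod `R`:
  `centralizer_finite` gives `w ^ (p^n) ∈ R`, contradiction to `Prm.inf`.
* If `p ∤ j`: choose integers `n, k` with `-j n = 1 + p k`: `s^(pn) ≡ y^(pn) w^(-jn)
  = y^(pn) w^(1 + p k)`, `w ≡ (s^n y^(-n) w^(-k))^p` mod `R`, contradiction to `Prm.npow`.
  (Work in the quotient group `FF p ⧸ D.R`, where all these elements commute.)

`exists_93`: so for some `i` we have `S_i = P_i` (`⊆`). Let `V = W_i`, `u = w^(p^(a_i))`. For `sep`: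
let `g` with `g w^j ∉ V` for all `j`, and suppose `l (g u g⁻¹) = 0` for all `l ∈ X(V)` with
`l u = 0`. Let `λ₁ ∈ X(V)`, `λ₁ u = 1`, `c := λ₁ (g u g⁻¹)`. For `λ ∈ X(V)`, `λ - λ(u) λ₁` vanishes at
`u`, so `λ (g u g⁻¹) = c λ(u)`. Induction (`IsX.conj`): `λ (g^n u g^(-n)) = c^n λ(u)`. For `n` a power
of `p` with `g^n ∈ V` (`index_open`; `V` normal): `λ₁ (g^n u g^(-n)) = λ₁ u`, so `c^n = 1`, `c = 1`
(`eq_one_of_pow_eq_one`), so `g ∈ S_i`, contradiction.
-/

set_option autoImplicit false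

open Set Filter Topology

namespace D687

variable {p : ℕ} [Fact p.Prime] {D : Datum p} {w : FF p} {W : ℕ → Subgroup (FF p)} {a : ℕ → ℕ}

private theorem S9I_one {Q : Type} [Group Q] {s w y : Q} (h1 : Commute s w) (h2 : Commute s y)
    (h3 : Commute w y) (q : ℕ) (j : ℤ) (h : s ^ q * w ^ ((q : ℤ) * j) = y ^ q) :
    (s * w ^ j * y⁻¹) ^ q = 1 := by
  have e1 : Commute (s * w ^ j) y⁻¹ := (h2.mul_left (h3.zpow_left j)).inv_right
  have e2 : Commute s (w ^ j) := h1.zpow_right j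
  have e3 : (w ^ j) ^ q = w ^ ((q : ℤ) * j) := by
    rw [← zpow_natCast, ← zpow_mul, mul_comm]
  rw [e1.mul_pow, e2.mul_pow, e3, h, inv_pow, mul_inv_cancel]

private theorem S9I_two {Q : Type} [Group Q] {s w y : Q} (h1 : Commute s w) (h2 : Commute s y)
    (h3 : Commute w y) (q : ℕ) (j n k : ℤ) (h : s ^ q * w ^ j = y ^ q)
    (hn : -(j * n) = 1 + q * k) : (s ^ n * y ^ (-n) * w ^ (-k)) ^ q = w := by
  have e1 : Commute (s ^ n * y ^ (-n)) (w ^ (-k)) :=
    ((h1.zpow_left n).mul_left (h3.symm.zpow_left (-n))).zpow_right (-k)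
  have e2 : Commute (s ^ n) (y ^ (-n)) := (h2.zpow_left n).zpow_right (-n)
  have e3 : s ^ q = y ^ q * w ^ (-j) := by
    rw [← h, mul_assoc, ← zpow_add, add_neg_cancel, zpow_zero, mul_one]
  have e4 : Commute (y ^ q) (w ^ (-j)) := (h3.symm.pow_left q).zpow_right (-j)
  have e5 : (s ^ n) ^ q = (y ^ q) ^ n * w ^ (-(j * n)) := by
    rw [← zpow_natCast, ← zpow_mul, mul_comm, zpow_mul, zpow_natCast, e3, e4.mul_zpow,
      ← zpow_mul, neg_mul]
  have e6 : (y ^ (-n)) ^ q = ((y ^ q) ^ n)⁻¹ := by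
    rw [← zpow_natCast, ← zpow_mul, mul_comm, zpow_mul, zpow_natCast, zpow_neg]
  have e7 : (w ^ (-k)) ^ q = w ^ (-(q * k)) := by
    rw [← zpow_natCast, ← zpow_mul]
    congr 1
    ring
  have e8 : Commute (w ^ (-(j * n))) (((y ^ q) ^ n)⁻¹) :=
    (((h3.zpow_left (-(j * n))).pow_right q).zpow_right n).inv_right
  rw [e1.mul_pow, e2.mul_pow, e5, e6, e7, mul_assoc ((y ^ q) ^ n), e8.eq, ← mul_assoc,
    mul_inv_cancel, one_mul, ← zpow_add, hn]
  have e9 : 1 + (q : ℤ) * k + -(q * k) = 1 := by ring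
  rw [e9, zpow_one]

private theorem S9I_comm {x y : FF p} (h : x * y * x⁻¹ * y⁻¹ ∈ D.R) [D.R.Normal] :
    Commute (QuotientGroup.mk x : FF p ⧸ D.R) (QuotientGroup.mk y : FF p ⧸ D.R) := by
  have h1 : (QuotientGroup.mk (x * y * x⁻¹ * y⁻¹) : FF p ⧸ D.R) = 1 :=
    (QuotientGroup.eq_one_iff _).2 h
  rw [QuotientGroup.mk_mul, QuotientGroup.mk_mul, QuotientGroup.mk_mul, QuotientGroup.mk_inv,
    QuotientGroup.mk_inv, mul_inv_eq_one, mul_inv_eq_iff_eq_mul] at h1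
  exact h1

theorem not_all_bad (S : Sys D) (hw : Prm D w) (h : IsWSeq D w W a) :
    ∃ i, ∀ s, Cen D (W i) (w ^ p ^ a i) s → ∃ j : ℤ, s * w ^ j ∈ W i := by
  by_contra hcon
  push Not at hcon
  obtain ⟨s, hs, hsC, hsw, hsp⟩ := exists_normalising h hcon
  have hn : D.R.Normal := normal_R D
  have hwC : InC W w w := by
    have h1 := inC_zpow h 1
    rwa [zpow_one] at h1
  have hcw := commutes_w h hs hsw
  obtain ⟨j, y, hy, hj⟩ := inC_pow_or h hsp
  have c1 : Commute (QuotientGroup.mk s : FF p ⧸ D.R) (QuotientGroup.mk w : FF p ⧸ D.R) :=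
    S9I_comm hcw
  have c2 : Commute (QuotientGroup.mk s : FF p ⧸ D.R) (QuotientGroup.mk y : FF p ⧸ D.R) :=
    S9I_comm (commutes_C h hcw hy)
  have c3 : Commute (QuotientGroup.mk w : FF p ⧸ D.R) (QuotientGroup.mk y : FF p ⧸ D.R) :=
    S9I_comm (inC_comm h hwC hy)
  have hj' : (QuotientGroup.mk s : FF p ⧸ D.R) ^ p * (QuotientGroup.mk w : FF p ⧸ D.R) ^ j =
      (QuotientGroup.mk y : FF p ⧸ D.R) ^ p := by
    have h1 : (QuotientGroup.mk (s ^ p * w ^ j * (y ^ p)⁻¹) : FF p ⧸ D.R) = 1 :=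
      (QuotientGroup.eq_one_iff _).2 hj
    rw [QuotientGroup.mk_mul, QuotientGroup.mk_mul, QuotientGroup.mk_inv, QuotientGroup.mk_pow,
      QuotientGroup.mk_pow, QuotientGroup.mk_zpow, mul_inv_eq_one] at h1
    exact h1
  by_cases hd : (p : ℤ) ∣ j
  · obtain ⟨j', rfl⟩ := hd
    have h1 := S9I_one c1 c2 c3 p j' hj'
    have h2 : (s * w ^ j' * y⁻¹) ^ p ∈ D.R := by
      rw [← QuotientGroup.eq_one_iff (N := D.R)]
      rw [QuotientGroup.mk_pow, QuotientGroup.mk_mul, QuotientGroup.mk_mul,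
        QuotientGroup.mk_inv, QuotientGroup.mk_zpow]
      exact h1
    have h3 : s * w ^ j' * y⁻¹ ∉ D.R := by
      intro h4
      apply hsC
      have h5 : s = s * w ^ j' * y⁻¹ * y * w ^ (-j') := by group
      rw [h5]
      exact ((inC_R h h4).mul h hy).mul h (inC_zpow h (-j'))
    have h4 : w * (s * w ^ j' * y⁻¹) * w⁻¹ * (s * w ^ j' * y⁻¹)⁻¹ ∈ D.R := by
      rw [← QuotientGroup.eq_one_iff (N := D.R)]
      have h5 : Commute (QuotientGroup.mk w : FF p ⧸ D.R)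
          (QuotientGroup.mk (s * w ^ j' * y⁻¹) : FF p ⧸ D.R) := by
        rw [QuotientGroup.mk_mul, QuotientGroup.mk_mul, QuotientGroup.mk_inv,
          QuotientGroup.mk_zpow]
        exact (c1.symm.mul_right ((Commute.refl _).zpow_right j')).mul_right c3.inv_right
      rw [QuotientGroup.mk_mul, QuotientGroup.mk_mul, QuotientGroup.mk_mul,
        QuotientGroup.mk_inv, QuotientGroup.mk_inv, mul_inv_eq_one, mul_inv_eq_iff_eq_mul]
      exact h5
    obtain ⟨n, hn'⟩ := centralizer_finite S (s * w ^ j' * y⁻¹) h2 h3 w h4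
    exact hw.inf (p ^ n) (pow_pos (Fact.out : p.Prime).pos n) hn'
  · have hpr : Prime (p : ℤ) := Nat.prime_iff_prime_int.1 (Fact.out : p.Prime)
    obtain ⟨u, v, huv⟩ : IsCoprime (p : ℤ) j :=
      (Prime.coprime_iff_not_dvd hpr).2 hd
    have h1 := S9I_two c1 c2 c3 p j (-v) (-u) hj' (by linear_combination huv)
    apply hw.npow (s ^ (-v) * y ^ (-(-v)) * w ^ (-(-u)))
    rw [← QuotientGroup.eq_one_iff (N := D.R), QuotientGroup.mk_mul, QuotientGroup.mk_inv,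
      QuotientGroup.mk_pow, QuotientGroup.mk_mul, QuotientGroup.mk_mul, QuotientGroup.mk_zpow,
      QuotientGroup.mk_zpow, QuotientGroup.mk_zpow, h1, mul_inv_cancel]

/-- (9.3)(ii) -/
theorem sep_of_cen (hp2 : p ≠ 2) {V : Subgroup (FF p)} {u : FF p} (hn : V.Normal)
    (hV : IsOpen (V : Set (FF p))) (hu : u ∈ V)
    (hunit : ∃ l, IsX D V l ∧ IsUnit (l u)) {g : FF p} (hg : ¬ Cen D V u g) :
    ∃ l, IsX D V l ∧ l u = 0 ∧ l (g * u * g⁻¹) ≠ 0 := by
  by_contra hcon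
  push Not at hcon
  apply hg
  obtain ⟨l0, hl0, hl0u⟩ := hunit
  obtain ⟨l1, hl1, h1⟩ := hl0.exists_eq_one hl0u
  have e1 : ∀ l, IsX D V l → l (g * u * g⁻¹) = l1 (g * u * g⁻¹) * l u := by
    intro l hl
    have h2 : IsX D V (l + -((l u) • l1)) := hl.map_add' (hl1.smul (l u)).neg
    have h3 : (l + -((l u) • l1)) u = 0 := by
      show l u + -(l u * l1 u) = 0
      rw [h1]
      ring
    have h4 := hcon _ h2 h3
    have h5 : l (g * u * g⁻¹) + -(l u * l1 (g * u * g⁻¹)) = 0 := h4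
    linear_combination h5
  have e2 : ∀ n : ℕ, ∀ l, IsX D V l →
      l (g ^ n * u * (g ^ n)⁻¹) = l1 (g * u * g⁻¹) ^ n * l u := by
    intro n
    induction n with
    | zero =>
      intro l _
      rw [pow_zero, pow_zero, one_mul, one_mul, inv_one, mul_one]
    | succ n ih =>
      intro l hl
      have h2 := ih _ (hl.conj hn g)
      have h3 : g ^ (n + 1) * u * (g ^ (n + 1))⁻¹ = g * (g ^ n * u * (g ^ n)⁻¹) * g⁻¹ := by
        rw [pow_succ']
        group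
      rw [h3, h2, e1 l hl, pow_succ]
      ring
  obtain ⟨t, ht⟩ := index_open V hV
  have hv : g ^ p ^ t ∈ V := by
    rw [← ht]
    exact V.pow_index_mem g
  have h2 := e2 (p ^ t) l1 hl1
  have h3 : l1 (g ^ p ^ t * u * (g ^ p ^ t)⁻¹) = l1 u := by
    rw [hl1.add _ (V.mul_mem hv hu) _ (V.inv_mem hv), hl1.add _ hv _ hu, hl1.inv_eq hv]
    ring
  rw [h3, h1, mul_one] at h2
  have h4 := eq_one_of_pow_eq_one hp2 _ t h2.symm
  intro l hl
  rw [e1 l hl, h4, one_mul]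

/-- (9.3) -/
theorem exists_93 (hp2 : p ≠ 2) (S : Sys D) (hw : Prm D w) :
    ∃ (V : Subgroup (FF p)) (a : ℕ), Is93 D w V a ∧ V ≤ S.V1 := by
  obtain ⟨W, a, h, hle⟩ := exists_wseq S hw.inf
  obtain ⟨i, hi⟩ := not_all_bad S hw h
  have hu : w ^ p ^ a i ∈ W i := (h.ord i).pow_mem
  refine ⟨W i, a i, ⟨h.normal i, h.isOpen i, h.hR i, h.ord i, h.unit i, fun g hg => ?_⟩, hle i⟩
  refine sep_of_cen hp2 (h.normal i) (h.isOpen i) hu (h.unit i) fun hc => ?_
  obtain ⟨j, hj⟩ := hi g hc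
  exact hg j hj

end D687
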