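import Pool.Agent.Lib_MP_d687bf.S10G
import Pool.Agent.Lib_MP_d687bf.S9I
import Pool.Agent.Lib_MP_d687bf.S11Defs

/-!
MP_d687bf, S10H: the bridge between section 10 (`exists_93`, `exists_repW`, `exists_lambda`) and
section 11 (`Fill D w`).
-/

set_option autoImplicit false

open Set Filter Topology

namespace D687

variable {p : ℕ} [Fact p.Prime] {D : Datum p} {V : Subgroup (FF p)} {w : FF p}

/-- A chain for `D.snoc w o` as a chain for `D` and coefficients at the representatives. -/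
theorem S10H_repr {n : ℕ} {gg : Fin n → FF p} (hgg : IsRepW V w gg) (o : ℕ)
    (z : Ch (D.snoc w o)) : ∃ (z0 : Ch D) (x : Fin n → ZMod p),
      ∀ (M : Type) [AddCommGroup M] [Module (ZMod p) M] (t : Fin D.n → FF p → M) (f : FF p → M),
        (∀ v ∈ V, ∀ g, f (v * g) = f g) → (∀ g, f (g * w) = f g) →
        pair z (sn t f : Fin (D.snoc w o).n → FF p → M) = pair z0 t + ∑ j, x j • f (gg j) := by
  classical
  induction z using Finsupp.induction_linear with
  | zero =>
    refine ⟨0, 0, fun M _ _ t f _ _ => ?_⟩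
    simp [pair]
  | add z z' ih ih' =>
    obtain ⟨z0, x, h⟩ := ih
    obtain ⟨z0', x', h'⟩ := ih'
    refine ⟨z0 + z0', x + x', fun M _ _ t f hv hw => ?_⟩
    refine (pair_add_left (D := D.snoc w o) z z' (sn t f)).trans ?_
    refine (congrArg₂ (· + ·) (h M t f hv hw) (h' M t f hv hw)).trans ?_
    rw [pair_add_left]
    simp only [Pi.add_apply, add_smul, Finset.sum_add_distrib]
    abel
  | single y c =>
    obtain ⟨i, g⟩ := y
    have key : ∀ i : Fin (D.n + 1), ∃ (z0 : Ch D) (x : Fin n → ZMod p),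
      ∀ (M : Type) [AddCommGroup M] [Module (ZMod p) M] (t : Fin D.n → FF p → M) (f : FF p → M),
        (∀ v ∈ V, ∀ g, f (v * g) = f g) → (∀ g, f (g * w) = f g) →
        c • sn t f i g = pair z0 t + ∑ j, x j • f (gg j) := by
      intro i
      refine Fin.lastCases ?_ (fun i => ?_) i
      · obtain ⟨l, v, hv, j, hg⟩ := hgg.ex g
        refine ⟨0, Pi.single l c, fun M _ _ t f hfv hfw => ?_⟩
        have hz : ∀ (k : ℤ) (y : FF p), f (y * w ^ k) = f y := by
          intro k y
          induction k using Int.induction_on with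
          | zero => simp
          | succ k ih => rw [zpow_add_one, ← mul_assoc, hfw, ih]
          | pred k ih =>
            rw [← ih, zpow_sub_one, ← mul_assoc]
            have := hfw (y * w ^ (-(k : ℤ)) * w⁻¹)
            rw [inv_mul_cancel_right] at this
            exact this.symm
        have h1 : f g = f (gg l) := by
          rw [hg, hz, hfv v hv]
        rw [sn_last, h1]
        have h2 : pair (0 : Ch D) t = 0 := by simp [pair]
        rw [h2, zero_add, Finset.sum_eq_single l]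
        · rw [Pi.single_eq_same]
        · intro b _ hb
          rw [Pi.single_eq_of_ne hb, zero_smul]
        · intro h
          exact absurd (Finset.mem_univ l) h
      · refine ⟨Finsupp.single (i, g) c, 0, fun M _ _ t f _ _ => ?_⟩
        rw [sn_castSucc, pair_single]
        simp
    obtain ⟨z0, x, h⟩ := key i
    refine ⟨z0, x, fun M _ _ t f hv hw => ?_⟩
    exact (pair_single (D := D.snoc w o) i g c (sn t f)).trans (h M t f hv hw)

theorem S10H_adm {o : ℕ} (hadm : Adm D V) (hn : V.Normal) (ho : IsOrd V w o) :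
    Adm (D.snoc w o) V := by
  refine ⟨hadm.isOpen, ?_, ?_⟩
  · refine R_le _ V (V.isClosed_of_isOpen hadm.isOpen) ?_
    intro i g
    refine Fin.lastCases ?_ (fun i => ?_) i
    · rw [snoc_r_last]
      refine hn.conj_mem _ ?_ g
      have := (ho (p ^ o : ℕ)).2 (dvd_refl _)
      rwa [zpow_natCast] at this
    · rw [snoc_r_castSucc]
      exact hadm.hR (r_mem_R D i g)
  · intro g i j
    refine Fin.lastCases ?_ (fun i => ?_) i
    · intro h
      rw [snoc_ω_last] at h
      rw [snoc_a_last]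
      have h1 : w ^ j ∈ V := by
        have := hn.conj_mem _ h g⁻¹
        simpa [mul_assoc] using this
      exact (ho j).1 h1
    · intro h
      rw [snoc_ω_castSucc] at h
      rw [snoc_a_castSucc]
      exact hadm.free g i j h

/-- The function `g ↦ F(u_g) + m(g) β(u_g)` is `V`-invariant. -/
theorem S10H_inv (hn : V.Normal) {l : FF p → ℤ_[p]} (hl : IsX D V l)
    {α β F m : FF p → K1 p} {u : FF p} (hu : u ∈ V)
    (hα : α ∈ ZR D V (scal (chr l))) (hβ : β ∈ ZR D V (scal (chr (-l))))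
    (hF : IsF V (chr (-l)) α β F)
    (hne : ∀ g, chr l (g * u * g⁻¹) - 1 ≠ 0)
    (hm : ∀ g, (chr l (g * u * g⁻¹) - 1) * m g = α (g * u * g⁻¹)) (v : FF p) (hv : v ∈ V)
    (g : FF p) :
    F (v * g * u * (v * g)⁻¹) + m (v * g) * β (v * g * u * (v * g)⁻¹) =
      F (g * u * g⁻¹) + m g * β (g * u * g⁻¹) := by
  set y := g * u * g⁻¹ with hy
  have hyV : y ∈ V := hn.conj_mem _ hu g
  have h1 : v * g * u * (v * g)⁻¹ = v * y * v⁻¹ := by
    rw [hy]
    group
  have hαZ := hα.1
  have hβZ := hβ.1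
  have hvi : v⁻¹ ∈ V := V.inv_mem hv
  have hyvi : y * v⁻¹ ∈ V := V.mul_mem hyV hvi
  -- values of the characters
  have hc : ∀ a ∈ V, ∀ b ∈ V, chr l (a * b) = chr l a * chr l b := fun a ha b hb =>
    hl.isChar_chr.mul a ha b hb
  have hc' : ∀ a ∈ V, ∀ b ∈ V, chr (-l) (a * b) = chr (-l) a * chr (-l) b := fun a ha b hb =>
    hl.neg.isChar_chr.mul a ha b hb
  have hcc : ∀ a, chr l a * chr (-l) a = 1 := chr_mul_neg l
  have hcv : chr l v * chr l v⁻¹ = 1 := hl.isChar_chr.isUnit hv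
  have hcv' : chr (-l) v * chr (-l) v⁻¹ = 1 := hl.neg.isChar_chr.isUnit hv
  have hcy : chr l (v * y * v⁻¹) = chr l y := by
    rw [hc _ (V.mul_mem hv hyV) _ hvi, hc _ hv _ hyV]
    linear_combination chr l y * hcv
  have hcy' : chr (-l) (v * y * v⁻¹) = chr (-l) y := by
    rw [hc' _ (V.mul_mem hv hyV) _ hvi, hc' _ hv _ hyV]
    linear_combination chr (-l) y * hcv'
  have hα1 : α (v * y * v⁻¹) = α v + chr l v * α y - chr l y * α v := by
    have := Z1_conj hl.isChar_chr.isActR.toIsAct hαZ hv hyV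
    rw [this]
    simp only [scal, LinearMap.smul_apply, LinearMap.id_apply, smul_eq_mul]
    rw [hcy]
  have hβ1 : β (v * y * v⁻¹) = β v + chr (-l) v * β y - chr (-l) y * β v := by
    have := Z1_conj hl.neg.isChar_chr.isActR.toIsAct hβZ hv hyV
    rw [this]
    simp only [scal, LinearMap.smul_apply, LinearMap.id_apply, smul_eq_mul]
    rw [hcy']
  have hβi : β v⁻¹ = -(chr l v * β v) := by
    have := Z1_inv hl.neg.isChar_chr.isActR.toIsAct hβZ hv
    rw [this]
    simp only [scal, LinearMap.smul_apply, LinearMap.id_apply, smul_eq_mul]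
    have h2 : chr (-l) v⁻¹ = chr l v := by
      have h3 := hcc v
      have : chr l v * (chr (-l) v * chr (-l) v⁻¹) = chr l v * 1 := by rw [hcv']
      linear_combination this - chr (-l) v⁻¹ * h3
    rw [h2]
  -- m
  have hm1 : m (v * g) = chr l v * m g - α v := by
    have h2 := hm (v * g)
    have h3 := hm g
    rw [h1, hα1, hcy] at h2
    rw [← hy] at h3
    have h4 := hne g
    rw [← hy] at h4
    apply mul_left_cancel₀ h4
    rw [h2, ← h3]
    ring
  -- F
  have hF1 : F (v * y * v⁻¹) = F v + F (y * v⁻¹) + chr (-l) v * α v * β (y * v⁻¹) := by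
    rw [mul_assoc]
    exact hF.mul v hv _ hyvi
  have hF2 : F (y * v⁻¹) = F y + F v⁻¹ + chr (-l) y * α y * β v⁻¹ := hF.mul y hyV _ hvi
  have hF0 : F 1 = 0 := by
    have := hF.mul 1 V.one_mem 1 V.one_mem
    have h5 : α 1 = 0 := Z1_one hl.isChar_chr.isActR.toIsAct hαZ
    rw [h5, mul_one] at this
    simpa using this
  have hF3 : F 1 = F v + F v⁻¹ + chr (-l) v * α v * β v⁻¹ := by
    have := hF.mul v hv _ hvi
    rwa [mul_inv_cancel] at this
  have hβ2 : β (y * v⁻¹) = β y + chr (-l) y * β v⁻¹ := by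
    have := hβZ.mul y hyV v⁻¹ hvi
    rw [this]
    simp only [scal, LinearMap.smul_apply, LinearMap.id_apply, smul_eq_mul]
  have h3 := hm g
  rw [← hy] at h3
  rw [h1, hF1, hF2, hm1, hβ1, hβ2, hβi, ← h3]
  rw [hF0] at hF3
  rw [hβi] at hF3
  have e1 := hcc v
  have e2 := hcc y
  linear_combination (-1) * hF3 + (α v * β v - α v * chr (-l) y * β v + m g * β y) * e1 -
    (m g * chr l v * β v) * e2

/-- The unit `(chr l (u_g) - 1) / X`. -/
theorem S10H_unit (y : ℤ_[p]) (hy : PadicInt.toZMod y = 1) :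
    ∃ U : K1 p, IsUnit U ∧ tpow y - 1 = PowerSeries.X * U := by
  have h1 : IsUnit y := by
    by_contra hcon
    have h2 : y ∈ RingHom.ker (PadicInt.toZMod : ℤ_[p] →+* ZMod p) := by
      rw [PadicInt.ker_toZMod, IsLocalRing.mem_maximalIdeal, mem_nonunits_iff]
      exact hcon
    rw [RingHom.mem_ker, hy] at h2
    exact one_ne_zero h2
  obtain ⟨U, hU, h3⟩ := tpow_sub_one_eq 0 y h1
  refine ⟨U, hU, ?_⟩
  rw [pow_zero, one_mul, pow_zero, pow_one] at h3
  exact h3

theorem exists_Fill (hp2 : p ≠ 2) (S : Sys D) (w : FF p)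
    (hinf : ∀ n : ℕ, 0 < n → w ^ n ∉ D.R) (hprim : ∀ g : FF p, w * (g ^ p)⁻¹ ∉ D.R) :
    Nonempty (Fill D w) := by
  obtain ⟨V, a, h93, hle⟩ := exists_93 hp2 S ⟨hinf, hprim⟩
  have hn := h93.normal
  have hadm : Adm D V := S.adm.mono h93.isOpen h93.hR hle
  obtain ⟨n, gg, hgg⟩ := exists_repW h93.isOpen w
  obtain ⟨l, hl, hgood, hone, ⟨v0, hv0, hv0l, α0, hα0, hα0ne⟩, htest⟩ :=
    exists_lambda S h93 hle hgg
  have huV : w ^ p ^ a ∈ V := h93.ord.pow_mem
  have hadm' : Adm (D.snoc w a) V := S10H_adm hadm hn h93.ord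
  refine ⟨⟨V, hn, hadm, a, h93.ord, l, hl, hgood, hone, v0, hv0, hv0l l hl, α0, hα0, hα0ne,
    ?_⟩⟩
  intro z hz hnz
  obtain ⟨z0, x, hrep⟩ := S10H_repr hgg a z
  have huw : ∀ g, g * w * w ^ p ^ a * (g * w)⁻¹ = g * w ^ p ^ a * g⁻¹ := by
    intro g
    have h1 : w * w ^ p ^ a = w ^ p ^ a * w := by rw [← pow_succ', pow_succ]
    calc g * w * w ^ p ^ a * (g * w)⁻¹ = g * (w * w ^ p ^ a) * w⁻¹ * g⁻¹ := by group
      _ = g * w ^ p ^ a * g⁻¹ := by rw [h1]; group
  have hkk : IsKK V (fun j => gg j * w ^ p ^ a * (gg j)⁻¹) z0 x := by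
    intro h hh
    have h1 := hz h hh
    rw [ev_snoc] at h1
    have h2 := hrep (ZMod p) (ev D h) (fun g => h (g * w ^ (p ^ a) * g⁻¹)) (by
      intro v hv g
      have hyV : g * w ^ p ^ a * g⁻¹ ∈ V := hn.conj_mem _ huV g
      have h3 : v * g * w ^ p ^ a * (v * g)⁻¹ = v * (g * w ^ p ^ a * g⁻¹) * v⁻¹ := by group
      have h4 := Z1_conj (act := triv (ZMod p) (ZMod p)) (V := V)
        (isActR_triv (D := D)).toIsAct hh hv hyV
      simp only [h3]
      rw [h4]
      simp [triv]) (by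
      intro g
      simp only [huw g])
    have h5 : pair z (sn (ev D h) fun g => h (g * w ^ (p ^ a) * g⁻¹) :
        Fin (D.snoc w a).n → FF p → ZMod p) = 0 := h1
    rw [h2] at h5
    simpa [smul_eq_mul] using h5
  have hnk : NonKK V z0 x := by
    obtain ⟨t, ht, htz⟩ := hnz
    have ht' := mem_CV_snoc.1 ht
    have h1 := hrep (ZMod p) (fun i => t (Fin.castSucc i)) (t (Fin.last D.n)) (by
      intro v hv g
      have := ht'.2.1 v hv g
      simpa [triv] using this) (fun g => ht'.2.2 g)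
    by_contra hcon
    unfold NonKK at hcon
    push Not at hcon
    obtain ⟨hc1, hc2⟩ := hcon
    apply htz
    have h2 : pair z t = pair z (sn (fun i => t (Fin.castSucc i)) (t (Fin.last D.n)) :
        Fin (D.snoc w a).n → FF p → ZMod p) := by
      congr 1
      exact (sn_eta t).symm
    rw [h2, h1, hc2]
    have h3 : pair z0 (fun i => t (Fin.castSucc i)) = 0 := by
      by_contra h4
      exact hc1 ⟨_, ht'.1, h4⟩
    rw [h3]
    simp
  obtain ⟨α, hα, β, hβ, F, hF, hne⟩ := htest z0 x hkk hnk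
  -- the units
  choose U hU hUe using fun g => S10H_unit (l (g * w ^ p ^ a * g⁻¹)) (hone g)
  have hchr : ∀ g, chr l (g * w ^ p ^ a * g⁻¹) - 1 = PowerSeries.X * U g := hUe
  have hX : (PowerSeries.X : K1 p) ≠ 0 := PowerSeries.X_ne_zero
  have hDne : ∀ g, chr l (g * w ^ p ^ a * g⁻¹) - 1 ≠ 0 := fun g => by
    rw [hchr]
    exact mul_ne_zero hX (hU g).ne_zero
  -- the new cocycles
  set α' : FF p → K1 p := (PowerSeries.X : K1 p) • α with hα'
  set β' : FF p → K1 p := (PowerSeries.X : K1 p) • β with hβ'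
  set F' : FF p → K1 p := ((PowerSeries.X : K1 p) * PowerSeries.X) • F with hF'
  have hα'Z : α' ∈ ZR D V (scal (chr l)) := Submodule.smul_mem _ _ hα
  have hβ'Z : β' ∈ ZR D V (scal (chr (-l))) := Submodule.smul_mem _ _ hβ
  have hF'F : IsF V (chr (-l)) α' β' F' := by
    have h1 := (hF.smul_right (PowerSeries.X : K1 p)).smul_left (PowerSeries.X : K1 p)
    rw [smul_smul] at h1
    exact h1
  choose m hm using fun g => show ∃ m : K1 p, (chr l (g * w ^ (p ^ a) * g⁻¹) - 1) * m =
      α' (g * w ^ (p ^ a) * g⁻¹) from by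
    obtain ⟨u', hu'⟩ := hU g
    refine ⟨(↑u'⁻¹ : K1 p) * α (g * w ^ (p ^ a) * g⁻¹), ?_⟩
    rw [hchr, hα', Pi.smul_apply, smul_eq_mul, ← hu']
    have h1 : (u' : K1 p) * (↑u'⁻¹ : K1 p) = 1 := u'.mul_inv
    linear_combination (PowerSeries.X * α (g * w ^ (p ^ a) * g⁻¹)) * h1
  refine ⟨α', β', F', m, hα'Z, hβ'Z, hF'F, hm, ?_, ?_⟩
  · intro g
    rw [hβ', Pi.smul_apply, smul_eq_mul]
    exact Dvd.intro _ rfl
  · have htst := tst_smul (u := fun j => gg j * w ^ p ^ a * (gg j)⁻¹) (z := z0) (x := x)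
      (PowerSeries.X : K1 p) (PowerSeries.X : K1 p) (chr l) α β F
    have hne' : tst (fun j => gg j * w ^ p ^ a * (gg j)⁻¹) z0 x (chr l) α' β' F' ≠ 0 := by
      rw [hα', hβ', hF', htst]
      exact mul_ne_zero (mul_ne_zero hX hX) hne
    have hinv := S10H_inv hn hl huV hα'Z hβ'Z hF'F hDne hm
    have h1 := hrep (K1 p) (ev D F')
      (fun g => F' (g * w ^ (p ^ a) * g⁻¹) + m g * β' (g * w ^ (p ^ a) * g⁻¹)) hinv (by
        intro g
        have h2 : m (g * w) = m g := by
          have h3 := hm (g * w)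
          rw [huw g, ← hm g] at h3
          exact mul_left_cancel₀ (hDne g) h3
        simp only [huw g, h2])
    intro hcon
    apply hne'
    have h0 : pair z0 (ev D F') + ∑ j, x j • (F' (gg j * w ^ (p ^ a) * (gg j)⁻¹) +
        m (gg j) * β' (gg j * w ^ (p ^ a) * (gg j)⁻¹)) = 0 := by
      rw [← h1]
      exact hcon
    unfold tst
    have h4 : ∀ j, (∏ i ∈ Finset.univ.erase j, (chr l (gg i * w ^ p ^ a * (gg i)⁻¹) - 1)) *
        (α' (gg j * w ^ p ^ a * (gg j)⁻¹) * β' (gg j * w ^ p ^ a * (gg j)⁻¹)) =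
        (∏ i, (chr l (gg i * w ^ p ^ a * (gg i)⁻¹) - 1)) *
          (m (gg j) * β' (gg j * w ^ p ^ a * (gg j)⁻¹)) := by
      intro j
      rw [← Finset.prod_erase_mul _ _ (Finset.mem_univ j), ← hm (gg j)]
      ring
    simp only [h4]
    have h5 : ∀ (P Q : K1 p) (y y' : Fin n → K1 p), Q + ∑ j, x j • (y j + y' j) = 0 →
        P * (Q + ∑ j, x j • y j) + ∑ j, x j • (P * y' j) = 0 := by
      intro P Q y y' h
      have h6 : ∑ j, x j • (P * y' j) = P * ∑ j, x j • y' j := by
        rw [Finset.mul_sum]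
        refine Finset.sum_congr rfl fun j _ => ?_
        rw [mul_smul_comm]
      have h7 : ∑ j, x j • (y j + y' j) = ∑ j, x j • y j + ∑ j, x j • y' j := by
        rw [← Finset.sum_add_distrib]
        refine Finset.sum_congr rfl fun j _ => ?_
        rw [smul_add]
      rw [h7] at h
      rw [h6]
      linear_combination P * h
    exact h5 _ _ _ _ h0

end D687
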