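import Pool.Agent.Lib_MP_d687bf.S11Defs

/-!
MP_d687bf, S11C: (11.2), the action of `σ` on `T_{V'}(k)` and on the cup product. General: `V'`
admissible for `D`, `σ` normalises `V'`.

`T [t] = [dot σ t]`, `(dot σ t)_i g = t_i (σ⁻¹ g)` (`triv`): `t_i (σ⁻¹ v g) = t_i ((σ⁻¹ v σ) σ⁻¹ g)`, so it is
in `C_{V'}(k)`; `ev (fun x => h (σ⁻¹ x σ)) = dot σ (ev h)`, `h (σ⁻¹ · σ) ∈ Hom(V', k)`, so `T` is well
defined. `T^N [t] = [t_i (σ^(-N) g)] = [t]`. For `a ∈ H` put `a^σ x = a (σ⁻¹ x σ) ∈ H`, a linear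
bijection `S` of `H`; if `IsF V' 1 a b F` then `IsF V' 1 a^σ b^σ F^σ` and `ev F^σ = dot σ (ev F)`, so
`c a^σ b^σ = T (c a b)` (`exists_F_HH`). So `c.compr₂ (κ ∘ T) = (c.compr₂ κ).compl₁₂ S S`, same rank.
-/

set_option autoImplicit false

open Set Filter Topology

namespace D687

variable {p : ℕ} [Fact p.Prime] {D : Datum p} {V' : Subgroup (FF p)} {σ : FF p}

/-- conjugation -/
private def S11C_cj {M : Type} (s : FF p) (h : FF p → M) : FF p → M := fun x => h (s⁻¹ * x * s)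

omit [Fact p.Prime] in
private theorem S11C_ev {M : Type} (s : FF p) (h : FF p → M) (i : Fin D.n) (g : FF p) :
    ev D (S11C_cj s h) i g = ev D h i (s⁻¹ * g) := by
  unfold ev S11C_cj
  congr 1
  group

omit [Fact p.Prime] in
private theorem S11C_inv (hn : ∀ x, σ⁻¹ * x * σ ∈ V' ↔ x ∈ V') (x : FF p) :
    σ⁻¹⁻¹ * x * σ⁻¹ ∈ V' ↔ x ∈ V' := by
  rw [← hn (σ⁻¹⁻¹ * x * σ⁻¹)]
  have h1 : σ⁻¹ * (σ⁻¹⁻¹ * x * σ⁻¹) * σ = x := by group
  rw [h1]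

private theorem S11C_Hk (hn : ∀ x, σ⁻¹ * x * σ ∈ V' ↔ x ∈ V') {h : FF p → ZMod p}
    (hh : h ∈ Hk V') : S11C_cj σ h ∈ Hk V' := by
  have hZ : IsZ V' (fun g => triv (ZMod p) (ZMod p) g) h := hh
  have hc : Continuous (S11C_cj σ h) := by
    unfold S11C_cj
    exact hZ.cont.comp (by fun_prop)
  refine ⟨hc, fun x hx => hZ.supp _ (fun h1 => hx ((hn x).1 h1)), fun g hg k hk => ?_⟩
  change h (σ⁻¹ * (g * k) * σ) = h (σ⁻¹ * g * σ) + h (σ⁻¹ * k * σ)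
  have h1 : σ⁻¹ * (g * k) * σ = (σ⁻¹ * g * σ) * (σ⁻¹ * k * σ) := by group
  rw [h1]
  exact hZ.mul _ ((hn g).2 hg) _ ((hn k).2 hk)

private theorem S11C_HH (hn : ∀ x, σ⁻¹ * x * σ ∈ V' ↔ x ∈ V') {h : FF p → ZMod p}
    (hh : h ∈ HH D V') : S11C_cj σ h ∈ HH D V' := by
  obtain ⟨h1, h2⟩ := mem_ZR_iff_ev.1 hh
  refine mem_ZR_iff_ev.2 ⟨S11C_Hk hn h1, ?_⟩
  funext i g
  rw [S11C_ev, h2]
  rfl

/-- the linear bijection of `H` -/
private def S11C_S (hn : ∀ x, σ⁻¹ * x * σ ∈ V' ↔ x ∈ V') : HH D V' ≃ₗ[ZMod p] HH D V' where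
  toFun a := ⟨S11C_cj σ a, S11C_HH hn a.2⟩
  map_add' _ _ := rfl
  map_smul' _ _ := rfl
  invFun a := ⟨S11C_cj σ⁻¹ a, S11C_HH (S11C_inv hn) a.2⟩
  left_inv a := by
    apply Subtype.ext
    funext x
    change (a : FF p → ZMod p) (σ⁻¹ * (σ⁻¹⁻¹ * x * σ⁻¹) * σ) = (a : FF p → ZMod p) x
    group
  right_inv a := by
    apply Subtype.ext
    funext x
    change (a : FF p → ZMod p) (σ⁻¹⁻¹ * (σ⁻¹ * x * σ) * σ⁻¹) = (a : FF p → ZMod p) x
    group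

private theorem S11C_F (hn : ∀ x, σ⁻¹ * x * σ ∈ V' ↔ x ∈ V') {a b F : FF p → ZMod p}
    (hF : IsF V' 1 a b F) : IsF V' 1 (S11C_cj σ a) (S11C_cj σ b) (S11C_cj σ F) := by
  have hc : Continuous (S11C_cj σ F) := by
    unfold S11C_cj
    exact hF.cont.comp (by fun_prop)
  refine ⟨hc, fun x hx => hF.supp _ (fun h1 => hx ((hn x).1 h1)), fun g hg k hk => ?_⟩
  change F (σ⁻¹ * (g * k) * σ) = F (σ⁻¹ * g * σ) + F (σ⁻¹ * k * σ) +
    (1 : FF p → ZMod p) g * a (σ⁻¹ * g * σ) * b (σ⁻¹ * k * σ)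
  have h1 : σ⁻¹ * (g * k) * σ = (σ⁻¹ * g * σ) * (σ⁻¹ * k * σ) := by group
  rw [h1]
  exact hF.mul _ ((hn g).2 hg) _ ((hn k).2 hk)

theorem dot_mem_Ck (hn : ∀ x, σ⁻¹ * x * σ ∈ V' ↔ x ∈ V') {t : Fin D.n → FF p → ZMod p}
    (ht : t ∈ Ck D V') : dot (triv (ZMod p) (ZMod p)) σ t ∈ Ck D V' := by
  refine ⟨fun i v hv g => ?_, fun i g => ?_⟩
  · change t i (σ⁻¹ * (v * g)) = t i (σ⁻¹ * g)
    have h1 : σ⁻¹ * (v * g) = (σ⁻¹ * v * σ) * (σ⁻¹ * g) := by group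
    rw [h1]
    exact ht.1 i _ ((hn v).2 hv) _
  · change t i (σ⁻¹ * (g * D.ω i)) = t i (σ⁻¹ * g)
    rw [← mul_assoc]
    exact ht.2 i _

/-- the action on `C(k)` -/
private def S11C_L (hn : ∀ x, σ⁻¹ * x * σ ∈ V' ↔ x ∈ V') : Ck D V' →ₗ[ZMod p] Ck D V' where
  toFun t := ⟨dot (triv (ZMod p) (ZMod p)) σ t, dot_mem_Ck hn t.2⟩
  map_add' _ _ := rfl
  map_smul' _ _ := rfl

private theorem S11C_L_pow (hn : ∀ x, σ⁻¹ * x * σ ∈ V' ↔ x ∈ V') (m : ℕ) (t : Ck D V')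
    (i : Fin D.n) (g : FF p) :
    (((S11C_L hn ^ m) t : Ck D V') : Fin D.n → FF p → ZMod p) i g =
      (t : Fin D.n → FF p → ZMod p) i ((σ ^ m)⁻¹ * g) := by
  induction m generalizing g with
  | zero =>
    rw [pow_zero, pow_zero, inv_one, one_mul]
    rfl
  | succ m ih =>
    rw [pow_succ']
    change (((S11C_L hn ^ m) t : Ck D V') : Fin D.n → FF p → ZMod p) i (σ⁻¹ * g) = _
    rw [ih, pow_succ']
    group

theorem exists_tauT (hadm : Adm D V') (hn : ∀ x, σ⁻¹ * x * σ ∈ V' ↔ x ∈ V') {N : ℕ}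
    (hN : σ ^ N ∈ V') {c : HH D V' →ₗ[ZMod p] HH D V' →ₗ[ZMod p] TV D V'} (hc : IsCup D V' c) :
    ∃ T : TV D V' →ₗ[ZMod p] TV D V',
      (∀ t : Ck D V', T (Submodule.Quotient.mk t) =
        Submodule.Quotient.mk ⟨dot (triv (ZMod p) (ZMod p)) σ t, dot_mem_Ck hn t.2⟩) ∧
      T ^ N = 1 ∧
      ∀ κ : Module.Dual (ZMod p) (TV D V'),
        Module.finrank (ZMod p) (LinearMap.range (c.compr₂ (κ ∘ₗ T))) =
          Module.finrank (ZMod p) (LinearMap.range (c.compr₂ κ)) := by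
  have hle : ((Hk V').map (evL (ZMod p) (ZMod p) D)).comap (Ck D V').subtype ≤
      (((Hk V').map (evL (ZMod p) (ZMod p) D)).comap (Ck D V').subtype).comap (S11C_L hn) := by
    rintro t ⟨h, hh, e⟩
    refine ⟨S11C_cj σ h, S11C_Hk hn hh, ?_⟩
    funext i g
    change ev D (S11C_cj σ h) i g = (t : Fin D.n → FF p → ZMod p) i (σ⁻¹ * g)
    rw [S11C_ev]
    exact congrFun (congrFun e i) (σ⁻¹ * g)
  let T : TV D V' →ₗ[ZMod p] TV D V' := Submodule.mapQ _ _ (S11C_L hn) hle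
  have hT : ∀ t : Ck D V', T (Submodule.Quotient.mk t) = Submodule.Quotient.mk (S11C_L hn t) :=
    fun t => rfl
  have hTm : ∀ (m : ℕ) (t : Ck D V'), (T ^ m) (Submodule.Quotient.mk t) =
      Submodule.Quotient.mk ((S11C_L hn ^ m) t) := by
    intro m
    induction m with
    | zero => intro t; rfl
    | succ m ih =>
      intro t
      rw [pow_succ', pow_succ']
      change T ((T ^ m) (Submodule.Quotient.mk t)) = _
      rw [ih, hT]
      rfl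
  have hcup : ∀ a b : HH D V', c (S11C_S hn a) (S11C_S hn b) = T (c a b) := by
    intro a b
    obtain ⟨F, hF, -⟩ := exists_F_HH hadm a b
    obtain ⟨h1, h2⟩ := hc a b F hF
    obtain ⟨h3, h4⟩ := hc (S11C_S hn a) (S11C_S hn b) (S11C_cj σ F) (S11C_F hn hF)
    rw [h4, h2, hT]
    congr 1
    apply Subtype.ext
    funext i g
    exact S11C_ev σ F i g
  refine ⟨T, fun t => rfl, ?_, fun κ => ?_⟩
  · apply LinearMap.ext
    intro y
    obtain ⟨t, rfl⟩ := Submodule.Quotient.mk_surjective _ y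
    rw [hTm]
    have h1 : (S11C_L hn ^ N) t = t := by
      apply Subtype.ext
      funext i g
      rw [S11C_L_pow]
      exact t.2.1 i _ (V'.inv_mem hN) g
    rw [h1]
    rfl
  · have h1 : c.compr₂ (κ ∘ₗ T) =
        ((S11C_S (D := D) hn).dualMap : Module.Dual (ZMod p) (HH D V') →ₗ[ZMod p]
          Module.Dual (ZMod p) (HH D V')) ∘ₗ (c.compr₂ κ) ∘ₗ
        ((S11C_S hn : HH D V' ≃ₗ[ZMod p] HH D V') : HH D V' →ₗ[ZMod p] HH D V') := by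
      apply LinearMap.ext
      intro a
      apply LinearMap.ext
      intro b
      change κ (T (c a b)) = κ (c (S11C_S hn a) (S11C_S hn b))
      rw [hcup]
    rw [h1, LinearMap.range_comp, LinearMap.range_comp, LinearEquiv.range, Submodule.map_top]
    exact LinearEquiv.finrank_map_eq _ _

end D687
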