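import Pool.Agent.Lib_MP_d687bf.Defs

/-!
MP_d687bf, S11D: linear algebra for (11.5).

Let `r κ` be the rank of `c.compr₂ κ`; `r (κ + κ') ≤ r κ + r κ'`, `r (-κ) = r κ`, so
`r (κ ∘ S - κ) ≤ 2 r κ`. On the dual `T^*` (dimension `d = dim T`) the map `n κ = κ ∘ S - κ` is
nilpotent: `n^(p^s) = (S^*)^(p^s) - 1 = 0` (characteristic `p`), so `n^d = 0`. Induction on `i`: if
`n^i κ = 0`, `κ ≠ 0`, `1 ≤ i` then `M ≤ 2^(i-1) r κ` (if `n κ = 0` this is the hypothesis, otherwise apply the
induction hypothesis to `n κ`).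
-/

set_option autoImplicit false

open Set Filter Topology

namespace D687

variable {p : ℕ} [Fact p.Prime] {H T : Type} [AddCommGroup H] [Module (ZMod p) H]
  [Module.Finite (ZMod p) H] [AddCommGroup T] [Module (ZMod p) T] [Module.Finite (ZMod p) T]

private theorem S11D_sub_pow {C : Type} [AddCommGroup C] [Module (ZMod p) C]
    (s : C →ₗ[ZMod p] C) (n : ℕ) (hs : s ^ (p ^ n) = 1) : (s - 1) ^ (p ^ n) = 0 := by
  have h1 : ((Polynomial.X : Polynomial (ZMod p)) - 1) ^ (p ^ n) = Polynomial.X ^ (p ^ n) - 1 := by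
    rw [sub_pow_char_pow, one_pow]
  have h2 := congrArg (Polynomial.aeval s) h1
  rw [map_pow, map_sub, map_sub, map_pow, Polynomial.aeval_X, map_one, hs, sub_self] at h2
  exact h2

theorem rank_le_pow (c : H →ₗ[ZMod p] H →ₗ[ZMod p] T) (S : T →ₗ[ZMod p] T) (s : ℕ)
    (hS : S ^ (p ^ s) = 1)
    (hr : ∀ κ : Module.Dual (ZMod p) T,
      Module.finrank (ZMod p) (LinearMap.range (c.compr₂ (κ ∘ₗ S))) =
        Module.finrank (ZMod p) (LinearMap.range (c.compr₂ κ)))
    (M : ℕ) (hM : ∀ κ : Module.Dual (ZMod p) T, κ ≠ 0 → κ ∘ₗ S = κ →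
      M ≤ Module.finrank (ZMod p) (LinearMap.range (c.compr₂ κ)))
    (κ : Module.Dual (ZMod p) T) (hκ : κ ≠ 0) :
    M ≤ 2 ^ (Module.finrank (ZMod p) T) *
      Module.finrank (ZMod p) (LinearMap.range (c.compr₂ κ)) := by
  -- the operator on the dual
  let S' : Module.Dual (ZMod p) T →ₗ[ZMod p] Module.Dual (ZMod p) T := S.dualMap
  have hS'a : ∀ f : Module.Dual (ZMod p) T, S' f = f ∘ₗ S := fun f => rfl
  have hS'pow : ∀ (j : ℕ) (f : Module.Dual (ZMod p) T), (S' ^ j) f = f ∘ₗ (S ^ j) := by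
    intro j
    induction j with
    | zero => intro f; rfl
    | succ j ih =>
      intro f
      rw [pow_succ, Module.End.mul_apply, ih, hS'a, LinearMap.comp_assoc]
      congr 1
      exact (pow_succ' S j).symm
  have hS' : S' ^ (p ^ s) = 1 := by
    refine LinearMap.ext fun f => ?_
    rw [hS'pow, hS]
    rfl
  have hnil : (S' - 1) ^ (p ^ s) = 0 := S11D_sub_pow S' s hS'
  have hfin : (S' - 1) ^ (Module.finrank (ZMod p) T) = 0 := by
    rw [← Subspace.dual_finrank_eq (K := ZMod p) (V := T)]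
    have h1 : LinearMap.ker ((S' - 1) ^ (p ^ s)) ≤
        LinearMap.ker ((S' - 1) ^ Module.finrank (ZMod p) (Module.Dual (ZMod p) T)) :=
      Module.End.ker_pow_le_ker_pow_finrank _ _
    rw [hnil, LinearMap.ker_zero, top_le_iff, LinearMap.ker_eq_top] at h1
    exact h1
  -- ranks
  have hr2 : ∀ f : Module.Dual (ZMod p) T,
      Module.finrank (ZMod p) (LinearMap.range (c.compr₂ ((S' - 1) f))) ≤
        2 * Module.finrank (ZMod p) (LinearMap.range (c.compr₂ f)) := by
    intro f
    have h1 : c.compr₂ ((S' - 1) f) = c.compr₂ (f ∘ₗ S) + -(c.compr₂ f) := by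
      refine LinearMap.ext fun x => LinearMap.ext fun y => ?_
      rw [LinearMap.add_apply, LinearMap.add_apply, LinearMap.neg_apply, LinearMap.neg_apply,
        LinearMap.compr₂_apply, LinearMap.compr₂_apply, LinearMap.compr₂_apply,
        LinearMap.sub_apply, LinearMap.sub_apply, Module.End.one_apply, sub_eq_add_neg]
      rfl
    rw [h1]
    have h2 := Submodule.finrank_mono
      (LinearMap.range_add_le (c.compr₂ (f ∘ₗ S)) (-(c.compr₂ f)))
    have h3 := Submodule.finrank_add_le_finrank_add_finrank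
      (LinearMap.range (c.compr₂ (f ∘ₗ S))) (LinearMap.range (-(c.compr₂ f)))
    rw [LinearMap.range_neg, hr f] at h3
    rw [LinearMap.range_neg] at h2
    omega
  have key : ∀ (i : ℕ) (f : Module.Dual (ZMod p) T), f ≠ 0 → ((S' - 1) ^ (i + 1)) f = 0 →
      M ≤ 2 ^ i * Module.finrank (ZMod p) (LinearMap.range (c.compr₂ f)) := by
    intro i
    induction i with
    | zero =>
      intro f hf h0
      rw [zero_add, pow_one, LinearMap.sub_apply, Module.End.one_apply, sub_eq_zero] at h0
      rw [pow_zero, one_mul]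
      exact hM f hf h0
    | succ i ih =>
      intro f hf h0
      by_cases h1 : (S' - 1) f = 0
      · rw [LinearMap.sub_apply, Module.End.one_apply, sub_eq_zero] at h1
        have h2 := hM f hf h1
        have h3 : 1 ≤ 2 ^ (i + 1) := Nat.one_le_two_pow
        nlinarith
      · rw [pow_succ, Module.End.mul_apply] at h0
        have h2 := ih _ h1 h0
        have h3 := hr2 f
        calc M ≤ 2 ^ i * Module.finrank (ZMod p)
              (LinearMap.range (c.compr₂ ((S' - 1) f))) := h2
          _ ≤ 2 ^ i * (2 * Module.finrank (ZMod p) (LinearMap.range (c.compr₂ f))) :=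
              Nat.mul_le_mul_left _ h3
          _ = _ := by ring
  refine key _ κ hκ ?_
  rw [pow_succ', hfin, mul_zero, LinearMap.zero_apply]

end D687
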