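import Pool.Agent.Lib_MP_d687bf.S11A

/-!
MP_d687bf, S11E: (11.3), the `σ`-invariant functionals.

`hat_pow`: `α̂ (v^N) c = ∑_{i<N} (v^i α̂(v))(c) = ∑_i α̂(v)(c - i ψ(v))`, and `i ↦ c - i ψ(v)` is a
bijection onto `ℤ/N`.
`corr_mem`: `cor_mem` and `last_inv`.
`exists_rel_chain`: the functional `t ↦ pair z' (sn t 0)` on `C_{V_s}^D(k)` is given by a chain `z1`
(`exists_chain`), which is `σ`-invariant, so `exists_descend` gives `z2 : Ch D`; the functional
`t ↦ pair z2 (t_old) + pair z' (sn 0 t_last)` on `C_V^{D0}(k)` is given by a chain `z : Ch D0`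
(`exists_chain`, `adm0`). (`pair_add`, `sn_eta`.)
`isClass_rel`: `h ∈ Hom(V, k)`, `ĥ` a lift (`exists_lift_sum`), `a = res V_s (ĥ (·) 0) ∈ Hom(V_s, k)`
(`zero_mem_Z1`), `corr (ev' a) = ev0 h` by `cor_ev`, `ev_res` and `hat_pow` (for `v = u_g`, `conj_pow`,
`ψ (u_g)` is a unit), so `pair z (ev0 h) = pair z' (ev' a) = 0`.
-/

set_option autoImplicit false

open Set Filter Topology

namespace D687

variable {p : ℕ} [Fact p.Prime]

private theorem S11E_sum_range {N : ℕ} [NeZero N] {M : Type} [AddCommMonoid M] (f : ZMod N → M) :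
    ∑ j ∈ Finset.range N, f (j : ZMod N) = ∑ c : ZMod N, f c := by
  refine Finset.sum_nbij' (fun i : ℕ => (i : ZMod N)) (fun s : ZMod N => s.val) ?_ ?_ ?_ ?_ ?_
  · intro i _
    exact Finset.mem_univ _
  · intro s _
    exact Finset.mem_range.2 (ZMod.val_lt s)
  · intro i hi
    rw [ZMod.val_natCast, Nat.mod_eq_of_lt (Finset.mem_range.1 hi)]
  · intro s _
    exact ZMod.natCast_zmod_val s
  · intro s _
    rfl

omit [Fact p.Prime] in
private theorem S11E_psi_one {V V' : Subgroup (FF p)} {N : ℕ} {ψ : FF p → ZMod N} {σ : FF p}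
    (h : IsCyc V V' N ψ σ) : ψ 1 = 0 := by
  have h1 := h.add 1 V.one_mem 1 V.one_mem
  rw [mul_one] at h1
  exact left_eq_add.1 h1

omit [Fact p.Prime] in
private theorem S11E_psi_pow {V V' : Subgroup (FF p)} {N : ℕ} {ψ : FF p → ZMod N} {σ : FF p}
    (h : IsCyc V V' N ψ σ) {v : FF p} (hv : v ∈ V) (n : ℕ) : ψ (v ^ n) = n * ψ v := by
  induction n with
  | zero => rw [pow_zero, S11E_psi_one h, Nat.cast_zero, zero_mul]
  | succ n ih =>
    rw [pow_succ, h.add _ (V.pow_mem hv n) _ hv, ih, Nat.cast_succ]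
    ring

private theorem S11E_pow {V V' : Subgroup (FF p)} {N : ℕ} {ψ : FF p → ZMod N} {σ : FF p}
    (h : IsCyc V V' N ψ σ) {α : FF p → ZMod N → ZMod p}
    (hα : α ∈ Z1 V (shA (triv (ZMod p) (ZMod p)) ψ)) {v : FF p} (hv : v ∈ V) (n : ℕ)
    (c : ZMod N) : α (v ^ n) c = ∑ i ∈ Finset.range n, α v (c - (i : ZMod N) * ψ v) := by
  have h1 : α 1 c = 0 := by
    have h2 := congrFun (hα.mul 1 V.one_mem 1 V.one_mem) c
    rw [mul_one] at h2
    have h3 : α 1 c = α 1 c + α 1 (c - ψ 1) := h2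
    rw [S11E_psi_one h, sub_zero] at h3
    exact left_eq_add.1 h3
  induction n with
  | zero => rw [pow_zero, h1, Finset.sum_range_zero]
  | succ n ih =>
    have h2 := congrFun (hα.mul (v ^ n) (V.pow_mem hv n) v hv) c
    have h3 : α (v ^ n * v) c = α (v ^ n) c + α v (c - ψ (v ^ n)) := h2
    rw [pow_succ, h3, ih, Finset.sum_range_succ, S11E_psi_pow h hv]

theorem hat_pow {V V' : Subgroup (FF p)} {N : ℕ} [NeZero N] {ψ : FF p → ZMod N} {σ : FF p}
    (h : IsCyc V V' N ψ σ) {α : FF p → ZMod N → ZMod p}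
    (hα : α ∈ Z1 V (shA (triv (ZMod p) (ZMod p)) ψ)) {v : FF p} (hv : v ∈ V)
    (hu : IsUnit (ψ v)) (c : ZMod N) : α (v ^ N) c = ∑ d, α v d := by
  obtain ⟨u, hu⟩ := hu
  rw [S11E_pow h hα hv, S11E_sum_range fun i : ZMod N => α v (c - i * ψ v)]
  have h1 : ∀ i : ZMod N, c - i * ψ v = (u.mulRight.trans (Equiv.subLeft c)) i := by
    intro i
    rw [Equiv.trans_apply, Equiv.subLeft_apply, Units.mulRight_apply, hu]
  simp only [h1]
  exact Equiv.sum_comp (u.mulRight.trans (Equiv.subLeft c)) fun d => α v d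

namespace Fill

variable {D : Datum p} {w : FF p} (Φ : Fill D w)

theorem isUnit_psi (s : ℕ) (g : FF p) : IsUnit (Φ.psi s (Φ.u g)) :=
  (Φ.isUnit_l g).map (PadicInt.toZModPow s)

theorem corr_mem (s : ℕ) {σ : FF p} (h : IsCyc Φ.V (Φ.Vs s) (p ^ s) (Φ.psi s) σ)
    {t : Fin (D.n + 1) → FF p → ZMod p} (ht : t ∈ Ck (Φ.Dn s) (Φ.Vs s)) :
    corr σ (p ^ s) t ∈ Ck Φ.D0 Φ.V := by
  have : NeZero (p ^ s) := ⟨pow_ne_zero _ (Fact.out : p.Prime).ne_zero⟩
  have h1 := mem_CV_snoc.1 ht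
  refine mem_CV_snoc.2 ⟨?_, ?_, ?_⟩
  · have h2 := cor_mem h (isActR_triv (D := D) (V := Φ.V) (A := ZMod p) (M := ZMod p))
      (Φ.R_le_Vs s) h1.1
    have h3 : (fun i : Fin D.n => corr σ (p ^ s) t i.castSucc) =
        cor (triv (ZMod p) (ZMod p)) σ (p ^ s) fun i => t i.castSucc := by
      funext i
      rw [corr, sn_castSucc]
    rw [h3]
    exact h2
  · intro v hv g
    rw [corr, sn_last]
    exact Φ.last_inv s (fun v hv g => h1.2.1 v hv g) h1.2.2 hv g
  · intro g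
    rw [corr, sn_last]
    exact h1.2.2 g

theorem exists_rel_chain (s : ℕ) {σ : FF p} (h : IsCyc Φ.V (Φ.Vs s) (p ^ s) (Φ.psi s) σ)
    (z' : Ch (Φ.Dn s))
    (hfix : ∀ t ∈ Ck (Φ.Dn s) (Φ.Vs s), pair z' (dot (triv (ZMod p) (ZMod p)) σ t) = pair z' t) :
    ∃ z : Ch Φ.D0, ∀ t : Fin (D.n + 1) → FF p → ZMod p, t ∈ Ck (Φ.Dn s) (Φ.Vs s) →
      pair z' t = pair z (corr σ (p ^ s) t) := by
  have : NeZero (p ^ s) := ⟨pow_ne_zero _ (Fact.out : p.Prime).ne_zero⟩
  have hact : IsActR D Φ.V (triv (ZMod p) (ZMod p)) := isActR_triv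
  -- additivity of the pairing
  have hadd : ∀ t t' : Fin (D.n + 1) → FF p → ZMod p, pair z' (t + t') = pair z' t + pair z' t' :=
    fun t t' => pair_add (D := Φ.Dn s) z' t t'
  have hsmul : ∀ (c : ZMod p) (t : Fin (D.n + 1) → FF p → ZMod p),
      pair z' (c • t) = c • pair z' t := fun c t => pair_smul (D := Φ.Dn s) c z' t
  have hsn : ∀ (t t' : Fin D.n → FF p → ZMod p) (f f' : FF p → ZMod p),
      sn (t + t') (f + f') = sn t f + sn t' f' := by
    intro t t' f f'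
    funext i
    refine Fin.lastCases ?_ (fun j => ?_) i
    · change sn (t + t') (f + f') (Fin.last D.n) = sn t f (Fin.last D.n) + sn t' f' (Fin.last D.n)
      rw [sn_last, sn_last, sn_last]
    · change sn (t + t') (f + f') j.castSucc = sn t f j.castSucc + sn t' f' j.castSucc
      rw [sn_castSucc, sn_castSucc, sn_castSucc]
      rfl
  have hsn2 : ∀ (c : ZMod p) (t : Fin D.n → FF p → ZMod p) (f : FF p → ZMod p),
      sn (c • t) (c • f) = c • sn t f := by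
    intro c t f
    funext i
    refine Fin.lastCases ?_ (fun j => ?_) i
    · change sn (c • t) (c • f) (Fin.last D.n) = c • sn t f (Fin.last D.n)
      rw [sn_last, sn_last]
    · change sn (c • t) (c • f) j.castSucc = c • sn t f j.castSucc
      rw [sn_castSucc, sn_castSucc]
      rfl
  -- old relators
  have hmem0 : ∀ t : Fin D.n → FF p → ZMod p, t ∈ Ck D (Φ.Vs s) →
      sn t 0 ∈ Ck (Φ.Dn s) (Φ.Vs s) := by
    intro t ht
    refine mem_CV_snoc.2 ⟨?_, ?_, ?_⟩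
    · have h1 : (fun i : Fin D.n => sn t (0 : FF p → ZMod p) i.castSucc) = t := by
        funext i
        rw [sn_castSucc]
      rw [h1]
      exact ht
    · intro v _ g
      rw [sn_last]
      rfl
    · intro g
      rw [sn_last]
      rfl
  let κ1 : Ck D (Φ.Vs s) →ₗ[ZMod p] ZMod p :=
    { toFun := fun t => pair z' (sn (t : Fin D.n → FF p → ZMod p) 0)
      map_add' := fun t t' => by
        rw [← hadd, ← hsn, add_zero]
        rfl
      map_smul' := fun c t => by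
        rw [RingHom.id_apply, ← hsmul, ← hsn2, smul_zero]
        rfl }
  obtain ⟨z1, hz1⟩ := exists_chain (Φ.adm_Vs s) κ1
  have hz1' : ∀ t : Fin D.n → FF p → ZMod p, t ∈ Ck D (Φ.Vs s) →
      pair z1 t = pair z' (sn t 0) := fun t ht => hz1 ⟨t, ht⟩
  have hσ : ∀ t ∈ Ck D (Φ.Vs s), pair z1 (dot (triv (ZMod p) (ZMod p)) σ t) = pair z1 t := by
    intro t ht
    have h1 : dot (triv (ZMod p) (ZMod p)) σ t ∈ Ck D (Φ.Vs s) :=
      dot_mem h (fun g _ h' _ => rfl) h.mem ht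
    rw [hz1' _ h1, hz1' _ ht, ← hfix _ (hmem0 t ht)]
    congr 1
    funext i
    refine Fin.lastCases ?_ (fun j => ?_) i
    · rw [sn_last]
      funext g
      change (0 : ZMod p) = sn t (0 : FF p → ZMod p) (Fin.last D.n) (σ⁻¹ * g)
      rw [sn_last]
      rfl
    · rw [sn_castSucc]
      funext g
      change t j (σ⁻¹ * g) = sn t (0 : FF p → ZMod p) j.castSucc (σ⁻¹ * g)
      rw [sn_castSucc]
  obtain ⟨z2, hz2⟩ := exists_descend h Φ.adm (Φ.R_le_Vs s) z1 hσ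
  -- the joined functional
  let κ : Ck Φ.D0 Φ.V →ₗ[ZMod p] ZMod p :=
    { toFun := fun t => pair z2 (fun i => t.1 i.castSucc) +
        pair z' (sn 0 (t.1 (Fin.last D.n)))
      map_add' := fun t t' => by
        have h1 : sn (0 : Fin D.n → FF p → ZMod p)
            ((t + t').1 (Fin.last D.n)) =
            sn 0 (t.1 (Fin.last D.n)) +
            sn 0 (t'.1 (Fin.last D.n)) := by
          rw [← hsn, add_zero]
          rfl
        have h2 : pair z2 (fun i => (t + t').1 i.castSucc) = pair z2 (fun i => t.1 i.castSucc) +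
            pair z2 (fun i => t'.1 i.castSucc) := by
          rw [← pair_add]
          rfl
        rw [h1, h2, hadd]
        ring
      map_smul' := fun c t => by
        have h1 : sn (0 : Fin D.n → FF p → ZMod p)
            ((c • t).1 (Fin.last D.n)) =
            c • sn 0 (t.1 (Fin.last D.n)) := by
          rw [← hsn2, smul_zero]
          rfl
        have h2 : pair z2 (fun i => (c • t).1 i.castSucc) =
            c • pair z2 (fun i => t.1 i.castSucc) := by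
          rw [← pair_smul]
          rfl
        rw [h1, h2, hsmul, RingHom.id_apply, smul_add] }
  obtain ⟨z, hz⟩ := exists_chain Φ.adm0 κ
  refine ⟨z, fun t ht => ?_⟩
  have h1 := hz ⟨corr σ (p ^ s) t, Φ.corr_mem s h ht⟩
  have h2 : κ ⟨corr σ (p ^ s) t, Φ.corr_mem s h ht⟩ =
      pair z2 (fun i => corr σ (p ^ s) t i.castSucc) +
        pair z' (sn 0 (corr σ (p ^ s) t (Fin.last D.n))) := rfl
  have h3 : (fun i : Fin D.n => corr σ (p ^ s) t i.castSucc) =
      cor (triv (ZMod p) (ZMod p)) σ (p ^ s) fun i => t i.castSucc := by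
    funext i
    rw [corr, sn_castSucc]
  have h4 : corr σ (p ^ s) t (Fin.last D.n) = t (Fin.last D.n) := by
    rw [corr, sn_last]
  have h5 := (mem_CV_snoc.1 ht).1
  rw [h3, h4, ← hz2 _ h5, hz1' _ h5, ← hadd, ← hsn, add_zero, zero_add, sn_eta] at h2
  rw [← h2]
  exact h1.symm

theorem isClass_rel (s : ℕ) {σ : FF p} (h : IsCyc Φ.V (Φ.Vs s) (p ^ s) (Φ.psi s) σ)
    (z' : Ch (Φ.Dn s)) (hz' : IsClass (Φ.Vs s) z') (z : Ch Φ.D0)
    (hz : ∀ t : Fin (D.n + 1) → FF p → ZMod p, t ∈ Ck (Φ.Dn s) (Φ.Vs s) →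
      pair z' t = pair z (corr σ (p ^ s) t)) : IsClass Φ.V z := by
  have : NeZero (p ^ s) := ⟨pow_ne_zero _ (Fact.out : p.Prime).ne_zero⟩
  have hact : IsActR D Φ.V (triv (ZMod p) (ZMod p)) := isActR_triv
  intro f hf
  obtain ⟨α, hα, hsum⟩ := exists_lift_sum h hact.toIsAct hf
  have ha := zero_mem_Z1 h hα
  have hev : ev (Φ.Dn s) (res (Φ.Vs s) fun x => α x 0) ∈ Ck (Φ.Dn s) (Φ.Vs s) :=
    _root_.D687.ev_mem (Φ.admN s).hR isActR_triv ha
  have hmain : corr σ (p ^ s) (ev (Φ.Dn s) (res (Φ.Vs s) fun x => α x 0)) = ev Φ.D0 f := by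
    rw [ev_snoc, ev_snoc]
    unfold corr
    funext i
    refine Fin.lastCases ?_ (fun j => ?_) i
    · rw [sn_last, sn_last, sn_last]
      funext g
      have h1 : g * w ^ (p ^ (Φ.o + s)) * g⁻¹ ∈ Φ.Vs s :=
        (Φ.admN s).hR (snoc_w_mem D w (Φ.o + s) g)
      have h2 : res (Φ.Vs s) (fun x => α x 0) (g * w ^ (p ^ (Φ.o + s)) * g⁻¹) =
          α (g * w ^ (p ^ (Φ.o + s)) * g⁻¹) 0 := Set.indicator_of_mem h1 _
      rw [h2, Φ.conj_pow, hat_pow h hα (Φ.u_mem g) (Φ.isUnit_psi s g), hsum]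
      rfl
    · rw [sn_castSucc, sn_castSucc]
      have h1 := cor_ev h hact (Φ.R_le_Vs s) hα
      have h2 : (fun x => ∑ c : ZMod (p ^ s), α x c) = f := funext hsum
      rw [h2] at h1
      rw [← h1]
      congr 2
      funext i
      rw [sn_castSucc]
  have h3 := hz _ hev
  rw [hmain] at h3
  rw [← h3]
  exact hz' _ ha

/-- (11.3) -/
theorem exists_rel (s : ℕ) {σ : FF p} (h : IsCyc Φ.V (Φ.Vs s) (p ^ s) (Φ.psi s) σ)
    (κ : Module.Dual (ZMod p) (TV (Φ.Dn s) (Φ.Vs s)))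
    (hfix : ∀ t t' : Ck (Φ.Dn s) (Φ.Vs s), t'.1 = dot (triv (ZMod p) (ZMod p)) σ t.1 →
      κ (Submodule.Quotient.mk t') = κ (Submodule.Quotient.mk t)) (hne : κ ≠ 0) :
    ∃ z : Ch Φ.D0, IsClass Φ.V z ∧ NonZ Φ.V z ∧ ∀ t : Ck (Φ.Dn s) (Φ.Vs s),
      κ (Submodule.Quotient.mk t) = pair z (corr (n := D.n) σ (p ^ s) t.1) := by
  obtain ⟨z', hz', hκ, hnz⟩ := exists_class (Φ.admN s) κ
  have hfix' : ∀ t ∈ Ck (Φ.Dn s) (Φ.Vs s),
      pair z' (dot (triv (ZMod p) (ZMod p)) σ t) = pair z' t := by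
    intro t ht
    have h1 : dot (triv (ZMod p) (ZMod p)) σ t ∈ Ck (Φ.Dn s) (Φ.Vs s) :=
      dot_mem h (fun g _ h' _ => rfl) h.mem ht
    have h2 := hfix ⟨t, ht⟩ ⟨_, h1⟩ rfl
    rw [hκ, hκ] at h2
    exact h2
  obtain ⟨z, hz⟩ := Φ.exists_rel_chain s h z' hfix'
  refine ⟨z, Φ.isClass_rel s h z' hz' z hz, ?_, fun t => ?_⟩
  · obtain ⟨t, ht, hne2⟩ := hnz hne
    refine ⟨corr σ (p ^ s) t, Φ.corr_mem s h ht, ?_⟩
    rw [← hz t ht]
    exact hne2
  · rw [hκ]
    exact hz t.1 t.2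

end Fill

end D687
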