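import Pool.Agent.Lib_MP_d687bf.S11A
import Pool.Agent.Lib_MP_d687bf.Cs
import Pool.Agent.Lib_MP_d687bf.HomFin

/-!
MP_d687bf, S11F: (11.5), `dim H' ≥ p^s - const`.

`cs_mem_HHn`: `cs_mem_HH` gives the vanishing at the old relators. New relator: `α` at `u_g^(p^s)`,
`N = p^s`, is `∑_{i<N} χ^i α(u_g)` (`Z1_pow`), `χ = t^(l' u_g)`; `(χ - 1) ∑_{i<N} χ^i = χ^N - 1`,
`X^(p^s) ∣ χ^N - 1` (`dvd_tpow_sub_one`), `χ - 1 = X * unit` (`tpow_sub_one_eq`), so
`X^(p^s - 1) ∣ ∑ χ^i` and `X^(p^s) ∣ α (u_g^N)` as `X ∣ α(u_g)`; `cs_of_dvd`.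
`exists_dim`: `f ↦ a_f = res V_s (cs s ∘ (X f α0)) ∈ H'` is linear in `f ∈ k[[T]]`. If `a_f = 0` then
(evaluate at `y^n v0 y^(-n)`, `y ∈ V`, `l y = 1` (`exists_tau`), an element of `V_s` since `l v0 = 0`;
`α0 (y^n v0 y^(-n)) = t^n α0(v0)` by `Z1_conj`, as `χ(v0) = 1`) `cs s ((1+X)^n X f α0(v0)) = 0` for all `n`, so
`X^(p^s) ∣ X f α0(v0)` (`dvd_of_cs`), so `X^(p^s - 1 - ord α0(v0)) ∣ f`. So the map is injective on
polynomials of degree `< p^s - 1 - ord`; `c0 = 1 + ord α0(v0)`. (`finite_HH`.)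
-/

set_option autoImplicit false

open Set Filter Topology

namespace D687

namespace Fill

variable {p : ℕ} [Fact p.Prime] {D : Datum p} {w : FF p} (Φ : Fill D w)

private theorem S11F_tpow_mul (y : ℤ_[p]) (n : ℕ) : tpow ((n : ℤ_[p]) * y) = tpow y ^ n := by
  induction n with
  | zero => simp [tpow_zero]
  | succ n ih => rw [Nat.cast_succ, add_mul, one_mul, tpow_add, ih, pow_succ]

private theorem S11F_pos (s : ℕ) : 0 < p ^ s := pow_pos (Fact.out : p.Prime).pos s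

private theorem S11F_geom (s : ℕ) (y : ℤ_[p]) (hy : IsUnit y) :
    (PowerSeries.X : K1 p) ^ (p ^ s - 1) ∣ ∑ i ∈ Finset.range (p ^ s), tpow y ^ i := by
  obtain ⟨w', hw', h1⟩ := tpow_sub_one_eq 0 y hy
  rw [pow_zero, one_mul, pow_zero, pow_one] at h1
  have h2 : (PowerSeries.X : K1 p) ^ (p ^ s) ∣ tpow ((p : ℤ_[p]) ^ s * y) - 1 :=
    (dvd_tpow_sub_one s _).2 (dvd_mul_right _ _)
  have h3 : tpow ((p : ℤ_[p]) ^ s * y) = tpow y ^ (p ^ s) := by
    rw [← S11F_tpow_mul]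
    push_cast
    rfl
  have h4 : (PowerSeries.X : K1 p) ^ (p ^ s) = PowerSeries.X * PowerSeries.X ^ (p ^ s - 1) := by
    rw [← pow_succ', Nat.sub_add_cancel (S11F_pos s)]
  rw [h3, ← mul_geom_sum, h1, h4, mul_assoc, mul_dvd_mul_iff_left PowerSeries.X_ne_zero,
    hw'.dvd_mul_left] at h2
  exact h2

private theorem S11F_scal {χ : FF p → K1 p} (g : FF p) (x : K1 p) : scal χ g x = χ g * x := rfl

/-- the value at a power -/
private theorem S11F_pow {V : Subgroup (FF p)} {l' : FF p → ℤ_[p]} (hl' : IsX D V l')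
    {α : FF p → K1 p} (hα : α ∈ Z1 V (scal (chr l'))) {v : FF p} (hv : v ∈ V) (n : ℕ) :
    α (v ^ n) = (∑ i ∈ Finset.range n, tpow (l' v) ^ i) * α v := by
  have hact : IsAct V (scal (chr l')) := (hl'.isChar_chr.isActR).toIsAct
  rw [Z1_pow hact hα hv n, Finset.sum_mul]
  refine Finset.sum_congr rfl fun i _ => ?_
  rw [S11F_scal]
  unfold chr
  rw [hl'.pow_eq hv, S11F_tpow_mul]

/-- a conjugate of an element of the kernel of `l` -/
private theorem S11F_conj {V : Subgroup (FF p)} {l : FF p → ℤ_[p]} (hl : IsX D V l)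
    {α : FF p → K1 p} (hα : α ∈ Z1 V (scal (chr l))) {τ v : FF p} (hτ : τ ∈ V) (hτ1 : l τ = 1)
    (hv : v ∈ V) (hv0 : l v = 0) (n : ℕ) :
    l (τ ^ n * v * (τ ^ n)⁻¹) = 0 ∧
      α (τ ^ n * v * (τ ^ n)⁻¹) = (1 + PowerSeries.X) ^ n * α v := by
  have hact : IsAct V (scal (chr l)) := (hl.isChar_chr.isActR).toIsAct
  have hτn : τ ^ n ∈ V := V.pow_mem hτ n
  have h1 : l (τ ^ n * v * (τ ^ n)⁻¹) = 0 := by
    rw [hl.add _ (V.mul_mem hτn hv) _ (V.inv_mem hτn), hl.add _ hτn _ hv, hl.inv_eq hτn, hv0]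
    ring
  refine ⟨h1, ?_⟩
  rw [Z1_conj hact hα hτn hv, S11F_scal, S11F_scal]
  unfold chr
  rw [h1, tpow_zero, one_mul, hl.pow_eq hτ, hτ1, mul_one, tpow_nat]
  ring

theorem cs_mem_HHn (s : ℕ) {l' : FF p → ℤ_[p]} (hl' : IsX D Φ.V l')
    (hW : ∀ v, v ∈ Φ.Vs s ↔ v ∈ Φ.V ∧ (p : ℤ_[p]) ^ s ∣ l' v)
    (hu : ∀ g, IsUnit (l' (Φ.u g))) {α : FF p → K1 p} (hα : α ∈ ZR D Φ.V (scal (chr l')))
    (hX : ∀ g, (PowerSeries.X : K1 p) ∣ α (Φ.u g)) :
    res (Φ.Vs s) (fun x => cs s (α x)) ∈ HH (Φ.Dn s) (Φ.Vs s) := by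
  have h0 := cs_mem_HH Φ.adm.isOpen Φ.adm.hR hl' hW hα
  rw [mem_ZR_iff_ev] at h0 ⊢
  refine ⟨h0.1, ?_⟩
  rw [ev_snoc]
  funext i
  refine Fin.lastCases ?_ (fun j => ?_) i
  · rw [sn_last]
    funext g
    show res (Φ.Vs s) (fun x => cs s (α x)) (g * w ^ (p ^ (Φ.o + s)) * g⁻¹) = 0
    rw [Φ.conj_pow]
    have hαZ : α ∈ Z1 Φ.V (scal (chr l')) := (mem_ZR_iff_ev.1 hα).1
    have h1 : cs s (α (Φ.u g ^ (p ^ s))) = 0 := by
      apply cs_of_dvd
      rw [S11F_pow hl' hαZ (Φ.u_mem g)]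
      have h4 : (PowerSeries.X : K1 p) ^ (p ^ s) = PowerSeries.X ^ (p ^ s - 1) * PowerSeries.X := by
        rw [← pow_succ, Nat.sub_add_cancel (S11F_pos s)]
      rw [h4]
      exact mul_dvd_mul (S11F_geom s _ (hu g)) (hX g)
    unfold res
    by_cases hm : Φ.u g ^ (p ^ s) ∈ (Φ.Vs s : Set (FF p))
    · rw [Set.indicator_of_mem hm]
      exact h1
    · rw [Set.indicator_of_notMem hm]
  · rw [sn_castSucc, h0.2]
    rfl

theorem exists_dim : ∃ c0 : ℕ, ∀ s : ℕ,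
    p ^ s ≤ Module.finrank (ZMod p) (HH (Φ.Dn s) (Φ.Vs s)) + c0 := by
  classical
  obtain ⟨τ, hτ, hτ1⟩ := Φ.exists_tau
  -- the order of `α0 v0`
  have hex : ∃ j, PowerSeries.coeff j (Φ.α0 Φ.v0) ≠ 0 := by
    by_contra hcon
    push Not at hcon
    exact Φ.α0_ne (PowerSeries.ext hcon)
  set m0 : ℕ := Nat.find hex with hm0
  have hm1 : PowerSeries.coeff m0 (Φ.α0 Φ.v0) ≠ 0 := Nat.find_spec hex
  have hm2 : ∀ j < m0, PowerSeries.coeff j (Φ.α0 Φ.v0) = 0 := by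
    intro j hj
    have := Nat.find_min hex hj
    push Not at this
    exact this
  obtain ⟨w', hw'⟩ := PowerSeries.X_pow_dvd_iff.2 hm2
  have hwu : IsUnit w' := by
    rw [PowerSeries.isUnit_iff_constantCoeff, isUnit_iff_ne_zero]
    intro h
    apply hm1
    rw [hw', PowerSeries.coeff_X_pow_mul', if_pos le_rfl, Nat.sub_self,
      PowerSeries.coeff_zero_eq_constantCoeff_apply, h]
  have hαZ : Φ.α0 ∈ Z1 Φ.V (scal (chr Φ.l)) := (mem_ZR_iff_ev.1 Φ.α0_mem).1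
  refine ⟨1 + m0, fun s => ?_⟩
  by_cases hs : p ^ s ≤ 1 + m0
  · omega
  push Not at hs
  obtain ⟨n, hn⟩ : ∃ n, p ^ s = 1 + m0 + n := ⟨p ^ s - (1 + m0), by omega⟩
  -- the map
  have hmem : ∀ f : K1 p, res (Φ.Vs s) (fun x => cs s (PowerSeries.X * f * Φ.α0 x)) ∈
      HH (Φ.Dn s) (Φ.Vs s) := by
    intro f
    have h1 : ((PowerSeries.X * f : K1 p) • Φ.α0) ∈ ZR D Φ.V (scal (chr Φ.l)) :=
      Submodule.smul_mem _ _ Φ.α0_mem
    exact Φ.cs_mem_HHn s Φ.isX (Φ.mem_Vs s) Φ.isUnit_l h1 fun g =>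
      Dvd.dvd.mul_right (dvd_mul_right _ _) _
  let G : K1 p →ₗ[ZMod p] HH (Φ.Dn s) (Φ.Vs s) :=
    { toFun := fun f => ⟨res (Φ.Vs s) (fun x => cs s (PowerSeries.X * f * Φ.α0 x)), hmem f⟩
      map_add' := by
        intro f g
        refine Subtype.ext ?_
        show res (Φ.Vs s) (fun x => cs s (PowerSeries.X * (f + g) * Φ.α0 x)) =
          res (Φ.Vs s) (fun x => cs s (PowerSeries.X * f * Φ.α0 x)) +
          res (Φ.Vs s) (fun x => cs s (PowerSeries.X * g * Φ.α0 x))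
        unfold res
        rw [← Set.indicator_add']
        congr 1
        funext x
        show cs s (PowerSeries.X * (f + g) * Φ.α0 x) = cs s (PowerSeries.X * f * Φ.α0 x) +
          cs s (PowerSeries.X * g * Φ.α0 x)
        rw [← cs_add]
        congr 1
        ring
      map_smul' := by
        intro c f
        refine Subtype.ext ?_
        show res (Φ.Vs s) (fun x => cs s (PowerSeries.X * (c • f) * Φ.α0 x)) =
          c • res (Φ.Vs s) (fun x => cs s (PowerSeries.X * f * Φ.α0 x))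
        unfold res
        funext x
        rw [Pi.smul_apply]
        by_cases hx : x ∈ (Φ.Vs s : Set (FF p))
        · rw [Set.indicator_of_mem hx, Set.indicator_of_mem hx, mul_smul_comm, smul_mul_assoc,
            cs_smul, smul_eq_mul]
        · rw [Set.indicator_of_notMem hx, Set.indicator_of_notMem hx, smul_zero] }
  have hG : ∀ f, G f = 0 → (PowerSeries.X : K1 p) ^ n ∣ f := by
    intro f hf
    have h1 : ∀ x ∈ Φ.Vs s, cs s (PowerSeries.X * f * Φ.α0 x) = 0 := by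
      intro x hx
      have h2 : res (Φ.Vs s) (fun x => cs s (PowerSeries.X * f * Φ.α0 x)) = 0 :=
        congrArg Subtype.val hf
      have h3 := congrFun h2 x
      unfold res at h3
      rw [Set.indicator_of_mem (show x ∈ (Φ.Vs s : Set (FF p)) from hx)] at h3
      exact h3
    have h2 : (PowerSeries.X : K1 p) ^ (p ^ s) ∣ PowerSeries.X * f * Φ.α0 Φ.v0 := by
      apply dvd_of_cs
      intro k
      obtain ⟨e1, e2⟩ := S11F_conj Φ.isX hαZ hτ hτ1 Φ.v0_mem Φ.v0_l k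
      have hmemV : τ ^ k * Φ.v0 * (τ ^ k)⁻¹ ∈ Φ.Vs s := by
        rw [Φ.mem_Vs, e1]
        exact ⟨Φ.V.mul_mem (Φ.V.mul_mem (Φ.V.pow_mem hτ k) Φ.v0_mem)
          (Φ.V.inv_mem (Φ.V.pow_mem hτ k)), dvd_zero _⟩
      have e3 := h1 _ hmemV
      rw [e2] at e3
      rw [← e3]
      congr 1
      ring
    have h3 : PowerSeries.X * f * Φ.α0 Φ.v0 = PowerSeries.X ^ (1 + m0) * (w' * f) := by
      rw [hw', pow_add, pow_one]
      ring
    have h4 : (PowerSeries.X : K1 p) ^ (p ^ s) = PowerSeries.X ^ (1 + m0) * PowerSeries.X ^ n := by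
      rw [hn, pow_add]
    rw [h3, h4, mul_dvd_mul_iff_left (pow_ne_zero _ PowerSeries.X_ne_zero), hwu.dvd_mul_left] at h2
    exact h2
  -- polynomials
  let P : (Fin n → ZMod p) →ₗ[ZMod p] K1 p :=
    { toFun := fun c => PowerSeries.mk fun j => if h : j < n then c ⟨j, h⟩ else 0
      map_add' := by
        intro c c'
        ext j
        rw [map_add, PowerSeries.coeff_mk, PowerSeries.coeff_mk, PowerSeries.coeff_mk]
        by_cases h : j < n
        · simp only [dif_pos h, Pi.add_apply]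
        · simp only [dif_neg h, add_zero]
      map_smul' := by
        intro a c
        ext j
        rw [RingHom.id_apply, PowerSeries.coeff_smul, PowerSeries.coeff_mk, PowerSeries.coeff_mk]
        by_cases h : j < n
        · simp only [dif_pos h, Pi.smul_apply, smul_eq_mul]
        · simp only [dif_neg h, smul_zero] }
  have hinj : Function.Injective (G.comp P) := by
    rw [← LinearMap.ker_eq_bot, LinearMap.ker_eq_bot']
    intro c hc
    have h1 := hG (P c) hc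
    rw [PowerSeries.X_pow_dvd_iff] at h1
    funext i
    have h2 := h1 i.1 i.2
    have h3 : PowerSeries.coeff i.1 (P c) = c i := by
      show PowerSeries.coeff i.1 (PowerSeries.mk fun j => if h : j < n then c ⟨j, h⟩ else 0) = c i
      rw [PowerSeries.coeff_mk, dif_pos i.2]
    rw [← h3, h2]
    rfl
  have hfin : Module.Finite (ZMod p) (HH (Φ.Dn s) (Φ.Vs s)) := finite_HH _ _ (Φ.isOpen_Vs s)
  have h5 := LinearMap.finrank_le_finrank_of_injective hinj
  rw [Module.finrank_fin_fun] at h5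
  omega

end Fill

end D687
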