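import Pool.Agent.Lib_MP_d687bf.Cs

/-!
MP_d687bf, section 11.4: the rank of a bilinear form with `q (a_f, b_h) = c_s (f h B)` is at least
`p ^ s - ord B`.
-/

set_option autoImplicit false

open Set Filter Topology

namespace D687

variable {p : ℕ} [Fact p.Prime]

/-- `q (a_f, b_h) = c_s (f h B)` implies `rk q ≥ p ^ s - ord B`. -/
theorem S11_rank {E : Type} [AddCommGroup E] [Module (ZMod p) E] [Module.Finite (ZMod p) E]
    (q : E →ₗ[ZMod p] E →ₗ[ZMod p] ZMod p) (s w : ℕ) (B : K1 p)
    (hB : ¬ (PowerSeries.X : K1 p) ^ (w + 1) ∣ B) (a b : K1 p → E)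
    (h : ∀ f g : K1 p, q (a f) (b g) = cs s (f * g * B)) :
    p ^ s - w ≤ Module.finrank (ZMod p) (LinearMap.range q) := by
  classical
  -- the family `q (a_{T^i})`, `i < p^s - w`, is linearly independent
  have hsum : ∀ (I : Finset (Fin (p ^ s - w))) (f : Fin (p ^ s - w) → K1 p),
      cs s (∑ i ∈ I, f i) = ∑ i ∈ I, cs s (f i) := by
    intro I f
    induction I using Finset.induction_on with
    | empty => simp only [Finset.sum_empty, cs_zero]
    | insert i I hi ih => rw [Finset.sum_insert hi, Finset.sum_insert hi, cs_add, ih]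
  have hli : LinearIndependent (ZMod p) (fun i : Fin (p ^ s - w) =>
      (⟨q (a (PowerSeries.X ^ (i : ℕ))), LinearMap.mem_range_self q _⟩ : LinearMap.range q)) := by
    rw [Fintype.linearIndependent_iff]
    intro c hc
    have h1 : ∑ i, c i • q (a (PowerSeries.X ^ (i : ℕ))) = 0 := by
      have h2 := congrArg (Submodule.subtype (LinearMap.range q)) hc
      rw [map_sum, map_zero] at h2
      simpa using h2
    set P : K1 p := ∑ i : Fin (p ^ s - w), c i • (PowerSeries.X : K1 p) ^ (i : ℕ) with hP
    have h3 : ∀ g : K1 p, cs s (g * (P * B)) = 0 := by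
      intro g
      have h4 := LinearMap.congr_fun h1 (b g)
      rw [LinearMap.sum_apply, LinearMap.zero_apply] at h4
      have h5 : g * (P * B) = ∑ i : Fin (p ^ s - w),
          c i • ((PowerSeries.X : K1 p) ^ (i : ℕ) * g * B) := by
        rw [hP, Finset.sum_mul, Finset.mul_sum]
        refine Finset.sum_congr rfl fun i _ => ?_
        rw [smul_mul_assoc, mul_smul_comm]
        congr 1
        ring
      rw [h5, hsum, ← h4]
      refine Finset.sum_congr rfl fun i _ => ?_
      rw [cs_smul, LinearMap.smul_apply, h, smul_eq_mul]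
    have h6 : (PowerSeries.X : K1 p) ^ (p ^ s) ∣ P * B := dvd_of_cs' s _ h3
    -- all coefficients of `P` below `p^s - w` vanish
    have h7 : ∀ i < p ^ s - w, PowerSeries.coeff i P = 0 := by
      intro i
      by_contra hcon
      push Not at hcon
      obtain ⟨hi, hi0⟩ := hcon
      have hP0 : P ≠ 0 := fun h0 => hi0 (by rw [h0, map_zero])
      have hB0 : B ≠ 0 := fun h0 => hB (by rw [h0]; exact dvd_zero _)
      have e1 : P.order ≤ (i : ℕ∞) := PowerSeries.order_le i hi0
      have e2 : B.order ≤ (w : ℕ∞) := by
        by_contra hcon2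
        push Not at hcon2
        apply hB
        rw [PowerSeries.X_pow_dvd_iff]
        intro m hm
        apply PowerSeries.coeff_of_lt_order
        exact lt_of_le_of_lt (by exact_mod_cast Nat.lt_succ_iff.1 hm) hcon2
      have e3 : (p ^ s : ℕ∞) ≤ (P * B).order := by
        rw [PowerSeries.X_pow_dvd_iff] at h6
        have := PowerSeries.nat_le_order (P * B) (p ^ s) (fun j hj => h6 j hj)
        exact_mod_cast this
      rw [PowerSeries.order_mul] at e3
      have e4 : P.order + B.order ≤ ((i + w : ℕ) : ℕ∞) := by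
        push_cast
        exact add_le_add e1 e2
      have e5 : ((p ^ s : ℕ) : ℕ∞) ≤ ((i + w : ℕ) : ℕ∞) := by
        refine le_trans ?_ e4
        exact_mod_cast e3
      have e6 : p ^ s ≤ i + w := by exact_mod_cast e5
      omega
    intro i
    have h8 := h7 i i.2
    rw [hP, map_sum, Finset.sum_eq_single i] at h8
    · rw [PowerSeries.coeff_smul, PowerSeries.coeff_X_pow_self, smul_eq_mul, mul_one] at h8
      exact h8
    · intro j _ hji
      rw [PowerSeries.coeff_smul, PowerSeries.coeff_X_pow, if_neg, smul_zero]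
      intro e
      exact hji (Fin.ext e.symm)
    · intro hi
      exact absurd (Finset.mem_univ i) hi
  have := hli.fintype_card_le_finrank
  rwa [Fintype.card_fin] at this

end D687
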