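import Pool.Agent.Lib_MP_d687bf.S11Id
import Pool.Agent.Lib_MP_d687bf.S11RkLem
import Pool.Agent.Lib_MP_d687bf.S11Defs
import Pool.Agent.Lib_MP_d687bf.HomFin

/-!
MP_d687bf, S11Rank: (11.4), the rank of the cup form of a `τ`-fixed class on `V_s`.
-/

set_option autoImplicit false

open Set Filter Topology

namespace D687

noncomputable section

variable {p : ℕ} [Fact p.Prime] {D : Datum p} {w : FF p}

/-- The values at powers of `v` of a crossed homomorphism with `α v = (t^(l v) - 1) m`. -/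
private theorem S11Rank_pow {V : Subgroup (FF p)} {l : FF p → ℤ_[p]} (hl : IsX D V l) {α : FF p → K1 p}
    (hα : α ∈ Z1 V (scal (chr l))) {v : FF p} (hv : v ∈ V) {m : K1 p}
    (hm : α v = (tpow (l v) - 1) * m) (k : ℕ) :
    α (v ^ k) = (tpow ((k : ℤ_[p]) * l v) - 1) * m := by
  have hact : IsActR D V (scal (chr l) : FF p → K1 p →ₗ[K1 p] K1 p) := hl.isChar_chr.isActR
  induction k with
  | zero => rw [pow_zero, Z1_one hact.toIsAct hα, Nat.cast_zero, zero_mul, tpow_zero, sub_self,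
      zero_mul]
  | succ k ih =>
    have h1 : α (v ^ k * v) = α (v ^ k) + tpow (l (v ^ k)) * α v :=
      hα.mul _ (V.pow_mem hv k) _ hv
    rw [pow_succ, h1, ih, hm, hl.pow_eq hv k]
    have h2 : tpow (((k + 1 : ℕ) : ℤ_[p]) * l v) = tpow ((k : ℤ_[p]) * l v) * tpow (l v) := by
      rw [← tpow_add]
      congr 1
      push_cast
      ring
    rw [h2]
    ring

private theorem S11Rank_cs_pow {V : Subgroup (FF p)} {l : FF p → ℤ_[p]} (hl : IsX D V l) {α : FF p → K1 p}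
    (hα : α ∈ Z1 V (scal (chr l))) {v : FF p} (hv : v ∈ V) {m : K1 p}
    (hm : α v = (tpow (l v) - 1) * m) (s : ℕ) : cs s (α (v ^ (p ^ s))) = 0 := by
  rw [S11Rank_pow hl hα hv hm]
  apply cs_of_dvd
  refine Dvd.dvd.mul_right ?_ _
  rw [dvd_tpow_sub_one, Nat.cast_pow]
  exact Dvd.intro _ rfl

/-- A unit `z` of `ℤ_p`: `t^z - 1` is associated to `T`. -/
private theorem S11Rank_assoc {z : ℤ_[p]} (hz : IsUnit z) :
    ∃ y : K1 p, IsUnit y ∧ tpow z - 1 = PowerSeries.X * y := by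
  have h1 : (PowerSeries.X : K1 p) ∣ tpow z - 1 := by
    rw [PowerSeries.X_dvd_iff, map_sub, constantCoeff_tpow, map_one, sub_self]
  obtain ⟨y, hy⟩ := h1
  refine ⟨y, ?_, hy⟩
  rw [PowerSeries.isUnit_iff_constantCoeff]
  have h2 : PowerSeries.coeff 1 (tpow z - 1) = PadicInt.toZMod z := by
    rw [map_sub, coeff_one_tpow, PowerSeries.coeff_one, if_neg one_ne_zero, sub_zero]
  rw [hy, show (1 : ℕ) = 0 + 1 from rfl, PowerSeries.coeff_succ_X_mul,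
    PowerSeries.coeff_zero_eq_constantCoeff_apply] at h2
  rw [h2]
  exact hz.map PadicInt.toZMod

namespace Fill

variable (Φ : Fill D w)

private theorem S11Rank_u_mem (g : FF p) : Φ.u g ∈ Φ.V := by
  have h1 : w ^ (p ^ Φ.o) ∈ Φ.V := by
    have := (Φ.mem ((p ^ Φ.o : ℕ) : ℤ)).2 (dvd_refl _)
    rwa [zpow_natCast] at this
  exact Φ.normal.conj_mem _ h1 g

private theorem S11Rank_isUnit_l_u (g : FF p) : IsUnit (Φ.l (Φ.u g)) := by
  by_contra h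
  have h1 : Φ.l (Φ.u g) ∈ nonunits ℤ_[p] := h
  rw [← IsLocalRing.mem_maximalIdeal, PadicInt.maximalIdeal_eq_span_p,
    Ideal.mem_span_singleton] at h1
  obtain ⟨y, hy⟩ := h1
  have h2 := Φ.one g
  change PadicInt.toZMod (Φ.l (Φ.u g)) = 1 at h2
  rw [hy, map_mul, map_natCast, ZMod.natCast_self, zero_mul] at h2
  exact zero_ne_one h2

private theorem S11Rank_u_pow (s : ℕ) (g : FF p) : g * w ^ (p ^ (Φ.o + s)) * g⁻¹ = Φ.u g ^ (p ^ s) := by
  unfold Fill.u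
  rw [conj_pow, ← pow_mul, ← pow_add]

/-- `c_s ∘ α` is a homomorphism `V_s / R' → k`. -/
private theorem S11Rank_cs_mem_HH_Dn (s : ℕ) {l : FF p → ℤ_[p]} (hl : IsX D Φ.V l)
    (hW : ∀ v, v ∈ Φ.Vs s ↔ v ∈ Φ.V ∧ (p : ℤ_[p]) ^ s ∣ l v) {α : FF p → K1 p}
    (hα : α ∈ ZR D Φ.V (scal (chr l)))
    (hm : ∀ g, ∃ m : K1 p, α (Φ.u g) = (tpow (l (Φ.u g)) - 1) * m) :
    res (Φ.Vs s) (fun x => cs s (α x)) ∈ HH (Φ.Dn s) (Φ.Vs s) := by
  have h1 := cs_mem_HH Φ.adm.isOpen Φ.adm.hR hl hW hα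
  obtain ⟨h2, h3⟩ := mem_ZR_iff_ev.1 h1
  rw [mem_ZR_iff_ev]
  refine ⟨h2, ?_⟩
  rw [ev_snoc, h3]
  funext i
  refine Fin.lastCases ?_ (fun j => ?_) i
  · rw [sn_last]
    funext g
    show (res (Φ.Vs s) fun x => cs s (α x)) (g * w ^ (p ^ (Φ.o + s)) * g⁻¹) = 0
    rw [Φ.S11Rank_u_pow]
    have h4 : Φ.u g ^ (p ^ s) ∈ Φ.Vs s := by
      rw [hW]
      refine ⟨Φ.V.pow_mem (Φ.S11Rank_u_mem g) _, ?_⟩
      rw [hl.pow_eq (Φ.S11Rank_u_mem g), Nat.cast_pow]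
      exact Dvd.intro _ rfl
    obtain ⟨m, hm⟩ := hm g
    rw [show (res (Φ.Vs s) fun x => cs s (α x)) (Φ.u g ^ (p ^ s)) = cs s (α (Φ.u g ^ (p ^ s)))
      from Set.indicator_of_mem (s := (Φ.Vs s : Set (FF p))) h4 _]
    exact S11Rank_cs_pow hl hα.1 (Φ.S11Rank_u_mem g) hm s
  · rw [sn_castSucc]
    rfl

private theorem S11Rank_dvd_mem_Vs (s : ℕ) {l' : FF p → ℤ_[p]} (h : ∀ v, l' v = -Φ.l v) (v : FF p) :
    v ∈ Φ.Vs s ↔ v ∈ Φ.V ∧ (p : ℤ_[p]) ^ s ∣ l' v := by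
  rw [Φ.mem_Vs, h, dvd_neg]

/-- `c_s` commutes with the pairing. -/
private theorem S11Rank_pair_cs {D : Datum p} (z : Ch D) (s : ℕ) (t : Fin D.n → FF p → K1 p) :
    pair z (fun i g => cs s (t i g)) = cs s (pair z t) :=
  pair_map (AddMonoidHom.mk' (cs s) (cs_add s)) z t

/-- The value of a class on the transfer, for one pair of cocycles. -/
private theorem S11Rank_value_fixed (z : Ch Φ.D0) (hz : IsClass Φ.V z) {α β F m : FF p → K1 p}
    (hT : IsTest D Φ.V w Φ.o Φ.l z α β F m) (s : ℕ) (σ : FF p)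
    (hcyc : IsCyc Φ.V (Φ.Vs s) (p ^ s) (Φ.psi s) σ) (f h : K1 p) :
    ∃ G : FF p → ZMod p, IsF (Φ.Vs s) 1 (res (Φ.Vs s) fun x => cs s ((f • α) x))
        (res (Φ.Vs s) fun x => cs s ((h • β) x)) G ∧
      pair z (corr σ (p ^ s) (ev (Φ.Dn s) G)) = cs s (f * h * pair z (tF D w Φ.o β F m)) := by
  have hα' : f • α ∈ ZR D Φ.V (scal (chr Φ.l)) := Submodule.smul_mem _ _ hT.hα
  have hβ' : h • β ∈ ZR D Φ.V (scal (chr (-Φ.l))) := Submodule.smul_mem _ _ hT.hβ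
  have hF' : IsF Φ.V (chr (-Φ.l)) (f • α) (h • β) (h • (f • F)) :=
    (hT.hF.smul_left f).smul_right h
  obtain ⟨f0, G, h1, h2, h3, h4⟩ := S11_core Φ.adm.isOpen Φ.adm.hR Φ.isX (Φ.isOpen_Vs s)
    (Φ.R_le_Vs s) (Φ.mem_Vs s) hcyc hα' hβ' hF'
  refine ⟨f0, h1, ?_⟩
  have h5 : ∀ g, f0 (Φ.u g ^ (p ^ s)) = G (Φ.u g) + cs s (f * h * (m g * β (Φ.u g))) := by
    intro g
    rw [h4 (Φ.u g) (Φ.S11Rank_u_mem g) (Φ.S11Rank_isUnit_l_u g) (f * m g) ?_ ?_]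
    · congr 2
      show f * m g * (h * β (Φ.u g)) = _
      ring
    · have h6 := hT.hm g
      show f * α (Φ.u g) = _
      have h7 : (tpow (Φ.l (Φ.u g)) - 1) * m g = α (Φ.u g) := h6
      rw [← h7]
      ring
    · show PowerSeries.constantCoeff (h * β (Φ.u g)) = 0
      have h6 : PowerSeries.constantCoeff (β (Φ.u g)) = 0 := PowerSeries.X_dvd_iff.1 (hT.hβX g)
      rw [map_mul, h6, mul_zero]
  -- the homomorphism `G - c_s ∘ F'`
  set η : FF p → ZMod p := G - fun x => cs s ((h • (f • F)) x) with hη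
  have h6 : pair z (ev Φ.D0 η) = 0 := hz η h2
  have h7 : ∀ x, G x = η x + cs s (f * h * F x) := by
    intro x
    rw [hη]
    show G x = (G x - cs s (h * (f * F x))) + cs s (f * h * F x)
    rw [show h * (f * F x) = f * h * F x by ring]
    ring
  let e1 : Fin Φ.D0.n → FF p → ZMod p := ev Φ.D0 η
  let t0 : Fin Φ.D0.n → FF p → K1 p := tF D w Φ.o β F m
  let e2 : Fin Φ.D0.n → FF p → ZMod p := fun i g => cs s (((f * h) • t0) i g)
  have hev : (ev (Φ.Dn s) f0 : Fin (D.n + 1) → FF p → ZMod p) =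
      sn (ev D f0) fun g => f0 (g * w ^ (p ^ (Φ.o + s)) * g⁻¹) := ev_snoc D w (Φ.o + s) f0
  have hL : ∀ g, corr (n := D.n) σ (p ^ s) (ev (Φ.Dn s) f0) (Fin.last D.n) g =
      f0 (Φ.u g ^ (p ^ s)) := by
    intro g
    rw [hev]
    unfold corr
    rw [sn_last, sn_last, Φ.S11Rank_u_pow]
  have hLj : ∀ j g, corr (n := D.n) σ (p ^ s) (ev (Φ.Dn s) f0) (Fin.castSucc j) g =
      ev D G j g := by
    intro j g
    rw [hev]
    unfold corr
    rw [sn_castSucc]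
    have h12 : (fun i => sn (ev D f0) (fun g => f0 (g * w ^ (p ^ (Φ.o + s)) * g⁻¹))
        (Fin.castSucc i)) = ev D f0 := by
      funext i
      rw [sn_castSucc]
    rw [h12]
    exact congrFun (congrFun h3 j) g
  have hE : ∀ g, e1 (Fin.last D.n) g = η (Φ.u g) := by
    intro g
    have h12 := congrFun (congrFun (ev_snoc D w Φ.o η) (Fin.last D.n)) g
    rw [sn_last] at h12
    exact h12
  have hEj : ∀ j g, e1 (Fin.castSucc j) g = ev D η j g := by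
    intro j g
    have h12 := congrFun (congrFun (ev_snoc D w Φ.o η) (Fin.castSucc j)) g
    rw [sn_castSucc] at h12
    exact h12
  have hTl : ∀ g, t0 (Fin.last D.n) g = F (Φ.u g) + m g * β (Φ.u g) := by
    intro g
    show tF D w Φ.o β F m (Fin.last D.n) g = _
    unfold tF
    rw [sn_last]
    rfl
  have hTj : ∀ j g, t0 (Fin.castSucc j) g = ev D F j g := by
    intro j g
    show tF D w Φ.o β F m (Fin.castSucc j) g = _
    unfold tF
    rw [sn_castSucc]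
  have h8 : corr (n := D.n) σ (p ^ s) (ev (Φ.Dn s) f0) = e1 + e2 := by
    funext i
    refine Fin.lastCases ?_ (fun j => ?_) i
    · funext g
      show corr (n := D.n) σ (p ^ s) (ev (Φ.Dn s) f0) (Fin.last D.n) g =
        e1 (Fin.last D.n) g + cs s (f * h * t0 (Fin.last D.n) g)
      rw [hL, hE, hTl, h5, h7, mul_add, cs_add]
      ring
    · funext g
      show corr (n := D.n) σ (p ^ s) (ev (Φ.Dn s) f0) (Fin.castSucc j) g =
        e1 (Fin.castSucc j) g + cs s (f * h * t0 (Fin.castSucc j) g)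
      rw [hLj, hEj, hTj]
      exact h7 _
  have h9 : pair z (e1 + e2) = pair z e1 + pair z e2 := pair_add z e1 e2
  rw [h8, h9]
  have h10 : pair z e1 = 0 := h6
  have h11 : pair z e2 = cs s (pair z ((f * h) • t0)) := S11Rank_pair_cs z s _
  have h12 : pair z ((f * h) • t0) = (f * h) • pair z t0 := pair_smul _ z t0
  rw [h10, zero_add, h11, h12, smul_eq_mul]

/-- (11.4): the rank of the cup form of a `τ`-fixed class on `V_s` is at least `p ^ s - w0`. -/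
theorem rank_fixed (z : Ch Φ.D0) (hz : IsClass Φ.V z) (hnz : NonZ Φ.V z) :
    ∃ w0 : ℕ, ∀ (s : ℕ) (σ : FF p), IsCyc Φ.V (Φ.Vs s) (p ^ s) (Φ.psi s) σ →
      ∀ c, IsCup (Φ.Dn s) (Φ.Vs s) c →
        ∀ κ : Module.Dual (ZMod p) (TV (Φ.Dn s) (Φ.Vs s)),
          (∀ t : Ck (Φ.Dn s) (Φ.Vs s), κ (Submodule.Quotient.mk t) =
            pair z (corr (n := D.n) σ (p ^ s) (t : Fin (Φ.Dn s).n → FF p → ZMod p))) →
          p ^ s ≤ Module.finrank (ZMod p) (LinearMap.range (c.compr₂ κ)) + w0 := by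
  obtain ⟨α, β, F, m, hT⟩ := Φ.test z hz hnz
  set B : K1 p := pair z (tF D w Φ.o β F m) with hB
  have hB0 : B ≠ 0 := hT.ne
  obtain ⟨w0, hw0⟩ : ∃ w0 : ℕ, ¬ (PowerSeries.X : K1 p) ^ (w0 + 1) ∣ B := by
    by_contra hcon
    push Not at hcon
    apply hB0
    ext n
    exact (PowerSeries.X_pow_dvd_iff.1 (hcon n)) n (Nat.lt_succ_self n)
  refine ⟨w0, fun s σ hcyc c hc κ hκ => ?_⟩
  have hfin := finite_HH (Φ.Dn s) (Φ.Vs s) (Φ.isOpen_Vs s)
  -- the cocycles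
  have ha : ∀ f : K1 p, res (Φ.Vs s) (fun x => cs s ((f • α) x)) ∈ HH (Φ.Dn s) (Φ.Vs s) := by
    intro f
    refine Φ.S11Rank_cs_mem_HH_Dn s Φ.isX (Φ.mem_Vs s) (Submodule.smul_mem _ _ hT.hα) fun g => ?_
    refine ⟨f * m g, ?_⟩
    have h7 : (tpow (Φ.l (Φ.u g)) - 1) * m g = α (Φ.u g) := hT.hm g
    show f * α (Φ.u g) = _
    rw [← h7]
    ring
  have hb : ∀ h : K1 p, res (Φ.Vs s) (fun x => cs s ((h • β) x)) ∈ HH (Φ.Dn s) (Φ.Vs s) := by
    intro h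
    refine Φ.S11Rank_cs_mem_HH_Dn s Φ.isX.neg (Φ.S11Rank_dvd_mem_Vs s fun v => rfl)
      (Submodule.smul_mem _ _ hT.hβ) fun g => ?_
    obtain ⟨y, hy, hy2⟩ := S11Rank_assoc (p := p) (Φ.S11Rank_isUnit_l_u g).neg
    obtain ⟨q, hq⟩ := hT.hβX g
    obtain ⟨y', hy'⟩ := hy
    refine ⟨h * (((y'⁻¹ : (K1 p)ˣ) : K1 p) * q), ?_⟩
    show h * β (Φ.u g) = (tpow (-(Φ.l (Φ.u g))) - 1) * _
    have hq' : β (Φ.u g) = PowerSeries.X * q := hq
    rw [hy2, hq', ← hy']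
    have h9 : (y' : K1 p) * ((y'⁻¹ : (K1 p)ˣ) : K1 p) = 1 := Units.mul_inv y'
    linear_combination (-(PowerSeries.X * h * q) : K1 p) * h9
  have key : ∀ f h : K1 p, (c.compr₂ κ) ⟨_, ha f⟩ ⟨_, hb h⟩ = cs s (f * h * B) := by
    intro f h
    obtain ⟨G, h1, h2⟩ := Φ.S11Rank_value_fixed z hz hT s σ hcyc f h
    obtain ⟨h3, h4⟩ := hc ⟨_, ha f⟩ ⟨_, hb h⟩ G h1
    rw [LinearMap.compr₂_apply, h4, hκ]
    exact h2
  have := S11_rank (c.compr₂ κ) s w0 B hw0 (fun f => ⟨_, ha f⟩) (fun h => ⟨_, hb h⟩) key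
  omega

end Fill

end

end D687
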