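import Pool.Agent.Lib_MP_d687bf.S11B
import Pool.Agent.Lib_MP_d687bf.S11C
import Pool.Agent.Lib_MP_d687bf.S11D
import Pool.Agent.Lib_MP_d687bf.S11E
import Pool.Agent.Lib_MP_d687bf.S11F
import Pool.Agent.Lib_MP_d687bf.S11Rank
import Pool.Agent.Lib_MP_d687bf.S10H

/-!
MP_d687bf, S11Main: (11.1), the theorem on Dehn filling.
-/

set_option autoImplicit false

open Set Filter Topology

namespace D687

namespace Fill

variable {p : ℕ} [Fact p.Prime] {D : Datum p} {w : FF p} (Φ : Fill D w)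

/-- The rank of the `σ`-invariant functionals, uniformly. -/
theorem exists_rank_fixed : ∃ W : ℕ, ∀ (s : ℕ) (σ : FF p),
    IsCyc Φ.V (Φ.Vs s) (p ^ s) (Φ.psi s) σ →
      ∀ c : HH (Φ.Dn s) (Φ.Vs s) →ₗ[ZMod p] HH (Φ.Dn s) (Φ.Vs s) →ₗ[ZMod p]
        TV (Φ.Dn s) (Φ.Vs s), IsCup (Φ.Dn s) (Φ.Vs s) c →
      ∀ κ : Module.Dual (ZMod p) (TV (Φ.Dn s) (Φ.Vs s)), κ ≠ 0 →
        (∀ t t' : Ck (Φ.Dn s) (Φ.Vs s), t'.1 = dot (triv (ZMod p) (ZMod p)) σ t.1 →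
          κ (Submodule.Quotient.mk t') = κ (Submodule.Quotient.mk t)) →
        p ^ s ≤ Module.finrank (ZMod p) (LinearMap.range (c.compr₂ κ)) + W := by
  classical
  have hadm := Φ.adm0
  have hfin : Module.Finite (ZMod p) (TV Φ.D0 Φ.V) := finite_TV hadm
  have hF : Finite (Module.Dual (ZMod p) (TV Φ.D0 Φ.V)) := Module.finite_of_finite (ZMod p)
  have hFt : Fintype (Module.Dual (ZMod p) (TV Φ.D0 Φ.V)) := Fintype.ofFinite _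
  have h1 : ∀ κ0 : Module.Dual (ZMod p) (TV Φ.D0 Φ.V), ∃ (z : Ch Φ.D0) (w0 : ℕ),
      (∀ t : Ck Φ.D0 Φ.V, κ0 (Submodule.Quotient.mk t) = pair z t.1) ∧
      (κ0 ≠ 0 → ∀ (s : ℕ) (σ : FF p), IsCyc Φ.V (Φ.Vs s) (p ^ s) (Φ.psi s) σ →
        ∀ c : HH (Φ.Dn s) (Φ.Vs s) →ₗ[ZMod p] HH (Φ.Dn s) (Φ.Vs s) →ₗ[ZMod p]
          TV (Φ.Dn s) (Φ.Vs s), IsCup (Φ.Dn s) (Φ.Vs s) c →
        ∀ κ : Module.Dual (ZMod p) (TV (Φ.Dn s) (Φ.Vs s)),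
          (∀ t : Ck (Φ.Dn s) (Φ.Vs s), κ (Submodule.Quotient.mk t) =
            pair z (corr (n := D.n) σ (p ^ s) t.1)) →
          p ^ s ≤ Module.finrank (ZMod p) (LinearMap.range (c.compr₂ κ)) + w0) := by
    intro κ0
    obtain ⟨z, hz, hz1, hz2⟩ := exists_class hadm κ0
    by_cases h0 : κ0 = 0
    · exact ⟨z, 0, hz1, fun h => absurd h0 h⟩
    · obtain ⟨w0, hw0⟩ := Φ.rank_fixed z hz (hz2 h0)
      exact ⟨z, w0, hz1, fun _ => hw0⟩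
  choose zz ww hzz hww using h1
  refine ⟨Finset.univ.sup ww, fun s σ hσ c hc κ hne hfix => ?_⟩
  obtain ⟨z, hz, hnz, hκ⟩ := Φ.exists_rel s hσ κ hfix hne
  obtain ⟨κ0, h2, h3⟩ := hz.exists_dual hadm
  have h4 := hww κ0 (h3 hnz) s σ hσ c hc κ (fun t => by
    have h5 := Φ.corr_mem s hσ t.2
    rw [hκ t]
    exact (h2 ⟨_, h5⟩).symm.trans (hzz κ0 ⟨_, h5⟩))
  have h5 : ww κ0 ≤ Finset.univ.sup ww := Finset.le_sup (Finset.mem_univ κ0)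
  omega

theorem BR_Dn : ∃ s0 : ℕ, ∀ s, s0 ≤ s → BR (Φ.Dn s) := by
  obtain ⟨B, hB⟩ := Φ.exists_bound
  obtain ⟨c0, hc0⟩ := Φ.exists_dim
  obtain ⟨W, hW⟩ := Φ.exists_rank_fixed
  obtain ⟨τ, hτ, hτ1⟩ := Φ.exists_tau
  refine ⟨B + 4 + c0 + 2 ^ B * (4 * B + 1) + W, fun s hs => ?_⟩
  have hps : s < p ^ s := Nat.lt_pow_self (Fact.out : p.Prime).one_lt
  have hadm := Φ.admN s
  have hcyc := Φ.isCyc s hτ hτ1
  have hfinT : Module.Finite (ZMod p) (TV (Φ.Dn s) (Φ.Vs s)) := finite_TV hadm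
  have hfinH : Module.Finite (ZMod p) (HH (Φ.Dn s) (Φ.Vs s)) := finite_HH _ _ hadm.isOpen
  obtain ⟨c, hc⟩ := exists_cup hadm
  have hb := hB s
  refine ⟨Φ.Vs s, hadm, c, hc, ?_, fun κ hκ => ?_⟩
  · have := hc0 s
    omega
  · obtain ⟨T, hT1, hT2, hT3⟩ := exists_tauT hadm (Φ.Vs_conj s hτ) hcyc.pow_mem hc
    have hM : ∀ κ : Module.Dual (ZMod p) (TV (Φ.Dn s) (Φ.Vs s)), κ ≠ 0 → κ ∘ₗ T = κ →
        p ^ s - W ≤ Module.finrank (ZMod p) (LinearMap.range (c.compr₂ κ)) := by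
      intro κ hκ hfix
      have h1 := hW s τ hcyc c hc κ hκ (by
        intro t t' htt
        have h2 := hT1 t
        have h3 : t' = ⟨dot (triv (ZMod p) (ZMod p)) τ t.1, dot_mem_Ck (Φ.Vs_conj s hτ) t.2⟩ :=
          Subtype.ext htt
        rw [h3, ← h2]
        exact LinearMap.congr_fun hfix _)
      omega
    have h4 := rank_le_pow c T s hT2 hT3 (p ^ s - W) hM κ hκ
    have h5 : Module.finrank (ZMod p) (TV (Φ.Dn s) (Φ.Vs s)) ≤ B := hb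
    have h6 : 2 ^ (Module.finrank (ZMod p) (TV (Φ.Dn s) (Φ.Vs s))) ≤ 2 ^ B :=
      Nat.pow_le_pow_right (by norm_num) h5
    have h7 : 2 ^ B * (4 * B + 1) ≤ 2 ^ B *
        Module.finrank (ZMod p) (LinearMap.range (c.compr₂ κ)) := by
      refine le_trans ?_ (h4.trans (Nat.mul_le_mul_right _ h6))
      omega
    have h8 : 4 * B + 1 ≤ Module.finrank (ZMod p) (LinearMap.range (c.compr₂ κ)) :=
      Nat.le_of_mul_le_mul_left h7 (by positivity)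
    omega

end Fill

theorem BR_snoc_of_sys {p : ℕ} [Fact p.Prime] (hp2 : p ≠ 2) (D : Datum p) (S : Sys D) (w : FF p)
    (hinf : ∀ e : ℕ, 0 < e → w ^ e ∉ D.R) (hprim : ∀ g : FF p, g ^ p * w⁻¹ ∉ D.R) :
    ∃ b0 : ℕ, ∀ b, b0 ≤ b → BR (D.snoc w b) := by
  obtain ⟨Φ⟩ := exists_Fill hp2 S w hinf (fun g hg => hprim g (by
    have h1 := D.R.inv_mem hg
    rw [mul_inv_rev, inv_inv] at h1
    exact h1))
  obtain ⟨s0, hs0⟩ := Φ.BR_Dn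
  refine ⟨Φ.o + s0, fun b hb => ?_⟩
  obtain ⟨s, rfl⟩ : ∃ s, b = Φ.o + s := ⟨b - Φ.o, by omega⟩
  exact hs0 s (by omega)

end D687
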