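import Pool.Agent.Lib_MP_d687bf.Asm
import Pool.Agent.Lib_MP_d687bf.S11Main

/-!
MP_d687bf: the final statement.
-/

set_option autoImplicit false

namespace D687

theorem BR_snoc {p : ℕ} [Fact p.Prime] (hp : p ≠ 2) (D : Datum p) (hD : BR D) (ω : FF p)
    (hinf : ∀ e : ℕ, 0 < e → ω ^ e ∉ D.R) (hprim : ∀ g : FF p, g ^ p * ω⁻¹ ∉ D.R) :
    ∃ b0 : ℕ, ∀ b, b0 ≤ b → BR (D.snoc ω b) := by
  obtain ⟨S⟩ := exists_sys hD
  exact BR_snoc_of_sys hp D S ω hinf hprim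

/-- The statement S03200. -/
theorem final :
    ¬ (∀ (D : Type) [DivisionRing D] (n : ℕ) (G : Subgroup (Matrix (Fin n) (Fin n) D)ˣ),
      (∀ g ∈ G, IsOfFinOrder g) →
      ∀ S : Finset (Matrix (Fin n) (Fin n) D)ˣ,
        (S : Set (Matrix (Fin n) (Fin n) D)ˣ) ⊆ (G : Set (Matrix (Fin n) (Fin n) D)ˣ) →
        ((Subgroup.closure (S : Set (Matrix (Fin n) (Fin n) D)ˣ) :
            Subgroup (Matrix (Fin n) (Fin n) D)ˣ) : Set (Matrix (Fin n) (Fin n) D)ˣ).Finite) :=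
  S03200_of_snoc (fun D hD ω hinf hprim => BR_snoc (p := 3) (by norm_num) D hD ω hinf hprim)

end D687
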