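import Pool.Agent.Lib_MP_d687bf.ItFacts

/-!
MP_d687bf, section 12: the iteration.
-/

set_option autoImplicit false
set_option linter.unusedSectionVars false
set_option linter.style.haveILetI false

open Set Filter Topology

namespace D687

variable {p : ℕ} [Fact p.Prime]

theorem Ext.refl (D : Datum p) : Ext D D := ⟨id, fun _ => ⟨rfl, rfl⟩⟩

theorem Ext.trans {D D' D'' : Datum p} (h : Ext D D') (h' : Ext D' D'') : Ext D D'' := by
  obtain ⟨f, hf⟩ := h
  obtain ⟨g, hg⟩ := h'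
  exact ⟨g ∘ f, fun i => ⟨(hg (f i)).1.trans (hf i).1, (hg (f i)).2.trans (hf i).2⟩⟩

theorem Ext.R_le {D D' : Datum p} (h : Ext D D') : D.R ≤ D'.R := by
  obtain ⟨f, hf⟩ := h
  unfold Datum.R
  refine Subgroup.topologicalClosure_mono (Subgroup.normalClosure_mono ?_)
  rintro _ ⟨i, rfl⟩
  exact ⟨f i, by simp only [Datum.r, (hf i).1, (hf i).2]⟩

theorem Ext.adm {D D' : Datum p} (h : Ext D D') {V : Subgroup (FF p)} (hV : Adm D' V) :
    Adm D V := by
  have hR := h.R_le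
  obtain ⟨f, hf⟩ := h
  refine ⟨hV.isOpen, hR.trans hV.hR, fun g i j hj => ?_⟩
  have := hV.free g (f i) j
  rw [(hf i).1, (hf i).2] at this
  exact this hj

theorem Ext.big {D D' : Datum p} (h : Ext D D') {x : FF p} {B : ℕ} (hx : Big D x B) :
    Big D' x B := fun V hV m hm hx' => hx V (h.adm hV) m hm hx'

theorem Ext.pos {D D' : Datum p} (h : Ext D D') (hn : 0 < D.n) : 0 < D'.n := by
  obtain ⟨f, -⟩ := h
  have := (f ⟨0, hn⟩).2
  omega

theorem q_ext_snoc (D : Datum p) (w : FF p) (b : ℕ) : Ext D (D.snoc w b) :=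
  ⟨Fin.castSucc, fun i => ⟨by simp [Datum.snoc], by simp [Datum.snoc]⟩⟩

theorem q_snoc_mem (D : Datum p) (w : FF p) (b : ℕ) : w ^ (p ^ b) ∈ (D.snoc w b).R := by
  have := r_mem_R (D.snoc w b) (Fin.last D.n) 1
  simpa [Datum.r, Datum.snoc] using this

theorem q_snoc_free (D : Datum p) (w : FF p) (b : ℕ) {V : Subgroup (FF p)}
    (hV : Adm (D.snoc w b) V) (m : ℕ) (h : w ^ m ∈ V) : p ^ b ∣ m := by
  have := hV.free 1 (Fin.last D.n) m (by simpa [Datum.snoc] using h)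
  simp only [Datum.snoc, Fin.snoc_last] at this
  exact_mod_cast this

/-! ### Elementary facts on `X(V)` -/

theorem IsX.qOne {D : Datum p} {V : Subgroup (FF p)} {l : FF p → ℤ_[p]} (hl : IsX D V l) :
    l 1 = 0 := hl.triv 1 D.R.one_mem

theorem IsX.qPow {D : Datum p} {V : Subgroup (FF p)} {l : FF p → ℤ_[p]} (hl : IsX D V l)
    {v : FF p} (hv : v ∈ V) (n : ℕ) : l (v ^ n) = n * l v := by
  induction n with
  | zero => simp [hl.qOne]
  | succ n ih => rw [pow_succ, hl.add _ (V.pow_mem hv n) v hv, ih]; push_cast; ring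

theorem IsX.qCongr {D : Datum p} {V : Subgroup (FF p)} {l : FF p → ℤ_[p]} (hl : IsX D V l)
    (hR : D.R ≤ V) {v w : FF p} (hv : v ∈ V) (h : w * v⁻¹ ∈ D.R) : l w = l v := by
  have e : w = (w * v⁻¹) * v := by group
  rw [e, hl.add _ (hR h) _ hv, hl.triv _ h, zero_add]

theorem IsX.qMono {D : Datum p} {V V' : Subgroup (FF p)} {l : FF p → ℤ_[p]} (hl : IsX D V l)
    (h : V' ≤ V) : IsX D V' l :=
  ⟨hl.cont.mono h, fun g hg k hk => hl.add g (h hg) k (h hk), hl.triv⟩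

theorem IsX.qConj {D : Datum p} {V : Subgroup (FF p)} (hV : V.Normal) {l : FF p → ℤ_[p]}
    (hl : IsX D V l) (g : FF p) : IsX D V (fun x => l (g * x * g⁻¹)) := by
  refine ⟨?_, fun x hx y hy => ?_, fun x hx => ?_⟩
  · refine hl.cont.comp (Continuous.continuousOn (by fun_prop)) ?_
    intro x hx
    exact hV.conj_mem x hx g
  · have e : g * (x * y) * g⁻¹ = (g * x * g⁻¹) * (g * y * g⁻¹) := by group
    show l (g * (x * y) * g⁻¹) = _
    rw [e, hl.add _ (hV.conj_mem x hx g) _ (hV.conj_mem y hy g)]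
  · exact hl.triv _ ((normal_R D).conj_mem x hx g)

theorem q_lev_le (D : Datum p) (V : Subgroup (FF p)) (m : ℕ) : lev D V m ≤ V := fun _ hx => hx.1

theorem q_normal_lev (D : Datum p) (V : Subgroup (FF p)) (hV : V.Normal) (m : ℕ) :
    (lev D V m).Normal := by
  refine ⟨fun v hv g => ⟨hV.conj_mem v hv.1 g, fun l hl => ?_⟩⟩
  exact hv.2 _ (hl.qConj hV g)

theorem q_R_le_lev (D : Datum p) (V : Subgroup (FF p)) (hR : D.R ≤ V) (m : ℕ) :
    D.R ≤ lev D V m := fun x hx => ⟨hR hx, fun l hl => by rw [hl.triv x hx]; exact dvd_zero _⟩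

theorem q_tower_succ_le (D : Datum p) (V : Subgroup (FF p)) (j : ℕ) :
    tower D V (j + 1) ≤ tower D V j := q_lev_le _ _ _

theorem q_tower_anti (D : Datum p) (V : Subgroup (FF p)) : Antitone (tower D V) :=
  antitone_nat_of_succ_le (q_tower_succ_le D V)

theorem q_tower_le (D : Datum p) (V : Subgroup (FF p)) (j : ℕ) : tower D V j ≤ V :=
  q_tower_anti D V (Nat.zero_le j)

theorem q_normal_tower (D : Datum p) (V : Subgroup (FF p)) (hV : V.Normal) (j : ℕ) :
    (tower D V j).Normal := by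
  induction j with
  | zero => exact hV
  | succ j ih => exact q_normal_lev D _ ih 1

theorem q_R_le_tower (D : Datum p) (V : Subgroup (FF p)) (hR : D.R ≤ V) (j : ℕ) :
    D.R ≤ tower D V j := by
  induction j with
  | zero => exact hR
  | succ j ih => exact q_R_le_lev D _ ih 1

/-! ### Roots -/

theorem q_mem_R_iff (D : Datum p) [D.R.Normal] (a b : FF p) :
    a * b⁻¹ ∈ D.R ↔ (a : FF p ⧸ D.R) = (b : FF p ⧸ D.R) := by
  rw [QuotientGroup.eq_iff_div_mem, div_eq_mul_inv]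

theorem exists_maxpow (P : ℕ → Prop) (h0 : P 0) (m0 : ℕ) (hm0 : ¬ P m0) : ∃ m, P m ∧ ¬ P (m + 1) := by
  by_contra hcon
  push Not at hcon
  exact hm0 (Nat.rec h0 (fun m hm => hcon m hm) m0)

/-- An element of infinite order modulo `R` has a power on which some `λ ∈ X(Y)`, `Y` open
normal, does not vanish. -/
theorem exists_nonvanish (H : Facts p) (D : Datum p) (hD : BR D) (x : FF p) (hx : Inf D x) :
    ∃ (Y : Subgroup (FF p)) (l : FF p → ℤ_[p]) (M : ℕ), Y.Normal ∧ D.R ≤ Y ∧ IsX D Y l ∧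
      (∀ g : FF p, g ^ M ∈ Y) ∧ l (x ^ M) ≠ 0 := by
  obtain ⟨S⟩ := H.sys D hD
  haveI hRn := normal_R D
  have hVo := isOpen_core S.V1 S.adm.isOpen
  have hVR : D.R ≤ S.V1.normalCore := (Subgroup.normal_le_normalCore).mpr S.adm.hR
  have hVle : S.V1.normalCore ≤ S.V1 := Subgroup.normalCore_le _
  have hVn : S.V1.normalCore.Normal := inferInstance
  generalize S.V1.normalCore = V at *
  obtain ⟨c, hc⟩ := index_open V hVo
  have hp := (Fact.out : p.Prime).pos
  have hxR : x ^ V.index ∉ D.R := hx _ (by rw [hc]; positivity)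
  have hxV : x ^ V.index ∈ V := Subgroup.pow_index_mem V x
  obtain ⟨j0, hj0⟩ : ∃ j, x ^ V.index ∉ tower D V j := by
    by_contra hcon
    push Not at hcon
    exact hxR (H.inter D S V hVo hVR hVle _ hcon)
  obtain ⟨j, hj, hj'⟩ := exists_maxpow (fun j => x ^ V.index ∈ tower D V j) hxV j0 hj0
  have hYo : IsOpen (tower D V j : Set (FF p)) := H.tower_isOpen D V hVo hVR j
  obtain ⟨l, hl, hdvd⟩ : ∃ l : FF p → ℤ_[p], IsX D (tower D V j) l ∧
      ¬ (p : ℤ_[p]) ^ 1 ∣ l (x ^ V.index) := by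
    by_contra hcon
    push Not at hcon
    exact hj' ⟨hj, hcon⟩
  have hYn := q_normal_tower D V hVn j
  have hYR := q_R_le_tower D V hVR j
  obtain ⟨c', hc'⟩ := index_open _ hYo
  have hne : l (x ^ V.index) ≠ 0 := fun h => hdvd (by rw [h]; exact dvd_zero _)
  refine ⟨tower D V j, l, V.index * (tower D V j).index, hYn, hYR, hl, fun g => ?_, ?_⟩
  · rw [mul_comm, pow_mul]
    exact Subgroup.pow_mem _ (Subgroup.pow_index_mem _ g) _
  · rw [pow_mul, hl.qPow hj, hc']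
    refine mul_ne_zero ?_ hne
    push_cast
    exact pow_ne_zero _ (by exact_mod_cast hp.ne')

/-- Every element of infinite order modulo `R` is, modulo `R`, a `p ^ m`-th power of an element
which is not a `p`-th power. -/
theorem exists_root (H : Facts p) (D : Datum p) (hD : BR D) (x : FF p) (hx : Inf D x) :
    ∃ (m : ℕ) (ω : FF p), ω ^ (p ^ m) * x⁻¹ ∈ D.R ∧ Inf D ω ∧
      ∀ g : FF p, g ^ p * ω⁻¹ ∉ D.R := by
  haveI hRn := normal_R D
  obtain ⟨Y, l, M, hYn, hRY, hl, hM, hne⟩ := exists_nonvanish H D hD x hx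
  have hfin : FiniteMultiplicity (p : ℤ_[p]) (l (x ^ M)) :=
    FiniteMultiplicity.of_not_isUnit (PadicInt.prime_p.not_isUnit) hne
  obtain ⟨m0, hm0⟩ := hfin
  have key : ∀ m (g : FF p), g ^ (p ^ m) * x⁻¹ ∈ D.R → (p : ℤ_[p]) ^ m ∣ l (x ^ M) := by
    intro m g hg
    have h1 : (x ^ M) * (g ^ (M * p ^ m))⁻¹ ∈ D.R := by
      rw [q_mem_R_iff] at hg ⊢
      simp only [QuotientGroup.mk_pow] at hg ⊢
      rw [← hg, ← pow_mul, mul_comm]
    rw [hl.qCongr hRY (by rw [pow_mul]; exact Y.pow_mem (hM g) _) h1, pow_mul, hl.qPow (hM g)]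
    push_cast
    exact Dvd.intro _ rfl
  obtain ⟨m, ⟨ω, hω⟩, hm'⟩ := exists_maxpow (fun m => ∃ g : FF p, g ^ (p ^ m) * x⁻¹ ∈ D.R)
    ⟨x, by simp⟩ (m0 + 1) (fun ⟨g, hg⟩ => hm0 (key _ g hg))
  refine ⟨m, ω, hω, fun n hn hR => ?_, fun g hg => hm' ⟨g, ?_⟩⟩
  · apply hx n hn
    rw [q_mem_R_iff] at hω
    have h1 : ((x ^ n : FF p) : FF p ⧸ D.R) = 1 := by
      have h2 : ((ω ^ n : FF p) : FF p ⧸ D.R) = 1 := (QuotientGroup.eq_one_iff _).mpr hR
      simp only [QuotientGroup.mk_pow] at h2 hω ⊢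
      rw [← hω, ← pow_mul, mul_comm, pow_mul, h2, one_pow]
    exact (QuotientGroup.eq_one_iff _).mp h1
  · rw [q_mem_R_iff] at hω hg ⊢
    simp only [QuotientGroup.mk_pow] at hω hg ⊢
    rw [← hω, ← hg, ← pow_mul, pow_succ, mul_comm]

/-! ### One step -/

theorem it_step (H : Facts p) (D : Datum p) (hD : BR D) (x : FF p) (K : ℕ) :
    ∃ D' : Datum p, BR D' ∧ Ext D D' ∧ (∃ e, 0 < e ∧ x ^ e ∈ D'.R) ∧
      (D' = D ∨ (0 < D'.n ∧ Big D' x K)) := by
  haveI hRn := normal_R D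
  by_cases hx : Inf D x
  · obtain ⟨m, ω, hω, hinf, hpow⟩ := exists_root H D hD x hx
    obtain ⟨b0, hb0⟩ := H.snoc D hD ω hinf hpow
    have hp := (Fact.out : p.Prime)
    have hE := q_ext_snoc D ω (b0 + (m + K))
    refine ⟨D.snoc ω (b0 + (m + K)), hb0 _ (by omega), hE, ⟨p ^ (b0 + K), by have := hp.pos; positivity, ?_⟩,
      Or.inr ⟨by simp [Datum.snoc], fun V hV n hn hxn => ?_⟩⟩
    · have h1 := q_snoc_mem D ω (b0 + (m + K))
      have h2 : x ^ p ^ (b0 + K) * (ω ^ p ^ (b0 + (m + K)))⁻¹ ∈ D.R := by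
        rw [q_mem_R_iff] at hω ⊢
        simp only [QuotientGroup.mk_pow] at hω ⊢
        rw [← hω, ← pow_mul, ← pow_add]
        congr 2
        omega
      have h3 := Subgroup.mul_mem _ (hE.R_le h2) h1
      simpa using h3
    · have h1 : ω ^ (p ^ m * n) ∈ V := by
        have h2 : ω ^ (p ^ m * n) * (x ^ n)⁻¹ ∈ D.R := by
          rw [q_mem_R_iff] at hω ⊢
          simp only [QuotientGroup.mk_pow] at hω ⊢
          rw [← hω, ← pow_mul]
        have h3 := V.mul_mem (hV.hR (hE.R_le h2)) hxn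
        simpa using h3
      have h4 := q_snoc_free D ω (b0 + (m + K)) hV _ h1
      have h5 : b0 + (m + K) = m + (b0 + K) := by omega
      rw [h5, pow_add] at h4
      have h6 : p ^ (b0 + K) ∣ n := Nat.dvd_of_mul_dvd_mul_left (by have := hp.pos; positivity) h4
      have h7 : p ^ (b0 + K) ≤ n := Nat.le_of_dvd hn h6
      have h8 : b0 + K < p ^ (b0 + K) := Nat.lt_pow_self hp.one_lt
      omega
  · simp only [Inf, not_forall, not_not] at hx
    obtain ⟨e, he, hxe⟩ := hx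
    exact ⟨D, hD, Ext.refl D, ⟨e, he, hxe⟩, Or.inl rfl⟩

/-- There are elements of the discrete free group of infinite order modulo `R`. -/
theorem exists_inf (H : Facts p) (D : Datum p) (hD : BR D) : ∃ w : Fr, Inf D (io p w) := by
  obtain ⟨S⟩ := H.sys D hD
  obtain ⟨x, hx, hx0⟩ := S.ne0
  have hO : IsOpen ((S.V1 : Set (FF p)) ∩ S.b0 ⁻¹' {0}ᶜ) :=
    S.isX.cont.isOpen_inter_preimage S.adm.isOpen isOpen_compl_singleton
  obtain ⟨w, hw, hw'⟩ := denseRange_io.exists_mem_open hO ⟨x, hx, hx0⟩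
  refine ⟨w, fun n hn hR => ?_⟩
  have h1 := S.isX.triv _ hR
  rw [S.isX.qPow hw] at h1
  rcases mul_eq_zero.mp h1 with h | h
  · have : n = 0 := by exact_mod_cast h
    omega
  · exact hw' h

/-- Section 12. -/
theorem iteration (H : Facts p) : ∃ D : ℕ → Datum p, (∀ k, BR (D k)) ∧
    (∀ k l, k ≤ l → Ext (D k) (D l)) ∧
    (∀ w : Fr, ∃ e, 0 < e ∧ ∃ k, (io p w) ^ e ∈ (D k).R) ∧
    (∀ B, ∃ (w : Fr) (k : ℕ), Big (D k) (io p w) B) ∧ ∃ k, 0 < (D k).n := by
  classical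
  have hstep := it_step H
  choose f hfBR hfE hffin hfor using hstep
  obtain ⟨en, hen⟩ := exists_surjective_nat Fr
  let W : ℕ → Fr := fun k => en (Nat.unpair k).1
  let G : ℕ → {D : Datum p // BR D} := fun k => Nat.rec ⟨⟨0, Fin.elim0, Fin.elim0⟩, H.empty _ rfl⟩
    (fun k D => ⟨f D.1 D.2 (io p (W k)) k, hfBR _ _ _ _⟩) k
  have hG : ∀ k, (G (k + 1)).1 = f (G k).1 (G k).2 (io p (W k)) k := fun k => rfl
  have hE : ∀ k l, k ≤ l → Ext (G k).1 (G l).1 := by
    intro k l hkl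
    induction l, hkl using Nat.le_induction with
    | base => exact Ext.refl _
    | succ l _ ih => exact ih.trans (by rw [hG]; exact hfE _ _ _ _)
  have hinf : ∀ (w : Fr) (B : ℕ), ∃ k, B ≤ k ∧ W k = w := by
    intro w B
    obtain ⟨n, hn⟩ := hen w
    refine ⟨Nat.pair n B, Nat.right_le_pair n B, ?_⟩
    simp only [W, Nat.unpair_pair, hn]
  have hbig : ∀ B, ∃ k, B ≤ k ∧ 0 < (G (k + 1)).1.n ∧ Big (G (k + 1)).1 (io p (W k)) k := by
    intro B
    by_contra hcon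
    push Not at hcon
    have h1 : ∀ k, B ≤ k → (G (k + 1)).1 = (G k).1 := by
      intro k hk
      rcases hfor (G k).1 (G k).2 (io p (W k)) k with h | h
      · rw [hG, h]
      · exact absurd h.2 (by rw [← hG]; exact hcon k hk (by rw [hG]; exact h.1))
    have h2 : ∀ k, B ≤ k → (G k).1 = (G B).1 := by
      intro k hk
      induction k, hk using Nat.le_induction with
      | base => rfl
      | succ k hk ih => rw [h1 k hk, ih]
    obtain ⟨w, hw⟩ := exists_inf H (G B).1 (G B).2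
    obtain ⟨k, hk, hWk⟩ := hinf w B
    obtain ⟨e, he, hxe⟩ := hffin (G k).1 (G k).2 (io p (W k)) k
    rw [← hG, h2 (k + 1) (by omega), hWk] at hxe
    exact hw e he hxe
  refine ⟨fun k => (G k).1, fun k => (G k).2, hE, fun w => ?_, fun B => ?_, ?_⟩
  · obtain ⟨k, -, hWk⟩ := hinf w 0
    obtain ⟨e, he, hxe⟩ := hffin (G k).1 (G k).2 (io p (W k)) k
    refine ⟨e, he, k + 1, ?_⟩
    rw [← hG, hWk] at hxe
    exact hxe
  · obtain ⟨k, hk, -, hk'⟩ := hbig B
    exact ⟨W k, k + 1, fun V hV m hm hx => hk.trans (hk' V hV m hm hx)⟩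
  · obtain ⟨k, -, hk, -⟩ := hbig 0
    exact ⟨k + 1, hk⟩

end D687
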