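import Pool.Agent.Lib_MP_d687bf.FFBasic

/-!
MP_d687bf, sections 12, 13, 15: the facts of the other sections which are used, bundled as one
hypothesis `Facts p` (to be discharged at the very end), and the definitions of sections 12, 13.
-/

set_option autoImplicit false

open Set Filter Topology

namespace D687

variable {p : ℕ} [Fact p.Prime]

/-- (8.5): the open normal subgroup `V0` and the invariant homomorphism `a`. -/
structure Til (D : Datum p) (V1 V0 : Subgroup (FF p)) (a : FF p → ZMod p) : Prop where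
  isOpen : IsOpen (V0 : Set (FF p))
  normal : V0.Normal
  hR : D.R ≤ V0
  le : V0 ≤ V1
  mem : a ∈ Hk (p := p) V0
  inv : ∀ v ∈ V0, ∀ g : FF p, a (g * v * g⁻¹) = a v
  one : ∀ (i : Fin D.n) (g : FF p), a (g * D.r i * g⁻¹) = 1
  root : ∀ t : FF p, t ^ p ∈ D.R → a (t ^ p) = 0 → t ∈ D.R

/-- The facts of the other sections used in sections 12, 13, 15. -/
structure Facts (p : ℕ) [Fact p.Prime] : Prop where
  /-- (3.3) -/
  empty : ∀ D : Datum p, D.n = 0 → BR D
  /-- sections 4 - 6 -/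
  sys : ∀ D : Datum p, BR D → Nonempty (Sys D)
  /-- the tower consists of open subgroups, normal if `V` is normal -/
  tower_isOpen : ∀ (D : Datum p) (V : Subgroup (FF p)), IsOpen (V : Set (FF p)) → D.R ≤ V →
    ∀ j, IsOpen (tower D V j : Set (FF p))
  /-- (7.1) -/
  inter : ∀ (D : Datum p) (S : Sys D) (V : Subgroup (FF p)), IsOpen (V : Set (FF p)) →
    D.R ≤ V → V ≤ S.V1 → ∀ x, (∀ j, x ∈ tower D V j) → x ∈ D.R
  /-- (8.5) -/
  tilde : ∀ (D : Datum p) (S : Sys D), 0 < D.n → ∃ V0 a, Til D S.V1 V0 a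
  /-- (11.1) -/
  snoc : ∀ D : Datum p, BR D → ∀ ω : FF p, (∀ e : ℕ, 0 < e → ω ^ e ∉ D.R) →
    (∀ g : FF p, g ^ p * ω⁻¹ ∉ D.R) → ∃ b0 : ℕ, ∀ b, b0 ≤ b → BR (D.snoc ω b)
  /-- section 14 -/
  dom : ∀ (Gam : Type) [Group Gam] (z : Gam) (B : Subgroup Gam) [B.Normal],
    (∀ g, g * z = z * g) → z ^ p = 1 → z ≠ 1 → (∀ t : Gam, t ^ p = 1 → t ∈ Subgroup.zpowers z) →
    (∀ x ∈ B, ∀ y ∈ B, x * y = y * x) → (∀ x ∈ B, ∀ n : ℕ, 0 < n → x ^ n = 1 → x = 1) →
    B.FG → (∃ n : ℕ, B.index = p ^ n) →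
    ∃ (E : Type) (_ : DivisionRing E) (f : Gam →* Eˣ), Function.Injective f

/-! ### Section 12: extensions of data -/

/-- `D'` contains the relators of `D` (with the same exponents). -/
def Ext (D D' : Datum p) : Prop :=
  ∃ f : Fin D.n → Fin D'.n, ∀ i, D'.ω (f i) = D.ω i ∧ D'.a (f i) = D.a i

/-- `x` has infinite order modulo `R`. -/
def Inf (D : Datum p) (x : FF p) : Prop := ∀ n : ℕ, 0 < n → x ^ n ∉ D.R

/-- every positive power of `x` in an admissible subgroup has exponent at least `B`. -/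
def Big (D : Datum p) (x : FF p) (B : ℕ) : Prop :=
  ∀ V : Subgroup (FF p), Adm D V → ∀ m : ℕ, 0 < m → x ^ m ∈ V → B ≤ m

/-! ### Section 13: the subgroups `L_j`, `K_j` -/

/-- `{v ∈ V : λ v = 0 for all λ ∈ X(V)}`. -/
def LL (D : Datum p) (V : Subgroup (FF p)) : Subgroup (FF p) where
  carrier := {v | v ∈ V ∧ ∀ l : FF p → ℤ_[p], IsX D V l → l v = 0}
  mul_mem' := by
    rintro a b ⟨ha, ha'⟩ ⟨hb, hb'⟩
    refine ⟨V.mul_mem ha hb, fun l hl => ?_⟩
    rw [hl.add a ha b hb, ha' l hl, hb' l hl, add_zero]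
  one_mem' := ⟨V.one_mem, fun l hl => hl.triv 1 D.R.one_mem⟩
  inv_mem' := by
    rintro a ⟨ha, ha'⟩
    refine ⟨V.inv_mem ha, fun l hl => ?_⟩
    have h1 : l 1 = 0 := hl.triv 1 D.R.one_mem
    have h2 : l (a * a⁻¹) = l a + l a⁻¹ := hl.add a ha a⁻¹ (V.inv_mem ha)
    rw [mul_inv_cancel, h1, ha' l hl, zero_add] at h2
    exact h2.symm

/-- The kernel of `a` in `V`, for `a ∈ Hom(V0, k)`, `V ≤ V0`. -/
def kerIn (V0 : Subgroup (FF p)) (a : FF p → ZMod p) (ha : a ∈ Hk (p := p) V0)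
    (V : Subgroup (FF p)) (hV : V ≤ V0) : Subgroup (FF p) where
  carrier := {v | v ∈ V ∧ a v = 0}
  mul_mem' := by
    rintro x y ⟨hx, hx'⟩ ⟨hy, hy'⟩
    refine ⟨V.mul_mem hx hy, ?_⟩
    have := ha.mul x (hV hx) y (hV hy)
    simp only [triv, LinearMap.id_coe, id_eq] at this
    rw [this, hx', hy', add_zero]
  one_mem' := by
    refine ⟨V.one_mem, ?_⟩
    have := ha.mul 1 V0.one_mem 1 V0.one_mem
    simp only [triv, LinearMap.id_coe, id_eq, mul_one] at this
    simpa using this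
  inv_mem' := by
    rintro x ⟨hx, hx'⟩
    refine ⟨V.inv_mem hx, ?_⟩
    have h1 := ha.mul 1 V0.one_mem 1 V0.one_mem
    have h2 := ha.mul x (hV hx) x⁻¹ (V0.inv_mem (hV hx))
    simp only [triv, LinearMap.id_coe, id_eq, mul_one, mul_inv_cancel] at h1 h2
    rw [hx', zero_add] at h2
    rw [← h2]
    simpa using h1

end D687
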