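import Pool.Agent.Lib_MP_d687bf.It12

/-!
MP_d687bf, section 13: a virtually abelian quotient of `FF / R~` with good roots.
-/

set_option autoImplicit false
set_option linter.unusedSectionVars false
set_option linter.style.haveILetI false

open Set Filter Topology

namespace D687

variable {p : ℕ} [Fact p.Prime]

theorem q_LL_le (D : Datum p) (V : Subgroup (FF p)) : LL D V ≤ V := fun _ hx => hx.1

theorem q_normal_LL (D : Datum p) (V : Subgroup (FF p)) (hV : V.Normal) : (LL D V).Normal :=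
  ⟨fun v hv g => ⟨hV.conj_mem v hv.1 g, fun _ hl => hv.2 _ (hl.qConj hV g)⟩⟩

theorem q_R_le_LL (D : Datum p) (V : Subgroup (FF p)) (hR : D.R ≤ V) : D.R ≤ LL D V :=
  fun x hx => ⟨hR hx, fun _ hl => hl.triv x hx⟩

theorem q_LL_le_sharp (D : Datum p) (V : Subgroup (FF p)) : LL D V ≤ sharp D V :=
  fun _ hx => ⟨hx.1, fun l hl => by rw [hx.2 l hl]; exact dvd_zero _⟩

theorem q_LL_tower_anti (D : Datum p) (V : Subgroup (FF p)) :
    Antitone (fun j => LL D (tower D V j)) :=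
  antitone_nat_of_succ_le (fun j _ hx => ⟨q_tower_succ_le D V j hx.1,
    fun l hl => hx.2 l (hl.qMono (q_tower_succ_le D V j))⟩)

theorem q_isClosed_LL (D : Datum p) (V : Subgroup (FF p)) (hV : IsOpen (V : Set (FF p))) :
    IsClosed (LL D V : Set (FF p)) := by
  have hVc : IsClosed (V : Set (FF p)) := V.isClosed_of_isOpen hV
  have e : (LL D V : Set (FF p)) =
      (V : Set (FF p)) ∩ ⋂ l : {l : FF p → ℤ_[p] // IsX D V l}, (V : Set (FF p)) ∩ l.1 ⁻¹' {0} := by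
    ext x
    simp only [mem_inter_iff, mem_iInter, Subtype.forall, mem_preimage, mem_singleton_iff]
    exact ⟨fun hx => ⟨hx.1, fun l hl => ⟨hx.1, hx.2 l hl⟩⟩, fun hx => ⟨hx.1, fun l hl => (hx.2 l hl).2⟩⟩
  rw [e]
  exact hVc.inter (isClosed_iInter fun l => l.2.cont.preimage_isClosed_of_isClosed hVc
    isClosed_singleton)

/-- Roots in `LL`. -/
theorem q_LL_root (D : Datum p) (V : Subgroup (FF p)) (t : FF p) (ht : t ∈ V)
    (h : t ^ p ∈ LL D V) : t ∈ LL D V := by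
  refine ⟨ht, fun l hl => ?_⟩
  have h1 := h.2 l hl
  rw [hl.qPow ht] at h1
  rcases mul_eq_zero.mp h1 with h2 | h2
  · exact absurd h2 (by exact_mod_cast (Fact.out : p.Prime).ne_zero)
  · exact h2

theorem q_LL_tf (D : Datum p) (V : Subgroup (FF p)) (t : FF p) (ht : t ∈ V) (n : ℕ) (hn : 0 < n)
    (h : t ^ n ∈ LL D V) : t ∈ LL D V := by
  refine ⟨ht, fun l hl => ?_⟩
  have h1 := h.2 l hl
  rw [hl.qPow ht] at h1
  rcases mul_eq_zero.mp h1 with h2 | h2
  · exact absurd h2 (by exact_mod_cast hn.ne')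
  · exact h2

/-- `K_j`. -/
def KK (D : Datum p) (V0 : Subgroup (FF p)) (a : FF p → ZMod p) (ha : a ∈ Hk (p := p) V0)
    (j : ℕ) : Subgroup (FF p) :=
  kerIn V0 a ha (LL D (tower D V0 j)) ((q_LL_le D _).trans (q_tower_le D V0 j))

/-- `V_j ∩ ker a`. -/
def BB (D : Datum p) (V0 : Subgroup (FF p)) (a : FF p → ZMod p) (ha : a ∈ Hk (p := p) V0)
    (j : ℕ) : Subgroup (FF p) :=
  kerIn V0 a ha (tower D V0 j) (q_tower_le D V0 j)

section til

variable {D : Datum p} {V1 V0 : Subgroup (FF p)} {a : FF p → ZMod p} (T : Til D V1 V0 a)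

include T

theorem Til.mul {x y : FF p} (hx : x ∈ V0) (hy : y ∈ V0) : a (x * y) = a x + a y := by
  have := T.mem.mul x hx y hy
  simpa only [triv, LinearMap.id_coe, id_eq] using this

theorem Til.a_one : a 1 = 0 := by
  have := T.mul V0.one_mem V0.one_mem
  rw [mul_one] at this
  simpa using this

theorem Til.a_inv {x : FF p} (hx : x ∈ V0) : a x⁻¹ = - a x := by
  have := T.mul hx (V0.inv_mem hx)
  rw [mul_inv_cancel, T.a_one] at this
  linear_combination -this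

theorem Til.a_pow {x : FF p} (hx : x ∈ V0) (n : ℕ) : a (x ^ n) = n * a x := by
  induction n with
  | zero => simp [T.a_one]
  | succ n ih => rw [pow_succ, T.mul (V0.pow_mem hx n) hx, ih]; push_cast; ring

theorem Til.normal_BB (j : ℕ) : (BB D V0 a T.mem j).Normal := by
  refine ⟨fun v hv g => ⟨(q_normal_tower D V0 T.normal j).conj_mem v hv.1 g, ?_⟩⟩
  rw [T.inv v (q_tower_le D V0 j hv.1) g]
  exact hv.2

theorem Til.normal_KK (j : ℕ) : (KK D V0 a T.mem j).Normal := by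
  refine ⟨fun v hv g => ⟨(q_normal_LL D _ (q_normal_tower D V0 T.normal j)).conj_mem v hv.1 g, ?_⟩⟩
  rw [T.inv v (q_tower_le D V0 j hv.1.1) g]
  exact hv.2

theorem Til.isClosed_KK (hto : ∀ j, IsOpen (tower D V0 j : Set (FF p))) (j : ℕ) :
    IsClosed (KK D V0 a T.mem j : Set (FF p)) := by
  have e : (KK D V0 a T.mem j : Set (FF p)) = (LL D (tower D V0 j) : Set (FF p)) ∩ a ⁻¹' {0} := rfl
  rw [e]
  exact (q_isClosed_LL D _ (hto j)).inter (isClosed_singleton.preimage T.mem.cont)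

theorem Til.isOpen_BB (hto : ∀ j, IsOpen (tower D V0 j : Set (FF p))) (j : ℕ) :
    IsOpen (BB D V0 a T.mem j : Set (FF p)) := by
  have e : (BB D V0 a T.mem j : Set (FF p)) = (tower D V0 j : Set (FF p)) ∩ a ⁻¹' {0} := rfl
  rw [e]
  exact (hto j).inter ((isOpen_discrete _).preimage T.mem.cont)

theorem Til.KK_le_BB (j : ℕ) : KK D V0 a T.mem j ≤ BB D V0 a T.mem j :=
  fun _ hx => ⟨hx.1.1, hx.2⟩

end til

/-- The claim of section 13. -/
theorem claim13 (H : Facts p) (D : Datum p) (S : Sys D) {V0 : Subgroup (FF p)}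
    {a : FF p → ZMod p} (T : Til D S.V1 V0 a) :
    ∃ j, ∀ t : FF p, t ^ p ∈ KK D V0 a T.mem j → t ∈ LL D (tower D V0 j) := by
  have hto := H.tower_isOpen D V0 T.isOpen T.hR
  obtain ⟨j, hj⟩ : ∃ j, ∀ t : FF p, t ^ p ∈ KK D V0 a T.mem j → t ∈ V0 := by
    by_contra hcon
    push Not at hcon
    let C : ℕ → Set (FF p) := fun j => (fun t => t ^ p) ⁻¹' (KK D V0 a T.mem j : Set (FF p)) ∩
      (V0 : Set (FF p))ᶜ
    have hcl : ∀ j, IsClosed (C j) := fun j =>
      ((T.isClosed_KK hto j).preimage (continuous_pow p)).inter T.isOpen.isClosed_compl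
    have hne : (⋂ j, C j).Nonempty := by
      refine IsCompact.nonempty_iInter_of_sequence_nonempty_isCompact_isClosed C ?_ ?_
        (hcl 0).isCompact hcl
      · rintro j t ⟨ht, ht'⟩
        exact ⟨⟨q_LL_tower_anti D V0 (Nat.le_succ j) ht.1, ht.2⟩, ht'⟩
      · intro j
        obtain ⟨t, ht, ht'⟩ := hcon j
        exact ⟨t, ht, ht'⟩
    obtain ⟨t, ht⟩ := hne
    rw [mem_iInter] at ht
    have h1 : t ^ p ∈ D.R := H.inter D S V0 T.isOpen T.hR T.le _ (fun j => (ht j).1.1.1)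
    exact (ht 0).2 (T.hR (T.root t h1 (ht 0).1.2))
  refine ⟨j, fun t ht => ?_⟩
  have h1 : ∀ i, i ≤ j → t ∈ tower D V0 i := by
    intro i hi
    induction i with
    | zero => exact hj t ht
    | succ i ih =>
      exact q_LL_le_sharp D _ (q_LL_root D _ t (ih (by omega))
        (q_LL_tower_anti D V0 (by omega : i ≤ j) ht.1))
  exact q_LL_root D _ t (h1 j le_rfl) ht.1

/-- Section 13. -/
theorem exists_Gam (H : Facts p) (D : Datum p) (hD : BR D) (hn : 0 < D.n) :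
    ∃ (Gam : Type) (_ : Group Gam) (z : Gam) (B : Subgroup Gam) (φ : Fr →* Gam), B.Normal ∧
      (∀ g, g * z = z * g) ∧ z ^ p = 1 ∧ z ≠ 1 ∧ (∀ t : Gam, t ^ p = 1 → t ∈ Subgroup.zpowers z) ∧
      (∀ x ∈ B, ∀ y ∈ B, x * y = y * x) ∧ (∀ x ∈ B, ∀ n : ℕ, 0 < n → x ^ n = 1 → x = 1) ∧
      B.FG ∧ (∃ n : ℕ, B.index = p ^ n) ∧
      (∀ w : Fr, io p w ∈ D.R → φ w ∈ Subgroup.zpowers z) ∧
      ∃ V : Subgroup (FF p), Adm D V ∧ ∀ w : Fr, φ w = 1 → io p w ∈ V := by
  obtain ⟨S⟩ := H.sys D hD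
  obtain ⟨V0, a, T⟩ := H.tilde D S hn
  have hto := H.tower_isOpen D V0 T.isOpen T.hR
  obtain ⟨j, hj⟩ := claim13 H D S T
  have hKn : (KK D V0 a T.mem j).Normal := T.normal_KK j
  have hBn : (BB D V0 a T.mem j).Normal := T.normal_BB j
  have hRn := normal_R D
  set K := KK D V0 a T.mem j with hK
  set BV := BB D V0 a T.mem j with hBV
  set r0 : FF p := D.r ⟨0, hn⟩ with hr0
  have hr0R : r0 ∈ D.R := by simpa using r_mem_R D ⟨0, hn⟩ 1
  have hr0V : r0 ∈ V0 := T.hR hr0R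
  have har0 : a r0 = 1 := by simpa using T.one ⟨0, hn⟩ 1
  have hRL : D.R ≤ LL D (tower D V0 j) := q_R_le_LL D _ (q_R_le_tower D V0 T.hR j)
  -- reduction to powers of `r0`
  have hpow : ∀ x ∈ LL D (tower D V0 j), x * (r0 ^ (a x).val)⁻¹ ∈ K := by
    intro x hx
    have hxV := q_tower_le D V0 j hx.1
    refine ⟨Subgroup.mul_mem _ hx (Subgroup.inv_mem _ (Subgroup.pow_mem _ (hRL hr0R) _)), ?_⟩
    rw [T.mul hxV (V0.inv_mem (V0.pow_mem hr0V _)), T.a_inv (V0.pow_mem hr0V _),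
      T.a_pow hr0V, har0]
    simp
  let π : FF p →* FF p ⧸ K := QuotientGroup.mk' K
  have hπ : Function.Surjective π := QuotientGroup.mk'_surjective K
  have hπ1 : ∀ x, π x = 1 ↔ x ∈ K := fun x => QuotientGroup.eq_one_iff x
  have hπe : ∀ x y, x * y⁻¹ ∈ K → π x = π y := by
    intro x y h
    have := (hπ1 _).mpr h
    rw [map_mul, map_inv] at this
    exact mul_inv_eq_one.mp this
  let Gm : Subgroup (FF p ⧸ K) := (π.comp (io p)).range ⊔ Subgroup.zpowers (π r0)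
  have hzG : π r0 ∈ Gm := Subgroup.mem_sup_right (Subgroup.mem_zpowers _)
  have hφG : ∀ w, π (io p w) ∈ Gm := fun w => Subgroup.mem_sup_left ⟨w, rfl⟩
  have hLz : ∀ x ∈ LL D (tower D V0 j), π x = (π r0) ^ (a x).val := by
    intro x hx
    rw [← map_pow]
    exact hπe _ _ (hpow x hx)
  have hMn : (BV.map π).Normal := hBn.map π hπ
  have hidx : ∃ n : ℕ, ((BV.map π).subgroupOf Gm).index = p ^ n := by
    obtain ⟨c, hc⟩ := index_open BV (T.isOpen_BB hto j)
    have hker : π.ker ≤ BV := by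
      intro x hx
      exact T.KK_le_BB j ((hπ1 x).mp hx)
    have h1 : (BV.map π).index = BV.index := Subgroup.index_map_eq BV hπ hker
    have h2 : (BV.map π).relIndex Gm ∣ (BV.map π).index := Subgroup.relIndex_dvd_index_of_normal _ _
    rw [h1, hc, Nat.dvd_prime_pow (Fact.out : p.Prime)] at h2
    obtain ⟨n, -, hn⟩ := h2
    exact ⟨n, hn⟩
  have hGfg : Group.FG Gm := by
    rw [Group.fg_iff_subgroup_fg]
    refine Subgroup.FG.sup ?_ ?_
    · rw [← Group.fg_iff_subgroup_fg]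
      exact Group.fg_range _
    · exact ⟨{π r0}, by simp [Subgroup.zpowers_eq_closure]⟩
  have hBfg : ((BV.map π).subgroupOf Gm).FG := by
    obtain ⟨n, hn⟩ := hidx
    haveI : ((BV.map π).subgroupOf Gm).FiniteIndex :=
      ⟨by rw [hn]; exact pow_ne_zero _ (Fact.out : p.Prime).ne_zero⟩
    rw [← Group.fg_iff_subgroup_fg]
    infer_instance
  refine ⟨Gm, inferInstance, ⟨π r0, hzG⟩, (BV.map π).subgroupOf Gm,
    (π.comp (io p)).codRestrict Gm hφG, inferInstance, ?_, ?_, ?_, ?_, ?_, ?_, ?_, ?_, ?_, ?_⟩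
  · rintro ⟨g, hg⟩
    obtain ⟨x, rfl⟩ := hπ g
    apply Subtype.ext
    show π x * π r0 = π r0 * π x
    rw [← map_mul, ← map_mul]
    apply hπe
    have e : x * r0 * (r0 * x)⁻¹ = (x * r0 * x⁻¹) * r0⁻¹ := by group
    rw [e]
    have h1 : x * r0 * x⁻¹ ∈ D.R := hRn.conj_mem _ hr0R x
    refine ⟨Subgroup.mul_mem _ (hRL h1) (Subgroup.inv_mem _ (hRL hr0R)), ?_⟩
    rw [T.mul (T.hR h1) (V0.inv_mem hr0V), T.a_inv hr0V, T.inv _ hr0V]
    simp
  · apply Subtype.ext
    show (π r0) ^ p = 1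
    rw [← map_pow, hπ1]
    refine ⟨Subgroup.pow_mem _ (hRL hr0R) _, ?_⟩
    rw [T.a_pow hr0V]
    simp
  · intro h
    have h1 : π r0 = 1 := congrArg Subtype.val h
    rw [hπ1] at h1
    have h2 : a r0 = 0 := h1.2
    rw [har0] at h2
    exact one_ne_zero h2
  · rintro ⟨t, ht⟩ htp
    obtain ⟨x, rfl⟩ := hπ t
    have h1 : (π x) ^ p = 1 := congrArg Subtype.val htp
    rw [← map_pow, hπ1] at h1
    have h2 := hLz x (hj x h1)
    refine Subgroup.mem_zpowers_iff.mpr ⟨(a x).val, ?_⟩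
    apply Subtype.ext
    rw [zpow_natCast]
    exact h2.symm
  · rintro ⟨x, hx⟩ hx' ⟨y, hy⟩ hy'
    rw [Subgroup.mem_subgroupOf] at hx' hy'
    obtain ⟨u, hu, hux⟩ := hx'
    obtain ⟨v, hv, hvy⟩ := hy'
    apply Subtype.ext
    simp only at hux hvy
    subst hux hvy
    show π u * π v = π v * π u
    rw [← map_mul, ← map_mul]
    apply hπe
    have huV := q_tower_le D V0 j hu.1
    have hvV := q_tower_le D V0 j hv.1
    refine ⟨⟨Subgroup.mul_mem _ (Subgroup.mul_mem _ hu.1 hv.1)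
      (Subgroup.inv_mem _ (Subgroup.mul_mem _ hv.1 hu.1)), fun l hl => ?_⟩, ?_⟩
    · have h1 := hl.add _ hu.1 _ hv.1
      have h2 := hl.add _ hv.1 _ hu.1
      have h3 := hl.add (u * v * (v * u)⁻¹) (Subgroup.mul_mem _ (Subgroup.mul_mem _ hu.1 hv.1)
        (Subgroup.inv_mem _ (Subgroup.mul_mem _ hv.1 hu.1))) (v * u) (Subgroup.mul_mem _ hv.1 hu.1)
      rw [inv_mul_cancel_right, h1, h2] at h3
      linear_combination -h3
    · rw [T.mul (V0.mul_mem huV hvV) (V0.inv_mem (V0.mul_mem hvV huV)),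
        T.a_inv (V0.mul_mem hvV huV), T.mul huV hvV, T.mul hvV huV]
      ring
  · rintro ⟨x, hx⟩ hx' n hn' hxn
    rw [Subgroup.mem_subgroupOf] at hx'
    obtain ⟨u, hu, hux⟩ := hx'
    simp only at hux
    subst hux
    have h1 : (π u) ^ n = 1 := congrArg Subtype.val hxn
    rw [← map_pow, hπ1] at h1
    apply Subtype.ext
    show π u = 1
    rw [hπ1]
    exact ⟨q_LL_tf D _ u hu.1 n hn' h1.1, hu.2⟩
  · exact hBfg
  · exact hidx
  · intro w hw
    refine Subgroup.mem_zpowers_iff.mpr ⟨(a (io p w)).val, ?_⟩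
    apply Subtype.ext
    rw [zpow_natCast]
    exact (hLz _ (hRL hw)).symm
  · refine ⟨V0, S.adm.mono T.isOpen T.hR T.le, fun w hw => ?_⟩
    have h1 : π (io p w) = 1 := congrArg Subtype.val hw
    rw [hπ1] at h1
    exact q_tower_le D V0 j h1.1.1

/-- The division ring of a stage. -/
theorem stage (H : Facts p) (D : Datum p) (hD : BR D) (hn : 0 < D.n) :
    ∃ (E : Type) (_ : DivisionRing E) (ρ : Fr →* Eˣ),
      (∀ w : Fr, io p w ∈ D.R → ρ w ^ p = 1) ∧
      ∃ V : Subgroup (FF p), Adm D V ∧ ∀ w : Fr, ρ w = 1 → io p w ∈ V := by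
  obtain ⟨Gam, _, z, B, φ, hB, h1, h2, h3, h4, h5, h6, h7, h8, h9, V, hV, h10⟩ :=
    exists_Gam H D hD hn
  obtain ⟨E, _, f, hf⟩ := H.dom Gam z B h1 h2 h3 h4 h5 h6 h7 h8
  refine ⟨E, inferInstance, f.comp φ, fun w hw => ?_, V, hV, fun w hw => h10 w (hf ?_)⟩
  · obtain ⟨n, hn⟩ := Subgroup.mem_zpowers_iff.mp (h9 w hw)
    rw [MonoidHom.comp_apply, ← map_pow, ← hn, ← zpow_natCast, ← zpow_mul, mul_comm, zpow_mul,
      zpow_natCast, h2, one_zpow, map_one]
  · rw [map_one]; exact hw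

end D687
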