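import Pool.Agent.Lib_MP_d687bf.S9Defs
import Pool.Agent.Lib_MP_d687bf.CupF
import Pool.Agent.Lib_MP_d687bf.PairF
import Pool.Agent.Lib_MP_d687bf.CReps

/-!
MP_d687bf, S10A: relative classes `(z, x)` (`IsKK`) and the test `tst` of (10.1): independence of
`F`, compatibility with ring homs, homogeneity.

`IsKK.ev_eq_zero`: compare coefficients: for `d : σ →₀ ℕ` the function `x ↦ coeff d (h x)` is in
`Hom(V, k)` (`MvPowerSeries.coeff d` is additive and continuous), `pair_map`.
`tst_indep`: `F - F' ∈ Hom(V, A)` (`IsF.sub_mem`) and `tst` is affine in `F`.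
`pair_congr_K1`: compare coefficients.
`zero_kk`, `smul_kk` etc. are not needed.
-/

set_option autoImplicit false

open Set Filter Topology

namespace D687

variable {p : ℕ} [Fact p.Prime] {D : Datum p} {V : Subgroup (FF p)} {n : ℕ} {u : Fin n → FF p}
  {z z' : Ch D} {x : Fin n → ZMod p}

private theorem S10A_triv : IsActR D V (triv (ZMod p) (ZMod p)) where
  one := rfl
  mul _ _ _ _ := rfl
  cont := continuous_snd.continuousOn
  triv _ _ := rfl

theorem IsKK.ev_eq_zero {σ : Type} (hz : IsKK V u z x) {h : FF p → MvPowerSeries σ (ZMod p)}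
    (hh : h ∈ Z1 V (triv (MvPowerSeries σ (ZMod p)) (MvPowerSeries σ (ZMod p)))) :
    pair z (ev D h) + ∑ j, x j • h (u j) = 0 := by
  ext m
  have h1 : (fun x => MvPowerSeries.coeff m (h x)) ∈ Hk V := by
    refine ⟨(MvPowerSeries.WithPiTopology.continuous_coeff (ZMod p) m).comp hh.cont,
      fun x hx => ?_, fun g hg g' hg' => ?_⟩
    · show MvPowerSeries.coeff m (h x) = 0
      rw [hh.supp x hx, map_zero]
    · have h2 : h (g * g') = h g + h g' := hh.mul g hg g' hg'
      show MvPowerSeries.coeff m (h (g * g')) = MvPowerSeries.coeff m (h g) +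
        MvPowerSeries.coeff m (h g')
      rw [h2, map_add]
  have h3 := hz _ h1
  have h4 := pair_map (MvPowerSeries.coeff (R := ZMod p) m).toAddMonoidHom z (ev D h)
  have h5 : MvPowerSeries.coeff m (∑ j, x j • h (u j)) =
      ∑ j, x j * MvPowerSeries.coeff m (h (u j)) := by
    rw [map_sum]
    exact Finset.sum_congr rfl fun j _ => by rw [map_smul, smul_eq_mul]
  rw [map_zero, map_add, h5]
  refine Eq.trans ?_ h3
  congr 1
  exact h4.symm

theorem IsKK.isClass (hz : IsKK V u z 0) : IsClass V z := by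
  intro h hh
  have h1 := hz h hh
  simpa using h1

/-- Independence of the choice of `F`. -/
theorem tst_indep {σ : Type} (hz : IsKK V u z x) {χ χ' α β F F' : FF p → MvPowerSeries σ (ZMod p)}
    (hF : IsF V χ' α β F) (hF' : IsF V χ' α β F') :
    pair z (ev D F) + ∑ j, x j • F (u j) = pair z (ev D F') + ∑ j, x j • F' (u j) ∧
      tst u z x χ α β F = tst u z x χ α β F' := by
  have h1 := hz.ev_eq_zero (hF.sub_mem hF')
  have h2 : pair z (ev D (F - F')) = pair z (ev D F) - pair z (ev D F') := by
    rw [← pair_sub]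
    rfl
  have h3 : ∑ j, x j • (F - F') (u j) = ∑ j, x j • F (u j) - ∑ j, x j • F' (u j) := by
    rw [← Finset.sum_sub_distrib]
    exact Finset.sum_congr rfl fun j _ => smul_sub _ _ _
  have h4 : pair z (ev D F) + ∑ j, x j • F (u j) =
      pair z (ev D F') + ∑ j, x j • F' (u j) := by
    rw [h2, h3] at h1
    rw [← sub_eq_zero, ← h1]
    abel
  refine ⟨h4, ?_⟩
  unfold tst
  rw [h4]

section

variable {A A' : Type} [CommRing A] [Algebra (ZMod p) A] [CommRing A'] [Algebra (ZMod p) A']

private theorem lin_map_S10A (φ : A →+* A') (F : FF p → A) :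
    φ (pair z (ev D F) + ∑ j, x j • F (u j)) =
      pair z (ev D fun v => φ (F v)) + ∑ j, x j • φ (F (u j)) := by
  rw [map_add, map_sum]
  congr 1
  · exact (pair_map φ.toAddMonoidHom z (ev D F)).symm
  · exact Finset.sum_congr rfl fun j _ => ZMod.map_smul φ _ _

private theorem lin_smul_S10A (a : A) (F : FF p → A) :
    pair z (ev D (a • F)) + ∑ j, x j • (a • F) (u j) =
      a * (pair z (ev D F) + ∑ j, x j • F (u j)) := by
  have h1 : pair z (ev D (a • F)) = a * pair z (ev D F) := pair_smul a z (ev D F)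
  rw [h1, mul_add, Finset.mul_sum]
  congr 1
  refine Finset.sum_congr rfl fun j _ => ?_
  rw [Pi.smul_apply, smul_eq_mul, mul_smul_comm]

/-- Ring homs between `ZMod p`-algebras are `ZMod p`-linear, so they commute with `tst`. -/
theorem tst_map (φ : A →+* A') (χ α β F : FF p → A) :
    φ (tst u z x χ α β F) =
      tst u z x (fun v => φ (χ v)) (fun v => φ (α v)) (fun v => φ (β v)) fun v => φ (F v) := by
  have h1 := lin_map_S10A (z := z) (u := u) (x := x) φ F
  unfold tst
  rw [map_add, map_mul, h1, map_prod, map_sum]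
  congr 1
  · congr 1
    exact Finset.prod_congr rfl fun i _ => by rw [map_sub, map_one]
  · refine Finset.sum_congr rfl fun j _ => ?_
    have h2 : φ (x j • ((∏ i ∈ Finset.univ.erase j, (χ (u i) - 1)) * (α (u j) * β (u j)))) =
        x j • φ ((∏ i ∈ Finset.univ.erase j, (χ (u i) - 1)) * (α (u j) * β (u j))) :=
      ZMod.map_smul φ _ _
    rw [h2, map_mul, map_mul, map_prod]
    congr 2
    exact Finset.prod_congr rfl fun i _ => by rw [map_sub, map_one]

theorem lin_map (φ : A →+* A') (F : FF p → A) :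
    φ (pair z (ev D F) + ∑ j, x j • F (u j)) =
      pair z (ev D fun v => φ (F v)) + ∑ j, x j • φ (F (u j)) := by
  exact lin_map_S10A φ F

/-- Homogeneity. -/
theorem tst_smul (a b : A) (χ α β F : FF p → A) :
    tst u z x χ (a • α) (b • β) ((a * b) • F) = a * b * tst u z x χ α β F := by
  have h1 := lin_smul_S10A (z := z) (u := u) (x := x) (a * b) F
  unfold tst
  rw [h1]
  generalize pair z (ev D F) + ∑ j, x j • F (u j) = L
  rw [mul_add (a * b)]
  congr 1
  · exact mul_left_comm _ _ _
  · rw [Finset.mul_sum]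
    refine Finset.sum_congr rfl fun j _ => ?_
    rw [mul_smul_comm]
    congr 1
    simp only [Pi.smul_apply, smul_eq_mul]
    ring

theorem lin_smul (a : A) (F : FF p → A) :
    pair z (ev D (a • F)) + ∑ j, x j • (a • F) (u j) =
      a * (pair z (ev D F) + ∑ j, x j • F (u j)) := by
  exact lin_smul_S10A a F

end

theorem pair_congr_K1 (h : ∀ t ∈ Ck D V, pair z t = pair z' t) {t : Fin D.n → FF p → K1 p}
    (ht : t ∈ CV D V (triv (K1 p) (K1 p))) : pair z t = pair z' t := by
  ext m
  have h1 : (fun i g => PowerSeries.coeff m (t i g)) ∈ Ck D V := by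
    refine ⟨fun i v hv g => ?_, fun i g => ?_⟩
    · have h2 : t i (v * g) = t i g := ht.1 i v hv g
      show PowerSeries.coeff m (t i (v * g)) = PowerSeries.coeff m (t i g)
      rw [h2]
    · show PowerSeries.coeff m (t i (g * D.ω i)) = PowerSeries.coeff m (t i g)
      rw [ht.2 i g]
  have h3 := h _ h1
  have h4 := pair_map (PowerSeries.coeff (R := ZMod p) m).toAddMonoidHom z t
  have h5 := pair_map (PowerSeries.coeff (R := ZMod p) m).toAddMonoidHom z' t
  exact h4.symm.trans (h3.trans h5)

/-- Everything depends only on the functional on `C_V(k)` defined by `z`. -/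
theorem IsKK.congr (hR : D.R ≤ V) (h : ∀ t ∈ Ck D V, pair z t = pair z' t)
    (hz : IsKK V u z x) : IsKK V u z' x := by
  intro g hg
  have h1 : ev D g ∈ Ck D V := ev_mem hR S10A_triv hg
  rw [← h _ h1]
  exact hz g hg

theorem NonKK.congr (h : ∀ t ∈ Ck D V, pair z t = pair z' t) (hz : NonKK V z x) :
    NonKK V z' x := by
  rcases hz with ⟨t, ht, h1⟩ | h1
  · exact Or.inl ⟨t, ht, by rwa [← h t ht]⟩
  · exact Or.inr h1

/-- Representatives for the finitely many functionals on `C_V(k)` (`exists_chain`; the dual of the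
finite space `C_V(k)` is finite). -/
theorem exists_fin_chains (hadm : Adm D V) : ∃ (N : ℕ) (zz : Fin N → Ch D), ∀ z : Ch D,
    ∃ i, ∀ t ∈ Ck D V, pair z t = pair (zz i) t := by
  have hf : Module.Finite (ZMod p) (Ck D V) := finite_Ck hadm
  have hfin : Finite (Module.Dual (ZMod p) (Ck D V)) := Module.finite_of_finite (ZMod p)
  obtain ⟨N, ⟨e⟩⟩ := Finite.exists_equiv_fin (Module.Dual (ZMod p) (Ck D V))
  choose c hc using fun κ : Module.Dual (ZMod p) (Ck D V) => exists_chain hadm κ
  refine ⟨N, fun i => c (e.symm i), fun z => ?_⟩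
  let κ : Module.Dual (ZMod p) (Ck D V) :=
    { toFun := fun t => pair z (t : Fin D.n → FF p → ZMod p)
      map_add' := fun s t => pair_add z _ _
      map_smul' := fun a t => by
        rw [RingHom.id_apply, Submodule.coe_smul, pair_smul a z] }
  refine ⟨e κ, fun t ht => ?_⟩
  have h1 := hc κ ⟨t, ht⟩
  show pair z t = pair (c (e.symm (e κ))) t
  rw [e.symm_apply_apply]
  exact h1.symm

end D687
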