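import Pool.Agent.Lib_MP_d687bf.S6LemL
import Pool.Agent.Lib_MP_d687bf.K2Spec
import Pool.Agent.Lib_MP_d687bf.KillsCov

/-!
MP_d687bf, S6c: (6.4) MIXING.

`l` good, `m ∈ X(V)`, `χ = chr2 m l = (1+S)^m (1+T)^l`. Lemma L (`lemmaL`) for `φ = redS`
(`k[[S,T]] → k[[T]]`, `w = S = MvPowerSeries.X 0`, `redS_eq_zero_iff`), `τ = T ^ n = inc 1 (X ^ n)`:
`exists_lift2`. The specialisations `phiE E` (`S ↦ X, T ↦ X^(p^E)`) and `psiE E`
(`S ↦ X^(p^E), T ↦ X`) are continuous surjective ring homs (`phiE_chr2`, `psiE_chr2`, `ZR_map`,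
`Kills_map`), and do not kill a given non-zero element for large `E` (`phiE_ne_zero`,
`psiE_ne_zero`); a non-zero `f ∈ k[[X]]` is a unit times `X ^ n`.
-/

set_option autoImplicit false

open Set Filter Topology

namespace D687

variable {p : ℕ} [Fact p.Prime] {D : Datum p} {V : Subgroup (FF p)} {m l : FF p → ℤ_[p]}

private theorem S6Mix_max {l l' : FF p → ℤ_[p]} {a b : ℕ}
    (h1 : Kills D V (scal (chr l)) ((PowerSeries.X : K1 p) ^ a))
    (h2 : Kills D V (scal (chr l')) ((PowerSeries.X : K1 p) ^ b)) :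
    ∃ n : ℕ, Kills D V (scal (chr l)) ((PowerSeries.X : K1 p) ^ n) ∧
      Kills D V (scal (chr l')) ((PowerSeries.X : K1 p) ^ n) :=
  ⟨max a b, h1.of_dvd (pow_dvd_pow _ (le_max_left a b)), h2.of_dvd (pow_dvd_pow _ (le_max_right a b))⟩

theorem Good.neg (h : Good D V l) : Good D V (-l) := by
  obtain ⟨n, h1, h2⟩ := h
  refine ⟨n, h2, ?_⟩
  rwa [neg_neg]

/-- `Good` depends only on the values on `V`. -/
theorem Good.congr {l' : FF p → ℤ_[p]} (h : Good D V l) (hll : ∀ v ∈ V, l v = l' v) :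
    Good D V l' := by
  obtain ⟨n, h1, h2⟩ := h
  refine ⟨n, (Kills_congr (fun v hv => ?_) _).1 h1, (Kills_congr (fun v hv => ?_) _).1 h2⟩
  · change tpow (l v) = tpow (l' v)
    rw [hll v hv]
  · change tpow (-l v) = tpow (-l' v)
    rw [hll v hv]

/-- (5.1) for `Good`. -/
theorem Good.inherit {V1 : Subgroup (FF p)} (hadm : Adm D V1) (hl : IsX D V1 l)
    (h : Good D V1 l) (hV : IsOpen (V : Set (FF p))) (hR : D.R ≤ V) (hle : V ≤ V1) :
    Good D V l := by
  obtain ⟨n, h1, h2⟩ := h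
  have hp : ∀ f : K1 p, p • f = 0 := by
    intro f
    ext k
    rw [map_nsmul, nsmul_eq_mul, CharP.cast_eq_zero, zero_mul, map_zero]
  obtain ⟨a, ha⟩ := Kills_inherit hp hadm hl.isChar_chr.isActR h1 hV hR hle
  obtain ⟨b, hb⟩ := Kills_inherit hp hadm hl.neg.isChar_chr.isActR h2 hV hR hle
  rw [← pow_mul] at ha hb
  exact S6Mix_max ha hb

/-- A non-zero power series which kills `T_V(k[[T]]_λ)` can be replaced by a power of `T`. -/
theorem kills_pow_of_ne_zero {f : K1 p} (hf : f ≠ 0) (h : Kills D V (scal (chr l)) f) :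
    ∃ n : ℕ, Kills D V (scal (chr l)) ((PowerSeries.X : K1 p) ^ n) := by
  obtain ⟨n, hn⟩ := IsDiscreteValuationRing.associated_pow_irreducible hf
    (PowerSeries.X_prime (R := ZMod p)).irreducible
  exact ⟨n, h.of_dvd hn.dvd⟩

theorem ZR_redS {α : FF p → K2 p} (hα : α ∈ ZR D V (scal (chr2 m l))) :
    (fun x => redS (α x)) ∈ ZR D V (scal (chr l)) := by
  have h := ZR_map continuous_redS hα
  rwa [redS_chr2] at h

theorem ZR_phiE (E : ℕ) {α : FF p → K2 p} (hα : α ∈ ZR D V (scal (chr2 m l))) :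
    (fun x => phiE E (α x)) ∈ ZR D V (scal (chr (m + ((p : ℤ_[p]) ^ E) • l))) := by
  have h := ZR_map (continuous_phiE E) hα
  rwa [phiE_chr2] at h

theorem ZR_psiE (E : ℕ) {α : FF p → K2 p} (hα : α ∈ ZR D V (scal (chr2 m l))) :
    (fun x => psiE E (α x)) ∈ ZR D V (scal (chr (l + ((p : ℤ_[p]) ^ E) • m))) := by
  have h := ZR_map (continuous_psiE E) hα
  rwa [psiE_chr2] at h

/-- Primitives of cup products are compatible with continuous ring homs. -/
theorem IsF.map_ring {A A' : Type} [CommRing A] [TopologicalSpace A] [CommRing A']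
    [TopologicalSpace A'] {φ : A →+* A'} (hφ : Continuous φ) {χ' α β F : FF p → A}
    (h : IsF V χ' α β F) :
    IsF V (fun x => φ (χ' x)) (fun x => φ (α x)) (fun x => φ (β x)) (fun x => φ (F x)) := by
  refine ⟨hφ.comp h.cont, fun x hx => ?_, fun g hg k hk => ?_⟩
  · change φ (F x) = 0
    rw [h.supp x hx, map_zero]
  · change φ (F (g * k)) = φ (F g) + φ (F k) + φ (χ' g) * φ (α g) * φ (β k)
    rw [h.mul g hg k hk, map_add, map_add, map_mul, map_mul]

/-- (6.4), lifting. -/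
theorem exists_lift2 (hadm : Adm D V) (hm : IsX D V m) (hl : IsX D V l) (hg : Good D V l) :
    ∃ (q : ℕ) (f : K2 p), redS f = (PowerSeries.X : K1 p) ^ q ∧
      Kills D V (scal (chr2 m l)) f ∧
      ∀ α ∈ ZR D V (scal (chr l)), ∃ α' ∈ ZR D V (scal (chr2 m l)),
        ∀ x, redS (α' x) = (PowerSeries.X : K1 p) ^ q * α x := by
  obtain ⟨n, h1, -⟩ := hg
  have hX : (MvPowerSeries.X 0 : K2 p) ≠ 0 := by
    intro h0
    have h00 := congrArg (MvPowerSeries.coeff (Finsupp.single (0 : Fin 2) 1)) h0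
    rw [MvPowerSeries.coeff_index_single_self_X, map_zero] at h00
    exact one_ne_zero h00
  have h2 : Kills D V (scal fun x => redS (chr2 m l x))
      (redS (inc 1 ((PowerSeries.X : K1 p) ^ n))) := by
    rw [redS_chr2, redS_inc_one]
    exact h1
  obtain ⟨q, f, h3, h4, h5⟩ := lemmaL continuous_redS redS_surjective hadm (isChar_chr2 hm hl)
    (mem_nonZeroDivisors_of_ne_zero hX) redS_eq_zero_iff h2
  rw [redS_inc_one, ← pow_mul] at h3 h5
  rw [redS_chr2] at h5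
  exact ⟨n * q, f, h3, h4, h5⟩

/-- (6.4): `m + p^E l` and `l + p^E m` are good for large `E`. -/
theorem good_mix (hadm : Adm D V) (hm : IsX D V m) (hl : IsX D V l) (hg : Good D V l) :
    ∃ E0 : ℕ, ∀ E ≥ E0, Good D V (m + ((p : ℤ_[p]) ^ E) • l) ∧
      Good D V (l + ((p : ℤ_[p]) ^ E) • m) := by
  obtain ⟨q, f, h1, h2, -⟩ := exists_lift2 hadm hm hl hg
  obtain ⟨q', f', h1', h2', -⟩ := exists_lift2 hadm hm.neg hl.neg hg.neg
  have hX : ∀ k : ℕ, (PowerSeries.X : K1 p) ^ k ≠ 0 := fun k => pow_ne_zero _ PowerSeries.X_ne_zero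
  have hf : f ≠ 0 := by
    rintro rfl
    rw [map_zero] at h1
    exact hX _ h1.symm
  have hf' : f' ≠ 0 := by
    rintro rfl
    rw [map_zero] at h1'
    exact hX _ h1'.symm
  obtain ⟨a, ha⟩ := phiE_ne_zero f hf
  obtain ⟨b, hb⟩ := psiE_ne_zero f hf
  obtain ⟨a', ha'⟩ := phiE_ne_zero f' hf'
  obtain ⟨b', hb'⟩ := psiE_ne_zero f' hf'
  refine ⟨max (max a b) (max a' b'), fun E hE => ?_⟩
  have hEa : E ≥ a := (le_max_left a b).trans ((le_max_left _ _).trans hE)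
  have hEb : E ≥ b := (le_max_right a b).trans ((le_max_left _ _).trans hE)
  have hEa' : E ≥ a' := (le_max_left a' b').trans ((le_max_right _ _).trans hE)
  have hEb' : E ≥ b' := (le_max_right a' b').trans ((le_max_right _ _).trans hE)
  have e1 : -m + ((p : ℤ_[p]) ^ E) • -l = -(m + ((p : ℤ_[p]) ^ E) • l) := by
    rw [smul_neg, neg_add]
  have e2 : -l + ((p : ℤ_[p]) ^ E) • -m = -(l + ((p : ℤ_[p]) ^ E) • m) := by
    rw [smul_neg, neg_add]
  have k1 := Kills_map (continuous_phiE E) (phiE_surjective E) hadm (isChar_chr2 hm hl) h2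
  have k2 := Kills_map (continuous_psiE E) (psiE_surjective E) hadm (isChar_chr2 hm hl) h2
  have k3 := Kills_map (continuous_phiE E) (phiE_surjective E) hadm
    (isChar_chr2 hm.neg hl.neg) h2'
  have k4 := Kills_map (continuous_psiE E) (psiE_surjective E) hadm
    (isChar_chr2 hm.neg hl.neg) h2'
  rw [phiE_chr2] at k1 k3
  rw [psiE_chr2] at k2 k4
  rw [e1] at k3
  rw [e2] at k4
  obtain ⟨n1, j1⟩ := kills_pow_of_ne_zero (ha E hEa) k1
  obtain ⟨n2, j2⟩ := kills_pow_of_ne_zero (hb E hEb) k2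
  obtain ⟨n3, j3⟩ := kills_pow_of_ne_zero (ha' E hEa') k3
  obtain ⟨n4, j4⟩ := kills_pow_of_ne_zero (hb' E hEb') k4
  exact ⟨S6Mix_max j1 j3, S6Mix_max j2 j4⟩

/-- (6.4) for the test `α(v) ≠ 0`. -/
theorem val_mix (hadm : Adm D V) (hm : IsX D V m) (hl : IsX D V l) (hg : Good D V l)
    {v : FF p} (h : ∃ α ∈ ZR D V (scal (chr l)), (α : FF p → K1 p) v ≠ 0) :
    ∃ E0 : ℕ, ∀ E ≥ E0,
      (∃ α ∈ ZR D V (scal (chr (m + ((p : ℤ_[p]) ^ E) • l))), (α : FF p → K1 p) v ≠ 0) ∧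
      (∃ α ∈ ZR D V (scal (chr (l + ((p : ℤ_[p]) ^ E) • m))), (α : FF p → K1 p) v ≠ 0) := by
  obtain ⟨α, hα, hv⟩ := h
  obtain ⟨q, f, -, -, h3⟩ := exists_lift2 hadm hm hl hg
  obtain ⟨α', hα', h4⟩ := h3 α hα
  have hne : α' v ≠ 0 := by
    intro h0
    have h5 := h4 v
    rw [h0, map_zero] at h5
    exact mul_ne_zero (pow_ne_zero _ PowerSeries.X_ne_zero) hv h5.symm
  obtain ⟨a, ha⟩ := phiE_ne_zero _ hne
  obtain ⟨b, hb⟩ := psiE_ne_zero _ hne
  exact ⟨max a b, fun E hE => ⟨⟨_, ZR_phiE E hα', ha E ((le_max_left a b).trans hE)⟩,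
    ⟨_, ZR_psiE E hα', hb E ((le_max_right a b).trans hE)⟩⟩⟩

end D687
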