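import Pool.Agent.Lib_MP_d687bf.S10A
import Pool.Agent.Lib_MP_d687bf.S6Mix

/-!
MP_d687bf, S10B: lifting a test to `k[[S,T]]`; stability of the tests under mixing (6.4).

`exists_K2`: lift `α` with `exists_lift2` for `(m, l)`, `β` with `exists_lift2` for `(-m, -l)`
(`Good.neg`, `IsX.neg`), to `α₁`, `β₁` with `redS ∘ α₁ = X^q₁ α`, `redS ∘ β₁ = X^q₂ β`; multiply by
powers of `inc 1 X` (or take `q = max`, i.e. `α' = (inc 1 X)^(q-q₁) • α₁`; `redS_inc_one`). `F'` by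
`exists_F` (`isChar_chr2`, `chr2_mul_neg`; topology `proPRing` instances of `Rings.lean`). Then
`redS ∘ F'` and `X^(2q) • F` are both primitives for `X^q α`, `X^q β` and the character `chr (-l)`
(`IsF.map_ring`, `redS_chr2`, `IsF.smul_left`, `IsF.smul_right`), so the linear parts agree
(`tst_indep`, `lin_map`, `lin_smul`).

`mixSt_pass`: take `α, β, F` from `Pass` for `l`; `exists_K2` gives `α', β', F'` with
`redS (tst …) = X^(2q) tst … ≠ 0` (`tst_map`, `tst_indep`, `tst_smul`), so `tst … ≠ 0` in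
`k[[S,T]]`; for large `E`, `phiE E` and `psiE E` do not kill it (`phiE_ne_zero`, `psiE_ne_zero`);
`phiE E ∘ α' ∈ Z_R(chr (m + p^E l))` (`ZR_phiE`), `phiE E ∘ β' ∈ Z_R(chr (-m + p^E (-l)))` and
`-m + p^E • (-l) = -(m + p^E • l)`; `phiE E ∘ F'` is a primitive (`IsF.map_ring`, `phiE_chr2`).
-/

set_option autoImplicit false

open Set Filter Topology

namespace D687

variable {p : ℕ} [Fact p.Prime] {D : Datum p} {V : Subgroup (FF p)} {n : ℕ} {u : Fin n → FF p}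
  {z : Ch D} {x : Fin n → ZMod p} {l m : FF p → ℤ_[p]}

private theorem S10B_raise {m l : FF p → ℤ_[p]} {γ : FF p → K1 p} {γ' : FF p → K2 p} {a q : ℕ}
    (h : γ' ∈ ZR D V (scal (chr2 m l))) (h' : ∀ v, redS (γ' v) = (PowerSeries.X : K1 p) ^ a * γ v)
    (haq : a ≤ q) : ∃ γ'' ∈ ZR D V (scal (chr2 m l)),
      ∀ v, redS ((γ'' : FF p → K2 p) v) = (PowerSeries.X : K1 p) ^ q * γ v := by
  refine ⟨(inc 1 ((PowerSeries.X : K1 p) ^ (q - a)) : K2 p) • γ', Submodule.smul_mem _ _ h, ?_⟩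
  intro v
  show redS (inc 1 ((PowerSeries.X : K1 p) ^ (q - a)) * γ' v) = _
  rw [map_mul, redS_inc_one, h' v, ← mul_assoc, ← pow_add, Nat.sub_add_cancel haq]

theorem exists_K2 (hadm : Adm D V) (hl : IsX D V l) (hg : Good D V l) (hm : IsX D V m)
    {α β F : FF p → K1 p} (hα : α ∈ ZR D V (scal (chr l))) (hβ : β ∈ ZR D V (scal (chr (-l))))
    (hF : IsF V (chr (-l)) α β F) :
    ∃ (q : ℕ) (α' β' F' : FF p → K2 p), α' ∈ ZR D V (scal (chr2 m l)) ∧
      β' ∈ ZR D V (scal (chr2 (-m) (-l))) ∧ IsF V (chr2 (-m) (-l)) α' β' F' ∧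
      (∀ v, redS (α' v) = (PowerSeries.X : K1 p) ^ q * α v) ∧
      (∀ v, redS (β' v) = (PowerSeries.X : K1 p) ^ q * β v) ∧
      ∀ (n : ℕ) (u : Fin n → FF p) (z : Ch D) (x : Fin n → ZMod p), IsKK V u z x →
        redS (pair z (ev D F') + ∑ j, x j • F' (u j)) =
          (PowerSeries.X : K1 p) ^ (2 * q) * (pair z (ev D F) + ∑ j, x j • F (u j)) ∧
        redS (tst u z x (chr2 m l) α' β' F') =
          (PowerSeries.X : K1 p) ^ (2 * q) * tst u z x (chr l) α β F := by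
  obtain ⟨q1, -, -, -, h1⟩ := exists_lift2 hadm hm hl hg
  obtain ⟨q2, -, -, -, h2⟩ := exists_lift2 hadm hm.neg hl.neg hg.neg
  obtain ⟨α1, hα1, hα1'⟩ := h1 α hα
  obtain ⟨β1, hβ1, hβ1'⟩ := h2 β hβ
  obtain ⟨α', hα', e1⟩ := S10B_raise hα1 hα1' (le_max_left q1 q2)
  obtain ⟨β', hβ', e2⟩ := S10B_raise hβ1 hβ1' (le_max_right q1 q2)
  generalize max q1 q2 = q at e1 e2
  have hα0 : α' ∈ Z1 V (scal (chr2 m l)) := hα'.1
  have hβ0 : β' ∈ Z1 V (scal (chr2 (-m) (-l))) := hβ'.1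
  obtain ⟨F', hF'⟩ := exists_F (D := D) hadm.isOpen (isChar_chr2 hm hl)
    (isChar_chr2 hm.neg hl.neg) (fun v _ => chr2_mul_neg m l v) hα0 hβ0
  refine ⟨q, α', β', F', hα', hβ', hF', e1, e2, ?_⟩
  intro n u z x hz
  have g1 := IsF.map_ring continuous_redS hF'
  rw [redS_chr2] at g1
  have e1' : (fun v => redS (α' v)) = (PowerSeries.X : K1 p) ^ q • α := by
    funext v
    exact e1 v
  have e2' : (fun v => redS (β' v)) = (PowerSeries.X : K1 p) ^ q • β := by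
    funext v
    exact e2 v
  rw [e1', e2'] at g1
  have g2 : IsF V (chr (-l)) ((PowerSeries.X : K1 p) ^ q • α) ((PowerSeries.X : K1 p) ^ q • β)
      (((PowerSeries.X : K1 p) ^ q * (PowerSeries.X : K1 p) ^ q) • F) := by
    have g3 := (hF.smul_right ((PowerSeries.X : K1 p) ^ q)).smul_left ((PowerSeries.X : K1 p) ^ q)
    rwa [smul_smul] at g3
  have hq : (PowerSeries.X : K1 p) ^ (2 * q) =
      (PowerSeries.X : K1 p) ^ q * (PowerSeries.X : K1 p) ^ q := by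
    rw [two_mul, pow_add]
  obtain ⟨k1, k2⟩ := tst_indep (χ := chr l) hz g1 g2
  constructor
  · rw [lin_map, hq]
    refine Eq.trans k1 ?_
    exact lin_smul _ F
  · rw [tst_map, hq, redS_chr2, e1', e2']
    refine Eq.trans k2 ?_
    exact tst_smul _ _ _ α β F

/-- A non-zero test in `k[[S,T]]` survives the specialisations. -/
theorem pass_of_K2 {α' β' F' : FF p → K2 p} (hα : α' ∈ ZR D V (scal (chr2 m l)))
    (hβ : β' ∈ ZR D V (scal (chr2 (-m) (-l)))) (hF : IsF V (chr2 (-m) (-l)) α' β' F')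
    (h : tst u z x (chr2 m l) α' β' F' ≠ 0) :
    ∃ E0 : ℕ, ∀ E ≥ E0, Pass D V u z x (m + ((p : ℤ_[p]) ^ E) • l) ∧
      Pass D V u z x (l + ((p : ℤ_[p]) ^ E) • m) := by
  obtain ⟨a, ha⟩ := phiE_ne_zero _ h
  obtain ⟨b, hb⟩ := psiE_ne_zero _ h
  refine ⟨max a b, fun E hE => ⟨?_, ?_⟩⟩
  · have e1 : -m + ((p : ℤ_[p]) ^ E) • -l = -(m + ((p : ℤ_[p]) ^ E) • l) := by
      rw [smul_neg, neg_add]
    have k1 := ZR_phiE E hβ
    rw [e1] at k1
    have k2 := IsF.map_ring (continuous_phiE E) hF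
    rw [phiE_chr2, e1] at k2
    have k3 := ha E ((le_max_left a b).trans hE)
    rw [tst_map, phiE_chr2] at k3
    exact ⟨_, ZR_phiE E hα, _, k1, _, k2, k3⟩
  · have e2 : -l + ((p : ℤ_[p]) ^ E) • -m = -(l + ((p : ℤ_[p]) ^ E) • m) := by
      rw [smul_neg, neg_add]
    have k1 := ZR_psiE E hβ
    rw [e2] at k1
    have k2 := IsF.map_ring (continuous_psiE E) hF
    rw [psiE_chr2, e2] at k2
    have k3 := hb E ((le_max_right a b).trans hE)
    rw [tst_map, psiE_chr2] at k3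
    exact ⟨_, ZR_psiE E hα, _, k1, _, k2, k3⟩

theorem mixSt_pass (hadm : Adm D V) (hz : IsKK V u z x) : MixSt D V (Pass D V u z x) := by
  intro l m hl hg hm h
  obtain ⟨α, hα, β, hβ, F, hF, hne⟩ := h
  obtain ⟨q, α', β', F', hα', hβ', hF', -, -, h3⟩ := exists_K2 hadm hl hg hm hα hβ hF
  have h4 := (h3 n u z x hz).2
  refine pass_of_K2 hα' hβ' hF' ?_
  intro h0
  rw [h0, map_zero] at h4
  exact mul_ne_zero (pow_ne_zero _ PowerSeries.X_ne_zero) hne h4.symm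

theorem mixSt_passV (hadm : Adm D V) (v : FF p) : MixSt D V (PassV D V v) := by
  intro l m hl hg hm h
  exact val_mix hadm hm hl hg h

end D687
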