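import Pool.Agent.Lib_MP_d687bf.S9Defs
import Pool.Agent.Lib_MP_d687bf.S6Mix

/-!
MP_d687bf, S10C: one good `λ ≡ λ₀` mod `p` passing finitely many mixing-stable tests.

Induction on `n` (number of tests). First step: `μ = l0 + p^E • l_0` with `E ≥ 1` large, `l_0` the
good character passing `T 0` (`good_mix`, `MixSt` with `l = l_0`, `m = l0`, first component). Step:
`μ` good, passes the tests `T j`, `j < i`; `μ' = μ + p^E • l_i`, `E ≥ 1` large: it is good
(`good_mix` with `l = μ`, `m = l_i`, second component: `μ + p^E • l_i`), passes the old tests (`MixSt`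
with `l = μ`, `m = l_i`, second component) and the new one (`MixSt` with `l = l_i`, `m = μ`, first
component: `μ + p^E • l_i`).
-/

set_option autoImplicit false

open Set Filter Topology

namespace D687

variable {p : ℕ} [Fact p.Prime] {D : Datum p} {V : Subgroup (FF p)}

private theorem S10C_toZMod {E : ℕ} (hE : 1 ≤ E) (x y : ℤ_[p]) :
    PadicInt.toZMod (x + (p : ℤ_[p]) ^ E * y) = PadicInt.toZMod x := by
  rw [map_add, map_mul, map_pow, map_natCast, CharP.cast_eq_zero, zero_pow (by omega), zero_mul,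
    add_zero]

/-- One more test. -/
theorem exists_common_step (hadm : Adm D V) {l m : FF p → ℤ_[p]} (hl : IsX D V l)
    (hg : Good D V l) (hm : IsX D V m) (hgm : Good D V m) {n : ℕ}
    (T : Fin n → (FF p → ℤ_[p]) → Prop) (hT : ∀ i, MixSt D V (T i)) (hTl : ∀ i, T i l)
    {P : (FF p → ℤ_[p]) → Prop} (hP : MixSt D V P) (hPm : P m) :
    ∃ l', IsX D V l' ∧ Good D V l' ∧ (∀ i, T i l') ∧ P l' ∧
      ∀ x ∈ V, PadicInt.toZMod (l' x) = PadicInt.toZMod (l x) := by
  obtain ⟨E1, h1⟩ := good_mix hadm hm hl hg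
  obtain ⟨E2, h2⟩ := hP m l hm hgm hl hPm
  have h3 : ∀ i, ∃ E0 : ℕ, ∀ E ≥ E0, T i (m + ((p : ℤ_[p]) ^ E) • l) ∧
      T i (l + ((p : ℤ_[p]) ^ E) • m) := fun i => hT i l m hl hg hm (hTl i)
  choose e he using h3
  have hle : ∀ i, e i ≤ ∑ j, e j := fun i =>
    Finset.single_le_sum (f := e) (fun j _ => Nat.zero_le _) (Finset.mem_univ i)
  refine ⟨l + ((p : ℤ_[p]) ^ (E1 + E2 + (∑ j, e j) + 1)) • m, hl.map_add' (hm.smul _),
    (h1 _ (by omega)).2, fun i => (he i _ ?_).2, (h2 _ (by omega)).1, fun x _ => ?_⟩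
  · have := hle i
    omega
  · exact S10C_toZMod (by omega) _ _

theorem exists_common (hadm : Adm D V) {n : ℕ} (T : Fin (n + 1) → (FF p → ℤ_[p]) → Prop)
    (hT : ∀ i, MixSt D V (T i)) (hpass : ∀ i, ∃ l, IsX D V l ∧ Good D V l ∧ T i l)
    {l0 : FF p → ℤ_[p]} (hl0 : IsX D V l0) :
    ∃ l, IsX D V l ∧ Good D V l ∧ (∀ i, T i l) ∧
      ∀ x ∈ V, PadicInt.toZMod (l x) = PadicInt.toZMod (l0 x) := by
  induction n with
  | zero =>
    obtain ⟨l, hl, hg, hTl⟩ := hpass 0
    obtain ⟨E1, h1⟩ := good_mix hadm hl0 hl hg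
    obtain ⟨E2, h2⟩ := hT 0 l l0 hl hg hl0 hTl
    refine ⟨l0 + ((p : ℤ_[p]) ^ (E1 + E2 + 1)) • l, hl0.map_add' (hl.smul _),
      (h1 _ (by omega)).1, fun i => ?_, fun x _ => ?_⟩
    · obtain rfl : i = 0 := Fin.ext (by omega)
      exact (h2 _ (by omega)).1
    · exact S10C_toZMod (by omega) _ _
  | succ n ih =>
    obtain ⟨μ, hμ, hgμ, hTμ, hcμ⟩ := ih (fun i => T i.castSucc) (fun i => hT _) fun i => hpass _
    obtain ⟨m, hm, hgm, hTm⟩ := hpass (Fin.last (n + 1))
    obtain ⟨l', hl', hg', hT', hP', hc'⟩ := exists_common_step hadm hμ hgμ hm hgm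
      (fun i => T i.castSucc) (fun i => hT _) hTμ (hT (Fin.last (n + 1))) hTm
    refine ⟨l', hl', hg', fun i => ?_, fun x hx => (hc' x hx).trans (hcμ x hx)⟩
    induction i using Fin.lastCases with
    | last => exact hP'
    | cast i => exact hT' i

end D687
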