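import Pool.Agent.Lib_MP_d687bf.S9A

/-!
MP_d687bf, S10D: (10.3) and (10.4).

`exists_lambda0`: let `M` be the set of functions `f_l : FF p → ZMod p`, `f_l g = toZMod (l (g u g⁻¹))`,
`l ∈ X(V)` (`V` normal). It is a `k`-subspace (an additive subgroup closed under scalars), finite:
`f_l (v g) = f_l g` for `v ∈ V` and also `f_l (g v) = f_l g` for `v ∈ V`
(`l (g v u v⁻¹ g⁻¹) = l (g u g⁻¹)`), so `f_l` factors through the finite group `Q = FF / V`
(`index_open`). `Q` acts on `M` by left translation (`(h f)(g) = f (h⁻¹ g)` is `f_{l'}` for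
`l' x = l (h⁻¹ x h)`, `IsX.conj`). `M ≠ 0`: `l u` is a unit for some `l`. `|M|` is a power of `p`
(additive group killed by `p`), so there is a fixed point `≠ 0`
(`IsPGroup.exists_fixed_point_of_prime_dvd_card_of_fixed_point`, `Q` a `p`-group): a constant function
`c ≠ 0`; it is `f_l` for some `l ∈ X(V)`; multiply `l` by a lift of `c⁻¹`.

`exists_v0` = (10.4): `γ` from `S.nz` for `v = u` (`exists_HH_ne_zero`): `γ ∈ X(V1)` good for `V`,
`γ u = 0`, `α ∈ Z_R(V, k[[T]]_γ)`, `α u ≠ 0`, `γ x ≠ 0` for some `x ∈ V1`. `V` has finite index: with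
`g = x^N ∈ V`, `N > 0`, `γ g = N γ x ≠ 0`. `v0 = u g u⁻¹ g⁻¹ = u (g u⁻¹ g⁻¹)`,
`α v0 = α u + t^(γ g) α (u⁻¹) = (1 - t^(γ g)) α u ≠ 0` (`tpow_ne_one`, `ZR`, `Z1_conj`, `Z1_inv`).
`l v0 = 0` for all `l ∈ X(V)`.
-/

set_option autoImplicit false

open Set Filter Topology

namespace D687

variable {p : ℕ} [Fact p.Prime] {D : Datum p} {V : Subgroup (FF p)} {u : FF p}

/-- the functions `q ↦ λ(q u q⁻¹) mod p` -/
private def S10D_M (D : Datum p) (V : Subgroup (FF p)) (u : FF p) :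
    Submodule (ZMod p) ((FF p ⧸ V) → ZMod p) where
  carrier := {φ | ∃ l, IsX D V l ∧ ∀ g : FF p,
    φ (QuotientGroup.mk g) = PadicInt.toZMod (l (g * u * g⁻¹))}
  add_mem' := by
    rintro a b ⟨l, hl, h1⟩ ⟨m, hm, h2⟩
    refine ⟨l + m, hl.map_add' hm, fun g => ?_⟩
    rw [Pi.add_apply, Pi.add_apply, h1, h2, map_add]
  zero_mem' := ⟨0, IsX.zero, fun g => by simp⟩
  smul_mem' := by
    rintro c a ⟨l, hl, h1⟩
    obtain ⟨d, rfl⟩ := ZMod.ringHom_surjective (PadicInt.toZMod (p := p)) c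
    refine ⟨d • l, hl.smul d, fun g => ?_⟩
    rw [Pi.smul_apply, Pi.smul_apply, h1, smul_eq_mul, smul_eq_mul, map_mul]

private theorem S10D_mem {φ : (FF p ⧸ V) → ZMod p} : φ ∈ S10D_M D V u ↔ ∃ l, IsX D V l ∧
    ∀ g : FF p, φ (QuotientGroup.mk g) = PadicInt.toZMod (l (g * u * g⁻¹)) := Iff.rfl

private theorem S10D_shift (hn : V.Normal) {φ : (FF p ⧸ V) → ZMod p}
    (hφ : φ ∈ S10D_M D V u) (h : FF p ⧸ V) :
    (fun x => φ (h⁻¹ * x)) ∈ S10D_M D V u := by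
  obtain ⟨l, hl, h1⟩ := hφ
  obtain ⟨k, rfl⟩ := QuotientGroup.mk_surjective h
  refine ⟨fun x => l (k⁻¹ * x * k⁻¹⁻¹), hl.conj hn k⁻¹, fun g => ?_⟩
  have h2 : ((k : FF p ⧸ V)⁻¹ * (g : FF p ⧸ V)) = ((k⁻¹ * g : FF p) : FF p ⧸ V) := rfl
  change φ ((k : FF p ⧸ V)⁻¹ * (g : FF p ⧸ V)) = _
  rw [h2, h1]
  congr 2
  group

/-- the action by left translation -/
@[reducible] private def S10D_act (hn : V.Normal) : MulAction (FF p ⧸ V) (S10D_M D V u) where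
  smul h φ := ⟨fun x => φ.1 (h⁻¹ * x), S10D_shift hn φ.2 h⟩
  one_smul φ := by
    apply Subtype.ext
    funext x
    change φ.1 (1⁻¹ * x) = φ.1 x
    rw [inv_one, one_mul]
  mul_smul h k φ := by
    apply Subtype.ext
    funext x
    change φ.1 ((h * k)⁻¹ * x) = φ.1 (k⁻¹ * (h⁻¹ * x))
    rw [mul_inv_rev, mul_assoc]

private theorem S10D_exists (hn : V.Normal) (hu : u ∈ V) {l : FF p → ℤ_[p]} (hl : IsX D V l) :
    ∃ φ ∈ S10D_M D V u, φ (QuotientGroup.mk 1) = PadicInt.toZMod (l u) := by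
  have h1 : ∀ (g v : FF p), v ∈ V → l (g * v * u * (g * v)⁻¹) = l (g * u * g⁻¹) := by
    intro g v hv
    have h2 := hl.conj hn g
    have h3 : g * v * u * (g * v)⁻¹ = g * (v * u * v⁻¹) * g⁻¹ := by group
    rw [h3]
    have h4 := h2.add (v * u) (V.mul_mem hv hu) v⁻¹ (V.inv_mem hv)
    have h5 := h2.add v hv u hu
    have h6 := h2.inv_eq hv
    rw [h5, h6] at h4
    rw [h4]
    ring
  refine ⟨fun q => PadicInt.toZMod (l (q.out * u * q.out⁻¹)), ⟨l, hl, fun g => ?_⟩, ?_⟩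
  · have h2 : g⁻¹ * (QuotientGroup.mk g : FF p ⧸ V).out ∈ V :=
      QuotientGroup.eq.mp (QuotientGroup.out_eq' (QuotientGroup.mk g : FF p ⧸ V)).symm
    have h3 := h1 g _ h2
    rw [mul_inv_cancel_left] at h3
    exact congrArg _ h3
  · have h2 : (1 : FF p)⁻¹ * (QuotientGroup.mk 1 : FF p ⧸ V).out ∈ V :=
      QuotientGroup.eq.mp (QuotientGroup.out_eq' (QuotientGroup.mk (1 : FF p) : FF p ⧸ V)).symm
    have h3 := h1 1 _ h2
    rw [mul_inv_cancel_left, one_mul, inv_one, mul_one] at h3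
    exact congrArg _ h3

/-- (10.3) -/
theorem exists_lambda0 (hn : V.Normal) (hV : IsOpen (V : Set (FF p))) (hR : D.R ≤ V)
    (hu : u ∈ V) (hunit : ∃ l, IsX D V l ∧ IsUnit (l u)) :
    ∃ l, IsX D V l ∧ ∀ g : FF p, PadicInt.toZMod (l (g * u * g⁻¹)) = 1 := by
  classical
  obtain ⟨n, hidx⟩ := index_open V hV
  have hfi : V.FiniteIndex := ⟨by rw [hidx]; exact pow_ne_zero _ (Fact.out : p.Prime).ne_zero⟩
  have hfin : Finite (FF p ⧸ V) := inferInstance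
  have hpg : IsPGroup p (FF p ⧸ V) := IsPGroup.of_card (n := n) hidx
  have hfinM : Finite (S10D_M D V u) := inferInstance
  let _ := S10D_act (D := D) (u := u) hn
  obtain ⟨l, hl, hlu⟩ := hunit
  obtain ⟨φ, hφ, hφ1⟩ := S10D_exists hn hu hl
  have hne : PadicInt.toZMod (l u) ≠ 0 := (hlu.map PadicInt.toZMod).ne_zero
  have hφ0 : φ ≠ 0 := by
    rintro rfl
    exact hne hφ1.symm
  have hnt : Nontrivial (S10D_M D V u) :=
    ⟨⟨⟨φ, hφ⟩, 0, fun h => hφ0 (congrArg Subtype.val h)⟩⟩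
  have hcard : p ∣ Nat.card (S10D_M D V u) := by
    rw [Module.natCard_eq_pow_finrank (K := ZMod p), Nat.card_zmod]
    exact dvd_pow_self _ (Module.finrank_pos).ne'
  have h0 : (0 : S10D_M D V u) ∈ MulAction.fixedPoints (FF p ⧸ V) (S10D_M D V u) := by
    intro h
    exact Subtype.ext (funext fun x => rfl)
  obtain ⟨b, hb, hb0⟩ := hpg.exists_fixed_point_of_prime_dvd_card_of_fixed_point _ hcard h0
  obtain ⟨ψ, hψ⟩ := b
  have hconst : ∀ x : FF p ⧸ V, ψ x = ψ 1 := by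
    intro x
    have h1 := hb x
    have h2 : ψ (x⁻¹ * x) = ψ x := congrFun (congrArg Subtype.val h1) x
    rw [inv_mul_cancel] at h2
    exact h2.symm
  have hc : ψ 1 ≠ 0 := by
    intro h
    apply hb0
    apply Subtype.ext
    funext x
    change 0 = ψ x
    rw [hconst x, h]
  obtain ⟨m, hm, hmg⟩ := hψ
  obtain ⟨d, hd⟩ := ZMod.ringHom_surjective (PadicInt.toZMod (p := p)) (ψ 1)⁻¹
  refine ⟨d • m, hm.smul d, fun g => ?_⟩
  rw [Pi.smul_apply, smul_eq_mul, map_mul, hd, ← hmg g, hconst (QuotientGroup.mk g)]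
  exact inv_mul_cancel₀ hc

/-- (10.4) -/
theorem exists_v0 (S : Sys D) (hV : IsOpen (V : Set (FF p))) (hR : D.R ≤ V) (hle : V ≤ S.V1)
    (hu : u ∈ V) (hunit : ∃ l, IsX D V l ∧ IsUnit (l u)) :
    ∃ v0 ∈ V, (∀ l, IsX D V l → l v0 = 0) ∧
      ∃ g, IsX D V g ∧ Good D V g ∧ PassV D V v0 g := by
  obtain ⟨l0, hl0, hl0u⟩ := hunit
  obtain ⟨γ, hγ, ⟨x, hx, hγx⟩, hγu, hgood, ⟨α, hα, hαu⟩, -⟩ :=
    S.nz V hV hR hle u hu (exists_HH_ne_zero hV hR hu hl0 hl0u)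
  obtain ⟨n, hidx⟩ := index_open V hV
  have hi0 : V.index ≠ 0 := by rw [hidx]; exact pow_ne_zero _ (Fact.out : p.Prime).ne_zero
  obtain ⟨N, hN, -, hxN⟩ := Subgroup.exists_pow_mem_of_index_ne_zero hi0 x
  have hγV : IsX D V γ := hγ.mono hle
  set y := x ^ N with hy
  have hγy : γ y ≠ 0 := by
    rw [hy, hγ.pow_eq hx N]
    exact mul_ne_zero (Nat.cast_ne_zero.mpr (by omega)) hγx
  have hact : IsAct V (scal (chr γ)) := (hγV.isChar_chr).isActR.toIsAct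
  have hαZ : α ∈ Z1 V (scal (chr γ)) := hα.1
  have hui : u⁻¹ ∈ V := V.inv_mem hu
  have hyi : y⁻¹ ∈ V := V.inv_mem hxN
  have hc : y * u⁻¹ * y⁻¹ ∈ V := V.mul_mem (V.mul_mem hxN hui) hyi
  refine ⟨u * (y * u⁻¹ * y⁻¹), V.mul_mem hu hc, fun l hl => ?_, γ, hγV, hgood, α, hα, ?_⟩
  · rw [hl.add u hu _ hc, hl.add _ (V.mul_mem hxN hui) _ hyi, hl.add y hxN _ hui, hl.inv_eq hu,
      hl.inv_eq hxN]
    ring
  · have hmul : α (u * (y * u⁻¹ * y⁻¹)) = α u + scal (chr γ) u (α (y * u⁻¹ * y⁻¹)) :=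
      IsZ.mul (hαZ : IsZ V (fun g => scal (chr γ) g) α) u hu _ hc
    have h1 : γ (y * u⁻¹ * y⁻¹) = 0 := by
      rw [hγV.add _ (V.mul_mem hxN hui) _ hyi, hγV.add y hxN _ hui, hγV.inv_eq hu,
        hγV.inv_eq hxN, hγu]
      ring
    have h2 : γ u⁻¹ = 0 := by rw [hγV.inv_eq hu, hγu, neg_zero]
    have hs : ∀ (w : FF p) (a : K1 p), scal (chr γ) w a = tpow (γ w) * a := fun w a => rfl
    rw [hmul, Z1_conj hact hαZ hxN hui, Z1_inv hact hαZ hu, hs, hs, hs, hs, hγu, h1, h2,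
      tpow_zero]
    have h3 : α u + 1 * (α y + tpow (γ y) * -(1 * α u) - 1 * α y) =
        (1 - tpow (γ y)) * α u := by ring
    rw [h3]
    exact mul_ne_zero (sub_ne_zero.mpr (tpow_ne_one _ hγy).symm) hαu

end D687
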