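import Pool.Agent.Lib_MP_d687bf.S10B
import Pool.Agent.Lib_MP_d687bf.S10D

/-!
MP_d687bf, S10E: (10.2), the case `x = 0`.

`S.nd V` gives (`IsKK.isClass`, `NonKK` with `x = 0` means `NonZ`) `α, β, F` for `l = S.b0` with
`pair z (ev F) ≠ 0`. `m ∈ X(V)` with `m (u j) ≠ 0` for all `j` (hypothesis `hm`). `exists_K2` for
`(m, b0)`: `α', β', F'` over `k[[S,T]]` with `redS (pair z (ev F')) = X^(2q) pair z (ev F) ≠ 0`
(sum over `j` is `0` since `x = 0`). `tst … = D * pair z (ev F')`, `D = ∏ (chr2 m b0 (u j) - 1)`, is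
not zero: `k[[S,T]]` is a domain, `chr2 m b0 (u j) = 1` would give `m (u j) = 0`
(`inc_mul_inc_eq_one`). `pass_of_K2`, `good_mix`: `b0 + p^E • m`.
-/

set_option autoImplicit false

open Set Filter Topology

namespace D687

variable {p : ℕ} [Fact p.Prime] {D : Datum p} {V : Subgroup (FF p)} {n : ℕ} {u : Fin n → FF p}

theorem exists_pass_zero (S : Sys D) (hV : IsOpen (V : Set (FF p))) (hR : D.R ≤ V)
    (hle : V ≤ S.V1) {m : FF p → ℤ_[p]} (hm : IsX D V m) (hmu : ∀ j, m (u j) ≠ 0)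
    {z : Ch D} (hz : IsKK V u z 0) (hnz : NonKK V z (0 : Fin n → ZMod p)) :
    ∃ l, IsX D V l ∧ Good D V l ∧ Pass D V u z 0 l := by
  have hadm : Adm D V := S.adm.mono hV hR hle
  have hl : IsX D V S.b0 := S.isX.mono hle
  have hg : Good D V S.b0 := S.good V hV hR hle
  have hnz : NonZ V z := by
    rcases hnz with h | h
    · exact h
    · exact absurd rfl h
  obtain ⟨α, hα, β, hβ, F, hF, hne⟩ := S.nd V hV hR hle z hz.isClass hnz
  obtain ⟨q, α', β', F', hα', hβ', hF', -, -, hred⟩ := exists_K2 hadm hl hg hm hα hβ hF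
  obtain ⟨h1, -⟩ := hred n u z 0 hz
  have hs : ∀ (A : Type) [CommRing A] [Module (ZMod p) A] (G : FF p → A),
      ∑ j, (0 : Fin n → ZMod p) j • G (u j) = 0 := by
    intro A _ _ G
    exact Finset.sum_eq_zero fun j _ => by rw [Pi.zero_apply, zero_smul]
  rw [hs, hs, add_zero, add_zero] at h1
  have h2 : pair z (ev D F') ≠ 0 := by
    intro h0
    rw [h0, map_zero] at h1
    exact mul_ne_zero (pow_ne_zero _ PowerSeries.X_ne_zero) hne h1.symm
  have h3 : tst u z 0 (chr2 m S.b0) α' β' F' ≠ 0 := by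
    unfold tst
    rw [hs, add_zero, Finset.sum_eq_zero fun j _ => by rw [Pi.zero_apply, zero_smul], add_zero]
    refine mul_ne_zero (Finset.prod_ne_zero_iff.2 fun j _ h0 => ?_) h2
    exact hmu j (inc_mul_inc_eq_one (m (u j)) (S.b0 (u j)) (sub_eq_zero.1 h0)).1
  obtain ⟨E1, hE1⟩ := pass_of_K2 hα' hβ' hF' h3
  obtain ⟨E2, hE2⟩ := good_mix hadm hm hl hg
  refine ⟨S.b0 + ((p : ℤ_[p]) ^ max E1 E2) • m, hl.map_add' (hm.smul _),
    (hE2 _ (le_max_right _ _)).2, (hE1 _ (le_max_left _ _)).2⟩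

end D687
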