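import Pool.Agent.Lib_MP_d687bf.S9A
import Pool.Agent.Lib_MP_d687bf.S10B

/-!
MP_d687bf, S10F: (10.2), the case `x ≠ 0`.

`exists_comb`: induction on the finite set `J`: if `ν` works for `J` and `ν_j` is given, the function
`c ↦ f_i(ν) + c f_i(ν_j)` of `c : ℕ` has at most one zero for each `i ∈ J ∪ {j}` (`f_i(ν) ≠ 0` for
`i ∈ J`, `f_j(ν_j) ≠ 0`), so some `c ≤ |J| + 1` works for `ν + c ν_j`.

`exists_nu`: `V` normal, `u_j = g_j u g_j⁻¹` for representatives `g_j` of `V \ FF / ⟨w⟩`. For `j ≠ j0`: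
`g = g_{j0}⁻¹ g_j` satisfies `g w^k ∉ V` for all `k` (`IsRepW.inj`), `Is93.sep` gives `l` with `l u = 0`,
`l (g u g⁻¹) ≠ 0`; `ν_j x = l (g_{j0}⁻¹ x g_{j0})` (`IsX.conj`). Combine with `exists_comb`.

`exists_lambda1`: `γ` from `S.nz` for `v = u_{j0}`; `l = γ + p^E • ν'`, `E` large: good, passes
the test `PassV` at `u_{j0}` for `l` and for `-l` (`good_mix`, `val_mix` for `(γ, ν')` and
`(-γ, -ν')`), `l (u_{j0}) = 0`, `l (u_j) ≠ 0` for `j ≠ j0` (for each `j` at most one `E` is bad, since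
`ν'(u_j) ≠ 0`).

`exists_pass_ne`: with `α, β` from `PassV` for `l`, `-l` at `u_{j0}` and any `F` (`exists_F`), in `tst`
the factor `D_{j0} = t^0 - 1` is zero, so only the term `j = j0` of the second sum remains:
`x_{j0} ∏_{i ≠ j0} (t^(l u_i) - 1) α(u_{j0}) β(u_{j0}) ≠ 0` (`tpow_ne_one`, domain).
-/

set_option autoImplicit false

open Set Filter Topology

namespace D687

variable {p : ℕ} [Fact p.Prime] {D : Datum p} {V : Subgroup (FF p)} {n : ℕ}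

theorem exists_comb (y0 : FF p) (y : Fin n → FF p) (J : Finset (Fin n))
    (h : ∀ j ∈ J, ∃ l, IsX D V l ∧ l y0 = 0 ∧ l (y j) ≠ 0) :
    ∃ l, IsX D V l ∧ l y0 = 0 ∧ ∀ j ∈ J, l (y j) ≠ 0 := by
  classical
  induction J using Finset.induction_on with
  | empty => exact ⟨0, IsX.zero, rfl, fun j hj => absurd hj (Finset.notMem_empty j)⟩
  | insert j J hj ih =>
    obtain ⟨ν, h1, h2, h3⟩ := ih fun i hi => h i (Finset.mem_insert_of_mem hi)
    obtain ⟨ν', h1', h2', h3'⟩ := h j (Finset.mem_insert_self j J)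
    have hfin : (⋃ i ∈ (insert j J : Finset (Fin n)),
        {c : ℕ | ν (y i) + (c : ℤ_[p]) * ν' (y i) = 0}).Finite := by
      refine Set.Finite.biUnion (Finset.finite_toSet _) fun i hi => Set.Subsingleton.finite ?_
      intro c hc c' hc'
      have e1 : ν (y i) + (c : ℤ_[p]) * ν' (y i) = 0 := hc
      have e2 : ν (y i) + (c' : ℤ_[p]) * ν' (y i) = 0 := hc'
      have e3 : ((c : ℤ_[p]) - c') * ν' (y i) = 0 := by linear_combination e1 - e2
      rcases mul_eq_zero.1 e3 with e4 | e4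
      · exact Nat.cast_injective (sub_eq_zero.1 e4)
      · rw [e4, mul_zero, add_zero] at e1
        rcases Finset.mem_insert.1 (Finset.mem_coe.1 hi) with rfl | hi'
        · exact absurd e4 h3'
        · exact absurd e1 (h3 i hi')
    obtain ⟨c, hc⟩ := hfin.exists_notMem
    refine ⟨ν + (c : ℤ_[p]) • ν', h1.map_add' (h1'.smul _), ?_, fun i hi h0 => ?_⟩
    · simp only [Pi.add_apply, Pi.smul_apply, h2, h2', smul_zero, add_zero]
    · apply hc
      rw [Set.mem_iUnion₂]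
      exact ⟨i, hi, h0⟩

theorem exists_nu {w : FF p} {a : ℕ} (h : Is93 D w V a) {gg : Fin n → FF p}
    (hgg : IsRepW V w gg) (j0 : Fin n) :
    ∃ l, IsX D V l ∧ l (gg j0 * w ^ p ^ a * (gg j0)⁻¹) = 0 ∧
      ∀ j, j ≠ j0 → l (gg j * w ^ p ^ a * (gg j)⁻¹) ≠ 0 := by
  classical
  obtain ⟨l, hl, hl0, hl1⟩ := exists_comb (D := D) (V := V)
    (gg j0 * w ^ p ^ a * (gg j0)⁻¹) (fun j => gg j * w ^ p ^ a * (gg j)⁻¹)
    (Finset.univ.erase j0) (by
      intro j hj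
      have hne : j ≠ j0 := (Finset.mem_erase.1 hj).1
      obtain ⟨l, hl, hl0, hl1⟩ := h.sep ((gg j0)⁻¹ * gg j) (by
        intro k hk
        apply hne
        symm
        refine hgg.inj j0 j ⟨gg j0 * ((gg j0)⁻¹ * gg j * w ^ k) * (gg j0)⁻¹,
          h.normal.conj_mem _ hk _, -k, ?_⟩
        group)
      refine ⟨_, hl.conj h.normal (gg j0)⁻¹, ?_, ?_⟩
      · rw [← hl0]
        congr 1
        group
      · intro h0
        apply hl1
        rw [← h0]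
        congr 1
        group)
  exact ⟨l, hl, hl0, fun j hj => hl1 j (Finset.mem_erase.2 ⟨hj, Finset.mem_univ j⟩)⟩

theorem exists_lambda1 (S : Sys D) {w : FF p} {a : ℕ} (h : Is93 D w V a) (hle : V ≤ S.V1)
    {gg : Fin n → FF p} (hgg : IsRepW V w gg) (j0 : Fin n) :
    ∃ l, IsX D V l ∧ Good D V l ∧ l (gg j0 * w ^ p ^ a * (gg j0)⁻¹) = 0 ∧
      (∀ j, j ≠ j0 → l (gg j * w ^ p ^ a * (gg j)⁻¹) ≠ 0) ∧
      PassV D V (gg j0 * w ^ p ^ a * (gg j0)⁻¹) l ∧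
      PassV D V (gg j0 * w ^ p ^ a * (gg j0)⁻¹) (-l) := by
  classical
  obtain ⟨ν, hν, hν0, hν1⟩ := exists_nu h hgg j0
  have hadm : Adm D V := S.adm.mono h.isOpen h.hR hle
  have hv : gg j0 * w ^ p ^ a * (gg j0)⁻¹ ∈ V := h.normal.conj_mem _ h.ord.pow_mem _
  obtain ⟨l, hl, hlu⟩ := h.unit
  have hHH : ∃ b ∈ HH D V, (b : FF p → ZMod p) (gg j0 * w ^ p ^ a * (gg j0)⁻¹) ≠ 0 := by
    refine exists_HH_ne_zero h.isOpen h.hR hv (hl.conj h.normal (gg j0)⁻¹) ?_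
    have e : (gg j0)⁻¹ * (gg j0 * w ^ p ^ a * (gg j0)⁻¹) * ((gg j0)⁻¹)⁻¹ = w ^ p ^ a := by group
    change IsUnit (l ((gg j0)⁻¹ * (gg j0 * w ^ p ^ a * (gg j0)⁻¹) * ((gg j0)⁻¹)⁻¹))
    rw [e]
    exact hlu
  obtain ⟨γ, hγ', -, hγ0, hγg, hγ1, hγ2⟩ := S.nz V h.isOpen h.hR hle _ hv hHH
  have hγ : IsX D V γ := hγ'.mono hle
  obtain ⟨E1, hE1⟩ := good_mix hadm hν hγ hγg
  obtain ⟨E2, hE2⟩ := val_mix hadm hν hγ hγg hγ1
  obtain ⟨E3, hE3⟩ := val_mix hadm hν.neg hγ.neg hγg.neg hγ2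
  have hbad : ∀ j, ∀ᶠ E : ℕ in atTop, j ≠ j0 →
      γ (gg j * w ^ p ^ a * (gg j)⁻¹) + (p : ℤ_[p]) ^ E * ν (gg j * w ^ p ^ a * (gg j)⁻¹) ≠ 0 := by
    intro j
    by_cases hj : j = j0
    · exact Eventually.of_forall fun E hE => absurd hj hE
    have hfin : {E : ℕ | γ (gg j * w ^ p ^ a * (gg j)⁻¹) +
        (p : ℤ_[p]) ^ E * ν (gg j * w ^ p ^ a * (gg j)⁻¹) = 0}.Finite := by
      apply Set.Subsingleton.finite
      intro E hE E' hE'
      have e1 : γ (gg j * w ^ p ^ a * (gg j)⁻¹) +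
        (p : ℤ_[p]) ^ E * ν (gg j * w ^ p ^ a * (gg j)⁻¹) = 0 := hE
      have e2 : γ (gg j * w ^ p ^ a * (gg j)⁻¹) +
        (p : ℤ_[p]) ^ E' * ν (gg j * w ^ p ^ a * (gg j)⁻¹) = 0 := hE'
      have e3 : ((p : ℤ_[p]) ^ E - (p : ℤ_[p]) ^ E') * ν (gg j * w ^ p ^ a * (gg j)⁻¹) = 0 := by
        linear_combination e1 - e2
      rcases mul_eq_zero.1 e3 with e4 | e4
      · have e5 : ((p ^ E : ℕ) : ℤ_[p]) = ((p ^ E' : ℕ) : ℤ_[p]) := by
          push_cast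
          exact sub_eq_zero.1 e4
        exact Nat.pow_right_injective (Fact.out : p.Prime).two_le (Nat.cast_injective e5)
      · exact absurd e4 (hν1 j hj)
    rw [← Nat.cofinite_eq_atTop]
    filter_upwards [hfin.compl_mem_cofinite] with E hE _ using hE
  obtain ⟨E, ⟨⟨hb, h1⟩, h2⟩, h3⟩ := (((eventually_all.2 hbad).and
    (eventually_ge_atTop E1)).and (eventually_ge_atTop E2) |>.and
    (eventually_ge_atTop E3)).exists
  refine ⟨γ + ((p : ℤ_[p]) ^ E) • ν, hγ.map_add' (hν.smul _), (hE1 E h1).2, ?_, fun j hj => ?_,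
    (hE2 E h2).2, ?_⟩
  · simp only [Pi.add_apply, Pi.smul_apply, hγ0, hν0, smul_zero, add_zero]
  · exact hb j hj
  · have e : -γ + ((p : ℤ_[p]) ^ E) • -ν = -(γ + ((p : ℤ_[p]) ^ E) • ν) := by
      rw [smul_neg, neg_add]
    rw [← e]
    exact (hE3 E h3).2

theorem exists_pass_ne (hV : IsOpen (V : Set (FF p))) {u : Fin n → FF p} {j0 : Fin n}
    {l : FF p → ℤ_[p]} (hl : IsX D V l) (h0 : l (u j0) = 0) (h1 : ∀ j, j ≠ j0 → l (u j) ≠ 0)
    (hp : PassV D V (u j0) l) (hp' : PassV D V (u j0) (-l)) (z : Ch D) {x : Fin n → ZMod p}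
    (hx : x j0 ≠ 0) : Pass D V u z x l := by
  classical
  obtain ⟨α, hα, hα1⟩ := hp
  obtain ⟨β, hβ, hβ1⟩ := hp'
  obtain ⟨F, hF⟩ := exists_F hV hl.isChar_chr hl.neg.isChar_chr (fun v _ => chr_mul_neg l v)
    hα.1 hβ.1
  refine ⟨α, hα, β, hβ, F, hF, ?_⟩
  have hz : chr l (u j0) - 1 = 0 := by
    unfold chr
    rw [h0, tpow_zero, sub_self]
  unfold tst
  rw [Finset.prod_eq_zero (Finset.mem_univ j0) hz, zero_mul, zero_add,
    Finset.sum_eq_single j0]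
  · have hprod : ∏ i ∈ Finset.univ.erase j0, (chr l (u i) - 1) ≠ 0 := by
      rw [Finset.prod_ne_zero_iff]
      intro i hi
      exact sub_ne_zero.2 (tpow_ne_one _ (h1 i (Finset.mem_erase.1 hi).1))
    exact smul_ne_zero hx (mul_ne_zero hprod (mul_ne_zero hα1 hβ1))
  · intro j _ hj
    rw [Finset.prod_eq_zero (Finset.mem_erase.2 ⟨hj.symm, Finset.mem_univ j0⟩) hz, zero_mul,
      smul_zero]
  · intro h
    exact absurd (Finset.mem_univ j0) h

end D687
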