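import Pool.Agent.Lib_MP_d687bf.S10C
import Pool.Agent.Lib_MP_d687bf.S10E
import Pool.Agent.Lib_MP_d687bf.S10F

/-!
MP_d687bf, S10G: (10.5), the choice of `λ`.

`u = w^(p^a) ∈ V` (`IsOrd`), `u_j = g_j u g_j⁻¹`. The finitely many tests: `PassV` at `v0`
(`exists_v0`, `mixSt_passV`), and `Pass` for `(zz i, x)` where `i` runs over `exists_fin_chains` and
`x : Fin n → ZMod p` (a finite type), for those `(i, x)` with `IsKK` and `NonKK` (for the others use the
trivial test `fun _ => True`); stable by `mixSt_pass`; each of them is passed by a good character: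
`exists_pass_zero` with `m = λ₀` of `exists_lambda0` if `x = 0`, `exists_lambda1` and `exists_pass_ne`
if `x j0 ≠ 0`. `exists_common` with `l0 = λ₀` gives `λ`; `λ (g u g⁻¹) ≡ λ₀ (g u g⁻¹) ≡ 1` since
`g u g⁻¹ ∈ V`. For arbitrary `(z, x)` choose `i` with `pair z t = pair (zz i) t` on `C_V(k)`:
`IsKK.congr`, `NonKK.congr`, and in `tst` only `pair z (ev F)` changes, `ev F ∈ C_V(k[[T]])`
(`IsF.ev_mem`, `pair_congr_K1`).
-/

set_option autoImplicit false

open Set Filter Topology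

namespace D687

variable {p : ℕ} [Fact p.Prime] {D : Datum p} {V : Subgroup (FF p)} {n : ℕ}

/-- The test with a given index. -/
private def S10G_test (D : Datum p) (V : Subgroup (FF p)) {n : ℕ} (u : Fin n → FF p) (v0 : FF p)
    {N : ℕ} (zz : Fin N → Ch D) : Option (Fin N × (Fin n → ZMod p)) → (FF p → ℤ_[p]) → Prop
  | none => PassV D V v0
  | some ix => fun l => IsKK V u (zz ix.1) ix.2 → NonKK V (zz ix.1) ix.2 →
      Pass D V u (zz ix.1) ix.2 l

private theorem S10G_pass_congr (hR : D.R ≤ V) {u : Fin n → FF p} {z z' : Ch D}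
    (h : ∀ t ∈ Ck D V, pair z t = pair z' t) {x : Fin n → ZMod p} {l : FF p → ℤ_[p]}
    (hl : IsX D V l) (hp : Pass D V u z' x l) : Pass D V u z x l := by
  obtain ⟨α, hα, β, hβ, F, hF, ht⟩ := hp
  refine ⟨α, hα, β, hβ, F, hF, ?_⟩
  have hmem : ev D F ∈ CV D V (triv (K1 p) (K1 p)) :=
    hF.ev_mem hR hl.isChar_chr hl.neg.isChar_chr hα hβ
  unfold tst at ht ⊢
  rw [pair_congr_K1 h hmem]
  exact ht

/-- (10.5) -/
theorem exists_lambda (S : Sys D) {w : FF p} {a : ℕ} (h : Is93 D w V a) (hle : V ≤ S.V1)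
    {gg : Fin n → FF p} (hgg : IsRepW V w gg) :
    ∃ l, IsX D V l ∧ Good D V l ∧
      (∀ g : FF p, PadicInt.toZMod (l (g * w ^ p ^ a * g⁻¹)) = 1) ∧
      (∃ v0 ∈ V, (∀ l', IsX D V l' → l' v0 = 0) ∧ PassV D V v0 l) ∧
      ∀ (z : Ch D) (x : Fin n → ZMod p),
        IsKK V (fun j => gg j * w ^ p ^ a * (gg j)⁻¹) z x → NonKK V z x →
        Pass D V (fun j => gg j * w ^ p ^ a * (gg j)⁻¹) z x l := by
  classical
  have hadm : Adm D V := S.adm.mono h.isOpen h.hR hle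
  have hu : w ^ p ^ a ∈ V := by
    have h1 := (h.ord ((p ^ a : ℕ) : ℤ)).2 dvd_rfl
    rwa [zpow_natCast] at h1
  have huj : ∀ g : FF p, g * w ^ p ^ a * g⁻¹ ∈ V := fun g => h.normal.conj_mem _ hu g
  set u : Fin n → FF p := fun j => gg j * w ^ p ^ a * (gg j)⁻¹ with hudef
  obtain ⟨l0, hl0, hl01⟩ := exists_lambda0 h.normal h.isOpen h.hR hu h.unit
  obtain ⟨v0, hv0, hv00, g0, hg0, hgg0, hgv⟩ := exists_v0 S h.isOpen h.hR hle hu h.unit
  obtain ⟨N, zz, hzz⟩ := exists_fin_chains hadm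
  have hmu : ∀ j, l0 (u j) ≠ 0 := by
    intro j h0
    have h1 := hl01 (gg j)
    rw [show gg j * w ^ p ^ a * (gg j)⁻¹ = u j from rfl, h0, map_zero] at h1
    exact zero_ne_one h1
  obtain ⟨M, hM⟩ : ∃ M, Fintype.card (Option (Fin N × (Fin n → ZMod p))) = M + 1 :=
    ⟨_, (Nat.succ_pred_eq_of_pos Fintype.card_pos).symm⟩
  set e : Option (Fin N × (Fin n → ZMod p)) ≃ Fin (M + 1) := Fintype.equivFinOfCardEq hM
  set T : Fin (M + 1) → (FF p → ℤ_[p]) → Prop := fun m => S10G_test D V u v0 zz (e.symm m) with hT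
  have hTmix : ∀ i, MixSt D V (S10G_test D V u v0 zz i) := by
    rintro (_ | ⟨i, x⟩)
    · exact mixSt_passV hadm v0
    · by_cases hc : IsKK V u (zz i) x ∧ NonKK V (zz i) x
      · intro l m hl hg hm hp
        obtain ⟨E0, hE0⟩ := mixSt_pass hadm hc.1 l m hl hg hm (hp hc.1 hc.2)
        exact ⟨E0, fun E hE => ⟨fun _ _ => (hE0 E hE).1, fun _ _ => (hE0 E hE).2⟩⟩
      · intro l m hl hg hm hp
        exact ⟨0, fun E hE => ⟨fun h1 h2 => absurd ⟨h1, h2⟩ hc, fun h1 h2 => absurd ⟨h1, h2⟩ hc⟩⟩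
  have hTpass : ∀ i, ∃ l, IsX D V l ∧ Good D V l ∧ S10G_test D V u v0 zz i l := by
    rintro (_ | ⟨i, x⟩)
    · exact ⟨g0, hg0, hgg0, hgv⟩
    · by_cases hc : IsKK V u (zz i) x ∧ NonKK V (zz i) x
      · by_cases hx : x = 0
        · subst hx
          obtain ⟨l, hl, hg, hp⟩ := exists_pass_zero S h.isOpen h.hR hle hl0 hmu hc.1 hc.2
          exact ⟨l, hl, hg, fun _ _ => hp⟩
        · obtain ⟨j0, hj0⟩ := Function.ne_iff.1 hx
          obtain ⟨l, hl, hg, h0, h1, hp, hp'⟩ := exists_lambda1 S h hle hgg j0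
          exact ⟨l, hl, hg, fun _ _ =>
            exists_pass_ne (u := u) h.isOpen hl h0 h1 hp hp' (zz i) hj0⟩
      · exact ⟨g0, hg0, hgg0, fun h1 h2 => absurd ⟨h1, h2⟩ hc⟩
  obtain ⟨l, hl, hg, hTl, hll⟩ := exists_common hadm T (fun i => hTmix _) (fun i => hTpass _) hl0
  have hall : ∀ i, S10G_test D V u v0 zz i l := by
    intro i
    have h1 := hTl (e i)
    rw [hT] at h1
    simpa only [Equiv.symm_apply_apply] using h1
  refine ⟨l, hl, hg, fun g => ?_, ⟨v0, hv0, hv00, hall none⟩, fun z x hz hnz => ?_⟩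
  · rw [hll _ (huj g)]
    exact hl01 g
  · obtain ⟨i, hi⟩ := hzz z
    exact S10G_pass_congr h.hR hi hl
      (hall (some (i, x)) (IsKK.congr h.hR hi hz) (NonKK.congr hi hnz))

end D687
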