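import Pool.Agent.Lib_MP_d687bf.S11Defs

/-!
MP_d687bf, S11A: (11.1), admissibility of `V` for `D.snoc w o` and of `V_s` for `D.snoc w (o + s)`.

`isUnit_l`: `toZMod (l u_g) = 1`, `PadicInt.ker_toZMod`. `adm0`, `admN`: `R_le` (all conjugates of the
relators are in `V`, resp. `V_s`: `g w^(p^(o+s)) g⁻¹ = (u_g)^(p^s)`, `IsX.pow_eq`); if
`g w^j g⁻¹ ∈ V_s` then `p^o ∣ j`, `j = p^o k`, `l (u_g^k) = k l(u_g)`, so `p^s ∣ k`.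
`exists_pow`: `k` a natural number congruent to `l v / l u_g` mod `p^s` (`PadicInt.appr`).
`last_inv`: `v = v' u_g^k`, `v' ∈ V_s`, `u_g^k g = g w^(p^o k)`.
`exists_tau`: `l '' V` is a compact (closed) additive subgroup of `ℤ_[p]` which contains the unit `l u`.
-/

set_option autoImplicit false

open Set Filter Topology

namespace D687

namespace Fill

variable {p : ℕ} [Fact p.Prime] {D : Datum p} {w : FF p} (Φ : Fill D w)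

theorem mem_conj (g : FF p) (j : ℤ) : g * w ^ j * g⁻¹ ∈ Φ.V ↔ ((p ^ Φ.o : ℕ) : ℤ) ∣ j := by
  rw [← Φ.mem j]
  constructor
  · intro h
    have h1 := Φ.normal.conj_mem _ h g⁻¹
    have h2 : g⁻¹ * (g * w ^ j * g⁻¹) * g⁻¹⁻¹ = w ^ j := by group
    rwa [h2] at h1
  · intro h
    exact Φ.normal.conj_mem _ h g

theorem u_mem (g : FF p) : Φ.u g ∈ Φ.V := by
  have h := (Φ.mem_conj g ((p ^ Φ.o : ℕ) : ℤ)).2 (dvd_refl _)
  rw [zpow_natCast] at h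
  exact h

theorem isUnit_l (g : FF p) : IsUnit (Φ.l (Φ.u g)) := by
  by_contra h
  have h1 : Φ.l (Φ.u g) ∈ IsLocalRing.maximalIdeal ℤ_[p] := (IsLocalRing.mem_maximalIdeal _).2 h
  rw [← PadicInt.ker_toZMod, RingHom.mem_ker] at h1
  have h2 : PadicInt.toZMod (Φ.l (Φ.u g)) = 1 := Φ.one g
  rw [h1] at h2
  exact zero_ne_one h2

/-- `g w^(p^(o+s)) g⁻¹ = (u_g)^(p^s)` -/
theorem conj_pow (s : ℕ) (g : FF p) : g * w ^ (p ^ (Φ.o + s)) * g⁻¹ = Φ.u g ^ (p ^ s) := by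
  unfold u
  rw [_root_.conj_pow, pow_add, pow_mul]

omit [Fact p.Prime] in
private theorem S11A_isClosed {V : Subgroup (FF p)} (hV : IsOpen (V : Set (FF p))) :
    IsClosed (V : Set (FF p)) := V.isClosed_of_isOpen hV

theorem adm0 : Adm Φ.D0 Φ.V := by
  refine ⟨Φ.adm.isOpen, ?_, ?_⟩
  · refine R_le _ _ (S11A_isClosed Φ.adm.isOpen) fun i g => ?_
    refine Fin.lastCases ?_ (fun j => ?_) i
    · have h : (D.snoc w Φ.o).r (Fin.last D.n) = w ^ (p ^ Φ.o) := snoc_r_last D w Φ.o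
      show g * (D.snoc w Φ.o).r (Fin.last D.n) * g⁻¹ ∈ Φ.V
      rw [h]
      exact Φ.u_mem g
    · have h : (D.snoc w Φ.o).r j.castSucc = D.r j := snoc_r_castSucc D w Φ.o j
      show g * (D.snoc w Φ.o).r j.castSucc * g⁻¹ ∈ Φ.V
      rw [h]
      exact Φ.adm.hR (r_mem_R D j g)
  · intro g i j
    refine Fin.lastCases ?_ (fun i => ?_) i
    · show g * (D.snoc w Φ.o).ω (Fin.last D.n) ^ j * g⁻¹ ∈ Φ.V →
        ((p ^ (D.snoc w Φ.o).a (Fin.last D.n) : ℕ) : ℤ) ∣ j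
      rw [snoc_ω_last, snoc_a_last]
      exact (Φ.mem_conj g j).1
    · show g * (D.snoc w Φ.o).ω i.castSucc ^ j * g⁻¹ ∈ Φ.V →
        ((p ^ (D.snoc w Φ.o).a i.castSucc : ℕ) : ℤ) ∣ j
      rw [snoc_ω_castSucc, snoc_a_castSucc]
      exact Φ.adm.free g i j

theorem admN (s : ℕ) : Adm (Φ.Dn s) (Φ.Vs s) := by
  refine ⟨Φ.isOpen_Vs s, ?_, ?_⟩
  · refine R_le _ _ (S11A_isClosed (Φ.isOpen_Vs s)) fun i g => ?_
    refine Fin.lastCases ?_ (fun j => ?_) i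
    · have h : (D.snoc w (Φ.o + s)).r (Fin.last D.n) = w ^ (p ^ (Φ.o + s)) :=
        snoc_r_last D w (Φ.o + s)
      show g * (D.snoc w (Φ.o + s)).r (Fin.last D.n) * g⁻¹ ∈ Φ.Vs s
      rw [h, Φ.conj_pow, Φ.mem_Vs]
      refine ⟨Φ.V.pow_mem (Φ.u_mem g) _, ?_⟩
      rw [Φ.isX.pow_eq (Φ.u_mem g)]
      push_cast
      exact dvd_mul_right _ _
    · have h : (D.snoc w (Φ.o + s)).r j.castSucc = D.r j := snoc_r_castSucc D w (Φ.o + s) j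
      show g * (D.snoc w (Φ.o + s)).r j.castSucc * g⁻¹ ∈ Φ.Vs s
      rw [h]
      exact Φ.R_le_Vs s (r_mem_R D j g)
  · intro g i j
    refine Fin.lastCases ?_ (fun i => ?_) i
    · show g * (D.snoc w (Φ.o + s)).ω (Fin.last D.n) ^ j * g⁻¹ ∈ Φ.Vs s →
        ((p ^ (D.snoc w (Φ.o + s)).a (Fin.last D.n) : ℕ) : ℤ) ∣ j
      rw [snoc_ω_last, snoc_a_last, Φ.mem_Vs]
      rintro ⟨h1, h2⟩
      obtain ⟨k, rfl⟩ := (Φ.mem_conj g j).1 h1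
      have h3 : g * w ^ (((p ^ Φ.o : ℕ) : ℤ) * k) * g⁻¹ = Φ.u g ^ k := by
        unfold u
        rw [conj_zpow, zpow_mul, zpow_natCast]
      rw [h3, Φ.isX.zpow_eq (Φ.u_mem g), (Φ.isUnit_l g).dvd_mul_right, PadicInt.pow_p_dvd_int_iff] at h2
      rw [pow_add]
      push_cast
      exact mul_dvd_mul_left _ h2
    · show g * (D.snoc w (Φ.o + s)).ω i.castSucc ^ j * g⁻¹ ∈ Φ.Vs s →
        ((p ^ (D.snoc w (Φ.o + s)).a i.castSucc : ℕ) : ℤ) ∣ j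
      rw [snoc_ω_castSucc, snoc_a_castSucc]
      exact fun h => Φ.adm.free g i j (Φ.Vs_le s h)

theorem exists_pow (s : ℕ) {v : FF p} (hv : v ∈ Φ.V) (g : FF p) :
    ∃ k : ℕ, v * (Φ.u g ^ k)⁻¹ ∈ Φ.Vs s := by
  obtain ⟨c, hc⟩ := (Φ.isUnit_l g).dvd (a := Φ.l v)
  refine ⟨PadicInt.appr c s, ?_⟩
  have h1 : Φ.u g ^ (PadicInt.appr c s) ∈ Φ.V := Φ.V.pow_mem (Φ.u_mem g) _
  rw [Φ.mem_Vs]
  refine ⟨Φ.V.mul_mem hv (Φ.V.inv_mem h1), ?_⟩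
  rw [Φ.isX.add _ hv _ (Φ.V.inv_mem h1), Φ.isX.inv_eq h1, Φ.isX.pow_eq (Φ.u_mem g), hc]
  have h2 := PadicInt.appr_spec s c
  rw [Ideal.mem_span_singleton] at h2
  have h3 : Φ.l (Φ.u g) * c + -((PadicInt.appr c s : ℕ) * Φ.l (Φ.u g)) =
      (c - (PadicInt.appr c s : ℕ)) * Φ.l (Φ.u g) := by ring
  rw [h3]
  exact Dvd.dvd.mul_right h2 _

theorem last_inv (s : ℕ) {M : Type} {f : FF p → M} (h1 : ∀ v ∈ Φ.Vs s, ∀ g, f (v * g) = f g)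
    (h2 : ∀ g, f (g * w) = f g) {v : FF p} (hv : v ∈ Φ.V) (g : FF p) : f (v * g) = f g := by
  obtain ⟨k, hk⟩ := Φ.exists_pow s hv g
  have h3 : ∀ n : ℕ, f (g * w ^ n) = f g := by
    intro n
    induction n with
    | zero => rw [pow_zero, mul_one]
    | succ n ih => rw [pow_succ, ← mul_assoc, h2, ih]
  have h4 : v * g = v * (Φ.u g ^ k)⁻¹ * (g * w ^ (p ^ Φ.o * k)) := by
    unfold u
    rw [_root_.conj_pow, ← pow_mul]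
    group
  rw [h4, h1 _ hk, h3]

theorem exists_tau : ∃ τ ∈ Φ.V, Φ.l τ = 1 := by
  have hK : IsCompact (Φ.l '' (Φ.V : Set (FF p))) :=
    ((S11A_isClosed Φ.adm.isOpen).isCompact).image_of_continuousOn Φ.isX.cont
  obtain ⟨c, hc⟩ := Φ.isUnit_l 1
  have hcl : IsClosed {z : ℤ_[p] | z * Φ.l (Φ.u 1) ∈ Φ.l '' (Φ.V : Set (FF p))} :=
    hK.isClosed.preimage (continuous_id.mul continuous_const)
  have h : (↑c⁻¹ : ℤ_[p]) ∈ {z : ℤ_[p] | z * Φ.l (Φ.u 1) ∈ Φ.l '' (Φ.V : Set (FF p))} := by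
    refine DenseRange.induction_on (p := fun z : ℤ_[p] => z ∈ {z : ℤ_[p] | z * Φ.l (Φ.u 1) ∈
      Φ.l '' (Φ.V : Set (FF p))}) (PadicInt.denseRange_natCast (p := p)) (↑c⁻¹ : ℤ_[p]) hcl fun n => ?_
    refine ⟨Φ.u 1 ^ n, Φ.V.pow_mem (Φ.u_mem 1) n, ?_⟩
    exact Φ.isX.pow_eq (Φ.u_mem 1) n
  rw [mem_ofPred_eq] at h
  rw [← hc, Units.inv_mul] at h
  obtain ⟨τ, hτ, h1⟩ := h
  exact ⟨τ, hτ, h1⟩

private theorem S11A_dvd_iff (m : ℕ) (z : ℤ_[p]) :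
    PadicInt.toZModPow m z = 0 ↔ (p : ℤ_[p]) ^ m ∣ z := by
  rw [← RingHom.mem_ker, PadicInt.ker_toZModPow, Ideal.mem_span_singleton]

theorem isCyc (s : ℕ) {σ : FF p} (hσ : σ ∈ Φ.V) (h1 : Φ.l σ = 1) :
    IsCyc Φ.V (Φ.Vs s) (p ^ s) (Φ.psi s) σ := by
  refine ⟨Φ.isOpen_Vs s, Φ.Vs_le s, fun g hg h hh => ?_, fun g hg => ?_, hσ, ?_⟩
  · unfold psi
    rw [Φ.isX.add g hg h hh, map_add]
  · unfold psi
    rw [S11A_dvd_iff, Φ.mem_Vs]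
    exact ⟨fun h => ⟨hg, h⟩, fun h => h.2⟩
  · unfold psi
    rw [h1, map_one]

theorem Vs_conj (s : ℕ) {σ : FF p} (hσ : σ ∈ Φ.V) (x : FF p) :
    σ⁻¹ * x * σ ∈ Φ.Vs s ↔ x ∈ Φ.Vs s := by
  have h1 : ∀ τ ∈ Φ.V, ∀ y ∈ Φ.Vs s, τ⁻¹ * y * τ ∈ Φ.Vs s := by
    intro τ hτ y hy
    have hyV := Φ.Vs_le s hy
    rw [Φ.mem_Vs] at hy ⊢
    have h2 : τ⁻¹ * y ∈ Φ.V := Φ.V.mul_mem (Φ.V.inv_mem hτ) hyV
    refine ⟨Φ.V.mul_mem h2 hτ, ?_⟩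
    rw [Φ.isX.add _ h2 _ hτ, Φ.isX.add _ (Φ.V.inv_mem hτ) _ hyV, Φ.isX.inv_eq hτ]
    have h3 : -Φ.l τ + Φ.l y + Φ.l τ = Φ.l y := by ring
    rw [h3]
    exact hy.2
  constructor
  · intro h
    have h2 := h1 σ⁻¹ (Φ.V.inv_mem hσ) _ h
    have h3 : σ⁻¹⁻¹ * (σ⁻¹ * x * σ) * σ⁻¹ = x := by group
    rwa [h3] at h2
  · exact h1 σ hσ x

end Fill

end D687
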