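import Pool.Agent.Lib_MP_d687bf.S11A

/-!
MP_d687bf, S11B: (11.1), `b(V_s)` for the new datum is bounded.

Let `D' = Dn s`, `V' = V_s`. The map `C_{V'}^{D'}(k) → C_{V'}^D(k)`, `t ↦ (t_i)_{i old}`, induces
`T_{V'}^{D'}(k) → T_{V'}^D(k)` (`ev_snoc`), whose kernel is the image of
`L = {f : FF p → k | f (v g) = f g (v ∈ V'), f (g w) = f g}`, `f ↦ [sn 0 f]` (if `t_old = ev h` then
`t - ev' h = sn 0 f`). By `last_inv` `L` consists of functions on `V \ FF` (right cosets; finite of size `V.index`,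
`index_open`), so `dim L ≤ V.index`. `exists_bound`: `exists_bound_bV` and `Φ.good`.
-/

set_option autoImplicit false

open Set Filter Topology

namespace D687

namespace Fill

variable {p : ℕ} [Fact p.Prime] {D : Datum p} {w : FF p} (Φ : Fill D w)

/-- the functions for the new relator -/
private def S11B_L (s : ℕ) : Submodule (ZMod p) (FF p → ZMod p) where
  carrier := {f | (∀ v ∈ Φ.Vs s, ∀ g, f (v * g) = f g) ∧ ∀ g, f (g * w) = f g}
  add_mem' := by
    rintro a b ⟨ha, ha'⟩ ⟨hb, hb'⟩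
    exact ⟨fun v hv g => by simp [ha v hv g, hb v hv g], fun g => by simp [ha' g, hb' g]⟩
  zero_mem' := ⟨fun _ _ _ => rfl, fun _ => rfl⟩
  smul_mem' := by
    rintro c a ⟨ha, ha'⟩
    exact ⟨fun v hv g => by simp [ha v hv g], fun g => by simp [ha' g]⟩

private theorem S11B_finite : Finite (FF p ⧸ Φ.V) := by
  obtain ⟨n, hn⟩ := index_open Φ.V Φ.adm.isOpen
  have hfi : Φ.V.FiniteIndex := ⟨by rw [hn]; exact pow_ne_zero _ (Fact.out : p.Prime).ne_zero⟩
  infer_instance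

private theorem S11B_dimL (s : ℕ) : Module.Finite (ZMod p) (Φ.S11B_L s) ∧
    Module.finrank (ZMod p) (Φ.S11B_L s) ≤ Φ.V.index := by
  have hfin := Φ.S11B_finite
  have hft : Fintype (FF p ⧸ Φ.V) := Fintype.ofFinite _
  let e : Φ.S11B_L s →ₗ[ZMod p] (FF p ⧸ Φ.V → ZMod p) :=
    { toFun := fun f q => (f : FF p → ZMod p) q.out
      map_add' := fun _ _ => rfl
      map_smul' := fun _ _ => rfl }
  have he : Function.Injective e := by
    intro f f' h
    apply Subtype.ext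
    funext g
    obtain ⟨h0, hh⟩ := QuotientGroup.mk_out_eq_mul Φ.V g
    have h1 : g * (h0 : FF p) = (g * h0 * g⁻¹) * g := by group
    have h2 : g * (h0 : FF p) * g⁻¹ ∈ Φ.V := Φ.normal.conj_mem _ h0.2 g
    have h3 : (f : FF p → ZMod p) ((g : FF p ⧸ Φ.V).out) =
        (f' : FF p → ZMod p) ((g : FF p ⧸ Φ.V).out) := congrFun h (g : FF p ⧸ Φ.V)
    rw [hh, h1, Φ.last_inv s f.2.1 f.2.2 h2 g, Φ.last_inv s f'.2.1 f'.2.2 h2 g] at h3
    exact h3
  have hF : Module.Finite (ZMod p) (Φ.S11B_L s) := Module.Finite.of_injective e he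
  refine ⟨hF, ?_⟩
  refine (LinearMap.finrank_le_finrank_of_injective he).trans ?_
  rw [Module.finrank_fintype_fun_eq_card, Subgroup.index, Nat.card_eq_fintype_card]

/-- the inclusion of the functions for the new relator -/
private def S11B_j (s : ℕ) : Φ.S11B_L s →ₗ[ZMod p] Ck (Φ.Dn s) (Φ.Vs s) where
  toFun f := ⟨sn 0 (f : FF p → ZMod p), by
    refine mem_CV_snoc.2 ⟨?_, ?_, ?_⟩
    · simp only [sn_castSucc]
      exact Submodule.zero_mem _
    · intro v hv g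
      rw [sn_last]
      exact f.2.1 v hv g
    · intro g
      rw [sn_last]
      exact f.2.2 g⟩
  map_add' f f' := by
    apply Subtype.ext
    funext i
    refine Fin.lastCases ?_ (fun j => ?_) i
    · show sn 0 ((f + f' : Φ.S11B_L s) : FF p → ZMod p) (Fin.last D.n) =
        sn 0 (f : FF p → ZMod p) (Fin.last D.n) + sn 0 (f' : FF p → ZMod p) (Fin.last D.n)
      simp only [sn_last]
      rfl
    · show sn 0 ((f + f' : Φ.S11B_L s) : FF p → ZMod p) j.castSucc =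
        sn 0 (f : FF p → ZMod p) j.castSucc + sn 0 (f' : FF p → ZMod p) j.castSucc
      simp only [sn_castSucc]
      exact (add_zero _).symm
  map_smul' c f := by
    apply Subtype.ext
    funext i
    refine Fin.lastCases ?_ (fun j => ?_) i
    · show sn 0 ((c • f : Φ.S11B_L s) : FF p → ZMod p) (Fin.last D.n) =
        c • sn 0 (f : FF p → ZMod p) (Fin.last D.n)
      simp only [sn_last]
      rfl
    · show sn 0 ((c • f : Φ.S11B_L s) : FF p → ZMod p) j.castSucc =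
        c • sn 0 (f : FF p → ZMod p) j.castSucc
      simp only [sn_castSucc]
      exact (smul_zero _).symm

/-- restriction to the old relators -/
private def S11B_r (s : ℕ) : Ck (Φ.Dn s) (Φ.Vs s) →ₗ[ZMod p] Ck D (Φ.Vs s) where
  toFun t := ⟨fun i => (t.1 : Fin (D.n + 1) → FF p → ZMod p) i.castSucc, (mem_CV_snoc.1 t.2).1⟩
  map_add' _ _ := rfl
  map_smul' _ _ := rfl

theorem bV_snoc_le (s : ℕ) : bV (Φ.Dn s) (Φ.Vs s) ≤ bV D (Φ.Vs s) + Φ.V.index := by
  have f1 : Module.Finite (ZMod p) (TV (Φ.Dn s) (Φ.Vs s)) := finite_TV (Φ.admN s)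
  have f2 : Module.Finite (ZMod p) (TV D (Φ.Vs s)) := finite_TV (Φ.adm_Vs s)
  obtain ⟨f3, hL⟩ := Φ.S11B_dimL s
  set P' : Submodule (ZMod p) (Ck (Φ.Dn s) (Φ.Vs s)) :=
    ((Hk (Φ.Vs s)).map (evL (ZMod p) (ZMod p) (Φ.Dn s))).comap (Ck (Φ.Dn s) (Φ.Vs s)).subtype
    with hP'
  set P : Submodule (ZMod p) (Ck D (Φ.Vs s)) :=
    ((Hk (Φ.Vs s)).map (evL (ZMod p) (ZMod p) D)).comap (Ck D (Φ.Vs s)).subtype with hP
  have hle : P' ≤ P.comap (Φ.S11B_r s) := by
    rintro t ⟨h, hh, ht⟩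
    refine ⟨h, hh, ?_⟩
    have ht' : ev (Φ.Dn s) h = (t.1 : Fin (D.n + 1) → FF p → ZMod p) := ht
    rw [ev_snoc] at ht'
    show ev D h = fun i : Fin D.n => (t.1 : Fin (D.n + 1) → FF p → ZMod p) i.castSucc
    rw [← ht']
    funext i
    rw [sn_castSucc]
  let φ : TV (Φ.Dn s) (Φ.Vs s) →ₗ[ZMod p] TV D (Φ.Vs s) := P'.mapQ P (Φ.S11B_r s) hle
  have hker : LinearMap.ker φ ≤ LinearMap.range (P'.mkQ ∘ₗ Φ.S11B_j s) := by
    intro q hq
    obtain ⟨t, rfl⟩ := Submodule.Quotient.mk_surjective P' q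
    have h1 : Submodule.Quotient.mk (p := P) (Φ.S11B_r s t) = 0 := hq
    rw [Submodule.Quotient.mk_eq_zero] at h1
    obtain ⟨h, hh, ht⟩ := h1
    have ht' : ev D h = fun i : Fin D.n => (t.1 : Fin (D.n + 1) → FF p → ZMod p) i.castSucc := ht
    have hmem : ev (Φ.Dn s) h ∈ Ck (Φ.Dn s) (Φ.Vs s) :=
      ev_mem (Φ.admN s).hR isActR_triv hh
    let e0 : Ck (Φ.Dn s) (Φ.Vs s) := ⟨ev (Φ.Dn s) h, hmem⟩
    have he0 : e0 ∈ P' := ⟨h, hh, rfl⟩
    have hd := mem_CV_snoc.1 (t - e0).2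
    refine ⟨⟨(t - e0).1 (Fin.last D.n), hd.2.1, hd.2.2⟩, ?_⟩
    have h2 : Φ.S11B_j s ⟨(t - e0).1 (Fin.last D.n), hd.2.1, hd.2.2⟩ = t - e0 := by
      apply Subtype.ext
      show sn 0 ((t - e0).1 (Fin.last D.n)) = (t - e0).1
      refine Eq.trans ?_ (sn_eta ((t - e0).1 : Fin (D.n + 1) → FF p → ZMod p))
      congr 1
      funext i
      show (0 : FF p → ZMod p) = t.1 i.castSucc - ev (Φ.Dn s) h i.castSucc
      rw [ev_snoc, sn_castSucc, ht']
      exact (sub_self _).symm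
    rw [LinearMap.comp_apply, h2]
    show Submodule.Quotient.mk (p := P') (t - e0) = Submodule.Quotient.mk t
    rw [Submodule.Quotient.eq]
    simpa using he0
  have h1 := LinearMap.finrank_range_add_finrank_ker φ
  have h2 : Module.finrank (ZMod p) (LinearMap.range φ) ≤
      Module.finrank (ZMod p) (TV D (Φ.Vs s)) := Submodule.finrank_le _
  have h3 : Module.finrank (ZMod p) (LinearMap.ker φ) ≤
      Module.finrank (ZMod p) (LinearMap.range (P'.mkQ ∘ₗ Φ.S11B_j s)) :=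
    Submodule.finrank_mono hker
  have h4 : Module.finrank (ZMod p) (LinearMap.range (P'.mkQ ∘ₗ Φ.S11B_j s)) ≤
      Module.finrank (ZMod p) (Φ.S11B_L s) := LinearMap.finrank_range_le _
  show Module.finrank (ZMod p) (TV (Φ.Dn s) (Φ.Vs s)) ≤
    Module.finrank (ZMod p) (TV D (Φ.Vs s)) + Φ.V.index
  omega

theorem exists_bound : ∃ B : ℕ, ∀ s, bV (Φ.Dn s) (Φ.Vs s) ≤ B := by
  obtain ⟨n, h1, -⟩ := Φ.good
  obtain ⟨B, hB⟩ := exists_bound_bV Φ.adm Φ.isX h1
  exact ⟨B + Φ.V.index, fun s => (Φ.bV_snoc_le s).trans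
    (Nat.add_le_add_right (hB s (Φ.Vs s) (Φ.mem_Vs s)) _)⟩

end Fill

end D687
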