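import Pool.Agent.Lib_MP_d687bf.S11Hat
import Pool.Agent.Lib_MP_d687bf.CupF

/-!
MP_d687bf, section 11.4: the module `k# × k#`, `g (m₁, m₂) = (g m₁ + α̂(g) * (g m₂), g m₂)`, and the
function `F̂ : V → k#`, `F̂ (g h) = F̂ g + g F̂ h + α̂(g) * (g β̌(h))`.
-/

set_option autoImplicit false

open Set Filter Topology

namespace D687

noncomputable section

variable {p : ℕ} [Fact p.Prime] {D : Datum p} {V W : Subgroup (FF p)} {l : FF p → ℤ_[p]}
  {s : ℕ} {σ : FF p} {α β F : FF p → K1 p}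

/-- The shift action on `k# = Map(ℤ/p^s, k)`. -/
abbrev ksh (s : ℕ) (l : FF p → ℤ_[p]) :
    FF p → (ZMod (p ^ s) → ZMod p) →ₗ[ZMod p] (ZMod (p ^ s) → ZMod p) :=
  shA (triv (ZMod p) (ZMod p)) (psl s l)

theorem ksh_apply (g : FF p) (φ : ZMod (p ^ s) → ZMod p) (c : ZMod (p ^ s)) :
    ksh s l g φ c = φ (c - psl s l g) := rfl

theorem ksh_mul (g : FF p) (φ φ' : ZMod (p ^ s) → ZMod p) :
    ksh s l g (φ * φ') = ksh s l g φ * ksh s l g φ' := rfl

/-- The action on `k# × k#`. -/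
def kex (s : ℕ) (l : FF p → ℤ_[p]) (α : FF p → K1 p) :
    FF p → ((ZMod (p ^ s) → ZMod p) × (ZMod (p ^ s) → ZMod p)) →ₗ[ZMod p]
      ((ZMod (p ^ s) → ZMod p) × (ZMod (p ^ s) → ZMod p)) := fun g =>
  { toFun := fun m => (ksh s l g m.1 + hat s (α g) * ksh s l g m.2, ksh s l g m.2)
    map_add' := fun m m' => by
      ext c
      · simp only [Prod.fst_add, Prod.snd_add, map_add, Pi.add_apply, Pi.mul_apply]
        ring
      · simp only [Prod.snd_add, map_add, Pi.add_apply]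
    map_smul' := fun a m => by
      ext c
      · simp only [Prod.smul_fst, Prod.smul_snd, map_smul, Pi.add_apply, Pi.mul_apply,
          Pi.smul_apply, smul_eq_mul, RingHom.id_apply]
        ring
      · simp only [Prod.smul_snd, map_smul, Pi.smul_apply, RingHom.id_apply] }

theorem kex_fst (g : FF p) (m : (ZMod (p ^ s) → ZMod p) × (ZMod (p ^ s) → ZMod p)) :
    (kex s l α g m).1 = ksh s l g m.1 + hat s (α g) * ksh s l g m.2 := rfl

theorem kex_snd (g : FF p) (m : (ZMod (p ^ s) → ZMod p) × (ZMod (p ^ s) → ZMod p)) :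
    (kex s l α g m).2 = ksh s l g m.2 := rfl

/-- `α̂` is a crossed homomorphism: `α̂ (g h) = α̂ g + g α̂ h`. -/
theorem hat_crossed (hα : α ∈ Z1 V (scal (chr l))) {g h : FF p} (hg : g ∈ V) (hh : h ∈ V) :
    hat s (α (g * h)) = hat s (α g) + ksh s l g (hat s (α h)) := by
  have h1 : α (g * h) = α g + tpow (l g) * α h := hα.mul g hg h hh
  funext c
  rw [h1, hat_add, Pi.add_apply, Pi.add_apply, hat_tpow_mul]
  rfl

theorem che_crossed (hβ : β ∈ Z1 V (scal (chr (-l)))) {g h : FF p} (hg : g ∈ V) (hh : h ∈ V) :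
    che s (β (g * h)) = che s (β g) + ksh s l g (che s (β h)) := by
  have h1 : β (g * h) = β g + tpow (-(l g)) * β h := hβ.mul g hg h hh
  funext c
  rw [h1, che_add, Pi.add_apply, Pi.add_apply, che_tpow_mul]
  rfl

theorem isActR_kex (hR : D.R ≤ V) (hl : IsX D V l) (hRW : D.R ≤ W)
    (hcyc : IsCyc V W (p ^ s) (psl s l) σ) (hα : α ∈ ZR D V (scal (chr l))) :
    IsActR D V (kex s l α) := by
  have hsh : IsActR D V (ksh s l) := isActR_shA hcyc hRW isActR_triv
  have hactl : IsActR D V (scal (chr l) : FF p → K1 p →ₗ[K1 p] K1 p) := hl.isChar_chr.isActR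
  obtain ⟨hα1, hα0⟩ := (ZR_iff hR hactl).1 hα
  refine ⟨⟨?_, ?_, ?_⟩, ?_⟩
  · apply LinearMap.ext
    intro m
    have h1 : α 1 = 0 := Z1_one hactl.toIsAct hα1
    apply Prod.ext
    · rw [kex_fst, h1, hat_zero, zero_mul, add_zero, hsh.one]
      rfl
    · rw [kex_snd, hsh.one]
      rfl
  · intro g hg h hh
    apply LinearMap.ext
    intro m
    apply Prod.ext
    · rw [LinearMap.comp_apply, kex_fst, kex_fst, kex_fst, kex_snd, hsh.mul g hg h hh,
        LinearMap.comp_apply, LinearMap.comp_apply, hat_crossed hα1 hg hh, map_add, ksh_mul]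
      ring
    · rw [LinearMap.comp_apply, kex_snd, kex_snd, kex_snd, hsh.mul g hg h hh,
        LinearMap.comp_apply]
  · have hc := hsh.cont
    have h1 : ContinuousOn (fun x : FF p × ((ZMod (p ^ s) → ZMod p) × (ZMod (p ^ s) → ZMod p)) =>
        ksh s l x.1 x.2.1) ((V : Set (FF p)) ×ˢ univ) :=
      hc.comp (f := fun x : FF p × ((ZMod (p ^ s) → ZMod p) × (ZMod (p ^ s) → ZMod p)) =>
        (x.1, x.2.1)) (by fun_prop) (fun x hx => ⟨hx.1, mem_univ _⟩)
    have h2 : ContinuousOn (fun x : FF p × ((ZMod (p ^ s) → ZMod p) × (ZMod (p ^ s) → ZMod p)) =>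
        ksh s l x.1 x.2.2) ((V : Set (FF p)) ×ˢ univ) :=
      hc.comp (f := fun x : FF p × ((ZMod (p ^ s) → ZMod p) × (ZMod (p ^ s) → ZMod p)) =>
        (x.1, x.2.2)) (by fun_prop) (fun x hx => ⟨hx.1, mem_univ _⟩)
    have h3 : Continuous (fun x : FF p × ((ZMod (p ^ s) → ZMod p) × (ZMod (p ^ s) → ZMod p)) =>
        hat s (α x.1)) := (continuous_hat s).comp (hα1.cont.comp continuous_fst)
    exact (h1.add (h3.continuousOn.mul h2)).prodMk h2
  · intro x hx
    apply LinearMap.ext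
    intro m
    apply Prod.ext
    · rw [kex_fst, hα0 x hx, hat_zero, zero_mul, add_zero, hsh.triv x hx]
      rfl
    · rw [kex_snd, hsh.triv x hx]
      rfl

/-- Existence of `F̂`. -/
theorem exists_Fhat (hR : D.R ≤ V) (hVo : IsOpen (V : Set (FF p))) (hl : IsX D V l)
    (hRW : D.R ≤ W) (hcyc : IsCyc V W (p ^ s) (psl s l) σ) (hα : α ∈ ZR D V (scal (chr l)))
    (hβ : β ∈ ZR D V (scal (chr (-l)))) :
    ∃ Φ : FF p → (ZMod (p ^ s) → ZMod p), Continuous Φ ∧ (∀ x, x ∉ V → Φ x = 0) ∧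
      (∀ g ∈ V, ∀ h ∈ V, Φ (g * h) = Φ g + ksh s l g (Φ h) +
        hat s (α g) * ksh s l g (che s (β h))) ∧
      (fun i g => Φ (g * D.r i * g⁻¹)) ∈ CV D V (ksh s l) := by
  have hact := isActR_kex hR hl hRW hcyc hα
  have hsh : IsActR D V (ksh s l) := isActR_shA hcyc hRW isActR_triv
  have hactl : IsActR D V (scal (chr (-l)) : FF p → K1 p →ₗ[K1 p] K1 p) :=
    hl.neg.isChar_chr.isActR
  obtain ⟨hβ1, hβ0⟩ := (ZR_iff hR hactl).1 hβ
  obtain ⟨Ψ, hΨ, hΨ2⟩ := exists_lift (p := p) V hVo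
    (M := (ZMod (p ^ s) → ZMod p) × (ZMod (p ^ s) → ZMod p)) (M'' := ZMod (p ^ s) → ZMod p)
    (fun g => kex s l α g) (fun g => ksh s l g)
    (fun m => by rw [hact.one]; rfl) (fun g _ m m' => map_add _ m m')
    (fun g hg h hh m => by rw [hact.mul g hg h hh]; rfl) hact.cont
    (AddMonoidHom.snd _ _) continuous_snd Prod.snd_surjective (fun g _ m => kex_snd (α := α) g m)
    (fun x => che s (β x))
    ⟨(continuous_che s).comp hβ1.cont, fun x hx => by rw [hβ1.supp x hx, che_zero],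
      fun g hg h hh => che_crossed hβ1 hg hh⟩
  have hΨ2' : ∀ x, (Ψ x).2 = che s (β x) := hΨ2
  have hΨ' : Ψ ∈ Z1 V (kex s l α) := hΨ
  have hev := ev_mem hR hact hΨ'
  refine ⟨fun x => (Ψ x).1, continuous_fst.comp hΨ.cont, fun x hx => by
    show (Ψ x).1 = 0
    rw [hΨ.supp x hx]; rfl, ?_, ?_⟩
  · intro g hg h hh
    show (Ψ (g * h)).1 = _
    rw [hΨ.mul g hg h hh]
    show (Ψ g).1 + (kex s l α g (Ψ h)).1 = _
    rw [kex_fst, hΨ2', add_assoc]
  · refine ⟨fun i v hv g => ?_, fun i g => ?_⟩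
    · have h1 := congrArg Prod.fst (hev.1 i v hv g)
      have h2 : (Ψ (g * D.r i * g⁻¹)).2 = 0 := by
        rw [hΨ2', hβ0 _ (r_mem_R D i g), che_zero]
      rw [kex_fst] at h1
      have h3 : (ev D Ψ i g).2 = 0 := h2
      rw [h3, map_zero, mul_zero, add_zero] at h1
      exact h1
    · exact congrArg Prod.fst (hev.2 i g)

end

end D687
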