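import Pool.Agent.Lib_MP_d687bf.Cs
import Pool.Agent.Lib_MP_d687bf.Cov

/-!
MP_d687bf, section 11: the functions `x̂ (c) = c_s (t^(-c) x)` and `x̌ (c) = c_s (t^c x)` on `ℤ/p^s`.
-/

set_option autoImplicit false

open Set Filter Topology

namespace D687

variable {p : ℕ} [Fact p.Prime]

instance S11_neZero (s : ℕ) : NeZero (p ^ s) := ⟨pow_ne_zero _ (Fact.out : p.Prime).ne_zero⟩

/-- `x̌ (c) = c_s (t^c x)`. -/
noncomputable def che (s : ℕ) (x : K1 p) : ZMod (p ^ s) → ZMod p := fun c => cs s (tpow (c.val : ℤ_[p]) * x)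

/-- `x̂ (c) = c_s (t^(-c) x)`. -/
noncomputable def hat (s : ℕ) (x : K1 p) : ZMod (p ^ s) → ZMod p := fun c => cs s (tpow (-(c.val : ℤ_[p])) * x)

/-- The reduction of `λ` modulo `p ^ s`. -/
noncomputable def psl (s : ℕ) (l : FF p → ℤ_[p]) : FF p → ZMod (p ^ s) := fun g => PadicInt.toZModPow s (l g)

theorem S11_cs_congr (s : ℕ) {y z : ℤ_[p]} (h : PadicInt.toZModPow s y = PadicInt.toZModPow s z)
    (x : K1 p) : cs s (tpow y * x) = cs s (tpow z * x) := by
  have h1 : (p : ℤ_[p]) ^ s ∣ y - z := by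
    rw [← Ideal.mem_span_singleton, ← PadicInt.ker_toZModPow, RingHom.mem_ker, map_sub, h, sub_self]
  have h2 : tpow y * x = tpow (y - z) * (tpow z * x) := by
    rw [← mul_assoc, ← tpow_add, sub_add_cancel]
  rw [h2, cs_tpow_mul s _ h1]

theorem S11_val (s : ℕ) (c : ZMod (p ^ s)) : PadicInt.toZModPow s (c.val : ℤ_[p]) = c := by
  rw [map_natCast, ZMod.natCast_val, ZMod.cast_id]

theorem che_eq (s : ℕ) (x : K1 p) (y : ℤ_[p]) : cs s (tpow y * x) = che s x (PadicInt.toZModPow s y) :=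
  S11_cs_congr s (S11_val s _).symm x

theorem hat_eq (s : ℕ) (x : K1 p) (y : ℤ_[p]) :
    cs s (tpow (-y) * x) = hat s x (PadicInt.toZModPow s y) := by
  refine S11_cs_congr s ?_ x
  rw [map_neg, map_neg, S11_val]

theorem hat_add (s : ℕ) (x y : K1 p) : hat s (x + y) = hat s x + hat s y := by
  funext c
  simp only [hat, mul_add, cs_add, Pi.add_apply]

theorem che_add (s : ℕ) (x y : K1 p) : che s (x + y) = che s x + che s y := by
  funext c
  simp only [che, mul_add, cs_add, Pi.add_apply]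

theorem hat_zero (s : ℕ) : hat s (0 : K1 p) = 0 := by
  funext c
  simp only [hat, mul_zero, cs_zero, Pi.zero_apply]

theorem che_zero (s : ℕ) : che s (0 : K1 p) = 0 := by
  funext c
  simp only [che, mul_zero, cs_zero, Pi.zero_apply]

theorem hat_tpow_mul (s : ℕ) (x : K1 p) (y : ℤ_[p]) (c : ZMod (p ^ s)) :
    hat s (tpow y * x) c = hat s x (c - PadicInt.toZModPow s y) := by
  unfold hat
  rw [← mul_assoc, ← tpow_add]
  refine S11_cs_congr s ?_ x
  rw [map_add, map_neg, map_neg, S11_val, S11_val]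
  ring

theorem che_tpow_mul (s : ℕ) (x : K1 p) (y : ℤ_[p]) (c : ZMod (p ^ s)) :
    che s (tpow (-y) * x) c = che s x (c - PadicInt.toZModPow s y) := by
  unfold che
  rw [← mul_assoc, ← tpow_add]
  refine S11_cs_congr s ?_ x
  rw [map_add, map_neg, S11_val, S11_val]
  ring

theorem hat_at_zero (s : ℕ) (x : K1 p) : hat s x 0 = cs s x := by
  have h := hat_eq s x 0
  rw [neg_zero, tpow_zero, one_mul, map_zero] at h
  exact h.symm

theorem che_at_zero (s : ℕ) (x : K1 p) : che s x 0 = cs s x := by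
  have h := che_eq s x 0
  rw [tpow_zero, one_mul, map_zero] at h
  exact h.symm

theorem S11_sum_range {N : ℕ} [NeZero N] {M : Type} [AddCommMonoid M] (f : ZMod N → M) :
    ∑ j ∈ Finset.range N, f (j : ZMod N) = ∑ c : ZMod N, f c := by
  refine Finset.sum_bij' (fun j _ => (j : ZMod N)) (fun c _ => c.val) (fun j _ => Finset.mem_univ _)
    (fun c _ => Finset.mem_range.2 (ZMod.val_lt c)) (fun j hj => ?_) (fun c _ => ?_)
    (fun j _ => rfl)
  · exact ZMod.val_natCast_of_lt (Finset.mem_range.1 hj)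
  · exact ZMod.natCast_zmod_val c

/-- (P5) -/
theorem sum_hat_che (s : ℕ) (x y : K1 p) : ∑ c, hat s x c * che s y c = cs s (x * y) := by
  rw [cs_mul, ← S11_sum_range]
  refine Finset.sum_congr rfl fun j _ => ?_
  have h1 : PadicInt.toZModPow s (j : ℤ_[p]) = (j : ZMod (p ^ s)) := map_natCast _ _
  rw [← h1, ← hat_eq, ← che_eq]

/-- `∑ x̌ (c) = x (0)`. -/
theorem sum_che (s : ℕ) (x : K1 p) : ∑ c, che s x c = PowerSeries.constantCoeff x := by
  rw [← cs_top s x, ← sum_tpow, Finset.sum_mul, ← S11_sum_range]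
  have h0 : ∀ (I : Finset ℕ) (f : ℕ → K1 p), cs s (∑ i ∈ I, f i) = ∑ i ∈ I, cs s (f i) := by
    intro I f
    classical
    induction I using Finset.induction_on with
    | empty => simp only [Finset.sum_empty, cs_zero]
    | insert i I hi ih => rw [Finset.sum_insert hi, Finset.sum_insert hi, cs_add, ih]
  rw [h0]
  refine Finset.sum_congr rfl fun j _ => ?_
  have h1 : PadicInt.toZModPow s (j : ℤ_[p]) = (j : ZMod (p ^ s)) := map_natCast _ _
  rw [← h1, ← che_eq]

theorem continuous_hat (s : ℕ) : Continuous (hat s : K1 p → ZMod (p ^ s) → ZMod p) := by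
  refine continuous_pi fun c => (continuous_cs s).comp ?_
  exact continuous_const.mul continuous_id

theorem continuous_che (s : ℕ) : Continuous (che s : K1 p → ZMod (p ^ s) → ZMod p) := by
  refine continuous_pi fun c => (continuous_cs s).comp ?_
  exact continuous_const.mul continuous_id

/-- `ψ = λ mod p ^ s` describes the cyclic cover `W = {λ ∈ p^s ℤ_p}` of `V`. -/
theorem isCyc_psl {D : Datum p} {V W : Subgroup (FF p)} {l : FF p → ℤ_[p]} (hl : IsX D V l)
    {s : ℕ} (hWo : IsOpen (W : Set (FF p)))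
    (hW : ∀ v, v ∈ W ↔ v ∈ V ∧ (p : ℤ_[p]) ^ s ∣ l v) {σ : FF p} (hσ : σ ∈ V) (hσ1 : l σ = 1) :
    IsCyc V W (p ^ s) (psl s l) σ where
  isOpen := hWo
  le := fun v hv => ((hW v).1 hv).1
  add := fun g hg h hh => by
    unfold psl
    rw [hl.add g hg h hh, map_add]
  ker := fun g hg => by
    unfold psl
    rw [hW, ← RingHom.mem_ker, PadicInt.ker_toZModPow, Ideal.mem_span_singleton]
    exact ⟨fun h => ⟨hg, h⟩, fun h => h.2⟩
  mem := hσ
  one := by
    unfold psl
    rw [hσ1, map_one]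

end D687
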