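import Pool.Agent.Lib_MP_d687bf.S11Ext

/-!
MP_d687bf, section 11.4: the identity for the cup product of `c_s ∘ α` and `c_s ∘ β` on the cyclic
cover `W = {λ ∈ p^s ℤ_p}`.
-/

set_option autoImplicit false

open Set Filter Topology

namespace D687

noncomputable section

variable {p : ℕ} [Fact p.Prime] {D : Datum p} {V W : Subgroup (FF p)} {l : FF p → ℤ_[p]}
  {s : ℕ} {σ : FF p} {α β F : FF p → K1 p}

/-- `F̂ (u^i)` at a point. -/
private theorem S11Id_pow (hl : IsX D V l) (hα : α ∈ Z1 V (scal (chr l)))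
    {Φ : FF p → (ZMod (p ^ s) → ZMod p)}
    (hΦ : ∀ g ∈ V, ∀ h ∈ V, Φ (g * h) = Φ g + ksh s l g (Φ h) +
        hat s (α g) * ksh s l g (che s (β h))) {v : FF p} (hv : v ∈ V) {m : K1 p}
    (hm : α v = (tpow (l v) - 1) * m) (i : ℕ) (c : ZMod (p ^ s)) :
    Φ (v ^ i) c = ∑ k ∈ Finset.range i, (Φ v (c - (k : ZMod (p ^ s)) * psl s l v) +
      (hat s m (c - (k : ZMod (p ^ s)) * psl s l v) - hat s m c) *
        che s (β v) (c - (k : ZMod (p ^ s)) * psl s l v)) := by
  have hact : IsActR D V (scal (chr l) : FF p → K1 p →ₗ[K1 p] K1 p) := hl.isChar_chr.isActR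
  have hΦ1 : Φ 1 = 0 := by
    have h1 := hΦ 1 V.one_mem 1 V.one_mem
    rw [mul_one, Z1_one hact.toIsAct hα, hat_zero, zero_mul, add_zero] at h1
    have h2 : ksh s l 1 (Φ 1) = Φ 1 := by
      funext c
      rw [ksh_apply, psl, hl.one_eq, map_zero, sub_zero]
    rw [h2] at h1
    exact left_eq_add.1 h1
  have hpow : ∀ k : ℕ, α (v ^ k) = (tpow ((k : ℤ_[p]) * l v) - 1) * m := by
    intro k
    induction k with
    | zero => rw [pow_zero, Z1_one hact.toIsAct hα, Nat.cast_zero, zero_mul, tpow_zero, sub_self,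
        zero_mul]
    | succ k ih =>
      have h1 : α (v ^ k * v) = α (v ^ k) + tpow (l (v ^ k)) * α v :=
        hα.mul _ (V.pow_mem hv k) _ hv
      rw [pow_succ, h1, ih, hm, hl.pow_eq hv k]
      have h2 : tpow (((k + 1 : ℕ) : ℤ_[p]) * l v) = tpow ((k : ℤ_[p]) * l v) * tpow (l v) := by
        rw [← tpow_add]
        congr 1
        push_cast
        ring
      rw [h2]
      ring
  have hpsl : ∀ k : ℕ, psl s l (v ^ k) = (k : ZMod (p ^ s)) * psl s l v := by
    intro k
    unfold psl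
    rw [hl.pow_eq hv k, map_mul, map_natCast]
  have hhat : ∀ k : ℕ, hat s (α (v ^ k)) c =
      hat s m (c - (k : ZMod (p ^ s)) * psl s l v) - hat s m c := by
    intro k
    have h1 : α (v ^ k) + m = tpow ((k : ℤ_[p]) * l v) * m := by
      rw [hpow k]
      ring
    have h2 := congrFun (hat_add s (α (v ^ k)) m) c
    rw [h1, hat_tpow_mul, Pi.add_apply] at h2
    have h3 : PadicInt.toZModPow s ((k : ℤ_[p]) * l v) = (k : ZMod (p ^ s)) * psl s l v := by
      rw [map_mul, map_natCast]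
      rfl
    rw [h3] at h2
    rw [h2]
    ring
  induction i with
  | zero => rw [pow_zero, hΦ1, Finset.range_zero, Finset.sum_empty]; rfl
  | succ i ih =>
    rw [pow_succ, hΦ _ (V.pow_mem hv i) _ hv, Finset.sum_range_succ, ← ih]
    simp only [Pi.add_apply, Pi.mul_apply, ksh_apply, hpsl, hhat]
    ring

/-- a sum over `- k ψ`, `ψ` a unit -/
private theorem S11Id_sum {M : Type} [AddCommMonoid M] {ψ : ZMod (p ^ s)} (hψ : IsUnit ψ)
    (f : ZMod (p ^ s) → M) :
    ∑ k ∈ Finset.range (p ^ s), f (0 - (k : ZMod (p ^ s)) * ψ) = ∑ c, f c := by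
  rw [S11_sum_range (fun k => f (0 - k * ψ))]
  obtain ⟨y, rfl⟩ := hψ
  refine Fintype.sum_bijective (fun k => 0 - k * (y : ZMod (p ^ s))) ⟨?_, ?_⟩ _ _ (fun k => rfl)
  · intro a b hab
    have h1 : a * (y : ZMod (p ^ s)) = b * (y : ZMod (p ^ s)) := sub_right_injective hab
    exact (Units.mul_left_inj y).1 h1
  · intro c
    refine ⟨-c * ((y⁻¹ : (ZMod (p ^ s))ˣ) : ZMod (p ^ s)), ?_⟩
    show 0 - -c * ((y⁻¹ : (ZMod (p ^ s))ˣ) : ZMod (p ^ s)) * (y : ZMod (p ^ s)) = c
    rw [mul_assoc, Units.inv_mul, mul_one, zero_sub, neg_neg]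

/-- The core of (11.4). -/
theorem S11_core (hVo : IsOpen (V : Set (FF p))) (hR : D.R ≤ V) (hl : IsX D V l)
    (hWo : IsOpen (W : Set (FF p))) (hRW : D.R ≤ W)
    (hW : ∀ v, v ∈ W ↔ v ∈ V ∧ (p : ℤ_[p]) ^ s ∣ l v)
    (hcyc : IsCyc V W (p ^ s) (psl s l) σ) (hα : α ∈ ZR D V (scal (chr l)))
    (hβ : β ∈ ZR D V (scal (chr (-l)))) (hF : IsF V (chr (-l)) α β F) :
    ∃ f G : FF p → ZMod p,
      IsF W 1 (res W fun x => cs s (α x)) (res W fun x => cs s (β x)) f ∧
      (G - fun x => cs s (F x)) ∈ Hk (p := p) V ∧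
      cor (triv (ZMod p) (ZMod p)) σ (p ^ s) (ev D f) = ev D G ∧
      ∀ v ∈ V, IsUnit (l v) → ∀ m : K1 p, α v = (tpow (l v) - 1) * m →
        PowerSeries.constantCoeff (β v) = 0 → f (v ^ (p ^ s)) = G v + cs s (m * β v) := by
  obtain ⟨Φ, hΦc, hΦs, hΦm, hΦe⟩ := exists_Fhat hR hVo hl hRW hcyc hα hβ
  have hWV : W ≤ V := fun v hv => ((hW v).1 hv).1
  have hψW : ∀ v ∈ W, psl s l v = 0 := fun v hv => hcyc.psi_zero hv
  have hWcl : IsClopen (W : Set (FF p)) := ⟨W.isClosed_of_isOpen hWo, hWo⟩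
  set f : FF p → ZMod p := res W (fun x => Φ x 0) with hf
  have hfW : ∀ x ∈ W, f x = Φ x 0 := fun x hx => Set.indicator_of_mem (s := (W : Set (FF p))) hx _
  set G : FF p → ZMod p := fun x => ∑ c, Φ x c with hG
  refine ⟨f, G, ⟨?_, fun x hx => Set.indicator_of_notMem (s := (W : Set (FF p))) hx _, ?_⟩,
    ⟨?_, ?_, ?_⟩, ?_, ?_⟩
  · refine Continuous.indicator (fun x hx => ?_) ((continuous_apply 0).comp hΦc)
    rw [hWcl.frontier_eq] at hx
    exact hx.elim
  · intro g hg h hh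
    have e1 : (res W fun x => cs s (α x)) g = cs s (α g) :=
      Set.indicator_of_mem (s := (W : Set (FF p))) hg _
    have e2 : (res W fun x => cs s (β x)) h = cs s (β h) :=
      Set.indicator_of_mem (s := (W : Set (FF p))) hh _
    rw [hfW _ (W.mul_mem hg hh), hfW _ hg, hfW _ hh, e1, e2, hΦm g (hWV hg) h (hWV hh)]
    simp only [Pi.add_apply, Pi.mul_apply, ksh_apply, hψW g hg, sub_zero, hat_at_zero,
      che_at_zero, Pi.one_apply, one_mul]
  · have h1 : Continuous fun x => cs s (F x) := (continuous_cs s).comp hF.cont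
    have h2 : Continuous G := continuous_finsetSum _ fun c _ => (continuous_apply c).comp hΦc
    exact h2.sub h1
  · intro x hx
    show G x - cs s (F x) = 0
    rw [hF.supp x hx, cs_zero, sub_zero]
    show ∑ c, Φ x c = 0
    rw [hΦs x hx]
    simp
  · intro g hg h hh
    have e1 : F (g * h) = F g + F h + tpow (-(l g)) * α g * β h := hF.mul g hg h hh
    have e2 : G (g * h) = G g + G h + cs s (tpow (-(l g)) * α g * β h) := by
      show ∑ c, Φ (g * h) c = ∑ c, Φ g c + ∑ c, Φ h c + _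
      have e3 : ∀ c, Φ (g * h) c = Φ g c + Φ h (c - psl s l g) +
          hat s (α g) c * che s (tpow (-(l g)) * β h) c := by
        intro c
        rw [hΦm g hg h hh]
        simp only [Pi.add_apply, Pi.mul_apply, ksh_apply]
        rw [che_tpow_mul]
        rfl
      simp only [e3, Finset.sum_add_distrib]
      rw [sum_hat_che]
      have e4 : ∑ c, Φ h (c - psl s l g) = ∑ c, Φ h c :=
        (Equiv.subRight (psl s l g)).sum_comp fun c => Φ h c
      rw [e4]
      congr 2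
      ring
    show G (g * h) - cs s (F (g * h)) = (G g - cs s (F g)) + (G h - cs s (F h))
    rw [e1, e2, cs_add, cs_add]
    ring
  · have h1 := cor_zero hcyc (act := triv (ZMod p) (ZMod p)) isActR_triv hΦe
    have h2 : ev D f = fun i g => (fun i g => Φ (g * D.r i * g⁻¹)) i g 0 := by
      funext i g
      exact hfW _ (hRW (r_mem_R D i g))
    rw [h2, h1]
    rfl
  · intro v hv hu m hm hβ0
    have hψu : IsUnit (psl s l v) := hu.map (PadicInt.toZModPow s)
    have hvW : v ^ (p ^ s) ∈ W := by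
      rw [hW]
      refine ⟨V.pow_mem hv _, ?_⟩
      rw [hl.pow_eq hv, Nat.cast_pow]
      exact Dvd.intro _ rfl
    rw [hfW _ hvW, S11Id_pow hl hα.1 hΦm hv hm]
    rw [S11Id_sum hψu (fun c => Φ v c + (hat s m c - hat s m 0) * che s (β v) c)]
    simp only [sub_mul, Finset.sum_add_distrib, Finset.sum_sub_distrib]
    rw [sum_hat_che, ← Finset.mul_sum, sum_che, hβ0, mul_zero, sub_zero]

end

end D687
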