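import Pool.Agent.Lib_MP_d687bf.CMap

/-!
MP_d687bf, S6a: (6.1) LEMMA L.

`φ : A → A'` is a continuous surjective ring hom with kernel `w A`, `w` a non-zero-divisor, and
`φ τ` kills `T_V(A')`. Let `T := C_V(A) / ev Z(V, A)` (as an `A`-module: the quotient of `CV` by the
comap of the image of `Z1` under `evL`), a finitely generated `A`-module (`finite_CV`).
`τ T ⊆ w T`: for `t ∈ C_V(A)`, `φ ∘ t ∈ C_V(A')` (`CV_map`), `φ τ • (φ ∘ t) = ev α'`, lift `α'` to
`α₀ ∈ Z(V, A)` (`lift_scal`), `τ t - ev α₀` is killed by `φ`, so it is `w t'` (`CV_ker`, `ev_mem`).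
Determinant trick: `exists_monic_and_coeff_mem_pow_and_aeval_eq_zero_of_range_le_smul` (or
`LinearMap.exists_monic_and_coeff_mem_pow_and_aeval_eq_zero_of_range_le_smul`) for the endomorphism
`τ • id` of `T` and the ideal `(w)` gives a monic `P` with `P(τ) T = 0` and all coefficients except
the leading one in `(w)`; `q := P.natDegree`, `f := P(τ)`, so `φ f = φ τ ^ q`.
Given `α'' ∈ Z_R(V, A')`: lift to `α₀`, `ev α₀ = w t` (`CV_ker`), `f t = ev γ`,
`α := f α₀ - w γ`: `ev α = f w t - w f t = 0`, `φ ∘ α = φ f * α''`.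
-/

set_option autoImplicit false

open Set Filter Topology

namespace D687

variable {p : ℕ} [Fact p.Prime] {D : Datum p} {V : Subgroup (FF p)}
variable {A A' : Type} [CommRing A] [TopologicalSpace A] [ProPRing p A] [CommRing A']
  [TopologicalSpace A'] [ProPRing p A'] {φ : A →+* A'} {χ : FF p → A}

/-- The determinant trick for `T_V(A)`. -/
theorem exists_kills_of_kills (hφ : Continuous φ) (hs : Function.Surjective φ) (hadm : Adm D V)
    (hχ : IsChar D V χ) {w : A} (hw : w ∈ nonZeroDivisors A) (hker : ∀ a, φ a = 0 ↔ w ∣ a)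
    {τ : A} (hτ : Kills D V (scal fun x => φ (χ x)) (φ τ)) :
    ∃ (q : ℕ) (f : A), φ f = φ τ ^ q ∧ Kills D V (scal χ) f := by
  have hact : IsActR D V (scal χ) := hχ.isActR
  have hfin : Module.Finite A (CV D V (scal χ)) := finite_CV hadm hact
  let S : Submodule A (CV D V (scal χ)) :=
    ((Z1 V (scal χ)).map (evL A A D)).comap (CV D V (scal χ)).subtype
  have hφw : φ w = 0 := (hker w).2 dvd_rfl
  have hrange : LinearMap.range (algebraMap A (Module.End A ((CV D V (scal χ)) ⧸ S)) τ) ≤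
      (Ideal.span {w}) • (⊤ : Submodule A ((CV D V (scal χ)) ⧸ S)) := by
    rintro _ ⟨x, rfl⟩
    obtain ⟨t, rfl⟩ := Submodule.Quotient.mk_surjective S x
    obtain ⟨α', hα', h1⟩ := hτ _ (CV_map t.2)
    obtain ⟨α, hα, h2⟩ := lift_scal hφ hs hadm.isOpen hχ hα'
    have h3 : τ • (t : Fin D.n → FF p → A) - ev D α ∈ CV D V (scal χ) :=
      Submodule.sub_mem _ (Submodule.smul_mem _ _ t.2) (ev_mem hadm.hR hact hα)
    obtain ⟨t', ht', h4⟩ := CV_ker hadm hχ hw hker h3 (fun i g => by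
      have h5 : α' (g * D.r i * g⁻¹) = φ τ * φ ((t : Fin D.n → FF p → A) i g) :=
        congrFun (congrFun h1 i) g
      show φ (τ * (t : Fin D.n → FF p → A) i g - α (g * D.r i * g⁻¹)) = 0
      rw [map_sub, map_mul, h2, h5, sub_self])
    have h5 : τ • t - w • (⟨t', ht'⟩ : CV D V (scal χ)) ∈ S := by
      refine Submodule.mem_comap.2 (Submodule.mem_map.2 ⟨α, hα, ?_⟩)
      show ev D α = τ • (t : Fin D.n → FF p → A) - w • t'
      rw [← h4]
      abel
    have h6 : algebraMap A (Module.End A ((CV D V (scal χ)) ⧸ S)) τ (Submodule.Quotient.mk t) =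
        w • Submodule.Quotient.mk (⟨t', ht'⟩ : CV D V (scal χ)) := by
      rw [Module.algebraMap_end_apply, ← Submodule.Quotient.mk_smul, ← Submodule.Quotient.mk_smul]
      exact (Submodule.Quotient.eq S).2 h5
    rw [h6]
    exact Submodule.smul_mem_smul (Ideal.subset_span rfl) Submodule.mem_top
  obtain ⟨P, hP, -, hc, h0⟩ :=
    LinearMap.exists_monic_and_natDegree_eq_and_coeff_mem_pow_and_aeval_eq_zero
      _ (algebraMap A (Module.End A ((CV D V (scal χ)) ⧸ S)) τ) (Ideal.span {w}) hrange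
  refine ⟨P.natDegree, P.eval τ, ?_, ?_⟩
  · have h1 : ∀ k, k < P.natDegree → φ (P.coeff k) = 0 := by
      intro k hk
      rw [hker, ← Ideal.mem_span_singleton]
      exact Ideal.pow_le_self (by omega) (hc k)
    rw [Polynomial.eval_eq_sum_range, map_sum, Finset.sum_range_succ, Finset.sum_eq_zero,
      zero_add, hP.coeff_natDegree, one_mul, map_pow]
    intro k hk
    rw [map_mul, h1 k (Finset.mem_range.1 hk), zero_mul]
  · intro t ht
    have h1 : algebraMap A (Module.End A ((CV D V (scal χ)) ⧸ S)) (P.eval τ) = 0 := by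
      rw [← h0, Polynomial.aeval_algebraMap_apply_eq_algebraMap_eval]
    have h2 : (P.eval τ) • (⟨t, ht⟩ : CV D V (scal χ)) ∈ S := by
      rw [← Submodule.Quotient.mk_eq_zero, Submodule.Quotient.mk_smul]
      have h4 := LinearMap.congr_fun h1 (Submodule.Quotient.mk (⟨t, ht⟩ : CV D V (scal χ)))
      rw [Module.algebraMap_end_apply, LinearMap.zero_apply] at h4
      exact h4
    obtain ⟨α, hα, h3⟩ := Submodule.mem_map.1 (Submodule.mem_comap.1 h2)
    exact ⟨α, hα, h3⟩

/-- (6.1) -/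
theorem lemmaL (hφ : Continuous φ) (hs : Function.Surjective φ) (hadm : Adm D V)
    (hχ : IsChar D V χ) {w : A} (hw : w ∈ nonZeroDivisors A) (hker : ∀ a, φ a = 0 ↔ w ∣ a)
    {τ : A} (hτ : Kills D V (scal fun x => φ (χ x)) (φ τ)) :
    ∃ (q : ℕ) (f : A), φ f = φ τ ^ q ∧ Kills D V (scal χ) f ∧
      ∀ α'' ∈ ZR D V (scal fun x => φ (χ x)), ∃ α ∈ ZR D V (scal χ),
        ∀ x, φ (α x) = φ τ ^ q * α'' x := by
  have hact : IsActR D V (scal χ) := hχ.isActR
  have hφw : φ w = 0 := (hker w).2 dvd_rfl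
  obtain ⟨q, f, hf, hk⟩ := exists_kills_of_kills hφ hs hadm hχ hw hker hτ
  refine ⟨q, f, hf, hk, ?_⟩
  intro α'' hα''
  obtain ⟨α₀, hα₀, h1⟩ := lift_scal hφ hs hadm.isOpen hχ hα''.1
  have hev : ev D α'' = 0 := hα''.2
  obtain ⟨t, ht, h2⟩ := CV_ker hadm hχ hw hker (ev_mem hadm.hR hact hα₀) (fun i g => by
    show φ (α₀ (g * D.r i * g⁻¹)) = 0
    rw [h1]
    exact congrFun (congrFun hev i) g)
  obtain ⟨γ, hγ, h3⟩ := hk t ht
  refine ⟨f • α₀ - w • γ, ⟨Submodule.sub_mem _ (Submodule.smul_mem _ _ hα₀)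
    (Submodule.smul_mem _ _ hγ), ?_⟩, fun x => ?_⟩
  · show ev D (f • α₀ - w • γ) = 0
    have h4 : ev D (f • α₀ - w • γ) = f • ev D α₀ - w • ev D γ := rfl
    rw [h4, h2, h3, smul_smul, smul_smul, mul_comm, sub_self]
  · show φ (f * α₀ x - w * γ x) = φ τ ^ q * α'' x
    rw [map_sub, map_mul, map_mul, hφw, zero_mul, sub_zero, hf, h1]

end D687
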