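import Pool.Agent.Lib_MP_d687bf.S6Mix
import Pool.Agent.Lib_MP_d687bf.S6Val

/-!
MP_d687bf, S6d: (6.5), the field `nz` of `Sys`.

`y_j := b_j v`. Choose `i` such that `y_i` has minimal valuation, `y_j = u_j y_i`; the vectors
`c = e_j - u_j e_i`, `d = e_k - u_k e_i` (`{i, j, k} = {0, 1, 2}`) satisfy `c · y = d · y = 0` and
their reductions are independent (`exists_relations`). `γ₁ = ∑ c_j b_j`, `γ₂ = ∑ d_j b_j`.
`exists_val` for `chr2 γ₁ γ₂` and for `chr2 (-γ₁) (-γ₂)` (`-c`, `-d` satisfy the hypothesis of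
`hkill`) gives `α_±` with `α_±(v) ≠ 0`; specialise by `phiE E`, `E ≥ 1` large: `g = γ₁ + p^E γ₂`,
`g v = 0`. Good: `phiE E` of the annihilator `S^n` is `X^n` (`Kills_map`). `g x ≠ 0` for some `x`:
the reduction of `g` is that of `γ₁`, and `c` is not `0` mod `p`.
-/

set_option autoImplicit false

open Set Filter Topology

namespace D687

variable {p : ℕ} [Fact p.Prime] {D : Datum p} {V1 : Subgroup (FF p)}

theorem exists_relations (y : Fin 3 → ℤ_[p]) : ∃ c d : Fin 3 → ℤ_[p],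
    ∑ j, c j * y j = 0 ∧ ∑ j, d j * y j = 0 ∧
      ∀ s t : ZMod p, (∀ j, s * PadicInt.toZMod (c j) + t * PadicInt.toZMod (d j) = 0) →
        s = 0 ∧ t = 0 := by
  have h01 := ValuationRing.dvd_total (y 0) (y 1)
  have h12 := ValuationRing.dvd_total (y 1) (y 2)
  have h02 := ValuationRing.dvd_total (y 0) (y 2)
  have key : (y 0 ∣ y 1 ∧ y 0 ∣ y 2) ∨ (y 1 ∣ y 0 ∧ y 1 ∣ y 2) ∨ (y 2 ∣ y 0 ∧ y 2 ∣ y 1) := by
    rcases h01 with h01 | h01 <;> rcases h12 with h12 | h12 <;> rcases h02 with h02 | h02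
    · exact Or.inl ⟨h01, h02⟩
    · exact Or.inl ⟨h01, h01.trans h12⟩
    · exact Or.inl ⟨h01, h02⟩
    · exact Or.inr (Or.inr ⟨h02, h12⟩)
    · exact Or.inr (Or.inl ⟨h01, h12⟩)
    · exact Or.inr (Or.inl ⟨h01, h12⟩)
    · exact Or.inr (Or.inr ⟨h12.trans h01, h12⟩)
    · exact Or.inr (Or.inr ⟨h02, h12⟩)
  rcases key with ⟨⟨u, hu⟩, ⟨w, hw⟩⟩ | ⟨⟨u, hu⟩, ⟨w, hw⟩⟩ | ⟨⟨u, hu⟩, ⟨w, hw⟩⟩
  · refine ⟨![-u, 1, 0], ![-w, 0, 1], ?_, ?_, ?_⟩
    · simp [Fin.sum_univ_three, hu]; ring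
    · simp [Fin.sum_univ_three, hw]; ring
    · intro s t h
      have h1 := h 1
      have h2 := h 2
      simp at h1 h2
      exact ⟨h1, h2⟩
  · refine ⟨![1, -u, 0], ![0, -w, 1], ?_, ?_, ?_⟩
    · simp [Fin.sum_univ_three, hu]; ring
    · simp [Fin.sum_univ_three, hw]; ring
    · intro s t h
      have h1 := h 0
      have h2 := h 2
      simp at h1 h2
      exact ⟨h1, h2⟩
  · refine ⟨![1, 0, -u], ![0, 1, -w], ?_, ?_, ?_⟩
    · simp [Fin.sum_univ_three, hu]; ring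
    · simp [Fin.sum_univ_three, hw]; ring
    · intro s t h
      have h1 := h 0
      have h2 := h 1
      simp at h1 h2
      exact ⟨h1, h2⟩

private theorem S6Nz_phiE_X (E : ℕ) : phiE E (MvPowerSeries.X 0 : K2 p) = (PowerSeries.X : K1 p) := by
  change MvPowerSeries.substAlgHom (R := ZMod p) (hasSubst_spec (p := p) 1 (p ^ E) one_ne_zero
    (pow_ne_zero _ (Fact.out : p.Prime).ne_zero)) (MvPowerSeries.X 0) = _
  rw [MvPowerSeries.substAlgHom_apply, MvPowerSeries.subst_X (hasSubst_spec (p := p) 1 (p ^ E)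
    one_ne_zero (pow_ne_zero _ (Fact.out : p.Prime).ne_zero))]
  simp
  rfl

private theorem S6Nz_kills {V : Subgroup (FF p)} (hadm : Adm D V) {m l : FF p → ℤ_[p]}
    (hm : IsX D V m) (hl : IsX D V l) {n : ℕ}
    (h : Kills D V (scal (chr2 m l)) ((MvPowerSeries.X 0 : K2 p) ^ n)) (E : ℕ) :
    Kills D V (scal (chr (m + ((p : ℤ_[p]) ^ E) • l))) ((PowerSeries.X : K1 p) ^ n) := by
  have h1 := Kills_map (continuous_phiE E) (phiE_surjective E) hadm (isChar_chr2 hm hl) h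
  rw [phiE_chr2, map_pow, S6Nz_phiE_X] at h1
  exact h1

/-- (6.5) -/
theorem exists_nz (hadm : Adm D V1) (b : Fin 3 → FF p → ℤ_[p]) (hb : ∀ j, IsX D V1 (b j))
    (hind : ∀ c : Fin 3 → ZMod p, (∀ x ∈ V1, ∑ j, c j * PadicInt.toZMod (b j x) = 0) → c = 0)
    (hkill : ∀ c d : Fin 3 → ℤ_[p],
      (∀ s t : ZMod p, (∀ j, s * PadicInt.toZMod (c j) + t * PadicInt.toZMod (d j) = 0) →
        s = 0 ∧ t = 0) →
      ∀ V : Subgroup (FF p), IsOpen (V : Set (FF p)) → D.R ≤ V → V ≤ V1 → ∃ n : ℕ,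
        Kills D V (scal (chr2 (∑ j, c j • b j) (∑ j, d j • b j)))
          ((MvPowerSeries.X 0 : K2 p) ^ n) ∧
        Kills D V (scal (chr2 (∑ j, c j • b j) (∑ j, d j • b j)))
          ((MvPowerSeries.X 1 : K2 p) ^ n))
    (V : Subgroup (FF p)) (hV : IsOpen (V : Set (FF p))) (hR : D.R ≤ V) (hle : V ≤ V1)
    (v : FF p) (hv : v ∈ V) (ha : ∃ a ∈ HH D V, (a : FF p → ZMod p) v ≠ 0) :
    ∃ g : FF p → ℤ_[p], IsX D V1 g ∧ (∃ x ∈ V1, g x ≠ 0) ∧ g v = 0 ∧ Good D V g ∧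
      (∃ α ∈ ZR D V (scal (chr g)), (α : FF p → K1 p) v ≠ 0) ∧
      (∃ α ∈ ZR D V (scal (chr (-g))), (α : FF p → K1 p) v ≠ 0) := by
  obtain ⟨c, d, hc, hd, hcd⟩ := exists_relations fun j => b j v
  obtain ⟨a, ha, hav⟩ := ha
  have hadmV : Adm D V := hadm.mono hV hR hle
  set g1 : FF p → ℤ_[p] := ∑ j, c j • b j with hg1
  set g2 : FF p → ℤ_[p] := ∑ j, d j • b j with hg2
  have hX1 : IsX D V1 g1 := IsX.sum _ _ fun j _ => (hb j).smul (c j)
  have hX2 : IsX D V1 g2 := IsX.sum _ _ fun j _ => (hb j).smul (d j)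
  have hv1 : g1 v = 0 := by
    rw [hg1, Finset.sum_apply]
    exact hc
  have hv2 : g2 v = 0 := by
    rw [hg2, Finset.sum_apply]
    exact hd
  obtain ⟨n, hS, hT⟩ := hkill c d hcd V hV hR hle
  obtain ⟨n', hS', hT'⟩ := hkill (-c) (-d) (by
    intro s t h
    refine hcd s t fun j => ?_
    have h1 := h j
    simp only [Pi.neg_apply, map_neg, mul_neg] at h1
    linear_combination -h1) V hV hR hle
  have e1 : ∑ j, (-c) j • b j = -g1 := by
    rw [hg1, ← Finset.sum_neg_distrib]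
    exact Finset.sum_congr rfl fun j _ => by rw [Pi.neg_apply, neg_smul]
  have e2 : ∑ j, (-d) j • b j = -g2 := by
    rw [hg2, ← Finset.sum_neg_distrib]
    exact Finset.sum_congr rfl fun j _ => by rw [Pi.neg_apply, neg_smul]
  rw [e1, e2] at hS' hT'
  rw [← hg1, ← hg2] at hS hT
  have hm1 := hX1.mono hle
  have hm2 := hX2.mono hle
  obtain ⟨α, hα, hαv⟩ := exists_val hadmV hm1 hm2 hS hT hv ha hav
  obtain ⟨α', hα', hαv'⟩ := exists_val hadmV hm1.neg hm2.neg hS' hT' hv ha hav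
  obtain ⟨E0, hE0⟩ := phiE_ne_zero (α v) hαv
  obtain ⟨E1, hE1⟩ := phiE_ne_zero (α' v) hαv'
  obtain ⟨E, hE⟩ : ∃ E : ℕ, E = max (max E0 E1) 1 := ⟨_, rfl⟩
  have h0 : E ≥ E0 := by rw [hE]; exact (le_max_left _ _).trans (le_max_left _ _)
  have h1 : E ≥ E1 := by rw [hE]; exact (le_max_right _ _).trans (le_max_left _ _)
  have h2 : 1 ≤ E := by rw [hE]; exact le_max_right _ _
  have hneg : -g1 + ((p : ℤ_[p]) ^ E) • -g2 = -(g1 + ((p : ℤ_[p]) ^ E) • g2) := by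
    rw [smul_neg, neg_add]
  refine ⟨g1 + ((p : ℤ_[p]) ^ E) • g2, hX1.map_add' (hX2.smul _), ?_, ?_, ?_, ?_, ?_⟩
  · by_contra hcon
    push Not at hcon
    have h3 := hind (fun j => PadicInt.toZMod (c j)) (by
      intro x hx
      have h4 := hcon x hx
      have h5 := congrArg (PadicInt.toZMod (p := p)) h4
      have h6 : (0 : ℕ) ≠ E := by omega
      simp only [Pi.add_apply, Pi.smul_apply, smul_eq_mul, map_add, map_mul, map_pow,
        map_natCast, CharP.cast_eq_zero, zero_pow h6.symm, zero_mul, add_zero, map_zero] at h5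
      rw [hg1, Finset.sum_apply, map_sum] at h5
      rw [← h5]
      refine Finset.sum_congr rfl fun j _ => ?_
      rw [Pi.smul_apply, smul_eq_mul, map_mul])
    have h4 := hcd 1 0 (by
      intro j
      have h5 := congrFun h3 j
      change PadicInt.toZMod (c j) = 0 at h5
      rw [h5]; ring)
    exact one_ne_zero h4.1
  · rw [Pi.add_apply, Pi.smul_apply, hv1, hv2, smul_zero, add_zero]
  · refine ⟨n + n', ?_, ?_⟩
    · exact (S6Nz_kills hadmV hm1 hm2 hS E).of_dvd (pow_dvd_pow _ (Nat.le_add_right _ _))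
    · rw [← hneg]
      exact (S6Nz_kills hadmV hm1.neg hm2.neg hS' E).of_dvd (pow_dvd_pow _ (Nat.le_add_left _ _))
  · exact ⟨_, ZR_phiE E hα, hE0 E h0⟩
  · rw [← hneg]
    exact ⟨_, ZR_phiE E hα', hE1 E h1⟩

end D687
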