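import Pool.Agent.Lib_MP_d687bf.CAct
import Pool.Agent.Lib_MP_d687bf.HomFin

/-!
MP_d687bf, S7a: the groups `lev D V m = V^{(m)}`, `sharp D V = V^#` and the tower `V^{#j}`.

`isOpen_sharp`: `V^# = {v ∈ V | a v = 0 for all a ∈ I(V)}` (`mem_II_iff`; `p ∣ l v` iff
`toZMod (l v) = 0`), and `I(V) ≤ Hom(V,k)` is a finite set of continuous functions (`finite_HH`,
`II_le_HH`). `dvd_of_mem_tower`: induction on `m`; if `l ∈ X(W)` then `l = p l'` on `W^#` with
`l' ∈ X(W^#)` (`exists_div` on the group `W^#`). `isOpen_lev`: `V^{#m} ≤ V^{(m)}`.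
-/

set_option autoImplicit false

open Set Filter Topology

namespace D687

variable {p : ℕ} [Fact p.Prime] {D : Datum p} {V V' : Subgroup (FF p)} {m j : ℕ}
  {l : FF p → ℤ_[p]}

theorem lev_le : lev D V m ≤ V := fun _ h => h.1

theorem R_le_lev (hR : D.R ≤ V) : D.R ≤ lev D V m := fun x hx =>
  ⟨hR hx, fun l hl => by rw [hl.triv x hx]; exact dvd_zero _⟩

private theorem S7Tower_R_normal : D.R.Normal := by
  have h : (Subgroup.normalClosure (Set.range D.r)).Normal := Subgroup.normalClosure_normal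
  exact Subgroup.is_normal_topologicalClosure _

private theorem S7Tower_isX_conj {g : FF p} (hg : ∀ x, x ∈ V → g * x * g⁻¹ ∈ V)
    {l : FF p → ℤ_[p]} (hl : IsX D V l) : IsX D V fun x => l (g * x * g⁻¹) := by
  refine ⟨?_, fun a ha b hb => ?_, fun x hx => ?_⟩
  · have h1 : Continuous fun x : FF p => g * x * g⁻¹ := by fun_prop
    exact hl.cont.comp h1.continuousOn fun x hx => hg x hx
  · have h1 : g * (a * b) * g⁻¹ = (g * a * g⁻¹) * (g * b * g⁻¹) := by group
    rw [h1]
    exact hl.add _ (hg a ha) _ (hg b hb)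
  · exact hl.triv _ (S7Tower_R_normal.conj_mem x hx g)

private theorem S7Tower_conj_mem {g : FF p} (hg : ∀ x, x ∈ V → g * x * g⁻¹ ∈ V) {x : FF p}
    (hx : x ∈ lev D V m) : g * x * g⁻¹ ∈ lev D V m :=
  ⟨hg x hx.1, fun _ hl => hx.2 _ (S7Tower_isX_conj hg hl)⟩

/-- Everything which normalises `V` normalises `V^{(m)}`. -/
theorem lev_conj {g : FF p} (hg : ∀ x, x ∈ V ↔ g * x * g⁻¹ ∈ V) :
    ∀ x, x ∈ lev D V m ↔ g * x * g⁻¹ ∈ lev D V m := by
  intro x
  refine ⟨fun hx => S7Tower_conj_mem (fun y hy => (hg y).1 hy) hx, fun hx => ?_⟩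
  have hg' : ∀ y, y ∈ V → g⁻¹ * y * (g⁻¹)⁻¹ ∈ V := by
    intro y hy
    rw [hg]
    have h1 : g * (g⁻¹ * y * (g⁻¹)⁻¹) * g⁻¹ = y := by group
    rw [h1]
    exact hy
  have h2 := S7Tower_conj_mem hg' hx
  have h3 : g⁻¹ * (g * x * g⁻¹) * (g⁻¹)⁻¹ = x := by group
  rwa [h3] at h2

theorem lev_normal (h : V.Normal) : (lev D V m).Normal :=
  ⟨fun _ hx g => S7Tower_conj_mem (fun y hy => h.conj_mem y hy g) hx⟩

private theorem S7Tower_dvd_iff (z : ℤ_[p]) : (p : ℤ_[p]) ^ 1 ∣ z ↔ PadicInt.toZMod z = 0 := by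
  rw [pow_one, ← Ideal.mem_span_singleton, ← PadicInt.maximalIdeal_eq_span_p,
    ← PadicInt.ker_toZMod, RingHom.mem_ker]

theorem sharp_iff {v : FF p} : v ∈ sharp D V ↔ v ∈ V ∧ ∀ a ∈ II D V, a v = 0 := by
  constructor
  · rintro ⟨h1, h2⟩
    refine ⟨h1, fun a ha => ?_⟩
    obtain ⟨l, hl, rfl⟩ := mem_II_iff.1 ha
    have h3 : v ∈ (V : Set (FF p)) := h1
    rw [redl, Set.indicator_of_mem h3]
    exact (S7Tower_dvd_iff _).1 (h2 l hl)
  · rintro ⟨h1, h2⟩
    refine ⟨h1, fun l hl => ?_⟩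
    have h3 : v ∈ (V : Set (FF p)) := h1
    have h4 := h2 (redl V l) (mem_II_iff.2 ⟨l, hl, rfl⟩)
    rw [redl, Set.indicator_of_mem h3] at h4
    exact (S7Tower_dvd_iff _).2 h4

theorem isOpen_sharp (hV : IsOpen (V : Set (FF p))) (hR : D.R ≤ V) :
    IsOpen (sharp D V : Set (FF p)) := by
  have hfin : Module.Finite (ZMod p) (HH D V) := finite_HH D V hV
  have hHH : Finite (HH D V) := Module.finite_of_finite (ZMod p)
  have hfII : ((II D V : Submodule (ZMod p) (FF p → ZMod p)) : Set (FF p → ZMod p)).Finite :=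
    (Set.toFinite ((HH D V : Submodule (ZMod p) (FF p → ZMod p)) :
      Set (FF p → ZMod p))).subset (II_le_HH hV hR)
  have h1 : (sharp D V : Set (FF p)) = (V : Set (FF p)) ∩
      ⋂ a ∈ ((II D V : Submodule (ZMod p) (FF p → ZMod p)) : Set (FF p → ZMod p)),
        {v : FF p | a v = 0} := by
    ext v
    simp only [SetLike.mem_coe, Set.mem_inter_iff, Set.mem_iInter, Set.mem_ofPred_eq]
    exact sharp_iff
  rw [h1]
  refine hV.inter (hfII.isOpen_biInter fun a ha => ?_)
  have h2 : Continuous a := (II_le_HH hV hR ha).1.cont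
  have h3 : IsOpen ({0} : Set (ZMod p)) := isOpen_discrete _
  exact h3.preimage h2

theorem sharp_mono (h : V' ≤ V) : sharp D V' ≤ sharp D V := fun _ hx =>
  ⟨h hx.1, fun l hl => hx.2 l (hl.mono h)⟩

theorem tower_add (i : ℕ) : tower D V (i + j) = tower D (tower D V i) j := by
  induction j with
  | zero => rfl
  | succ j ih =>
    have h1 : tower D V (i + (j + 1)) = sharp D (tower D V (i + j)) := rfl
    have h2 : tower D (tower D V i) (j + 1) = sharp D (tower D (tower D V i) j) := rfl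
    rw [h1, h2, ih]

theorem tower_antitone : Antitone (tower D V) := antitone_nat_of_succ_le fun _ => lev_le

theorem tower_le : tower D V j ≤ V := tower_antitone (Nat.zero_le j)

theorem tower_mono (h : V' ≤ V) : tower D V' j ≤ tower D V j := by
  induction j with
  | zero => exact h
  | succ j ih => exact sharp_mono ih

theorem R_le_tower (hR : D.R ≤ V) : D.R ≤ tower D V j := by
  induction j with
  | zero => exact hR
  | succ j ih => exact R_le_lev ih

theorem isOpen_tower (hV : IsOpen (V : Set (FF p))) (hR : D.R ≤ V) :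
    IsOpen (tower D V j : Set (FF p)) := by
  induction j with
  | zero => exact hV
  | succ j ih => exact isOpen_sharp ih (R_le_tower hR)

theorem tower_normal (h : V.Normal) : (tower D V j).Normal := by
  induction j with
  | zero => exact h
  | succ j ih => exact lev_normal ih

private theorem S7Tower_dvd (m : ℕ) : ∀ (j : ℕ) (l : FF p → ℤ_[p]),
    IsX D (tower D V j) l → ∀ x ∈ tower D V (j + m), (p : ℤ_[p]) ^ m ∣ l x := by
  induction m with
  | zero => intro j l _ x _; rw [pow_zero]; exact one_dvd _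
  | succ m ih =>
    intro j l hl x hx
    have hle : tower D V (j + 1) ≤ tower D V j := lev_le
    have hl1 : IsX D (tower D V (j + 1)) l := hl.mono hle
    have h0 : redl (tower D V (j + 1)) l = 0 := by
      funext y
      rw [redl]
      by_cases hy : y ∈ ((tower D V (j + 1) : Subgroup (FF p)) : Set (FF p))
      · rw [Set.indicator_of_mem hy]
        have hy' : y ∈ sharp D (tower D V j) := hy
        exact (S7Tower_dvd_iff _).1 (hy'.2 l hl)
      · rw [Set.indicator_of_notMem hy]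
        rfl
    obtain ⟨l', hl', h1⟩ := exists_div hl1 h0
    have h2 : x ∈ tower D V (j + 1 + m) := by
      have h3 : j + 1 + m = j + (m + 1) := by omega
      rw [h3]
      exact hx
    have h4 : x ∈ tower D V (j + 1) := tower_antitone (Nat.le_add_right (j + 1) m) h2
    rw [h1 x h4, pow_succ']
    exact mul_dvd_mul_left _ (ih (j + 1) l' hl' x h2)

/-- If `l ∈ X(V^{#j})` then `p ^ m ∣ l` on `V^{#(j+m)}`. -/
theorem dvd_of_mem_tower (hV : IsOpen (V : Set (FF p))) (hR : D.R ≤ V)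
    (hl : IsX D (tower D V j) l) {x : FF p} (hx : x ∈ tower D V (j + m)) :
    (p : ℤ_[p]) ^ m ∣ l x :=
  S7Tower_dvd m j l hl x hx

theorem eq_zero_of_mem_tower (hV : IsOpen (V : Set (FF p))) (hR : D.R ≤ V)
    (hl : IsX D (tower D V j) l) {x : FF p} (hx : ∀ i, x ∈ tower D V i) : l x = 0 := by
  have h1 : ∀ m : ℕ, (p : ℤ_[p]) ^ m ∣ l x := fun m => dvd_of_mem_tower hV hR hl (hx (j + m))
  have h2 : ∀ m : ℕ, PadicInt.toZModPow m (l x) = PadicInt.toZModPow m 0 := by
    intro m
    rw [map_zero, ← RingHom.mem_ker, PadicInt.ker_toZModPow, Ideal.mem_span_singleton]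
    exact h1 m
  exact PadicInt.ext_of_toZModPow.1 h2

theorem tower_le_lev (hV : IsOpen (V : Set (FF p))) (hR : D.R ≤ V) :
    tower D V m ≤ lev D V m := fun x hx =>
  ⟨tower_le hx, fun l hl => dvd_of_mem_tower (j := 0) hV hR hl (by rw [Nat.zero_add]; exact hx)⟩

theorem isOpen_lev (hV : IsOpen (V : Set (FF p))) (hR : D.R ≤ V) :
    IsOpen (lev D V m : Set (FF p)) :=
  Subgroup.isOpen_mono (tower_le_lev hV hR) (isOpen_tower hV hR)

/-- If `x ∉ V^{#j}` for some `j` and `x ∈ V`, then some `l ∈ X(V^{#i})`, `x ∈ V^{#i}`, has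
`l x` prime to `p`. -/
theorem exists_unit_of_notMem {x : FF p} (hx : x ∈ V) (hj : x ∉ tower D V j) :
    ∃ i < j, x ∈ tower D V i ∧ ∃ l : FF p → ℤ_[p], IsX D (tower D V i) l ∧
      ¬ (p : ℤ_[p]) ∣ l x := by
  induction j with
  | zero => exact absurd hx hj
  | succ j ih =>
    by_cases hxj : x ∈ tower D V j
    · refine ⟨j, Nat.lt_succ_self j, hxj, ?_⟩
      by_contra hcon
      push Not at hcon
      apply hj
      refine ⟨hxj, fun l hl => ?_⟩
      rw [pow_one]
      exact hcon l hl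
    · obtain ⟨i, hi, h1, h2⟩ := ih hxj
      exact ⟨i, Nat.lt_succ_of_lt hi, h1, h2⟩

end D687
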