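import Pool.Agent.Lib_MP_d687bf.Corank
import Pool.Agent.Lib_MP_d687bf.BddB
import Pool.Agent.Lib_MP_d687bf.S7Tower

/-!
MP_d687bf, S7c: the dimension count in the proof of (7.1).

`no_val`: `B` from `exists_bound_bV`; `l(Y) = p^e ℤ_p` (`Y` compact, `l` not zero on `Y`; only
needed: some `y₀ ∈ Y` with `l y₀ = p^e u`, `u` a unit, so every `p^e n`, `n ∈ ℕ`, is a value modulo
`p^m`, e.g. at powers of `y₀`: `l (y₀ ^ k) = k p^e u`, `k u ≡ n mod p^m`). `N = B p^e`, `m` with
`p ^ m > N + ord (α v)`; `W` the level subgroup (`exists_level`). For `f ∈ k[[T]]` let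
`a_f := res W (cs m ∘ (f α)) ∈ H(W)` (`cs_mem_HH`), linear in `f`. `exists_ne_zero_mem` for the
map `c ↦ (i ↦ a_{t^i f_c})_{i < p^e}`, `f_c = ∑_{k ≤ N} c_k T^k`, `H = HH D W`, `I = II D W`
(`finrank_HH_le`, `bV D W ≤ B`): some `f = f_c ≠ 0` with all `a_{t^i f} ∈ I(W)`. For `y ∈ Y`:
`y v y⁻¹ ∈ W^#` (`hmem` and `lev_conj`: `Y` normalises `W`), so `a_{t^i f}(y v y⁻¹) = 0`
(`sharp_iff`), and `α (y v y⁻¹) = t^{l y} α v` (`Z1_conj`, `l v = 0`). So
`cs m (t^n f α(v)) = 0` for all `n ∈ ℕ` (`cs_tpow_mul` to change `l y` by a multiple of `p^m`), so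
`X^(p^m) ∣ f α(v)` (`dvd_of_cs`); but `f ∣ X^N` up to a unit: contradiction to the choice of `m`.
-/

set_option autoImplicit false

open Set Filter Topology

namespace D687

variable {p : ℕ} [Fact p.Prime] {D : Datum p}

/-- Linear algebra: `dim H ≤ dim I + b`, `s b < N` conditions on `N` parameters. -/
theorem exists_ne_zero_mem {E : Type} [AddCommGroup E] [Module (ZMod p) E]
    (H I : Submodule (ZMod p) E) (hIH : I ≤ H) [Module.Finite (ZMod p) H] {b s N : ℕ}
    (hb : Module.finrank (ZMod p) H ≤ Module.finrank (ZMod p) I + b) (hN : s * b < N)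
    (L : Fin s → (Fin N → ZMod p) →ₗ[ZMod p] E) (hL : ∀ i c, L i c ∈ H) :
    ∃ c : Fin N → ZMod p, c ≠ 0 ∧ ∀ i, L i c ∈ I := by
  classical
  set J : Submodule (ZMod p) H := I.comap H.subtype with hJ
  have hJr : Module.finrank (ZMod p) J = Module.finrank (ZMod p) I :=
    (Submodule.comapSubtypeEquivOfLe hIH).finrank_eq
  have hq : Module.finrank (ZMod p) (H ⧸ J) ≤ b := by
    have h1 := Submodule.finrank_quotient_add_finrank J
    omega
  set Φ : (Fin N → ZMod p) →ₗ[ZMod p] (Fin s → H ⧸ J) :=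
    LinearMap.pi fun i => J.mkQ ∘ₗ (L i).codRestrict H (hL i) with hΦ
  have h1 : Module.finrank (ZMod p) (Fin s → H ⧸ J) < Module.finrank (ZMod p) (Fin N → ZMod p) := by
    rw [Module.finrank_pi_fintype, Finset.sum_const, Finset.card_univ, Fintype.card_fin,
      smul_eq_mul, Module.finrank_fin_fun]
    exact (Nat.mul_le_mul_left s hq).trans_lt hN
  obtain ⟨c, hc, hc0⟩ := Submodule.exists_mem_ne_zero_of_ne_bot
    (LinearMap.ker_ne_bot_of_finrank_lt (f := Φ) h1)
  refine ⟨c, hc0, fun i => ?_⟩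
  have h2 : Φ c i = 0 := by
    rw [LinearMap.mem_ker.1 hc]
    rfl
  have h3 : J.mkQ ((L i).codRestrict H (hL i) c) = 0 := h2
  rw [Submodule.mkQ_apply, Submodule.Quotient.mk_eq_zero] at h3
  exact h3

/-- the polynomial with coefficients `c` -/
private noncomputable def S7Dim_F {N : ℕ} (c : Fin N → ZMod p) : K1 p :=
  ∑ k : Fin N, c k • (PowerSeries.X : K1 p) ^ (k : ℕ)

private theorem S7Dim_F_coeff {N : ℕ} (c : Fin N → ZMod p) (j : Fin N) :
    PowerSeries.coeff (j : ℕ) (S7Dim_F c) = c j := by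
  unfold S7Dim_F
  rw [map_sum, Finset.sum_eq_single j]
  · rw [PowerSeries.coeff_smul, PowerSeries.coeff_X_pow, if_pos rfl, smul_eq_mul, mul_one]
  · intro k _ hk
    rw [PowerSeries.coeff_smul, PowerSeries.coeff_X_pow, if_neg, smul_zero]
    intro h
    exact hk (Fin.ext h).symm
  · intro h
    exact absurd (Finset.mem_univ j) h

private theorem S7Dim_F_add {N : ℕ} (c d : Fin N → ZMod p) :
    S7Dim_F (c + d) = S7Dim_F c + S7Dim_F d := by
  unfold S7Dim_F
  rw [← Finset.sum_add_distrib]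
  exact Finset.sum_congr rfl fun k _ => by rw [Pi.add_apply, add_smul]

private theorem S7Dim_F_smul {N : ℕ} (a : ZMod p) (c : Fin N → ZMod p) :
    S7Dim_F (a • c) = a • S7Dim_F c := by
  unfold S7Dim_F
  rw [Finset.smul_sum]
  exact Finset.sum_congr rfl fun k _ => by rw [Pi.smul_apply, smul_eq_mul, mul_smul]

/-- the functions `a_{t^i f}`, linear in the coefficients of `f` -/
private noncomputable def S7Dim_L (W : Subgroup (FF p)) (m N : ℕ) (α : FF p → K1 p) (i : ℕ) :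
    (Fin N → ZMod p) →ₗ[ZMod p] (FF p → ZMod p) where
  toFun c := res W fun x => cs m (((1 + PowerSeries.X) ^ i * S7Dim_F c) * α x)
  map_add' c d := by
    funext x
    by_cases hx : x ∈ (W : Set (FF p))
    · simp only [res, Pi.add_apply, Set.indicator_of_mem hx]
      rw [S7Dim_F_add, ← cs_add]
      congr 1
      ring
    · simp only [res, Pi.add_apply, Set.indicator_of_notMem hx, add_zero]
  map_smul' a c := by
    funext x
    by_cases hx : x ∈ (W : Set (FF p))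
    · simp only [res, Pi.smul_apply, Set.indicator_of_mem hx, RingHom.id_apply, smul_eq_mul]
      rw [S7Dim_F_smul, ← cs_smul, mul_smul_comm, smul_mul_assoc]
    · simp only [res, Pi.smul_apply, Set.indicator_of_notMem hx, smul_zero]

private theorem S7Dim_L_apply {W : Subgroup (FF p)} (m N : ℕ) (α : FF p → K1 p) (i : ℕ)
    (c : Fin N → ZMod p) {x : FF p} (hx : x ∈ W) :
    S7Dim_L W m N α i c x = cs m (((1 + PowerSeries.X) ^ i * S7Dim_F c) * α x) := by
  change Set.indicator (W : Set (FF p))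
    (fun x => cs m (((1 + PowerSeries.X) ^ i * S7Dim_F c) * α x)) x = _
  exact Set.indicator_of_mem (show x ∈ (W : Set (FF p)) from hx) _

theorem no_val {Y : Subgroup (FF p)} (hadm : Adm D Y) {l : FF p → ℤ_[p]} (hl : IsX D Y l)
    (hne : ∃ x ∈ Y, l x ≠ 0) (hg : Good D Y l) {α : FF p → K1 p}
    (hα : α ∈ ZR D Y (scal (chr l))) {v : FF p} (hv : v ∈ Y) (hlv : l v = 0)
    (hmem : ∀ (m : ℕ) (W : Subgroup (FF p)),
      (∀ y, y ∈ W ↔ y ∈ Y ∧ (p : ℤ_[p]) ^ m ∣ l y) → v ∈ sharp D W) : α v = 0 := by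
  classical
  by_contra hαv
  obtain ⟨n, hk, -⟩ := hg
  obtain ⟨B, hB⟩ := exists_bound_bV hadm hl hk
  obtain ⟨x, hx, hlx⟩ := hne
  set e : ℕ := (l x).valuation with he
  set u : ℤ_[p]ˣ := PadicInt.unitCoeff hlx with hu
  have hlxe : l x = (u : ℤ_[p]) * (p : ℤ_[p]) ^ e := PadicInt.unitCoeff_spec hlx
  -- the order of `α v`
  obtain ⟨w, hw⟩ : ∃ w, PowerSeries.coeff w (α v) ≠ 0 := by
    by_contra h
    push Not at h
    exact hαv (PowerSeries.ext fun k => by rw [h k, map_zero])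
  set N : ℕ := p ^ e * B + 1 with hN
  set m : ℕ := N + w with hm
  have hpm : N + w < p ^ m := Nat.lt_pow_self (Fact.out : p.Prime).one_lt
  obtain ⟨W, hW, hWo, hRW, hWY⟩ := exists_level hadm.isOpen hadm.hR hl m
  have : Module.Finite (ZMod p) (HH D W) := finite_HH D W hWo
  have hadmW : Adm D W := hadm.mono hWo hRW hWY
  have hL : ∀ (i : Fin (p ^ e)) (c : Fin N → ZMod p), S7Dim_L W m N α i c ∈ HH D W := by
    intro i c
    have h1 : (((1 + PowerSeries.X) ^ (i : ℕ) * S7Dim_F c : K1 p) • α) ∈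
        ZR D Y (scal (chr l)) := Submodule.smul_mem _ _ hα
    exact cs_mem_HH hadm.isOpen hadm.hR hl hW h1
  obtain ⟨c, hc0, hc⟩ := exists_ne_zero_mem (HH D W) (II D W) (II_le_HH hWo hRW)
    (b := B) (s := p ^ e) (N := N)
    ((finrank_HH_le hadmW).trans (Nat.add_le_add_left (hB m W hW) _)) (Nat.lt_succ_self _)
    (fun i => S7Dim_L W m N α i) hL
  -- conjugates of `v`
  have hact := (hl.isChar_chr).isActR
  have hconj : ∀ y ∈ Y, α (y * v * y⁻¹) = tpow (l y) * α v := by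
    intro y hy
    have h1 : l (y * v * y⁻¹) = 0 := by
      rw [hl.add (y * v) (Y.mul_mem hy hv) y⁻¹ (Y.inv_mem hy), hl.add y hy v hv, hlv,
        hl.inv_eq hy]
      ring
    have h2 : scal (chr l) (y * v * y⁻¹) (α y) = α y := by
      simp [scal, chr, h1, tpow_zero]
    rw [Z1_conj hact.toIsAct hα.1 hy hv, h2]
    simp [scal, chr]
  have hsh : ∀ y ∈ Y, y * v * y⁻¹ ∈ sharp D W := by
    intro y hy
    refine (lev_conj (m := 1) (fun z => ?_) v).1 (hmem m W hW)
    rw [hW, hW]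
    have h0 : z ∈ Y ↔ y * z * y⁻¹ ∈ Y := by
      constructor
      · intro hz
        exact Y.mul_mem (Y.mul_mem hy hz) (Y.inv_mem hy)
      · intro hz
        have h1 := Y.mul_mem (Y.mul_mem (Y.inv_mem hy) hz) hy
        have h2 : y⁻¹ * (y * z * y⁻¹) * y = z := by group
        rwa [h2] at h1
    constructor
    · rintro ⟨hz, hz'⟩
      refine ⟨h0.1 hz, ?_⟩
      rw [hl.add (y * z) (Y.mul_mem hy hz) y⁻¹ (Y.inv_mem hy), hl.add y hy z hz, hl.inv_eq hy]
      have h1 : l y + l z + -l y = l z := by ring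
      rwa [h1]
    · rintro ⟨hz, hz'⟩
      have hzY := h0.2 hz
      refine ⟨hzY, ?_⟩
      rw [hl.add (y * z) (Y.mul_mem hy hzY) y⁻¹ (Y.inv_mem hy), hl.add y hy z hzY,
        hl.inv_eq hy] at hz'
      have h1 : l y + l z + -l y = l z := by ring
      rwa [h1] at hz'
  have hzero : ∀ (i : ℕ), i < p ^ e → ∀ y ∈ Y,
      cs m (((1 + PowerSeries.X) ^ i * S7Dim_F c) * (tpow (l y) * α v)) = 0 := by
    intro i hi y hy
    have h1 := sharp_iff.1 (hsh y hy)
    have h2 := h1.2 _ (hc ⟨i, hi⟩)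
    rw [S7Dim_L_apply m N α _ c h1.1, hconj y hy] at h2
    exact h2
  -- all the values
  have hall : ∀ k : ℕ, cs m ((1 + PowerSeries.X) ^ k * (S7Dim_F c * α v)) = 0 := by
    intro k
    set q : ℕ := k / p ^ e with hq
    set i : ℕ := k % p ^ e with hi
    have hik : i + p ^ e * q = k := Nat.mod_add_div k (p ^ e)
    have hilt : i < p ^ e := Nat.mod_lt _ (pow_pos (Fact.out : p.Prime).pos e)
    set z : ℤ_[p] := ((u⁻¹ : ℤ_[p]ˣ) : ℤ_[p]) * (q : ℤ_[p]) with hz
    have h1 : (p : ℤ_[p]) ^ m ∣ z - (z.appr m : ℤ_[p]) := by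
      have := PadicInt.appr_spec m z
      rwa [Ideal.mem_span_singleton] at this
    set y : FF p := x ^ (z.appr m) with hy
    have hyY : y ∈ Y := Y.pow_mem hx _
    have hly : l y = (z.appr m : ℤ_[p]) * l x := hl.pow_eq hx _
    have h2 : (p : ℤ_[p]) ^ m ∣ l y - ((p ^ e * q : ℕ) : ℤ_[p]) := by
      obtain ⟨d, hd⟩ := h1
      refine ⟨-(d * (u : ℤ_[p]) * (p : ℤ_[p]) ^ e), ?_⟩
      have h3 : (z.appr m : ℤ_[p]) = z - (p : ℤ_[p]) ^ m * d := by
        rw [← hd]
        ring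
      have h4 : (u : ℤ_[p]) * z = (q : ℤ_[p]) := by
        rw [hz, ← mul_assoc, Units.mul_inv, one_mul]
      rw [hly, h3, hlxe]
      push_cast
      linear_combination (p : ℤ_[p]) ^ e * h4
    have h3 := hzero i hilt y hyY
    have h4 : tpow (l y) = tpow (l y - ((p ^ e * q : ℕ) : ℤ_[p])) *
        (1 + PowerSeries.X) ^ (p ^ e * q) := by
      rw [← tpow_nat, ← tpow_add, sub_add_cancel]
    have h5 : ((1 + PowerSeries.X) ^ i * S7Dim_F c) * (tpow (l y) * α v) =
        tpow (l y - ((p ^ e * q : ℕ) : ℤ_[p])) *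
          ((1 + PowerSeries.X) ^ k * (S7Dim_F c * α v)) := by
      rw [h4, ← hik, pow_add]
      ring
    rw [h5, cs_tpow_mul m _ h2] at h3
    exact h3
  have hdvd := dvd_of_cs m _ hall
  have hord : (p ^ m : ℕ) ≤ (S7Dim_F c * α v).order :=
    PowerSeries.nat_le_order _ _ (PowerSeries.X_pow_dvd_iff.1 hdvd)
  obtain ⟨k0, hk0⟩ : ∃ k0, c k0 ≠ 0 := by
    by_contra h
    push Not at h
    exact hc0 (funext h)
  have ho1 : (S7Dim_F c).order ≤ (k0 : ℕ) :=
    PowerSeries.order_le _ (by rw [S7Dim_F_coeff]; exact hk0)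
  have ho2 : (α v).order ≤ (w : ℕ) := PowerSeries.order_le _ hw
  rw [PowerSeries.order_mul] at hord
  have h6 := hord.trans (add_le_add ho1 ho2)
  have h7 : p ^ m ≤ (k0 : ℕ) + w := by exact_mod_cast h6
  have h8 := k0.2
  omega

end D687
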