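import Pool.Agent.Lib_MP_d687bf.S9Defs
import Pool.Agent.Lib_MP_d687bf.S7Inter

/-!
MP_d687bf, S9A: the order of `w` modulo open subgroups; (9.1).

`exists_isOrd`: `{j : ℤ | w^j ∈ V}` is a subgroup of `ℤ` (`Int.subgroup_cyclic` or
`AddSubgroup` of `ℤ` generated by a natural number `n`), and it contains a power of `p`: the normal
core of `V` is open (`isOpen_core`), its index is a power of `p` (`index_open`), and
`w ^ index ∈ core`. So `n ∣ p ^ k`, `n = p ^ a`.

`IsOrd.lev`: if `w^j ∈ V^{(m)} ≤ V` then `j = p^a j'`, `l (w^j) = j' l(u)`, `u = w^(p^a)`, so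
`p^m ∣ j'` (`PadicInt.pow_p_dvd_int_iff`), conversely `u ^ (p^m j') ∈ V^{(m)}`.

`exists_div_lev`: divide the values by `p^m` (choose the quotient; `0` outside); continuity of the
quotient from `‖p^m x‖ = p^(-m) ‖x‖`.

`exists_unit_tower`: otherwise for every `j`, with `a_j` the exponent of the order of `w` mod
`V_j = tower D V j`, `u_j = w^(p^(a_j))`: all `l u_j`, `l ∈ X(V_j)`, are divisible by `p`, so
`u_j ∈ V_{j+1}` and `a_{j+1} = a_j`; so `u_0` lies in all `V_j`, `u_0 ∈ R` (`mem_R_of_tower`),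
contradiction.
-/

set_option autoImplicit false

open Set Filter Topology

namespace D687

variable {p : ℕ} [Fact p.Prime] {D : Datum p} {V V' : Subgroup (FF p)} {w u : FF p} {a a' : ℕ}
  {l : FF p → ℤ_[p]}

theorem exists_isOrd (hV : IsOpen (V : Set (FF p))) (w : FF p) : ∃ a, IsOrd V w a := by
  have hpp : p.Prime := Fact.out
  let S : AddSubgroup ℤ :=
    { carrier := {j | w ^ j ∈ V}
      add_mem' := fun {i j} hi hj => by
        change w ^ (i + j) ∈ V
        rw [zpow_add]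
        exact V.mul_mem hi hj
      zero_mem' := by
        change w ^ (0 : ℤ) ∈ V
        rw [zpow_zero]
        exact V.one_mem
      neg_mem' := fun {i} hi => by
        change w ^ (-i) ∈ V
        rw [zpow_neg]
        exact V.inv_mem hi }
  have hS : ∀ j : ℤ, w ^ j ∈ V ↔ j ∈ S := fun j => Iff.rfl
  obtain ⟨c, hc⟩ := Int.subgroup_cyclic S
  have hSc : ∀ j : ℤ, w ^ j ∈ V ↔ c ∣ j := by
    intro j
    rw [hS, hc, ← AddSubgroup.zmultiples_eq_closure, Int.mem_zmultiples_iff]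
  obtain ⟨n, hn⟩ := index_open V.normalCore (isOpen_core V hV)
  have h1 : w ^ (p ^ n) ∈ V := by
    have h2 := Subgroup.pow_index_mem V.normalCore w
    rw [hn] at h2
    exact V.normalCore_le h2
  have h3 : c ∣ ((p ^ n : ℕ) : ℤ) := by
    rw [← hSc, zpow_natCast]
    exact h1
  have h4 : c.natAbs ∣ p ^ n := Int.natAbs_dvd_natAbs.2 h3
  obtain ⟨a, -, ha⟩ := (Nat.dvd_prime_pow hpp).1 h4
  refine ⟨a, fun j => ?_⟩
  rw [hSc, ← ha, Int.natAbs_dvd]

omit [Fact p.Prime] in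
theorem IsOrd.pow_mem (h : IsOrd V w a) : w ^ p ^ a ∈ V := by
  have h1 := (h ((p ^ a : ℕ) : ℤ)).2 (dvd_refl _)
  rwa [zpow_natCast] at h1

theorem IsOrd.le (h : IsOrd V w a) (h' : IsOrd V' w a') (hle : V' ≤ V) : a ≤ a' := by
  have hpp : p.Prime := Fact.out
  have h1 : w ^ ((p ^ a' : ℕ) : ℤ) ∈ V := by
    rw [zpow_natCast]
    exact hle h'.pow_mem
  have h2 := (h _).1 h1
  have h3 : p ^ a ∣ p ^ a' := Int.natCast_dvd_natCast.1 h2
  exact (Nat.pow_dvd_pow_iff_le_right hpp.one_lt).1 h3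

theorem pow_mem_lev (hu : u ∈ V) (m : ℕ) : u ^ p ^ m ∈ lev D V m := by
  refine ⟨V.pow_mem hu _, fun l hl => ?_⟩
  rw [hl.pow_eq hu, Nat.cast_pow]
  exact dvd_mul_right _ _

theorem IsOrd.lev (h : IsOrd V w a) (hl : IsX D V l) (hu : IsUnit (l (w ^ p ^ a))) (m : ℕ) :
    IsOrd (lev D V m) w (a + m) := by
  have hpp : p.Prime := Fact.out
  intro j
  constructor
  · intro hj
    obtain ⟨j', rfl⟩ := (h j).1 hj.1
    have h1 : w ^ (((p ^ a : ℕ) : ℤ) * j') = (w ^ p ^ a) ^ j' := by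
      rw [zpow_mul, zpow_natCast]
    have h2 := hj.2 l hl
    rw [h1, hl.zpow_eq h.pow_mem, hu.dvd_mul_right, PadicInt.pow_p_dvd_int_iff] at h2
    rw [pow_add]
    push_cast
    exact mul_dvd_mul_left _ h2
  · rintro ⟨j', rfl⟩
    have h1 : w ^ (((p ^ (a + m) : ℕ) : ℤ) * j') = ((w ^ p ^ a) ^ p ^ m) ^ j' := by
      rw [zpow_mul, zpow_natCast, pow_add, pow_mul]
    rw [h1]
    exact Subgroup.zpow_mem _ (pow_mem_lev h.pow_mem m) _

theorem exists_div_lev (hl : IsX D V l) (m : ℕ) :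
    ∃ l', IsX D (lev D V m) l' ∧ ∀ x ∈ lev D V m, l x = (p : ℤ_[p]) ^ m * l' x := by
  classical
  have hpp : p.Prime := Fact.out
  have hp0 : ((p : ℤ_[p]) ^ m) ≠ 0 := pow_ne_zero _ (by exact_mod_cast hpp.ne_zero)
  set l' : FF p → ℤ_[p] := fun x => if hx : (p : ℤ_[p]) ^ m ∣ l x then hx.choose else 0 with hl'
  have hdiv : ∀ x, (p : ℤ_[p]) ^ m ∣ l x → l x = (p : ℤ_[p]) ^ m * l' x := by
    intro x hx
    have h1 : l' x = hx.choose := by
      rw [hl']
      exact dif_pos hx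
    rw [h1]
    exact hx.choose_spec
  have hlev : ∀ x ∈ lev D V m, l x = (p : ℤ_[p]) ^ m * l' x := fun x hx => hdiv x (hx.2 l hl)
  refine ⟨l', ⟨?_, fun g hg g' hg' => ?_, fun x hx => ?_⟩, hlev⟩
  · have hemb : IsInducing fun z : ℤ_[p] => (p : ℤ_[p]) ^ m * z :=
      ((continuous_const.mul continuous_id).isClosedEmbedding
        (mul_right_injective₀ hp0)).isInducing
    rw [hemb.continuousOn_iff]
    refine (hl.cont.mono lev_le).congr fun x hx => ?_
    exact (hlev x hx).symm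
  · apply mul_left_cancel₀ hp0
    rw [mul_add, ← hlev _ (Subgroup.mul_mem _ hg hg'), ← hlev _ hg, ← hlev _ hg']
    exact hl.add g hg.1 g' hg'.1
  · have h0 : l x = 0 := hl.triv x hx
    have h1 := hdiv x (by rw [h0]; exact dvd_zero _)
    rw [h0] at h1
    exact (mul_eq_zero.1 h1.symm).resolve_left hp0

theorem exists_unit_lev (h : IsOrd V w a) (hl : IsX D V l) (hu : IsUnit (l (w ^ p ^ a)))
    (m : ℕ) : ∃ l', IsX D (lev D V m) l' ∧ IsUnit (l' (w ^ p ^ (a + m))) := by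
  have hpp : p.Prime := Fact.out
  have hp0 : ((p : ℤ_[p]) ^ m) ≠ 0 := pow_ne_zero _ (by exact_mod_cast hpp.ne_zero)
  obtain ⟨l', hl', h1⟩ := exists_div_lev hl m
  refine ⟨l', hl', ?_⟩
  have h2 : w ^ p ^ (a + m) = (w ^ p ^ a) ^ p ^ m := by rw [pow_add, pow_mul]
  have h3 := h1 _ (pow_mem_lev (D := D) h.pow_mem m)
  rw [hl.pow_eq h.pow_mem, Nat.cast_pow] at h3
  rw [h2, ← mul_left_cancel₀ hp0 h3]
  exact hu

theorem IsX.exists_eq_one (hl : IsX D V l) (hu : IsUnit (l u)) :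
    ∃ l', IsX D V l' ∧ l' u = 1 := by
  obtain ⟨c, hc⟩ := hu.exists_left_inv
  exact ⟨c • l, hl.smul c, hc⟩

/-- If `w ∈ V` and `l w` is a unit for some `l ∈ X(V)` then `a w ≠ 0` for some `a ∈ H(V)`. -/
theorem exists_HH_ne_zero (hV : IsOpen (V : Set (FF p))) (hR : D.R ≤ V) (hu : u ∈ V)
    (hl : IsX D V l) (hun : IsUnit (l u)) : ∃ b ∈ HH D V, (b : FF p → ZMod p) u ≠ 0 := by
  refine ⟨redl V l, redl_mem_HH hV hR hl, ?_⟩
  have h1 : redl V l u = PadicInt.toZMod (l u) := by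
    have hu' : u ∈ (V : Set (FF p)) := hu
    rw [redl, Set.indicator_of_mem hu']
  rw [h1]
  exact (hun.map PadicInt.toZMod).ne_zero

/-- (9.1) -/
theorem exists_unit_tower (S : Sys D) (hV : IsOpen (V : Set (FF p))) (hR : D.R ≤ V)
    (hle : V ≤ S.V1) (hinf : ∀ n : ℕ, 0 < n → w ^ n ∉ D.R) :
    ∃ (j a : ℕ) (l : FF p → ℤ_[p]), IsOrd (tower D V j) w a ∧ IsX D (tower D V j) l ∧
      IsUnit (l (w ^ p ^ a)) := by
  have hpp : p.Prime := Fact.out
  by_contra hcon
  obtain ⟨a0, ha0⟩ := exists_isOrd hV w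
  have hstep : ∀ j, IsOrd (tower D V j) w a0 := by
    intro j
    induction j with
    | zero => exact ha0
    | succ j ih =>
      have h1 : w ^ p ^ a0 ∈ tower D V (j + 1) := by
        refine ⟨ih.pow_mem, fun l hl => ?_⟩
        have h2 : ¬ IsUnit (l (w ^ p ^ a0)) := fun h => hcon ⟨j, a0, l, ih, hl, h⟩
        have h3 : l (w ^ p ^ a0) ∈ IsLocalRing.maximalIdeal ℤ_[p] := h2
        rw [PadicInt.maximalIdeal_eq_span_p, Ideal.mem_span_singleton] at h3
        rwa [pow_one]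
      intro i
      constructor
      · intro hi
        exact (ih i).1 (lev_le hi)
      · rintro ⟨i', rfl⟩
        rw [zpow_mul, zpow_natCast]
        exact Subgroup.zpow_mem _ h1 _
  exact hinf (p ^ a0) (pow_pos hpp.pos _) (mem_R_of_tower S hV hR hle fun j => (hstep j).pow_mem)

/-- Representatives of `V \ FF / ⟨w⟩` exist (apply `exists_reps` to a datum with one element). -/
theorem exists_repW (hV : IsOpen (V : Set (FF p))) (w : FF p) :
    ∃ (n : ℕ) (gg : Fin n → FF p), IsRepW V w gg := by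
  obtain ⟨q, ri, rg, h⟩ := exists_reps (⟨1, fun _ => w, fun _ => 0⟩ : Datum p) V hV
  refine ⟨q, rg, fun g => ?_, fun l l' h1 => h.inj l l' (Subsingleton.elim (α := Fin 1) _ _) h1⟩
  obtain ⟨l, -, v, hv, j, hj⟩ := h.ex 0 g
  exact ⟨l, v, hv, j, hj⟩

end D687
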