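import Pool.Agent.Lib_MP_d687bf.ZTFacts

/-!
MP_d687bf, S9B: the algebra of (9.2) in `ℤ_p[[T]]`.

Proof. `ω_m ∣ (t^z - 1) p^k f` implies `ω_m ∣ (t^z - 1) f` (`wm_dvd_of_dvd_pow_mul`). If `z = 0`
there is nothing to prove. Otherwise `z = p^j y`, `y` a unit; if `j ≥ m` we are done. Let `j < m`:
`t^z - 1 = ω_j v`, `v` a unit (`tpowZ_sub_one_eq`), `ω_m = ω_j c`, `c ≡ X^(p^m - p^j)` mod `p`
(`wm_factor`); cancel `ω_j ≠ 0` (`ZT p` is a domain): `c ∣ v f`, so `X^(p^m - p^j)` divides the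
reduction of `f`, and `p^m - p^j ≥ p^m - p^(m-1) ≥ p^(m-1) ≥ m` is at most the order of the
reduction of `f`. So `m0 = order + 1` does it.
-/

set_option autoImplicit false

open Set Filter Topology

namespace D687

variable {p : ℕ} [Fact p.Prime]

theorem pow_dvd_of_wm_dvd (f : ZT p) (hf : redP f ≠ 0) :
    ∃ m0 : ℕ, ∀ m ≥ m0, ∀ (k : ℕ) (z : ℤ_[p]),
      wm m ∣ (tpowZ z - 1) * ((p : ZT p) ^ k * f) → (p : ℤ_[p]) ^ m ∣ z := by
  obtain ⟨N, hN⟩ := (PowerSeries.exists_coeff_ne_zero_iff_ne_zero).2 hf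
  refine ⟨N + 1, fun m hm k z h => ?_⟩
  have h1 : wm m ∣ (tpowZ z - 1) * f := by
    apply wm_dvd_of_dvd_pow_mul m k
    rwa [mul_left_comm] at h
  by_cases hz : z = 0
  · rw [hz]; exact dvd_zero _
  have hzs := PadicInt.unitCoeff_spec hz
  set j : ℕ := z.valuation with hj
  set y : ℤ_[p] := ((PadicInt.unitCoeff hz : ℤ_[p]ˣ) : ℤ_[p]) with hy
  have hyu : IsUnit y := Units.isUnit _
  by_contra hcon
  have hjm : j < m := by
    by_contra h2
    apply hcon
    rw [hzs]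
    exact (pow_dvd_pow _ (not_lt.1 h2)).mul_left _
  obtain ⟨v, hv, hv1⟩ := tpowZ_sub_one_eq j y hyu
  obtain ⟨c, hc, hc1⟩ := wm_factor (p := p) j m hjm.le
  have hz2 : tpowZ z - 1 = wm j * v := by
    rw [← hv1]
    congr 2
    rw [hzs]
    ring
  have hw0 : (wm j : ZT p) ≠ 0 := by
    intro h0
    have h3 := congrArg redP h0
    rw [redP_wm, map_zero] at h3
    exact pow_ne_zero _ PowerSeries.X_ne_zero h3
  rw [hz2, hc, mul_assoc] at h1
  have h4 : c ∣ v * f := (mul_dvd_mul_iff_left hw0).1 h1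
  have h5 : (PowerSeries.X : K1 p) ^ (p ^ m - p ^ j) ∣ redP v * redP f := by
    rw [← hc1, ← map_mul]
    exact map_dvd redP h4
  have h6 : (PowerSeries.X : K1 p) ^ (p ^ m - p ^ j) ∣ redP f :=
    ((hv.map redP).dvd_mul_left).1 h5
  refine hN ((PowerSeries.X_pow_dvd_iff.1 h6) N ?_)
  have hp2 : 2 ≤ p := (Fact.out : p.Prime).two_le
  obtain ⟨m', rfl⟩ : ∃ m', m = m' + 1 := ⟨m - 1, by omega⟩
  have h7 : m' < p ^ m' := Nat.lt_pow_self hp2
  have h8 : p ^ j ≤ p ^ m' := Nat.pow_le_pow_right (by omega) (by omega)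
  have h9 : 2 * p ^ m' ≤ p ^ (m' + 1) := by
    rw [pow_succ, mul_comm (p ^ m') p]
    exact Nat.mul_le_mul_right _ hp2
  omega

/-- In `ℤ_p`, `p` odd: `c ^ (p ^ t) = 1` implies `c = 1`. (`c ≡ 1` mod `p`; if `c = 1 + p b ≠ 1` and
`c ^ p = 1` then `∑_{i<p} c^i = 0`, but this sum is `p` mod `p²`, `odd_sq_dvd_geom_sum₂_sub`.) -/
theorem eq_one_of_pow_eq_one (hp : p ≠ 2) (c : ℤ_[p]) (t : ℕ) (h : c ^ p ^ t = 1) : c = 1 := by
  have hpp : p.Prime := Fact.out
  have base : ∀ c : ℤ_[p], c ^ p = 1 → c = 1 := by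
    intro c hc
    by_contra hne
    have h1 : PadicInt.toZMod c = 1 := by
      have h2 := congrArg (PadicInt.toZMod (p := p)) hc
      rw [map_pow, map_one, ZMod.pow_card] at h2
      exact h2
    have h2 : (p : ℤ_[p]) ∣ c - 1 := by
      rw [← Ideal.mem_span_singleton, ← PadicInt.maximalIdeal_eq_span_p, ← PadicInt.ker_toZMod,
        RingHom.mem_ker, map_sub, map_one, h1, sub_self]
    obtain ⟨b, hb⟩ := h2
    have hc2 : c = 1 + p * b := by rw [← hb]; ring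
    have h3 : ∑ i ∈ Finset.range p, c ^ i = 0 := by
      have h4 := geom_sum_mul c p
      rw [hc, sub_self] at h4
      exact (mul_eq_zero.1 h4).resolve_right (sub_ne_zero.2 hne)
    have h4 := odd_sq_dvd_geom_sum₂_sub (a := (1 : ℤ_[p])) (b := b) (hpp.odd_of_ne_two hp)
    simp only [one_pow, mul_one] at h4
    rw [← hc2, h3, zero_sub, dvd_neg] at h4
    have h5 : (p : ℤ_[p]) ≠ 0 := by exact_mod_cast hpp.ne_zero
    have h6 : (p : ℤ_[p]) ∣ 1 := by
      rw [pow_two] at h4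
      have h7 : (p : ℤ_[p]) * p ∣ p * 1 := by rwa [mul_one]
      exact (mul_dvd_mul_iff_left h5).1 h7
    exact PadicInt.prime_p.not_isUnit (isUnit_of_dvd_one h6)
  induction t generalizing c with
  | zero => simpa using h
  | succ t ih =>
    apply base
    apply ih
    rw [← pow_mul, ← pow_succ']
    exact h

end D687
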