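import Pool.Agent.Lib_MP_d687bf.S9A
import Pool.Agent.Lib_MP_d687bf.S9B
import Pool.Agent.Lib_MP_d687bf.S6Mix

/-!
MP_d687bf, S9C: (9.2), one good character `l` with `l u = 0`.

Let `α ∈ Z_R(V, ℤ_p[[T]]_l)` (`scal (chrZ l)`, `IsX.isChar_chrZ`, `IsChar.isActR`), `l v = 0`, `v ∈ V`.
* `α (v^n) = n α(v)` (`Z1_pow`, `chrZ l (v^i) = tpowZ (i l v) = 1`).
* `α (s v s⁻¹) = t^(l s) α(v)` for `s ∈ V` (`Z1_conj`, `chrZ l (s v s⁻¹) = 1`).
* `isX_functional`: if `c : ℤ_p[[T]] → ℤ_p` is continuous, additive and kills the multiples of `ω_m`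
  then `c ∘ α ∈ X(V^{(m)})`: `α (g h) = α g + t^(l g) α h` and `ω_m ∣ t^(l g) - 1` for
  `g ∈ V^{(m)}` (`wm_dvd_tpowZ`); `α = 0` on `R` (`ZR_iff`).
* `wm_dvd_of_cen`: with the functionals `c_i` of `exists_functionals`: `c_i (α (s v s⁻¹)) = c_i (α v)`.
* `exists_level_good`: `Good` gives `n` with `X^n` killing; lift by `lemmaL` for `φ = redP`
  (`continuous_redP`, `redP_surjective`, `w = p`, `redP_eq_zero_iff`, `τ = X ^ n`, `redP_chrZ`): a
  cocycle `α'` over `ℤ_p[[T]]` with `redP (α' u) = X^(n q) α(u) ≠ 0`; `α' (u^(p^m)) = p^m α'(u)`; apply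
  `wm_dvd_of_cen` with `v = u^(p^m)` and `pow_dvd_of_wm_dvd` with `f = α' u`, `k = m`.
-/

set_option autoImplicit false

open Set Filter Topology

namespace D687

variable {p : ℕ} [Fact p.Prime] {D : Datum p} {V : Subgroup (FF p)} {l : FF p → ℤ_[p]}
  {α : FF p → ZT p} {u v s : FF p}

private theorem S9C_act (hl : IsX D V l) : IsActR D V (scal (chrZ l)) := hl.isChar_chrZ.isActR

private theorem S9C_chr {x : FF p} (h : l x = 0) : chrZ l x = 1 := by
  unfold chrZ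
  rw [h, tpowZ_zero]

theorem ZRZ_pow (hl : IsX D V l) (hα : α ∈ ZR D V (scal (chrZ l))) (hv : v ∈ V) (h0 : l v = 0)
    (n : ℕ) : α (v ^ n) = (n : ZT p) * α v := by
  have hact := S9C_act hl
  rw [Z1_pow hact.toIsAct hα.1 hv n]
  have h1 : ∀ i ∈ Finset.range n, scal (chrZ l) (v ^ i) (α v) = α v := by
    intro i _
    have h2 : chrZ l (v ^ i) = 1 := S9C_chr (by rw [hl.pow_eq hv, h0, mul_zero])
    change chrZ l (v ^ i) • α v = α v
    rw [h2, one_smul]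
  rw [Finset.sum_congr rfl h1, Finset.sum_const, Finset.card_range, nsmul_eq_mul]

theorem ZRZ_conj (hl : IsX D V l) (hα : α ∈ ZR D V (scal (chrZ l))) (hs : s ∈ V) (hv : v ∈ V)
    (h0 : l v = 0) : α (s * v * s⁻¹) = tpowZ (l s) * α v := by
  have hact := S9C_act hl
  rw [Z1_conj hact.toIsAct hα.1 hs hv]
  have hlc : l (s * v * s⁻¹) = 0 := by
    rw [hl.add _ (V.mul_mem hs hv) _ (V.inv_mem hs), hl.add _ hs _ hv, hl.inv_eq hs, h0]
    ring
  have h2 : chrZ l (s * v * s⁻¹) = 1 := S9C_chr hlc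
  change α s + chrZ l s • α v - chrZ l (s * v * s⁻¹) • α s = tpowZ (l s) * α v
  rw [h2, one_smul, smul_eq_mul]
  unfold chrZ
  ring

theorem isX_functional (hR : D.R ≤ V) (hl : IsX D V l) (hα : α ∈ ZR D V (scal (chrZ l)))
    (m : ℕ) (c : ZT p → ℤ_[p]) (hc : Continuous c) (hadd : ∀ f g, c (f + g) = c f + c g)
    (hker : ∀ f, wm m ∣ f → c f = 0) : IsX D (lev D V m) fun x => c (α x) := by
  have hact := S9C_act hl
  have hT : T2Space (ZT p) := (proPRing_ZT (p := p)).toT2Space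
  have hZ : IsZ V (fun g => scal (chrZ l) g) α := hα.1
  have hle : lev D V m ≤ V := fun x hx => hx.1
  have h0 : c 0 = 0 := by
    have h := hadd 0 0
    rw [add_zero] at h
    exact left_eq_add.mp h
  refine ⟨(hc.comp hZ.cont).continuousOn, fun g hg h hh => ?_, fun x hx => ?_⟩
  · have h1 : α (g * h) = α g + tpowZ (l g) * α h := hZ.mul g (hle hg) h (hle hh)
    have h2 : α (g * h) = α g + (α h + (tpowZ (l g) - 1) * α h) := by
      rw [h1]
      ring
    rw [h2, hadd, hadd, hker ((tpowZ (l g) - 1) * α h)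
      ((wm_dvd_tpowZ m (l g) (hg.2 l hl)).mul_right _), add_zero]
  · rw [((ZR_iff hR hact).mp hα).2 x hx, h0]

theorem wm_dvd_of_cen (hR : D.R ≤ V) (hl : IsX D V l) (hα : α ∈ ZR D V (scal (chrZ l)))
    (m : ℕ) (hs : s ∈ V) (hv : v ∈ lev D V m) (h0 : l v = 0) (hc : Cen D (lev D V m) v s) :
    wm m ∣ (tpowZ (l s) - 1) * α v := by
  obtain ⟨c, hcc, hca, hcw⟩ := exists_functionals (p := p) m
  have h1 : wm m ∣ α (s * v * s⁻¹) - α v := by
    rw [hcw]
    intro i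
    have h2 : c i (α (s * v * s⁻¹)) = c i (α v) :=
      hc _ (isX_functional hR hl hα m (c i) (hcc i) (hca i) fun f hf => (hcw f).mp hf i)
    have h3 := hca i (α (s * v * s⁻¹) - α v) (α v)
    rw [sub_add_cancel, h2] at h3
    exact right_eq_add.mp h3
  rw [ZRZ_conj hl hα hs hv.1 h0] at h1
  have h2 : (tpowZ (l s) - 1) * α v = tpowZ (l s) * α v - α v := by ring
  rw [h2]
  exact h1

theorem exists_level_good (hadm : Adm D V) (hl : IsX D V l) (hg : Good D V l) (hu : u ∈ V)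
    (h0 : l u = 0) (hpass : PassV D V u l) :
    ∃ m0 : ℕ, ∀ m ≥ m0, ∀ s ∈ V, Cen D (lev D V m) (u ^ p ^ m) s → (p : ℤ_[p]) ^ m ∣ l s := by
  obtain ⟨n, hn, -⟩ := hg
  obtain ⟨α, hα, hαu⟩ := hpass
  have hχ : (fun g => redP (chrZ l g)) = chr l := redP_chrZ l
  have hX : redP ((PowerSeries.X : ZT p) ^ n) = (PowerSeries.X : K1 p) ^ n := by
    unfold redP
    rw [map_pow, PowerSeries.map_X]
  have hdom : IsDomain (ZT p) := inferInstanceAs (IsDomain (PowerSeries ℤ_[p]))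
  obtain ⟨q, f, -, -, hq⟩ := lemmaL (φ := (redP : ZT p →+* K1 p)) continuous_redP
    redP_surjective hadm hl.isChar_chrZ (w := (p : ZT p))
    (mem_nonZeroDivisors_of_ne_zero natCast_p_ne_zero) redP_eq_zero_iff
    (τ := (PowerSeries.X : ZT p) ^ n) (by rw [hχ, hX]; exact hn)
  obtain ⟨α', hα', hαα⟩ := hq α (by rw [hχ]; exact hα)
  have hf : redP (α' u) ≠ 0 := by
    rw [hαα, hX]
    exact mul_ne_zero (pow_ne_zero _ (pow_ne_zero _ PowerSeries.X_ne_zero)) hαu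
  obtain ⟨m0, hm0⟩ := pow_dvd_of_wm_dvd (α' u) hf
  refine ⟨m0, fun m hm s hs hc => hm0 m hm m (l s) ?_⟩
  have h1 : l (u ^ p ^ m) = 0 := by rw [hl.pow_eq hu, h0, mul_zero]
  have h2 := wm_dvd_of_cen hadm.hR hl hα' m hs (pow_mem_lev hu m) h1 hc
  rw [ZRZ_pow hl hα' hu h0] at h2
  push_cast at h2
  exact h2

end D687
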