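import Pool.Agent.Lib_MP_d687bf.S9C

/-!
MP_d687bf, S9D: (9.2).

`exists_span_zero`: the reductions `redl V μ` of the `μ ∈ X(V)` with `μ u = 0` form a subspace of
the finite space `H(V)` (`finite_HH`, `redl_mem_HH`); choose finitely many `μ_i` whose reductions span
it. If `l ∈ X(V)`, `l u = 0`, then `redl V l = ∑ c̄_i redl V μ_i`, lift the `c̄_i` to `c_i : ℤ_p`, and
divide `l - ∑ c_i μ_i` by `p` (`exists_div`).

`dvd_of_span`: by induction on `k ≤ m`: `p^k ∣ l s` for all `l ∈ X(V)` with `l u = 0`.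

`exists_level_comm` = (9.2): `γ₀` := the character of `S.nz` for `v = u` (`exists_HH_ne_zero`):
`γ₀ ∈ X(V)` good, `γ₀ u = 0`, test `PassV` at `u` passed. For each `i` choose `E_i` with
`γ_i = μ_i + p^(E_i) γ₀` good and passing the test at `u` (`good_mix`, `val_mix`), `γ_i u = 0`.
By `exists_level_good` for `γ₀` and the `γ_i`, for all large `m`: `p^m ∣ γ₀ s`, `p^m ∣ γ_i s`, so
`p^m ∣ μ_i s`, so `p^m ∣ μ s` for all `μ ∈ X(V)` with `μ u = 0`. Let `λ₁ ∈ X(V)`, `λ₁ u = 1`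
(`IsX.exists_eq_one`) and `c : ℤ`, `c ≡ λ₁ s` mod `p^m` (`PadicInt.appr_spec`). For `λ ∈ X(V)`:
`μ = λ - λ(u) λ₁`, `λ (s u^(-c)) = μ(s) + λ(u) (λ₁(s) - c)` is divisible by `p^m`.
-/

set_option autoImplicit false

open Set Filter Topology

namespace D687

variable {p : ℕ} [Fact p.Prime] {D : Datum p} {V : Subgroup (FF p)} {u : FF p}

private theorem S9D_redl_mem {x : FF p} (hx : x ∈ V) (l : FF p → ℤ_[p]) :
    redl V l x = PadicInt.toZMod (l x) :=
  Set.indicator_of_mem (show x ∈ (V : Set (FF p)) from hx) _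

private theorem S9D_redl_notMem {x : FF p} (hx : x ∉ V) (l : FF p → ℤ_[p]) :
    redl V l x = 0 :=
  Set.indicator_of_notMem (show x ∉ (V : Set (FF p)) from hx) _

private theorem S9D_surj (c : ZMod p) : ∃ z : ℤ_[p], PadicInt.toZMod z = c := by
  have : NeZero p := ⟨(Fact.out : p.Prime).ne_zero⟩
  exact ⟨((c.val : ℕ) : ℤ_[p]), by rw [map_natCast, ZMod.natCast_zmod_val]⟩

/-- the reductions of the `μ ∈ X(V)` with `μ u = 0` -/
private def S9D_W (D : Datum p) (V : Subgroup (FF p)) (u : FF p) :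
    Submodule (ZMod p) (FF p → ZMod p) where
  carrier := {a | ∃ μ, IsX D V μ ∧ μ u = 0 ∧ a = redl V μ}
  add_mem' := by
    rintro a b ⟨μ, hμ, hμ0, rfl⟩ ⟨ν, hν, hν0, rfl⟩
    refine ⟨μ + ν, hμ.map_add' hν, by rw [Pi.add_apply, hμ0, hν0, add_zero], ?_⟩
    funext x
    by_cases hx : x ∈ V
    · rw [Pi.add_apply, S9D_redl_mem hx, S9D_redl_mem hx, S9D_redl_mem hx, Pi.add_apply, map_add]
    · rw [Pi.add_apply, S9D_redl_notMem hx, S9D_redl_notMem hx, S9D_redl_notMem hx, add_zero]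
  zero_mem' := by
    refine ⟨0, IsX.zero, rfl, ?_⟩
    funext x
    by_cases hx : x ∈ V
    · rw [S9D_redl_mem hx, Pi.zero_apply, Pi.zero_apply, map_zero]
    · rw [S9D_redl_notMem hx, Pi.zero_apply]
  smul_mem' := by
    rintro c a ⟨μ, hμ, hμ0, rfl⟩
    obtain ⟨z, hz⟩ := S9D_surj c
    refine ⟨z • μ, hμ.smul z, by rw [Pi.smul_apply, hμ0, smul_zero], ?_⟩
    funext x
    by_cases hx : x ∈ V
    · rw [Pi.smul_apply, S9D_redl_mem hx, S9D_redl_mem hx, Pi.smul_apply, smul_eq_mul,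
        smul_eq_mul, map_mul, hz]
    · rw [Pi.smul_apply, S9D_redl_notMem hx, S9D_redl_notMem hx, smul_zero]

theorem exists_span_zero (hV : IsOpen (V : Set (FF p))) (hR : D.R ≤ V) (hu : u ∈ V) :
    ∃ (n : ℕ) (μ : Fin n → FF p → ℤ_[p]), (∀ i, IsX D V (μ i) ∧ μ i u = 0) ∧
      ∀ l, IsX D V l → l u = 0 → ∃ (c : Fin n → ℤ_[p]) (l' : FF p → ℤ_[p]), IsX D V l' ∧
        l' u = 0 ∧ ∀ x ∈ V, l x = ∑ i, c i * μ i x + p * l' x := by
  classical
  have hp0 : (p : ℤ_[p]) ≠ 0 := Nat.cast_ne_zero.2 (Fact.out : p.Prime).ne_zero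
  have hfin := finite_HH D V hV
  have hle : S9D_W D V u ≤ HH D V := by
    rintro a ⟨μ, hμ, -, rfl⟩
    exact redl_mem_HH hV hR hμ
  have hW : Module.Finite (ZMod p) (S9D_W D V u) :=
    Module.Finite.of_injective (Submodule.inclusion hle) (Submodule.inclusion_injective _)
  have hfg : (S9D_W D V u).FG := Module.Finite.iff_fg.1 hW
  obtain ⟨n, s, hs⟩ := Submodule.fg_iff_exists_fin_generating_family.1 hfg
  have hsm : ∀ i, ∃ μ, IsX D V μ ∧ μ u = 0 ∧ s i = redl V μ := by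
    intro i
    have h1 : s i ∈ S9D_W D V u := by
      rw [← hs]
      exact Submodule.subset_span ⟨i, rfl⟩
    exact h1
  choose μ hμ1 hμ2 hμ3 using hsm
  refine ⟨n, μ, fun i => ⟨hμ1 i, hμ2 i⟩, fun l hl hl0 => ?_⟩
  have h1 : redl V l ∈ S9D_W D V u := ⟨l, hl, hl0, rfl⟩
  rw [← hs, Submodule.mem_span_range_iff_exists_fun] at h1
  obtain ⟨c, hc⟩ := h1
  choose z hz using fun i => S9D_surj (c i)
  have hX : IsX D V (l + -(∑ i, z i • μ i)) :=
    hl.map_add' (IsX.sum Finset.univ (fun i => z i • μ i) fun i _ => (hμ1 i).smul (z i)).neg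
  have hval : ∀ x, (l + -(∑ i, z i • μ i)) x = l x - ∑ i, z i * μ i x := by
    intro x
    rw [Pi.add_apply, Pi.neg_apply, Finset.sum_apply, sub_eq_add_neg]
    rfl
  have h0 : redl V (l + -(∑ i, z i • μ i)) = 0 := by
    funext x
    by_cases hx : x ∈ V
    · have h2 := congrFun hc x
      rw [S9D_redl_mem hx, Finset.sum_apply] at h2
      rw [S9D_redl_mem hx, hval, map_sub, map_sum, ← h2, Pi.zero_apply, sub_eq_zero]
      refine Finset.sum_congr rfl fun i _ => ?_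
      rw [Pi.smul_apply, hμ3 i, S9D_redl_mem hx, smul_eq_mul, map_mul, hz]
    · rw [S9D_redl_notMem hx, Pi.zero_apply]
  obtain ⟨l', hl', hll'⟩ := exists_div hX h0
  refine ⟨z, l', hl', ?_, fun x hx => ?_⟩
  · have h3 := hll' u hu
    rw [hval, hl0, zero_sub] at h3
    have h4 : ∑ i, z i * μ i u = 0 := Finset.sum_eq_zero fun i _ => by rw [hμ2 i, mul_zero]
    rw [h4, neg_zero] at h3
    exact (mul_eq_zero.1 h3.symm).resolve_left hp0
  · have h3 := hll' x hx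
    rw [hval] at h3
    linear_combination h3

theorem dvd_of_span {n : ℕ} {μ : Fin n → FF p → ℤ_[p]}
    (hspan : ∀ l, IsX D V l → l u = 0 → ∃ (c : Fin n → ℤ_[p]) (l' : FF p → ℤ_[p]), IsX D V l' ∧
      l' u = 0 ∧ ∀ x ∈ V, l x = ∑ i, c i * μ i x + p * l' x) {m : ℕ} {s : FF p} (hs : s ∈ V)
    (h : ∀ i, (p : ℤ_[p]) ^ m ∣ μ i s) (l : FF p → ℤ_[p]) (hl : IsX D V l) (h0 : l u = 0) :
    (p : ℤ_[p]) ^ m ∣ l s := by
  have key : ∀ k, k ≤ m → ∀ l, IsX D V l → l u = 0 → (p : ℤ_[p]) ^ k ∣ l s := by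
    intro k
    induction k with
    | zero => intro _ l _ _; rw [pow_zero]; exact one_dvd _
    | succ k ih =>
      intro hk l hl h0
      obtain ⟨c, l', hl', hl'0, he⟩ := hspan l hl h0
      rw [he s hs]
      refine dvd_add (Finset.dvd_sum fun i _ => ?_) ?_
      · exact Dvd.dvd.mul_left ((pow_dvd_pow _ hk).trans (h i)) _
      · rw [pow_succ']
        exact mul_dvd_mul_left _ (ih (Nat.le_of_succ_le hk) l' hl' hl'0)
  exact key m le_rfl l hl h0

/-- (9.2) -/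
theorem exists_level_comm (S : Sys D) (hV : IsOpen (V : Set (FF p))) (hR : D.R ≤ V)
    (hle : V ≤ S.V1) (hu : u ∈ V) (hunit : ∃ l, IsX D V l ∧ IsUnit (l u)) :
    ∃ m0 : ℕ, ∀ m ≥ m0, ∀ s ∈ V, Cen D (lev D V m) (u ^ p ^ m) s →
      ∃ j : ℤ, s * u ^ j ∈ lev D V m := by
  classical
  obtain ⟨l0, hl0, hl0u⟩ := hunit
  have hadm : Adm D V := S.adm.mono hV hR hle
  obtain ⟨g, hgX1, -, hgu, hgood, hgpass, -⟩ := S.nz V hV hR hle u hu
    (exists_HH_ne_zero hV hR hu hl0 hl0u)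
  have hgX : IsX D V g := hgX1.mono hle
  obtain ⟨n, μ, hμ, hspan⟩ := exists_span_zero (D := D) hV hR hu
  have hE : ∀ i, ∃ E : ℕ, Good D V (μ i + ((p : ℤ_[p]) ^ E) • g) ∧
      PassV D V u (μ i + ((p : ℤ_[p]) ^ E) • g) := by
    intro i
    obtain ⟨E0, h1⟩ := good_mix hadm (hμ i).1 hgX hgood
    obtain ⟨E1, h2⟩ := val_mix hadm (hμ i).1 hgX hgood hgpass
    exact ⟨max E0 E1, (h1 _ (le_max_left _ _)).1, (h2 _ (le_max_right _ _)).1⟩
  choose E hE1 hE2 using hE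
  have hγX : ∀ i, IsX D V (μ i + ((p : ℤ_[p]) ^ E i) • g) := fun i =>
    (hμ i).1.map_add' (hgX.smul _)
  have hγu : ∀ i, (μ i + ((p : ℤ_[p]) ^ E i) • g) u = 0 := by
    intro i
    rw [Pi.add_apply, Pi.smul_apply, (hμ i).2, hgu, smul_zero, add_zero]
  obtain ⟨M0, hM0⟩ := exists_level_good hadm hgX hgood hu hgu hgpass
  choose M hM using fun i => exists_level_good hadm (hγX i) (hE1 i) hu (hγu i) (hE2 i)
  obtain ⟨l1, hl1, hl1u⟩ := IsX.exists_eq_one hl0 hl0u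
  refine ⟨max M0 (Finset.univ.sup M), fun m hm s hs hcen => ?_⟩
  have h1 : (p : ℤ_[p]) ^ m ∣ g s := hM0 m ((le_max_left _ _).trans hm) s hs hcen
  have h2 : ∀ i, (p : ℤ_[p]) ^ m ∣ μ i s := by
    intro i
    have h3 := hM i m (((Finset.le_sup (Finset.mem_univ i)).trans (le_max_right _ _)).trans hm)
      s hs hcen
    rw [Pi.add_apply, Pi.smul_apply, smul_eq_mul] at h3
    exact (dvd_add_left (Dvd.dvd.mul_left h1 _)).1 h3
  have h4 := dvd_of_span hspan hs h2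
  obtain ⟨c, hc⟩ : ∃ c : ℤ, (p : ℤ_[p]) ^ m ∣ l1 s - (c : ℤ_[p]) := by
    refine ⟨((l1 s).appr m : ℤ), ?_⟩
    have h5 := PadicInt.appr_spec m (l1 s)
    rw [Ideal.mem_span_singleton] at h5
    rw [Int.cast_natCast]
    exact h5
  refine ⟨-c, V.mul_mem hs (V.zpow_mem hu _), fun l hl => ?_⟩
  have hX : IsX D V (l + (-(l u)) • l1) := hl.map_add' (hl1.smul _)
  have h6 : (l + (-(l u)) • l1) u = 0 := by
    rw [Pi.add_apply, Pi.smul_apply, hl1u, smul_eq_mul, mul_one, add_neg_cancel]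
  have h7 := h4 _ hX h6
  rw [Pi.add_apply, Pi.smul_apply, smul_eq_mul] at h7
  rw [hl.add s hs _ (V.zpow_mem hu _), hl.zpow_eq hu]
  have h8 : l s + ((-c : ℤ) : ℤ_[p]) * l u =
      (l s + -(l u) * l1 s) + l u * (l1 s - (c : ℤ_[p])) := by
    push_cast
    ring
  rw [h8]
  exact dvd_add h7 (Dvd.dvd.mul_left hc _)

end D687
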