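import Pool.Agent.Lib_MP_d687bf.Defs2

/-!
MP_d687bf, definitions for sections 9, 10, 11.
-/

set_option autoImplicit false

open Set Filter Topology

namespace D687

noncomputable section

variable {p : ℕ}

/-- `w` has infinite order mod `R` and is not a `p`-th power mod `R`. -/
structure Prm (D : Datum p) (w : FF p) : Prop where
  inf : ∀ n : ℕ, 0 < n → w ^ n ∉ D.R
  npow : ∀ g : FF p, w * (g ^ p)⁻¹ ∉ D.R

/-- The order of `w` mod `V` is `p ^ a`. -/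
def IsOrd (V : Subgroup (FF p)) (w : FF p) (a : ℕ) : Prop :=
  ∀ j : ℤ, w ^ j ∈ V ↔ ((p ^ a : ℕ) : ℤ) ∣ j

/-- `gg j`, `j : Fin n`, are representatives of `V \ FF / ⟨w⟩`. -/
structure IsRepW (V : Subgroup (FF p)) (w : FF p) {n : ℕ} (gg : Fin n → FF p) : Prop where
  ex : ∀ g : FF p, ∃ l, ∃ v ∈ V, ∃ j : ℤ, g = v * gg l * w ^ j
  inj : ∀ l l' : Fin n, (∃ v ∈ V, ∃ j : ℤ, gg l' = v * gg l * w ^ j) → l = l'

variable [Fact p.Prime]

/-- `s` centralises `u` modulo the elements killed by `X(V)`. -/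
def Cen (D : Datum p) (V : Subgroup (FF p)) (u s : FF p) : Prop :=
  ∀ l : FF p → ℤ_[p], IsX D V l → l (s * u * s⁻¹) = l u

/-- The sequence of the proof of (9.3). -/
structure IsWSeq (D : Datum p) (w : FF p) (W : ℕ → Subgroup (FF p)) (a : ℕ → ℕ) : Prop where
  isOpen : ∀ i, IsOpen (W i : Set (FF p))
  normal : ∀ i, (W i).Normal
  hR : ∀ i, D.R ≤ W i
  anti : Antitone W
  inter : ∀ x, (∀ i, x ∈ W i) → x ∈ D.R
  ord : ∀ i, IsOrd (W i) w (a i)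
  mono : Monotone a
  unit : ∀ i, ∃ l, IsX D (W i) l ∧ IsUnit (l (w ^ p ^ a i))
  comm : ∀ i, ∀ s ∈ W i, Cen D (W (i + 1)) (w ^ p ^ a (i + 1)) s →
    ∃ j : ℤ, s * w ^ j ∈ W (i + 1)

/-- `x` is in the closure of `⟨w⟩ R`. -/
def InC (W : ℕ → Subgroup (FF p)) (w x : FF p) : Prop := ∀ i, ∃ j : ℤ, x * w ^ j ∈ W i

/-- The subgroup `V` of (9.3): `u = w ^ (p ^ a)` generates `⟨w⟩ ∩ V`. -/
structure Is93 (D : Datum p) (w : FF p) (V : Subgroup (FF p)) (a : ℕ) : Prop where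
  normal : V.Normal
  isOpen : IsOpen (V : Set (FF p))
  hR : D.R ≤ V
  ord : IsOrd V w a
  unit : ∃ l, IsX D V l ∧ IsUnit (l (w ^ p ^ a))
  sep : ∀ g : FF p, (∀ j : ℤ, g * w ^ j ∉ V) → ∃ l, IsX D V l ∧ l (w ^ p ^ a) = 0 ∧
    l (g * w ^ p ^ a * g⁻¹) ≠ 0

/-! ### Section 10 -/

/-- `(z, x)` is a relative class: `z (ev h) + ∑ x_j h (u_j) = 0` for all `h ∈ Hom(V, k)`. -/
def IsKK {D : Datum p} (V : Subgroup (FF p)) {n : ℕ} (u : Fin n → FF p) (z : Ch D)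
    (x : Fin n → ZMod p) : Prop :=
  ∀ h ∈ Hk V, pair z (ev D h) + ∑ j, x j * h (u j) = 0

/-- `(z, x)` is not zero (as a functional on `C_V(k) × k^n`). -/
def NonKK {D : Datum p} (V : Subgroup (FF p)) {n : ℕ} (z : Ch D) (x : Fin n → ZMod p) : Prop :=
  NonZ V z ∨ x ≠ 0

/-- The test (10.1): `κ⟨α, β⟩ = D (z (ev F) + ∑ x_j F(u_j)) + ∑ x_j (∏_{i ≠ j} D_i) α(u_j) β(u_j)`,
`D_j = χ(u_j) - 1`, `D = ∏ D_j`. -/
def tst {D : Datum p} {A : Type} [CommRing A] [Module (ZMod p) A] {n : ℕ} (u : Fin n → FF p)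
    (z : Ch D) (x : Fin n → ZMod p) (χ α β F : FF p → A) : A :=
  (∏ i, (χ (u i) - 1)) * (pair z (ev D F) + ∑ j, x j • F (u j)) +
    ∑ j, x j • ((∏ i ∈ Finset.univ.erase j, (χ (u i) - 1)) * (α (u j) * β (u j)))

/-- `λ` passes the test for `(z, x)`. -/
def Pass (D : Datum p) (V : Subgroup (FF p)) {n : ℕ} (u : Fin n → FF p) (z : Ch D)
    (x : Fin n → ZMod p) (l : FF p → ℤ_[p]) : Prop :=
  ∃ α ∈ ZR D V (scal (chr l)), ∃ β ∈ ZR D V (scal (chr (-l))), ∃ F : FF p → K1 p,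
    IsF V (chr (-l)) α β F ∧ tst u z x (chr l) α β F ≠ 0

/-- `λ` passes the test `α(v) ≠ 0`. -/
def PassV (D : Datum p) (V : Subgroup (FF p)) (v : FF p) (l : FF p → ℤ_[p]) : Prop :=
  ∃ α ∈ ZR D V (scal (chr l)), (α : FF p → K1 p) v ≠ 0

/-- A property of `λ` which is stable under mixing (6.4). -/
def MixSt (D : Datum p) (V : Subgroup (FF p)) (P : (FF p → ℤ_[p]) → Prop) : Prop :=
  ∀ l m : FF p → ℤ_[p], IsX D V l → Good D V l → IsX D V m → P l →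
    ∃ E0 : ℕ, ∀ E ≥ E0, P (m + ((p : ℤ_[p]) ^ E) • l) ∧ P (l + ((p : ℤ_[p]) ^ E) • m)

end

end D687
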