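import Pool.Agent.Lib_MP_d687bf.S9A

/-!
MP_d687bf, S9F: the relation `Cen D V u s` (`l (s u s⁻¹) = l u` for all `l ∈ X(V)`) and the sets
`S_i = {s | Cen D (W i) u_i s}`, `P_i = ⟨w⟩ W_i = {s | ∃ j, s w^j ∈ W_i}`, `u_i = w^(p^(a_i))`.

For normal `V` and `u ∈ V`, `l ∈ X(V)` implies `(x ↦ l (s x s⁻¹)) ∈ X(V)` (`IsX.conj`), which gives
`Cen.mul` and `Cen.inv`. `Cen.of_mem`: `l (s u s⁻¹) = l s + l u - l s`.
`cen_anti`: for `l ∈ X(W_i)`, `l` restricted to `W_{i+1}` is in `X(W_{i+1})` (`IsX.mono`); with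
`m = a_{i+1} - a_i`: `l (s u_i s⁻¹) * p^m = l (s u_{i+1} s⁻¹) = l u_{i+1} = p^m l u_i`.
`mem_of_cen`: `s w^j ∈ W_i` is also in `S_{i+1}` (`Cen.mul`, `cen_zpow`), apply `comm`.
-/

set_option autoImplicit false

open Set Filter Topology

namespace D687

variable {p : ℕ} [Fact p.Prime] {D : Datum p} {V : Subgroup (FF p)} {w u s s' : FF p}

theorem Cen.of_mem (hu : u ∈ V) (hs : s ∈ V) : Cen D V u s := by
  intro l hl
  rw [hl.add _ (V.mul_mem hs hu) _ (V.inv_mem hs), hl.add _ hs _ hu, hl.inv_eq hs]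
  ring

theorem Cen.mul (hn : V.Normal) (hu : u ∈ V) (h : Cen D V u s) (h' : Cen D V u s') :
    Cen D V u (s * s') := by
  intro l hl
  have h1 : s * s' * u * (s * s')⁻¹ = s * (s' * u * s'⁻¹) * s⁻¹ := by group
  have h2 := h' _ (hl.conj hn s)
  rw [h1]
  exact h2.trans (h l hl)

theorem Cen.inv (hn : V.Normal) (hu : u ∈ V) (h : Cen D V u s) : Cen D V u s⁻¹ := by
  intro l hl
  have h2 := h _ (hl.conj hn s⁻¹)
  have h1 : s⁻¹ * (s * u * s⁻¹) * s⁻¹⁻¹ = u := by group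
  change l (s⁻¹ * (s * u * s⁻¹) * s⁻¹⁻¹) = l (s⁻¹ * u * s⁻¹⁻¹) at h2
  rw [h1] at h2
  exact h2.symm

theorem Cen.pow (hn : V.Normal) (hu : u ∈ V) (h : Cen D V u s) (n : ℕ) :
    Cen D V u (s ^ n) := by
  induction n with
  | zero =>
    rw [pow_zero]
    exact Cen.of_mem hu V.one_mem
  | succ n ih =>
    rw [pow_succ]
    exact Cen.mul hn hu ih h

theorem cen_zpow (k : ℕ) (j : ℤ) : Cen D V (w ^ k) (w ^ j) := by
  intro l hl
  have h1 : w ^ j * w ^ k * (w ^ j)⁻¹ = w ^ k := by group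
  rw [h1]

omit [Fact p.Prime] in
private theorem S9F_isOpen {A : Set (FF p)} (hV : IsOpen (V : Set (FF p)))
    (h : ∀ x ∈ A, ∀ v ∈ V, x * v ∈ A) : IsOpen A := by
  rw [isOpen_iff_forall_mem_open]
  intro x hx
  refine ⟨(fun y => x⁻¹ * y) ⁻¹' (V : Set (FF p)), fun y hy => ?_,
    hV.preimage (continuous_const.mul continuous_id), ?_⟩
  · have h1 := h x hx _ hy
    rwa [mul_inv_cancel_left] at h1
  · change x⁻¹ * x ∈ V
    rw [inv_mul_cancel]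
    exact V.one_mem

omit [Fact p.Prime] in
private theorem S9F_isClosed {A : Set (FF p)} (hV : IsOpen (V : Set (FF p)))
    (h : ∀ x ∈ A, ∀ v ∈ V, x * v ∈ A) : IsClosed A := by
  rw [← isOpen_compl_iff]
  refine S9F_isOpen hV fun x hx v hv hxv => hx ?_
  have h1 := h _ hxv _ (V.inv_mem hv)
  rwa [mul_inv_cancel_right] at h1

/-- `{s | Cen D V u s}` is a union of cosets of `V`, so it is closed (and open). -/
theorem isClosed_cen (hn : V.Normal) (hV : IsOpen (V : Set (FF p))) (hu : u ∈ V) :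
    IsClosed {s | Cen D V u s} :=
  S9F_isClosed hV fun _ hx _ hv => Cen.mul hn hu hx (Cen.of_mem hu hv)

omit [Fact p.Prime] in
private theorem S9F_P (hn : V.Normal) (w : FF p) :
    ∀ x ∈ {s | ∃ j : ℤ, s * w ^ j ∈ V}, ∀ v ∈ V, x * v ∈ {s | ∃ j : ℤ, s * w ^ j ∈ V} := by
  rintro x ⟨j, hj⟩ v hv
  refine ⟨j, ?_⟩
  have h1 : x * v * w ^ j = x * w ^ j * (w ^ (-j) * v * (w ^ (-j))⁻¹) := by
    rw [zpow_neg]
    group
  rw [h1]
  exact V.mul_mem hj (hn.conj_mem v hv _)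

omit [Fact p.Prime] in
/-- `⟨w⟩ V` is open and closed. -/
theorem isClopen_P (hn : V.Normal) (hV : IsOpen (V : Set (FF p))) (w : FF p) :
    IsClopen {s | ∃ j : ℤ, s * w ^ j ∈ V} :=
  ⟨S9F_isClosed hV (S9F_P hn w), S9F_isOpen hV (S9F_P hn w)⟩

omit [Fact p.Prime] in
theorem P_mul (hn : V.Normal) (hs : ∃ j : ℤ, s * w ^ j ∈ V) (hs' : ∃ j : ℤ, s' * w ^ j ∈ V) :
    ∃ j : ℤ, s * s' * w ^ j ∈ V := by
  obtain ⟨j, hj⟩ := hs
  obtain ⟨j', hj'⟩ := hs'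
  refine ⟨j' + j, ?_⟩
  have h1 : s * s' * w ^ (j' + j) =
      s * w ^ j * (w ^ (-j) * (s' * w ^ j') * (w ^ (-j))⁻¹) := by
    rw [zpow_neg, zpow_add]
    group
  rw [h1]
  exact V.mul_mem hj (hn.conj_mem _ hj' _)

omit [Fact p.Prime] in
theorem P_inv (hn : V.Normal) (hs : ∃ j : ℤ, s * w ^ j ∈ V) : ∃ j : ℤ, s⁻¹ * w ^ j ∈ V := by
  obtain ⟨j, hj⟩ := hs
  refine ⟨-j, ?_⟩
  have h1 : s⁻¹ * w ^ (-j) = w ^ j * (s * w ^ j)⁻¹ * (w ^ j)⁻¹ := by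
    rw [zpow_neg]
    group
  rw [h1]
  exact hn.conj_mem _ (V.inv_mem hj) _

variable {W : ℕ → Subgroup (FF p)} {a : ℕ → ℕ}

theorem cen_anti (h : IsWSeq D w W a) (i : ℕ)
    (hs : Cen D (W (i + 1)) (w ^ p ^ a (i + 1)) s) : Cen D (W i) (w ^ p ^ a i) s := by
  intro l hl
  have hpp : p.Prime := Fact.out
  have hle : W (i + 1) ≤ W i := h.anti (Nat.le_succ i)
  have ha : a i ≤ a (i + 1) := h.mono (Nat.le_succ i)
  obtain ⟨m, hm⟩ := Nat.exists_eq_add_of_le ha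
  have h1 := hs l (hl.mono hle)
  have h2 : w ^ p ^ a (i + 1) = (w ^ p ^ a i) ^ p ^ m := by rw [hm, pow_add, pow_mul]
  have hx : w ^ p ^ a i ∈ W i := (h.ord i).pow_mem
  have hc : s * w ^ p ^ a i * s⁻¹ ∈ W i := (h.normal i).conj_mem _ hx s
  rw [h2, ← conj_pow, hl.pow_eq hc, hl.pow_eq hx] at h1
  have hp0 : ((p ^ m : ℕ) : ℤ_[p]) ≠ 0 := by
    exact_mod_cast pow_ne_zero _ hpp.ne_zero
  exact mul_left_cancel₀ hp0 h1

theorem mem_of_cen (h : IsWSeq D w W a) (i : ℕ) (hs : Cen D (W (i + 1)) (w ^ p ^ a (i + 1)) s)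
    (hP : ∃ j : ℤ, s * w ^ j ∈ W i) : ∃ j : ℤ, s * w ^ j ∈ W (i + 1) := by
  obtain ⟨j, hj⟩ := hP
  obtain ⟨j', hj'⟩ := h.comm i _ hj
    (Cen.mul (h.normal (i + 1)) (h.ord (i + 1)).pow_mem hs (cen_zpow _ j))
  refine ⟨j + j', ?_⟩
  rwa [zpow_add, ← mul_assoc]

/-- An element of all `S_i` which lies in `P_0` lies in all `P_i`. -/
theorem inC_of_cen (h : IsWSeq D w W a) (hs : ∀ i, Cen D (W i) (w ^ p ^ a i) s)
    (hP : ∃ j : ℤ, s * w ^ j ∈ W 0) : InC W w s := by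
  intro i
  induction i with
  | zero => exact hP
  | succ i ih => exact mem_of_cen h i (hs (i + 1)) ih

end D687
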