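import Pool.Agent.Lib_MP_d687bf.S9F

/-!
MP_d687bf, S9G: (9.3), if `S_i ≠ P_i` for all `i` then there is an element `s` of `Σ = ⋂ S_i`, not
in `C = ⋂ P_i`, with `s w s⁻¹ ∈ C` and `s^p ∈ C`.

`exists_bad`: the sets `K_i = S_i \ P_i` are compact (`isClosed_cen`, `isClopen_P`, `FF p` is
compact), non-empty, decreasing: if `s ∈ K_{i+1}` then `s ∈ S_i` (`cen_anti`), and `s ∈ P_i` would
give `s ∈ P_{i+1}` (`mem_of_cen`). So there is a common element
(`IsCompact.nonempty_iInter_of_sequence_nonempty_isCompact_isClosed`); it is not in `P_0`.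

`exists_normalising`: `Σ = {s | ∀ i, s ∈ S_i}` is a subgroup of `FF p` containing `w` (`cen_zpow`).
In the finite `p`-group `Q = FF / W_0` (`index_open`, `IsPGroup.of_card`) let `T` be the image of `Σ`
and `P = ⟨w̄⟩ < T` (proper because of `exists_bad`). The normaliser of `P` in `T` is bigger than `P`
(a proper subgroup of a finite `p`-group is not its own normaliser: `NormalizerCondition`,
`IsPGroup.isNilpotent`, `Group.normalizerCondition_of_isNilpotent`); take a `t ∈ N_T(P) \ P` and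
replace it by a power `t^(p^k)` such that `t ∉ P`, `t^p ∈ P`. Lift `t` to `s ∈ Σ`: `s ∉ P_0`,
`s w s⁻¹ ∈ P_0`, `s^p ∈ P_0`. Now `s w s⁻¹`, `s^p ∈ Σ` (`Cen.mul`, `Cen.inv`), so they are in `C` by
`inC_of_cen`.
-/

set_option autoImplicit false

open Set Filter Topology

namespace D687

variable {p : ℕ} [Fact p.Prime] {D : Datum p} {w : FF p} {W : ℕ → Subgroup (FF p)} {a : ℕ → ℕ}

theorem exists_bad (h : IsWSeq D w W a)
    (hbad : ∀ i, ∃ s, Cen D (W i) (w ^ p ^ a i) s ∧ ∀ j : ℤ, s * w ^ j ∉ W i) :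
    ∃ s, (∀ i, Cen D (W i) (w ^ p ^ a i) s) ∧ ∀ j : ℤ, s * w ^ j ∉ W 0 := by
  have hu : ∀ i, w ^ p ^ a i ∈ W i := fun i => (h.ord i).pow_mem
  have h1 := IsCompact.nonempty_iInter_of_sequence_nonempty_isCompact_isClosed
    (fun i => {s | Cen D (W i) (w ^ p ^ a i) s} ∩ {s | ∃ j : ℤ, s * w ^ j ∈ W i}ᶜ)
    (fun i s hs => ⟨cen_anti h i hs.1, fun hP => hs.2 (mem_of_cen h i hs.1 hP)⟩)
    (fun i => by
      obtain ⟨s, hs, hs'⟩ := hbad i
      exact ⟨s, hs, fun ⟨j, hj⟩ => hs' j hj⟩)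
    (((isClosed_cen (h.normal 0) (h.isOpen 0) (hu 0)).inter
      (isClopen_P (h.normal 0) (h.isOpen 0) w).isOpen.isClosed_compl).isCompact)
    (fun i => (isClosed_cen (h.normal i) (h.isOpen i) (hu i)).inter
      (isClopen_P (h.normal i) (h.isOpen i) w).isOpen.isClosed_compl)
  obtain ⟨s, hs⟩ := h1
  rw [Set.mem_iInter] at hs
  exact ⟨s, fun i => (hs i).1, fun j hj => (hs 0).2 ⟨j, hj⟩⟩

/-- The step in a finite `p`-group. -/
theorem exists_normalising_fin {Q : Type} [Group Q] [Finite Q] (hQ : IsPGroup p Q)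
    (T P : Subgroup Q) (hlt : P < T) :
    ∃ t ∈ T, t ∉ P ∧ t ^ p ∈ P ∧ ∀ x ∈ P, t * x * t⁻¹ ∈ P := by
  classical
  have hT : IsPGroup p T := hQ.to_subgroup T
  have hnil : Group.IsNilpotent T := hT.isNilpotent
  have hN : NormalizerCondition T := Group.normalizerCondition_of_isNilpotent
  have hlt' : P.subgroupOf T < ⊤ := by
    rw [lt_top_iff_ne_top, Ne, Subgroup.subgroupOf_eq_top]
    exact not_le_of_gt hlt
  obtain ⟨t0, ht0, ht0'⟩ := SetLike.exists_of_lt (hN _ hlt')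
  have hex : ∃ k : ℕ, t0 ^ p ^ k ∈ P.subgroupOf T := by
    obtain ⟨k, hk⟩ := hT t0
    exact ⟨k, by rw [hk]; exact Subgroup.one_mem _⟩
  have hk0 : Nat.find hex ≠ 0 := by
    intro h0
    have h1 := Nat.find_spec hex
    rw [h0, pow_zero, pow_one] at h1
    exact ht0' h1
  obtain ⟨k, hk⟩ : ∃ k, Nat.find hex = k + 1 := ⟨Nat.find hex - 1, by omega⟩
  have h1 : t0 ^ p ^ k ∉ P.subgroupOf T := Nat.find_min hex (by omega)
  have h2 : t0 ^ p ^ (k + 1) ∈ P.subgroupOf T := hk ▸ Nat.find_spec hex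
  have h3 := Subgroup.pow_mem _ ht0 (p ^ k)
  refine ⟨((t0 ^ p ^ k : T) : Q), (t0 ^ p ^ k : T).2, fun h => h1 h, ?_, fun x hx => ?_⟩
  · rw [pow_succ, pow_mul] at h2
    exact h2
  · have h4 := (Subgroup.mem_normalizer_iff.1 h3 ⟨x, hlt.le hx⟩).1 hx
    exact h4

theorem exists_normalising (h : IsWSeq D w W a)
    (hbad : ∀ i, ∃ s, Cen D (W i) (w ^ p ^ a i) s ∧ ∀ j : ℤ, s * w ^ j ∉ W i) :
    ∃ s, (∀ i, Cen D (W i) (w ^ p ^ a i) s) ∧ ¬ InC W w s ∧ InC W w (s * w * s⁻¹) ∧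
      InC W w (s ^ p) := by
  classical
  obtain ⟨s0, hs0, hs0'⟩ := exists_bad h hbad
  have hu : ∀ i, w ^ p ^ a i ∈ W i := fun i => (h.ord i).pow_mem
  let Sg : Subgroup (FF p) :=
    { carrier := {s | ∀ i, Cen D (W i) (w ^ p ^ a i) s}
      mul_mem' := fun hx hy i => Cen.mul (h.normal i) (hu i) (hx i) (hy i)
      one_mem' := fun i l _ => by simp
      inv_mem' := fun hx i => Cen.inv (h.normal i) (hu i) (hx i) }
  have hw : w ∈ Sg := fun i => by
    have h1 := cen_zpow (D := D) (V := W i) (w := w) (p ^ a i) 1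
    rwa [zpow_one] at h1
  have hn : (W 0).Normal := h.normal 0
  obtain ⟨n, hcard⟩ := index_open (W 0) (h.isOpen 0)
  have hcard' : Nat.card (FF p ⧸ W 0) = p ^ n := hcard
  have hfin : Finite (FF p ⧸ W 0) := by
    refine Nat.finite_of_card_ne_zero ?_
    rw [hcard']
    exact pow_ne_zero _ (Fact.out : p.Prime).ne_zero
  have hPG : IsPGroup p (FF p ⧸ W 0) := IsPGroup.of_card hcard'
  set T : Subgroup (FF p ⧸ W 0) := Sg.map (QuotientGroup.mk' (W 0)) with hT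
  set P : Subgroup (FF p ⧸ W 0) := Subgroup.zpowers (QuotientGroup.mk' (W 0) w) with hP
  have hPm : ∀ x : FF p, QuotientGroup.mk' (W 0) x ∈ P ↔ ∃ j : ℤ, x * w ^ j ∈ W 0 := by
    intro x
    rw [hP, Subgroup.mem_zpowers_iff]
    constructor
    · rintro ⟨j, hj⟩
      refine ⟨-j, ?_⟩
      rw [← QuotientGroup.ker_mk' (W 0), MonoidHom.mem_ker, map_mul, ← hj, map_zpow, ← zpow_add,
        add_neg_cancel, zpow_zero]
    · rintro ⟨j, hj⟩
      refine ⟨-j, ?_⟩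
      rw [← QuotientGroup.ker_mk' (W 0), MonoidHom.mem_ker, map_mul, map_zpow] at hj
      rw [zpow_neg]
      exact inv_eq_of_mul_eq_one_left hj
  have hPT : P < T := by
    refine lt_of_le_of_ne ?_ fun heq => ?_
    · rw [hP, Subgroup.zpowers_le]
      exact ⟨w, hw, rfl⟩
    · have h1 : QuotientGroup.mk' (W 0) s0 ∈ P := by
        rw [heq]
        exact ⟨s0, hs0, rfl⟩
      obtain ⟨j, hj⟩ := (hPm s0).1 h1
      exact hs0' j hj
  obtain ⟨t, ⟨s, hs, rfl⟩, ht1, ht2, ht3⟩ := exists_normalising_fin hPG T P hPT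
  refine ⟨s, hs, fun hC => ht1 ((hPm s).2 (hC 0)), ?_, ?_⟩
  · have h1 : s * w * s⁻¹ ∈ Sg := Sg.mul_mem (Sg.mul_mem hs hw) (Sg.inv_mem hs)
    refine inC_of_cen h h1 ((hPm _).1 ?_)
    rw [map_mul, map_mul, map_inv]
    exact ht3 _ (Subgroup.mem_zpowers _)
  · have h1 : s ^ p ∈ Sg := Sg.pow_mem hs p
    refine inC_of_cen h h1 ((hPm _).1 ?_)
    rw [map_pow]
    exact ht2

end D687
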