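import Pool.Agent.Lib_MP_d687bf.Rings

/-!
MP_d687bf, B2: the power series `t ^ z = (1 + T) ^ z`, `z ∈ ℤ_p`, over `ℤ_p` (`tpowZ`) and over
`k = ZMod p` (`tpow`). Mathlib: `PowerSeries.binomialSeries` (`RingTheory/PowerSeries/Binomial`),
`PadicInt.instBinomialRing`, `PadicInt.continuous_choose`.
Density of `ℕ` in `ℤ_p` (`PadicInt.denseRange_natCast`) and continuity reduce most identities to
natural exponents, where `t ^ n = (1 + X) ^ n` and, over `k`, `(1 + X) ^ (p ^ s) = 1 + X ^ (p ^ s)`.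
-/

set_option autoImplicit false

open Set Filter Topology

namespace D687

variable {p : ℕ} [Fact p.Prime]

theorem tpowZ_zero : tpowZ (0 : ℤ_[p]) = 1 := by
  exact PowerSeries.binomialSeries_zero

theorem tpowZ_add (x y : ℤ_[p]) : tpowZ (x + y) = tpowZ x * tpowZ y := by
  exact PowerSeries.binomialSeries_add x y

theorem tpowZ_nat (n : ℕ) : tpowZ (n : ℤ_[p]) = (1 + PowerSeries.X) ^ n := by
  exact PowerSeries.binomialSeries_nat n

theorem continuous_tpowZ : Continuous (tpowZ : ℤ_[p] → ZT p) := by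
  rw [continuous_iff_continuousAt]
  intro z
  unfold ContinuousAt
  rw [PowerSeries.WithPiTopology.tendsto_iff_coeff_tendsto]
  intro d
  have h1 : ∀ x : ℤ_[p], PowerSeries.coeff d (tpowZ x) = Ring.choose x d := by
    intro x
    unfold tpowZ
    rw [PowerSeries.binomialSeries_coeff]
    simp
  simp_rw [h1]
  exact (PadicInt.continuous_choose d).tendsto z

theorem redP_tpowZ (z : ℤ_[p]) : redP (tpowZ z) = tpow z := rfl

private theorem tpow_continuous_toZMod : Continuous (PadicInt.toZMod : ℤ_[p] → ZMod p) := by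
  have h0 : IsOpen {x : ℤ_[p] | PadicInt.toZMod x = 0} := by
    have h1 : {x : ℤ_[p] | PadicInt.toZMod x = 0} = Metric.ball (0 : ℤ_[p]) 1 := by
      ext x
      rw [Set.mem_ofPred_eq, ← RingHom.mem_ker, PadicInt.ker_toZMod,
        IsLocalRing.mem_maximalIdeal, mem_nonunits_iff, PadicInt.not_isUnit_iff,
        mem_ball_zero_iff]
    rw [h1]
    exact Metric.isOpen_ball
  refine continuous_discrete_rng.2 fun c => ?_
  rw [isOpen_iff_mem_nhds]
  intro x hx
  have h2 : (fun y : ℤ_[p] => y - x) ⁻¹' {x : ℤ_[p] | PadicInt.toZMod x = 0} ∈ 𝓝 x := by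
    refine (h0.preimage (by fun_prop)).mem_nhds ?_
    simp
  filter_upwards [h2] with y hy
  have h3 : PadicInt.toZMod (y - x) = 0 := hy
  rw [map_sub, sub_eq_zero] at h3
  rw [Set.mem_preimage, Set.mem_singleton_iff] at hx ⊢
  rw [h3, hx]

theorem continuous_redP : Continuous (redP : ZT p → K1 p) := by
  rw [continuous_iff_continuousAt]
  intro z
  unfold ContinuousAt
  rw [PowerSeries.WithPiTopology.tendsto_iff_coeff_tendsto]
  intro d
  have h1 : ∀ f : ZT p, PowerSeries.coeff d (redP f) = PadicInt.toZMod (PowerSeries.coeff d f) := by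
    intro f
    exact PowerSeries.coeff_map _ _ _
  simp_rw [h1]
  exact ((tpow_continuous_toZMod).comp
    (PowerSeries.WithPiTopology.continuous_coeff ℤ_[p] d)).tendsto z

theorem tpow_zero : tpow (0 : ℤ_[p]) = 1 := by
  rw [← redP_tpowZ, tpowZ_zero, map_one]

theorem tpow_add (x y : ℤ_[p]) : tpow (x + y) = tpow x * tpow y := by
  rw [← redP_tpowZ, tpowZ_add, map_mul]
  rfl

theorem tpow_mul_neg (x : ℤ_[p]) : tpow x * tpow (-x) = 1 := by
  rw [← tpow_add, add_neg_cancel, tpow_zero]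

theorem tpow_nat (n : ℕ) : tpow (n : ℤ_[p]) = (1 + PowerSeries.X) ^ n := by
  rw [← redP_tpowZ, tpowZ_nat]
  unfold redP
  simp

theorem constantCoeff_tpow (z : ℤ_[p]) : PowerSeries.constantCoeff (tpow z) = 1 := by
  unfold tpow tpowZ
  rw [← PowerSeries.coeff_zero_eq_constantCoeff_apply, PowerSeries.coeff_map,
    PowerSeries.coeff_zero_eq_constantCoeff_apply, PowerSeries.binomialSeries_constantCoeff,
    map_one]

theorem coeff_one_tpow (z : ℤ_[p]) : PowerSeries.coeff 1 (tpow z) = PadicInt.toZMod z := by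
  unfold tpow tpowZ
  rw [PowerSeries.coeff_map, PowerSeries.binomialSeries_coeff]
  simp

theorem continuous_tpow : Continuous (tpow : ℤ_[p] → K1 p) := by
  exact continuous_redP.comp continuous_tpowZ

theorem isUnit_tpow (z : ℤ_[p]) : IsUnit (tpow z) := by
  exact IsUnit.of_mul_eq_one _ (tpow_mul_neg z)

private theorem tpow_charP : CharP (K1 p) p :=
  charP_of_injective_ringHom (f := (PowerSeries.C : ZMod p →+* K1 p)) PowerSeries.C_injective p

private theorem tpow_pow_mul (s : ℕ) (y : ℤ_[p]) :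
    tpow ((p : ℤ_[p]) ^ s * y) = tpow y ^ (p ^ s) := by
  have h : ∀ n : ℕ, tpow ((n : ℤ_[p]) * y) = tpow y ^ n := by
    intro n
    induction n with
    | zero => simp [tpow_zero]
    | succ n ih => rw [Nat.cast_succ, add_mul, one_mul, tpow_add, ih, pow_succ]
  rw [← h (p ^ s)]
  push_cast
  rfl

private theorem tpow_sub_one_pow (s : ℕ) (y : ℤ_[p]) :
    tpow ((p : ℤ_[p]) ^ s * y) - 1 = (tpow y - 1) ^ (p ^ s) := by
  have : CharP (K1 p) p := tpow_charP
  rw [tpow_pow_mul, sub_pow_char_pow, one_pow]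

private theorem tpow_X_dvd (y : ℤ_[p]) : (PowerSeries.X : K1 p) ∣ tpow y - 1 := by
  rw [PowerSeries.X_dvd_iff, map_sub, constantCoeff_tpow, map_one, sub_self]

private theorem tpow_unit_part (y : ℤ_[p]) (hy : IsUnit y) :
    ∃ w : K1 p, IsUnit w ∧ tpow y - 1 = PowerSeries.X * w := by
  obtain ⟨w, hw⟩ := tpow_X_dvd y
  refine ⟨w, ?_, hw⟩
  rw [PowerSeries.isUnit_iff_constantCoeff]
  have h1 : PowerSeries.coeff 1 (tpow y - 1) = PowerSeries.constantCoeff w := by
    rw [hw, ← zero_add 1, PowerSeries.coeff_succ_X_mul,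
      PowerSeries.coeff_zero_eq_constantCoeff_apply]
  rw [← h1, map_sub, coeff_one_tpow]
  have h2 : PowerSeries.coeff 1 (1 : K1 p) = 0 := by
    rw [PowerSeries.coeff_one]
    simp
  rw [h2, sub_zero]
  exact hy.map PadicInt.toZMod

/-- `T ^ (p ^ s) ∣ t ^ z - 1` iff `p ^ s ∣ z`. -/
theorem dvd_tpow_sub_one (s : ℕ) (z : ℤ_[p]) :
    (PowerSeries.X : K1 p) ^ (p ^ s) ∣ tpow z - 1 ↔ (p : ℤ_[p]) ^ s ∣ z := by
  constructor
  · intro h
    by_contra hz
    have hz0 : z ≠ 0 := by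
      rintro rfl
      exact hz (dvd_zero _)
    obtain ⟨j, y, hy, rfl⟩ : ∃ (j : ℕ) (y : ℤ_[p]), IsUnit y ∧ z = (p : ℤ_[p]) ^ j * y :=
      ⟨z.valuation, PadicInt.unitCoeff hz0, Units.isUnit _, by
        rw [mul_comm]
        exact PadicInt.unitCoeff_spec hz0⟩
    have hj : j < s := by
      by_contra hcon
      exact hz ((pow_dvd_pow _ (not_lt.1 hcon)).mul_right _)
    obtain ⟨w, hw, h1⟩ := tpow_unit_part y hy
    rw [tpow_sub_one_pow, h1, mul_pow, (hw.pow _).dvd_mul_right] at h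
    rw [PowerSeries.X_pow_dvd_iff] at h
    have h2 := h (p ^ j) (Nat.pow_lt_pow_right (Fact.out : p.Prime).one_lt hj)
    rw [PowerSeries.coeff_X_pow, if_pos rfl] at h2
    exact one_ne_zero h2
  · rintro ⟨y, rfl⟩
    rw [tpow_sub_one_pow]
    exact pow_dvd_pow_of_dvd (tpow_X_dvd y) _

/-- For a unit `y`: `t ^ (p ^ s y) - 1 = T ^ (p ^ s) * unit`. -/
theorem tpow_sub_one_eq (s : ℕ) (y : ℤ_[p]) (hy : IsUnit y) :
    ∃ u : K1 p, IsUnit u ∧ tpow ((p : ℤ_[p]) ^ s * y) - 1 = PowerSeries.X ^ (p ^ s) * u := by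
  obtain ⟨w, hw, h⟩ := tpow_unit_part y hy
  refine ⟨w ^ (p ^ s), hw.pow _, ?_⟩
  rw [tpow_sub_one_pow, h, mul_pow]

theorem tpow_ne_one (z : ℤ_[p]) (hz : z ≠ 0) : tpow z ≠ 1 := by
  intro h
  obtain ⟨j, y, hy, rfl⟩ : ∃ (j : ℕ) (y : ℤ_[p]), IsUnit y ∧ z = (p : ℤ_[p]) ^ j * y :=
    ⟨z.valuation, PadicInt.unitCoeff hz, Units.isUnit _, by
      rw [mul_comm]
      exact PadicInt.unitCoeff_spec hz⟩
  obtain ⟨u, hu, h1⟩ := tpow_sub_one_eq j y hy
  rw [h, sub_self] at h1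
  exact mul_ne_zero (pow_ne_zero _ PowerSeries.X_ne_zero) hu.ne_zero h1.symm

theorem constantCoeff_tpowZ (z : ℤ_[p]) : PowerSeries.constantCoeff (tpowZ z) = 1 := by
  exact PowerSeries.binomialSeries_constantCoeff z

private theorem tpow_redP_wm (m : ℕ) :
    redP (wm m : ZT p) = PowerSeries.X ^ (p ^ m) := by
  have : CharP (K1 p) p := tpow_charP
  have h : redP (wm m : ZT p) = (1 + PowerSeries.X) ^ (p ^ m) - 1 := by
    unfold wm redP
    simp
  rw [h, add_pow_char_pow, one_pow, add_sub_cancel_left]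

private theorem tpow_wm_dvd (m : ℕ) (y : ℤ_[p]) :
    (wm m : ZT p) ∣ tpowZ ((p : ℤ_[p]) ^ m * y) - 1 := by
  have hcomp : CompactSpace (ZT p) := (proPRing_ZT (p := p)).toCompactSpace
  have hcl : IsClosed {f : ZT p | (wm m : ZT p) ∣ f} := by
    have h1 : {f : ZT p | (wm m : ZT p) ∣ f} = Set.range fun u : ZT p => wm m * u := by
      ext f
      constructor
      · rintro ⟨u, rfl⟩
        exact ⟨u, rfl⟩
      · rintro ⟨u, rfl⟩
        exact ⟨u, rfl⟩
    rw [h1]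
    exact (isCompact_range (continuous_const.mul continuous_id)).isClosed
  have hcl2 : IsClosed {y : ℤ_[p] | (wm m : ZT p) ∣ tpowZ ((p : ℤ_[p]) ^ m * y) - 1} :=
    hcl.preimage ((continuous_tpowZ.comp (continuous_const.mul continuous_id)).sub
      continuous_const)
  have hd : ∀ n : ℕ, (n : ℤ_[p]) ∈ {y : ℤ_[p] | (wm m : ZT p) ∣
      tpowZ ((p : ℤ_[p]) ^ m * y) - 1} := by
    intro n
    rw [Set.mem_ofPred_eq]
    have h2 : (p : ℤ_[p]) ^ m * (n : ℤ_[p]) = ((p ^ m * n : ℕ) : ℤ_[p]) := by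
      push_cast
      rfl
    rw [h2, tpowZ_nat, pow_mul]
    unfold wm
    exact sub_one_dvd_pow_sub_one _ n
  have h3 : closure (Set.range (Nat.cast : ℕ → ℤ_[p])) ⊆
      {y : ℤ_[p] | (wm m : ZT p) ∣ tpowZ ((p : ℤ_[p]) ^ m * y) - 1} :=
    closure_minimal (by rintro _ ⟨n, rfl⟩; exact hd n) hcl2
  exact h3 (PadicInt.denseRange_natCast y)

/-- `(1+T)^(p^j y) - 1 = ω_j * unit` in `ℤ_p[[T]]` for a unit `y`. -/
theorem tpowZ_sub_one_eq (j : ℕ) (y : ℤ_[p]) (hy : IsUnit y) :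
    ∃ u : ZT p, IsUnit u ∧ tpowZ ((p : ℤ_[p]) ^ j * y) - 1 = wm j * u := by
  obtain ⟨u, hu⟩ := tpow_wm_dvd j y
  refine ⟨u, ?_, hu⟩
  obtain ⟨w, hw, h1⟩ := tpow_sub_one_eq j y hy
  have h2 : PowerSeries.X ^ (p ^ j) * redP u = PowerSeries.X ^ (p ^ j) * w := by
    rw [← h1, ← tpow_redP_wm, ← map_mul, ← hu, map_sub, map_one]
    rfl
  have h3 : redP u = w := mul_left_cancel₀ (pow_ne_zero _ PowerSeries.X_ne_zero) h2
  rw [PowerSeries.isUnit_iff_constantCoeff]
  have h4 : IsUnit (PowerSeries.constantCoeff (redP u)) := by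
    rw [h3]
    exact hw.map _
  have h5 : PowerSeries.constantCoeff (redP u) = PadicInt.toZMod (PowerSeries.constantCoeff u) := by
    unfold redP
    rw [← PowerSeries.coeff_zero_eq_constantCoeff_apply, PowerSeries.coeff_map,
      PowerSeries.coeff_zero_eq_constantCoeff_apply]
  rw [h5] at h4
  by_contra hcon
  have h6 : PowerSeries.constantCoeff u ∈ RingHom.ker (PadicInt.toZMod : ℤ_[p] →+* ZMod p) := by
    rw [PadicInt.ker_toZMod, IsLocalRing.mem_maximalIdeal, mem_nonunits_iff]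
    exact hcon
  rw [RingHom.mem_ker] at h6
  rw [h6] at h4
  exact not_isUnit_zero h4

/-- `ω_m ∣ (1+T)^z - 1` if `p ^ m ∣ z`. -/
theorem wm_dvd_tpowZ (m : ℕ) (z : ℤ_[p]) (hz : (p : ℤ_[p]) ^ m ∣ z) : wm m ∣ tpowZ z - 1 := by
  obtain ⟨y, rfl⟩ := hz
  exact tpow_wm_dvd m y

/-- The reduction of `ω_m` is `T ^ (p ^ m)`. -/
theorem redP_wm (m : ℕ) : redP (wm m : ZT p) = PowerSeries.X ^ (p ^ m) := by
  exact tpow_redP_wm m

end D687
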