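import Pool.Agent.Lib_MP_d687bf.FFBasic

/-!
MP_d687bf, A2/A3: (1.1) open subgroups of `FF p` are free pro-`p` groups of finite rank.

Proof. `V_F := (io p)⁻¹(V)` has finite index in the free group `F`, so it is free
(`subgroupIsFreeOfIsFree`, Nielsen-Schreier) and finitely generated, so its basis is finite
(homs to `ZMod p` are determined on a finite generating set and arbitrary on a basis).
If `K` is a normal subgroup of `p`-power index of `V_F`, then `K` contains `N ∩ V_F` for a normal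
subgroup `N` of `F` of `p`-power index with `N ≤ V_F`: with `V_c` the normal core of `V` (index a
power of `p`), `K₁ = K ∩ V_c` is normal of `p`-power index in `V_c ∩ F`, and
`N = ⋂_g g K₁ g⁻¹` (finite intersection) has `p`-power index. The hom `V_F → V_F/K` extends to `V`:
`V → FF p → F/N` has image `V_F/N`. Uniqueness: `io (V_F)` is dense in `V`.
-/

set_option autoImplicit false

open Set Filter Topology

namespace D687

variable {p : ℕ} [Fact p.Prime]

/-- `b` is a free pro-`p` basis of `V`, finite target groups. -/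
def IsBasisFin (V : Subgroup (FF p)) {d : ℕ} (b : Fin d → FF p) : Prop :=
  (∀ i, b i ∈ V) ∧ ∀ (E : Type) [Group E] [Finite E], IsPGroup p E → ∀ f : Fin d → E,
    ∃ φ : FF p → E, (∀ g ∈ V, ∀ h ∈ V, φ (g * h) = φ g * φ h) ∧ (∀ i, φ (b i) = f i) ∧
      (∀ e : E, IsOpen (φ ⁻¹' {e} ∩ (V : Set (FF p)))) ∧
      ∀ φ' : FF p → E, (∀ g ∈ V, ∀ h ∈ V, φ' (g * h) = φ' g * φ' h) → (∀ i, φ' (b i) = f i) →
      (∀ e : E, IsOpen (φ' ⁻¹' {e} ∩ (V : Set (FF p)))) → ∀ x ∈ V, φ' x = φ x

/-- a free basis of a finitely generated group is finite -/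
private lemma Universal_finite_basis {G X : Type} [Group G] [hG : Group.FG G]
    (b : FreeGroupBasis X G) : Finite X := by
  by_contra hX
  rw [not_finite_iff_infinite] at hX
  obtain ⟨S, hS⟩ := Group.fg_def.1 hG
  have h1 : Finite (G →* Multiplicative (ZMod 2)) := by
    refine Finite.of_injective (β := S → Multiplicative (ZMod 2)) (fun f s => f s) ?_
    intro f g hfg
    have h2 : Set.EqOn f g (S : Set G) := fun s hs => congrFun hfg ⟨s, hs⟩
    exact MonoidHom.eq_of_eqOn_dense hS h2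
  have h3 : Finite (X → Multiplicative (ZMod 2)) := Finite.of_equiv _ b.lift.symm
  have : Nontrivial (Multiplicative (ZMod 2)) := inferInstanceAs (Nontrivial (ZMod 2))
  have h4 : Infinite (X → Multiplicative (ZMod 2)) := inferInstance
  exact not_finite (X → Multiplicative (ZMod 2))

/-- a normal subgroup of `p`-power index below the kernel of a hom from a subgroup to a finite
`p`-group -/
private lemma Universal_exists_N {W VF : Subgroup Fr} (hWn : W.Normal)
    (hW : ∃ n : ℕ, W.index = p ^ n) (hWV : W ≤ VF) {E : Type} [Group E] [Finite E]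
    (hE : IsPGroup p E) (φ : VF →* E) :
    ∃ N : NIdx p, ∀ w ∈ N.N, ∃ h : w ∈ VF, φ ⟨w, h⟩ = 1 := by
  obtain ⟨n, hn⟩ := hW
  obtain ⟨m, hm⟩ := hE.exists_card_eq
  have hp0 : p ≠ 0 := (Fact.out : p.Prime).ne_zero
  have hWf : W.FiniteIndex := ⟨by rw [hn]; exact pow_ne_zero _ hp0⟩
  -- the subgroup `K₁`
  set K1 : Subgroup Fr := (φ.ker.map VF.subtype) ⊓ W with hK1
  have hmem : ∀ w, w ∈ K1 ↔ w ∈ W ∧ ∃ h : w ∈ VF, φ ⟨w, h⟩ = 1 := by
    intro w
    rw [hK1, Subgroup.mem_inf, Subgroup.mem_map]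
    constructor
    · rintro ⟨⟨⟨u, hu⟩, hu1, rfl⟩, hw⟩
      exact ⟨hw, hu, hu1⟩
    · rintro ⟨hw, h, h1⟩
      exact ⟨⟨⟨w, h⟩, h1, rfl⟩, hw⟩
  have hpow : ∀ w : Fr, w ^ (p ^ (n + m)) ∈ K1 := by
    intro w
    have h1 : w ^ (p ^ n) ∈ W := by
      have h2 := Subgroup.pow_index_mem W w
      rwa [hn] at h2
    rw [hmem]
    refine ⟨?_, ?_, ?_⟩
    · rw [pow_add, pow_mul]
      exact W.pow_mem h1 _
    · rw [pow_add, pow_mul]
      exact VF.pow_mem (hWV h1) _
    · have h3 : (⟨w ^ (p ^ (n + m)), by rw [pow_add, pow_mul]; exact VF.pow_mem (hWV h1) _⟩ : VF) =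
          ⟨w ^ (p ^ n), hWV h1⟩ ^ (p ^ m) := by
        apply Subtype.ext
        simp [pow_add, pow_mul]
      rw [h3, map_pow, ← hm]
      exact pow_card_eq_one'
  have hK1f : K1.FiniteIndex := by
    have h1 : (φ.ker).FiniteIndex := inferInstance
    have h2 : VF.FiniteIndex := Subgroup.finiteIndex_of_le hWV
    have h3 : (φ.ker.map VF.subtype).FiniteIndex := by
      refine ⟨?_⟩
      rw [Subgroup.index_map_subtype]
      exact mul_ne_zero h1.index_ne_zero h2.index_ne_zero
    infer_instance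
  have hNf : K1.normalCore.FiniteIndex := inferInstance
  have hNn : K1.normalCore.Normal := inferInstance
  have hPG : IsPGroup p (Fr ⧸ K1.normalCore) := by
    intro x
    obtain ⟨w, rfl⟩ := QuotientGroup.mk_surjective x
    refine ⟨n + m, ?_⟩
    rw [← QuotientGroup.mk_pow, QuotientGroup.eq_one_iff]
    intro g
    have := hpow (g * w * g⁻¹)
    rwa [conj_pow] at this
  have hidx : ∃ l : ℕ, K1.normalCore.index = p ^ l := by
    have : Finite (Fr ⧸ K1.normalCore) := Subgroup.finite_quotient_of_finiteIndex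
    obtain ⟨l, hl⟩ := hPG.exists_card_eq
    exact ⟨l, hl⟩
  refine ⟨⟨K1.normalCore, hNn, hidx⟩, fun w hw => ?_⟩
  exact ((hmem w).1 (Subgroup.normalCore_le K1 hw)).2

theorem exists_basisFin (V : Subgroup (FF p)) (hV : IsOpen (V : Set (FF p))) :
    ∃ (d : ℕ) (b : Fin d → FF p), IsBasisFin V b := by
  have hp0 : p ≠ 0 := (Fact.out : p.Prime).ne_zero
  set VF : Subgroup Fr := V.comap (io p) with hVF
  set W : Subgroup Fr := V.normalCore.comap (io p) with hWdef
  have hWn : W.Normal := inferInstance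
  have hWV : W ≤ VF := Subgroup.comap_mono (Subgroup.normalCore_le V)
  have hW : ∃ n : ℕ, W.index = p ^ n := by
    obtain ⟨n, hn⟩ := index_open V.normalCore (isOpen_core V hV)
    have h1 : W.index = V.normalCore.relIndex (io p).range := Subgroup.index_comap _ _
    have h2 : W.index ∣ p ^ n := by
      rw [h1, ← hn]
      exact Subgroup.relIndex_dvd_index_of_normal _ _
    obtain ⟨l, _, hl⟩ := (Nat.dvd_prime_pow (Fact.out : p.Prime)).1 h2
    exact ⟨l, hl⟩
  have hWf : W.FiniteIndex := by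
    obtain ⟨n, hn⟩ := hW
    exact ⟨by rw [hn]; exact pow_ne_zero _ hp0⟩
  have hVFf : VF.FiniteIndex := Subgroup.finiteIndex_of_le hWV
  have hfg : Group.FG VF := Subgroup.fg_of_index_ne_zero VF
  have hfree : IsFreeGroup VF := inferInstance
  set B := IsFreeGroup.basis VF with hB
  have hXf : Finite (IsFreeGroup.Generators VF) := Universal_finite_basis B
  obtain ⟨d, ⟨e⟩⟩ := Finite.exists_equiv_fin (IsFreeGroup.Generators VF)
  refine ⟨d, fun i => io p (B (e.symm i) : VF), fun i => (B (e.symm i)).2, ?_⟩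
  intro E _ _ hE f
  set φ0 : VF →* E := B.lift (fun x => f (e x)) with hφ0
  have hφ0b : ∀ i, φ0 (B (e.symm i)) = f i := by
    intro i
    rw [hφ0, FreeGroupBasis.lift_apply_apply]
    simp
  obtain ⟨N, hN⟩ := Universal_exists_N hWn hW hWV hE φ0
  obtain ⟨fN, hfc, hfs, hfio⟩ := exists_proj N
  have hqt : ∀ w w' : VF, qt p N w = qt p N w' → φ0 w = φ0 w' := by
    intro w w' h
    have h1 : (w : Fr)⁻¹ * w' ∈ N.N := QuotientGroup.eq.1 h
    obtain ⟨h2, h3⟩ := hN _ h1
    have h4 : φ0 (w⁻¹ * w') = 1 := h3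
    rw [map_mul, map_inv, inv_mul_eq_one] at h4
    exact h4
  classical
  set ψ : Qt p N → E := fun q => if h : ∃ w : VF, qt p N w = q then φ0 h.choose else 1 with hψ
  have hψw : ∀ w : VF, ψ (qt p N w) = φ0 w := by
    intro w
    have h : ∃ w' : VF, qt p N w' = qt p N w := ⟨w, rfl⟩
    rw [hψ]
    simp only
    rw [dif_pos h]
    exact hqt _ _ h.choose_spec
  -- approximation
  have hap : ∀ x ∈ V, ∀ O : Set (FF p), IsOpen O → x ∈ O → ∃ w : VF, io p w ∈ O := by
    intro x hx O hO hxO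
    obtain ⟨w, hw1, hw2⟩ := denseRange_io.exists_mem_open (hO.inter hV) ⟨x, hxO, hx⟩
    exact ⟨⟨w, hw2⟩, hw1⟩
  have hrep : ∀ x ∈ V, ∃ w : VF, fN x = qt p N w := by
    intro x hx
    have hO : IsOpen (fN ⁻¹' {fN x}) := (isOpen_discrete _).preimage hfc
    obtain ⟨w, hw⟩ := hap x hx _ hO rfl
    exact ⟨w, by rw [← hfio]; exact hw.symm⟩
  refine ⟨fun x => ψ (fN x), ?_, ?_, ?_, ?_⟩
  · intro g hg h hh
    obtain ⟨w, hw⟩ := hrep g hg
    obtain ⟨w', hw'⟩ := hrep h hh
    simp only [map_mul, hw, hw']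
    rw [hψw, hψw, ← map_mul, ← map_mul, ← hψw]
    rfl
  · intro i
    simp only
    rw [hfio, hψw, hφ0b]
  · intro e'
    exact (((isOpen_discrete _).preimage hfc : IsOpen (fN ⁻¹' (ψ ⁻¹' {e'})))).inter hV
  · intro φ' h1 h2 h3 x hx
    set Φ : VF →* E := MonoidHom.mk' (fun w => φ' (io p w)) (by
      intro a b
      have := h1 (io p a) a.2 (io p b) b.2
      rw [← map_mul] at this
      exact this) with hΦ
    have hΦ0 : Φ = φ0 := by
      refine B.ext_hom Φ φ0 fun a => ?_
      have h4 : φ' (io p (B (e.symm (e a)) : VF)) = f (e a) := h2 (e a)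
      rw [Equiv.symm_apply_apply] at h4
      have h5 := hφ0b (e a)
      rw [Equiv.symm_apply_apply] at h5
      rw [h5]
      exact h4
    have hO : IsOpen ((φ' ⁻¹' {φ' x} ∩ (V : Set (FF p))) ∩ fN ⁻¹' {fN x}) :=
      (h3 _).inter ((isOpen_discrete _).preimage hfc)
    obtain ⟨w, ⟨hw1, _⟩, hw2⟩ := hap x hx _ hO ⟨⟨rfl, hx⟩, rfl⟩
    have hw1' : φ' (io p w) = φ' x := hw1
    have hw2' : fN (io p w) = fN x := hw2
    have h6 : Φ w = φ' x := hw1'
    change φ' x = ψ (fN x)
    rw [← h6, hΦ0, ← hw2', hfio, hψw]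

end D687
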