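import Pool.Agent.Lib_MP_d687bf.Universal

/-!
MP_d687bf, A4: (1.1) for profinite target groups.

Proof. `E` profinite, all open normal subgroups of `p`-power index. For every open normal `O ≤ E`
let `φ_O : V → E/O` be the unique continuous hom with `b i ↦ f i O`. For `x ∈ V` the closed sets
`{e | e O = φ_O x}` are non-empty and directed (uniqueness gives compatibility), so by compactness
they have a common element, unique because `E` is totally disconnected and Hausdorff. This defines
`φ`; continuity: `φ x O = φ_O x`.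
-/

set_option autoImplicit false

open Set Filter Topology

namespace D687

variable {p : ℕ} [Fact p.Prime]

section aux

variable {E : Type} [Group E] [TopologicalSpace E]

/-- open normal subgroups -/
private abbrev UniversalProf_ON (E : Type) [Group E] [TopologicalSpace E] : Type :=
  {O : Subgroup E // O.Normal ∧ IsOpen (O : Set E)}

private instance UniversalProf_inst (O : UniversalProf_ON E) : O.1.Normal := O.2.1

variable [IsTopologicalGroup E]

private theorem UniversalProf_pre (O : UniversalProf_ON E) (e : E) :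
    ((fun e : E => (e : E ⧸ O.1)) ⁻¹' {(e : E ⧸ O.1)}) =
      (fun x : E => e⁻¹ * x) ⁻¹' (O.1 : Set E) := by
  ext x
  rw [mem_preimage, mem_singleton_iff, mem_preimage, SetLike.mem_coe, eq_comm,
    QuotientGroup.eq]

/-- a coset of an open normal subgroup is open -/
private theorem UniversalProf_coset (O : UniversalProf_ON E) (q : E ⧸ O.1) :
    IsOpen ((fun e : E => (e : E ⧸ O.1)) ⁻¹' {q}) := by
  obtain ⟨e, rfl⟩ := QuotientGroup.mk_surjective q
  rw [UniversalProf_pre]
  exact O.2.2.preimage (continuous_const_mul _)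

private theorem UniversalProf_cosetc (O : UniversalProf_ON E) (q : E ⧸ O.1) :
    IsClosed ((fun e : E => (e : E ⧸ O.1)) ⁻¹' {q}) := by
  obtain ⟨e, rfl⟩ := QuotientGroup.mk_surjective q
  rw [UniversalProf_pre]
  exact (O.1.isClosed_of_isOpen O.2.2).preimage (continuous_const_mul _)

variable [CompactSpace E]

private theorem UniversalProf_fin (O : UniversalProf_ON E) : Finite (E ⧸ O.1) :=
  O.1.quotient_finite_of_isOpen O.2.2

private theorem UniversalProf_pgroup
    (hE : ∀ N : Subgroup E, N.Normal → IsOpen (N : Set E) → ∃ n : ℕ, N.index = p ^ n)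
    (O : UniversalProf_ON E) : IsPGroup p (E ⧸ O.1) := by
  obtain ⟨n, hn⟩ := hE O.1 O.2.1 O.2.2
  exact IsPGroup.of_card (n := n) hn

variable [T2Space E] [TotallyDisconnectedSpace E]

/-- open normal subgroups separate points -/
private theorem UniversalProf_sep {e e' : E}
    (h : ∀ O : UniversalProf_ON E, (e : E ⧸ O.1) = (e' : E ⧸ O.1)) : e = e' := by
  by_contra hne
  have h1 : e⁻¹ * e' ≠ 1 := fun h0 => hne (inv_mul_eq_one.1 h0)
  obtain ⟨H, hH⟩ := ProfiniteGrp.exist_openNormalSubgroup_sub_open_nhds_of_one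
    (U := ({e⁻¹ * e'} : Set E)ᶜ) isOpen_compl_singleton (by
      rw [mem_compl_singleton_iff]; exact h1.symm)
  have h2 : e⁻¹ * e' ∈ H.toSubgroup :=
    QuotientGroup.eq.1 (h ⟨H.toSubgroup, H.isNormal', H.isOpen'⟩)
  exact hH h2 rfl

end aux

theorem exists_hom_prof (V : Subgroup (FF p)) (hV : IsOpen (V : Set (FF p))) {d : ℕ}
    (b : Fin d → FF p) (hb : IsBasisFin V b) (E : Type) [Group E] [TopologicalSpace E]
    [IsTopologicalGroup E] [CompactSpace E] [T2Space E] [TotallyDisconnectedSpace E]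
    (hE : ∀ N : Subgroup E, N.Normal → IsOpen (N : Set E) → ∃ n : ℕ, N.index = p ^ n)
    (f : Fin d → E) :
    ∃ φ : FF p → E, (∀ g ∈ V, ∀ h ∈ V, φ (g * h) = φ g * φ h) ∧ (∀ i, φ (b i) = f i) ∧
      ContinuousOn φ V := by
  classical
  have hex := fun O : UniversalProf_ON E =>
    have := UniversalProf_fin O
    hb.2 (E ⧸ O.1) (UniversalProf_pgroup hE O) (fun i => (f i : E ⧸ O.1))
  choose ψ hψmul hψb hψo hψu using hex
  -- compatibility
  have hcomp : ∀ (O O' : UniversalProf_ON E) (hle : O.1 ≤ O'.1), ∀ x ∈ V,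
      QuotientGroup.map O.1 O'.1 (MonoidHom.id E) hle (ψ O x) = ψ O' x := by
    intro O O' hle
    refine hψu O' (fun x => QuotientGroup.map O.1 O'.1 (MonoidHom.id E) hle (ψ O x)) ?_ ?_ ?_
    · intro g hg h hh
      rw [hψmul O g hg h hh, map_mul]
    · intro i
      rw [hψb O i]
      rfl
    · intro e
      have h1 : (fun x => QuotientGroup.map O.1 O'.1 (MonoidHom.id E) hle (ψ O x)) ⁻¹' {e} ∩
          (V : Set (FF p)) = ⋃ q ∈ {q : E ⧸ O.1 |
            QuotientGroup.map O.1 O'.1 (MonoidHom.id E) hle q = e},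
            (ψ O ⁻¹' {q} ∩ (V : Set (FF p))) := by
        ext x
        simp only [mem_inter_iff, mem_preimage, mem_singleton_iff, mem_iUnion, mem_setOf_eq,
          exists_prop]
        constructor
        · rintro ⟨h2, h3⟩
          exact ⟨_, h2, rfl, h3⟩
        · rintro ⟨q, h2, h3, h4⟩
          exact ⟨by rw [h3]; exact h2, h4⟩
      rw [h1]
      exact isOpen_biUnion fun q _ => hψo O q
  have hne : Nonempty (UniversalProf_ON E) :=
    ⟨⟨⊤, inferInstance, by rw [Subgroup.coe_top]; exact isOpen_univ⟩⟩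
  have hval : ∀ x ∈ V, ∃ e : E, ∀ O : UniversalProf_ON E, (e : E ⧸ O.1) = ψ O x := by
    intro x hx
    have h := IsCompact.nonempty_iInter_of_directed_nonempty_isCompact_isClosed
      (fun O : UniversalProf_ON E => (fun e : E => (e : E ⧸ O.1)) ⁻¹' {ψ O x}) ?_ ?_ ?_ ?_
    · obtain ⟨e, he⟩ := h
      exact ⟨e, fun O => mem_iInter.1 he O⟩
    · intro O O'
      refine ⟨⟨O.1 ⊓ O'.1, inferInstance, ?_⟩, ?_, ?_⟩
      · rw [Subgroup.coe_inf]
        exact O.2.2.inter O'.2.2
      · intro e he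
        have h1 := hcomp ⟨O.1 ⊓ O'.1, inferInstance, by
          rw [Subgroup.coe_inf]; exact O.2.2.inter O'.2.2⟩ O inf_le_left x hx
        rw [mem_preimage, mem_singleton_iff] at he ⊢
        rw [← h1, ← he]
        rfl
      · intro e he
        have h1 := hcomp ⟨O.1 ⊓ O'.1, inferInstance, by
          rw [Subgroup.coe_inf]; exact O.2.2.inter O'.2.2⟩ O' inf_le_right x hx
        rw [mem_preimage, mem_singleton_iff] at he ⊢
        rw [← h1, ← he]
        rfl
    · intro O
      obtain ⟨e, he⟩ := QuotientGroup.mk_surjective (ψ O x)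
      exact ⟨e, he⟩
    · intro O
      exact (UniversalProf_cosetc O _).isCompact
    · intro O
      exact UniversalProf_cosetc O _
  choose! φ hφ using hval
  refine ⟨φ, ?_, ?_, ?_⟩
  · intro g hg h hh
    refine UniversalProf_sep fun O => ?_
    rw [hφ _ (V.mul_mem hg hh) O, hψmul O g hg h hh, ← hφ g hg O, ← hφ h hh O]
    rfl
  · intro i
    refine UniversalProf_sep fun O => ?_
    rw [hφ _ (hb.1 i) O, hψb O i]
  · intro x hx
    rw [ContinuousWithinAt, tendsto_nhds]
    intro W hW hxW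
    have h1 : IsOpen ((fun y : E => φ x * y) ⁻¹' W) := hW.preimage (continuous_const_mul _)
    have h2 : (1 : E) ∈ (fun y : E => φ x * y) ⁻¹' W := by
      rw [mem_preimage, mul_one]; exact hxW
    obtain ⟨H, hH⟩ := ProfiniteGrp.exist_openNormalSubgroup_sub_open_nhds_of_one h1 h2
    let O : UniversalProf_ON E := ⟨H.toSubgroup, H.isNormal', H.isOpen'⟩
    have h3 := hψo O (ψ O x)
    have h4 : ψ O ⁻¹' {ψ O x} ∩ (V : Set (FF p)) ∈ 𝓝 x := h3.mem_nhds ⟨rfl, hx⟩
    refine mem_of_superset (mem_nhdsWithin_of_mem_nhds h4) ?_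
    rintro y ⟨hy, hyV⟩
    rw [mem_preimage, mem_singleton_iff, ← hφ y hyV O, ← hφ x hx O, eq_comm,
      QuotientGroup.eq] at hy
    have h5 := hH (show (φ x)⁻¹ * φ y ∈ (H : Set E) from hy)
    rw [mem_preimage, mul_inv_cancel_left] at h5
    exact h5

theorem hom_prof_unique (V : Subgroup (FF p)) (hV : IsOpen (V : Set (FF p))) {d : ℕ}
    (b : Fin d → FF p) (hb : IsBasisFin V b) (E : Type) [Group E] [TopologicalSpace E]
    [IsTopologicalGroup E] [CompactSpace E] [T2Space E] [TotallyDisconnectedSpace E]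
    (hE : ∀ N : Subgroup E, N.Normal → IsOpen (N : Set E) → ∃ n : ℕ, N.index = p ^ n)
    (φ φ' : FF p → E) (h1 : ∀ g ∈ V, ∀ h ∈ V, φ (g * h) = φ g * φ h)
    (h1' : ∀ g ∈ V, ∀ h ∈ V, φ' (g * h) = φ' g * φ' h) (h2 : ∀ i, φ (b i) = φ' (b i))
    (h3 : ContinuousOn φ V) (h3' : ContinuousOn φ' V) : ∀ x ∈ V, φ x = φ' x := by
  intro x hx
  refine UniversalProf_sep fun O => ?_
  have := UniversalProf_fin O
  obtain ⟨ψ, _, _, _, hu⟩ := hb.2 (E ⧸ O.1) (UniversalProf_pgroup hE O)
    (fun i => (φ (b i) : E ⧸ O.1))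
  have key : ∀ χ : FF p → E, (∀ g ∈ V, ∀ h ∈ V, χ (g * h) = χ g * χ h) →
      (∀ i, χ (b i) = φ (b i)) → ContinuousOn χ V → ((χ x : E) : E ⧸ O.1) = ψ x := by
    intro χ hχ hχb hχc
    refine hu (fun y => ((χ y : E) : E ⧸ O.1)) ?_ ?_ ?_ x hx
    · intro g hg h hh
      rw [hχ g hg h hh]
      rfl
    · intro i
      rw [hχb i]
    · intro q
      have h4 := hχc.isOpen_inter_preimage hV (UniversalProf_coset O q)
      rw [inter_comm]
      exact h4
  rw [key φ h1 (fun _ => rfl) h3, key φ' h1' (fun i => (h2 i).symm) h3']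

end D687
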