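import Pool.Agent.Lib_MP_d687bf.Tpow

/-!
MP_d687bf, B6: facts on `ℤ_p[[T]]` used in (9.2). `ω_m = wm m = (1+T)^(p^m) - 1` is a distinguished
polynomial of degree `p ^ m`: `ω_m ≡ T^(p^m)` mod `p`.
-/

set_option autoImplicit false

open Set Filter Topology

namespace D687

variable {p : ℕ} [Fact p.Prime]

private theorem ZTFacts_toZMod_surj : Function.Surjective (PadicInt.toZMod : ℤ_[p] →+* ZMod p) := by
  intro z
  have : NeZero p := ⟨(Fact.out : p.Prime).ne_zero⟩
  refine ⟨(z.val : ℤ_[p]), ?_⟩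
  rw [map_natCast, ZMod.natCast_zmod_val]

private theorem ZTFacts_toZMod_eq (a : ℤ_[p]) : PadicInt.toZMod a = 0 ↔ (p : ℤ_[p]) ∣ a := by
  rw [← RingHom.mem_ker, PadicInt.ker_toZMod, PadicInt.maximalIdeal_eq_span_p,
    Ideal.mem_span_singleton]

private theorem ZTFacts_p_zero : (p : K1 p) = 0 := by
  have h : (p : K1 p) = PowerSeries.C (p : ZMod p) := (map_natCast PowerSeries.C p).symm
  rw [h, CharP.cast_eq_zero, map_zero]

private theorem ZTFacts_coeff_redP (n : ℕ) (f : ZT p) :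
    PowerSeries.coeff n (redP f) = PadicInt.toZMod (PowerSeries.coeff n f) :=
  PowerSeries.coeff_map _ _ _

theorem redP_surjective : Function.Surjective (redP : ZT p → K1 p) := by
  intro f
  choose g hg using (ZTFacts_toZMod_surj : Function.Surjective
    (PadicInt.toZMod : ℤ_[p] →+* ZMod p))
  refine ⟨PowerSeries.mk fun n => g (PowerSeries.coeff n f), ?_⟩
  ext n
  rw [ZTFacts_coeff_redP, PowerSeries.coeff_mk, hg]

theorem redP_eq_zero_iff (f : ZT p) : redP f = 0 ↔ (p : ZT p) ∣ f := by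
  constructor
  · intro h
    have h1 : ∀ n, (p : ℤ_[p]) ∣ PowerSeries.coeff n f := by
      intro n
      rw [← ZTFacts_toZMod_eq, ← ZTFacts_coeff_redP, h, map_zero]
    choose g hg using h1
    refine ⟨PowerSeries.mk g, ?_⟩
    ext n
    have h2 : (p : ZT p) = PowerSeries.C (p : ℤ_[p]) := (map_natCast PowerSeries.C p).symm
    rw [h2, PowerSeries.coeff_C_mul, PowerSeries.coeff_mk, hg]
  · rintro ⟨g, rfl⟩
    rw [map_mul, map_natCast, ZTFacts_p_zero, zero_mul]

theorem natCast_p_ne_zero : (p : ZT p) ≠ 0 := by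
  intro h
  have h1 := congrArg (PowerSeries.constantCoeff (R := ℤ_[p])) h
  rw [map_natCast, map_zero] at h1
  exact (Fact.out : p.Prime).ne_zero (Nat.cast_eq_zero.1 h1)

/-- `ω_m ∣ p^k f` implies `ω_m ∣ f` (the reduction of `ω_m` mod `p` is not zero). -/
theorem wm_dvd_of_dvd_pow_mul (m k : ℕ) (f : ZT p) (h : wm m ∣ (p : ZT p) ^ k * f) :
    wm m ∣ f := by
  induction k generalizing f with
  | zero => simpa using h
  | succ k ih =>
    apply ih
    rw [pow_succ', mul_assoc] at h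
    obtain ⟨q, hq⟩ := h
    have h1 : redP q = 0 := by
      have h2 := congrArg redP hq
      rw [map_mul, map_natCast, ZTFacts_p_zero, zero_mul, map_mul, redP_wm] at h2
      exact (mul_eq_zero.1 h2.symm).resolve_left (pow_ne_zero _ PowerSeries.X_ne_zero)
    obtain ⟨q', rfl⟩ := (redP_eq_zero_iff q).1 h1
    refine ⟨q', ?_⟩
    apply mul_left_cancel₀ (natCast_p_ne_zero (p := p))
    rw [hq]
    ring

/-- `ω_{m} = ω_{j} * c` with `c ≡ T^(p^m - p^j)` mod `p`, for `j ≤ m`. -/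
theorem wm_factor (j m : ℕ) (h : j ≤ m) :
    ∃ c : ZT p, (wm m : ZT p) = wm j * c ∧ redP c = PowerSeries.X ^ (p ^ m - p ^ j) := by
  have hp : 0 < p := (Fact.out : p.Prime).pos
  have h1 : (wm j : ZT p) ∣ wm m := by
    unfold wm
    have h2 : p ^ m = p ^ j * p ^ (m - j) := by
      rw [← pow_add, Nat.add_sub_cancel' h]
    rw [h2, pow_mul]
    have h3 := sub_dvd_pow_sub_pow ((1 + PowerSeries.X : ZT p) ^ (p ^ j)) 1 (p ^ (m - j))
    rwa [one_pow] at h3
  obtain ⟨c, hc⟩ := h1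
  refine ⟨c, hc, ?_⟩
  have h2 := congrArg redP hc
  rw [map_mul, redP_wm, redP_wm] at h2
  have h3 : (PowerSeries.X : K1 p) ^ (p ^ m) =
      PowerSeries.X ^ (p ^ j) * PowerSeries.X ^ (p ^ m - p ^ j) := by
    rw [← pow_add, Nat.add_sub_cancel' (Nat.pow_le_pow_right hp h)]
  rw [h3] at h2
  exact (mul_left_cancel₀ (pow_ne_zero _ PowerSeries.X_ne_zero) h2).symm

private theorem ZTFacts_residue (a : ℤ_[p]) :
    IsLocalRing.residue ℤ_[p] a = 0 ↔ PadicInt.toZMod a = 0 := by
  rw [IsLocalRing.residue_eq_zero_iff, ← RingHom.mem_ker, PadicInt.ker_toZMod]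

private theorem ZTFacts_coeff_wm (m n : ℕ) :
    IsLocalRing.residue ℤ_[p] (PowerSeries.coeff n (wm m : ZT p)) = 0 ↔ n ≠ p ^ m := by
  rw [ZTFacts_residue, ← ZTFacts_coeff_redP, redP_wm, PowerSeries.coeff_X_pow]
  split_ifs with h <;> simp [h]

private theorem ZTFacts_map_ne (m : ℕ) :
    (wm m : ZT p).map (IsLocalRing.residue ℤ_[p]) ≠ 0 := by
  intro h
  have h1 := congrArg (PowerSeries.coeff (p ^ m)) h
  rw [PowerSeries.coeff_map, map_zero] at h1
  exact (ZTFacts_coeff_wm m (p ^ m)).1 h1 rfl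

private theorem ZTFacts_order (m : ℕ) :
    ((wm m : ZT p).map (IsLocalRing.residue ℤ_[p])).order.toNat = p ^ m := by
  have h : ((wm m : ZT p).map (IsLocalRing.residue ℤ_[p])).order = (p ^ m : ℕ) := by
    rw [PowerSeries.order_eq_nat]
    refine ⟨?_, fun i hi => ?_⟩
    · rw [PowerSeries.coeff_map]
      exact fun h1 => (ZTFacts_coeff_wm m (p ^ m)).1 h1 rfl
    · rw [PowerSeries.coeff_map]
      exact (ZTFacts_coeff_wm m i).2 hi.ne
  rw [h]
  rfl

private noncomputable def ZTFacts_pol {N : ℕ} (r : Fin N → ℤ_[p]) : Polynomial ℤ_[p] :=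
  ∑ i : Fin N, Polynomial.C (r i) * Polynomial.X ^ (i : ℕ)

private theorem ZTFacts_pol_coeff {N : ℕ} (r : Fin N → ℤ_[p]) (i : Fin N) :
    (ZTFacts_pol r).coeff i = r i := by
  unfold ZTFacts_pol
  rw [Polynomial.finsetSum_coeff, Finset.sum_eq_single i]
  · simp
  · intro j _ hj
    rw [Polynomial.coeff_C_mul_X_pow, if_neg fun h => hj (Fin.ext h.symm)]
  · intro h
    exact absurd (Finset.mem_univ i) h

private noncomputable def ZTFacts_Phi (m : ℕ) (x : ZT p × (Fin (p ^ m) → ℤ_[p])) : ZT p :=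
  wm m * x.1 + ∑ i : Fin (p ^ m), PowerSeries.C (x.2 i) * PowerSeries.X ^ (i : ℕ)

private theorem ZTFacts_coe_pol {N : ℕ} (r : Fin N → ℤ_[p]) :
    ((ZTFacts_pol r : Polynomial ℤ_[p]) : PowerSeries ℤ_[p]) =
      ∑ i : Fin N, PowerSeries.C (r i) * PowerSeries.X ^ (i : ℕ) := by
  unfold ZTFacts_pol
  have h := map_sum (Polynomial.coeToPowerSeries.ringHom (R := ℤ_[p]))
    (fun i : Fin N => Polynomial.C (r i) * Polynomial.X ^ (i : ℕ)) Finset.univ
  simp only [Polynomial.coeToPowerSeries.ringHom_apply] at h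
  rw [h]
  refine Finset.sum_congr rfl fun i _ => ?_
  simp

private theorem ZTFacts_div (m : ℕ) (x : ZT p × (Fin (p ^ m) → ℤ_[p])) :
    (ZTFacts_Phi m x).IsWeierstrassDivision (wm m) x.1 (ZTFacts_pol x.2) where
  degree_lt := by
    have h1 := ZTFacts_order (p := p) m
    refine lt_of_lt_of_le (Polynomial.degree_sum_fin_lt x.2) (le_of_eq ?_)
    exact congrArg (Nat.cast : ℕ → WithBot ℕ) h1.symm
  eq_mul_add := by
    rw [ZTFacts_coe_pol]
    rfl

private theorem ZTFacts_inj (m : ℕ) : Function.Injective (ZTFacts_Phi (p := p) m) := by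
  intro x y h
  have hx := ZTFacts_div m x
  have hy := ZTFacts_div m y
  rw [← h] at hy
  obtain ⟨h1, h2⟩ := PowerSeries.IsWeierstrassDivision.elim (ZTFacts_map_ne m) hx hy
  refine Prod.ext h1 (funext fun i => ?_)
  rw [← ZTFacts_pol_coeff x.2 i, h2, ZTFacts_pol_coeff]

private theorem ZTFacts_surj (m : ℕ) : Function.Surjective (ZTFacts_Phi (p := p) m) := by
  intro f
  obtain ⟨q, r, h⟩ := PowerSeries.exists_isWeierstrassDivision f (ZTFacts_map_ne (p := p) m)
  refine ⟨(q, fun i => r.coeff i), ?_⟩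
  have h1 : r.degree < (p ^ m : ℕ) := by
    refine lt_of_lt_of_le h.degree_lt (le_of_eq ?_)
    exact congrArg (Nat.cast : ℕ → WithBot ℕ) (ZTFacts_order (p := p) m)
  have h2 : ZTFacts_pol (fun i : Fin (p ^ m) => r.coeff i) = r := by
    ext n
    by_cases hn : n < p ^ m
    · exact ZTFacts_pol_coeff (fun i : Fin (p ^ m) => r.coeff i) ⟨n, hn⟩
    · have h3 : (p ^ m : ℕ) ≤ n := not_lt.1 hn
      rw [Polynomial.coeff_eq_zero_of_degree_lt (lt_of_lt_of_le h1 (by exact_mod_cast h3)),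
        Polynomial.coeff_eq_zero_of_degree_lt (p := ZTFacts_pol _)
          (lt_of_lt_of_le (Polynomial.degree_sum_fin_lt _) (by exact_mod_cast h3))]
  rw [ZTFacts_Phi, ← ZTFacts_coe_pol, h2]
  exact h.eq_mul_add.symm

private theorem ZTFacts_cont (m : ℕ) : Continuous (ZTFacts_Phi (p := p) m) := by
  unfold ZTFacts_Phi
  refine (continuous_const.mul continuous_fst).add (continuous_finsetSum _ fun i _ => ?_)
  refine Continuous.mul ?_ continuous_const
  exact PowerSeries.WithPiTopology.continuous_C.comp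
    ((continuous_apply i).comp continuous_snd)

private theorem ZTFacts_add (m : ℕ) (x y : ZT p × (Fin (p ^ m) → ℤ_[p])) :
    ZTFacts_Phi m (x + y) = ZTFacts_Phi m x + ZTFacts_Phi m y := by
  simp only [ZTFacts_Phi, Prod.fst_add, Prod.snd_add, Pi.add_apply, map_add, add_mul, mul_add,
    Finset.sum_add_distrib]
  abel

/-- Weierstrass division by `ω_m`: there are continuous additive `ℤ_p`-linear functionals
`c_0, ..., c_{p^m - 1}` on `ℤ_p[[T]]` whose common kernel is `ω_m ℤ_p[[T]]`.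
(Quotient-remainder: `f = ω_m q + ∑ c_i(f) T^i`; or: the ideal `(ω_m)` is closed, the quotient is
a finitely generated free `ℤ_p`-module.) -/
theorem exists_functionals (m : ℕ) : ∃ c : Fin (p ^ m) → (ZT p → ℤ_[p]),
    (∀ i, Continuous (c i)) ∧ (∀ i f g, c i (f + g) = c i f + c i g) ∧
    (∀ f : ZT p, wm m ∣ f ↔ ∀ i, c i f = 0) := by
  let e : ZT p × (Fin (p ^ m) → ℤ_[p]) ≃ ZT p :=
    Equiv.ofBijective (ZTFacts_Phi m) ⟨ZTFacts_inj m, ZTFacts_surj m⟩
  have hc : CompactSpace (ZT p) := (proPRing_ZT (p := p)).toCompactSpace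
  have ht : T2Space (ZT p) := (proPRing_ZT (p := p)).toT2Space
  let h : ZT p × (Fin (p ^ m) → ℤ_[p]) ≃ₜ ZT p :=
    Continuous.homeoOfEquivCompactToT2 (f := e) (ZTFacts_cont m)
  have hh : ∀ x, h x = ZTFacts_Phi m x := fun x => rfl
  have hs : ∀ f, ZTFacts_Phi m (h.symm f) = f := fun f => h.apply_symm_apply f
  refine ⟨fun i f => (h.symm f).2 i, fun i => ?_, fun i f g => ?_, fun f => ?_⟩
  · exact (continuous_apply i).comp (continuous_snd.comp h.symm.continuous)
  · have h1 : h.symm (f + g) = h.symm f + h.symm g := by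
      apply ZTFacts_inj m
      rw [hs, ZTFacts_add, hs, hs]
    show (h.symm (f + g)).2 i = (h.symm f).2 i + (h.symm g).2 i
    rw [h1]
    rfl
  · constructor
    · rintro ⟨q, rfl⟩ i
      have h1 : h.symm (wm m * q) = (q, 0) := by
        apply ZTFacts_inj m
        rw [hs]
        simp [ZTFacts_Phi]
      show (h.symm (wm m * q)).2 i = 0
      rw [h1]
      rfl
    · intro hf
      refine ⟨(h.symm f).1, ?_⟩
      have h1 := hs f
      have h2 : (h.symm f).2 = 0 := funext hf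
      rw [ZTFacts_Phi, h2] at h1
      simpa using h1.symm

end D687
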